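import Pool.Agent.H631.KR.Defs

open MeasureTheory Filter Topology ENNReal Complex
open scoped Laplacian FourierTransform InnerProductSpace

namespace KRS

noncomputable section

/-! TARGET: prove the following -/


theorem mulOp_memLp {d : ℕ} (m : EE d → ℂ) (hm : Measurable m) (C : ℝ) (hC : ∀ x, ‖m x‖ ≤ C)
    (f : HH d) : MemLp (fun x => m x * f x) 2 (volume : Measure (EE d)) := by
  refine MemLp.of_le_mul (c := C) (Lp.memLp f)
    (hm.aestronglyMeasurable.mul (Lp.aestronglyMeasurable f)) (ae_of_all _ fun x => ?_)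
  rw [norm_mul]
  exact mul_le_mul_of_nonneg_right (hC x) (norm_nonneg _)

theorem mulOp_exists {d : ℕ} (m : EE d → ℂ) (hm : Measurable m) (C : ℝ) (hC : ∀ x, ‖m x‖ ≤ C) :
    ∃ A : HH d →L[ℂ] HH d, ∀ f : HH d, (A f : EE d → ℂ) =ᵐ[volume] fun x => m x * f x := by
  let L : HH d →ₗ[ℂ] HH d :=
    { toFun := fun f => (mulOp_memLp m hm C hC f).toLp _
      map_add' := by
        intro f g
        rw [← MemLp.toLp_add]
        apply MemLp.toLp_congr
        filter_upwards [Lp.coeFn_add f g] with x hx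
        rw [hx]
        simp only [Pi.add_apply]
        ring
      map_smul' := by
        intro c f
        rw [← MemLp.toLp_const_smul]
        apply MemLp.toLp_congr
        filter_upwards [Lp.coeFn_smul c f] with x hx
        rw [hx]
        simp only [Pi.smul_apply, smul_eq_mul, RingHom.id_apply]
        ring }
  have hL : ∀ f : HH d, (L f : EE d → ℂ) =ᵐ[volume] fun x => m x * f x := by
    intro f
    exact (mulOp_memLp m hm C hC f).coeFn_toLp
  refine ⟨L.mkContinuous C ?_, ?_⟩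
  · intro f
    apply Lp.norm_le_mul_norm_of_ae_le_mul
    filter_upwards [hL f] with x hx
    rw [hx, norm_mul]
    exact mul_le_mul_of_nonneg_right (hC x) (norm_nonneg _)
  · intro f
    exact hL f

theorem mulOp_ae {d : ℕ} (m : EE d → ℂ) (hm : Measurable m) (C : ℝ) (hC : ∀ x, ‖m x‖ ≤ C)
    (f : HH d) : (mulOp m f : EE d → ℂ) =ᵐ[volume] fun x => m x * f x := by
  have h := mulOp_exists m hm C hC
  have e : mulOp m = h.choose := by
    unfold mulOp
    rw [dif_pos h]
  rw [e]
  exact h.choose_spec f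

theorem mulOp_norm {d : ℕ} (m : EE d → ℂ) (hm : Measurable m) (C : ℝ) (hC : ∀ x, ‖m x‖ ≤ C)
    (f : HH d) : ‖mulOp m f‖ ≤ C * ‖f‖ := by
  apply Lp.norm_le_mul_norm_of_ae_le_mul
  filter_upwards [mulOp_ae m hm C hC f] with x hx
  rw [hx, norm_mul]
  exact mul_le_mul_of_nonneg_right (hC x) (norm_nonneg _)

theorem mulOp_inner {d : ℕ} (m : EE d → ℂ) (hm : Measurable m) (C : ℝ) (hC : ∀ x, ‖m x‖ ≤ C)
    (f g : HH d) :
    ⟪mulOp m f, g⟫_ℂ = ⟪f, mulOp (fun x => (starRingEnd ℂ) (m x)) g⟫_ℂ := by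
  rw [L2.inner_def, L2.inner_def]
  apply integral_congr_ae
  have hm' : Measurable fun x => (starRingEnd ℂ) (m x) := by
    exact (Complex.continuous_conj.measurable).comp hm
  have hC' : ∀ x, ‖(starRingEnd ℂ) (m x)‖ ≤ C := by
    intro x
    rw [RCLike.norm_conj]
    exact hC x
  filter_upwards [mulOp_ae m hm C hC f, mulOp_ae (fun x => (starRingEnd ℂ) (m x)) hm' C hC' g]
    with x h1 h2
  rw [h1, h2]
  simp only [RCLike.inner_apply, map_mul]
  ring

theorem proj_ae {d : ℕ} (S : Set (EE d)) (hS : MeasurableSet S) (f : HH d) :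
    (proj S f : EE d → ℂ) =ᵐ[volume] S.indicator f := by
  have h := mulOp_ae (S.indicator fun _ => (1 : ℂ)) (measurable_const.indicator hS) 1 (by
    intro x
    by_cases hx : x ∈ S
    · simp [hx]
    · simp [hx]) f
  filter_upwards [h] with x hx
  have e : (proj S f : EE d → ℂ) x = S.indicator (fun _ => (1 : ℂ)) x * f x := hx
  rw [e]
  by_cases hx : x ∈ S
  · simp [hx]
  · simp [hx]

theorem proj_norm {d : ℕ} (S : Set (EE d)) (hS : MeasurableSet S) (f : HH d) :
    ‖proj S f‖ ≤ ‖f‖ := by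
  have h := mulOp_norm (S.indicator fun _ => (1 : ℂ)) (measurable_const.indicator hS) 1 (by
    intro x
    by_cases hx : x ∈ S
    · simp [hx]
    · simp [hx]) f
  rw [one_mul] at h
  exact h

theorem wm_ae {d : ℕ} (W : EE d → ℝ) (hW : Wt W) (f : HH d) :
    (wm W f : EE d → ℂ) =ᵐ[volume] fun x => (W x : ℂ) * f x := by
  obtain ⟨h1, h2, ⟨B, hB⟩, -⟩ := hW
  refine mulOp_ae (fun x => (W x : ℂ)) (Complex.measurable_ofReal.comp h1) B ?_ f
  intro x
  rw [Complex.norm_real, Real.norm_eq_abs, abs_of_nonneg (h2 x)]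
  exact hB x

theorem wn_wt {d : ℕ} (V : EE d → ℂ) (hV : Measurable V) (n : ℕ) : Wt (wn V n) := by
  have hS : MeasurableSet {x : EE d | ‖x‖ ≤ n ∧ ‖V x‖ ≤ n} := by
    apply MeasurableSet.inter
    · exact measurableSet_le measurable_norm measurable_const
    · exact measurableSet_le hV.norm measurable_const
  refine ⟨?_, ?_, ⟨Real.sqrt n, ?_⟩, ⟨n, ?_⟩⟩
  · have : Measurable fun x => Real.sqrt ‖V x‖ := hV.norm.sqrt
    exact this.indicator hS
  · intro x
    exact Set.indicator_nonneg (fun y _ => Real.sqrt_nonneg _) x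
  · intro x
    unfold wn
    by_cases hx : x ∈ {x : EE d | ‖x‖ ≤ n ∧ ‖V x‖ ≤ n}
    · rw [Set.indicator_of_mem hx]
      exact Real.sqrt_le_sqrt hx.2
    · rw [Set.indicator_of_notMem hx]
      exact Real.sqrt_nonneg _
  · intro x hx
    unfold wn
    rw [Set.indicator_of_notMem]
    intro h
    exact absurd h.1 (not_le.2 hx)

end

end KRS
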