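import Pool.Agent.H631.KR.Defs
import Pool.Agent.H631.KR.K00

open MeasureTheory Filter Topology ENNReal Complex
open scoped Laplacian FourierTransform InnerProductSpace

namespace KRS

noncomputable section

/-! TARGET: prove the following -/

theorem fm_norm_app {d : ℕ} (m : EE d → ℂ) (f : HH d) :
    fm m f = (Lp.fourierTransformₗᵢ (EE d) ℂ).symm
      (mulOp m ((Lp.fourierTransformₗᵢ (EE d) ℂ) f)) := rfl

theorem fm_norm {d : ℕ} (m : EE d → ℂ) (hm : Measurable m) (C : ℝ) (hC : ∀ x, ‖m x‖ ≤ C) (f : HH d) :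
    ‖fm m f‖ ≤ C * ‖f‖ := by
  rw [fm_norm_app, LinearIsometryEquiv.norm_map]
  have h := mulOp_norm m hm C hC ((Lp.fourierTransformₗᵢ (EE d) ℂ) f)
  rwa [LinearIsometryEquiv.norm_map] at h

theorem fm_inner_left {d : ℕ} (f g : HH d) :
    ⟪(Lp.fourierTransformₗᵢ (EE d) ℂ).symm f, g⟫_ℂ
      = ⟪f, (Lp.fourierTransformₗᵢ (EE d) ℂ) g⟫_ℂ := by
  have h := (Lp.fourierTransformₗᵢ (EE d) ℂ).inner_map_map
    ((Lp.fourierTransformₗᵢ (EE d) ℂ).symm f) g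
  rw [LinearIsometryEquiv.apply_symm_apply] at h
  exact h.symm

theorem fm_inner_right {d : ℕ} (f g : HH d) :
    ⟪f, (Lp.fourierTransformₗᵢ (EE d) ℂ).symm g⟫_ℂ
      = ⟪(Lp.fourierTransformₗᵢ (EE d) ℂ) f, g⟫_ℂ := by
  have h := (Lp.fourierTransformₗᵢ (EE d) ℂ).inner_map_map f
    ((Lp.fourierTransformₗᵢ (EE d) ℂ).symm g)
  rw [LinearIsometryEquiv.apply_symm_apply] at h
  exact h.symm

theorem fm_comp_mul {d : ℕ} (m m' : EE d → ℂ) (hm : Measurable m) (C : ℝ) (hC : ∀ x, ‖m x‖ ≤ C)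
    (hm' : Measurable m') (C' : ℝ) (hC' : ∀ x, ‖m' x‖ ≤ C') (f : HH d) :
    mulOp m (mulOp m' f) = mulOp (fun ξ => m ξ * m' ξ) f := by
  apply Lp.ext
  have h1 := mulOp_ae m hm C hC (mulOp m' f)
  have h2 := mulOp_ae m' hm' C' hC' f
  have hb : ∀ x, ‖m x * m' x‖ ≤ C * C' := by
    intro x
    rw [norm_mul]
    exact mul_le_mul (hC x) (hC' x) (norm_nonneg _) ((norm_nonneg _).trans (hC x))
  have h3 := mulOp_ae (fun ξ => m ξ * m' ξ) (hm.mul hm') (C * C') hb f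
  filter_upwards [h1, h2, h3] with x hx1 hx2 hx3
  rw [hx1, hx2, hx3, mul_assoc]

theorem fm_sub_mul {d : ℕ} (m m' : EE d → ℂ) (hm : Measurable m) (hm' : Measurable m') (C' : ℝ)
    (hC : ∀ x, ‖m x‖ ≤ C') (hC' : ∀ x, ‖m' x‖ ≤ C') (δ : ℝ) (hδ : ∀ x, ‖m x - m' x‖ ≤ δ)
    (f : HH d) : mulOp m f - mulOp m' f = mulOp (fun ξ => m ξ - m' ξ) f := by
  apply Lp.ext
  have h1 := mulOp_ae m hm C' hC f
  have h2 := mulOp_ae m' hm' C' hC' f
  have h3 := mulOp_ae (fun ξ => m ξ - m' ξ) (hm.sub hm') δ hδ f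
  have h4 := Lp.coeFn_sub (mulOp m f) (mulOp m' f)
  filter_upwards [h1, h2, h3, h4] with x hx1 hx2 hx3 hx4
  rw [hx4, Pi.sub_apply, hx1, hx2, hx3, sub_mul]

theorem fm_inner {d : ℕ} (m : EE d → ℂ) (hm : Measurable m) (C : ℝ) (hC : ∀ x, ‖m x‖ ≤ C)
    (f g : HH d) : ⟪fm m f, g⟫_ℂ = ⟪f, fm (fun ξ => (starRingEnd ℂ) (m ξ)) g⟫_ℂ ∧
      ⟪g, fm m f⟫_ℂ = ∫ ξ : EE d, (starRingEnd ℂ) ((𝓕 g : HH d) ξ) * (𝓕 f : HH d) ξ * m ξ := by
  constructor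
  · rw [fm_norm_app, fm_norm_app, fm_inner_left, mulOp_inner m hm C hC, fm_inner_right]
  · rw [fm_norm_app, fm_inner_right, L2.inner_def]
    have h1 := mulOp_ae m hm C hC ((Lp.fourierTransformₗᵢ (EE d) ℂ) f)
    refine integral_congr_ae ?_
    filter_upwards [h1] with x hx
    rw [hx, RCLike.inner_apply]
    change m x * (𝓕 f : HH d) x * (starRingEnd ℂ) ((𝓕 g : HH d) x) =
      (starRingEnd ℂ) ((𝓕 g : HH d) x) * (𝓕 f : HH d) x * m x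
    ring

theorem fm_comp {d : ℕ} (m m' : EE d → ℂ) (hm : Measurable m) (C : ℝ) (hC : ∀ x, ‖m x‖ ≤ C)
    (hm' : Measurable m') (C' : ℝ) (hC' : ∀ x, ‖m' x‖ ≤ C') (f : HH d) :
    fm m (fm m' f) = fm (fun ξ => m ξ * m' ξ) f := by
  rw [fm_norm_app, fm_norm_app, fm_norm_app, LinearIsometryEquiv.apply_symm_apply,
    fm_comp_mul m m' hm C hC hm' C' hC']

theorem fm_sub {d : ℕ} (m m' : EE d → ℂ) (hm : Measurable m) (hm' : Measurable m') (C' : ℝ)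
    (hC : ∀ x, ‖m x‖ ≤ C') (hC' : ∀ x, ‖m' x‖ ≤ C') (δ : ℝ) (hδ : ∀ x, ‖m x - m' x‖ ≤ δ) :
    ‖fm m - fm m'‖ ≤ max δ 0 := by
  refine ContinuousLinearMap.opNorm_le_bound _ (le_max_right _ _) ?_
  intro f
  have h1 : (fm m - fm m') f = fm (fun ξ => m ξ - m' ξ) f := by
    rw [ContinuousLinearMap.sub_apply, fm_norm_app, fm_norm_app, fm_norm_app, ← map_sub,
      fm_sub_mul m m' hm hm' C' hC hC' δ hδ]
  rw [h1]
  refine (fm_norm _ (hm.sub hm') δ hδ f).trans ?_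
  exact mul_le_mul_of_nonneg_right (le_max_left _ _) (norm_nonneg _)

end

end KRS
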