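import Pool.Agent.H631.KR.Defs
import Pool.Agent.H631.KR.B01
import Pool.Agent.H631.KR.K00
import Pool.Agent.H631.KR.K0R

open MeasureTheory Filter Topology ENNReal Complex
open scoped Laplacian FourierTransform InnerProductSpace

namespace KRS

noncomputable section

/-! TARGET: prove the following -/

theorem sym_norm_le {d : ℕ} (z : ℂ) (hz : 0 < z.im) (ξ : EE d) : ‖sym z ξ‖ ≤ (z.im)⁻¹ := by
  unfold sym
  rw [norm_inv]
  apply inv_anti₀ hz
  have h1 := Complex.abs_im_le_norm (((4 * Real.pi ^ 2 * ‖ξ‖ ^ 2 : ℝ) : ℂ) - z)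
  rw [Complex.sub_im, Complex.ofReal_im, zero_sub, abs_neg, abs_of_pos hz] at h1
  exact h1

theorem sym_den_ne {d : ℕ} (z : ℂ) (hz : 0 < z.im) (ξ : EE d) :
    ((4 * Real.pi ^ 2 * ‖ξ‖ ^ 2 : ℝ) : ℂ) - z ≠ 0 := by
  intro h
  have h1 := congrArg Complex.im h
  rw [Complex.sub_im, Complex.ofReal_im, zero_sub, Complex.zero_im, neg_eq_zero] at h1
  exact hz.ne' h1

theorem sym_resolvent {d : ℕ} (w z : ℂ) (hw : 0 < w.im) (hz : 0 < z.im) (ξ : EE d) :
    sym w ξ - sym z ξ = (w - z) * (sym w ξ * sym z ξ) := by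
  have h1 := sym_den_ne w hw ξ
  have h2 := sym_den_ne z hz ξ
  unfold sym
  field_simp
  ring

theorem mulOp_resolvent {d : ℕ} (w z : ℂ) (hw : 0 < w.im) (hz : 0 < z.im) (f : HH d) :
    mulOp (sym w) f - mulOp (sym z) f = (w - z) • mulOp (sym w) (mulOp (sym z) f) := by
  have a1 := mulOp_ae (sym w) (sym_meas w) _ (sym_norm_le w hw) f
  have a2 := mulOp_ae (sym z) (sym_meas z) _ (sym_norm_le z hz) f
  have a3 := mulOp_ae (sym w) (sym_meas w) _ (sym_norm_le w hw) (mulOp (sym z) f)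
  apply Lp.ext
  filter_upwards [a1, a2, a3, Lp.coeFn_sub (mulOp (sym w) f) (mulOp (sym z) f),
    Lp.coeFn_smul (w - z) (mulOp (sym w) (mulOp (sym z) f))] with ξ b1 b2 b3 b4 b5
  rw [b4, b5, Pi.sub_apply, Pi.smul_apply, b1, b3, b2, smul_eq_mul, ← sub_mul,
    sym_resolvent w z hw hz]
  ring

theorem Rz_apply_B02 (d : ℕ) (z : ℂ) (f : HH d) :
    Rz d z f = (Lp.fourierTransformₗᵢ (EE d) ℂ).symm
      (mulOp (sym z) ((Lp.fourierTransformₗᵢ (EE d) ℂ) f)) := rfl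

theorem Rz_resolvent {d : ℕ} (w z : ℂ) (hw : 0 < w.im) (hz : 0 < z.im) :
    Rz d w - Rz d z = (w - z) • (Rz d w ∘L Rz d z) := by
  ext1 f
  show Rz d w f - Rz d z f = (w - z) • Rz d w (Rz d z f)
  rw [Rz_apply_B02, Rz_apply_B02, Rz_apply_B02, LinearIsometryEquiv.apply_symm_apply, ← map_sub,
    mulOp_resolvent w z hw hz, map_smul]

theorem Rz_norm {d : ℕ} (z : ℂ) (hz : 0 < z.im) : Rz d z = fm (sym z) ∧ ‖Rz d z‖ ≤ (z.im)⁻¹ := by
  refine ⟨rfl, ?_⟩
  refine ContinuousLinearMap.opNorm_le_bound _ (inv_nonneg.2 hz.le) ?_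
  intro f
  exact fm_norm (sym z) (sym_meas z) _ (sym_norm_le z hz) f

theorem Rz_tendsto_B02 (d : ℕ) (z : ℂ) (hz : 0 < z.im) :
    Tendsto (fun w => Rz d w) (𝓝 z) (𝓝 (Rz d z)) := by
  rw [tendsto_iff_norm_sub_tendsto_zero]
  have hev : ∀ᶠ w in 𝓝 z, z.im / 2 < w.im :=
    (Complex.continuous_im.tendsto z).eventually (lt_mem_nhds (half_lt_self hz))
  have hlim : Tendsto (fun w : ℂ => ‖w - z‖ * ((z.im / 2)⁻¹ * (z.im)⁻¹)) (𝓝 z) (𝓝 0) := by
    have h1 : Tendsto (fun w : ℂ => ‖w - z‖) (𝓝 z) (𝓝 0) := by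
      have h2 : Continuous (fun w : ℂ => ‖w - z‖) := by fun_prop
      have := h2.tendsto z
      simpa using this
    simpa using h1.mul_const ((z.im / 2)⁻¹ * (z.im)⁻¹)
  refine squeeze_zero' (Eventually.of_forall fun w => norm_nonneg _) ?_ hlim
  filter_upwards [hev] with w hw
  have hw0 : 0 < w.im := lt_trans (half_pos hz) hw
  rw [Rz_resolvent w z hw0 hz, norm_smul]
  refine mul_le_mul_of_nonneg_left ?_ (norm_nonneg _)
  refine (ContinuousLinearMap.opNorm_comp_le _ _).trans ?_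
  refine mul_le_mul ?_ (Rz_norm z hz).2 (norm_nonneg _) (inv_nonneg.2 (half_pos hz).le)
  exact (Rz_norm w hw0).2.trans (inv_anti₀ (half_pos hz) hw.le)

theorem Rz_diff (d : ℕ) : DifferentiableOn ℂ (fun z => Rz d z) {z : ℂ | 0 < z.im} := by
  intro z hz
  have hz' : 0 < z.im := hz
  have hd : HasDerivAt (fun z => Rz d z) (Rz d z ∘L Rz d z) z := by
    rw [hasDerivAt_iff_tendsto_slope]
    have h1 : Tendsto (fun w => Rz d w ∘L Rz d z) (𝓝[≠] z) (𝓝 (Rz d z ∘L Rz d z)) := by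
      have h2 : Tendsto (fun w => Rz d w ∘L Rz d z) (𝓝 z) (𝓝 (Rz d z ∘L Rz d z)) :=
        (((ContinuousLinearMap.compL ℂ (HH d) (HH d) (HH d)).flip (Rz d z)).continuous.tendsto
          (Rz d z)).comp (Rz_tendsto_B02 d z hz')
      exact h2.mono_left nhdsWithin_le_nhds
    refine h1.congr' ?_
    have hev : ∀ᶠ w in 𝓝[≠] z, 0 < w.im :=
      ((Complex.continuous_im.tendsto z).eventually (lt_mem_nhds hz')).filter_mono
        nhdsWithin_le_nhds
    filter_upwards [hev, self_mem_nhdsWithin] with w hw hwz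
    rw [slope_def_module, Rz_resolvent w z hw hz', smul_smul, inv_mul_cancel₀, one_smul]
    exact sub_ne_zero.2 hwz
  exact hd.differentiableAt.differentiableWithinAt

end

end KRS
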