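import Pool.Agent.H631.KR.Defs
import Pool.Agent.H631.KR.B02
import Pool.Agent.H631.KR.K00
import Pool.Agent.H631.KR.K0R

open MeasureTheory Filter Topology ENNReal Complex
open scoped Laplacian FourierTransform InnerProductSpace

namespace KRS

noncomputable section

theorem iu_nsq {d : ℕ} (g : HH d) : ‖g‖ ^ 2 = ∫ x : EE d, ‖g x‖ ^ 2 := by
  have h1 : ‖g‖ ^ 2 = RCLike.re ⟪g, g⟫_ℂ := (inner_self_eq_norm_sq g).symm
  rw [h1, L2.inner_def, ← integral_re (L2.integrable_inner g g)]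
  refine integral_congr_ae (Filter.Eventually.of_forall fun x => ?_)
  exact inner_self_eq_norm_sq (𝕜 := ℂ) (g x)

theorem iu_intsq {d : ℕ} (g : HH d) : Integrable (fun x : EE d => ‖g x‖ ^ 2) volume := by
  have h1 := (L2.integrable_inner (𝕜 := ℂ) g g).re
  refine h1.congr (Filter.Eventually.of_forall fun x => ?_)
  exact inner_self_eq_norm_sq (𝕜 := ℂ) (g x)

theorem iu_pt {d : ℕ} (m : EE d → ℂ) (hm : Measurable m) (C : ℝ) (hC : ∀ x, ‖m x‖ ≤ C)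
    (g : HH d) : (fun x : EE d => RCLike.im (⟪g x, (mulOp m g : HH d) x⟫_ℂ)) =ᵐ[volume]
      fun x => (m x).im * ‖g x‖ ^ 2 := by
  filter_upwards [mulOp_ae m hm C hC g] with x hx
  rw [hx]
  have h1 : ⟪g x, m x * g x⟫_ℂ = m x * ((‖g x‖ ^ 2 : ℝ) : ℂ) := by
    rw [show m x * g x = m x • g x from rfl, inner_smul_right, inner_self_eq_norm_sq_to_K]
    push_cast
    rfl
  rw [h1]
  change (m x * ((‖g x‖ ^ 2 : ℝ) : ℂ)).im = _
  rw [Complex.mul_im, Complex.ofReal_im, Complex.ofReal_re]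
  ring

theorem iu_im {d : ℕ} (m : EE d → ℂ) (hm : Measurable m) (C : ℝ) (hC : ∀ x, ‖m x‖ ≤ C)
    (g : HH d) : (⟪g, mulOp m g⟫_ℂ).im = ∫ x : EE d, (m x).im * ‖g x‖ ^ 2 := by
  have h1 : (⟪g, mulOp m g⟫_ℂ).im = RCLike.im (∫ x : EE d, ⟪g x, (mulOp m g : HH d) x⟫_ℂ) := by
    rw [L2.inner_def]
    rfl
  rw [h1, ← integral_im (L2.integrable_inner g (mulOp m g))]
  exact integral_congr_ae (iu_pt m hm C hC g)

theorem iu_int {d : ℕ} (m : EE d → ℂ) (hm : Measurable m) (C : ℝ) (hC : ∀ x, ‖m x‖ ≤ C)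
    (g : HH d) : Integrable (fun x : EE d => (m x).im * ‖g x‖ ^ 2) volume := by
  have h1 := (L2.integrable_inner (𝕜 := ℂ) g (mulOp m g)).im
  exact h1.congr (iu_pt m hm C hC g)

theorem iu_le {d : ℕ} (m : EE d → ℂ) (hm : Measurable m) (C : ℝ) (hC : ∀ x, ‖m x‖ ≤ C)
    (g : HH d) (ε : ℝ) (hi : ∀ x, (m x).im ≤ ε) : (⟪g, mulOp m g⟫_ℂ).im ≤ ε * ‖g‖ ^ 2 := by
  rw [iu_im m hm C hC g, iu_nsq, ← integral_const_mul]
  refine integral_mono (iu_int m hm C hC g) ((iu_intsq g).const_mul ε) fun x => ?_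
  exact mul_le_mul_of_nonneg_right (hi x) (sq_nonneg _)

theorem iu_sym {d : ℕ} (z : ℂ) (hz : 0 < z.im) (g : HH d) :
    (⟪g, mulOp (sym z) g⟫_ℂ).im = z.im * ‖mulOp (sym z) g‖ ^ 2 := by
  obtain ⟨C, hC0, hC⟩ := sym_bdd z (Or.inl hz)
  rw [iu_im (sym z) (sym_meas z) C (hC d) g, iu_nsq, ← integral_const_mul]
  refine integral_congr_ae ?_
  filter_upwards [mulOp_ae (sym z) (sym_meas z) C (hC d) g] with x hx
  rw [hx, norm_mul, mul_pow, ← mul_assoc]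
  congr 1
  unfold sym
  rw [norm_inv, inv_pow, ← Complex.normSq_eq_norm_sq, Complex.inv_im, Complex.sub_im,
    Complex.ofReal_im, zero_sub, neg_neg]
  rfl

/-! TARGET: prove the following -/

theorem inv_upper (d : ℕ) (V : EE d → ℂ) (hV : Measurable V) (v ε : ℝ) (hε : 0 ≤ ε)
    (hv : ∀ x, ‖V x‖ ≤ v) (hi : ∀ x, (V x).im ≤ ε) (z : ℂ) (hz : ε < z.im) (f : HH d) :
    ‖f‖ ≤ (1 + v / (z.im - ε)) * ‖f + mulOp V (Rz d z f)‖ := by
  have hz0 : 0 < z.im := lt_of_le_of_lt hε hz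
  have hv0 : 0 ≤ v := le_trans (norm_nonneg _) (hv 0)
  obtain ⟨u, hu⟩ : ∃ u : HH d, u = Rz d z f := ⟨_, rfl⟩
  obtain ⟨h, hh⟩ : ∃ h : HH d, h = f + mulOp V u := ⟨_, rfl⟩
  have hFu : (𝓕 u : HH d) = mulOp (sym z) (𝓕 f : HH d) := by
    rw [hu, Rz_apply]
    exact FourierTransform.fourier_fourierInv_eq _
  have h1 : (⟪f, u⟫_ℂ).im = z.im * ‖u‖ ^ 2 := by
    have h2 : ⟪f, u⟫_ℂ = ⟪(𝓕 f : HH d), (𝓕 u : HH d)⟫_ℂ := (Lp.inner_fourier_eq f u).symm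
    rw [h2, ← Lp.norm_fourier_eq u, hFu]
    exact iu_sym z hz0 _
  have h3 : (⟪u, f⟫_ℂ).im = -(z.im * ‖u‖ ^ 2) := by
    rw [← h1, ← inner_conj_symm, Complex.conj_im]
  have h4 : (⟪u, h⟫_ℂ).im ≤ -((z.im - ε) * ‖u‖ ^ 2) := by
    rw [hh, inner_add_right, Complex.add_im, h3]
    have h5 := iu_le V hV v hv u ε hi
    linarith
  have h6 : |(⟪u, h⟫_ℂ).im| ≤ ‖u‖ * ‖h‖ :=
    le_trans (Complex.abs_im_le_norm _) (norm_inner_le_norm u h)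
  have h7 : (z.im - ε) * ‖u‖ ^ 2 ≤ ‖u‖ * ‖h‖ := by
    have := (abs_le.mp h6).1
    linarith
  have hd0 : 0 < z.im - ε := by linarith
  have h8 : ‖u‖ ≤ ‖h‖ / (z.im - ε) := by
    rw [le_div_iff₀ hd0]
    rcases eq_or_lt_of_le (norm_nonneg u) with h0 | h0
    · rw [← h0, zero_mul]
      exact norm_nonneg h
    · have h9 : ‖u‖ * (‖u‖ * (z.im - ε)) ≤ ‖u‖ * ‖h‖ := by nlinarith
      exact le_of_mul_le_mul_left h9 h0
  have h10 : ‖mulOp V u‖ ≤ v * ‖u‖ := mulOp_norm V hV v hv u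
  have h11 : f = h - mulOp V u := by rw [hh]; abel
  rw [← hu, ← hh]
  calc ‖f‖ = ‖h - mulOp V u‖ := by rw [← h11]
    _ ≤ ‖h‖ + ‖mulOp V u‖ := norm_sub_le _ _
    _ ≤ ‖h‖ + v * (‖h‖ / (z.im - ε)) := by
        have := mul_le_mul_of_nonneg_left h8 hv0
        linarith
    _ = (1 + v / (z.im - ε)) * ‖h‖ := by ring

end

end KRS
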