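import Pool.Agent.H631.KR.Defs
import Pool.Agent.H631.KR.B01
import Pool.Agent.H631.KR.K00

open MeasureTheory Filter Topology ENNReal Complex
open scoped Laplacian FourierTransform InnerProductSpace

namespace KRS

noncomputable section

/-- the function `ξ ↦ e^{-2πi⟨ξ,x⟩} ψ(ξ)` -/
def vmE {d : ℕ} (ψ : EE d → ℝ) (x ξ : EE d) : ℂ :=
  Complex.exp (((-(2 * Real.pi * ⟪ξ, x⟫_ℝ) : ℝ) : ℂ) * I) * (ψ ξ : ℂ)

theorem vmE_smooth {d : ℕ} {ψ : EE d → ℝ} (hψ : ContDiff ℝ (⊤ : ℕ∞) ψ) (x : EE d) :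
    ContDiff ℝ (⊤ : ℕ∞) (vmE ψ x) := by
  unfold vmE
  refine ContDiff.mul (ContDiff.cexp ?_) (Complex.ofRealCLM.contDiff.comp hψ)
  refine ContDiff.mul ?_ contDiff_const
  exact Complex.ofRealCLM.contDiff.comp
    ((contDiff_const.mul (contDiff_id.inner ℝ contDiff_const)).neg)

theorem vmof_supp {d : ℕ} {ψ : EE d → ℝ} (hc : HasCompactSupport ψ) :
    HasCompactSupport (fun ξ => (ψ ξ : ℂ)) :=
  hc.comp_left (g := fun t : ℝ => (t : ℂ)) Complex.ofReal_zero

theorem vmE_supp {d : ℕ} {ψ : EE d → ℝ} (hc : HasCompactSupport ψ) (x : EE d) :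
    HasCompactSupport (vmE ψ x) := (vmof_supp hc).mul_left

/-- as a Schwartz function -/
def vmS {d : ℕ} {ψ : EE d → ℝ} (hψ : ContDiff ℝ (⊤ : ℕ∞) ψ) (hc : HasCompactSupport ψ)
    (x : EE d) : SchwartzMap (EE d) ℂ := (vmE_supp hc x).toSchwartzMap (vmE_smooth hψ x)

/-- `ψ` as a Schwartz function -/
def vmP {d : ℕ} {ψ : EE d → ℝ} (hψ : ContDiff ℝ (⊤ : ℕ∞) ψ) (hc : HasCompactSupport ψ) :
    SchwartzMap (EE d) ℂ :=
  (vmof_supp hc).toSchwartzMap (Complex.ofRealCLM.contDiff.comp hψ)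

/-- `ψ h` as a Schwartz function -/
def vmM {d : ℕ} {ψ : EE d → ℝ} (hψ : ContDiff ℝ (⊤ : ℕ∞) ψ) (hc : HasCompactSupport ψ)
    (h : SchwartzMap (EE d) ℂ) : SchwartzMap (EE d) ℂ :=
  ((vmof_supp hc).mul_right (f' := fun ξ => h ξ)).toSchwartzMap
    ((Complex.ofRealCLM.contDiff.comp hψ).mul h.smooth')

/-- the operator `V F⁻¹ ψ` -/
def vmK {d : ℕ} (V : EE d → ℂ) (ψ : EE d → ℝ) : HH d →L[ℂ] HH d :=
  mulOp V ∘L
    (((Lp.fourierTransformₗᵢ (EE d) ℂ).symm.toContinuousLinearEquiv.toContinuousLinearMap) ∘L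
      (mulOp (fun ξ => (ψ ξ : ℂ))))

theorem vmK_ae {d : ℕ} {V : EE d → ℂ} (hVm : Measurable V) {B : ℝ} (hB : ∀ x, ‖V x‖ ≤ B)
    {ψ : EE d → ℝ} (hψ : ContDiff ℝ (⊤ : ℕ∞) ψ) (hc : HasCompactSupport ψ)
    (h : SchwartzMap (EE d) ℂ) :
    (vmK V ψ (h.toLp 2 volume) : EE d → ℂ) =ᵐ[volume]
      fun x => V x * ⟪(vmS hψ hc x).toLp 2 volume, h.toLp 2 volume⟫_ℂ := by
  obtain ⟨Cψ, hCψ⟩ := hc.exists_bound_of_continuous hψ.continuous
  have hm1 : mulOp (fun ξ => (ψ ξ : ℂ)) (h.toLp 2 volume : HH d) = (vmM hψ hc h).toLp 2 volume := by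
    refine Lp.ext ?_
    have e1 := mulOp_ae (fun ξ : EE d => (ψ ξ : ℂ))
      (Complex.measurable_ofReal.comp hψ.continuous.measurable) Cψ
      (fun x => by simpa using hCψ x) (h.toLp 2 volume : HH d)
    have e2 := h.coeFn_toLp 2 (volume : Measure (EE d))
    have e3 := (vmM hψ hc h).coeFn_toLp 2 (volume : Measure (EE d))
    filter_upwards [e1, e2, e3] with x h1 h2 h3
    rw [h1, h2, h3]
    rfl
  have hm2 : (Lp.fourierTransformₗᵢ (EE d) ℂ).symm ((vmM hψ hc h).toLp 2 volume) =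
      (FourierTransformInv.fourierInv (vmM hψ hc h)).toLp 2 volume :=
    SchwartzMap.toLp_fourierInv_eq (vmM hψ hc h)
  have hv : vmK V ψ (h.toLp 2 volume) =
      mulOp V ((FourierTransformInv.fourierInv (vmM hψ hc h)).toLp 2 volume : HH d) := by
    rw [← hm2, ← hm1]
    rfl
  rw [hv]
  have e1 := mulOp_ae V hVm B hB ((FourierTransformInv.fourierInv (vmM hψ hc h)).toLp 2 volume : HH d)
  have e2 := (FourierTransformInv.fourierInv (vmM hψ hc h)).coeFn_toLp 2
    (volume : Measure (EE d))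
  filter_upwards [e1, e2] with x h1 h2
  rw [h1, h2]
  congr 1
  have hin := SchwartzMap.inner_toL2_toL2_eq (vmS hψ hc x) h (volume : Measure (EE d))
  refine Eq.trans ?_ hin.symm
  rw [SchwartzMap.fourierInv_coe, Real.fourierInv_eq']
  refine integral_congr_ae (Filter.Eventually.of_forall fun ξ => ?_)
  change Complex.exp (((2 * Real.pi * ⟪ξ, x⟫_ℝ : ℝ) : ℂ) * I) • (((ψ ξ : ℝ) : ℂ) * h ξ) =
    ⟪vmE ψ x ξ, h ξ⟫_ℂ
  unfold vmE
  simp only [RCLike.inner_apply, map_mul, ← Complex.exp_conj, Complex.conj_ofReal, Complex.conj_I,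
    smul_eq_mul]
  rw [show (((-(2 * Real.pi * ⟪ξ, x⟫_ℝ) : ℝ) : ℂ) * -I) =
    ((2 * Real.pi * ⟪ξ, x⟫_ℝ : ℝ) : ℂ) * I by push_cast; ring]
  ring

theorem vm_exp (a b : ℝ) : ‖Complex.exp ((a : ℂ) * I) - Complex.exp ((b : ℂ) * I)‖ ≤ |a - b| := by
  have h1 : Complex.exp ((a : ℂ) * I) - Complex.exp ((b : ℂ) * I) =
      Complex.exp ((b : ℂ) * I) * (Complex.exp (I * ((a - b : ℝ) : ℂ)) - 1) := by
    rw [mul_sub, ← Complex.exp_add, mul_one]
    congr 2
    push_cast
    ring
  rw [h1, norm_mul, Complex.norm_exp_ofReal_mul_I, one_mul]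
  exact Real.norm_exp_I_mul_ofReal_sub_one_le

theorem vmS_lip {d : ℕ} {ψ : EE d → ℝ} (hψ : ContDiff ℝ (⊤ : ℕ∞) ψ) (hc : HasCompactSupport ψ) :
    ∃ L : ℝ, 0 ≤ L ∧ ∀ x y : EE d,
      ‖((vmS hψ hc x).toLp 2 volume : HH d) - (vmS hψ hc y).toLp 2 volume‖ ≤ L * ‖x - y‖ := by
  obtain ⟨ρ, hρ⟩ := (hc.isCompact.isBounded).subset_closedBall 0
  have hρ' : ∀ ξ : EE d, ψ ξ ≠ 0 → ‖ξ‖ ≤ |ρ| := by
    intro ξ hξ
    have := hρ (subset_tsupport ψ hξ)
    rw [mem_closedBall_zero_iff] at this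
    exact this.trans (le_abs_self _)
  refine ⟨2 * Real.pi * |ρ| * ‖((vmP hψ hc).toLp 2 volume : HH d)‖, by positivity, fun x y => ?_⟩
  have hb : ‖((vmS hψ hc x).toLp 2 volume : HH d) - (vmS hψ hc y).toLp 2 volume‖ ≤
      ‖((2 * Real.pi * |ρ| * ‖x - y‖ : ℝ) : ℂ) • ((vmP hψ hc).toLp 2 volume : HH d)‖ := by
    refine Lp.norm_le_norm_of_ae_le ?_
    have e1 := (vmS hψ hc x).coeFn_toLp 2 (volume : Measure (EE d))
    have e2 := (vmS hψ hc y).coeFn_toLp 2 (volume : Measure (EE d))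
    have e3 := (vmP hψ hc).coeFn_toLp 2 (volume : Measure (EE d))
    have e4 := Lp.coeFn_sub ((vmS hψ hc x).toLp 2 volume : HH d) ((vmS hψ hc y).toLp 2 volume)
    have e5 := Lp.coeFn_smul ((2 * Real.pi * |ρ| * ‖x - y‖ : ℝ) : ℂ)
      ((vmP hψ hc).toLp 2 volume : HH d)
    filter_upwards [e1, e2, e3, e4, e5] with ξ h1 h2 h3 h4 h5
    rw [h4, h5, Pi.sub_apply, Pi.smul_apply, h1, h2, h3]
    change ‖vmE ψ x ξ - vmE ψ y ξ‖ ≤ ‖((2 * Real.pi * |ρ| * ‖x - y‖ : ℝ) : ℂ) • ((ψ ξ : ℝ) : ℂ)‖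
    unfold vmE
    rw [← sub_mul, norm_mul, norm_smul, Complex.norm_real, Complex.norm_real]
    by_cases hξ : ψ ξ = 0
    · rw [hξ]; simp
    · refine mul_le_mul_of_nonneg_right ?_ (norm_nonneg _)
      refine (vm_exp _ _).trans ?_
      rw [Real.norm_eq_abs, abs_of_nonneg (by positivity : (0 : ℝ) ≤ 2 * Real.pi * |ρ| * ‖x - y‖)]
      have h6 : -(2 * Real.pi * ⟪ξ, x⟫_ℝ) - -(2 * Real.pi * ⟪ξ, y⟫_ℝ) =
          -(2 * Real.pi) * ⟪ξ, x - y⟫_ℝ := by
        rw [inner_sub_right]; ring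
      rw [h6, abs_mul, abs_neg, abs_of_pos Real.two_pi_pos]
      have h7 : |⟪ξ, x - y⟫_ℝ| ≤ |ρ| * ‖x - y‖ :=
        (abs_real_inner_le_norm _ _).trans (by gcongr; exact hρ' ξ hξ)
      calc 2 * Real.pi * |⟪ξ, x - y⟫_ℝ| ≤ 2 * Real.pi * (|ρ| * ‖x - y‖) :=
            mul_le_mul_of_nonneg_left h7 Real.two_pi_pos.le
        _ = 2 * Real.pi * |ρ| * ‖x - y‖ := by ring
  refine hb.trans (le_of_eq ?_)
  rw [norm_smul, Complex.norm_real, Real.norm_eq_abs, abs_of_nonneg (by positivity)]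
  ring

theorem vmK_compact {d : ℕ} {V : EE d → ℂ} (hV : BV V) {ψ : EE d → ℝ}
    (hψ : ContDiff ℝ (⊤ : ℕ∞) ψ) (hc : HasCompactSupport ψ) :
    IsCompactOperator (vmK V ψ) := by
  obtain ⟨hVm, ⟨B, hB⟩, ⟨r, hr⟩⟩ := hV
  obtain ⟨L, hL0, hL⟩ := vmS_lip hψ hc
  have hB0 : 0 ≤ B := le_trans (norm_nonneg _) (hB 0)
  set M : ℝ := (volume.real (Metric.closedBall (0 : EE d) r)) ^ (1 / (2 : ℝ≥0∞).toReal) with hM
  have hM0 : 0 ≤ M := by rw [hM]; positivity
  have hcl : vmK V ψ ∈ closure {f : HH d →L[ℂ] HH d | IsCompactOperator f} := by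
    rw [Metric.mem_closure_iff]
    intro ε hε
    -- a finite net
    set η : ℝ := ε / (4 * (B * L * M + 1)) with hη
    have hden : 0 < B * L * M + 1 := by positivity
    have hη0 : 0 < η := by rw [hη]; positivity
    obtain ⟨t, -, htf, htc⟩ := (isCompact_closedBall (0 : EE d) r).finite_cover_balls hη0
    let W : Submodule ℂ (HH d) := Submodule.span ℂ ((fun x => (vmS hψ hc x).toLp 2 volume) '' t)
    have : FiniteDimensional ℂ W := FiniteDimensional.span_of_finite ℂ (htf.image _)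
    have hWS : ∀ g ∈ W, ∃ h : SchwartzMap (EE d) ℂ, g = h.toLp 2 volume := by
      intro g hg
      induction hg using Submodule.span_induction with
      | mem x hx =>
        obtain ⟨y, _, rfl⟩ := hx
        exact ⟨_, rfl⟩
      | zero => exact ⟨0, (map_zero (SchwartzMap.toLpCLM ℂ ℂ 2 (volume : Measure (EE d)))).symm⟩
      | add x y _ _ hx hy =>
        obtain ⟨a, rfl⟩ := hx
        obtain ⟨b, rfl⟩ := hy
        exact ⟨a + b, (map_add (SchwartzMap.toLpCLM ℂ ℂ 2 (volume : Measure (EE d))) a b).symm⟩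
      | smul c x _ hx =>
        obtain ⟨a, rfl⟩ := hx
        exact ⟨c • a, (map_smul (SchwartzMap.toLpCLM ℂ ℂ 2 (volume : Measure (EE d))) c a).symm⟩
    refine ⟨vmK V ψ ∘L W.starProjection, ?_, ?_⟩
    · have hP : IsCompactOperator (W.starProjection : HH d →L[ℂ] HH d) :=
        (isCompactOperator_of_locallyCompactSpace_dom W.orthogonalProjectionOnto).clm_comp
          W.subtypeL
      exact hP.clm_comp (vmK V ψ)
    · rw [dist_eq_norm]
      have key : ∀ h : SchwartzMap (EE d) ℂ,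
          ‖(vmK V ψ - vmK V ψ ∘L W.starProjection) (h.toLp 2 volume)‖ ≤
            (B * (L * η) * 2 * M) * ‖(h.toLp 2 volume : HH d)‖ := by
        intro h
        obtain ⟨p, hp⟩ := hWS _ (W.starProjection_apply_mem (h.toLp 2 volume))
        have h1 : (vmK V ψ - vmK V ψ ∘L W.starProjection) (h.toLp 2 volume) =
            vmK V ψ ((h - p).toLp 2 volume) := by
          have : ((h - p).toLp 2 volume : HH d) = h.toLp 2 volume - p.toLp 2 volume :=
            map_sub (SchwartzMap.toLpCLM ℂ ℂ 2 (volume : Measure (EE d))) h p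
          rw [this, map_sub, ← hp]
          rfl
        have horth : ((h - p).toLp 2 volume : HH d) ∈ Wᗮ := by
          have : ((h - p).toLp 2 volume : HH d) = h.toLp 2 volume - p.toLp 2 volume :=
            map_sub (SchwartzMap.toLpCLM ℂ ℂ 2 (volume : Measure (EE d))) h p
          rw [this, ← hp]
          exact Submodule.sub_starProjection_mem_orthogonal _
        have hn : ‖((h - p).toLp 2 volume : HH d)‖ ≤ 2 * ‖(h.toLp 2 volume : HH d)‖ := by
          have : ((h - p).toLp 2 volume : HH d) = h.toLp 2 volume - p.toLp 2 volume :=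
            map_sub (SchwartzMap.toLpCLM ℂ ℂ 2 (volume : Measure (EE d))) h p
          rw [this, ← hp]
          have h2 := norm_sub_le (h.toLp 2 volume : HH d) (W.starProjection (h.toLp 2 volume))
          have h3 := W.norm_starProjection_apply_le (h.toLp 2 volume : HH d)
          linarith
        rw [h1]
        set c : ℝ := B * ((L * η) * (2 * ‖(h.toLp 2 volume : HH d)‖)) with hcdef
        have hc0 : 0 ≤ c := by rw [hcdef]; positivity
        have hbd : ‖vmK V ψ ((h - p).toLp 2 volume)‖ ≤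
            ‖indicatorConstLp 2 (Metric.isClosed_closedBall.measurableSet :
              MeasurableSet (Metric.closedBall (0 : EE d) r))
              (measure_closedBall_lt_top (μ := volume)).ne ((c : ℝ) : ℂ)‖ := by
          refine Lp.norm_le_norm_of_ae_le ?_
          have e1 := vmK_ae hVm hB hψ hc (h - p)
          have e2 := indicatorConstLp_coeFn (p := 2)
            (hs := (Metric.isClosed_closedBall.measurableSet :
              MeasurableSet (Metric.closedBall (0 : EE d) r)))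
            (hμs := (measure_closedBall_lt_top (μ := (volume : Measure (EE d)))).ne)
            (c := ((c : ℝ) : ℂ))
          filter_upwards [e1, e2] with x h4 h5
          rw [h4, h5]
          by_cases hx : x ∈ Metric.closedBall (0 : EE d) r
          · rw [Set.indicator_of_mem hx, Complex.norm_real, Real.norm_eq_abs, abs_of_nonneg hc0,
              norm_mul, hcdef]
            refine mul_le_mul (hB x) ?_ (norm_nonneg _) hB0
            have hx' := htc hx
            rw [Set.mem_iUnion₂] at hx'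
            obtain ⟨y, hy, hxy⟩ := hx'
            rw [Metric.mem_ball, dist_eq_norm] at hxy
            have h6 : ⟪((vmS hψ hc y).toLp 2 volume : HH d), (h - p).toLp 2 volume⟫_ℂ = 0 :=
              (Submodule.mem_orthogonal W _).1 horth _
                (Submodule.subset_span ⟨y, hy, rfl⟩)
            have h7 : ⟪((vmS hψ hc x).toLp 2 volume : HH d), (h - p).toLp 2 volume⟫_ℂ =
                ⟪((vmS hψ hc x).toLp 2 volume : HH d) - (vmS hψ hc y).toLp 2 volume, (h - p).toLp 2 volume⟫_ℂ := by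
              rw [inner_sub_left, h6, sub_zero]
            rw [h7]
            refine (norm_inner_le_norm _ _).trans ?_
            refine mul_le_mul ?_ hn (norm_nonneg _) (by positivity)
            exact (hL x y).trans (by gcongr)
          · rw [Set.indicator_of_notMem hx, hr x (by
              rw [mem_closedBall_zero_iff, not_le] at hx
              exact hx)]
            simp
        refine hbd.trans (le_of_eq ?_)
        rw [norm_indicatorConstLp (by norm_num) (by norm_num), Complex.norm_real, Real.norm_eq_abs,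
          abs_of_nonneg hc0, hcdef]
        ring
      have hall : ∀ f : HH d, ‖(vmK V ψ - vmK V ψ ∘L W.starProjection) f‖ ≤
          (B * (L * η) * 2 * M) * ‖f‖ := by
        intro f
        refine DenseRange.induction_on (p := fun f : HH d =>
          ‖(vmK V ψ - vmK V ψ ∘L W.starProjection) f‖ ≤ (B * (L * η) * 2 * M) * ‖f‖)
          (SchwartzMap.denseRange_toLpCLM (E := EE d) (F := ℂ) (μ := volume) (p := 2)
            ENNReal.ofNat_ne_top) f ?_ ?_
        · exact isClosed_le (ContinuousLinearMap.continuous _).norm (continuous_const.mul continuous_norm)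
        · intro h
          exact key h
      have hop := ContinuousLinearMap.opNorm_le_bound (vmK V ψ - vmK V ψ ∘L W.starProjection)
        (by positivity) hall
      refine lt_of_le_of_lt hop ?_
      have h8 : B * (L * η) * 2 * M = (B * L * M) * (2 * η) := by ring
      rw [h8, hη]
      have h9 : (B * L * M) * (2 * (ε / (4 * (B * L * M + 1)))) =
          (B * L * M) / (B * L * M + 1) * (ε / 2) := by
        field_simp
        ring
      rw [h9]
      have h10 : (B * L * M) / (B * L * M + 1) ≤ 1 := by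
        rw [div_le_one hden]
        linarith
      nlinarith
  rw [isClosed_setOfPred_isCompactOperator.closure_eq] at hcl
  exact hcl

/-! TARGET: prove the following -/

theorem Vm_compact (d : ℕ) (V : EE d → ℂ) (hV : BV V) (m : EE d → ℂ) (hm : Measurable m) (C : ℝ)
    (hC : ∀ x, ‖m x‖ ≤ C) (h0 : ∀ δ : ℝ, 0 < δ → ∃ R : ℝ, ∀ ξ : EE d, R < ‖ξ‖ → ‖m ξ‖ ≤ δ) :
    IsCompactOperator (mulOp V ∘L fm m : HH d →L[ℂ] HH d) := by
  have hC0 : 0 ≤ C := le_trans (norm_nonneg _) (hC 0)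
  have hcl : (mulOp V ∘L fm m : HH d →L[ℂ] HH d) ∈
      closure {f : HH d →L[ℂ] HH d | IsCompactOperator f} := by
    rw [Metric.mem_closure_iff]
    intro ε hε
    set δ : ℝ := ε / (2 * (‖(mulOp V : HH d →L[ℂ] HH d)‖ + 1)) with hδ
    have hden : 0 < ‖(mulOp V : HH d →L[ℂ] HH d)‖ + 1 := by positivity
    have hδ0 : 0 < δ := by rw [hδ]; positivity
    obtain ⟨R, hR⟩ := h0 δ hδ0
    set mR : EE d → ℂ := (Metric.closedBall (0 : EE d) R).indicator m with hmR
    have hmRm : Measurable mR := hm.indicator Metric.isClosed_closedBall.measurableSet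
    have hmRC : ∀ x, ‖mR x‖ ≤ C := by
      intro x
      rw [hmR]
      refine (norm_indicator_le_norm_self _ _).trans (hC x)
    have hdiff : ∀ x, ‖m x - mR x‖ ≤ δ := by
      intro x
      rw [hmR]
      by_cases hx : x ∈ Metric.closedBall (0 : EE d) R
      · rw [Set.indicator_of_mem hx, sub_self, norm_zero]; exact hδ0.le
      · rw [Set.indicator_of_notMem hx, sub_zero]
        rw [mem_closedBall_zero_iff, not_le] at hx
        exact hR x hx
    -- a smooth cut-off
    obtain ⟨b, hb1⟩ : ∃ b : ContDiffBump (0 : EE d), ∀ x ∈ Metric.closedBall (0 : EE d) R, b x = 1 := by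
      refine ⟨⟨|R| + 1, |R| + 2, by positivity, by linarith⟩, fun x hx => ?_⟩
      apply ContDiffBump.one_of_mem_closedBall
      rw [mem_closedBall_zero_iff] at hx ⊢
      exact hx.trans (by linarith [le_abs_self R])
    have hψs : ContDiff ℝ (⊤ : ℕ∞) (fun x => b x) := b.contDiff
    have hψc : HasCompactSupport (fun x => b x) := b.hasCompactSupport
    refine ⟨mulOp V ∘L fm mR, ?_, ?_⟩
    · have hcomp : (mulOp V ∘L fm mR : HH d →L[ℂ] HH d) = vmK V (fun x => b x) ∘L
          (mulOp mR ∘L ((Lp.fourierTransformₗᵢ (EE d) ℂ).toContinuousLinearEquiv.toContinuousLinearMap)) := by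
        have hmm : ∀ f : HH d, mulOp (fun ξ => ((b ξ : ℝ) : ℂ)) (mulOp mR f) = mulOp mR f := by
          intro f
          refine Lp.ext ?_
          have e1 := mulOp_ae (fun ξ : EE d => ((b ξ : ℝ) : ℂ))
            (Complex.measurable_ofReal.comp hψs.continuous.measurable) 1
            (fun x => by
              rw [Complex.norm_real, Real.norm_eq_abs, abs_of_nonneg b.nonneg]
              exact b.le_one) (mulOp mR f)
          have e2 := mulOp_ae mR hmRm C hmRC f
          filter_upwards [e1, e2] with x h1 h2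
          rw [h1, h2, hmR]
          by_cases hx : x ∈ Metric.closedBall (0 : EE d) R
          · rw [hb1 x hx, Complex.ofReal_one, one_mul]
          · rw [Set.indicator_of_notMem hx, zero_mul, mul_zero]
        refine ContinuousLinearMap.ext fun f => ?_
        change mulOp V ((Lp.fourierTransformₗᵢ (EE d) ℂ).symm (mulOp mR
          ((Lp.fourierTransformₗᵢ (EE d) ℂ) f))) = mulOp V ((Lp.fourierTransformₗᵢ (EE d) ℂ).symm
            (mulOp (fun ξ => ((b ξ : ℝ) : ℂ)) (mulOp mR ((Lp.fourierTransformₗᵢ (EE d) ℂ) f))))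
        rw [hmm]
      change IsCompactOperator (mulOp V ∘L fm mR : HH d →L[ℂ] HH d)
      rw [hcomp]
      exact (vmK_compact hV hψs hψc).comp_clm _
    · rw [dist_eq_norm, ← ContinuousLinearMap.comp_sub]
      refine lt_of_le_of_lt (ContinuousLinearMap.opNorm_comp_le _ _) ?_
      have h1 := fm_sub m mR hm hmRm C hC hmRC δ hdiff
      rw [max_eq_left hδ0.le] at h1
      have h2 : ‖(mulOp V : HH d →L[ℂ] HH d)‖ * ‖fm m - fm mR‖ ≤
          ‖(mulOp V : HH d →L[ℂ] HH d)‖ * δ := by gcongr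
      refine lt_of_le_of_lt h2 ?_
      rw [hδ]
      have h3 : ‖(mulOp V : HH d →L[ℂ] HH d)‖ *
          (ε / (2 * (‖(mulOp V : HH d →L[ℂ] HH d)‖ + 1))) =
          ‖(mulOp V : HH d →L[ℂ] HH d)‖ / (‖(mulOp V : HH d →L[ℂ] HH d)‖ + 1) * (ε / 2) := by
        field_simp
      rw [h3]
      have h4 : ‖(mulOp V : HH d →L[ℂ] HH d)‖ / (‖(mulOp V : HH d →L[ℂ] HH d)‖ + 1) ≤ 1 := by
        rw [div_le_one hden]
        linarith
      nlinarith
  rw [isClosed_setOfPred_isCompactOperator.closure_eq] at hcl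
  exact hcl

end

end KRS
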