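import Pool.Agent.H631.KR.Defs
import Pool.Agent.H631.KR.B01
import Pool.Agent.H631.KR.B02
import Pool.Agent.H631.KR.B05
import Pool.Agent.H631.KR.K00
import Pool.Agent.H631.KR.K0R

open MeasureTheory Filter Topology ENNReal Complex
open scoped Laplacian FourierTransform InnerProductSpace

namespace KRS

noncomputable section

/-! TARGET: prove the following -/

theorem VR_compact_tsym_meas {d : ℕ} : Measurable (tsym (d := d)) := by
  unfold tsym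
  have h : Continuous (fun ξ : EE d => (((Real.sqrt (1 + 4 * Real.pi ^ 2 * ‖ξ‖ ^ 2))⁻¹ : ℝ) : ℂ)) := by
    refine Complex.continuous_ofReal.comp ?_
    refine Continuous.inv₀ (by fun_prop) ?_
    intro ξ
    positivity
  exact h.measurable

theorem VR_compact (d : ℕ) (V : EE d → ℂ) (hV : BV V) (z : ℂ) (hz : 0 < z.im) :
    IsCompactOperator (mulOp V ∘L Rz d z : HH d →L[ℂ] HH d) ∧
      IsCompactOperator (mulOp V ∘L fm tsym : HH d →L[ℂ] HH d) := by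
  have hpi : (1 : ℝ) ≤ 4 * Real.pi ^ 2 := by nlinarith [Real.pi_gt_three]
  constructor
  · rw [(Rz_norm z hz).1]
    obtain ⟨C, hC0, hC⟩ := sym_bdd z (Or.inl hz)
    refine Vm_compact d V hV (sym z) (sym_meas z) C (fun x => hC d x) ?_
    intro δ hδ
    refine ⟨‖z‖ + 1 / δ + 1, fun ξ hξ => ?_⟩
    have h0 : 0 < 1 / δ := by positivity
    have h1 : ‖z‖ + 1 / δ ≤ 4 * Real.pi ^ 2 * ‖ξ‖ ^ 2 := by
      have h2 : 1 ≤ ‖ξ‖ := by linarith [norm_nonneg z]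
      have h3 : ‖ξ‖ ≤ ‖ξ‖ ^ 2 := by nlinarith
      nlinarith [sq_nonneg ‖ξ‖]
    unfold sym
    rw [norm_inv]
    have h4 : 1 / δ ≤ ‖(((4 * Real.pi ^ 2 * ‖ξ‖ ^ 2 : ℝ) : ℂ) - z)‖ := by
      have h5 := norm_sub_norm_le (((4 * Real.pi ^ 2 * ‖ξ‖ ^ 2 : ℝ) : ℂ)) z
      have h6 : ‖(((4 * Real.pi ^ 2 * ‖ξ‖ ^ 2 : ℝ) : ℂ))‖ = 4 * Real.pi ^ 2 * ‖ξ‖ ^ 2 := by
        rw [Complex.norm_real, Real.norm_eq_abs, abs_of_nonneg (by positivity)]
      rw [h6] at h5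
      linarith
    calc (‖(((4 * Real.pi ^ 2 * ‖ξ‖ ^ 2 : ℝ) : ℂ) - z)‖)⁻¹ ≤ (1 / δ)⁻¹ := inv_anti₀ h0 h4
      _ = δ := by simp
  · have hle : ∀ ξ : EE d, ‖tsym ξ‖ = (Real.sqrt (1 + 4 * Real.pi ^ 2 * ‖ξ‖ ^ 2))⁻¹ := by
      intro ξ
      unfold tsym
      rw [Complex.norm_real, Real.norm_eq_abs, abs_of_nonneg (by positivity)]
    refine Vm_compact d V hV tsym VR_compact_tsym_meas 1 ?_ ?_
    · intro ξ
      rw [hle]
      apply inv_le_one_of_one_le₀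
      rw [Real.one_le_sqrt]
      have : 0 ≤ 4 * Real.pi ^ 2 * ‖ξ‖ ^ 2 := by positivity
      linarith
    · intro δ hδ
      refine ⟨1 / δ, fun ξ hξ => ?_⟩
      have h0 : 0 < 1 / δ := by positivity
      rw [hle]
      have h4 : 1 / δ ≤ Real.sqrt (1 + 4 * Real.pi ^ 2 * ‖ξ‖ ^ 2) := by
        apply Real.le_sqrt_of_sq_le
        have h5 : (1 / δ) ^ 2 ≤ ‖ξ‖ ^ 2 := pow_le_pow_left₀ h0.le hξ.le 2
        nlinarith [sq_nonneg ‖ξ‖]
      calc (Real.sqrt (1 + 4 * Real.pi ^ 2 * ‖ξ‖ ^ 2))⁻¹ ≤ (1 / δ)⁻¹ := inv_anti₀ h0 h4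
        _ = δ := by simp

theorem AA_unit (d : ℕ) (g : ℝ) (V : EE d → ℂ) (hV : BV V) (z : ℂ) (hz : 0 < z.im) :
    (¬ IsUnit (AA d g V z) → ∃ f : HH d, f ≠ 0 ∧ AA d g V z f = 0) ∧
    (∀ C : ℝ, (∀ f : HH d, ‖f‖ ≤ C * ‖AA d g V z f‖) → IsUnit (AA d g V z) ∧
      ‖Ring.inverse (AA d g V z)‖ ≤ max C 0) := by
  have hT : IsCompactOperator (-((g : ℂ) • (mulOp V ∘L Rz d z)) : HH d →L[ℂ] HH d) := by
    have h := ((VR_compact d V hV z hz).1.smul (g : ℂ)).neg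
    exact h
  have hAA : AA d g V z = 1 - (-((g : ℂ) • (mulOp V ∘L Rz d z)) : HH d →L[ℂ] HH d) := by
    unfold AA
    rw [sub_neg_eq_add]
  have h1 : ¬ IsUnit (AA d g V z) → ∃ f : HH d, f ≠ 0 ∧ AA d g V z f = 0 := by
    intro hU
    rcases hT.hasEigenvalue_or_mem_resolventSet (one_ne_zero : (1 : ℂ) ≠ 0) with h | h
    · obtain ⟨f, hf⟩ := h.exists_hasEigenvector
      refine ⟨f, hf.2, ?_⟩
      have h2 := hf.apply_eq_smul
      rw [one_smul] at h2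
      have h3 : (-((g : ℂ) • (mulOp V ∘L Rz d z)) : HH d →L[ℂ] HH d) f = f := h2
      rw [hAA, ContinuousLinearMap.sub_apply, h3]
      simp
    · exfalso
      apply hU
      rw [hAA]
      have h2 := h
      rw [spectrum.mem_resolventSet_iff, map_one] at h2
      exact h2
  refine ⟨h1, ?_⟩
  intro C hC
  have hU : IsUnit (AA d g V z) := by
    by_contra hcon
    obtain ⟨f, hf0, hf⟩ := h1 hcon
    have h2 := hC f
    rw [hf, norm_zero, mul_zero] at h2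
    exact hf0 (norm_le_zero_iff.mp h2)
  refine ⟨hU, ?_⟩
  refine ContinuousLinearMap.opNorm_le_bound _ (le_max_right _ _) fun y => ?_
  have h3 : AA d g V z (Ring.inverse (AA d g V z) y) = y := by
    have h4 := Ring.mul_inverse_cancel _ hU
    have h5 := congrArg (fun A : HH d →L[ℂ] HH d => A y) h4
    simpa using h5
  have h6 := hC (Ring.inverse (AA d g V z) y)
  rw [h3] at h6
  exact h6.trans (mul_le_mul_of_nonneg_right (le_max_left _ _) (norm_nonneg _))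

end

end KRS
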