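import Pool.Agent.H631.KR.Defs
import Pool.Agent.H631.KR.B01
import Pool.Agent.H631.KR.B02
import Pool.Agent.H631.KR.K00
import Pool.Agent.H631.KR.K0R

open MeasureTheory Filter Topology ENNReal Complex
open scoped Laplacian FourierTransform InnerProductSpace

namespace KRS

noncomputable section

theorem fm_app {d : ℕ} (m : EE d → ℂ) (f : HH d) : fm m f = 𝓕⁻ (mulOp m (𝓕 f)) := rfl

/-- the character -/
def et {d : ℕ} (t ξ : EE d) : ℂ := ((Real.fourierChar (⟪t, ξ⟫_ℝ) : Circle) : ℂ)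

theorem et_cont {d : ℕ} (t : EE d) : Continuous (et t) := by
  unfold et
  fun_prop

theorem et_norm {d : ℕ} (t ξ : EE d) : ‖et t ξ‖ = 1 := Circle.norm_coe _

theorem schwartz_trans {d : ℕ} (t : EE d) (φ : SchwartzMap (EE d) ℂ) (ξ : EE d) :
    (𝓕 (φ.compSubConstCLM ℂ (-t))) ξ = et t ξ * (𝓕 φ) ξ := by
  rw [SchwartzMap.fourier_coe, SchwartzMap.fourier_coe]
  have h := congrFun (VectorFourier.fourierIntegral_comp_add_right Real.fourierChar volume
    (innerₗ (EE d)) (φ : EE d → ℂ) t) ξ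
  have h2 : ((φ : EE d → ℂ) ∘ fun v => v + t) = ((φ.compSubConstCLM ℂ (-t) : SchwartzMap (EE d) ℂ) : EE d → ℂ) := by
    funext x
    simp
  rw [h2] at h
  exact h

theorem fm_schwartz {d : ℕ} (t : EE d) (φ : SchwartzMap (EE d) ℂ) :
    fm (et t) (φ.toLp 2) = (φ.compSubConstCLM ℂ (-t)).toLp 2 := by
  have h1 : mulOp (et t) (𝓕 (φ.toLp 2 : HH d)) = 𝓕 ((φ.compSubConstCLM ℂ (-t)).toLp 2 : HH d) := by
    rw [SchwartzMap.toLp_fourier_eq, SchwartzMap.toLp_fourier_eq]
    apply Lp.ext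
    filter_upwards [mulOp_ae (et t) (et_cont t).measurable 1 (fun ξ => (et_norm t ξ).le)
      ((𝓕 φ).toLp 2 : HH d), (𝓕 φ).coeFn_toLp 2 (volume : Measure (EE d)),
      (𝓕 (φ.compSubConstCLM ℂ (-t))).coeFn_toLp 2 (volume : Measure (EE d))] with x h1 h2 h3
    rw [h1, h2, h3, schwartz_trans]
  rw [fm_app, h1]
  simp

/-- translation -/
theorem fm_trans {d : ℕ} (t : EE d) (u : HH d) :
    fm (et t) u = Lp.compMeasurePreserving (fun x => x + t)
      (measurePreserving_add_right (volume : Measure (EE d)) t) u := by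
  have h1 : Continuous fun u : HH d => fm (et t) u := (fm (et t)).continuous
  have h2 : Continuous fun u : HH d => Lp.compMeasurePreserving (fun x => x + t)
      (measurePreserving_add_right (volume : Measure (EE d)) t) u :=
    (Lp.compMeasurePreservingₗᵢ ℂ (fun x : EE d => x + t)
      (measurePreserving_add_right (volume : Measure (EE d)) t)).continuous
  have h3 : DenseRange (SchwartzMap.toLpCLM ℝ ℂ 2 (volume : Measure (EE d))) :=
    SchwartzMap.denseRange_toLpCLM (by simp)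
  refine congrFun (h3.equalizer h1 h2 ?_) u
  funext φ
  show fm (et t) (φ.toLp 2) = Lp.compMeasurePreserving (fun x => x + t)
      (measurePreserving_add_right (volume : Measure (EE d)) t) (φ.toLp 2)
  rw [fm_schwartz]
  apply Lp.ext
  have hmp := measurePreserving_add_right (volume : Measure (EE d)) t
  filter_upwards [(φ.compSubConstCLM ℂ (-t)).coeFn_toLp 2 (volume : Measure (EE d)),
    Lp.coeFn_compMeasurePreserving (φ.toLp 2 : HH d) hmp,
    hmp.quasiMeasurePreserving.ae (φ.coeFn_toLp 2 (volume : Measure (EE d)))] with x h1 h2 h3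
  rw [h1, h2, Function.comp_apply, h3]
  simp

theorem fm_trans_ae {d : ℕ} (t : EE d) (u : HH d) :
    (fm (et t) u : EE d → ℂ) =ᵐ[volume] fun x => u (x + t) := by
  rw [fm_trans]
  exact Lp.coeFn_compMeasurePreserving u _


/-! bounds -/

theorem sym_lower {d : ℕ} (ε : ℝ) (hε : 0 < ε) (hε1 : ε ≤ 1) (z : ℂ) (hz : ε < z.im) (hz4 : ‖z‖ ≤ 4)
    (ξ : EE d) : ε ≤ ‖(((4 * Real.pi ^ 2 * ‖ξ‖ ^ 2 : ℝ) : ℂ) - z)‖ ∧
      ε * ‖ξ‖ ≤ ‖(((4 * Real.pi ^ 2 * ‖ξ‖ ^ 2 : ℝ) : ℂ) - z)‖ := by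
  have h1 : ε ≤ ‖(((4 * Real.pi ^ 2 * ‖ξ‖ ^ 2 : ℝ) : ℂ) - z)‖ := by
    have := Complex.abs_im_le_norm (((4 * Real.pi ^ 2 * ‖ξ‖ ^ 2 : ℝ) : ℂ) - z)
    rw [Complex.sub_im, Complex.ofReal_im, zero_sub, abs_neg] at this
    exact hz.le.trans ((le_abs_self _).trans this)
  refine ⟨h1, ?_⟩
  rcases le_or_gt ‖ξ‖ 1 with h | h
  · refine le_trans ?_ h1
    nlinarith [norm_nonneg ξ]
  · have h2 : (4 * Real.pi ^ 2 * ‖ξ‖ ^ 2) - 4 ≤ ‖(((4 * Real.pi ^ 2 * ‖ξ‖ ^ 2 : ℝ) : ℂ) - z)‖ := by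
      have h3 := norm_sub_norm_le (((4 * Real.pi ^ 2 * ‖ξ‖ ^ 2 : ℝ) : ℂ)) z
      rw [Complex.norm_real, Real.norm_eq_abs, abs_of_nonneg (by positivity)] at h3
      linarith
    have h3 := Real.pi_gt_three
    have h4 : (9 : ℝ) ≤ Real.pi ^ 2 := by nlinarith
    have h5 : 36 * ‖ξ‖ ^ 2 ≤ 4 * Real.pi ^ 2 * ‖ξ‖ ^ 2 := by
      nlinarith [sq_nonneg ‖ξ‖]
    have h6 : ε * ‖ξ‖ ≤ ‖ξ‖ := by nlinarith
    nlinarith

theorem et_sub {d : ℕ} (t ξ : EE d) : ‖et t ξ - 1‖ ≤ 2 * Real.pi * ‖t‖ * ‖ξ‖ := by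
  have h1 : et t ξ = Complex.exp (I * ((2 * Real.pi * ⟪t, ξ⟫_ℝ : ℝ) : ℂ)) := by
    unfold et
    rw [Real.fourierChar_apply]
    ring_nf
  rw [h1]
  refine (Real.norm_exp_I_mul_ofReal_sub_one_le).trans ?_
  rw [Real.norm_eq_abs, abs_mul, abs_of_pos (by positivity)]
  have := abs_real_inner_le_norm t ξ
  have hp := Real.pi_pos
  nlinarith

theorem trans_bound {d : ℕ} (ε : ℝ) (hε : 0 < ε) (hε1 : ε ≤ 1) (z : ℂ) (hz : ε < z.im)
    (hz4 : ‖z‖ ≤ 4) (t : EE d) (f : HH d) :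
    ‖fm (et t) (Rz d z f) - Rz d z f‖ ≤ 2 * Real.pi * ‖t‖ / ε * ‖f‖ := by
  have hz0 : 0 < z.im := hε.trans hz
  have hs : ∀ ξ : EE d, ‖sym z ξ‖ ≤ 1 / ε := by
    intro ξ
    unfold sym
    rw [norm_inv, inv_eq_one_div]
    exact one_div_le_one_div_of_le hε (sym_lower ε hε hε1 z hz hz4 ξ).1
  have hs2 : ∀ ξ : EE d, ‖ξ‖ * ‖sym z ξ‖ ≤ 1 / ε := by
    intro ξ
    unfold sym
    have h1 := (sym_lower ε hε hε1 z hz hz4 ξ).1
    have h2 := (sym_lower ε hε hε1 z hz hz4 ξ).2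
    rw [norm_inv, ← div_eq_mul_inv, div_le_div_iff₀ (hε.trans_le h1) hε]
    linarith
  have hm : Measurable (fun ξ : EE d => et t ξ * sym z ξ) :=
    (et_cont t).measurable.mul (sym_meas z)
  have h1 : Rz d z = fm (sym z) := (Rz_norm z hz0).1
  rw [h1, fm_comp (et t) (sym z) (et_cont t).measurable 1 (fun ξ => (et_norm t ξ).le)
    (sym_meas z) (1 / ε) hs]
  have h2 : ∀ ξ : EE d, ‖et t ξ * sym z ξ‖ ≤ 1 / ε := by
    intro ξ
    rw [norm_mul, et_norm, one_mul]
    exact hs ξ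
  have h3 := fm_sub (fun ξ : EE d => et t ξ * sym z ξ) (sym z) hm (sym_meas z) (1 / ε) h2 hs
    (2 * Real.pi * ‖t‖ / ε) (by
      intro ξ
      rw [show et t ξ * sym z ξ - sym z ξ = (et t ξ - 1) * sym z ξ by ring, norm_mul]
      calc ‖et t ξ - 1‖ * ‖sym z ξ‖ ≤ (2 * Real.pi * ‖t‖ * ‖ξ‖) * ‖sym z ξ‖ :=
            mul_le_mul_of_nonneg_right (et_sub t ξ) (norm_nonneg _)
        _ = 2 * Real.pi * ‖t‖ * (‖ξ‖ * ‖sym z ξ‖) := by ring
        _ ≤ 2 * Real.pi * ‖t‖ * (1 / ε) := mul_le_mul_of_nonneg_left (hs2 ξ) (by positivity)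
        _ = 2 * Real.pi * ‖t‖ / ε := by ring)
  rw [max_eq_left (by positivity)] at h3
  rw [← sub_apply]
  exact (ContinuousLinearMap.le_opNorm _ _).trans (mul_le_mul_of_nonneg_right h3 (norm_nonneg _))

theorem enorm_sq {d : ℕ} (g : HH d) : ‖g‖ₑ ^ 2 = ∫⁻ x, ‖g x‖ₑ ^ 2 := by
  rw [Lp.enorm_def, eLpNorm_eq_lintegral_rpow_enorm_toReal (by simp) (by simp)]
  simp only [ENNReal.toReal_ofNat, ENNReal.rpow_ofNat, one_div]
  rw [← ENNReal.rpow_natCast, ← ENNReal.rpow_mul]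
  simp

theorem trans_lint {d : ℕ} (ε : ℝ) (hε : 0 < ε) (hε1 : ε ≤ 1) (z : ℂ) (hz : ε < z.im)
    (hz4 : ‖z‖ ≤ 4) (t : EE d) (f : HH d) :
    ∫⁻ x, ‖Rz d z f x - Rz d z f (x + t)‖ₑ ^ 2 ≤ ENNReal.ofReal (2 * Real.pi * ‖t‖ / ε * ‖f‖) ^ 2 := by
  have h1 := trans_bound ε hε hε1 z hz hz4 t f
  have h2 : ∫⁻ x, ‖Rz d z f x - Rz d z f (x + t)‖ₑ ^ 2 =
      ∫⁻ x, ‖(fm (et t) (Rz d z f) - Rz d z f : HH d) x‖ₑ ^ 2 := by
    apply lintegral_congr_ae
    filter_upwards [Lp.coeFn_sub (fm (et t) (Rz d z f)) (Rz d z f), fm_trans_ae t (Rz d z f)]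
      with x hx hx2
    rw [hx, Pi.sub_apply, hx2, enorm_sub_rev]
  rw [h2, ← enorm_sq]
  gcongr
  rw [← ofReal_norm]
  exact ENNReal.ofReal_le_ofReal h1


/-! cubes -/

/-- cube of side `h` -/
def cell {d : ℕ} (h : ℝ) (n : Fin d → ℤ) : Set (EE d) :=
  (fun x : EE d => (WithLp.ofLp x : Fin d → ℝ)) ⁻¹'
    (Set.pi Set.univ fun i => Set.Ico ((n i : ℝ) * h) (((n i : ℝ) + 1) * h))

/-- differences -/
def Dh (d : ℕ) (h : ℝ) : Set (EE d) :=
  (fun x : EE d => (WithLp.ofLp x : Fin d → ℝ)) ⁻¹'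
    (Set.pi Set.univ fun _ => Set.Ioo (-h) h)

theorem cell_meas {d : ℕ} (h : ℝ) (n : Fin d → ℤ) : MeasurableSet (cell h n) :=
  (MeasurableSet.univ_pi fun _ => measurableSet_Ico).preimage (by fun_prop)

theorem Dh_meas (d : ℕ) (h : ℝ) : MeasurableSet (Dh d h) :=
  (MeasurableSet.univ_pi fun _ => measurableSet_Ioo).preimage (by fun_prop)

theorem cell_vol {d : ℕ} (h : ℝ) (n : Fin d → ℤ) :
    volume (cell (d := d) h n) = ENNReal.ofReal h ^ d := by
  unfold cell
  rw [(PiLp.volume_preserving_ofLp (Fin d)).measure_preimage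
    (MeasurableSet.univ_pi fun _ => measurableSet_Ico).nullMeasurableSet, Real.volume_pi_Ico]
  rw [Finset.prod_congr rfl (fun i _ => show ENNReal.ofReal (((n i : ℝ) + 1) * h - n i * h) =
    ENNReal.ofReal h by ring_nf)]
  simp

theorem Dh_vol (d : ℕ) (h : ℝ) : volume (Dh d h) = ENNReal.ofReal (2 * h) ^ d := by
  unfold Dh
  rw [(PiLp.volume_preserving_ofLp (Fin d)).measure_preimage
    (MeasurableSet.univ_pi fun _ => measurableSet_Ioo).nullMeasurableSet, Real.volume_pi_Ioo]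
  rw [Finset.prod_congr rfl (fun i _ => show ENNReal.ofReal (h - -h) =
    ENNReal.ofReal (2 * h) by ring_nf)]
  simp

theorem cell_sub {d : ℕ} (h : ℝ) (n : Fin d → ℤ) (x y : EE d) (hx : x ∈ cell h n)
    (hy : y ∈ cell h n) : y - x ∈ Dh d h := by
  intro i _
  have h1 := hx i (Set.mem_univ i)
  have h2 := hy i (Set.mem_univ i)
  simp only [Set.mem_Ico] at h1 h2
  show (y - x) i ∈ _
  rw [PiLp.sub_apply, Set.mem_Ioo]
  constructor <;> nlinarith [h1.1, h1.2, h2.1, h2.2]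

theorem cell_mem {d : ℕ} {h : ℝ} (hh : 0 < h) (x : EE d) : x ∈ cell h fun i => ⌊x i / h⌋ := by
  intro i _
  simp only [Set.mem_Ico]
  have h1 := Int.floor_le (x i / h)
  have h2 := Int.lt_floor_add_one (x i / h)
  rw [le_div_iff₀ hh] at h1
  rw [div_lt_iff₀ hh] at h2
  exact ⟨h1, h2⟩

theorem cell_eq {d : ℕ} {h : ℝ} (hh : 0 < h) (n : Fin d → ℤ) (x : EE d) (hx : x ∈ cell h n) :
    n = fun i => ⌊x i / h⌋ := by
  funext i
  have h1 := hx i (Set.mem_univ i)
  simp only [Set.mem_Ico] at h1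
  rw [eq_comm, Int.floor_eq_iff]
  constructor
  · rw [le_div_iff₀ hh]
    exact h1.1
  · rw [div_lt_iff₀ hh]
    exact h1.2

theorem Dh_norm {d : ℕ} {h : ℝ} (hh : 0 < h) (t : EE d) (ht : t ∈ Dh d h) : ‖t‖ ≤ d * h := by
  rw [EuclideanSpace.norm_eq]
  apply Real.sqrt_le_iff.2
  refine ⟨by positivity, ?_⟩
  have h1 : ∀ i ∈ (Finset.univ : Finset (Fin d)), ‖t i‖ ^ 2 ≤ h ^ 2 := by
    intro i _
    have h2 := ht i (Set.mem_univ i)
    simp only [Set.mem_Ioo] at h2
    rw [Real.norm_eq_abs, sq_abs]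
    exact sq_le_sq' h2.1.le h2.2.le
  refine (Finset.sum_le_sum h1).trans ?_
  rw [Finset.sum_const, Finset.card_univ, Fintype.card_fin, nsmul_eq_mul]
  rcases Nat.eq_zero_or_pos d with rfl | hd
  · simp
  · have : (1 : ℝ) ≤ d := by exact_mod_cast hd
    nlinarith [sq_nonneg h, mul_pos hh hh]

/-- average over a cube -/
def avg {d : ℕ} (h : ℝ) (u : EE d → ℂ) (n : Fin d → ℤ) : ℂ :=
  ∫ y, u y ∂((volume (cell (d := d) h n))⁻¹ • volume.restrict (cell h n))

theorem jensen {d : ℕ} {h : ℝ} (hh : 0 < h) (u : HH d) (n : Fin d → ℤ) (x : EE d) :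
    ‖u x - avg h u n‖ₑ ^ 2 ≤ (ENNReal.ofReal h ^ d)⁻¹ *
      ∫⁻ y in cell h n, ‖u x - u y‖ₑ ^ 2 := by
  have hv := cell_vol (d := d) h n
  have hv0 : volume (cell (d := d) h n) ≠ 0 := by
    rw [hv]
    exact pow_ne_zero _ (by simpa using hh)
  have hvt : volume (cell (d := d) h n) ≠ ⊤ := by
    rw [hv]
    exact ENNReal.pow_ne_top ENNReal.ofReal_ne_top
  haveI : IsProbabilityMeasure ((volume (cell (d := d) h n))⁻¹ • volume.restrict (cell (d := d) h n)) := by
    constructor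
    rw [Measure.smul_apply, Measure.restrict_apply_univ, smul_eq_mul]
    exact ENNReal.inv_mul_cancel hv0 hvt
  haveI : IsFiniteMeasure (volume.restrict (cell (d := d) h n)) := by
    constructor
    rw [Measure.restrict_apply_univ]
    exact hvt.lt_top
  have hint : Integrable (u : EE d → ℂ)
      ((volume (cell (d := d) h n))⁻¹ • volume.restrict (cell (d := d) h n)) := by
    apply Integrable.smul_measure _ (ENNReal.inv_ne_top.2 hv0)
    exact ((Lp.memLp u).restrict (cell h n)).integrable (by norm_num)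
  have h1 : u x - avg h u n = ∫ y, (u x - u y)
      ∂((volume (cell (d := d) h n))⁻¹ • volume.restrict (cell (d := d) h n)) := by
    rw [integral_sub (integrable_const _) hint]
    unfold avg
    simp
  have h2 : ‖u x - avg h u n‖ₑ ≤ eLpNorm (fun y => u x - u y) 2
      ((volume (cell (d := d) h n))⁻¹ • volume.restrict (cell (d := d) h n)) := by
    rw [h1]
    refine (enorm_integral_le_lintegral_enorm _).trans ?_
    rw [← eLpNorm_one_eq_lintegral_enorm]
    apply eLpNorm_le_eLpNorm_of_exponent_le (by norm_num)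
    exact ((integrable_const _).sub hint).aestronglyMeasurable
  calc ‖u x - avg h u n‖ₑ ^ 2 ≤ (eLpNorm (fun y => u x - u y) 2
      ((volume (cell (d := d) h n))⁻¹ • volume.restrict (cell (d := d) h n))) ^ 2 := by gcongr
    _ = _ := by
      rw [eLpNorm_eq_lintegral_rpow_enorm_toReal (by simp) (by simp)]
      simp only [ENNReal.toReal_ofNat, ENNReal.rpow_ofNat, one_div]
      rw [← ENNReal.rpow_natCast, ← ENNReal.rpow_mul]
      simp only [Nat.cast_ofNat, ne_eq, OfNat.ofNat_ne_zero, not_false_eq_true, inv_mul_cancel₀,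
        ENNReal.rpow_one]
      rw [lintegral_smul_measure, hv, smul_eq_mul]

theorem core {d : ℕ} {h : ℝ} (hh : 0 < h) (u : HH d) (S : Finset (Fin d → ℤ)) (K : ENNReal)
    (hK : ∀ t ∈ Dh d h, ∫⁻ x, ‖u x - u (x + t)‖ₑ ^ 2 ≤ K) :
    ∑ n ∈ S, ∫⁻ x in cell h n, ‖u x - avg h u n‖ₑ ^ 2 ≤ 2 ^ d * K := by
  classical
  have hum : Measurable (u : EE d → ℂ) := (Lp.stronglyMeasurable u).measurable
  have hG : Measurable fun p : EE d × EE d =>
      (Dh d h).indicator (fun _ => (1 : ENNReal)) p.2 * ‖u p.1 - u (p.1 + p.2)‖ₑ ^ 2 := by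
    have h1 : Measurable fun p : EE d × EE d => (Dh d h).indicator (fun _ => (1 : ENNReal)) p.2 :=
      (measurable_const.indicator (Dh_meas d h)).comp measurable_snd
    have h2 : Measurable fun p : EE d × EE d => u p.1 - u (p.1 + p.2) :=
      (hum.comp measurable_fst).sub (hum.comp (measurable_fst.add measurable_snd))
    exact h1.mul (h2.enorm.pow_const 2)
  have step1 : ∀ n ∈ S, ∫⁻ x in cell h n, ‖u x - avg h u n‖ₑ ^ 2 ≤
      ∫⁻ x in cell h n, ((ENNReal.ofReal h ^ d)⁻¹ *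
        ∫⁻ t, (Dh d h).indicator (fun _ => (1 : ENNReal)) t * ‖u x - u (x + t)‖ₑ ^ 2) := by
    intro n _
    apply setLIntegral_mono' (cell_meas h n)
    intro x hx
    refine (jensen hh u n x).trans (mul_le_mul' le_rfl ?_)
    have e1 : ∫⁻ t, (Dh d h).indicator (fun _ => (1 : ENNReal)) t * ‖u x - u (x + t)‖ₑ ^ 2 =
        ∫⁻ y, (Dh d h).indicator (fun _ => (1 : ENNReal)) (y - x) * ‖u x - u y‖ₑ ^ 2 := by
      rw [← lintegral_add_left_eq_self
        (fun y => (Dh d h).indicator (fun _ => (1 : ENNReal)) (y - x) * ‖u x - u y‖ₑ ^ 2) x]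
      simp
    rw [e1, ← lintegral_indicator (cell_meas h n)]
    apply lintegral_mono
    intro y
    by_cases hy : y ∈ cell h n
    · rw [Set.indicator_of_mem hy]
      show _ ≤ (Dh d h).indicator (fun _ => (1 : ENNReal)) (y - x) * ‖u x - u y‖ₑ ^ 2
      rw [Set.indicator_of_mem (cell_sub h n x y hx hy), one_mul]
    · rw [Set.indicator_of_notMem hy]
      exact zero_le
  refine (Finset.sum_le_sum step1).trans ?_
  have hdis : Set.PairwiseDisjoint (↑S : Set (Fin d → ℤ)) (fun n => cell (d := d) h n) := by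
    intro n _ m _ hnm
    rw [Function.onFun, Set.disjoint_left]
    intro x hx hx'
    exact hnm ((cell_eq hh n x hx).trans (cell_eq hh m x hx').symm)
  rw [← lintegral_biUnion_finset hdis (fun n _ => cell_meas h n)]
  refine (setLIntegral_le_lintegral _ _).trans ?_
  rw [lintegral_const_mul' _ _ (ENNReal.inv_ne_top.2 (pow_ne_zero _ (by simpa using hh)))]
  rw [lintegral_lintegral_swap hG.aemeasurable]
  have step2 : ∫⁻ t, ∫⁻ x, (Dh d h).indicator (fun _ => (1 : ENNReal)) t * ‖u x - u (x + t)‖ₑ ^ 2 ≤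
      ∫⁻ t, (Dh d h).indicator (fun _ => K) t := by
    apply lintegral_mono
    intro t
    by_cases ht : t ∈ Dh d h
    · simp only [Set.indicator_of_mem ht, one_mul]
      exact hK t ht
    · simp only [Set.indicator_of_notMem ht, zero_mul, lintegral_zero]
      exact le_rfl
  refine (mul_le_mul' le_rfl step2).trans ?_
  rw [lintegral_indicator_const (Dh_meas d h), Dh_vol, ENNReal.ofReal_mul (by norm_num), mul_pow]
  have hne : ENNReal.ofReal h ^ d ≠ 0 := pow_ne_zero _ (by simpa using hh)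
  have hnt : ENNReal.ofReal h ^ d ≠ ⊤ := ENNReal.pow_ne_top ENNReal.ofReal_ne_top
  calc (ENNReal.ofReal h ^ d)⁻¹ * (K * (ENNReal.ofReal 2 ^ d * ENNReal.ofReal h ^ d))
      = ((ENNReal.ofReal h ^ d)⁻¹ * ENNReal.ofReal h ^ d) * (ENNReal.ofReal 2 ^ d * K) := by ring
    _ = ENNReal.ofReal 2 ^ d * K := by rw [ENNReal.inv_mul_cancel hne hnt, one_mul]
    _ ≤ 2 ^ d * K := by simp


/-- the class of the indicator function of a cube -/
def ic (d : ℕ) (h : ℝ) (n : Fin d → ℤ) : HH d :=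
  indicatorConstLp 2 (cell_meas (d := d) h n)
    (by rw [cell_vol]; exact ENNReal.pow_ne_top ENNReal.ofReal_ne_top) (1 : ℂ)

/-- the cubes -/
def cubes (d : ℕ) (M : ℤ) : Finset (Fin d → ℤ) := Fintype.piFinset fun _ => Finset.Icc (-M) M

theorem cubes_cover {d : ℕ} {h L : ℝ} (hh : 0 < h) (M : ℤ) (hM : L / h ≤ M) (x : EE d)
    (hx : ‖x‖ ≤ L) : (fun i => ⌊x i / h⌋) ∈ cubes d M := by
  unfold cubes
  rw [Fintype.mem_piFinset]
  intro i
  rw [Finset.mem_Icc]
  have h1 : |x i| ≤ L := by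
    have := PiLp.norm_apply_le x i
    rw [Real.norm_eq_abs] at this
    exact this.trans hx
  have h2 := abs_le.1 h1
  constructor
  · rw [Int.le_floor]
    push_cast
    rw [le_div_iff₀ hh]
    rw [div_le_iff₀ hh] at hM
    linarith [h2.1]
  · have h3 : (⌊x i / h⌋ : ℝ) ≤ M := by
      refine (Int.floor_le _).trans (le_trans ?_ hM)
      exact div_le_div_of_nonneg_right h2.2 hh.le
    exact_mod_cast h3

theorem key {d : ℕ} {h L : ℝ} (hh : 0 < h) (M : ℤ) (hM : L / h ≤ M) (V : EE d → ℂ)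
    (hV : Measurable V) (hV1 : ∀ x, ‖V x‖ ≤ 1) (hV0 : ∀ x, L < ‖x‖ → V x = 0) (u : HH d)
    (K : ENNReal) (hK : ∀ t ∈ Dh d h, ∫⁻ x, ‖u x - u (x + t)‖ₑ ^ 2 ≤ K) :
    ‖mulOp V u - ∑ n ∈ cubes d M, avg h u n • mulOp V (ic d h n)‖ₑ ^ 2 ≤ 2 ^ d * K := by
  classical
  have h1 : mulOp V u - ∑ n ∈ cubes d M, avg h u n • mulOp V (ic d h n) =
      mulOp V (u - ∑ n ∈ cubes d M, avg h u n • ic d h n) := by
    simp only [map_sub, map_sum, map_smul]
  rw [h1, enorm_sq]
  refine le_trans ?_ (core hh u (cubes d M) K hK)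
  have h2 : ∀ n ∈ cubes d M, ∫⁻ x in cell h n, ‖u x - avg h u n‖ₑ ^ 2 =
      ∫⁻ x, (cell h n).indicator (fun x => ‖u x - avg h u n‖ₑ ^ 2) x := fun n _ => by
    rw [lintegral_indicator (cell_meas h n)]
  rw [Finset.sum_congr rfl h2]
  have hum : Measurable (u : EE d → ℂ) := (Lp.stronglyMeasurable u).measurable
  rw [← lintegral_finsetSum]
  swap
  · intro n _
    apply Measurable.indicator _ (cell_meas h n)
    exact ((hum.sub measurable_const).enorm).pow_const 2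
  apply lintegral_mono_ae
  have hsum : (∑ n ∈ cubes d M, avg h u n • ic d h n : HH d) =ᵐ[volume]
      fun x => ∑ n ∈ cubes d M, avg h u n * (cell h n).indicator (fun _ => (1 : ℂ)) x := by
    have : ∀ T : Finset (Fin d → ℤ), (∑ n ∈ T, avg h u n • ic d h n : HH d) =ᵐ[volume]
        fun x => ∑ n ∈ T, avg h u n * (cell h n).indicator (fun _ => (1 : ℂ)) x := by
      intro T
      induction T using Finset.induction_on with
      | empty =>
        simp only [Finset.sum_empty]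
        exact Lp.coeFn_zero _ _ _
      | insert n T hn ih =>
        rw [Finset.sum_insert hn]
        have e1 : (ic d h n : EE d → ℂ) =ᵐ[volume] (cell h n).indicator (fun _ => (1 : ℂ)) :=
          indicatorConstLp_coeFn
        filter_upwards [Lp.coeFn_add (avg h u n • ic d h n) (∑ n ∈ T, avg h u n • ic d h n), ih,
          Lp.coeFn_smul (avg h u n) (ic d h n), e1] with x a1 a2 a3 a4
        rw [a1, Pi.add_apply, a2, a3, Pi.smul_apply, a4, Finset.sum_insert hn, smul_eq_mul]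
    exact this _
  filter_upwards [mulOp_ae V hV 1 hV1 (u - ∑ n ∈ cubes d M, avg h u n • ic d h n),
    Lp.coeFn_sub u (∑ n ∈ cubes d M, avg h u n • ic d h n), hsum] with x a1 a2 a3
  rw [a1, a2, Pi.sub_apply, a3]
  rcases le_or_gt ‖x‖ L with hx | hx
  · have hn := cubes_cover hh M hM x hx
    set n₀ : Fin d → ℤ := fun i => ⌊x i / h⌋ with hn₀
    have hmem : x ∈ cell h n₀ := cell_mem hh x
    have h3 : ∑ n ∈ cubes d M, avg h u n * (cell h n).indicator (fun _ => (1 : ℂ)) x =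
        avg h u n₀ := by
      rw [Finset.sum_eq_single n₀]
      · rw [Set.indicator_of_mem hmem, mul_one]
      · intro n _ hne
        rw [Set.indicator_of_notMem, mul_zero]
        intro hxn
        exact hne (cell_eq hh n x hxn)
      · intro hne
        exact absurd hn hne
    rw [h3]
    refine le_trans ?_ (Finset.single_le_sum (f := fun n =>
      (cell h n).indicator (fun x => ‖u x - avg h u n‖ₑ ^ 2) x) (fun _ _ => zero_le) hn)
    rw [Set.indicator_of_mem hmem, enorm_mul]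
    have h4 : ‖V x‖ₑ ≤ 1 := by
      rw [← ofReal_norm]
      exact (ENNReal.ofReal_le_ofReal (hV1 x)).trans (by simp)
    calc (‖V x‖ₑ * ‖u x - avg h u n₀‖ₑ) ^ 2 ≤ (1 * ‖u x - avg h u n₀‖ₑ) ^ 2 := by gcongr
      _ = _ := by rw [one_mul]
  · rw [hV0 x hx]
    simp

/-! TARGET: prove the following -/

theorem fin_approx (d : ℕ) (hd : 1 ≤ d) :
    ∃ C : ℝ, 1 ≤ C ∧ ∀ (L ε : ℝ), 1 ≤ L → 0 < ε → ε ≤ 1 → ∀ V : EE d → ℂ, Measurable V →
      (∀ x, ‖V x‖ ≤ 1) → (∀ x, L < ‖x‖ → V x = 0) →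
      ∃ (W : Submodule ℂ (HH d)) (F N : ℂ → (HH d →L[ℂ] HH d)),
        FiniteDimensional ℂ W ∧ (Module.finrank ℂ W : ℝ) ≤ C * (L / ε) ^ d ∧
        (∀ z : ℂ, ε < z.im → ‖z‖ ≤ 4 → mulOp V ∘L Rz d z = F z + N z ∧ (∀ f, F z f ∈ W) ∧
          ‖N z‖ ≤ 1 / 2) ∧
        DifferentiableOn ℂ F {z : ℂ | 0 < z.im} ∧ DifferentiableOn ℂ N {z : ℂ | 0 < z.im} := by
  classical
  have hd1 : (1 : ℝ) ≤ d := by exact_mod_cast hd
  have hpi := Real.pi_gt_three
  have h2d : (1 : ℝ) ≤ 2 ^ d := one_le_pow₀ (by norm_num)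
  set c : ℝ := 4 * Real.pi * d * 2 ^ d with hc
  have hc1 : 1 ≤ c := by
    have : (1 : ℝ) ≤ d * 2 ^ d := by nlinarith
    rw [hc]
    nlinarith
  have hc0 : 0 < c := by linarith
  refine ⟨(5 * c) ^ d, one_le_pow₀ (by linarith), ?_⟩
  intro L ε hL hε hε1 V hV hV1 hV0
  set h : ℝ := ε / c with hhdef
  have hh : 0 < h := by positivity
  have hLh : 1 ≤ L / h := by
    rw [hhdef, one_le_div hh]
    refine le_trans ?_ hL
    rw [div_le_one hc0]
    linarith
  set M : ℤ := ⌈L / h⌉ with hM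
  have hM1 : L / h ≤ M := Int.le_ceil _
  have hM2 : (M : ℝ) < L / h + 1 := Int.ceil_lt_add_one _
  have hM0 : 0 ≤ M := by
    have : (0 : ℝ) ≤ M := by linarith
    exact_mod_cast this
  let W : Submodule ℂ (HH d) := Submodule.span ℂ
    (Set.range fun n : cubes d M => mulOp V (ic d h n))
  have hfin : FiniteDimensional ℂ W := FiniteDimensional.span_of_finite ℂ (Set.finite_range _)
  have hcard : ((cubes d M).card : ℝ) ≤ (5 * c) ^ d * (L / ε) ^ d := by
    unfold cubes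
    rw [Fintype.card_piFinset, Finset.prod_const, Finset.card_univ, Fintype.card_fin,
      Int.card_Icc, ← mul_pow]
    push_cast
    have e1 : (((M + 1 - -M).toNat : ℕ) : ℝ) = 2 * M + 1 := by
      have : (((M + 1 - -M).toNat : ℕ) : ℤ) = 2 * M + 1 := by
        rw [Int.toNat_of_nonneg (by omega)]
        ring
      exact_mod_cast this
    rw [e1]
    apply pow_le_pow_left₀ (by positivity)
    have e2 : 5 * c * (L / ε) = 5 * (L / h) := by
      rw [hhdef]
      field_simp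
    rw [e2]
    linarith
  have hrank : (Module.finrank ℂ W : ℝ) ≤ (5 * c) ^ d * (L / ε) ^ d := by
    refine le_trans ?_ hcard
    have := finrank_range_le_card (R := ℂ) (fun n : cubes d M => mulOp V (ic d h n))
    rw [Fintype.card_coe] at this
    exact_mod_cast this
  let P : HH d →L[ℂ] HH d := W.starProjection
  refine ⟨W, fun z => P ∘L (mulOp V ∘L Rz d z), fun z => (1 - P) ∘L (mulOp V ∘L Rz d z), hfin,
    hrank, ?_, ?_, ?_⟩
  · intro z hz hz4
    refine ⟨?_, ?_, ?_⟩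
    · ext1 f
      simp
    · intro f
      exact Submodule.coe_mem _
    · apply ContinuousLinearMap.opNorm_le_bound _ (by norm_num)
      intro f
      show ‖mulOp V (Rz d z f) - P (mulOp V (Rz d z f))‖ ≤ 1 / 2 * ‖f‖
      have e1 : ‖mulOp V (Rz d z f) - P (mulOp V (Rz d z f))‖ ≤
          ‖mulOp V (Rz d z f) - ∑ n ∈ cubes d M, avg h (Rz d z f) n • mulOp V (ic d h n)‖ := by
        show ‖mulOp V (Rz d z f) - W.starProjection (mulOp V (Rz d z f))‖ ≤ _
        rw [Submodule.starProjection_minimal]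
        have hw : ∑ n ∈ cubes d M, avg h (Rz d z f) n • mulOp V (ic d h n) ∈ W := by
          refine sum_mem fun n hn => W.smul_mem _ (Submodule.subset_span ⟨⟨n, hn⟩, rfl⟩)
        exact ciInf_le ⟨0, by rintro _ ⟨y, rfl⟩; exact norm_nonneg _⟩ (⟨_, hw⟩ : W)
      refine e1.trans ?_
      have e2 := key hh M hM1 V hV hV1 hV0 (Rz d z f)
        (ENNReal.ofReal (2 * Real.pi * (d * h) / ε * ‖f‖) ^ 2) (by
          intro t ht
          refine (trans_lint ε hε hε1 z hz hz4 t f).trans ?_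
          gcongr
          exact Dh_norm hh t ht)
      have e3 : (2 : ENNReal) ^ d * ENNReal.ofReal (2 * Real.pi * (d * h) / ε * ‖f‖) ^ 2 ≤
          ENNReal.ofReal (1 / 2 * ‖f‖) ^ 2 := by
        rw [← ENNReal.ofReal_pow (by positivity), ← ENNReal.ofReal_pow (by positivity),
          show (2 : ENNReal) ^ d = ENNReal.ofReal (2 ^ d) by
            rw [ENNReal.ofReal_pow (by norm_num)]; norm_num,
          ← ENNReal.ofReal_mul (by positivity)]
        apply ENNReal.ofReal_le_ofReal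
        have e4 : 2 * Real.pi * (d * h) / ε = 1 / (2 * 2 ^ d) := by
          rw [hhdef, hc]
          field_simp
          ring
        rw [e4]
        have e5 : (2 : ℝ) ^ d * (1 / (2 * 2 ^ d) * ‖f‖) ^ 2 = (1 / 2 * ‖f‖) ^ 2 / 2 ^ d := by
          field_simp
        rw [e5]
        exact div_le_self (by positivity) h2d
      have e6 := e2.trans e3
      rw [← ofReal_norm, ← ENNReal.ofReal_pow (norm_nonneg _),
        ← ENNReal.ofReal_pow (by positivity), ENNReal.ofReal_le_ofReal_iff (by positivity)] at e6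
      exact le_of_sq_le_sq e6 (by positivity)
  · have h1 : DifferentiableOn ℂ (fun z => mulOp V ∘L Rz d z) {z : ℂ | 0 < z.im} :=
      (differentiableOn_const _).clm_comp (Rz_diff d)
    exact (differentiableOn_const _).clm_comp h1
  · have h1 : DifferentiableOn ℂ (fun z => mulOp V ∘L Rz d z) {z : ℂ | 0 < z.im} :=
      (differentiableOn_const _).clm_comp (Rz_diff d)
    exact (differentiableOn_const _).clm_comp h1

end

end KRS
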