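import Pool.Agent.H631.KR.Defs

open MeasureTheory Filter Topology ENNReal Complex
open scoped Laplacian FourierTransform InnerProductSpace

namespace KRS

noncomputable section

/-! TARGET: prove the following -/

theorem h940_det {ι : Type*} [Fintype ι] [DecidableEq ι] (M : Matrix ι ι ℂ) (c : ℝ)
    (hM : ∀ i j, ‖M i j‖ ≤ c) : ‖M.det‖ ≤ (Fintype.card ι).factorial * c ^ Fintype.card ι := by
  have h := Matrix.det_le (A := M) (abv := NormedField.toAbsoluteValue ℂ) (x := c) hM
  rw [nsmul_eq_mul] at h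
  exact h

theorem h940_lin {E : Type} [NormedAddCommGroup E] [InnerProductSpace ℂ E]
    [FiniteDimensional ℂ E] (B : Matrix (Fin (Module.finrank ℂ E)) (Fin (Module.finrank ℂ E)) ℂ)
    (c : ℝ) (hB : ∀ i j, ‖B i j‖ ≤ c) (y : E) :
    ‖Matrix.toLin (stdOrthonormalBasis ℂ E).toBasis (stdOrthonormalBasis ℂ E).toBasis B y‖
      ≤ (Module.finrank ℂ E : ℝ) * ((Module.finrank ℂ E : ℝ) * (c * ‖y‖)) := by
  rw [Matrix.toLin_apply]
  have h1 : ∀ i, ‖(B.mulVec ((stdOrthonormalBasis ℂ E).toBasis.repr y)) i‖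
      ≤ (Module.finrank ℂ E : ℝ) * (c * ‖y‖) := by
    intro i
    unfold Matrix.mulVec dotProduct
    refine (norm_sum_le _ _).trans ?_
    have h2 : ∀ j ∈ (Finset.univ : Finset (Fin (Module.finrank ℂ E))),
        ‖B i j * ((stdOrthonormalBasis ℂ E).toBasis.repr y) j‖ ≤ c * ‖y‖ := by
      intro j _
      rw [norm_mul]
      have h3 : ‖((stdOrthonormalBasis ℂ E).toBasis.repr y) j‖ ≤ ‖y‖ := by
        rw [OrthonormalBasis.coe_toBasis_repr_apply, OrthonormalBasis.repr_apply_apply]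
        refine (norm_inner_le_norm _ _).trans ?_
        rw [OrthonormalBasis.norm_eq_one, one_mul]
      exact mul_le_mul (hB i j) h3 (norm_nonneg _) ((norm_nonneg _).trans (hB i j))
    refine (Finset.sum_le_card_nsmul _ _ _ h2).trans ?_
    rw [Finset.card_univ, Fintype.card_fin, nsmul_eq_mul]
  refine (norm_sum_le _ _).trans ?_
  have h4 : ∀ i ∈ (Finset.univ : Finset (Fin (Module.finrank ℂ E))),
      ‖(B.mulVec ((stdOrthonormalBasis ℂ E).toBasis.repr y)) i • (stdOrthonormalBasis ℂ E).toBasis i‖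
        ≤ (Module.finrank ℂ E : ℝ) * (c * ‖y‖) := by
    intro i _
    rw [norm_smul, OrthonormalBasis.coe_toBasis, OrthonormalBasis.norm_eq_one, mul_one]
    exact h1 i
  refine (Finset.sum_le_card_nsmul _ _ _ h4).trans ?_
  rw [Finset.card_univ, Fintype.card_fin, nsmul_eq_mul]

theorem det_bounds {E : Type} [NormedAddCommGroup E] [InnerProductSpace ℂ E]
    [FiniteDimensional ℂ E] (A : E →L[ℂ] E) (a : ℝ) (ha : 1 ≤ a) (hA : ‖A‖ ≤ a) :
    ‖LinearMap.det (A : E →ₗ[ℂ] E)‖ ≤
        (((Module.finrank ℂ E : ℝ) + 1) * a) ^ (2 * (Module.finrank ℂ E) + 2) ∧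
    ∀ x : E, ‖LinearMap.det (A : E →ₗ[ℂ] E)‖ * ‖x‖ ≤
      (((Module.finrank ℂ E : ℝ) + 1) * a) ^ (2 * (Module.finrank ℂ E) + 2) * ‖A x‖ := by
  obtain ⟨n, hn⟩ : ∃ n, n = Module.finrank ℂ E := ⟨_, rfl⟩
  set M : Matrix (Fin (Module.finrank ℂ E)) (Fin (Module.finrank ℂ E)) ℂ :=
    LinearMap.toMatrix (stdOrthonormalBasis ℂ E).toBasis (stdOrthonormalBasis ℂ E).toBasis
      (A : E →ₗ[ℂ] E) with hMdef
  have hdet : LinearMap.det (A : E →ₗ[ℂ] E) = M.det := by
    rw [hMdef, LinearMap.det_toMatrix]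
  have hMe : ∀ i j, ‖M i j‖ ≤ a := by
    intro i j
    rw [hMdef, LinearMap.toMatrix_apply, OrthonormalBasis.coe_toBasis_repr_apply,
      OrthonormalBasis.repr_apply_apply, OrthonormalBasis.coe_toBasis]
    refine (norm_inner_le_norm _ _).trans ?_
    rw [OrthonormalBasis.norm_eq_one, one_mul]
    refine ((A.le_opNorm _).trans ?_)
    rw [OrthonormalBasis.norm_eq_one, mul_one]
    exact hA
  have ha0 : 0 ≤ a := by linarith
  have hfac : ((n.factorial : ℕ) : ℝ) ≤ ((n : ℝ) + 1) ^ n := by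
    have h1 : n.factorial ≤ (n + 1) ^ n := (Nat.factorial_le_pow n).trans (Nat.pow_le_pow_left (by omega) n)
    exact_mod_cast h1
  have hn1 : (1:ℝ) ≤ (n : ℝ) + 1 := by
    have : (0:ℝ) ≤ n := Nat.cast_nonneg n
    linarith
  have hna : (1:ℝ) ≤ ((n : ℝ) + 1) * a := by nlinarith
  have hbase : ((n.factorial : ℕ) : ℝ) * a ^ n ≤ (((n : ℝ) + 1) * a) ^ n := by
    rw [mul_pow]
    exact mul_le_mul_of_nonneg_right hfac (by positivity)
  rw [hdet]
  have hd := h940_det M a hMe
  rw [Fintype.card_fin] at hd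
  simp only [← hn] at hd ⊢
  refine ⟨?_, ?_⟩
  · refine hd.trans (hbase.trans ?_)
    exact pow_le_pow_right₀ hna (by omega)
  · intro x
    have hadj : ∀ i j, ‖M.adjugate i j‖ ≤ ((n.factorial : ℕ) : ℝ) * a ^ n := by
      intro i j
      rw [Matrix.adjugate_apply]
      have h1 := h940_det (M.updateRow j (Pi.single i 1)) a ?_
      · rw [Fintype.card_fin] at h1
        simp only [← hn] at h1
        exact h1
      · intro k l
        by_cases hk : k = j
        · subst hk
          rw [Matrix.updateRow_self]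
          by_cases hl : l = i
          · subst hl
            rw [Pi.single_eq_same, norm_one]; exact ha
          · rw [Pi.single_eq_of_ne hl, norm_zero]; exact ha0
        · rw [Matrix.updateRow_ne hk]
          exact hMe k l
    have hcomp : M.det • x = Matrix.toLin (stdOrthonormalBasis ℂ E).toBasis
        (stdOrthonormalBasis ℂ E).toBasis M.adjugate (A x) := by
      have h1 : Matrix.toLin (stdOrthonormalBasis ℂ E).toBasis (stdOrthonormalBasis ℂ E).toBasis M
          = (A : E →ₗ[ℂ] E) := by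
        rw [hMdef, Matrix.toLin_toMatrix]
      have h2 := Matrix.toLin_mul (stdOrthonormalBasis ℂ E).toBasis
        (stdOrthonormalBasis ℂ E).toBasis (stdOrthonormalBasis ℂ E).toBasis M.adjugate M
      rw [Matrix.adjugate_mul, h1] at h2
      have h3 := congrArg (fun f : E →ₗ[ℂ] E => f x) h2
      simp only [LinearMap.comp_apply, map_smul, Matrix.toLin_one, LinearMap.smul_apply,
        LinearMap.id_apply] at h3
      exact h3
    have h5 := h940_lin M.adjugate _ hadj (A x)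
    rw [← hcomp, norm_smul] at h5
    simp only [← hn] at h5
    refine h5.trans ?_
    have h6 : (n : ℝ) * ((n : ℝ) * (((n.factorial : ℕ) : ℝ) * a ^ n * ‖A x‖))
        ≤ ((n : ℝ) + 1) * (((n : ℝ) + 1) * ((((n : ℝ) + 1) * a) ^ n * ‖A x‖)) := by
      have := norm_nonneg (A x)
      have h7 : (0:ℝ) ≤ n := Nat.cast_nonneg n
      gcongr
      · linarith
      · linarith
    refine h6.trans ?_
    have h8 : ((n : ℝ) + 1) * (((n : ℝ) + 1) * ((((n : ℝ) + 1) * a) ^ n * ‖A x‖))
        = (((n : ℝ) + 1) ^ 2 * (((n : ℝ) + 1) * a) ^ n) * ‖A x‖ := by ring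
    rw [h8]
    refine mul_le_mul_of_nonneg_right ?_ (norm_nonneg _)
    have h9 : ((n : ℝ) + 1) ^ 2 ≤ (((n : ℝ) + 1) * a) ^ (n + 2) := by
      have h10 : ((n : ℝ) + 1) ^ 2 ≤ (((n : ℝ) + 1) * a) ^ 2 := by
        apply pow_le_pow_left₀ (by linarith)
        nlinarith
      exact h10.trans (pow_le_pow_right₀ hna (by omega))
    have h11 : (((n : ℝ) + 1) * a) ^ (2 * n + 2) = (((n : ℝ) + 1) * a) ^ (n + 2) * (((n : ℝ) + 1) * a) ^ n := by
      rw [← pow_add]; congr 1; omega
    rw [h11]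
    exact mul_le_mul_of_nonneg_right h9 (by positivity)

end

end KRS
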