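import Pool.Agent.H631.KR.Defs

open MeasureTheory Filter Topology ENNReal Complex
open scoped Laplacian FourierTransform InnerProductSpace

namespace KRS

noncomputable section

/-! TARGET: prove the following -/

theorem zero_free_lower (f : ℂ → ℂ) (c : ℂ) (R U l : ℝ) (hR : 0 < R)
    (hf : DifferentiableOn ℂ f (Metric.ball c R)) (hne : ∀ z ∈ Metric.ball c R, f z ≠ 0)
    (hU : ∀ z ∈ Metric.ball c R, ‖f z‖ ≤ U) (hl : 0 < l) (hc : l ≤ ‖f c‖) (z : ℂ)
    (hz : z ∈ Metric.ball c (9 / 10 * R)) : l * (l / U) ^ (20 : ℕ) ≤ ‖f z‖ := by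
  have hcb : c ∈ Metric.ball c R := Metric.mem_ball_self hR
  have hfc : 0 < ‖f c‖ := lt_of_lt_of_le hl hc
  have hfcU : ‖f c‖ ≤ U := hU c hcb
  have hU0 : 0 < U := lt_of_lt_of_le hfc hfcU
  have hzb : z ∈ Metric.ball c R := Metric.ball_subset_ball (by linarith) hz
  have hquot : DifferentiableOn ℂ (fun w => deriv f w / f w) (Metric.ball c R) :=
    (hf.deriv Metric.isOpen_ball).div hf hne
  obtain ⟨g, hg0, hg⟩ := hquot.isExactOn_ball.with_val_at c 0
  -- `f = f c * exp g`
  have hF : ∀ w ∈ Metric.ball c R, f w * Complex.exp (-g w) = f c := by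
    intro w hw
    have hd : ∀ w ∈ Metric.ball c R, HasDerivAt (fun w => f w * Complex.exp (-g w)) 0 w := by
      intro w hw
      have h1 : HasDerivAt f (deriv f w) w :=
        (hf.differentiableAt (Metric.isOpen_ball.mem_nhds hw)).hasDerivAt
      have h2 := h1.fun_mul ((hg w hw).fun_neg.cexp)
      refine h2.congr_deriv ?_
      have h3 := hne w hw
      field_simp
      ring
    have h4 := Metric.isOpen_ball.is_const_of_deriv_eq_zero
      (convex_ball c R).isPreconnected
      (fun w hw => (hd w hw).differentiableAt.differentiableWithinAt)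
      (fun w hw => (hd w hw).deriv) hw hcb
    rw [h4, hg0, neg_zero, Complex.exp_zero, mul_one]
  have hnorm : ∀ w ∈ Metric.ball c R, ‖f w‖ = ‖f c‖ * Real.exp (g w).re := by
    intro w hw
    rw [← hF w hw, norm_mul, Complex.norm_exp, Complex.neg_re, mul_assoc, ← Real.exp_add,
      neg_add_cancel, Real.exp_zero, mul_one]
  set A : ℝ := Real.log U - Real.log ‖f c‖ with hA
  have hre : ∀ w ∈ Metric.ball c R, (g w).re ≤ A := by
    intro w hw
    have h1 := hU w hw
    rw [hnorm w hw] at h1
    have h2 := Real.log_le_log (by positivity) h1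
    rw [Real.log_mul hfc.ne' (Real.exp_pos _).ne', Real.log_exp] at h2
    rw [hA]
    linarith
  have hA0 : 0 ≤ A := by
    rw [hA, sub_nonneg]
    exact Real.log_le_log hfc hfcU
  have hgz : -(18 * A) ≤ (g z).re := by
    have key : ∀ δ : ℝ, 0 < δ → -(g z).re ≤ 18 * A + δ := by
      intro δ hδ
      have hdiff : DifferentiableOn ℂ (fun w => g (c + w)) (Metric.ball 0 R) := by
        intro w hw
        have hw' : c + w ∈ Metric.ball c R := by
          rw [mem_ball_iff_norm, add_sub_cancel_left]
          exact mem_ball_zero_iff.1 hw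
        exact ((hg _ hw').comp_const_add c w).differentiableAt.differentiableWithinAt
      have hmaps : Set.MapsTo (fun w => g (c + w)) (Metric.ball 0 R)
          {z | z.re ≤ A + δ / 18} := by
        intro w hw
        have hw' : c + w ∈ Metric.ball c R := by
          rw [mem_ball_iff_norm, add_sub_cancel_left]
          exact mem_ball_zero_iff.1 hw
        have := hre _ hw'
        show (g (c + w)).re ≤ A + δ / 18
        linarith
      have hz' : ‖z - c‖ < 9 / 10 * R := mem_ball_iff_norm.1 hz
      have hz0 : z - c ∈ Metric.ball (0 : ℂ) R := by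
        rw [mem_ball_zero_iff]
        linarith
      have h1 := Complex.borelCaratheodory_zero (M := A + δ / 18) (by positivity) hdiff hmaps hR
        hz0 (by show g (c + 0) = 0; rw [add_zero, hg0])
      have h2 : ‖g (c + (z - c))‖ ≤ 2 * (A + δ / 18) * ‖z - c‖ / (R - ‖z - c‖) := h1
      rw [add_sub_cancel] at h2
      have h3 : 2 * (A + δ / 18) * ‖z - c‖ / (R - ‖z - c‖) ≤ 18 * A + δ := by
        rw [div_le_iff₀ (by linarith)]
        have h4 : 0 < A + δ / 18 := by positivity
        nlinarith [norm_nonneg (z - c)]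
      have h5 := Complex.abs_re_le_norm (g z)
      have h6 := neg_abs_le (g z).re
      linarith
    have := le_of_forall_pos_le_add key
    linarith
  have hexp : Real.exp (-A) = ‖f c‖ / U := by
    rw [hA, neg_sub, Real.exp_sub, Real.exp_log hfc, Real.exp_log hU0]
  have hexp18 : Real.exp (-(18 * A)) = (‖f c‖ / U) ^ 18 := by
    rw [← hexp, ← Real.exp_nat_mul]
    congr 1
    push_cast
    ring
  have hlU : l / U ≤ 1 := by
    rw [div_le_one hU0]
    exact hc.trans hfcU
  have hlU0 : 0 ≤ l / U := by positivity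
  rw [hnorm z hzb]
  calc l * (l / U) ^ 20 ≤ l * (l / U) ^ 18 := by
        refine mul_le_mul_of_nonneg_left ?_ hl.le
        exact pow_le_pow_of_le_one hlU0 hlU (by norm_num)
    _ ≤ ‖f c‖ * (‖f c‖ / U) ^ 18 := by gcongr
    _ = ‖f c‖ * Real.exp (-(18 * A)) := by rw [hexp18]
    _ ≤ ‖f c‖ * Real.exp (g z).re := by
        refine mul_le_mul_of_nonneg_left ?_ hfc.le
        exact Real.exp_le_exp.2 hgz

end

end KRS
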