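import Pool.Agent.H631.KR.Defs
import Pool.Agent.H631.KR.B08
import Pool.Agent.H631.KR.B09

open MeasureTheory Filter Topology ENNReal Complex
open scoped Laplacian FourierTransform InnerProductSpace

namespace KRS

noncomputable section

/-! TARGET: prove the following -/

theorem apriori_det_diff {E : Type} [NormedAddCommGroup E] [NormedSpace ℂ E]
    [FiniteDimensional ℂ E] (A : ℂ → (E →L[ℂ] E)) (S : Set ℂ) (hA : DifferentiableOn ℂ A S) :
    DifferentiableOn ℂ (fun z => LinearMap.det (A z : E →ₗ[ℂ] E)) S := by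
  classical
  let b := Module.finBasis ℂ E
  have h1 : ∀ z, LinearMap.det (A z : E →ₗ[ℂ] E) =
      ∑ σ : Equiv.Perm (Fin (Module.finrank ℂ E)), (Equiv.Perm.sign σ : ℤ) •
        ∏ i, b.repr (A z (b i)) (σ i) := by
    intro z
    rw [← LinearMap.det_toMatrix b, Matrix.det_apply]
    refine Finset.sum_congr rfl fun σ _ => ?_
    simp only [LinearMap.toMatrix_apply]
    rfl
  simp only [h1]
  apply DifferentiableOn.fun_sum
  intro σ _
  apply DifferentiableOn.const_smul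
  apply DifferentiableOn.fun_finsetProd
  intro i _
  have h2 : (fun z => b.repr (A z (b i)) (σ i)) = fun z =>
      (LinearMap.toContinuousLinearMap (b.coord (σ i))) (A z (b i)) := by
    ext z
    simp
  rw [h2]
  exact (ContinuousLinearMap.differentiable _).comp_differentiableOn
    (hA.clm_apply (differentiableOn_const _))

theorem apriori_arith (n : ℕ) (c₁ c₂ : ℝ) (h1 : 1 ≤ c₁) (h2 : 1 ≤ c₂) :
    2 * (1 + 2 * c₁ * ((((n : ℝ) + 1) * (3 * c₁)) ^ (2 * n + 2)) /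
      (((((n : ℝ) + 1) * (3 / 2 * c₂)) ^ (2 * n + 2))⁻¹ *
        (((((n : ℝ) + 1) * (3 / 2 * c₂)) ^ (2 * n + 2))⁻¹ /
          ((((n : ℝ) + 1) * (3 * c₁)) ^ (2 * n + 2))) ^ 20)) ≤
      Real.exp (1000 * ((n : ℝ) + 1) ^ 2 * Real.log (8 * c₁ * c₂ * ((n : ℝ) + 1))) := by
  obtain ⟨X, hX⟩ : ∃ X : ℝ, X = 8 * c₁ * c₂ * ((n : ℝ) + 1) := ⟨_, rfl⟩
  have hn : (1 : ℝ) ≤ (n : ℝ) + 1 := by
    have : (0 : ℝ) ≤ n := Nat.cast_nonneg n
    linarith
  have h12 : 1 ≤ c₁ * c₂ := by nlinarith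
  have h12n : 1 ≤ c₁ * c₂ * ((n : ℝ) + 1) := by nlinarith
  have hX8 : 8 ≤ X := by rw [hX]; nlinarith
  have hc1X : 2 * c₁ ≤ X := by
    rw [hX]
    have e1 : c₁ * 1 ≤ c₁ * (c₂ * ((n : ℝ) + 1)) :=
      mul_le_mul_of_nonneg_left (by nlinarith) (by linarith)
    nlinarith
  obtain ⟨u, hu⟩ : ∃ u : ℝ, u = (((n : ℝ) + 1) * (3 * c₁)) ^ (2 * n + 2) := ⟨_, rfl⟩
  obtain ⟨v, hv⟩ : ∃ v : ℝ, v = (((n : ℝ) + 1) * (3 / 2 * c₂)) ^ (2 * n + 2) := ⟨_, rfl⟩
  have hu0 : 0 < u := by rw [hu]; positivity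
  have hv0 : 0 < v := by rw [hv]; positivity
  have huv : u * v ≤ X ^ (4 * (n + 1)) := by
    rw [hu, hv, ← mul_pow]
    have e1 : ((n : ℝ) + 1) * (3 * c₁) * (((n : ℝ) + 1) * (3 / 2 * c₂)) ≤ X ^ 2 := by
      have e2 : ((n : ℝ) + 1) * (3 * c₁) * (((n : ℝ) + 1) * (3 / 2 * c₂)) =
          9 / 2 * (c₁ * c₂) * ((n : ℝ) + 1) ^ 2 := by ring
      have e3 : X ^ 2 = 64 * (c₁ * c₂) ^ 2 * ((n : ℝ) + 1) ^ 2 := by rw [hX]; ring
      rw [e2, e3]
      apply mul_le_mul_of_nonneg_right _ (sq_nonneg _)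
      nlinarith
    calc (((n : ℝ) + 1) * (3 * c₁) * (((n : ℝ) + 1) * (3 / 2 * c₂))) ^ (2 * n + 2)
        ≤ (X ^ 2) ^ (2 * n + 2) := pow_le_pow_left₀ (by positivity) e1 _
      _ = X ^ (4 * (n + 1)) := by rw [← pow_mul]; congr 1; ring
  have hX1 : 1 ≤ X := by linarith
  rw [← hu, ← hv]
  have e5 : 2 * (1 + 2 * c₁ * u / (v⁻¹ * (v⁻¹ / u) ^ 20)) = 2 * (1 + 2 * c₁ * (u * v) ^ 21) := by
    field_simp
  rw [e5]
  have e6 : (u * v) ^ 21 ≤ X ^ (84 * (n + 1)) := by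
    calc (u * v) ^ 21 ≤ (X ^ (4 * (n + 1))) ^ 21 :=
          pow_le_pow_left₀ (by positivity) huv _
      _ = X ^ (84 * (n + 1)) := by rw [← pow_mul]; congr 1; ring
  have e7 : 2 * c₁ * (u * v) ^ 21 ≤ X * X ^ (84 * (n + 1)) :=
    mul_le_mul hc1X e6 (by positivity) (by linarith)
  have e8 : (1 : ℝ) ≤ X * X ^ (84 * (n + 1)) := by
    have := one_le_pow₀ hX1 (n := 84 * (n + 1))
    nlinarith
  have e9 : 2 * (1 + 2 * c₁ * (u * v) ^ 21) ≤ X ^ (84 * (n + 1) + 2) := by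
    calc 2 * (1 + 2 * c₁ * (u * v) ^ 21) ≤ 4 * (X * X ^ (84 * (n + 1))) := by linarith
      _ ≤ X * (X * X ^ (84 * (n + 1))) := by
          apply mul_le_mul_of_nonneg_right (by linarith) (by positivity)
      _ = X ^ (84 * (n + 1) + 2) := by ring
  have e10 : X ^ (84 * (n + 1) + 2) ≤ X ^ (1000 * (n + 1) ^ 2) := by
    apply pow_le_pow_right₀ hX1
    have h3 : n + 1 ≤ (n + 1) ^ 2 := Nat.le_self_pow two_ne_zero (n + 1)
    obtain ⟨q, hq⟩ : ∃ q, q = (n + 1) ^ 2 := ⟨_, rfl⟩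
    rw [← hq] at h3 ⊢
    omega
  have e11 : Real.exp (1000 * ((n : ℝ) + 1) ^ 2 * Real.log (8 * c₁ * c₂ * ((n : ℝ) + 1))) =
      X ^ (1000 * (n + 1) ^ 2) := by
    rw [← hX]
    have hXp : 0 < X := by linarith
    have h3 : (1000 * ((n : ℝ) + 1) ^ 2) = ((1000 * (n + 1) ^ 2 : ℕ) : ℝ) := by push_cast; ring
    rw [h3, Real.exp_nat_mul, Real.exp_log hXp]
  rw [e11]
  exact e9.trans e10

theorem apriori {H : Type} [NormedAddCommGroup H] [InnerProductSpace ℂ H] [CompleteSpace H]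
    (W : Submodule ℂ H) [FiniteDimensional ℂ W] (F N : ℂ → (H →L[ℂ] H)) (c : ℂ) (R c₁ c₂ : ℝ)
    (hR : 0 < R) (h1 : 1 ≤ c₁) (h2 : 1 ≤ c₂)
    (hF : DifferentiableOn ℂ F (Metric.ball c R)) (hN : DifferentiableOn ℂ N (Metric.ball c R))
    (hFW : ∀ z ∈ Metric.ball c R, ∀ f, F z f ∈ W) (hF1 : ∀ z ∈ Metric.ball c R, ‖F z‖ ≤ c₁)
    (hN1 : ∀ z ∈ Metric.ball c R, ‖N z‖ ≤ 1 / 2)
    (hu : ∀ z ∈ Metric.ball c R, IsUnit (1 + (F z + N z)))
    (hc : ∀ f, ‖f‖ ≤ c₂ * ‖(1 + (F c + N c)) f‖) (z : ℂ) (hz : z ∈ Metric.ball c (9 / 10 * R))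
    (f : H) :
    ‖f‖ ≤ Real.exp (1000 * ((Module.finrank ℂ W : ℝ) + 1) ^ 2 *
      Real.log (8 * c₁ * c₂ * ((Module.finrank ℂ W : ℝ) + 1))) * ‖(1 + (F z + N z)) f‖ := by
  classical
  obtain ⟨n, hn⟩ : ∃ n, n = Module.finrank ℂ W := ⟨_, rfl⟩
  -- the inverse of `1 + N z`
  have hNu : ∀ z ∈ Metric.ball c R, IsUnit (1 + N z) := by
    intro z hz
    have h3 : IsUnit (1 - (-N z)) := by
      apply isUnit_one_sub_of_norm_lt_one
      rw [norm_neg]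
      linarith [hN1 z hz]
    rwa [sub_neg_eq_add] at h3
  obtain ⟨M, hM⟩ : ∃ M : ℂ → (H →L[ℂ] H), M = fun z => Ring.inverse (1 + N z) := ⟨_, rfl⟩
  have hM1 : ∀ z ∈ Metric.ball c R, (1 + N z) * M z = 1 := fun z hz => by
    rw [hM]; exact Ring.mul_inverse_cancel _ (hNu z hz)
  have hM2 : ∀ z ∈ Metric.ball c R, M z * (1 + N z) = 1 := fun z hz => by
    rw [hM]; exact Ring.inverse_mul_cancel _ (hNu z hz)
  have hMd : DifferentiableOn ℂ M (Metric.ball c R) := by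
    rw [hM]
    intro z hz
    exact (differentiableAt_inverse (𝕜 := ℂ) (hNu z hz)).comp_differentiableWithinAt z
      ((hN z hz).const_add 1)
  have hlow : ∀ z ∈ Metric.ball c R, ∀ f : H, ‖f‖ ≤ 2 * ‖f + N z f‖ := by
    intro z hz f
    have e1 : ‖N z f‖ ≤ 1 / 2 * ‖f‖ := (N z).le_of_opNorm_le (hN1 z hz) f
    have e2 : ‖f‖ - ‖N z f‖ ≤ ‖f + N z f‖ := by
      have := norm_sub_le (f + N z f) (N z f)
      rw [add_sub_cancel_right] at this
      linarith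
    linarith
  have hM1a : ∀ z ∈ Metric.ball c R, ∀ g : H, M z g + N z (M z g) = g := by
    intro z hz g
    have := congrArg (fun T : H →L[ℂ] H => T g) (hM1 z hz)
    simpa using this
  have hM2a : ∀ z ∈ Metric.ball c R, ∀ g : H, M z (g + N z g) = g := by
    intro z hz g
    have := congrArg (fun T : H →L[ℂ] H => T g) (hM2 z hz)
    simpa using this
  have hMb : ∀ z ∈ Metric.ball c R, ∀ g : H, ‖M z g‖ ≤ 2 * ‖g‖ := by
    intro z hz g
    have := hlow z hz (M z g)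
    rwa [hM1a z hz g] at this
  -- the restricted operator
  obtain ⟨A, hA⟩ : ∃ A : ℂ → (W →L[ℂ] W), A = fun z =>
      (W.orthogonalProjectionOnto ∘L (1 + F z ∘L M z)) ∘L W.subtypeL := ⟨_, rfl⟩
  have hAv : ∀ z ∈ Metric.ball c R, ∀ w : W, ((A z w : W) : H) = w + F z (M z w) := by
    intro z hz w
    have h3 : (w : H) + F z (M z w) ∈ W := W.add_mem w.2 (hFW z hz _)
    have h4 : A z w = W.orthogonalProjectionOnto ((w : H) + F z (M z w)) := by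
      rw [hA]; rfl
    rw [h4]
    have h5 := Submodule.orthogonalProjectionOnto_mem_subspace_eq_self
      (⟨(w : H) + F z (M z w), h3⟩ : W)
    exact congrArg Subtype.val h5
  have hAd : DifferentiableOn ℂ A (Metric.ball c R) := by
    rw [hA]
    have h3 : DifferentiableOn ℂ (fun z => (1 + F z ∘L M z : H →L[ℂ] H)) (Metric.ball c R) :=
      (hF.clm_comp hMd).const_add 1
    exact ((differentiableOn_const _).clm_comp h3).clm_comp (differentiableOn_const _)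
  have hAn : ∀ z ∈ Metric.ball c R, ‖A z‖ ≤ 3 * c₁ := by
    intro z hz
    apply ContinuousLinearMap.opNorm_le_bound _ (by linarith)
    intro w
    have e1 : ‖A z w‖ = ‖(w : H) + F z (M z w)‖ := by
      rw [← hAv z hz w]; rfl
    rw [e1]
    have e2 : ‖F z (M z w)‖ ≤ c₁ * (2 * ‖(w : H)‖) :=
      ((F z).le_of_opNorm_le (hF1 z hz) _).trans
        (mul_le_mul_of_nonneg_left (hMb z hz _) (by linarith))
    have e3 : ‖(w : H)‖ = ‖w‖ := rfl
    have e4 := norm_add_le (w : H) (F z (M z w))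
    rw [e3] at e2 e4
    nlinarith [norm_nonneg w]
  -- injectivity
  have hinj : ∀ z ∈ Metric.ball c R, ∀ w : W, A z w = 0 → w = 0 := by
    intro z hz w hw
    obtain ⟨T, hT⟩ := hu z hz
    have e1 : (w : H) + F z (M z w) = 0 := by rw [← hAv z hz w, hw]; rfl
    have e2 : (1 + (F z + N z)) (M z w) = 0 := by
      have e3 : (1 + (F z + N z)) (M z w) = (M z w + N z (M z w)) + F z (M z w) := by
        simp only [add_apply, one_apply_eq_self]
        abel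
      rw [e3, hM1a z hz, e1]
    have e4 : M z w = 0 := by
      rw [← hT] at e2
      have e5 : ((T⁻¹ : (H →L[ℂ] H)ˣ) : H →L[ℂ] H) ((T : H →L[ℂ] H) (M z w)) = M z w := by
        rw [← mul_apply_eq_comp, Units.inv_mul]; rfl
      rw [e2, map_zero] at e5
      exact e5.symm
    have e6 := hM1a z hz (w : H)
    rw [e4, map_zero, add_zero] at e6
    exact Subtype.ext e6.symm
  have hdet0 : ∀ z ∈ Metric.ball c R, LinearMap.det (A z : W →ₗ[ℂ] W) ≠ 0 := by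
    intro z hz h0
    have h3 := LinearMap.bot_lt_ker_of_det_eq_zero h0
    obtain ⟨w, hw, hw0⟩ := Submodule.exists_mem_ne_zero_of_ne_bot h3.ne'
    exact hw0 (hinj z hz w hw)
  obtain ⟨U, hU⟩ : ∃ U : ℝ, U = (((n : ℝ) + 1) * (3 * c₁)) ^ (2 * n + 2) := ⟨_, rfl⟩
  obtain ⟨l, hl⟩ : ∃ l : ℝ, l = ((((n : ℝ) + 1) * (3 / 2 * c₂)) ^ (2 * n + 2))⁻¹ := ⟨_, rfl⟩
  have hU0 : 0 < U := by rw [hU]; positivity
  have hl0 : 0 < l := by rw [hl]; positivity
  have hdU : ∀ z ∈ Metric.ball c R, ‖LinearMap.det (A z : W →ₗ[ℂ] W)‖ ≤ U := by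
    intro z hz
    rw [hU, hn]
    exact (det_bounds (A z) (3 * c₁) (by linarith) (hAn z hz)).1
  have hdU2 : ∀ z ∈ Metric.ball c R, ∀ w : W,
      ‖LinearMap.det (A z : W →ₗ[ℂ] W)‖ * ‖w‖ ≤ U * ‖A z w‖ := by
    intro z hz
    rw [hU, hn]
    exact (det_bounds (A z) (3 * c₁) (by linarith) (hAn z hz)).2
  -- lower bound at the centre
  have hcc : c ∈ Metric.ball c R := Metric.mem_ball_self hR
  have hAc : ∀ w : W, ‖w‖ ≤ 3 / 2 * c₂ * ‖A c w‖ := by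
    intro w
    have e1 : ‖A c w‖ = ‖(w : H) + F c (M c w)‖ := by
      rw [← hAv c hcc w]; rfl
    have e2 := hc (M c w)
    have e3 : (1 + (F c + N c)) (M c w) = (w : H) + F c (M c w) := by
      have e3 : (1 + (F c + N c)) (M c w) = (M c w + N c (M c w)) + F c (M c w) := by
        simp only [add_apply, one_apply_eq_self]
        abel
      rw [e3, hM1a c hcc]
    rw [e3, ← e1] at e2
    have e4 : ‖(w : H)‖ ≤ 3 / 2 * ‖M c w‖ := by
      have e5 := hM1a c hcc (w : H)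
      have e6 : ‖N c (M c w)‖ ≤ 1 / 2 * ‖M c w‖ := (N c).le_of_opNorm_le (hN1 c hcc) _
      calc ‖(w : H)‖ = ‖M c w + N c (M c w)‖ := by rw [e5]
        _ ≤ ‖M c w‖ + ‖N c (M c w)‖ := norm_add_le _ _
        _ ≤ _ := by linarith
    have e7 : ‖(w : H)‖ = ‖w‖ := rfl
    rw [e7] at e4
    nlinarith
  have hlow1 : l ≤ ‖LinearMap.det (A c : W →ₗ[ℂ] W)‖ := by
    have hinj' : Function.Injective (A c : W →ₗ[ℂ] W) := by
      rw [injective_iff_map_eq_zero]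
      exact hinj c hcc
    let e := LinearEquiv.ofInjectiveEndo (A c : W →ₗ[ℂ] W) hinj'
    let B : W →L[ℂ] W := LinearMap.toContinuousLinearMap (e.symm : W →ₗ[ℂ] W)
    have hAB : ∀ w, A c (B w) = w := by
      intro w
      exact e.apply_symm_apply w
    have hBn : ‖B‖ ≤ 3 / 2 * c₂ := by
      apply ContinuousLinearMap.opNorm_le_bound _ (by linarith)
      intro w
      have := hAc (B w)
      rwa [hAB] at this
    have h3 := (det_bounds B (3 / 2 * c₂) (by linarith) hBn).1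
    rw [← hn] at h3
    have h4 : LinearMap.det (A c : W →ₗ[ℂ] W) * LinearMap.det (B : W →ₗ[ℂ] W) = 1 := by
      rw [← LinearMap.det_comp]
      have : (A c : W →ₗ[ℂ] W) ∘ₗ (B : W →ₗ[ℂ] W) = LinearMap.id := by
        ext w
        exact congrArg Subtype.val (hAB w)
      rw [this, LinearMap.det_id]
    have h5 : ‖LinearMap.det (A c : W →ₗ[ℂ] W)‖ * ‖LinearMap.det (B : W →ₗ[ℂ] W)‖ = 1 := by
      rw [← norm_mul, h4, norm_one]
    have h6 : 0 ≤ ‖LinearMap.det (A c : W →ₗ[ℂ] W)‖ := norm_nonneg _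
    have hV0 : 0 < (((n : ℝ) + 1) * (3 / 2 * c₂)) ^ (2 * n + 2) := by positivity
    rw [hl, inv_le_iff_one_le_mul₀ hV0]
    calc (1 : ℝ) = ‖LinearMap.det (A c : W →ₗ[ℂ] W)‖ * ‖LinearMap.det (B : W →ₗ[ℂ] W)‖ := h5.symm
      _ ≤ ‖LinearMap.det (A c : W →ₗ[ℂ] W)‖ *
          (((n : ℝ) + 1) * (3 / 2 * c₂)) ^ (2 * n + 2) := mul_le_mul_of_nonneg_left h3 h6
  have hlow2 := zero_free_lower (fun z => LinearMap.det (A z : W →ₗ[ℂ] W)) c R U l hR
    (apriori_det_diff A _ hAd) hdet0 hdU hl0 hlow1 z hz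
  -- the estimate
  have hzB : z ∈ Metric.ball c R := Metric.ball_subset_ball (by linarith) hz
  obtain ⟨d, hd⟩ : ∃ d : ℝ, d = l * (l / U) ^ 20 := ⟨_, rfl⟩
  have hd0 : 0 < d := by rw [hd]; positivity
  rw [← hd] at hlow2
  obtain ⟨g, hg⟩ : ∃ g, g = (1 + (F z + N z)) f := ⟨_, rfl⟩
  obtain ⟨h, hh⟩ : ∃ h, h = f + N z f := ⟨_, rfl⟩
  have hMh : M z h = f := by rw [hh]; exact hM2a z hzB f
  have hgh : g = h + F z (M z h) := by
    rw [hMh, hg, hh]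
    simp only [add_apply, one_apply_eq_self]
    abel
  obtain ⟨w, hw⟩ : ∃ w : W, (w : H) = F z (M z h) := ⟨⟨F z (M z h), hFW z hzB _⟩, rfl⟩
  have hAw : ((A z w : W) : H) = F z (M z g) := by
    rw [hAv z hzB w, hgh, map_add, map_add, hw]
  have hAwn : ‖A z w‖ ≤ 2 * c₁ * ‖g‖ := by
    have e1 : ‖A z w‖ = ‖F z (M z g)‖ := by rw [← hAw]; rfl
    rw [e1]
    have e2 : ‖F z (M z g)‖ ≤ c₁ * (2 * ‖g‖) :=
      ((F z).le_of_opNorm_le (hF1 z hzB) _).trans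
        (mul_le_mul_of_nonneg_left (hMb z hzB _) (by linarith))
    linarith
  have hwn : d * ‖w‖ ≤ U * (2 * c₁ * ‖g‖) := by
    calc d * ‖w‖ ≤ ‖LinearMap.det (A z : W →ₗ[ℂ] W)‖ * ‖w‖ :=
          mul_le_mul_of_nonneg_right hlow2 (norm_nonneg _)
      _ ≤ U * ‖A z w‖ := hdU2 z hzB w
      _ ≤ _ := mul_le_mul_of_nonneg_left hAwn hU0.le
  have hwn2 : ‖w‖ ≤ 2 * c₁ * U / d * ‖g‖ := by
    have : 2 * c₁ * U / d * ‖g‖ = (U * (2 * c₁ * ‖g‖)) / d := by ring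
    rw [this, le_div_iff₀ hd0]
    linarith
  have hhn : ‖h‖ ≤ ‖g‖ + ‖w‖ := by
    have e1 : h = g - w := by rw [hgh, hw]; abel
    rw [e1]
    exact (norm_sub_le _ _)
  have hfn : ‖f‖ ≤ 2 * ‖h‖ := by rw [hh]; exact hlow z hzB f
  have hfin := apriori_arith n c₁ c₂ h1 h2
  rw [← hU, ← hl, ← hd, ] at hfin
  rw [← hn, ← hg]
  calc ‖f‖ ≤ 2 * (1 + 2 * c₁ * U / d) * ‖g‖ := by linarith
    _ ≤ _ := mul_le_mul_of_nonneg_right hfin (norm_nonneg _)

end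

end KRS
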