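import Pool.Agent.H631.KR.Defs

open MeasureTheory Filter Topology ENNReal Complex
open scoped Laplacian FourierTransform InnerProductSpace

namespace KRS

noncomputable section

/-! TARGET: prove the following -/

theorem max_box {E : Type} [NormedAddCommGroup E] [NormedSpace ℂ E] (B : ℂ → E) (S₀ M v : ℝ)
    (hS : 0 < S₀) (hM : 1 ≤ M) (hv : 0 ≤ v)
    (hB : ∀ w : ℂ, |w.re| ≤ 2 * S₀ → |w.im| ≤ S₀ → DifferentiableAt ℂ B w)
    (hb : ∀ w : ℂ, |w.re| ≤ 2 * S₀ → |w.im| ≤ S₀ → ‖B w‖ ≤ Real.exp M)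
    (hup : ∀ w : ℂ, |w.re| ≤ 2 * S₀ → |w.im| ≤ S₀ → 0 < w.im → ‖B w‖ ≤ 1 + v / w.im) :
    ‖B 0‖ ≤ 8 * (1 + 2 * M * v / S₀) := by
  have hM0 : 0 < M := by linarith
  set s : ℝ := S₀ / (2 * M) with hs
  have hs0 : 0 < s := by positivity
  have hsS : s ≤ S₀ := by
    rw [hs, div_le_iff₀ (by positivity)]
    nlinarith
  set lam : ℝ := M / (2 * S₀ ^ 2) with hlam
  set μ : ℝ := 2 * M / S₀ with hμ
  have hlam0 : 0 < lam := by positivity
  have hμ0 : 0 < μ := by positivity
  have hlS : lam * S₀ ^ 2 = M / 2 := by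
    rw [hlam]; field_simp
  have hμs : μ * s = 1 := by
    rw [hμ, hs]; field_simp
  have hμS : μ * S₀ = 2 * M := by
    rw [hμ]; field_simp
  have hls : lam * s ^ 2 ≤ 1 / 8 := by
    have : lam * s ^ 2 = 1 / (8 * M) := by
      rw [hlam, hs]; field_simp; ring
    rw [this]
    apply one_div_le_one_div_of_le (by norm_num) (by linarith)
  set C : ℝ := 8 * (1 + 2 * M * v / S₀) with hC
  have hq : 0 ≤ 2 * M * v / S₀ := by positivity
  have hC8 : 8 ≤ C := by rw [hC]; linarith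
  let φ : ℂ → ℂ := fun w => Complex.exp (-(lam : ℂ) * w ^ 2 - I * (μ : ℂ) * w)
  let f : ℂ → E := fun w => φ w • B w
  let U : Set ℂ := Set.Ioo (-(2 * S₀)) (2 * S₀) ×ℂ Set.Ioo (-S₀) s
  have hne1 : -(2 * S₀) ≠ 2 * S₀ := by linarith
  have hne2 : -S₀ ≠ s := by linarith
  have hcl : closure U = Set.Icc (-(2 * S₀)) (2 * S₀) ×ℂ Set.Icc (-S₀) s := by
    rw [Complex.closure_reProdIm, closure_Ioo hne1, closure_Ioo hne2]
  have hmemcl : ∀ w ∈ closure U, |w.re| ≤ 2 * S₀ ∧ |w.im| ≤ S₀ := by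
    intro w hw
    rw [hcl, Complex.mem_reProdIm] at hw
    exact ⟨abs_le.2 ⟨hw.1.1, hw.1.2⟩, abs_le.2 ⟨hw.2.1, hw.2.2.trans hsS⟩⟩
  have hbd : Bornology.IsBounded U :=
    Bornology.IsBounded.reProdIm (Metric.isBounded_Ioo _ _) (Metric.isBounded_Ioo _ _)
  have hdiff : DiffContOnCl ℂ f U := by
    apply DifferentiableOn.diffContOnCl
    intro w hw
    obtain ⟨h1, h2⟩ := hmemcl w hw
    have hφ : DifferentiableAt ℂ φ w := by
      show DifferentiableAt ℂ (fun w => Complex.exp (-(lam : ℂ) * w ^ 2 - I * (μ : ℂ) * w)) w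
      fun_prop
    exact (hφ.smul (hB w h1 h2)).differentiableWithinAt
  have hnφ : ∀ w : ℂ, ‖φ w‖ = Real.exp (-lam * (w.re ^ 2 - w.im ^ 2) + μ * w.im) := by
    intro w
    show ‖Complex.exp (-(lam : ℂ) * w ^ 2 - I * (μ : ℂ) * w)‖ = _
    rw [Complex.norm_exp]
    congr 1
    simp [pow_two]
  have hf : ∀ w : ℂ, ‖f w‖ = Real.exp (-lam * (w.re ^ 2 - w.im ^ 2) + μ * w.im) * ‖B w‖ := by
    intro w
    show ‖φ w • B w‖ = _
    rw [norm_smul, hnφ]
  have he8 : Real.exp (9 / 8) ≤ 8 := by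
    have h1 : Real.exp 1 < 2.7182818286 := Real.exp_one_lt_d9
    have h2 : Real.exp (9 / 8) ≤ Real.exp (1 + 1) := Real.exp_le_exp.2 (by norm_num)
    rw [Real.exp_add] at h2
    have h3 : 0 < Real.exp 1 := Real.exp_pos _
    nlinarith
  have hfr : ∀ w ∈ frontier U, ‖f w‖ ≤ C := by
    intro w hw
    have hwcl : w ∈ closure U := frontier_subset_closure hw
    obtain ⟨h1, h2⟩ := hmemcl w hwcl
    have hwI : w.im ≤ s := by
      rw [hcl, Complex.mem_reProdIm] at hwcl
      exact hwcl.2.2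
    have hBe := hb w h1 h2
    rw [Complex.frontier_reProdIm, frontier_Ioo (by linarith), frontier_Ioo (by linarith)] at hw
    rw [hf]
    have him2 : w.im ^ 2 ≤ S₀ ^ 2 := sq_le_sq' (by linarith [(abs_le.1 h2).1]) (abs_le.1 h2).2
    have hlim : lam * w.im ^ 2 ≤ M / 2 := by
      rw [← hlS]; exact mul_le_mul_of_nonneg_left him2 hlam0.le
    have hμim : μ * w.im ≤ 1 := by
      rw [← hμs]; exact mul_le_mul_of_nonneg_left hwI hμ0.le
    rcases hw with hw | hw
    · rw [Complex.mem_reProdIm] at hw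
      obtain ⟨hr, hi⟩ := hw
      have hre2 : 0 ≤ lam * w.re ^ 2 := by positivity
      rcases hi with hi | hi
      · -- bottom
        have e1 : -lam * (w.re ^ 2 - w.im ^ 2) + μ * w.im + M ≤ 0 := by
          have : μ * w.im = -(2 * M) := by rw [hi]; linarith
          nlinarith
        calc Real.exp (-lam * (w.re ^ 2 - w.im ^ 2) + μ * w.im) * ‖B w‖
            ≤ Real.exp (-lam * (w.re ^ 2 - w.im ^ 2) + μ * w.im) * Real.exp M :=
              mul_le_mul_of_nonneg_left hBe (Real.exp_pos _).le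
          _ = Real.exp (-lam * (w.re ^ 2 - w.im ^ 2) + μ * w.im + M) := (Real.exp_add _ _).symm
          _ ≤ 1 := Real.exp_le_one_iff.2 e1
          _ ≤ C := by linarith
      · -- top
        have hi' : w.im = s := hi
        have hup' := hup w h1 h2 (by rw [hi']; exact hs0)
        have hvs : v / w.im = 2 * M * v / S₀ := by
          rw [hi', hs]; field_simp
        rw [hvs] at hup'
        have e2 : -lam * (w.re ^ 2 - w.im ^ 2) + μ * w.im ≤ 9 / 8 := by
          have h5 : lam * w.im ^ 2 ≤ 1 / 8 := by rw [hi']; exact hls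
          nlinarith
        calc Real.exp (-lam * (w.re ^ 2 - w.im ^ 2) + μ * w.im) * ‖B w‖
            ≤ Real.exp (9 / 8) * (1 + 2 * M * v / S₀) :=
              mul_le_mul (Real.exp_le_exp.2 e2) hup' (norm_nonneg _) (Real.exp_pos _).le
          _ ≤ 8 * (1 + 2 * M * v / S₀) := mul_le_mul_of_nonneg_right he8 (by linarith)
    · rw [Complex.mem_reProdIm] at hw
      obtain ⟨hr, hi⟩ := hw
      have hre2 : w.re ^ 2 = 4 * S₀ ^ 2 := by
        rcases hr with hr | hr
        · rw [hr]; ring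
        · rw [show w.re = 2 * S₀ from hr]; ring
      have e3 : -lam * (w.re ^ 2 - w.im ^ 2) + μ * w.im + M ≤ 9 / 8 := by
        rw [hre2]
        nlinarith
      calc Real.exp (-lam * (w.re ^ 2 - w.im ^ 2) + μ * w.im) * ‖B w‖
            ≤ Real.exp (-lam * (w.re ^ 2 - w.im ^ 2) + μ * w.im) * Real.exp M :=
              mul_le_mul_of_nonneg_left hBe (Real.exp_pos _).le
        _ = Real.exp (-lam * (w.re ^ 2 - w.im ^ 2) + μ * w.im + M) := (Real.exp_add _ _).symm
        _ ≤ Real.exp (9 / 8) := Real.exp_le_exp.2 e3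
        _ ≤ C := by linarith
  have h0 : (0 : ℂ) ∈ closure U := by
    rw [hcl, Complex.mem_reProdIm]
    constructor
    · constructor <;> simp <;> linarith
    · constructor <;> simp <;> linarith
  have key := Complex.norm_le_of_forall_mem_frontier_norm_le hbd hdiff hfr h0
  have hf0 : f 0 = B 0 := by
    show φ 0 • B 0 = B 0
    have : φ 0 = 1 := by
      show Complex.exp (-(lam : ℂ) * 0 ^ 2 - I * (μ : ℂ) * 0) = 1
      simp
    rw [this, one_smul]
  rw [hf0] at key
  exact key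

end

end KRS
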