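import Pool.Agent.H631.KR.Defs
import Pool.Agent.H631.KR.B01
import Pool.Agent.H631.KR.B02
import Pool.Agent.H631.KR.K00
import Pool.Agent.H631.KR.K0R

open MeasureTheory Filter Topology ENNReal Complex
open scoped Laplacian FourierTransform InnerProductSpace

namespace KRS

noncomputable section

/-! TARGET: prove the following -/

theorem Rz_test (d : ℕ) (z : ℂ) (hz : 0 < z.im) (φ : EE d → ℂ) (hφ : IsTest φ) (q f : HH d)
    (hq : (q : EE d → ℂ) =ᵐ[volume] φ)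
    (hf : (f : EE d → ℂ) =ᵐ[volume] fun x => -(Δ φ) x - z * φ x) : Rz d z f = q := by
  set Φ : SchwartzMap (EE d) ℂ := hφ.2.toSchwartzMap hφ.1 with hΦ
  have hΦφ : ((Φ : SchwartzMap (EE d) ℂ) : EE d → ℂ) = φ := rfl
  have hqΦ : q = Φ.toLp 2 := by
    apply Lp.ext
    filter_upwards [hq, Φ.coeFn_toLp 2 volume] with x h1 h2
    rw [h1, h2]
    rfl
  have hfΦ : f = (-(Δ Φ) - z • Φ).toLp 2 := by
    apply Lp.ext
    filter_upwards [hf, (-(Δ Φ) - z • Φ).coeFn_toLp 2 volume] with x h1 h2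
    rw [h1, h2]
    have h3 := SchwartzMap.laplacian_apply Φ x
    simp only [sub_apply, neg_apply, smul_apply, smul_eq_mul]
    rw [h3, hΦφ]
  have hfour : ∀ ξ : EE d, (𝓕 (-(Δ Φ) - z • Φ)) ξ =
      (((4 * Real.pi ^ 2 * ‖ξ‖ ^ 2 : ℝ) : ℂ) - z) * (𝓕 Φ) ξ := by
    intro ξ
    have h1 : 𝓕 (Δ Φ) = -(2 * Real.pi) ^ 2 • SchwartzMap.smulLeftCLM ℂ (fun x : EE d => ‖x‖ ^ 2) (𝓕 Φ) := by
      rw [SchwartzMap.laplacian_eq_fourierMultiplierCLM, SchwartzMap.fourierMultiplierCLM_apply]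
      rw [FourierTransform.fourier_smul, FourierTransform.fourier_fourierInv_eq]
    have h2 : 𝓕 (-(Δ Φ) - z • Φ) = -(𝓕 (Δ Φ)) - z • 𝓕 Φ := by
      rw [sub_eq_add_neg, FourierTransform.fourier_add, FourierTransform.fourier_neg, FourierTransform.fourier_neg, FourierTransform.fourier_smul, ← sub_eq_add_neg]
    have htg : Function.HasTemperateGrowth (fun x : EE d => ‖x‖ ^ 2) := by fun_prop
    rw [h2, h1]
    simp only [sub_apply, neg_apply, smul_apply, smul_eq_mul]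
    rw [SchwartzMap.smulLeftCLM_apply_apply htg]
    simp only [Complex.real_smul]
    push_cast
    ring
  rw [Rz_apply]
  obtain ⟨C, hC0, hC⟩ := sym_bdd z (Or.inl hz)
  have hmain : mulOp (sym z) (𝓕 f) = 𝓕 q := by
    apply Lp.ext
    have e1 := mulOp_ae (sym (d := d) z) (sym_meas z) C (fun x => hC d x) (𝓕 f)
    rw [hfΦ, hqΦ] at *
    rw [SchwartzMap.toLp_fourier_eq, SchwartzMap.toLp_fourier_eq] at *
    filter_upwards [e1, (𝓕 (-(Δ Φ) - z • Φ)).coeFn_toLp 2 volume, (𝓕 Φ).coeFn_toLp 2 volume]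
      with ξ h1 h2 h3
    rw [h1, h2, h3, hfour]
    unfold sym
    have hne : (((4 * Real.pi ^ 2 * ‖ξ‖ ^ 2 : ℝ) : ℂ) - z) ≠ 0 := by
      intro h
      have := congrArg Complex.im h
      have h5 : (((4 * Real.pi ^ 2 * ‖ξ‖ ^ 2 : ℝ) : ℂ)).im = 0 := Complex.ofReal_im _
      rw [Complex.sub_im, h5, Complex.zero_im] at this
      linarith
    field_simp
  rw [hmain]
  exact FourierTransform.fourierInv_fourier_eq q


end

end KRS
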