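import Pool.Agent.H631.KR.Defs
import Pool.Agent.H631.KR.B02
import Pool.Agent.H631.KR.B03
import Pool.Agent.H631.KR.B04
import Pool.Agent.H631.KR.B06
import Pool.Agent.H631.KR.B07
import Pool.Agent.H631.KR.B10
import Pool.Agent.H631.KR.B11
import Pool.Agent.H631.KR.K00
import Pool.Agent.H631.KR.K0R

open MeasureTheory Filter Topology ENNReal Complex
open scoped Laplacian FourierTransform InnerProductSpace

namespace KRS

noncomputable section

theorem auxBS_AA_eq {d : ℕ} (V : EE d → ℂ) (z : ℂ) : AA d 1 V z = 1 + mulOp V ∘L Rz d z := by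
  simp [AA]

theorem auxBS_AA_apply {d : ℕ} (V : EE d → ℂ) (z : ℂ) (f : HH d) :
    AA d 1 V z f = f + mulOp V (Rz d z f) := by
  rw [auxBS_AA_eq]
  simp

theorem auxBS_diff {d : ℕ} (V : EE d → ℂ) (z : ℂ) (hz : 0 < z.im) :
    DifferentiableAt ℂ (fun z => AA d 1 V z) z := by
  have h1 : DifferentiableAt ℂ (fun z => Rz d z) z :=
    (Rz_diff d).differentiableAt ((isOpen_lt continuous_const Complex.continuous_im).mem_nhds hz)
  have h2 : DifferentiableAt ℂ (fun z => mulOp V ∘L Rz d z) z :=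
    (differentiableAt_const (mulOp V)).clm_comp h1
  have h3 : (fun z => AA d 1 V z) = fun z => 1 + mulOp V ∘L Rz d z := by
    funext z
    exact auxBS_AA_eq V z
  rw [h3]
  exact (differentiableAt_const _).add h2

theorem auxBS_num (K : ℝ) (hK : 1 ≤ K) (d : ℕ) (L ε e₀ M nn : ℝ) (hL : 1 ≤ L) (hε : 0 < ε)
    (hε1 : ε ≤ 1 / 10) (hn0 : 0 ≤ nn) (hn : nn + 1 ≤ K * (L / ε) ^ d)
    (hM : M = 1000 * (nn + 1) ^ 2 * Real.log (8 * (5 / ε) * (2 / ε) * (nn + 1)))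
    (he0 : 0 ≤ e₀)
    (he : e₀ ≤ (ε / ((8 * 640001 * K ^ 3 + 1) * L)) ^ (3 * d + 4)) :
    8 * (1 + 2 * M * 1 / (ε / 4)) * e₀ / ε < 1 := by
  set X : ℝ := L / ε with hX
  have hεi : 1 / ε ≤ X := by
    rw [hX]
    gcongr
  have hX1 : 1 ≤ X := by
    rw [hX, le_div_iff₀ hε]
    linarith
  have hX0 : 0 < X := by linarith
  have hK0 : 0 < K := by linarith
  have hi0 : 0 < 1 / ε := by positivity
  have hlog : Real.log (8 * (5 / ε) * (2 / ε) * (nn + 1)) ≤ 80 * K * X ^ (d + 2) := by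
    have hpos : 0 < 8 * (5 / ε) * (2 / ε) * (nn + 1) := by positivity
    have h1 := Real.log_le_sub_one_of_pos hpos
    have h2 : 8 * (5 / ε) * (2 / ε) * (nn + 1) = 80 * (1 / ε) ^ 2 * (nn + 1) := by
      field_simp
      ring
    have h3 : 80 * (1 / ε) ^ 2 * (nn + 1) ≤ 80 * X ^ 2 * (K * X ^ d) := by
      have : (1 / ε) ^ 2 ≤ X ^ 2 := by gcongr
      gcongr
    have h4 : 80 * X ^ 2 * (K * X ^ d) = 80 * K * X ^ (d + 2) := by ring
    linarith
  have hMle : M ≤ 80000 * K ^ 3 * X ^ (3 * d + 2) := by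
    rw [hM]
    have h1 : 1000 * (nn + 1) ^ 2 * Real.log (8 * (5 / ε) * (2 / ε) * (nn + 1)) ≤
        1000 * (nn + 1) ^ 2 * (80 * K * X ^ (d + 2)) := by
      gcongr
    have h2 : 1000 * (nn + 1) ^ 2 * (80 * K * X ^ (d + 2)) ≤
        1000 * (K * X ^ d) ^ 2 * (80 * K * X ^ (d + 2)) := by
      gcongr
    have h3 : 1000 * (K * X ^ d) ^ 2 * (80 * K * X ^ (d + 2)) =
        80000 * K ^ 3 * X ^ (3 * d + 2) := by ring
    linarith
  have hA : 8 * (1 + 2 * M * 1 / (ε / 4)) / ε ≤ 8 * 640001 * K ^ 3 * X ^ (3 * d + 4) := by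
    have e1 : 8 * (1 + 2 * M * 1 / (ε / 4)) / ε = 8 * (1 / ε) + 64 * M * (1 / ε) ^ 2 := by
      field_simp
      ring
    rw [e1]
    have h1 : 64 * M * (1 / ε) ^ 2 ≤ 64 * (80000 * K ^ 3 * X ^ (3 * d + 2)) * X ^ 2 := by
      have : (1 / ε) ^ 2 ≤ X ^ 2 := by gcongr
      gcongr
    have h2 : 64 * (80000 * K ^ 3 * X ^ (3 * d + 2)) * X ^ 2 =
        8 * 640000 * K ^ 3 * X ^ (3 * d + 4) := by ring
    have h3 : 1 / ε ≤ K ^ 3 * X ^ (3 * d + 4) := by
      have h4 : X ≤ X ^ (3 * d + 4) := le_self_pow₀ hX1 (by omega)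
      have h5 : 1 ≤ K ^ 3 := one_le_pow₀ hK
      nlinarith
    nlinarith
  have hCpos : 0 < 8 * 640001 * K ^ 3 + 1 := by positivity
  have hC1 : 1 ≤ 8 * 640001 * K ^ 3 + 1 := by
    have : 0 < K ^ 3 := by positivity
    linarith
  have hE : (ε / ((8 * 640001 * K ^ 3 + 1) * L)) ^ (3 * d + 4) =
      ((8 * 640001 * K ^ 3 + 1) ^ (3 * d + 4))⁻¹ * (X ^ (3 * d + 4))⁻¹ := by
    have : ε / ((8 * 640001 * K ^ 3 + 1) * L) = (8 * 640001 * K ^ 3 + 1)⁻¹ * X⁻¹ := by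
      rw [hX]
      have hL0 : L ≠ 0 := by linarith
      field_simp
    rw [this, mul_pow, inv_pow, inv_pow]
  have hE2 : e₀ ≤ (8 * 640001 * K ^ 3 + 1)⁻¹ * (X ^ (3 * d + 4))⁻¹ := by
    refine he.trans ?_
    rw [hE]
    have : (8 * 640001 * K ^ 3 + 1) ≤ (8 * 640001 * K ^ 3 + 1) ^ (3 * d + 4) :=
      le_self_pow₀ hC1 (by omega)
    gcongr
  have hfin : 8 * (1 + 2 * M * 1 / (ε / 4)) * e₀ / ε ≤
      (8 * 640001 * K ^ 3 * X ^ (3 * d + 4)) *
        ((8 * 640001 * K ^ 3 + 1)⁻¹ * (X ^ (3 * d + 4))⁻¹) := by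
    have e2 : 8 * (1 + 2 * M * 1 / (ε / 4)) * e₀ / ε =
        (8 * (1 + 2 * M * 1 / (ε / 4)) / ε) * e₀ := by ring
    rw [e2]
    have hp : 0 ≤ 8 * 640001 * K ^ 3 * X ^ (3 * d + 4) := by positivity
    exact mul_le_mul hA hE2 he0 hp
  have hXp : 0 < X ^ (3 * d + 4) := by positivity
  have hfe : (8 * 640001 * K ^ 3 * X ^ (3 * d + 4)) *
        ((8 * 640001 * K ^ 3 + 1)⁻¹ * (X ^ (3 * d + 4))⁻¹) =
      (8 * 640001 * K ^ 3) / (8 * 640001 * K ^ 3 + 1) := by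
    field_simp
  rw [hfe] at hfin
  have : (8 * 640001 * K ^ 3) / (8 * 640001 * K ^ 3 + 1) < 1 := by
    rw [div_lt_one hCpos]
    linarith
  linarith

/-! TARGET: prove the following -/

theorem block_spec (d : ℕ) (hd : 1 ≤ d) :
    ∃ (C : ℝ) (D : ℕ), 1 ≤ C ∧ ∀ (L ε x₀ e₀ : ℝ) (V φ : EE d → ℂ) (q r : HH d), 1 ≤ L → 0 < ε →
      ε ≤ 1 / 10 → 3 / 4 ≤ x₀ → x₀ ≤ 3 / 2 → Measurable V → (∀ x, ‖V x‖ ≤ 1) →
      (∀ x, L < ‖x‖ → V x = 0) → (∀ x, (V x).im ≤ ε) → IsTest φ → q ≠ 0 →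
      (q : EE d → ℂ) =ᵐ[volume] φ →
      ((r : EE d → ℂ) =ᵐ[volume] fun x => -(Δ φ) x + V x * φ x - ((x₀ : ℂ) + (ε : ℂ) * I) * φ x) →
      ‖r‖ ≤ e₀ * ‖q‖ → e₀ ≤ (ε / (C * L)) ^ D →
      ∃ z : ℂ, |z.re - x₀| < 2 * ε ∧ ε / 5 < z.im ∧ z.im < 4 * ε ∧ ¬ IsUnit (AA d 1 V z) := by
  classical
  obtain ⟨C₀, hC₀, hfin⟩ := fin_approx d hd
  set K : ℝ := 2 * C₀ * 4 ^ d with hKdef
  have h4d : (1 : ℝ) ≤ 4 ^ d := one_le_pow₀ (by norm_num)
  have hK : 1 ≤ K := by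
    rw [hKdef]
    nlinarith
  refine ⟨8 * 640001 * K ^ 3 + 1, 3 * d + 4, ?_, ?_⟩
  · have : 0 < K ^ 3 := pow_pos (lt_of_lt_of_le one_pos hK) 3
    linarith
  intro L ε x₀ e₀ V φ q r hL hε hε1 hx1 hx2 hVm hV1 hVL hVi hφ hq0 hq hr hrq he
  by_contra hcon
  push Not at hcon
  have hBV : BV V := ⟨hVm, ⟨1, hV1⟩, ⟨L, hVL⟩⟩
  obtain ⟨W, F, N, hWf, hWn, hFN, hFd, hNd⟩ :=
    hfin L (ε / 4) hL (by linarith) (by linarith) V hVm hV1 hVL
  set zs : ℂ := (x₀ : ℂ) + (ε : ℂ) * I with hzs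
  have hzsre : zs.re = x₀ := by simp [hzs]
  have hzsim : zs.im = ε := by simp [hzs]
  set z₁ : ℂ := (x₀ : ℂ) + ((2 * ε : ℝ) : ℂ) * I with hz₁
  have hz1re : z₁.re = x₀ := by simp [hz₁]
  have hz1im : z₁.im = 2 * ε := by simp [hz₁]
  have hball : ∀ z ∈ Metric.ball z₁ (7 / 4 * ε), |z.re - x₀| < 7 / 4 * ε ∧
      |z.im - 2 * ε| < 7 / 4 * ε := by
    intro z hz
    rw [Metric.mem_ball, dist_eq_norm] at hz
    have h1 := (Complex.abs_re_le_norm (z - z₁)).trans_lt hz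
    have h2 := (Complex.abs_im_le_norm (z - z₁)).trans_lt hz
    rw [Complex.sub_re, hz1re] at h1
    rw [Complex.sub_im, hz1im] at h2
    exact ⟨h1, h2⟩
  have him : ∀ z ∈ Metric.ball z₁ (7 / 4 * ε), ε / 4 < z.im := by
    intro z hz
    have := (abs_lt.1 (hball z hz).2).1
    linarith
  have hnz : ∀ z ∈ Metric.ball z₁ (7 / 4 * ε), ‖z‖ ≤ 4 := by
    intro z hz
    obtain ⟨h1, h2⟩ := hball z hz
    rw [abs_lt] at h1 h2
    have h3 := Complex.norm_le_abs_re_add_abs_im z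
    have h4 : |z.re| ≤ 2 := by
      rw [abs_le]
      constructor <;> linarith
    have h5 : |z.im| ≤ 2 := by
      rw [abs_le]
      constructor <;> linarith
    linarith
  have hunit : ∀ z ∈ Metric.ball z₁ (7 / 4 * ε), IsUnit (AA d 1 V z) := by
    intro z hz
    obtain ⟨h1, h2⟩ := hball z hz
    rw [abs_lt] at h2
    apply hcon z
    · linarith
    · linarith
    · linarith
  have hAA : ∀ z ∈ Metric.ball z₁ (7 / 4 * ε), AA d 1 V z = 1 + (F z + N z) := by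
    intro z hz
    rw [auxBS_AA_eq, (hFN z (him z hz) (hnz z hz)).1]
  have hmulV : ‖mulOp V‖ ≤ 1 :=
    ContinuousLinearMap.opNorm_le_bound _ zero_le_one (fun f => mulOp_norm V hVm 1 hV1 f)
  have hF1 : ∀ z ∈ Metric.ball z₁ (7 / 4 * ε), ‖F z‖ ≤ 5 / ε := by
    intro z hz
    obtain ⟨h1, h2, h3⟩ := hFN z (him z hz) (hnz z hz)
    have hzi := him z hz
    have h4 : F z = mulOp V ∘L Rz d z - N z := by
      rw [h1]
      abel
    have h5 : ‖mulOp V ∘L Rz d z‖ ≤ 4 / ε := by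
      refine (ContinuousLinearMap.opNorm_comp_le _ _).trans ?_
      have h6 := (Rz_norm (d := d) z (by linarith)).2
      have h7 : (z.im)⁻¹ ≤ (ε / 4)⁻¹ := inv_anti₀ (by linarith) hzi.le
      have h8 : (ε / 4)⁻¹ = 4 / ε := by rw [inv_div]
      calc ‖mulOp V‖ * ‖Rz d z‖ ≤ 1 * (4 / ε) := by
            apply mul_le_mul hmulV _ (norm_nonneg _) zero_le_one
            rw [← h8]
            exact h6.trans h7
        _ = 4 / ε := one_mul _
    have h9 : (1 : ℝ) / 2 ≤ 1 / ε := by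
      apply one_div_le_one_div_of_le hε
      linarith
    have h10 : (5 : ℝ) / ε = 4 / ε + 1 / ε := by ring
    rw [h4, h10]
    refine (norm_sub_le _ _).trans ?_
    linarith
  -- apriori bound
  have hsubs : ∀ z ∈ Metric.ball z₁ (7 / 4 * ε), z ∈ {z : ℂ | 0 < z.im} := by
    intro z hz
    have := him z hz
    simp only [Set.mem_setOf_eq]
    linarith
  have hz1mem : z₁ ∈ Metric.ball z₁ (7 / 4 * ε) := Metric.mem_ball_self (by linarith)
  have hc2 : ∀ f, ‖f‖ ≤ (2 / ε) * ‖(1 + (F z₁ + N z₁)) f‖ := by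
    intro f
    rw [← hAA z₁ hz1mem, auxBS_AA_apply]
    have h1 := inv_upper d V hVm 1 ε hε.le hV1 hVi z₁ (by rw [hz1im]; linarith) f
    rw [hz1im] at h1
    have h2 : 1 + 1 / (2 * ε - ε) ≤ 2 / ε := by
      have : 2 * ε - ε = ε := by ring
      rw [this]
      have h3 : 1 ≤ 1 / ε := by
        rw [le_div_iff₀ hε]
        linarith
      have h4 : 2 / ε = 1 / ε + 1 / ε := by ring
      linarith
    exact h1.trans (mul_le_mul_of_nonneg_right h2 (norm_nonneg _))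
  have h51 : 1 ≤ 5 / ε := by
    rw [le_div_iff₀ hε]
    linarith
  have h21 : 1 ≤ 2 / ε := by
    rw [le_div_iff₀ hε]
    linarith
  have hap := apriori W F N z₁ (7 / 4 * ε) (5 / ε) (2 / ε) (by linarith) h51 h21
    (hFd.mono hsubs) (hNd.mono hsubs)
    (fun z hz f => (hFN z (him z hz) (hnz z hz)).2.1 f) hF1
    (fun z hz => (hFN z (him z hz) (hnz z hz)).2.2)
    (fun z hz => by rw [← hAA z hz]; exact hunit z hz) hc2
  set nn : ℝ := (Module.finrank ℂ W : ℝ) with hnn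
  set M : ℝ := 1000 * (nn + 1) ^ 2 * Real.log (8 * (5 / ε) * (2 / ε) * (nn + 1)) with hMdef
  have hnn0 : 0 ≤ nn := by
    rw [hnn]
    positivity
  have hM1 : 1 ≤ M := by
    have h1 : Real.exp 1 ≤ 8 * (5 / ε) * (2 / ε) * (nn + 1) := by
      have h2 : Real.exp 1 ≤ 3 := by
        have := Real.exp_one_lt_d9
        linarith
      have h3 : 1 ≤ (5 / ε) * (2 / ε) := by nlinarith
      have h4 : 1 ≤ (5 / ε) * (2 / ε) * (nn + 1) := by nlinarith
      nlinarith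
    have h2 : 1 ≤ Real.log (8 * (5 / ε) * (2 / ε) * (nn + 1)) := by
      have := Real.log_le_log (Real.exp_pos 1) h1
      rwa [Real.log_exp] at this
    have h3 : 1 ≤ (nn + 1) ^ 2 := one_le_pow₀ (by linarith)
    rw [hMdef]
    nlinarith
  have hnK : nn + 1 ≤ K * (L / ε) ^ d := by
    have h1 : nn ≤ C₀ * (L / (ε / 4)) ^ d := hWn
    have h2 : C₀ * (L / (ε / 4)) ^ d = C₀ * 4 ^ d * (L / ε) ^ d := by
      have : L / (ε / 4) = 4 * (L / ε) := by field_simp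
      rw [this, mul_pow]
      ring
    have h3 : 1 ≤ L / ε := by
      rw [le_div_iff₀ hε]
      linarith
    have h4 : 1 ≤ (L / ε) ^ d := one_le_pow₀ h3
    have h5 : 1 ≤ C₀ * 4 ^ d := by nlinarith
    have h6 : 1 ≤ C₀ * 4 ^ d * (L / ε) ^ d := by nlinarith
    rw [hKdef]
    have h7 : 2 * C₀ * 4 ^ d * (L / ε) ^ d = C₀ * 4 ^ d * (L / ε) ^ d + C₀ * 4 ^ d * (L / ε) ^ d := by
      ring
    rw [h7]
    linarith
  -- the rectangle
  have hrect : ∀ w : ℂ, |w.re| ≤ 2 * (ε / 4) → |w.im| ≤ ε / 4 →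
      zs + w ∈ Metric.ball z₁ (9 / 10 * (7 / 4 * ε)) := by
    intro w hw1 hw2
    rw [Metric.mem_ball, dist_eq_norm]
    have e1 : (zs + w - z₁).re = w.re := by
      rw [Complex.sub_re, Complex.add_re, hzsre, hz1re]
      ring
    have e2 : (zs + w - z₁).im = w.im - ε := by
      rw [Complex.sub_im, Complex.add_im, hzsim, hz1im]
      ring
    have e3 : ‖zs + w - z₁‖ ^ 2 = w.re ^ 2 + (w.im - ε) ^ 2 := by
      rw [← Complex.normSq_eq_norm_sq, Complex.normSq_apply, e1, e2]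
      ring
    have h1 : w.re ^ 2 ≤ (ε / 2) ^ 2 := by
      apply sq_le_sq'
      · have := (abs_le.1 hw1).1
        linarith
      · have := (abs_le.1 hw1).2
        linarith
    have h2 : (w.im - ε) ^ 2 ≤ (5 / 4 * ε) ^ 2 := by
      apply sq_le_sq'
      · have := (abs_le.1 hw2).1
        linarith
      · have := (abs_le.1 hw2).2
        linarith
    have h3 : ‖zs + w - z₁‖ ^ 2 < (9 / 10 * (7 / 4 * ε)) ^ 2 := by
      rw [e3]
      nlinarith [sq_nonneg ε, mul_pos hε hε]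
    exact lt_of_pow_lt_pow_left₀ 2 (by positivity) h3
  have hsub2 : ∀ z ∈ Metric.ball z₁ (9 / 10 * (7 / 4 * ε)), z ∈ Metric.ball z₁ (7 / 4 * ε) := by
    intro z hz
    exact Metric.ball_subset_ball (by nlinarith) hz
  have hbox := max_box (fun w : ℂ => Ring.inverse (AA d 1 V (zs + w))) (ε / 4) M 1 (by linarith)
    hM1 zero_le_one ?_ ?_ ?_
  rotate_left
  · intro w hw1 hw2
    have hw := hrect w hw1 hw2
    obtain ⟨u, hu⟩ := hunit _ (hsub2 _ hw)
    have hA : DifferentiableAt ℂ (fun z => AA d 1 V z) (zs + w) :=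
      auxBS_diff V _ (hsubs _ (hsub2 _ hw))
    have hB : DifferentiableAt ℂ (fun w : ℂ => AA d 1 V (zs + w)) w := by
      have hadd : DifferentiableAt ℂ (fun w : ℂ => zs + w) w :=
        (differentiableAt_const _).add differentiableAt_id
      exact DifferentiableAt.comp (g := fun z => AA d 1 V z) (f := fun w : ℂ => zs + w) w hA hadd
    have hC : DifferentiableAt ℂ (Ring.inverse : (HH d →L[ℂ] HH d) → (HH d →L[ℂ] HH d))
        (AA d 1 V (zs + w)) := by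
      rw [← hu]
      exact differentiableAt_inverse u.isUnit
    exact DifferentiableAt.comp (g := (Ring.inverse : (HH d →L[ℂ] HH d) → (HH d →L[ℂ] HH d)))
      (f := fun w : ℂ => AA d 1 V (zs + w)) w hC hB
  · intro w hw1 hw2
    have hw := hrect w hw1 hw2
    have hpos : 0 < (zs + w).im := hsubs _ (hsub2 _ hw)
    have h1 := ((AA_unit d 1 V hBV (zs + w) hpos).2 (Real.exp M) (fun f => by
      have := hap (zs + w) hw f
      rw [hAA _ (hsub2 _ hw)]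
      exact this)).2
    rwa [max_eq_left (Real.exp_pos M).le] at h1
  · intro w hw1 hw2 hw3
    have hw := hrect w hw1 hw2
    have hpos : 0 < (zs + w).im := hsubs _ (hsub2 _ hw)
    have h1 := ((AA_unit d 1 V hBV (zs + w) hpos).2 (1 + 1 / w.im) (fun f => by
      have him2 : (zs + w).im = ε + w.im := by rw [Complex.add_im, hzsim]
      have := inv_upper d V hVm 1 ε hε.le hV1 hVi (zs + w) (by rw [him2]; linarith) f
      rw [him2] at this
      have e1 : ε + w.im - ε = w.im := by ring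
      rw [e1] at this
      rw [auxBS_AA_apply]
      exact this)).2
    rwa [max_eq_left (by positivity)] at h1
  -- the function f₀
  set f₀ : HH d := r - mulOp V q with hf₀
  have hf₀ae : (f₀ : EE d → ℂ) =ᵐ[volume] fun x => -(Δ φ) x - zs * φ x := by
    have h1 := Lp.coeFn_sub r (mulOp V q)
    have h2 := mulOp_ae V hVm 1 hV1 q
    rw [← hf₀] at h1
    filter_upwards [h1, h2, hq, hr] with x hx1 hx2 hx3 hx4
    rw [hx1, Pi.sub_apply, hx2, hx4, hx3]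
    ring
  have hzspos : 0 < zs.im := by rw [hzsim]; exact hε
  have hRq : Rz d zs f₀ = q := Rz_test d zs hzspos φ hφ q f₀ hq hf₀ae
  have hAf : AA d 1 V zs f₀ = r := by
    rw [auxBS_AA_apply, hRq, hf₀]
    abel
  have hqn : ‖q‖ ≤ ‖f₀‖ / ε := by
    have h1 := (Rz d zs).le_opNorm f₀
    rw [hRq] at h1
    have h2 := (Rz_norm (d := d) zs hzspos).2
    rw [hzsim] at h2
    calc ‖q‖ ≤ ‖Rz d zs‖ * ‖f₀‖ := h1
      _ ≤ ε⁻¹ * ‖f₀‖ := mul_le_mul_of_nonneg_right h2 (norm_nonneg _)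
      _ = ‖f₀‖ / ε := by ring
  have hqpos : 0 < ‖q‖ := norm_pos_iff.2 hq0
  have hfpos : 0 < ‖f₀‖ := by
    rcases (norm_nonneg f₀).eq_or_lt with h | h
    · rw [← h] at hqn
      simp at hqn
      exact absurd hqn hq0
    · exact h
  have he0 : 0 ≤ e₀ := by
    by_contra hneg
    push Not at hneg
    have : e₀ * ‖q‖ < 0 := mul_neg_of_neg_of_pos hneg hqpos
    have := norm_nonneg r
    linarith
  have hzsball : zs ∈ Metric.ball z₁ (7 / 4 * ε) := by
    have := hrect 0 (by simp; linarith) (by simp; linarith)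
    rw [add_zero] at this
    exact hsub2 _ this
  have hinv : f₀ = Ring.inverse (AA d 1 V zs) r := by
    have h1 := Ring.inverse_mul_cancel _ (hunit zs hzsball)
    have h2 := congrArg (fun T : HH d →L[ℂ] HH d => T f₀) h1
    simp only [ContinuousLinearMap.mul_apply, ContinuousLinearMap.one_apply] at h2
    rw [hAf] at h2
    exact h2.symm
  simp only [add_zero] at hbox
  have hnum := auxBS_num K hK d L ε e₀ M nn hL hε hε1 hnn0 hnK hMdef he0 he
  have hbpos : 0 ≤ 8 * (1 + 2 * M * 1 / (ε / 4)) := by positivity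
  have hfinal : ‖f₀‖ ≤ (8 * (1 + 2 * M * 1 / (ε / 4)) * e₀ / ε) * ‖f₀‖ := by
    calc ‖f₀‖ = ‖Ring.inverse (AA d 1 V zs) r‖ := by rw [← hinv]
      _ ≤ ‖Ring.inverse (AA d 1 V zs)‖ * ‖r‖ := ContinuousLinearMap.le_opNorm _ _
      _ ≤ (8 * (1 + 2 * M * 1 / (ε / 4))) * (e₀ * ‖q‖) :=
          mul_le_mul hbox hrq (norm_nonneg _) hbpos
      _ ≤ (8 * (1 + 2 * M * 1 / (ε / 4))) * (e₀ * (‖f₀‖ / ε)) := by gcongr
      _ = (8 * (1 + 2 * M * 1 / (ε / 4)) * e₀ / ε) * ‖f₀‖ := by ring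
  nlinarith

end

end KRS
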