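import Pool.Agent.H631.KR.Defs

open MeasureTheory Filter Topology ENNReal Complex
open scoped Laplacian FourierTransform InnerProductSpace

namespace KRS

noncomputable section

/-! TARGET: prove the following -/

theorem fin_approx_h298 {H : Type} [NormedAddCommGroup H] [InnerProductSpace ℂ H] [CompleteSpace H]
    (T : H →L[ℂ] H) (hT : IsCompactOperator T) (δ : ℝ) (hδ : 0 < δ) :
    ∃ (W : Submodule ℂ H) (_ : FiniteDimensional ℂ W) (A : W →L[ℂ] H) (B : H →L[ℂ] W),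
      ‖T - A ∘L B‖ ≤ δ := by
  classical
  have hT' : IsCompactOperator (T : H →ₗ[ℂ] H) := hT
  obtain ⟨C, hC, hCs⟩ := hT'.image_closedBall_subset_compact (1 : ℝ)
  obtain ⟨t, ht, hfin, hcov⟩ := hC.finite_cover_balls hδ
  let W : Submodule ℂ H := Submodule.span ℂ t
  haveI : FiniteDimensional ℂ W := FiniteDimensional.span_of_finite ℂ hfin
  refine ⟨W, inferInstance, W.subtypeL, W.orthogonalProjectionOnto ∘L T, ?_⟩
  have hball : ∀ x : H, ‖x‖ ≤ 1 → ‖(T - W.subtypeL ∘L (W.orthogonalProjectionOnto ∘L T)) x‖ ≤ δ := by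
    intro x hx
    have h1 : T x ∈ C := hCs ⟨x, by simpa using hx, rfl⟩
    obtain ⟨y, hy, hxy⟩ := Set.mem_iUnion₂.mp (hcov h1)
    have h2 : (T - W.subtypeL ∘L (W.orthogonalProjectionOnto ∘L T)) x =
        T x - W.starProjection (T x) := rfl
    rw [h2, Submodule.starProjection_minimal]
    have h3 : ‖T x - y‖ ≤ δ := by
      have h4 := Metric.mem_ball.mp hxy
      rw [dist_eq_norm] at h4
      exact h4.le
    exact (ciInf_le ⟨0, by rintro _ ⟨w, rfl⟩; exact norm_nonneg _⟩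
      (⟨y, Submodule.subset_span hy⟩ : W)).trans h3
  apply ContinuousLinearMap.opNorm_le_of_unit_norm hδ.le
  intro x hx
  exact hball x hx.le

theorem swap_h298 {E₁ E₂ : Type} [NormedAddCommGroup E₁] [NormedSpace ℂ E₁]
    [NormedAddCommGroup E₂] [NormedSpace ℂ E₂] (A : E₂ →L[ℂ] E₁) (B : E₁ →L[ℂ] E₂)
    (h : IsUnit (1 + B ∘L A)) : IsUnit (1 + A ∘L B) := by
  obtain ⟨u, hu⟩ := h
  have h1 : (1 + B ∘L A) * (↑u⁻¹ : E₂ →L[ℂ] E₂) = 1 := by rw [← hu]; exact u.mul_inv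
  have h2 : (↑u⁻¹ : E₂ →L[ℂ] E₂) * (1 + B ∘L A) = 1 := by rw [← hu]; exact u.inv_mul
  have e1 : ∀ y : E₂, (↑u⁻¹ : E₂ →L[ℂ] E₂) y + B (A ((↑u⁻¹ : E₂ →L[ℂ] E₂) y)) = y := by
    intro y
    have := congrArg (fun f : E₂ →L[ℂ] E₂ => f y) h1
    simpa using this
  have e2 : ∀ y : E₂, (↑u⁻¹ : E₂ →L[ℂ] E₂) y + (↑u⁻¹ : E₂ →L[ℂ] E₂) (B (A y)) = y := by
    intro y
    have := congrArg (fun f : E₂ →L[ℂ] E₂ => f y) h2
    simpa using this
  refine isUnit_iff_exists.mpr ⟨1 - A ∘L ((↑u⁻¹ : E₂ →L[ℂ] E₂) ∘L B), ?_, ?_⟩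
  · ext x
    have h3 := e1 (B x)
    have h4 : A (B x) = A ((↑u⁻¹ : E₂ →L[ℂ] E₂) (B x)) + A (B (A ((↑u⁻¹ : E₂ →L[ℂ] E₂) (B x)))) := by
      rw [← map_add, h3]
    simp only [ContinuousLinearMap.mul_apply, add_apply, sub_apply,
      ContinuousLinearMap.one_apply, ContinuousLinearMap.comp_apply, map_sub]
    rw [h4]
    abel
  · ext x
    have h3 := e2 (B x)
    have h4 : A ((↑u⁻¹ : E₂ →L[ℂ] E₂) (B x)) + A ((↑u⁻¹ : E₂ →L[ℂ] E₂) (B (A (B x)))) = A (B x) := by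
      rw [← map_add, h3]
    simp only [ContinuousLinearMap.mul_apply, add_apply, sub_apply,
      ContinuousLinearMap.one_apply, ContinuousLinearMap.comp_apply, map_add]
    rw [← sub_eq_zero] at h4 ⊢
    rw [← neg_eq_zero] at h4
    rw [← h4]
    abel

theorem det_h298 {E : Type} [NormedAddCommGroup E] [NormedSpace ℂ E] [FiniteDimensional ℂ E]
    (S : Set ℂ) (f : ℂ → (E →L[ℂ] E)) (hf : ∀ w ∈ S, DifferentiableAt ℂ f w) :
    ∃ D : ℂ → ℂ, (∀ w ∈ S, DifferentiableAt ℂ D w) ∧ ∀ w, IsUnit (f w) ↔ D w ≠ 0 := by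
  classical
  let b := Module.finBasis ℂ E
  refine ⟨fun w => Matrix.det (LinearMap.toMatrix b b (f w : E →ₗ[ℂ] E)), ?_, ?_⟩
  · intro w hw
    have hent : ∀ i j, DifferentiableAt ℂ
        (fun w => LinearMap.toMatrix b b (f w : E →ₗ[ℂ] E) i j) w := by
      intro i j
      have e : (fun w => LinearMap.toMatrix b b (f w : E →ₗ[ℂ] E) i j) =
          fun w => (LinearMap.toContinuousLinearMap (b.coord i)) ((f w) (b j)) := by
        funext w
        rw [LinearMap.toMatrix_apply]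
        rfl
      rw [e]
      exact ((LinearMap.toContinuousLinearMap (b.coord i)).differentiableAt).comp w
        ((hf w hw).clm_apply (differentiableAt_const _))
    simp only [Matrix.det_apply]
    apply DifferentiableAt.fun_sum
    intro σ _
    apply DifferentiableAt.const_smul
    apply DifferentiableAt.fun_finsetProd
    intro i _
    exact hent _ _
  · intro w
    have h1 : IsUnit (f w) ↔ IsUnit (f w : E →ₗ[ℂ] E) := by
      have e : (Module.End.toContinuousLinearMap E) (f w : E →ₗ[ℂ] E) = f w := by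
        ext x
        rfl
      conv_lhs => rw [← e]
      exact MulEquiv.isUnit_map (Module.End.toContinuousLinearMap (𝕜 := ℂ) E)
    simp only [h1, LinearMap.isUnit_iff_isUnit_det, isUnit_iff_ne_zero, LinearMap.det_toMatrix]

theorem local_h298 {H : Type} [NormedAddCommGroup H] [InnerProductSpace ℂ H] [CompleteSpace H]
    (K : ℂ → (H →L[ℂ] H)) (U : Set ℂ) (hU : IsOpen U)
    (hK : DifferentiableOn ℂ K U) (z₁ : ℂ) (hz₁ : z₁ ∈ U) (hcomp : IsCompactOperator (K z₁)) :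
    ∃ r > 0, Metric.ball z₁ r ⊆ U ∧ ∃ D : ℂ → ℂ, (∀ w ∈ Metric.ball z₁ r, DifferentiableAt ℂ D w) ∧
      ∀ w ∈ Metric.ball z₁ r, (IsUnit (1 + K w) ↔ D w ≠ 0) := by
  obtain ⟨W, hW, A, B, hAB⟩ := fin_approx_h298 (K z₁) hcomp (1 / 2) (by norm_num)
  have hKd : ∀ w ∈ U, DifferentiableAt ℂ K w := fun w hw => hK.differentiableAt (hU.mem_nhds hw)
  have hcont : ContinuousAt K z₁ := (hKd z₁ hz₁).continuousAt
  obtain ⟨r1, hr1, hb1⟩ := Metric.continuousAt_iff.mp hcont (1 / 4) (by norm_num)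
  obtain ⟨r2, hr2, hb2⟩ := Metric.isOpen_iff.mp hU z₁ hz₁
  refine ⟨min r1 r2, lt_min hr1 hr2, (Metric.ball_subset_ball (min_le_right _ _)).trans hb2, ?_⟩
  have hN : ∀ w ∈ Metric.ball z₁ (min r1 r2), IsUnit (1 + (K w - A ∘L B)) := by
    intro w hw
    have h1 : dist (K w) (K z₁) < 1 / 4 :=
      hb1 (lt_of_lt_of_le (Metric.mem_ball.mp hw) (min_le_left _ _))
    rw [dist_eq_norm] at h1
    have h2 : ‖-(K w - A ∘L B)‖ < 1 := by
      rw [norm_neg]
      have e : K w - A ∘L B = (K w - K z₁) + (K z₁ - A ∘L B) := by abel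
      rw [e]
      refine (norm_add_le _ _).trans_lt ?_
      linarith
    have h3 := isUnit_one_sub_of_norm_lt_one h2
    rwa [sub_neg_eq_add] at h3
  have hwU : ∀ w ∈ Metric.ball z₁ (min r1 r2), w ∈ U := fun w hw =>
    hb2 (Metric.ball_subset_ball (min_le_right _ _) hw)
  have hNd : ∀ w ∈ Metric.ball z₁ (min r1 r2),
      DifferentiableAt ℂ (fun w => Ring.inverse (1 + (K w - A ∘L B))) w := by
    intro w hw
    have h1 : DifferentiableAt ℂ (fun w => 1 + (K w - A ∘L B)) w :=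
      ((hKd w (hwU w hw)).sub_const _).const_add _
    exact DifferentiableAt.comp w (differentiableAt_inverse (𝕜 := ℂ) (hN w hw)) h1
  obtain ⟨D, hD, hDu⟩ := det_h298 (Metric.ball z₁ (min r1 r2))
    (fun w => 1 + (B ∘L (Ring.inverse (1 + (K w - A ∘L B)))) ∘L A) (by
      intro w hw
      apply DifferentiableAt.const_add
      apply DifferentiableAt.clm_comp _ (differentiableAt_const _)
      exact DifferentiableAt.clm_comp (differentiableAt_const _) (hNd w hw))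
  refine ⟨D, hD, fun w hw => ?_⟩
  rw [← hDu w]
  have hfac : 1 + K w = (1 + A ∘L (B ∘L (Ring.inverse (1 + (K w - A ∘L B))))) *
      (1 + (K w - A ∘L B)) := by
    have h1 := Ring.inverse_mul_cancel _ (hN w hw)
    have h2 : (A ∘L (B ∘L (Ring.inverse (1 + (K w - A ∘L B))))) * (1 + (K w - A ∘L B)) =
        A ∘L B := by
      have e : (A ∘L (B ∘L (Ring.inverse (1 + (K w - A ∘L B))))) * (1 + (K w - A ∘L B)) =
          A ∘L (B ∘L ((Ring.inverse (1 + (K w - A ∘L B))) * (1 + (K w - A ∘L B)))) := rfl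
      rw [e, h1]
      rfl
    rw [add_mul, one_mul, h2]
    abel
  obtain ⟨u, hu⟩ := hN w hw
  rw [hfac]
  conv_lhs => rw [← hu]
  rw [Units.isUnit_mul_units]
  constructor
  · intro h
    have := swap_h298 (B ∘L (Ring.inverse (1 + (K w - A ∘L B)))) A
      (by rw [← hu]; exact h)
    exact this
  · intro h
    have := swap_h298 A (B ∘L (Ring.inverse (1 + (K w - A ∘L B)))) h
    rw [← hu] at this
    exact this

theorem an_fred {H : Type} [NormedAddCommGroup H] [InnerProductSpace ℂ H] [CompleteSpace H]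
    (K : ℂ → (H →L[ℂ] H)) (U : Set ℂ) (hU : IsOpen U) (hc : IsPreconnected U)
    (hK : DifferentiableOn ℂ K U) (hcomp : ∀ z ∈ U, IsCompactOperator (K z)) (z₀ : ℂ) (hz₀ : z₀ ∈ U)
    (hunit : IsUnit (1 + K z₀)) (z : ℂ) (hz : z ∈ U) : ∀ᶠ w in 𝓝[≠] z, IsUnit (1 + K w) := by
  classical
  have hloc : ∀ z₁ ∈ U, ∃ r > 0, Metric.ball z₁ r ⊆ U ∧
      ((∀ w ∈ Metric.ball z₁ r, ¬ IsUnit (1 + K w)) ∨
        ∀ z' ∈ Metric.ball z₁ r, ∀ᶠ w in 𝓝[≠] z', IsUnit (1 + K w)) := by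
    intro z₁ hz₁
    obtain ⟨r, hr, hrU, D, hD, hDu⟩ := local_h298 K U hU hK z₁ hz₁ (hcomp z₁ hz₁)
    refine ⟨r, hr, hrU, ?_⟩
    have hDo : DifferentiableOn ℂ D (Metric.ball z₁ r) := fun w hw =>
      (hD w hw).differentiableWithinAt
    have hDa : AnalyticOnNhd ℂ D (Metric.ball z₁ r) := hDo.analyticOnNhd Metric.isOpen_ball
    have hpre : IsPreconnected (Metric.ball z₁ r) := (convex_ball z₁ r).isPreconnected
    by_cases hcase : ∃ z' ∈ Metric.ball z₁ r, ∃ᶠ w in 𝓝[≠] z', D w = 0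
    · left
      obtain ⟨z', hz', hfr⟩ := hcase
      have h0 := hDa.eqOn_zero_of_preconnected_of_frequently_eq_zero hpre hz' hfr
      intro w hw hun
      exact ((hDu w hw).mp hun) (h0 hw)
    · right
      intro z' hz'
      have h1 : ∀ᶠ w in 𝓝[≠] z', ¬ (D w = 0) := by
        by_contra h
        exact hcase ⟨z', hz', h⟩
      have h2 : ∀ᶠ w in 𝓝[≠] z', w ∈ Metric.ball z₁ r :=
        eventually_nhdsWithin_of_eventually_nhds (Metric.isOpen_ball.mem_nhds hz')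
      filter_upwards [h1, h2] with w hw1 hw2
      exact (hDu w hw2).mpr hw1
  let E : Set ℂ := {z | z ∈ U ∧ ∀ᶠ w in 𝓝[≠] z, IsUnit (1 + K w)}
  let F : Set ℂ := {z | z ∈ U ∧ ¬ ∀ᶠ w in 𝓝[≠] z, IsUnit (1 + K w)}
  have hnot : ∀ z₁ r, (∀ w ∈ Metric.ball z₁ r, ¬ IsUnit (1 + K w)) → ∀ z' ∈ Metric.ball z₁ r,
      ¬ ∀ᶠ w in 𝓝[≠] z', IsUnit (1 + K w) := by
    intro z₁ r hn z' hz' h
    have h2 : ∀ᶠ w in 𝓝[≠] z', w ∈ Metric.ball z₁ r :=
      eventually_nhdsWithin_of_eventually_nhds (Metric.isOpen_ball.mem_nhds hz')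
    obtain ⟨w, hw1, hw2⟩ := (h.and h2).exists
    exact hn w hw2 hw1
  have hE : IsOpen E := by
    rw [Metric.isOpen_iff]
    rintro z₁ ⟨hz₁, hev⟩
    obtain ⟨r, hr, hrU, h | h⟩ := hloc z₁ hz₁
    · exact absurd hev (hnot z₁ r h z₁ (Metric.mem_ball_self hr))
    · exact ⟨r, hr, fun z' hz' => ⟨hrU hz', h z' hz'⟩⟩
  have hF : IsOpen F := by
    rw [Metric.isOpen_iff]
    rintro z₁ ⟨hz₁, hev⟩
    obtain ⟨r, hr, hrU, h | h⟩ := hloc z₁ hz₁
    · exact ⟨r, hr, fun z' hz' => ⟨hrU hz', hnot z₁ r h z' hz'⟩⟩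
    · exact absurd (h z₁ (Metric.mem_ball_self hr)) hev
  have hz₀E : z₀ ∈ E := by
    refine ⟨hz₀, ?_⟩
    obtain ⟨r, hr, hrU, h | h⟩ := hloc z₀ hz₀
    · exact absurd hunit (h z₀ (Metric.mem_ball_self hr))
    · exact h z₀ (Metric.mem_ball_self hr)
  by_contra hcon
  obtain ⟨y, hyU, hyE, hyF⟩ := hc E F hE hF (fun y hy => by
    by_cases h : ∀ᶠ w in 𝓝[≠] y, IsUnit (1 + K w)
    · exact Or.inl ⟨hy, h⟩
    · exact Or.inr ⟨hy, h⟩) ⟨z₀, hz₀, hz₀E⟩ ⟨z, hz, hz, hcon⟩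
  exact hyF.2 hyE.2

end

end KRS
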