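import Pool.Agent.H631.KR.Defs

open MeasureTheory Filter Topology ENNReal Complex
open scoped Laplacian FourierTransform InnerProductSpace

namespace KRS

noncomputable section

/-! TARGET: prove the following -/

theorem glue {H : Type} [NormedAddCommGroup H] [InnerProductSpace ℂ H] [CompleteSpace H] (zs : ℂ)
    (r : ℝ) (hr : 0 < r) (A₁ A₂ : ℂ → (H →L[ℂ] H))
    (h1 : ContinuousOn A₁ (Metric.closedBall zs r)) (h2 : ContinuousOn A₂ (Metric.closedBall zs r))
    (u1 : ∀ z ∈ Metric.sphere zs r, IsUnit (A₁ z)) (u2 : ∀ z ∈ Metric.sphere zs r, IsUnit (A₂ z))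
    (v : H) (hv : v ≠ 0) (hAv : A₁ zs v = 0) :
    ∃ τ : ℝ, 0 < τ ∧ ∀ (T : H ≃ₗᵢ[ℂ] H) (P : ℂ → (H →L[ℂ] H)),
      DiffContOnCl ℂ P (Metric.ball zs r) →
      (∀ z ∈ Metric.closedBall zs r, ∀ f : H, ‖P z f - T (A₂ z (T.symm (A₁ z f)))‖ ≤ τ * ‖f‖) →
      ∃ z ∈ Metric.closedBall zs r, ¬ IsUnit (P z) := by
  classical
  have cpt : IsCompact (Metric.sphere zs r) := isCompact_sphere zs r
  have ssub : Metric.sphere zs r ⊆ Metric.closedBall zs r := Metric.sphere_subset_closedBall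
  have hc : ∀ A : ℂ → (H →L[ℂ] H), ContinuousOn A (Metric.closedBall zs r) →
      (∀ z ∈ Metric.sphere zs r, IsUnit (A z)) →
      ∃ B : ℝ, ∀ z ∈ Metric.sphere zs r, ∀ f : H, ‖f‖ ≤ B * ‖A z f‖ := by
    intro A hA hu
    have hcont : ContinuousOn (fun z => Ring.inverse (A z)) (Metric.sphere zs r) := by
      intro z hz
      obtain ⟨u, hu'⟩ := hu z hz
      have h := NormedRing.inverse_continuousAt u
      rw [hu'] at h
      exact ContinuousAt.comp_continuousWithinAt (f := A) (g := Ring.inverse) h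
        ((hA z (ssub hz)).mono ssub)
    obtain ⟨B, hB⟩ := cpt.exists_bound_of_continuousOn hcont
    refine ⟨B, fun z hz f => ?_⟩
    have e : Ring.inverse (A z) (A z f) = f := by
      have := Ring.inverse_mul_cancel (A z) (hu z hz)
      calc Ring.inverse (A z) (A z f) = (Ring.inverse (A z) * A z) f := rfl
        _ = f := by rw [this]; rfl
    calc ‖f‖ = ‖Ring.inverse (A z) (A z f)‖ := by rw [e]
      _ ≤ ‖Ring.inverse (A z)‖ * ‖A z f‖ := (Ring.inverse (A z)).le_opNorm _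
      _ ≤ B * ‖A z f‖ := by gcongr; exact hB z hz
  obtain ⟨B₁, hB₁⟩ := hc A₁ h1 u1
  obtain ⟨B₂, hB₂⟩ := hc A₂ h2 u2
  set B : ℝ := max 1 (max B₁ B₂) with hBdef
  have hB1 : (1 : ℝ) ≤ B := le_max_left _ _
  have hBB₁ : B₁ ≤ B := le_trans (le_max_left _ _) (le_max_right _ _)
  have hBB₂ : B₂ ≤ B := le_trans (le_max_right _ _) (le_max_right _ _)
  have hB0 : 0 < B := by linarith
  refine ⟨1 / (4 * B ^ 2), by positivity, ?_⟩
  intro T P hP hclose
  by_contra hcon
  push Not at hcon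
  have hunit : ∀ z ∈ Metric.closedBall zs r, IsUnit (P z) := hcon
  have low : ∀ z ∈ Metric.sphere zs r, ∀ f : H, ‖f‖ ≤ 2 * B ^ 2 * ‖P z f‖ := by
    intro z hz f
    have a1 : ‖f‖ ≤ B * ‖A₁ z f‖ := (hB₁ z hz f).trans (by gcongr)
    have a2 : ‖T.symm (A₁ z f)‖ ≤ B * ‖A₂ z (T.symm (A₁ z f))‖ :=
      (hB₂ z hz _).trans (by gcongr)
    rw [T.symm.norm_map] at a2
    have a3 : ‖A₂ z (T.symm (A₁ z f))‖ = ‖T (A₂ z (T.symm (A₁ z f)))‖ := (T.norm_map _).symm
    have a4 : ‖f‖ ≤ B ^ 2 * ‖T (A₂ z (T.symm (A₁ z f)))‖ := by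
      rw [a3] at a2
      calc ‖f‖ ≤ B * ‖A₁ z f‖ := a1
        _ ≤ B * (B * ‖T (A₂ z (T.symm (A₁ z f)))‖) := by gcongr
        _ = _ := by ring
    have a5 := hclose z (ssub hz) f
    have a6 : ‖T (A₂ z (T.symm (A₁ z f)))‖ ≤ ‖P z f‖ + 1 / (4 * B ^ 2) * ‖f‖ := by
      have := norm_sub_norm_le (T (A₂ z (T.symm (A₁ z f)))) (P z f)
      rw [norm_sub_rev] at this
      linarith
    have a7 : ‖f‖ ≤ B ^ 2 * ‖P z f‖ + 1 / 4 * ‖f‖ := by
      calc ‖f‖ ≤ B ^ 2 * ‖T (A₂ z (T.symm (A₁ z f)))‖ := a4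
        _ ≤ B ^ 2 * (‖P z f‖ + 1 / (4 * B ^ 2) * ‖f‖) := by gcongr
        _ = _ := by field_simp
    have a8 : 0 ≤ B ^ 2 * ‖P z f‖ := by positivity
    linarith
  have hinv : DiffContOnCl ℂ (fun z => Ring.inverse (P z)) (Metric.ball zs r) := by
    constructor
    · intro z hz
      have hd := hP.1 z hz
      have := (differentiableAt_inverse (𝕜 := ℂ) (hunit z (Metric.ball_subset_closedBall hz)))
      exact this.comp_differentiableWithinAt z hd
    · intro z hz
      have hz' : z ∈ Metric.closedBall zs r := Metric.closure_ball_subset_closedBall hz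
      obtain ⟨u, hu'⟩ := hunit z hz'
      have h := NormedRing.inverse_continuousAt u
      rw [hu'] at h
      exact ContinuousAt.comp_continuousWithinAt (f := P) (g := Ring.inverse) h (hP.2 z hz)
  have hfr : ∀ z ∈ frontier (Metric.ball zs r), ‖Ring.inverse (P z)‖ ≤ 2 * B ^ 2 := by
    intro z hz
    rw [frontier_ball zs hr.ne'] at hz
    refine ContinuousLinearMap.opNorm_le_bound _ (by positivity) fun g => ?_
    have e : P z (Ring.inverse (P z) g) = g := by
      have := Ring.mul_inverse_cancel (P z) (hunit z (ssub hz))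
      calc P z (Ring.inverse (P z) g) = (P z * Ring.inverse (P z)) g := rfl
        _ = g := by rw [this]; rfl
    have := low z hz (Ring.inverse (P z) g)
    rwa [e] at this
  have hzs : zs ∈ closure (Metric.ball zs r) := subset_closure (Metric.mem_ball_self hr)
  have hmax := Complex.norm_le_of_forall_mem_frontier_norm_le Metric.isBounded_ball hinv hfr hzs
  have hzb : zs ∈ Metric.closedBall zs r := Metric.mem_closedBall_self hr.le
  have e : Ring.inverse (P zs) (P zs v) = v := by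
    have := Ring.inverse_mul_cancel (P zs) (hunit zs hzb)
    calc Ring.inverse (P zs) (P zs v) = (Ring.inverse (P zs) * P zs) v := rfl
      _ = v := by rw [this]; rfl
  have c1 : ‖P zs v‖ ≤ 1 / (4 * B ^ 2) * ‖v‖ := by
    have := hclose zs hzb v
    rw [hAv] at this
    simpa using this
  have c2 : ‖v‖ ≤ 2 * B ^ 2 * (1 / (4 * B ^ 2) * ‖v‖) := by
    calc ‖v‖ = ‖Ring.inverse (P zs) (P zs v)‖ := by rw [e]
      _ ≤ ‖Ring.inverse (P zs)‖ * ‖P zs v‖ := (Ring.inverse (P zs)).le_opNorm _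
      _ ≤ 2 * B ^ 2 * (1 / (4 * B ^ 2) * ‖v‖) := by
        apply mul_le_mul hmax c1 (norm_nonneg _) (by positivity)
  have c3 : 2 * B ^ 2 * (1 / (4 * B ^ 2) * ‖v‖) = ‖v‖ / 2 := by field_simp; ring
  have c4 : 0 < ‖v‖ := norm_pos_iff.mpr hv
  linarith

end

end KRS
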