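import Pool.Agent.H631.KR.Defs
import Pool.Agent.H631.KR.B01
import Pool.Agent.H631.KR.B02
import Pool.Agent.H631.KR.K00

open MeasureTheory Filter Topology ENNReal Complex
open scoped Laplacian FourierTransform InnerProductSpace

namespace KRS

noncomputable section

/-! TARGET: prove the following -/

lemma mp_sub {d : ℕ} (x : EE d) : MeasurePreserving (fun y : EE d => y - x) volume volume :=
  measurePreserving_sub_right volume x

lemma mp_add {d : ℕ} (x : EE d) : MeasurePreserving (fun y : EE d => y + x) volume volume :=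
  measurePreserving_add_right volume x

/-- translation as a linear isometry -/
def trI {d : ℕ} (x : EE d) : HH d →ₗᵢ[ℂ] HH d :=
  Lp.compMeasurePreservingₗᵢ ℂ (fun y : EE d => y - x) (mp_sub x)

lemma trI_ae {d : ℕ} (x : EE d) (f : HH d) :
    (trI x f : EE d → ℂ) =ᵐ[volume] fun y => f (y - x) :=
  Lp.coeFn_compMeasurePreserving f (mp_sub x)

lemma trI_surj {d : ℕ} (x : EE d) : Function.Surjective (trI x) := by
  intro g
  refine ⟨Lp.compMeasurePreserving (fun y : EE d => y + x) (mp_add x) g, ?_⟩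
  apply Lp.ext
  refine (trI_ae x _).trans ?_
  have h1 := Lp.coeFn_compMeasurePreserving g (mp_add x)
  have h2 := (mp_sub x).quasiMeasurePreserving.ae_eq_comp h1
  refine h2.trans ?_
  filter_upwards with y
  simp

/-- translation as an isometric equivalence -/
def trE {d : ℕ} (x : EE d) : HH d ≃ₗᵢ[ℂ] HH d :=
  LinearIsometryEquiv.ofSurjective (trI x) (trI_surj x)

lemma trE_ae {d : ℕ} (x : EE d) (f : HH d) :
    (trE x f : EE d → ℂ) =ᵐ[volume] fun y => f (y - x) :=
  trI_ae x f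

/-- the character -/
def ech {d : ℕ} (x : EE d) (ξ : EE d) : ℂ := (Real.fourierChar (-(inner ℝ x ξ)) : ℂ)

lemma ech_meas {d : ℕ} (x : EE d) : Measurable (ech x) := by
  unfold ech
  have : Continuous fun ξ : EE d => ((Real.fourierChar (-(inner ℝ x ξ)) : Circle) : ℂ) := by
    have h1 := Real.continuous_fourierChar
    fun_prop
  exact this.measurable

lemma ech_norm {d : ℕ} (x ξ : EE d) : ‖ech x ξ‖ ≤ 1 := by
  exact (Circle.norm_coe _).le

lemma fourier_sub {d : ℕ} (f : SchwartzMap (EE d) ℂ) (x ξ : EE d) :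
    𝓕 (fun y => f (y - x)) ξ = ech x ξ * 𝓕 (f : EE d → ℂ) ξ := by
  rw [Real.fourier_eq, Real.fourier_eq]
  have h := integral_sub_right_eq_self (μ := (volume : Measure (EE d)))
    (fun v : EE d => Real.fourierChar (-(inner ℝ (v + x) ξ)) • f v) x
  simp only [sub_add_cancel] at h
  rw [h, ← integral_const_mul]
  apply integral_congr_ae
  filter_upwards with v
  rw [inner_add_left, neg_add, AddChar.map_add_eq_mul]
  simp only [ech, Circle.smul_def, Circle.coe_mul, smul_eq_mul]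
  ring

lemma fourier_tr {d : ℕ} (x : EE d) (f : HH d) :
    𝓕 (trE x f) = mulOp (ech x) (𝓕 f : HH d) := by
  refine DenseRange.induction_on (p := fun f : HH d => 𝓕 (trE x f) = mulOp (ech x) (𝓕 f : HH d))
    (SchwartzMap.denseRange_toLpCLM (p := 2) ENNReal.ofNat_ne_top) f ?_ ?_
  · apply isClosed_eq
    · exact (Lp.fourierTransformₗᵢ (EE d) ℂ).continuous.comp (trE x).continuous
    · exact (mulOp (ech x)).continuous.comp (Lp.fourierTransformₗᵢ (EE d) ℂ).continuous
  · intro φ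
    have h1 : trE x (SchwartzMap.toLpCLM ℝ ℂ 2 volume φ) =
        (SchwartzMap.compSubConstCLM ℝ x φ).toLp 2 := by
      apply Lp.ext
      refine (trE_ae x _).trans ?_
      have h2 := (mp_sub x).quasiMeasurePreserving.ae_eq_comp (φ.coeFn_toLp 2 volume)
      refine h2.trans ?_
      refine EventuallyEq.trans ?_ ((SchwartzMap.compSubConstCLM ℝ x φ).coeFn_toLp 2 volume).symm
      filter_upwards with y
      simp
    rw [h1, SchwartzMap.toLp_fourier_eq, SchwartzMap.toLpCLM_apply, SchwartzMap.toLp_fourier_eq]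
    apply Lp.ext
    refine ((𝓕 (SchwartzMap.compSubConstCLM ℝ x φ)).coeFn_toLp 2 volume).trans ?_
    refine EventuallyEq.trans ?_ (mulOp_ae (ech x) (ech_meas x) 1 (ech_norm x) _).symm
    filter_upwards [(𝓕 φ).coeFn_toLp 2 volume] with ξ hξ
    rw [hξ, SchwartzMap.fourier_coe, SchwartzMap.fourier_coe, ← fourier_sub]
    rfl

lemma mulOp_comm' {d : ℕ} (m m' : EE d → ℂ) (hm : Measurable m) (C : ℝ) (hC : ∀ x, ‖m x‖ ≤ C)
    (hm' : Measurable m') (C' : ℝ) (hC' : ∀ x, ‖m' x‖ ≤ C') (f : HH d) :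
    mulOp m (mulOp m' f) = mulOp m' (mulOp m f) := by
  apply Lp.ext
  filter_upwards [mulOp_ae m hm C hC (mulOp m' f), mulOp_ae m' hm' C' hC' f,
    mulOp_ae m' hm' C' hC' (mulOp m f), mulOp_ae m hm C hC f] with y h1 h2 h3 h4
  rw [h1, h2, h3, h4]; ring

lemma fourier_fm {d : ℕ} (m : EE d → ℂ) (f : HH d) :
    𝓕 (fm m f) = mulOp m (𝓕 f : HH d) :=
  (Lp.fourierTransformₗᵢ (EE d) ℂ).apply_symm_apply _

lemma fm_tr {d : ℕ} (m : EE d → ℂ) (hm : Measurable m) (C : ℝ) (hC : ∀ x, ‖m x‖ ≤ C)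
    (x : EE d) (f : HH d) : trE x (fm m f) = fm m (trE x f) := by
  apply (Lp.fourierTransformₗᵢ (EE d) ℂ).injective
  change 𝓕 (trE x (fm m f)) = 𝓕 (fm m (trE x f))
  rw [fourier_tr, fourier_fm, fourier_fm, fourier_tr]
  exact mulOp_comm' _ _ (ech_meas x) 1 (ech_norm x) hm C hC _

lemma sym_meas_B15 {d : ℕ} (z : ℂ) : Measurable (sym z : EE d → ℂ) := by
  unfold sym; fun_prop

lemma sym_norm {d : ℕ} (z : ℂ) (hz : 0 < z.im) (ξ : EE d) : ‖sym z ξ‖ ≤ (z.im)⁻¹ := by
  unfold sym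
  rw [norm_inv]
  apply inv_anti₀ hz
  refine le_trans ?_ (Complex.abs_im_le_norm _)
  simp only [Complex.sub_im, Complex.ofReal_im, zero_sub, abs_neg]
  exact le_abs_self _

lemma tsym_meas {d : ℕ} : Measurable (tsym : EE d → ℂ) := by
  unfold tsym; fun_prop

lemma tsym_norm {d : ℕ} (ξ : EE d) : ‖(tsym ξ : ℂ)‖ ≤ 1 := by
  unfold tsym
  rw [Complex.norm_real, Real.norm_eq_abs, abs_of_nonneg (by positivity)]
  apply inv_le_one_of_one_le₀
  rw [Real.one_le_sqrt]
  have : 0 ≤ 4 * Real.pi ^ 2 * ‖ξ‖ ^ 2 := by positivity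
  linarith

lemma mulOp_tr {d : ℕ} (V : EE d → ℂ) (hV : BV V) (x : EE d) (f : HH d) :
    trE x (mulOp V f) = mulOp (fun y => V (y - x)) (trE x f) := by
  obtain ⟨hm, ⟨B, hB⟩, -⟩ := hV
  have hm' : Measurable (fun y => V (y - x)) := hm.comp (measurable_id.sub_const x)
  apply Lp.ext
  have h1 := trE_ae x (mulOp V f)
  have h2 := (mp_sub x).quasiMeasurePreserving.ae_eq_comp (mulOp_ae V hm B hB f)
  have h3 := mulOp_ae (fun y => V (y - x)) hm' B (fun y => hB _) (trE x f)
  have h4 := trE_ae x f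
  filter_upwards [h1, h2, h3, h4] with y h1 h2 h3 h4
  rw [h1, h3, h4]
  exact h2

theorem trans_exists (d : ℕ) (x : EE d) :
    ∃ T : HH d ≃ₗᵢ[ℂ] HH d, (∀ f : HH d, (T f : EE d → ℂ) =ᵐ[volume] fun y => f (y - x)) ∧
      (∀ z : ℂ, 0 < z.im → ∀ f : HH d, T (Rz d z f) = Rz d z (T f)) ∧
      (∀ V : EE d → ℂ, BV V → ∀ f : HH d, T (mulOp V f) = mulOp (fun y => V (y - x)) (T f)) ∧
      (∀ f : HH d, T (fm tsym f) = fm tsym (T f)) := by
  refine ⟨trE x, trE_ae x, ?_, fun V hV f => mulOp_tr V hV x f, ?_⟩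
  · intro z hz f
    rw [(Rz_norm (d := d) z hz).1]
    exact fm_tr _ (sym_meas_B15 z) _ (sym_norm z hz) x f
  · intro f
    exact fm_tr _ tsym_meas 1 tsym_norm x f

theorem sing_trans (d : ℕ) (g : ℝ) (V : EE d → ℂ) (hV : BV V) (x : EE d) (z : ℂ) (hz : 0 < z.im) :
    IsUnit (AA d g (fun y => V (y - x)) z) ↔ IsUnit (AA d g V z) := by
  obtain ⟨T, -, h2, h3, -⟩ := trans_exists d x
  let U : (HH d →L[ℂ] HH d)ˣ := ContinuousLinearEquiv.toUnit T.toContinuousLinearEquiv
  have hU : ∀ f, (U : HH d →L[ℂ] HH d) f = T f := fun f => rfl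
  have key : AA d g (fun y => V (y - x)) z * (U : HH d →L[ℂ] HH d) =
      (U : HH d →L[ℂ] HH d) * AA d g V z := by
    ext1 f
    simp only [ContinuousLinearMap.mul_apply, hU, AA, ContinuousLinearMap.add_apply,
      ContinuousLinearMap.one_apply, ContinuousLinearMap.smul_apply,
      ContinuousLinearMap.comp_apply, map_add, map_smul]
    rw [h3 V hV, h2 z hz]
  rw [← Units.isUnit_mul_units _ U, key, Units.isUnit_units_mul]

end

end KRS
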