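import Pool.Agent.H631.KR.Defs
import Pool.Agent.H631.KR.B01
import Pool.Agent.H631.KR.B02
import Pool.Agent.H631.KR.K00

open MeasureTheory Filter Topology ENNReal Complex
open scoped Laplacian FourierTransform InnerProductSpace

namespace KRS

noncomputable section

/-! TARGET: prove the following -/

theorem sd_memLp {d : ℕ} (s : ℝ) (hs : s ≠ 0) (f : HH d) :
    MemLp (fun x => f (s • x)) 2 (volume : Measure (EE d)) := by
  have h1 : MemLp (f : EE d → ℂ) 2 (Measure.map (s • ·) (volume : Measure (EE d))) := by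
    rw [Measure.map_addHaar_smul volume hs]
    exact (Lp.memLp f).smul_measure ENNReal.ofReal_ne_top
  exact h1.comp_of_map (measurable_const_smul s).aemeasurable

theorem sd_ae {d : ℕ} (s : ℝ) (hs : s ≠ 0) {f g : EE d → ℂ} (h : f =ᵐ[volume] g) :
    (fun x => f (s • x)) =ᵐ[volume] fun x => g (s • x) :=
  (Measure.quasiMeasurePreserving_smul (volume : Measure (EE d)) hs).ae_eq_comp h

/-- the dilation as a linear map -/
def sdL {d : ℕ} (s : ℝ) (hs : s ≠ 0) : HH d →ₗ[ℂ] HH d where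
  toFun f := (sd_memLp s hs f).toLp _
  map_add' f g := by
    apply Lp.ext
    have h1 := (sd_memLp s hs (f + g)).coeFn_toLp
    have h2 := (sd_memLp s hs f).coeFn_toLp
    have h3 := (sd_memLp s hs g).coeFn_toLp
    have h4 := Lp.coeFn_add ((sd_memLp s hs f).toLp _) ((sd_memLp s hs g).toLp _)
    have h5 := sd_ae s hs (Lp.coeFn_add f g)
    filter_upwards [h1, h2, h3, h4, h5] with x a1 a2 a3 a4 a5
    rw [a1, a4, Pi.add_apply, a2, a3, a5, Pi.add_apply]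
  map_smul' c f := by
    apply Lp.ext
    have h1 := (sd_memLp s hs (c • f)).coeFn_toLp
    have h2 := (sd_memLp s hs f).coeFn_toLp
    have h4 := Lp.coeFn_smul c ((sd_memLp s hs f).toLp _)
    have h5 := sd_ae s hs (Lp.coeFn_smul c f)
    filter_upwards [h1, h2, h4, h5] with x a1 a2 a4 a5
    rw [RingHom.id_apply, a1, a4, Pi.smul_apply, a2, a5, Pi.smul_apply]

theorem sd_norm {d : ℕ} (s : ℝ) (hs : s ≠ 0) (f : HH d) : ‖sdL s hs f‖ ≤
    ((ENNReal.ofReal (abs (s ^ Module.finrank ℝ (EE d))⁻¹) ^ (1 / (2 : ℝ≥0∞)).toReal)).toReal *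
      ‖f‖ := by
  show ‖(sd_memLp s hs f).toLp _‖ ≤ _
  rw [Lp.norm_toLp, Lp.norm_def, ← ENNReal.toReal_mul]
  have h1 : eLpNorm (fun x => f (s • x)) 2 (volume : Measure (EE d)) =
      ENNReal.ofReal (abs (s ^ Module.finrank ℝ (EE d))⁻¹) ^ (1 / (2 : ℝ≥0∞)).toReal *
        eLpNorm f 2 volume := by
    have h2 := eLpNorm_map_measure (p := 2) (g := (f : EE d → ℂ)) (f := fun x : EE d => s • x)
      (μ := volume) (by
        rw [Measure.map_addHaar_smul volume hs]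
        exact ((Lp.memLp f).smul_measure ENNReal.ofReal_ne_top).aestronglyMeasurable)
      (measurable_const_smul s).aemeasurable
    have h3 : (fun x => f (s • x)) = (f : EE d → ℂ) ∘ fun x : EE d => s • x := rfl
    rw [h3, ← h2, Measure.map_addHaar_smul volume hs,
      eLpNorm_smul_measure_of_ne_top (by simp), smul_eq_mul]
  rw [h1]

/-- the dilation -/
def sdD {d : ℕ} (s : ℝ) (hs : s ≠ 0) : HH d →L[ℂ] HH d :=
  (sdL s hs).mkContinuous _ (sd_norm s hs)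

theorem sdD_ae {d : ℕ} (s : ℝ) (hs : s ≠ 0) (f : HH d) :
    (sdD s hs f : EE d → ℂ) =ᵐ[volume] fun x => f (s • x) := (sd_memLp s hs f).coeFn_toLp

theorem sdD_inv {d : ℕ} (s t : ℝ) (hs : s ≠ 0) (ht : t ≠ 0) (hst : t * s = 1) (f : HH d) :
    sdD s hs (sdD t ht f) = f := by
  apply Lp.ext
  filter_upwards [sdD_ae s hs (sdD t ht f), sd_ae s hs (sdD_ae t ht f)] with x h1 h2
  rw [h1, h2, smul_smul, hst, one_smul]

theorem sdD_mul {d : ℕ} (s : ℝ) (hs : s ≠ 0) (m m' : EE d → ℂ) (hm : Measurable m) (C : ℝ)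
    (hC : ∀ x, ‖m x‖ ≤ C) (hm' : Measurable m') (C' : ℝ) (hC' : ∀ x, ‖m' x‖ ≤ C') (a : ℂ)
    (h : ∀ x, m' x = a * m (s • x)) (f : HH d) :
    mulOp m' (sdD s hs f) = a • sdD s hs (mulOp m f) := by
  apply Lp.ext
  filter_upwards [mulOp_ae m' hm' C' hC' (sdD s hs f), sdD_ae s hs f,
    Lp.coeFn_smul a (sdD s hs (mulOp m f)), sdD_ae s hs (mulOp m f),
    sd_ae s hs (mulOp_ae m hm C hC f)] with x h1 h2 h3 h4 h5
  rw [h1, h2, h3, Pi.smul_apply, h4, h5, h, smul_eq_mul, mul_assoc]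

/-- dilation as a linear equivalence -/
def sdE {d : ℕ} (s : ℝ) (hs : s ≠ 0) : EE d ≃L[ℝ] EE d :=
  ContinuousLinearEquiv.equivOfInverse (s • ContinuousLinearMap.id ℝ (EE d))
    (s⁻¹ • ContinuousLinearMap.id ℝ (EE d))
    (fun x => by
      show s⁻¹ • s • x = x
      rw [smul_smul, inv_mul_cancel₀ hs, one_smul])
    (fun x => by
      show s • s⁻¹ • x = x
      rw [smul_smul, mul_inv_cancel₀ hs, one_smul])

theorem sd_fourier_fun {d : ℕ} (s : ℝ) (hs : s ≠ 0) (f : EE d → ℂ) (ξ : EE d) :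
    𝓕 (fun x => f (s • x)) ξ =
      ((abs (s ^ Module.finrank ℝ (EE d))⁻¹ : ℝ) : ℂ) * 𝓕 f (s⁻¹ • ξ) := by
  rw [Real.fourier_eq, Real.fourier_eq]
  have h1 := Measure.integral_comp_smul (volume : Measure (EE d))
    (fun u => Real.fourierChar (-⟪s⁻¹ • u, ξ⟫_ℝ) • f u) s
  have h2 : ∀ x : EE d, Real.fourierChar (-⟪s⁻¹ • s • x, ξ⟫_ℝ) • f (s • x) =
      Real.fourierChar (-⟪x, ξ⟫_ℝ) • f (s • x) := by
    intro x
    rw [smul_smul, inv_mul_cancel₀ hs, one_smul]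
  simp only [h2] at h1
  rw [h1]
  have h3 : ∀ u : EE d, ⟪s⁻¹ • u, ξ⟫_ℝ = ⟪u, s⁻¹ • ξ⟫_ℝ := by
    intro u
    rw [real_inner_smul_left, real_inner_smul_right]
  simp only [h3]
  rw [Complex.real_smul]

theorem sd_fourier {d : ℕ} (s : ℝ) (hs : s ≠ 0) (f : HH d) :
    Lp.fourierTransformₗᵢ (EE d) ℂ (sdD s hs f) =
      ((abs (s ^ Module.finrank ℝ (EE d))⁻¹ : ℝ) : ℂ) •
        sdD s⁻¹ (inv_ne_zero hs) (Lp.fourierTransformₗᵢ (EE d) ℂ f) := by
  have key : (fun f : HH d => Lp.fourierTransformₗᵢ (EE d) ℂ (sdD s hs f)) =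
      fun f : HH d => ((abs (s ^ Module.finrank ℝ (EE d))⁻¹ : ℝ) : ℂ) •
        sdD s⁻¹ (inv_ne_zero hs) (Lp.fourierTransformₗᵢ (EE d) ℂ f) := by
    refine DenseRange.equalizer (SchwartzMap.denseRange_toLpCLM (E := EE d) (F := ℂ) (p := 2)
      (μ := volume) ENNReal.ofNat_ne_top) ?_ ?_ ?_
    · exact (Lp.fourierTransformₗᵢ (EE d) ℂ).continuous.comp (sdD s hs).continuous
    · exact ((sdD s⁻¹ (inv_ne_zero hs)).continuous.comp
        (Lp.fourierTransformₗᵢ (EE d) ℂ).continuous).const_smul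
          (((abs (s ^ Module.finrank ℝ (EE d))⁻¹ : ℝ) : ℂ))
    · funext φ
      show Lp.fourierTransformₗᵢ (EE d) ℂ (sdD s hs (φ.toLp 2)) = _ •
        sdD s⁻¹ (inv_ne_zero hs) (Lp.fourierTransformₗᵢ (EE d) ℂ (φ.toLp 2))
      have e1 : sdD s hs (φ.toLp 2) =
          (SchwartzMap.compCLMOfContinuousLinearEquiv ℂ (sdE s hs) φ).toLp 2 := by
        apply Lp.ext
        filter_upwards [sdD_ae s hs (φ.toLp 2), sd_ae s hs (φ.coeFn_toLp 2),
          (SchwartzMap.compCLMOfContinuousLinearEquiv ℂ (sdE s hs) φ).coeFn_toLp 2] with x h1 h2 h3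
        rw [h1, h2, h3]
        rfl
      have e2 : Lp.fourierTransformₗᵢ (EE d) ℂ (φ.toLp 2) = (𝓕 φ).toLp 2 :=
        SchwartzMap.toLp_fourier_eq φ
      have e3 : Lp.fourierTransformₗᵢ (EE d) ℂ
          ((SchwartzMap.compCLMOfContinuousLinearEquiv ℂ (sdE s hs) φ).toLp 2) =
          (𝓕 (SchwartzMap.compCLMOfContinuousLinearEquiv ℂ (sdE s hs) φ)).toLp 2 :=
        SchwartzMap.toLp_fourier_eq _
      rw [e1, e2, e3]
      apply Lp.ext
      filter_upwards [(𝓕 (SchwartzMap.compCLMOfContinuousLinearEquiv ℂ (sdE s hs) φ)).coeFn_toLp 2,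
        Lp.coeFn_smul ((abs (s ^ Module.finrank ℝ (EE d))⁻¹ : ℝ) : ℂ)
          (sdD s⁻¹ (inv_ne_zero hs) ((𝓕 φ).toLp 2)),
        sdD_ae s⁻¹ (inv_ne_zero hs) ((𝓕 φ).toLp 2),
        sd_ae s⁻¹ (inv_ne_zero hs) ((𝓕 φ).coeFn_toLp 2)] with x h1 h2 h3 h4
      rw [h1, h2, Pi.smul_apply, h3, h4, smul_eq_mul]
      exact sd_fourier_fun s hs φ x
  exact congrFun key f

theorem sd_sym_meas {d : ℕ} (z : ℂ) : Measurable (sym z : EE d → ℂ) := by
  unfold sym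
  fun_prop

theorem sd_sym_bound {d : ℕ} (z : ℂ) (hz : 0 < z.im) (ξ : EE d) : ‖sym z ξ‖ ≤ (z.im)⁻¹ := by
  unfold sym
  rw [norm_inv]
  apply inv_anti₀ hz
  have h1 : |(((4 * Real.pi ^ 2 * ‖ξ‖ ^ 2 : ℝ) : ℂ) - z).im| ≤
      ‖((4 * Real.pi ^ 2 * ‖ξ‖ ^ 2 : ℝ) : ℂ) - z‖ := Complex.abs_im_le_norm _
  rw [Complex.sub_im, Complex.ofReal_im, zero_sub, abs_neg, abs_of_pos hz] at h1
  exact h1

theorem sd_Rz {d : ℕ} (lam : ℝ) (hlam : 0 < lam) (z : ℂ) (hz : 0 < z.im) (f : HH d) :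
    Rz d ((lam : ℂ) ^ 2 * z) (sdD lam hlam.ne' f) =
      (((lam : ℂ) ^ 2)⁻¹) • sdD lam hlam.ne' (Rz d z f) := by
  have hz' : 0 < ((lam : ℂ) ^ 2 * z).im := by
    have : ((lam : ℂ) ^ 2 * z).im = lam ^ 2 * z.im := by
      rw [← Complex.ofReal_pow, Complex.im_ofReal_mul]
    rw [this]
    positivity
  have hl : (lam : ℂ) ≠ 0 := Complex.ofReal_ne_zero.2 hlam.ne'
  apply (Lp.fourierTransformₗᵢ (EE d) ℂ).injective
  have e1 : ∀ (w : ℂ) (f : HH d), Lp.fourierTransformₗᵢ (EE d) ℂ (Rz d w f) =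
      mulOp (sym w) (Lp.fourierTransformₗᵢ (EE d) ℂ f) := by
    intro w f
    exact (Lp.fourierTransformₗᵢ (EE d) ℂ).apply_symm_apply _
  rw [e1, sd_fourier, map_smul, map_smul, sd_fourier, e1,
    sdD_mul lam⁻¹ (inv_ne_zero hlam.ne') (sym z) (sym ((lam : ℂ) ^ 2 * z)) (sd_sym_meas z) _
      (sd_sym_bound z hz) (sd_sym_meas _) _ (sd_sym_bound _ hz') (((lam : ℂ) ^ 2)⁻¹) ?_,
    smul_comm]
  intro ξ
  unfold sym
  rw [← mul_inv]
  congr 1
  rw [norm_smul, norm_inv, Real.norm_of_nonneg hlam.le]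
  push_cast
  field_simp

theorem sing_dil (d : ℕ) (g lam : ℝ) (hlam : 0 < lam) (V : EE d → ℂ) (hV : BV V) (z : ℂ)
    (hz : 0 < z.im) :
    IsUnit (AA d g (fun x => (lam : ℂ) ^ 2 * V (lam • x)) ((lam : ℂ) ^ 2 * z)) ↔
      IsUnit (AA d g V z) := by
  obtain ⟨hVm, ⟨B, hB⟩, -⟩ := hV
  have hl : (lam : ℂ) ≠ 0 := Complex.ofReal_ne_zero.2 hlam.ne'
  have hV' : Measurable (fun x : EE d => (lam : ℂ) ^ 2 * V (lam • x)) :=
    measurable_const.mul (hVm.comp (measurable_const_smul lam))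
  have hB' : ∀ x : EE d, ‖(lam : ℂ) ^ 2 * V (lam • x)‖ ≤ lam ^ 2 * B := by
    intro x
    rw [norm_mul, norm_pow, Complex.norm_real, Real.norm_of_nonneg hlam.le]
    exact mul_le_mul_of_nonneg_left (hB _) (by positivity)
  have hmul : ∀ f : HH d, mulOp (fun x : EE d => (lam : ℂ) ^ 2 * V (lam • x)) (sdD lam hlam.ne' f) =
      ((lam : ℂ) ^ 2) • sdD lam hlam.ne' (mulOp V f) := fun f =>
    sdD_mul lam hlam.ne' V _ hVm B hB hV' _ hB' ((lam : ℂ) ^ 2) (fun x => rfl) f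
  obtain ⟨u, hu⟩ : ∃ u : (HH d →L[ℂ] HH d)ˣ, (u : HH d →L[ℂ] HH d) = sdD lam hlam.ne' :=
    ⟨⟨sdD lam hlam.ne', sdD lam⁻¹ (inv_ne_zero hlam.ne'),
      ContinuousLinearMap.ext fun f => sdD_inv lam lam⁻¹ hlam.ne' (inv_ne_zero hlam.ne')
        (inv_mul_cancel₀ hlam.ne') f,
      ContinuousLinearMap.ext fun f => sdD_inv lam⁻¹ lam (inv_ne_zero hlam.ne') hlam.ne'
        (mul_inv_cancel₀ hlam.ne') f⟩, rfl⟩
  have key : AA d g (fun x => (lam : ℂ) ^ 2 * V (lam • x)) ((lam : ℂ) ^ 2 * z) * (u : HH d →L[ℂ] HH d) =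
      (u : HH d →L[ℂ] HH d) * AA d g V z := by
    rw [hu]
    refine ContinuousLinearMap.ext fun f => ?_
    show sdD lam hlam.ne' f + (g : ℂ) • (mulOp (fun x : EE d => (lam : ℂ) ^ 2 * V (lam • x))
        (Rz d ((lam : ℂ) ^ 2 * z) (sdD lam hlam.ne' f))) =
      sdD lam hlam.ne' (f + (g : ℂ) • (mulOp V (Rz d z f)))
    rw [sd_Rz lam hlam z hz f, map_smul, hmul, smul_smul (((lam : ℂ) ^ 2)⁻¹) ((lam : ℂ) ^ 2),
      inv_mul_cancel₀ (pow_ne_zero 2 hl), one_smul, map_add, map_smul]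
  rw [← Units.isUnit_mul_units _ u, key, Units.isUnit_units_mul]

end

end KRS
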