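import Pool.Agent.H631.KR.Defs
import Pool.Agent.H631.KR.B01
import Pool.Agent.H631.KR.B02
import Pool.Agent.H631.KR.K00
import Pool.Agent.H631.KR.K0R

open MeasureTheory Filter Topology ENNReal Complex
open scoped Laplacian FourierTransform InnerProductSpace

namespace KRS

noncomputable section

def em_29405 {d : ℕ} (h : EE d) (y : EE d) : ℂ :=
  Complex.exp (((2 * Real.pi * ⟪h, y⟫_ℝ : ℝ) : ℂ) * I)

theorem em_cont_29405 {d : ℕ} (h : EE d) : Continuous (em_29405 h) := by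
  unfold em_29405
  fun_prop

theorem em_norm_29405 {d : ℕ} (h : EE d) (y : EE d) : ‖em_29405 h y‖ = 1 :=
  Complex.norm_exp_ofReal_mul_I _

def TT_29405 {d : ℕ} (h : EE d) : HH d →ₗᵢ[ℂ] HH d :=
  Lp.compMeasurePreservingₗᵢ ℂ (fun ξ : EE d => ξ - h) (measurePreserving_sub_right volume h)

theorem TT_ae_29405 {d : ℕ} (h : EE d) (F : HH d) :
    (TT_29405 h F : EE d → ℂ) =ᵐ[volume] fun ξ => F (ξ - h) :=
  Lp.coeFn_compMeasurePreserving F (measurePreserving_sub_right volume h)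

theorem schw_29405 {d : ℕ} (h : EE d) (φ : SchwartzMap (EE d) ℂ) (y : EE d) :
    (𝓕⁻ ((𝓕 φ).compSubConstCLM ℂ h) : SchwartzMap (EE d) ℂ) y = em_29405 h y * φ y := by
  have h1 : φ y = (𝓕⁻ (𝓕 φ) : SchwartzMap (EE d) ℂ) y := by
    rw [FourierTransform.fourierInv_fourier_eq]
  rw [h1, SchwartzMap.fourierInv_coe, SchwartzMap.fourierInv_coe, Real.fourierInv_eq', Real.fourierInv_eq',
    ← integral_const_mul]
  rw [← integral_sub_right_eq_self (fun v => em_29405 h y * (Complex.exp (((2 * Real.pi * ⟪v, y⟫_ℝ : ℝ) : ℂ) * I) • (𝓕 φ : SchwartzMap (EE d) ℂ) v)) h]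
  apply integral_congr_ae
  filter_upwards with v
  rw [SchwartzMap.compSubConstCLM_apply]
  simp only [smul_eq_mul]
  rw [← mul_assoc]
  congr 1
  unfold em_29405
  rw [← Complex.exp_add]
  congr 1
  rw [inner_sub_left]
  push_cast
  ring

theorem four_em_29405 {d : ℕ} (h : EE d) (f : HH d) :
    Lp.fourierTransformₗᵢ (EE d) ℂ (mulOp (em_29405 h) f) =
      TT_29405 h (Lp.fourierTransformₗᵢ (EE d) ℂ f) := by
  have hdr : DenseRange (SchwartzMap.toLpCLM ℝ (E := EE d) ℂ 2 volume) :=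
    SchwartzMap.denseRange_toLpCLM (by norm_num)
  have key : (fun f => Lp.fourierTransformₗᵢ (EE d) ℂ (mulOp (em_29405 h) f)) =
      (fun f => TT_29405 h (Lp.fourierTransformₗᵢ (EE d) ℂ f)) := by
    refine hdr.equalizer ?_ ?_ ?_
    · exact (Lp.fourierTransformₗᵢ (EE d) ℂ).continuous.comp (mulOp (em_29405 h)).continuous
    · exact (TT_29405 h).continuous.comp (Lp.fourierTransformₗᵢ (EE d) ℂ).continuous
    · funext φ
      simp only [Function.comp, SchwartzMap.toLpCLM_apply]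
      have h2 : mulOp (em_29405 h) (φ.toLp 2) =
          ((𝓕⁻ ((𝓕 φ).compSubConstCLM ℂ h) : SchwartzMap (EE d) ℂ)).toLp 2 := by
        apply Lp.ext
        filter_upwards [mulOp_ae (em_29405 h) (em_cont_29405 h).measurable 1
          (fun x => (em_norm_29405 h x).le) (φ.toLp 2), φ.coeFn_toLp 2 volume,
          ((𝓕⁻ ((𝓕 φ).compSubConstCLM ℂ h) : SchwartzMap (EE d) ℂ)).coeFn_toLp 2 volume] with y h3 h4 h5
        rw [h3, h4, h5, schw_29405]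
      have h3 : ∀ ψ : SchwartzMap (EE d) ℂ, Lp.fourierTransformₗᵢ (EE d) ℂ (ψ.toLp 2) = (𝓕 ψ).toLp 2 :=
        fun ψ => SchwartzMap.toLp_fourier_eq ψ
      rw [h2, h3, h3, FourierTransform.fourier_fourierInv_eq]
      apply Lp.ext
      have h6 := (measurePreserving_sub_right (volume : Measure (EE d)) h).quasiMeasurePreserving.ae
        ((𝓕 φ).coeFn_toLp 2 volume)
      filter_upwards [((𝓕 φ).compSubConstCLM ℂ h).coeFn_toLp 2 volume, TT_ae_29405 h ((𝓕 φ).toLp 2), h6]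
        with y h7 h8 h9
      rw [h7, h8, h9, SchwartzMap.compSubConstCLM_apply]
  exact congrFun key f


theorem mulmul_29405 {d : ℕ} (a b : EE d → ℂ) (ha : Measurable a) (hb : Measurable b) (A B : ℝ)
    (hA : ∀ x, ‖a x‖ ≤ A) (hB : ∀ x, ‖b x‖ ≤ B) (f : HH d) :
    mulOp a (mulOp b f) = mulOp (fun x => a x * b x) f := by
  apply Lp.ext
  filter_upwards [mulOp_ae a ha A hA (mulOp b f), mulOp_ae b hb B hB f,
    mulOp_ae (fun x => a x * b x) (ha.mul hb) (A * B) (fun x => by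
      rw [norm_mul]
      exact mul_le_mul (hA x) (hB x) (norm_nonneg _) ((norm_nonneg _).trans (hA x))) f] with y h1 h2 h3
  rw [h1, h2, h3, mul_assoc]

theorem muladd_29405 {d : ℕ} (a b : EE d → ℂ) (ha : Measurable a) (hb : Measurable b) (A B : ℝ)
    (hA : ∀ x, ‖a x‖ ≤ A) (hB : ∀ x, ‖b x‖ ≤ B) (f : HH d) :
    mulOp a f + mulOp b f = mulOp (fun x => a x + b x) f := by
  apply Lp.ext
  filter_upwards [mulOp_ae a ha A hA f, mulOp_ae b hb B hB f,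
    mulOp_ae (fun x => a x + b x) (ha.add hb) (A + B) (fun x => (norm_add_le _ _).trans
      (add_le_add (hA x) (hB x))) f, Lp.coeFn_add (mulOp a f) (mulOp b f)] with y h1 h2 h3 h4
  rw [h4, Pi.add_apply, h1, h2, h3, add_mul]

theorem mulsub_29405 {d : ℕ} (a b : EE d → ℂ) (ha : Measurable a) (hb : Measurable b) (A B : ℝ)
    (hA : ∀ x, ‖a x‖ ≤ A) (hB : ∀ x, ‖b x‖ ≤ B) (f : HH d) :
    mulOp a f - mulOp b f = mulOp (fun x => a x - b x) f := by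
  apply Lp.ext
  filter_upwards [mulOp_ae a ha A hA f, mulOp_ae b hb B hB f,
    mulOp_ae (fun x => a x - b x) (ha.sub hb) (A + B) (fun x => (norm_sub_le _ _).trans
      (add_le_add (hA x) (hB x))) f, Lp.coeFn_sub (mulOp a f) (mulOp b f)] with y h1 h2 h3 h4
  rw [h4, Pi.sub_apply, h1, h2, h3, sub_mul]

theorem fm_em_29405 {d : ℕ} (h : EE d) (m : EE d → ℂ) (hm : Measurable m) (C : ℝ)
    (hC : ∀ x, ‖m x‖ ≤ C) (f : HH d) :
    fm m (mulOp (em_29405 h) f) = mulOp (em_29405 h) (fm (fun ξ => m (ξ + h)) f) := by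
  apply (Lp.fourierTransformₗᵢ (EE d) ℂ).injective
  rw [four_em_29405]
  have h1 : ∀ (m : EE d → ℂ) (f : HH d), Lp.fourierTransformₗᵢ (EE d) ℂ (fm m f) =
      mulOp m (Lp.fourierTransformₗᵢ (EE d) ℂ f) := by
    intro m f
    exact (Lp.fourierTransformₗᵢ (EE d) ℂ).apply_symm_apply _
  rw [h1, h1, four_em_29405]
  generalize Lp.fourierTransformₗᵢ (EE d) ℂ f = F
  have hm' : Measurable (fun ξ => m (ξ + h)) := hm.comp (measurable_id.add_const h)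
  apply Lp.ext
  have h6 := (measurePreserving_sub_right (volume : Measure (EE d)) h).quasiMeasurePreserving.ae
        (mulOp_ae (fun ξ => m (ξ + h)) hm' C (fun x => hC _) F)
  filter_upwards [mulOp_ae m hm C hC (TT_29405 h F), TT_ae_29405 h F,
    TT_ae_29405 h (mulOp (fun ξ => m (ξ + h)) F), h6] with y h2 h3 h4 h5
  rw [h2, h3, h4, h5, sub_add_cancel]

theorem em_sub_29405 {d : ℕ} (h y : EE d) : ‖em_29405 h y - 1‖ ≤ 2 * Real.pi * (‖h‖ * ‖y‖) := by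
  unfold em_29405
  rw [mul_comm]
  refine (Real.norm_exp_I_mul_ofReal_sub_one_le).trans ?_
  rw [Real.norm_eq_abs, abs_mul, abs_of_pos (by positivity : (0:ℝ) < 2 * Real.pi)]
  exact mul_le_mul_of_nonneg_left (abs_real_inner_le_norm h y) (by positivity)

theorem em_add_29405 {d : ℕ} (x y : EE d) (hx : x ≠ 0) :
    ‖em_29405 ((1 / (2 * ‖x‖ ^ 2)) • x) y + 1‖ ≤
      2 * Real.pi * (‖((1 / (2 * ‖x‖ ^ 2)) • x : EE d)‖ * ‖y - x‖) := by
  have h1 : em_29405 ((1 / (2 * ‖x‖ ^ 2)) • x) y + 1 =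
      -(em_29405 ((1 / (2 * ‖x‖ ^ 2)) • x) (y - x) - 1) := by
    have hx0 : ‖x‖ ≠ 0 := norm_ne_zero_iff.mpr hx
    have h2 : em_29405 ((1 / (2 * ‖x‖ ^ 2)) • x) y =
        em_29405 ((1 / (2 * ‖x‖ ^ 2)) • x) (y - x) * Complex.exp (Real.pi * I) := by
      unfold em_29405
      rw [← Complex.exp_add]
      congr 1
      rw [inner_sub_right, real_inner_smul_left ((x : EE d)) x, real_inner_self_eq_norm_sq]
      rw [show 1 / (2 * ‖x‖ ^ 2) * ‖x‖ ^ 2 = 1 / 2 by field_simp]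
      push_cast
      ring
    rw [h2, Complex.exp_pi_mul_I]
    ring
  rw [h1, norm_neg]
  exact em_sub_29405 _ _

theorem sym_diff_29405 {d : ℕ} (z : ℂ) (c R : ℝ) (hc : 0 < c) (hz : c ≤ z.im) (hR : ‖z‖ ≤ R)
    (h ξ : EE d) (hh : ‖h‖ ≤ 1) :
    ‖sym z (ξ + h) - sym z ξ‖ ≤ ‖h‖ * ((1 + (R + 8 * Real.pi ^ 2) / c) / c) := by
  have hlow : ∀ t : ℝ, c ≤ ‖(t : ℂ) - z‖ := by
    intro t
    have h1 := Complex.abs_im_le_norm ((t : ℂ) - z)
    rw [Complex.sub_im, Complex.ofReal_im, zero_sub, abs_neg, abs_of_pos (by linarith)] at h1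
    linarith
  have hne : ∀ t : ℝ, (t : ℂ) - z ≠ 0 := fun t => norm_pos_iff.mp (by linarith [hlow t])
  unfold sym
  set X : ℝ := 4 * Real.pi ^ 2 * ‖ξ‖ ^ 2 with hX
  set X' : ℝ := 4 * Real.pi ^ 2 * ‖ξ + h‖ ^ 2 with hX'
  have h1 : ((X' : ℂ) - z)⁻¹ - ((X : ℂ) - z)⁻¹ = ((X : ℂ) - X') / (((X' : ℂ) - z) * ((X : ℂ) - z)) := by
    have := hne X
    have := hne X'
    field_simp
    ring
  rw [h1, norm_div, norm_mul, ← Complex.ofReal_sub, Complex.norm_real, Real.norm_eq_abs]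
  have hXX : |X - X'| ≤ ‖h‖ * (X + 8 * Real.pi ^ 2) := by
    have h2 : ‖ξ + h‖ ^ 2 = ‖ξ‖ ^ 2 + 2 * ⟪ξ, h⟫_ℝ + ‖h‖ ^ 2 := norm_add_sq_real ξ h
    have h3 : X - X' = - (4 * Real.pi ^ 2 * (2 * ⟪ξ, h⟫_ℝ + ‖h‖ ^ 2)) := by
      rw [hX, hX', h2]; ring
    rw [h3, abs_neg, abs_mul, abs_of_pos (by positivity : (0:ℝ) < 4 * Real.pi ^ 2)]
    have h4 : |2 * ⟪ξ, h⟫_ℝ + ‖h‖ ^ 2| ≤ ‖h‖ * (‖ξ‖ ^ 2 + 2) := by
      have h5 := abs_real_inner_le_norm ξ h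
      calc |2 * ⟪ξ, h⟫_ℝ + ‖h‖ ^ 2| ≤ |2 * ⟪ξ, h⟫_ℝ| + |‖h‖ ^ 2| := abs_add_le _ _
        _ = 2 * |⟪ξ, h⟫_ℝ| + ‖h‖ ^ 2 := by
          rw [abs_mul, abs_of_pos (by norm_num : (0:ℝ) < 2), abs_of_nonneg (sq_nonneg ‖h‖)]
        _ ≤ 2 * (‖ξ‖ * ‖h‖) + ‖h‖ ^ 2 := by linarith
        _ ≤ ‖h‖ * (‖ξ‖ ^ 2 + 2) := by
          nlinarith [mul_nonneg (norm_nonneg h) (sq_nonneg (‖ξ‖ - 1)), norm_nonneg h]
    calc 4 * Real.pi ^ 2 * |2 * ⟪ξ, h⟫_ℝ + ‖h‖ ^ 2|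
        ≤ 4 * Real.pi ^ 2 * (‖h‖ * (‖ξ‖ ^ 2 + 2)) := mul_le_mul_of_nonneg_left h4 (by positivity)
      _ = ‖h‖ * (X + 8 * Real.pi ^ 2) := by rw [hX]; ring
  have hX8 : X + 8 * Real.pi ^ 2 ≤ (1 + (R + 8 * Real.pi ^ 2) / c) * ‖(X : ℂ) - z‖ := by
    have h6 : X ≤ ‖(X : ℂ) - z‖ + ‖z‖ := by
      calc X ≤ ‖(X : ℂ)‖ := by rw [Complex.norm_real]; exact le_abs_self X
        _ = ‖((X : ℂ) - z) + z‖ := by rw [sub_add_cancel]
        _ ≤ _ := norm_add_le _ _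
    have h7 : R + 8 * Real.pi ^ 2 ≤ (R + 8 * Real.pi ^ 2) / c * ‖(X : ℂ) - z‖ := by
      have h8 : 0 ≤ R + 8 * Real.pi ^ 2 := by
        have := norm_nonneg z
        have : 0 ≤ 8 * Real.pi ^ 2 := by positivity
        linarith
      calc R + 8 * Real.pi ^ 2 = (R + 8 * Real.pi ^ 2) / c * c := by field_simp
        _ ≤ _ := mul_le_mul_of_nonneg_left (hlow X) (by positivity)
    rw [add_mul, one_mul]
    linarith
  have hp1 : 0 < ‖(X : ℂ) - z‖ := lt_of_lt_of_le hc (hlow X)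
  have hp2 : 0 < ‖(X' : ℂ) - z‖ := lt_of_lt_of_le hc (hlow X')
  have hR0 : 0 ≤ (1 + (R + 8 * Real.pi ^ 2) / c) := by
    have := norm_nonneg z
    have : 0 ≤ R := by linarith
    positivity
  rw [div_le_iff₀ (by positivity)]
  calc |X - X'| ≤ ‖h‖ * (X + 8 * Real.pi ^ 2) := hXX
    _ ≤ ‖h‖ * ((1 + (R + 8 * Real.pi ^ 2) / c) * ‖(X : ℂ) - z‖) :=
      mul_le_mul_of_nonneg_left hX8 (norm_nonneg _)
    _ = ‖h‖ * ((1 + (R + 8 * Real.pi ^ 2) / c) / c) * (c * ‖(X : ℂ) - z‖) := by field_simp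
    _ ≤ ‖h‖ * ((1 + (R + 8 * Real.pi ^ 2) / c) / c) * (‖(X' : ℂ) - z‖ * ‖(X : ℂ) - z‖) := by
      apply mul_le_mul_of_nonneg_left _ (by positivity)
      exact mul_le_mul_of_nonneg_right (hlow X') (norm_nonneg _)

/-! TARGET: prove the following -/

theorem cross_small (d : ℕ) (V₁ V₂ : EE d → ℂ) (h1 : BV V₁) (h2 : BV V₂) (K : Set ℂ)
    (hK : IsCompact K) (hK0 : ∀ z ∈ K, 0 < z.im) (τ : ℝ) (hτ : 0 < τ) :
    ∃ X : ℝ, ∀ x : EE d, X ≤ ‖x‖ → ∀ z ∈ K, ∀ f : HH d,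
      ‖mulOp (fun y => V₂ (y - x)) (Rz d z (mulOp V₁ f))‖ ≤ τ * ‖f‖ := by
  rcases K.eq_empty_or_nonempty with hKe | hKn
  · exact ⟨0, fun x _ z hz => by rw [hKe] at hz; exact absurd hz (Set.notMem_empty z)⟩
  obtain ⟨z₀, hz₀, hmin⟩ := hK.exists_isMinOn hKn Complex.continuous_im.continuousOn
  have hc0 : 0 < z₀.im := hK0 z₀ hz₀
  obtain ⟨R, hR⟩ := hK.isBounded.exists_norm_le
  obtain ⟨hV1m, ⟨B₁, hB₁⟩, ⟨r₁, hr₁⟩⟩ := h1
  obtain ⟨hV2m, ⟨B₂, hB₂⟩, ⟨r₂, hr₂⟩⟩ := h2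
  obtain ⟨c, hc, hcz⟩ : ∃ c : ℝ, 0 < c ∧ ∀ z ∈ K, c ≤ z.im := ⟨z₀.im, hc0, fun z hz => hmin hz⟩
  have hB1 : 0 ≤ B₁ := (norm_nonneg _).trans (hB₁ 0)
  have hB2 : 0 ≤ B₂ := (norm_nonneg _).trans (hB₂ 0)
  have hR0 : 0 ≤ R := (norm_nonneg _).trans (hR z₀ hz₀)
  obtain ⟨CK, hCK⟩ : ∃ CK : ℝ, CK = (1 + (R + 8 * Real.pi ^ 2) / c) / c := ⟨_, rfl⟩
  have hCK0 : 0 ≤ CK := by rw [hCK]; positivity
  obtain ⟨C₀, hC₀⟩ : ∃ C₀ : ℝ, C₀ = B₂ * (c⁻¹ * (2 * Real.pi * |r₁| * B₁)) +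
    (B₂ * (2 * Real.pi * |r₂|)) * (c⁻¹ * B₁) + B₂ * (CK * B₁) := ⟨_, rfl⟩
  have hC00 : 0 ≤ C₀ := by rw [hC₀]; positivity
  refine ⟨max 1 (C₀ / τ), ?_⟩
  intro x hx z hz f
  have hx1 : 1 ≤ ‖x‖ := (le_max_left _ _).trans hx
  have hx2 : C₀ / τ ≤ ‖x‖ := (le_max_right _ _).trans hx
  have hx0 : x ≠ 0 := by
    intro h; rw [h, norm_zero] at hx1; linarith
  have hxn : 0 < ‖x‖ := norm_pos_iff.mpr hx0
  obtain ⟨h, hh⟩ : ∃ h : EE d, h = (1 / (2 * ‖x‖ ^ 2)) • x := ⟨_, rfl⟩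
  have hhn : ‖h‖ = 1 / (2 * ‖x‖) := by
    rw [hh, norm_smul, Real.norm_of_nonneg (by positivity)]
    field_simp
  have hh1 : ‖h‖ ≤ 1 := by
    rw [hhn, div_le_one (by positivity)]
    linarith
  obtain ⟨hRz, hRzn⟩ := Rz_norm (d := d) z (hK0 z hz)
  have hzc : (z.im)⁻¹ ≤ c⁻¹ := inv_anti₀ hc (hcz z hz)
  have hRb : ∀ g : HH d, ‖Rz d z g‖ ≤ c⁻¹ * ‖g‖ := fun g =>
    ((Rz d z).le_opNorm g).trans (mul_le_mul_of_nonneg_right (hRzn.trans hzc) (norm_nonneg _))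
  have hV2x : Measurable (fun y => V₂ (y - x)) := hV2m.comp (measurable_id.sub_const x)
  have hB2x : ∀ y, ‖V₂ (y - x)‖ ≤ B₂ := fun y => hB₂ _
  have hem : Measurable (em_29405 h) := (em_cont_29405 h).measurable
  have hem1 : ∀ y, ‖em_29405 h y‖ ≤ 1 := fun y => (em_norm_29405 h y).le
  obtain ⟨Cs, hCs0, hCs⟩ := sym_bdd z (Or.inl (hK0 z hz))
  have hsm : Measurable (sym (d := d) z) := sym_meas z
  have hsm' : Measurable (fun ξ : EE d => sym z (ξ + h)) := hsm.comp (measurable_id.add_const h)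
  obtain ⟨u, hu⟩ : ∃ u, u = mulOp V₁ f := ⟨_, rfl⟩
  have hun : ‖u‖ ≤ B₁ * ‖f‖ := by rw [hu]; exact mulOp_norm V₁ hV1m B₁ hB₁ f
  rw [← hu]
  -- term 1
  have t1 : ‖u - mulOp (em_29405 h) u‖ ≤ ‖h‖ * (2 * Real.pi * |r₁| * B₁) * ‖f‖ := by
    have hemV : Measurable (fun y => em_29405 h y * V₁ y) := hem.mul hV1m
    rw [hu, mulmul_29405 _ _ hem hV1m 1 B₁ hem1 hB₁,
      mulsub_29405 V₁ (fun y => em_29405 h y * V₁ y) hV1m hemV B₁ (1 * B₁) hB₁ (fun y => by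
        rw [norm_mul]; exact mul_le_mul (hem1 y) (hB₁ y) (norm_nonneg _) zero_le_one)]
    have hmm : Measurable (fun y => V₁ y - em_29405 h y * V₁ y) := hV1m.sub hemV
    apply mulOp_norm _ hmm
    intro y
    by_cases hy : r₁ < ‖y‖
    · rw [hr₁ y hy, mul_zero, sub_zero, norm_zero]
      positivity
    · push Not at hy
      have h2 : V₁ y - em_29405 h y * V₁ y = - ((em_29405 h y - 1) * V₁ y) := by ring
      rw [h2, norm_neg, norm_mul]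
      have h3 := em_sub_29405 h y
      have h4 : ‖em_29405 h y - 1‖ ≤ 2 * Real.pi * (‖h‖ * |r₁|) := by
        refine h3.trans ?_
        have : ‖y‖ ≤ |r₁| := hy.trans (le_abs_self _)
        gcongr
      calc ‖em_29405 h y - 1‖ * ‖V₁ y‖ ≤ (2 * Real.pi * (‖h‖ * |r₁|)) * B₁ :=
            mul_le_mul h4 (hB₁ y) (norm_nonneg _) (by positivity)
        _ = _ := by ring
  -- term 2
  have t2 : ∀ w : HH d, ‖mulOp (fun y => V₂ (y - x)) (mulOp (em_29405 h) w) +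
      mulOp (fun y => V₂ (y - x)) w‖ ≤ ‖h‖ * (B₂ * (2 * Real.pi * |r₂|)) * ‖w‖ := by
    intro w
    have hVem : Measurable (fun y => V₂ (y - x) * em_29405 h y) := hV2x.mul hem
    rw [mulmul_29405 _ _ hV2x hem B₂ 1 hB2x hem1,
      muladd_29405 (fun y => V₂ (y - x) * em_29405 h y) (fun y => V₂ (y - x)) hVem hV2x (B₂ * 1) B₂
        (fun y => by
        rw [norm_mul]; exact mul_le_mul (hB2x y) (hem1 y) (norm_nonneg _) hB2) hB2x]
    have hmm : Measurable (fun y => V₂ (y - x) * em_29405 h y + V₂ (y - x)) := hVem.add hV2x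
    apply mulOp_norm _ hmm
    intro y
    by_cases hy : r₂ < ‖y - x‖
    · rw [hr₂ (y - x) hy, zero_mul, zero_add, norm_zero]
      positivity
    · push Not at hy
      have h2 : V₂ (y - x) * em_29405 h y + V₂ (y - x) = V₂ (y - x) * (em_29405 h y + 1) := by ring
      rw [h2, norm_mul]
      have h3 := em_add_29405 x y hx0
      rw [← hh] at h3
      have h4 : ‖em_29405 h y + 1‖ ≤ 2 * Real.pi * (‖h‖ * |r₂|) := by
        refine h3.trans ?_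
        have : ‖y - x‖ ≤ |r₂| := hy.trans (le_abs_self _)
        gcongr
      calc ‖V₂ (y - x)‖ * ‖em_29405 h y + 1‖ ≤ B₂ * (2 * Real.pi * (‖h‖ * |r₂|)) :=
            mul_le_mul (hB2x y) h4 (norm_nonneg _) hB2
        _ = _ := by ring
  -- term 3
  have t3 : ‖fm (fun ξ : EE d => sym z (ξ + h)) u - fm (sym z) u‖ ≤ ‖h‖ * CK * ‖u‖ := by
    have h2 := fm_sub (d := d) (fun ξ : EE d => sym z (ξ + h)) (sym z) hsm' hsm Cs
      (fun ξ => hCs d _) (fun ξ => hCs d _) (‖h‖ * CK) (fun ξ => by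
        rw [hCK]
        exact sym_diff_29405 z c R hc (hcz z hz) (hR z hz) h ξ hh1)
    rw [max_eq_left (by positivity)] at h2
    have h3 := (fm (fun ξ : EE d => sym z (ξ + h)) - fm (sym z)).le_opNorm u
    rw [ContinuousLinearMap.sub_apply] at h3
    exact h3.trans (mul_le_mul_of_nonneg_right h2 (norm_nonneg _))
  have hcomm : Rz d z (mulOp (em_29405 h) u) =
      mulOp (em_29405 h) (fm (fun ξ : EE d => sym z (ξ + h)) u) := by
    rw [hRz]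
    exact fm_em_29405 h (sym z) hsm Cs (fun ξ => hCs d ξ) u
  have key : (2 : ℂ) • mulOp (fun y => V₂ (y - x)) (Rz d z u) =
      mulOp (fun y => V₂ (y - x)) (Rz d z (u - mulOp (em_29405 h) u)) +
      (mulOp (fun y => V₂ (y - x)) (mulOp (em_29405 h) (Rz d z u)) +
        mulOp (fun y => V₂ (y - x)) (Rz d z u)) +
      mulOp (fun y => V₂ (y - x)) (mulOp (em_29405 h)
        (fm (fun ξ : EE d => sym z (ξ + h)) u - fm (sym z) u)) := by
    rw [map_sub, map_sub, map_sub, map_sub, hcomm, ← hRz, two_smul]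
    abel
  have hfin : ‖(2 : ℂ) • mulOp (fun y => V₂ (y - x)) (Rz d z u)‖ ≤ ‖h‖ * C₀ * ‖f‖ := by
    rw [key]
    have e1 : ‖mulOp (fun y => V₂ (y - x)) (Rz d z (u - mulOp (em_29405 h) u))‖ ≤
        B₂ * (c⁻¹ * (‖h‖ * (2 * Real.pi * |r₁| * B₁) * ‖f‖)) := by
      refine (mulOp_norm _ hV2x B₂ hB2x _).trans (mul_le_mul_of_nonneg_left ?_ hB2)
      exact (hRb _).trans (mul_le_mul_of_nonneg_left t1 (by positivity))
    have e2 := t2 (Rz d z u)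
    have e2' : ‖h‖ * (B₂ * (2 * Real.pi * |r₂|)) * ‖Rz d z u‖ ≤
        ‖h‖ * (B₂ * (2 * Real.pi * |r₂|)) * (c⁻¹ * (B₁ * ‖f‖)) := by
      apply mul_le_mul_of_nonneg_left _ (by positivity)
      exact (hRb u).trans (mul_le_mul_of_nonneg_left hun (by positivity))
    have e3 : ‖mulOp (fun y => V₂ (y - x)) (mulOp (em_29405 h)
        (fm (fun ξ : EE d => sym z (ξ + h)) u - fm (sym z) u))‖ ≤ B₂ * (‖h‖ * CK * (B₁ * ‖f‖)) := by
      refine (mulOp_norm _ hV2x B₂ hB2x _).trans (mul_le_mul_of_nonneg_left ?_ hB2)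
      refine (mulOp_norm _ hem 1 hem1 _).trans ?_
      rw [one_mul]
      exact t3.trans (mul_le_mul_of_nonneg_left hun (by positivity))
    calc _ ≤ _ + _ + _ := (norm_add_le _ _).trans (add_le_add_left (norm_add_le _ _) _)
      _ ≤ B₂ * (c⁻¹ * (‖h‖ * (2 * Real.pi * |r₁| * B₁) * ‖f‖)) +
          ‖h‖ * (B₂ * (2 * Real.pi * |r₂|)) * (c⁻¹ * (B₁ * ‖f‖)) +
          B₂ * (‖h‖ * CK * (B₁ * ‖f‖)) := add_le_add (add_le_add e1 (e2.trans e2')) e3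
      _ = ‖h‖ * C₀ * ‖f‖ := by rw [hC₀]; ring
  rw [norm_smul] at hfin
  have h2n : ‖(2 : ℂ)‖ = 2 := by norm_num
  rw [h2n, hhn] at hfin
  have hC0x : C₀ ≤ τ * ‖x‖ := by
    rw [div_le_iff₀ hτ] at hx2
    linarith
  have h5 : 1 / (2 * ‖x‖) * C₀ * ‖f‖ ≤ τ * ‖f‖ := by
    apply mul_le_mul_of_nonneg_right _ (norm_nonneg _)
    rw [one_div, ← div_eq_inv_mul, div_le_iff₀ (by positivity)]
    nlinarith [mul_pos hτ hxn]
  have h6 := norm_nonneg (mulOp (fun y => V₂ (y - x)) (Rz d z u))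
  linarith


end

end KRS

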