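import Pool.Agent.H631.KR.Defs
import Pool.Agent.H631.KR.B01
import Pool.Agent.H631.KR.B02
import Pool.Agent.H631.KR.B04
import Pool.Agent.H631.KR.B06
import Pool.Agent.H631.KR.B13
import Pool.Agent.H631.KR.B14
import Pool.Agent.H631.KR.B15
import Pool.Agent.H631.KR.B17
import Pool.Agent.H631.KR.K00

open MeasureTheory Filter Topology ENNReal Complex
open scoped Laplacian FourierTransform InnerProductSpace

namespace KRS

noncomputable section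

/-! TARGET: prove the following -/

theorem AA_apply_far (d : ℕ) (g : ℝ) (V : EE d → ℂ) (z : ℂ) (f : HH d) :
    AA d g V z f = f + (g : ℂ) • mulOp V (Rz d z f) := rfl

theorem AA_diff_far (d : ℕ) (g : ℝ) (V : EE d → ℂ) :
    DifferentiableOn ℂ (fun z => AA d g V z) {z : ℂ | 0 < z.im} := by
  have h : DifferentiableOn ℂ (fun z => mulOp V ∘L Rz d z) {z : ℂ | 0 < z.im} :=
    (differentiableOn_const _).clm_comp (Rz_diff d)
  exact (h.const_smul (g : ℂ)).const_add 1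

theorem AA_punct_far (d : ℕ) (g : ℝ) (V : EE d → ℂ) (hV : BV V) (z : ℂ) (hz : 0 < z.im) :
    ∀ᶠ w in 𝓝[≠] z, IsUnit (AA d g V w) := by
  obtain ⟨B, hB⟩ := hV.2.1
  have hm := hV.1
  have hB0 : 0 ≤ B := le_trans (norm_nonneg _) (hB 0)
  have hgB : 0 ≤ |g| * B := mul_nonneg (abs_nonneg _) hB0
  obtain ⟨y0, hy0⟩ : ∃ y0 : ℝ, y0 = 2 * (|g| * B) + 1 := ⟨_, rfl⟩
  have hy0p : 0 < y0 := by rw [hy0]; linarith
  have hz₀ : ((y0 : ℂ) * I).im = y0 := by simp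
  have hz₀' : 0 < ((y0 : ℂ) * I).im := by rw [hz₀]; exact hy0p
  have hunit : IsUnit (AA d g V ((y0 : ℂ) * I)) := by
    refine ((AA_unit d g V hV _ hz₀').2 2 ?_).1
    intro f
    have h1 : ‖Rz d ((y0 : ℂ) * I) f‖ ≤ y0⁻¹ * ‖f‖ := by
      refine (ContinuousLinearMap.le_opNorm _ _).trans ?_
      refine mul_le_mul_of_nonneg_right ?_ (norm_nonneg _)
      have := (Rz_norm (d := d) ((y0 : ℂ) * I) hz₀').2
      rwa [hz₀] at this
    have h2 : ‖mulOp V (Rz d ((y0 : ℂ) * I) f)‖ ≤ B * (y0⁻¹ * ‖f‖) :=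
      (mulOp_norm V hm B hB _).trans (mul_le_mul_of_nonneg_left h1 hB0)
    have h3 : ‖(g : ℂ) • mulOp V (Rz d ((y0 : ℂ) * I) f)‖ ≤ 1 / 2 * ‖f‖ := by
      rw [norm_smul, Complex.norm_real, Real.norm_eq_abs]
      refine (mul_le_mul_of_nonneg_left h2 (abs_nonneg _)).trans ?_
      have h4 : |g| * (B * (y0⁻¹ * ‖f‖)) = (|g| * B * y0⁻¹) * ‖f‖ := by ring
      rw [h4]
      refine mul_le_mul_of_nonneg_right ?_ (norm_nonneg _)
      rw [← div_eq_mul_inv, div_le_iff₀ hy0p, hy0]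
      linarith
    have h5 : f = AA d g V ((y0 : ℂ) * I) f - (g : ℂ) • mulOp V (Rz d ((y0 : ℂ) * I) f) := by
      rw [AA_apply_far]; abel
    have h6 : ‖f‖ ≤ ‖AA d g V ((y0 : ℂ) * I) f‖ +
        ‖(g : ℂ) • mulOp V (Rz d ((y0 : ℂ) * I) f)‖ := by
      calc ‖f‖ = ‖AA d g V ((y0 : ℂ) * I) f - (g : ℂ) • mulOp V (Rz d ((y0 : ℂ) * I) f)‖ :=
            congrArg norm h5
        _ ≤ _ := norm_sub_le _ _
    linarith
  have hdiff : DifferentiableOn ℂ (fun w => (g : ℂ) • (mulOp V ∘L Rz d w))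
      {z : ℂ | 0 < z.im} := by
    have h : DifferentiableOn ℂ (fun z => mulOp V ∘L Rz d z) {z : ℂ | 0 < z.im} :=
      (differentiableOn_const _).clm_comp (Rz_diff d)
    exact h.const_smul (g : ℂ)
  exact an_fred (fun w => (g : ℂ) • (mulOp V ∘L Rz d w)) {z : ℂ | 0 < z.im}
    (isOpen_lt continuous_const Complex.continuous_im)
    (convex_halfSpace_im_gt 0).isPreconnected hdiff
    (fun w hw => (VR_compact d V hV w hw).1.smul (g : ℂ)) _ hz₀' hunit z hz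

theorem mulOp_add_far {d : ℕ} (m m' : EE d → ℂ) (hm : Measurable m) (hm' : Measurable m')
    (C C' : ℝ) (hC : ∀ x, ‖m x‖ ≤ C) (hC' : ∀ x, ‖m' x‖ ≤ C') (f : HH d) :
    mulOp (fun y => m y + m' y) f = mulOp m f + mulOp m' f := by
  apply Lp.ext
  have hs : ∀ x, ‖m x + m' x‖ ≤ C + C' := fun x =>
    (norm_add_le _ _).trans (add_le_add (hC x) (hC' x))
  filter_upwards [mulOp_ae (fun y => m y + m' y) (hm.add hm') (C + C') hs f,
    mulOp_ae m hm C hC f, mulOp_ae m' hm' C' hC' f,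
    Lp.coeFn_add (mulOp m f) (mulOp m' f)] with y h1 h2 h3 h4
  rw [h1, h4, Pi.add_apply, h2, h3]
  ring

set_option maxHeartbeats 4000000 in
theorem far_local (d : ℕ) (V₁ V₂ : EE d → ℂ) (h1 : BV V₁) (h2 : BV V₂)
    (Q : Set ℂ) (hQ : IsOpen Q) (hQ0 : ∀ z ∈ Q, 0 < z.im) (gs : ℝ)
    (h : ∃ z ∈ Q, ¬ IsUnit (AA d gs V₁ z)) :
    ∃ δ : ℝ, 0 < δ ∧ ∃ X : ℝ, ∀ x : EE d, X ≤ ‖x‖ → ∀ g : ℝ, |g - gs| < δ → ∃ z ∈ Q,
      ¬ IsUnit (AA d g (fun y => V₁ y + V₂ (y - x)) z) := by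
  obtain ⟨zs, hzsQ, hzs⟩ := h
  have hzim : 0 < zs.im := hQ0 zs hzsQ
  obtain ⟨v, hv, hAv⟩ := (AA_unit d gs V₁ h1 zs hzim).1 hzs
  obtain ⟨B1, hB1⟩ := h1.2.1
  obtain ⟨B2, hB2⟩ := h2.2.1
  have hB10 : 0 ≤ B1 := le_trans (norm_nonneg _) (hB1 0)
  have hB20 : 0 ≤ B2 := le_trans (norm_nonneg _) (hB2 0)
  have hp := (AA_punct_far d gs V₁ h1 zs hzim).and (AA_punct_far d gs V₂ h2 zs hzim)
  rw [eventually_nhdsWithin_iff, Metric.eventually_nhds_iff] at hp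
  obtain ⟨ε, hε, hp⟩ := hp
  obtain ⟨ε', hε', hp'⟩ := Metric.isOpen_iff.1 hQ zs hzsQ
  obtain ⟨r, hr, hrε, hrε', hrim⟩ : ∃ r : ℝ, 0 < r ∧ r < ε ∧ r < ε' ∧ r ≤ zs.im / 2 := by
    refine ⟨min (min (ε / 2) (ε' / 2)) (zs.im / 2), ?_, ?_, ?_, ?_⟩
    · exact lt_min (lt_min (by linarith) (by linarith)) (by linarith)
    · exact lt_of_le_of_lt ((min_le_left _ _).trans (min_le_left _ _)) (by linarith)
    · exact lt_of_le_of_lt ((min_le_left _ _).trans (min_le_right _ _)) (by linarith)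
    · exact min_le_right _ _
  have hcQ : Metric.closedBall zs r ⊆ Q := fun w hw =>
    hp' (Metric.mem_ball.2 (lt_of_le_of_lt (Metric.mem_closedBall.1 hw) hrε'))
  have hcU : Metric.closedBall zs r ⊆ {z : ℂ | 0 < z.im} := fun w hw => hQ0 w (hcQ hw)
  have hsph : ∀ w ∈ Metric.sphere zs r, IsUnit (AA d gs V₁ w) ∧ IsUnit (AA d gs V₂ w) := by
    intro w hw
    have hw' : dist w zs = r := hw
    refine hp (by rw [hw']; exact hrε) ?_
    intro hws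
    rw [Set.mem_singleton_iff] at hws
    rw [hws, dist_self] at hw'
    linarith
  obtain ⟨M, hM0, hM⟩ : ∃ M : ℝ, 0 < M ∧ ∀ z ∈ Metric.closedBall zs r, ‖Rz d z‖ ≤ M := by
    refine ⟨2 / zs.im, by positivity, ?_⟩
    intro z hz
    refine ((Rz_norm z (hcU hz)).2).trans ?_
    have h3 : |z.im - zs.im| ≤ r := by
      have h4 : |(z - zs).im| ≤ ‖z - zs‖ := Complex.abs_im_le_norm _
      rw [Complex.sub_im] at h4
      exact h4.trans (by rw [← dist_eq_norm]; exact hz)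
    have h5 : zs.im / 2 ≤ z.im := by
      have := (abs_le.1 h3).1
      linarith
    have h6 : (2 : ℝ) / zs.im = (zs.im / 2)⁻¹ := by rw [inv_div]
    rw [h6]
    exact inv_anti₀ (by linarith) h5
  obtain ⟨τ, hτ, hglue⟩ := glue zs r hr (fun z => AA d gs V₁ z) (fun z => AA d gs V₂ z)
    ((AA_diff_far d gs V₁).continuousOn.mono hcU) ((AA_diff_far d gs V₂).continuousOn.mono hcU)
    (fun z hz => (hsph z hz).1) (fun z hz => (hsph z hz).2) v hv hAv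
  obtain ⟨τ', hτ'⟩ : ∃ τ' : ℝ, τ' = τ / (2 * (gs ^ 2 * M + 1)) := ⟨_, rfl⟩
  have hτ'0 : 0 < τ' := by rw [hτ']; positivity
  obtain ⟨δ, hδ⟩ : ∃ δ : ℝ, δ = τ / (2 * ((B1 + B2) * M + 1)) := ⟨_, rfl⟩
  have hδ0 : 0 < δ := by rw [hδ]; positivity
  obtain ⟨X, hX⟩ := cross_small d V₁ V₂ h1 h2 (Metric.closedBall zs r)
    (isCompact_closedBall zs r) hcU τ' hτ'0
  refine ⟨δ, hδ0, X, ?_⟩
  intro x hx g hg
  obtain ⟨T, -, hTR, hTV, -⟩ := trans_exists d x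
  have hmV2 : Measurable (fun y : EE d => V₂ (y - x)) := h2.1.comp (measurable_id.sub_const x)
  obtain ⟨z, hz, hnu⟩ := hglue T (fun z => AA d g (fun y => V₁ y + V₂ (y - x)) z)
    (DifferentiableOn.diffContOnCl ((AA_diff_far d g (fun y => V₁ y + V₂ (y - x))).mono
      (Metric.closure_ball_subset_closedBall.trans hcU))) (by
    intro z hz f
    have hzU : 0 < z.im := hcU hz
    have hRf : ‖Rz d z f‖ ≤ M * ‖f‖ :=
      (ContinuousLinearMap.le_opNorm _ _).trans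
        (mul_le_mul_of_nonneg_right (hM z hz) (norm_nonneg _))
    have hT2 : T (AA d gs V₂ z (T.symm (AA d gs V₁ z f))) =
        AA d gs V₁ z f + (gs : ℂ) • mulOp (fun y => V₂ (y - x)) (Rz d z (AA d gs V₁ z f)) := by
      rw [AA_apply_far d gs V₂, map_add, map_smul, T.apply_symm_apply, hTV V₂ h2, hTR z hzU,
        T.apply_symm_apply]
    change ‖AA d g (fun y => V₁ y + V₂ (y - x)) z f -
      T (AA d gs V₂ z (T.symm (AA d gs V₁ z f)))‖ ≤ τ * ‖f‖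
    have hdec : AA d g (fun y => V₁ y + V₂ (y - x)) z f -
        T (AA d gs V₂ z (T.symm (AA d gs V₁ z f))) =
        ((g : ℂ) - (gs : ℂ)) • (mulOp V₁ (Rz d z f) + mulOp (fun y => V₂ (y - x)) (Rz d z f)) -
        ((gs : ℂ) ^ 2) • mulOp (fun y => V₂ (y - x)) (Rz d z (mulOp V₁ (Rz d z f))) := by
      rw [hT2, AA_apply_far d g, AA_apply_far d gs V₁,
        mulOp_add_far V₁ (fun y => V₂ (y - x)) h1.1 hmV2 B1 B2 hB1 (fun y => hB2 _)]
      simp only [map_add, map_smul, smul_add, sub_smul, pow_two, mul_smul]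
      abel
    rw [hdec]
    refine (norm_sub_le _ _).trans ?_
    have e1 : ‖((g : ℂ) - (gs : ℂ)) •
        (mulOp V₁ (Rz d z f) + mulOp (fun y => V₂ (y - x)) (Rz d z f))‖ ≤ τ / 2 * ‖f‖ := by
      rw [norm_smul]
      have e2 : ‖(g : ℂ) - (gs : ℂ)‖ ≤ δ := by
        rw [← Complex.ofReal_sub, Complex.norm_real, Real.norm_eq_abs]
        exact hg.le
      have e3 : ‖mulOp V₁ (Rz d z f) + mulOp (fun y => V₂ (y - x)) (Rz d z f)‖ ≤
          (B1 + B2) * (M * ‖f‖) := by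
        refine (norm_add_le _ _).trans ?_
        rw [add_mul]
        refine add_le_add ?_ ?_
        · exact (mulOp_norm V₁ h1.1 B1 hB1 _).trans (mul_le_mul_of_nonneg_left hRf hB10)
        · exact (mulOp_norm _ hmV2 B2 (fun y => hB2 _) _).trans
            (mul_le_mul_of_nonneg_left hRf hB20)
      refine (mul_le_mul e2 e3 (norm_nonneg _) hδ0.le).trans ?_
      have e4 : δ * ((B1 + B2) * (M * ‖f‖)) = (δ * ((B1 + B2) * M)) * ‖f‖ := by ring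
      rw [e4]
      refine mul_le_mul_of_nonneg_right ?_ (norm_nonneg _)
      have e5 : 0 ≤ (B1 + B2) * M := by positivity
      have e6 : δ * (2 * ((B1 + B2) * M + 1)) = τ := by
        rw [hδ]; field_simp
      nlinarith
    have e7 : ‖((gs : ℂ) ^ 2) • mulOp (fun y => V₂ (y - x)) (Rz d z (mulOp V₁ (Rz d z f)))‖ ≤
        τ / 2 * ‖f‖ := by
      rw [norm_smul, norm_pow, Complex.norm_real, Real.norm_eq_abs, sq_abs]
      have e8 := hX x hx z hz (Rz d z f)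
      have e9 : ‖mulOp (fun y => V₂ (y - x)) (Rz d z (mulOp V₁ (Rz d z f)))‖ ≤
          τ' * (M * ‖f‖) := e8.trans (mul_le_mul_of_nonneg_left hRf hτ'0.le)
      refine (mul_le_mul_of_nonneg_left e9 (sq_nonneg gs)).trans ?_
      have e10 : gs ^ 2 * (τ' * (M * ‖f‖)) = (τ' * (gs ^ 2 * M)) * ‖f‖ := by ring
      rw [e10]
      refine mul_le_mul_of_nonneg_right ?_ (norm_nonneg _)
      have e11 : τ' * (2 * (gs ^ 2 * M + 1)) = τ := by
        rw [hτ']; field_simp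
      nlinarith
    linarith)
  exact ⟨z, hcQ hz, hnu⟩

theorem far (d : ℕ) (V₁ V₂ : EE d → ℂ) (h1 : BV V₁) (h2 : BV V₂) (a b : ℝ) (ha : 0 < a)
    (Q : Set ℂ) (hQ : IsOpen Q) (hQ0 : ∀ z ∈ Q, 0 < z.im)
    (h : ∀ g ∈ Set.Icc a b, ∃ z ∈ Q, ¬ IsUnit (AA d g V₁ z)) :
    ∃ X : ℝ, ∀ x : EE d, X ≤ ‖x‖ → ∀ g ∈ Set.Icc a b, ∃ z ∈ Q,
      ¬ IsUnit (AA d g (fun y => V₁ y + V₂ (y - x)) z) := by
  refine isCompact_Icc.induction_on (p := fun s => ∃ X : ℝ, ∀ x : EE d, X ≤ ‖x‖ → ∀ g ∈ s,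
    ∃ z ∈ Q, ¬ IsUnit (AA d g (fun y => V₁ y + V₂ (y - x)) z)) ?_ ?_ ?_ ?_
  · exact ⟨0, fun x _ g hg => absurd hg (Set.notMem_empty g)⟩
  · rintro s t hst ⟨X, hX⟩
    exact ⟨X, fun x hx g hg => hX x hx g (hst hg)⟩
  · rintro s t ⟨X, hX⟩ ⟨Y, hY⟩
    refine ⟨max X Y, fun x hx g hg => ?_⟩
    rcases hg with hg | hg
    · exact hX x ((le_max_left _ _).trans hx) g hg
    · exact hY x ((le_max_right _ _).trans hx) g hg
  · intro gs hgs
    obtain ⟨δ, hδ, X, hX⟩ := far_local d V₁ V₂ h1 h2 Q hQ hQ0 gs (h gs hgs)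
    refine ⟨Metric.ball gs δ, mem_nhdsWithin_of_mem_nhds (Metric.ball_mem_nhds gs hδ), X, ?_⟩
    intro x hx g hg
    refine hX x hx g ?_
    rw [← Real.dist_eq]
    exact hg

end

end KRS
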