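import Pool.Agent.H631.KR.Defs
import Pool.Agent.H631.KR.B15
import Pool.Agent.H631.KR.B18
import Pool.Agent.H631.KR.K00

open MeasureTheory Filter Topology ENNReal Complex
open scoped Laplacian FourierTransform InnerProductSpace

namespace KRS

noncomputable section

/-! TARGET: prove the following -/

theorem pos_seq {α : Type} (P : ℕ → (ℕ → α) → Prop)
    (dep : ∀ n f f', (∀ m ≤ n, f m = f' m) → P n f → P n f') (h0 : ∃ f, P 0 f)
    (hs : ∀ n f, P n f → ∃ y, P (n + 1) (Function.update f (n + 1) y)) : ∃ f, ∀ n, P n f := by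
  classical
  obtain ⟨f0, hf0⟩ := h0
  let step : (n : ℕ) → {f // P n f} → {f // P (n + 1) f} := fun n f =>
    ⟨Function.update f.1 (n + 1) (hs n f.1 f.2).choose, (hs n f.1 f.2).choose_spec⟩
  let S : (n : ℕ) → {f // P n f} := fun n => Nat.rec ⟨f0, hf0⟩ step n
  have hS : ∀ n, S (n + 1) = step n (S n) := fun n => rfl
  have hstab : ∀ m l, (S (m + l)).1 m = (S m).1 m := by
    intro m l
    induction l with
    | zero => rfl
    | succ l ih =>
      rw [← ih]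
      have e : S (m + (l + 1)) = step (m + l) (S (m + l)) := hS (m + l)
      rw [e]
      show Function.update (S (m + l)).1 (m + l + 1) _ m = (S (m + l)).1 m
      rw [Function.update_of_ne (by omega)]
  refine ⟨fun n => (S n).1 n, fun n => dep n (S n).1 _ (fun m hm => ?_) (S n).2⟩
  obtain ⟨l, rfl⟩ := Nat.exists_eq_add_of_le hm
  exact hstab m l

theorem pos_bv_add {d : ℕ} {V W : EE d → ℂ} (hV : BV V) (hW : BV W) :
    BV (fun y => V y + W y) := by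
  obtain ⟨m1, ⟨B1, hB1⟩, ⟨r1, hr1⟩⟩ := hV
  obtain ⟨m2, ⟨B2, hB2⟩, ⟨r2, hr2⟩⟩ := hW
  refine ⟨m1.add m2, ⟨B1 + B2, fun x => ?_⟩, ⟨max r1 r2, fun x hx => ?_⟩⟩
  · exact (norm_add_le _ _).trans (add_le_add (hB1 x) (hB2 x))
  · show V x + W x = 0
    rw [hr1 x (lt_of_le_of_lt (le_max_left _ _) hx), hr2 x (lt_of_le_of_lt (le_max_right _ _) hx),
      add_zero]

theorem pos_bv_trans {d : ℕ} {V : EE d → ℂ} (hV : BV V) (x : EE d) :
    BV (fun y => V (y - x)) := by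
  obtain ⟨m1, ⟨B1, hB1⟩, ⟨r1, hr1⟩⟩ := hV
  refine ⟨m1.comp (measurable_id.sub_const x), ⟨B1, fun y => hB1 _⟩, ⟨r1 + ‖x‖, fun y hy => ?_⟩⟩
  refine hr1 _ ?_
  have := norm_sub_norm_le y x
  linarith

theorem pos_bv_sum {d : ℕ} (v : ℕ → EE d → ℂ) (hv : ∀ k, BV (v k)) (x : ℕ → EE d) (n : ℕ) :
    BV (fun y => ∑ j ∈ Finset.range n, v j (y - x j)) := by
  induction n with
  | zero =>
    refine ⟨?_, ⟨0, fun y => ?_⟩, ⟨0, fun y _ => ?_⟩⟩
    · simp only [Finset.range_zero, Finset.sum_empty]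
      exact measurable_const
    · simp
    · simp
  | succ n ih =>
    simp only [Finset.sum_range_succ]
    exact pos_bv_add ih (pos_bv_trans (hv n) (x n))

/-- window property -/
def posW (d : ℕ) (a b : ℕ → ℝ) (Q : ℕ → Set ℂ) (k : ℕ) (V : EE d → ℂ) : Prop :=
  ∀ g ∈ Set.Icc (a k) (b k), ∃ z ∈ Q k, ¬ IsUnit (AA d g V z)

theorem pos_right (d : ℕ) (a b : ℕ → ℝ) (ha : ∀ k, 0 < a k) (Q : ℕ → Set ℂ)
    (hQ : ∀ k, IsOpen (Q k)) (hQ0 : ∀ k, ∀ z ∈ Q k, 0 < z.im) (k : ℕ) (V W : EE d → ℂ)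
    (hV : BV V) (hW : BV W) (h : posW d a b Q k V) :
    ∃ X : ℝ, ∀ p : EE d, X ≤ ‖p‖ → posW d a b Q k (fun y => V y + W (y - p)) :=
  far d V W hV hW (a k) (b k) (ha k) (Q k) (hQ k) (hQ0 k) h

theorem pos_left (d : ℕ) (a b : ℕ → ℝ) (ha : ∀ k, 0 < a k) (Q : ℕ → Set ℂ)
    (hQ : ∀ k, IsOpen (Q k)) (hQ0 : ∀ k, ∀ z ∈ Q k, 0 < z.im) (k : ℕ) (V W : EE d → ℂ)
    (hV : BV V) (hW : BV W) (h : posW d a b Q k W) :
    ∃ X : ℝ, ∀ p : EE d, X ≤ ‖p‖ → posW d a b Q k (fun y => V y + W (y - p)) := by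
  obtain ⟨X, hX⟩ := pos_right d a b ha Q hQ hQ0 k W V hW hV h
  refine ⟨X, fun p hp g hg => ?_⟩
  obtain ⟨z, hz, hu⟩ := hX (-p) (by rw [norm_neg]; exact hp) g hg
  refine ⟨z, hz, fun hu2 => hu ?_⟩
  have hVB : BV (fun y => W y + V (y - (-p))) := pos_bv_add hW (pos_bv_trans hV (-p))
  refine (sing_trans d g _ hVB p z (hQ0 k z hz)).1 ?_
  have e : (fun y => V y + W (y - p)) = fun y => W (y - p) + V (y - p - (-p)) := by
    funext y
    rw [sub_neg_eq_add, sub_add_cancel, add_comm]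
  exact e ▸ hu2

theorem pos_step (d : ℕ) (hd : 1 ≤ d) (v : ℕ → EE d → ℂ) (hv : ∀ k, BV (v k)) (a b : ℕ → ℝ)
    (ha : ∀ k, 0 < a k) (Q : ℕ → Set ℂ) (hQ : ∀ k, IsOpen (Q k)) (hQ0 : ∀ k, ∀ z ∈ Q k, 0 < z.im)
    (h : ∀ k, posW d a b Q k (v k)) (n : ℕ) (S : EE d → ℂ) (hS : BV S)
    (hP : ∀ k ≤ n, posW d a b Q k S) :
    ∃ p : EE d, ∀ k ≤ n + 1, posW d a b Q k (fun y => S y + v (n + 1) (y - p)) := by
  have hX : ∀ k, ∃ X : ℝ, k ≤ n + 1 → ∀ p : EE d, X ≤ ‖p‖ →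
      posW d a b Q k (fun y => S y + v (n + 1) (y - p)) := by
    intro k
    by_cases hk : k ≤ n
    · obtain ⟨X, hX⟩ := pos_right d a b ha Q hQ hQ0 k S (v (n + 1)) hS (hv (n + 1)) (hP k hk)
      exact ⟨X, fun _ => hX⟩
    · by_cases hk' : k = n + 1
      · subst hk'
        obtain ⟨X, hX⟩ := pos_left d a b ha Q hQ hQ0 (n + 1) S (v (n + 1)) hS (hv (n + 1))
          (h (n + 1))
        exact ⟨X, fun _ => hX⟩
      · exact ⟨0, fun h1 => by omega⟩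
  choose X hX using hX
  obtain ⟨M, hM⟩ := Finset.exists_le ((Finset.range (n + 2)).image X)
  refine ⟨EuclideanSpace.single ⟨0, hd⟩ M, fun k hk => hX k hk _ ?_⟩
  have h1 : X k ≤ M := hM _ (Finset.mem_image_of_mem X (Finset.mem_range.2 (by omega)))
  have h2 : ‖(EuclideanSpace.single (⟨0, hd⟩ : Fin d) M : EE d)‖ = |M| := by
    rw [PiLp.norm_single, Real.norm_eq_abs]
  rw [h2]
  exact h1.trans (le_abs_self M)

theorem positions (d : ℕ) (hd : 1 ≤ d) (v : ℕ → EE d → ℂ) (hv : ∀ k, BV (v k)) (a b : ℕ → ℝ)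
    (ha : ∀ k, 0 < a k) (Q : ℕ → Set ℂ) (hQ : ∀ k, IsOpen (Q k)) (hQ0 : ∀ k, ∀ z ∈ Q k, 0 < z.im)
    (h : ∀ k, ∀ g ∈ Set.Icc (a k) (b k), ∃ z ∈ Q k, ¬ IsUnit (AA d g (v k) z)) :
    ∃ x : ℕ → EE d, ∀ n k : ℕ, k ≤ n → ∀ g ∈ Set.Icc (a k) (b k), ∃ z ∈ Q k,
      ¬ IsUnit (AA d g (fun y => ∑ j ∈ Finset.range (n + 1), v j (y - x j)) z) := by
  refine pos_seq (fun n x => ∀ k : ℕ, k ≤ n →
      posW d a b Q k (fun y => ∑ j ∈ Finset.range (n + 1), v j (y - x j))) ?_ ?_ ?_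
  · intro n f f' hff hP k hk
    have e : (fun y => ∑ j ∈ Finset.range (n + 1), v j (y - f j)) =
        fun y => ∑ j ∈ Finset.range (n + 1), v j (y - f' j) := by
      funext y
      refine Finset.sum_congr rfl (fun j hj => ?_)
      rw [hff j (by have := Finset.mem_range.1 hj; omega)]
    exact e ▸ hP k hk
  · refine ⟨fun _ => 0, fun k hk => ?_⟩
    have hk0 : k = 0 := Nat.le_zero.1 hk
    subst hk0
    have e : v 0 = (fun y : EE d => ∑ j ∈ Finset.range (0 + 1), v j (y - 0)) := by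
      funext y
      simp
    exact e ▸ h 0
  · intro n x hP
    obtain ⟨p, hp⟩ := pos_step d hd v hv a b ha Q hQ hQ0 h n _ (pos_bv_sum v hv x (n + 1)) hP
    refine ⟨p, fun k hk => ?_⟩
    have hfun : (fun y => (∑ j ∈ Finset.range (n + 1), v j (y - x j)) + v (n + 1) (y - p)) =
        fun y => ∑ j ∈ Finset.range (n + 1 + 1), v j (y - Function.update x (n + 1) p j) := by
      funext y
      rw [Finset.sum_range_succ _ (n + 1), Function.update_self]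
      congr 1
      refine Finset.sum_congr rfl (fun j hj => ?_)
      rw [Function.update_of_ne (by have := Finset.mem_range.1 hj; omega)]
    exact hfun ▸ hp k hk


end

end KRS
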