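import Pool.Agent.H631.KR.Defs
import Pool.Agent.H631.KR.B01
import Pool.Agent.H631.KR.B02
import Pool.Agent.H631.KR.K00

open MeasureTheory Filter Topology ENNReal Complex
open scoped Laplacian FourierTransform InnerProductSpace

namespace KRS

noncomputable section

/-! TARGET: prove the following -/

theorem TST (d : ℕ) (z : ℂ) (hz : 0 < z.im) :
    (∀ f : HH d, Rz d z f = fm tsym (fm (ssym z) (fm tsym f))) ∧
    (∀ f : HH d, fm tsym (fm (ssym z) f) = fm (ssym z) (fm tsym f)) ∧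
    (∀ f : HH d, ‖fm tsym f‖ ≤ ‖f‖) ∧ (∀ f : HH d, fm tsym f = 0 → f = 0) ∧
    (∀ f g : HH d, ⟪fm tsym f, g⟫_ℂ = ⟪f, fm tsym g⟫_ℂ) ∧
    ContinuousOn (fun w => (fm (ssym w) : HH d →L[ℂ] HH d)) {w : ℂ | 0 < w.im} := by
  have hX : ∀ ξ : EE d, (0 : ℝ) ≤ 4 * Real.pi ^ 2 * ‖ξ‖ ^ 2 := fun ξ => by positivity
  have hsq : ∀ ξ : EE d, 1 ≤ Real.sqrt (1 + 4 * Real.pi ^ 2 * ‖ξ‖ ^ 2) := by
    intro ξ
    rw [Real.one_le_sqrt]
    linarith [hX ξ]
  have htm : Measurable (tsym : EE d → ℂ) := by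
    unfold tsym
    fun_prop
  have ht1 : ∀ ξ : EE d, ‖tsym ξ‖ ≤ 1 := by
    intro ξ
    unfold tsym
    rw [Complex.norm_real, Real.norm_eq_abs, abs_of_nonneg (inv_nonneg.mpr (Real.sqrt_nonneg _))]
    exact inv_le_one_of_one_le₀ (hsq ξ)
  have ht0 : ∀ ξ : EE d, tsym ξ ≠ 0 := by
    intro ξ
    unfold tsym
    have := hsq ξ
    rw [Complex.ofReal_ne_zero]
    exact inv_ne_zero (by linarith)
  have htt : ∀ ξ : EE d, tsym ξ * tsym ξ * ((1 + 4 * Real.pi ^ 2 * ‖ξ‖ ^ 2 : ℝ) : ℂ) = 1 := by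
    intro ξ
    unfold tsym
    rw [← Complex.ofReal_mul, ← Complex.ofReal_mul, ← Complex.ofReal_one]
    congr 1
    have h1 := hsq ξ
    have h2 : Real.sqrt (1 + 4 * Real.pi ^ 2 * ‖ξ‖ ^ 2) * Real.sqrt (1 + 4 * Real.pi ^ 2 * ‖ξ‖ ^ 2)
        = 1 + 4 * Real.pi ^ 2 * ‖ξ‖ ^ 2 := Real.mul_self_sqrt (by linarith [hX ξ])
    have h3 : Real.sqrt (1 + 4 * Real.pi ^ 2 * ‖ξ‖ ^ 2) ≠ 0 := by linarith
    rw [← mul_inv, h2, inv_mul_cancel₀]
    linarith [hX ξ]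
  have htc : ∀ ξ : EE d, (starRingEnd ℂ) (tsym ξ) = tsym ξ := by
    intro ξ
    unfold tsym
    exact Complex.conj_ofReal _
  -- lower bound for the denominators
  have hden : ∀ (w : ℂ), 0 < w.im → ∀ ξ : EE d,
      w.im ≤ ‖(((4 * Real.pi ^ 2 * ‖ξ‖ ^ 2 : ℝ) : ℂ) - w)‖ := by
    intro w hw ξ
    have := Complex.abs_im_le_norm ((((4 * Real.pi ^ 2 * ‖ξ‖ ^ 2 : ℝ) : ℂ) - w))
    rw [Complex.sub_im, Complex.ofReal_im, zero_sub, abs_neg, abs_of_pos hw] at this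
    exact this
  have hden0 : ∀ (w : ℂ), 0 < w.im → ∀ ξ : EE d,
      (((4 * Real.pi ^ 2 * ‖ξ‖ ^ 2 : ℝ) : ℂ) - w) ≠ 0 := by
    intro w hw ξ h
    have := hden w hw ξ
    rw [h, norm_zero] at this
    linarith
  have hsm : ∀ w : ℂ, Measurable (ssym w : EE d → ℂ) := by
    intro w
    unfold ssym
    fun_prop
  have hsb : ∀ w : ℂ, 0 < w.im → ∀ ξ : EE d, ‖ssym w ξ‖ ≤ 1 + ‖1 + w‖ / w.im := by
    intro w hw ξ
    have e : ssym w ξ = 1 + (1 + w) * (((4 * Real.pi ^ 2 * ‖ξ‖ ^ 2 : ℝ) : ℂ) - w)⁻¹ := by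
      unfold ssym
      have h0 := hden0 w hw ξ
      field_simp
      push_cast
      ring
    rw [e]
    refine (norm_add_le _ _).trans ?_
    rw [norm_one, norm_mul, norm_inv]
    have h1 : (‖(((4 * Real.pi ^ 2 * ‖ξ‖ ^ 2 : ℝ) : ℂ) - w)‖)⁻¹ ≤ (w.im)⁻¹ :=
      inv_anti₀ hw (hden w hw ξ)
    rw [div_eq_mul_inv]
    have := mul_le_mul_of_nonneg_left h1 (norm_nonneg (1 + w))
    linarith
  have hcomp : ∀ f : HH d, fm (ssym z) (fm tsym f) = fm (fun ξ => ssym z ξ * tsym ξ) f :=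
    fun f => fm_comp _ _ (hsm z) _ (hsb z hz) htm 1 ht1 f
  have hcomp' : ∀ f : HH d, fm tsym (fm (ssym z) f) = fm (fun ξ => tsym ξ * ssym z ξ) f :=
    fun f => fm_comp _ _ htm 1 ht1 (hsm z) _ (hsb z hz) f
  refine ⟨?_, ?_, ?_, ?_, ?_, ?_⟩
  · intro f
    rw [hcomp f, (Rz_norm z hz).1]
    have hm2 : Measurable (fun ξ : EE d => ssym z ξ * tsym ξ) := (hsm z).mul htm
    rw [fm_comp tsym (fun ξ : EE d => ssym z ξ * tsym ξ) htm 1 ht1 hm2 (1 + ‖1 + z‖ / z.im) ?_ f]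
    · congr 2
      funext ξ
      have h := htt ξ
      have h0 := hden0 z hz ξ
      unfold sym ssym
      calc (((4 * Real.pi ^ 2 * ‖ξ‖ ^ 2 : ℝ) : ℂ) - z)⁻¹
          = 1 * (((4 * Real.pi ^ 2 * ‖ξ‖ ^ 2 : ℝ) : ℂ) - z)⁻¹ := (one_mul _).symm
        _ = (tsym ξ * tsym ξ * ((1 + 4 * Real.pi ^ 2 * ‖ξ‖ ^ 2 : ℝ) : ℂ)) *
              (((4 * Real.pi ^ 2 * ‖ξ‖ ^ 2 : ℝ) : ℂ) - z)⁻¹ := by rw [h]
        _ = _ := by ring
    · intro ξ
      rw [norm_mul]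
      calc ‖ssym z ξ‖ * ‖tsym ξ‖ ≤ (1 + ‖1 + z‖ / z.im) * 1 :=
            mul_le_mul (hsb z hz ξ) (ht1 ξ) (norm_nonneg _)
              ((norm_nonneg _).trans (hsb z hz ξ))
        _ = _ := mul_one _
  · intro f
    rw [hcomp f, hcomp' f]
    congr 2
    funext ξ
    ring
  · intro f
    have := fm_norm (d := d) tsym htm 1 ht1 f
    linarith
  · intro f hf
    have h1 : mulOp (tsym : EE d → ℂ) ((Lp.fourierTransformₗᵢ (EE d) ℂ) f) = 0 := by
      have h2 : (Lp.fourierTransformₗᵢ (EE d) ℂ).symm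
          (mulOp (tsym : EE d → ℂ) ((Lp.fourierTransformₗᵢ (EE d) ℂ) f)) = 0 := hf
      exact (LinearIsometryEquiv.map_eq_zero_iff _).mp h2
    have h3 : (Lp.fourierTransformₗᵢ (EE d) ℂ) f = 0 := by
      have h4 := mulOp_ae (tsym : EE d → ℂ) htm 1 ht1 ((Lp.fourierTransformₗᵢ (EE d) ℂ) f)
      rw [h1] at h4
      apply Lp.ext
      filter_upwards [h4, Lp.coeFn_zero ℂ 2 (volume : Measure (EE d))] with x hx hx0
      rw [hx0] at hx ⊢
      have : tsym x * (((Lp.fourierTransformₗᵢ (EE d) ℂ) f : HH d) : EE d → ℂ) x = 0 := hx.symm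
      rcases mul_eq_zero.mp this with h | h
      · exact absurd h (ht0 x)
      · exact h
    exact (LinearIsometryEquiv.map_eq_zero_iff _).mp h3
  · intro f g
    have := (fm_inner (d := d) tsym htm 1 ht1 f g).1
    rw [this]
    congr 2
    have e : (fun ξ : EE d => (starRingEnd ℂ) (tsym ξ)) = tsym := funext htc
    rw [e]
  · intro w hw
    have hw' : 0 < w.im := hw
    rw [Metric.continuousWithinAt_iff]
    intro ε hε
    set K : ℝ := (1 + ‖1 + w‖ / w.im) * (2 / w.im) with hK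
    have hKpos : 0 < K := by positivity
    refine ⟨min (w.im / 2) (ε / (2 * K)), lt_min (by positivity) (by positivity), ?_⟩
    intro v hv hvw
    have hv' : 0 < v.im := hv
    have h1 : dist v w < w.im / 2 := lt_of_lt_of_le hvw (min_le_left _ _)
    have h2 : dist v w < ε / (2 * K) := lt_of_lt_of_le hvw (min_le_right _ _)
    rw [dist_eq_norm] at h1 h2
    have h3 : w.im / 2 < v.im := by
      have := Complex.abs_im_le_norm (v - w)
      rw [Complex.sub_im] at this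
      have h4 := neg_abs_le (v.im - w.im)
      linarith
    have hdiff : ∀ ξ : EE d, ‖ssym v ξ - ssym w ξ‖ ≤ K * ‖v - w‖ := by
      intro ξ
      have hv0 := hden0 v hv' ξ
      have hw0 := hden0 w hw' ξ
      have e : ssym v ξ - ssym w ξ = ssym w ξ * ((v - w) *
          (((4 * Real.pi ^ 2 * ‖ξ‖ ^ 2 : ℝ) : ℂ) - v)⁻¹) := by
        unfold ssym
        field_simp
        ring
      rw [e, norm_mul, norm_mul, norm_inv]
      have h5 : (‖(((4 * Real.pi ^ 2 * ‖ξ‖ ^ 2 : ℝ) : ℂ) - v)‖)⁻¹ ≤ 2 / w.im := by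
        have h6 := hden v hv' ξ
        have h7 : (‖(((4 * Real.pi ^ 2 * ‖ξ‖ ^ 2 : ℝ) : ℂ) - v)‖)⁻¹ ≤ (w.im / 2)⁻¹ :=
          inv_anti₀ (by positivity) (by linarith)
        rw [inv_div] at h7
        exact h7
      calc ‖ssym w ξ‖ * (‖v - w‖ * (‖(((4 * Real.pi ^ 2 * ‖ξ‖ ^ 2 : ℝ) : ℂ) - v)‖)⁻¹)
          ≤ (1 + ‖1 + w‖ / w.im) * (‖v - w‖ * (2 / w.im)) := by
            apply mul_le_mul (hsb w hw' ξ) _ (by positivity) (by positivity)
            exact mul_le_mul_of_nonneg_left h5 (norm_nonneg _)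
        _ = K * ‖v - w‖ := by rw [hK]; ring
    have h8 := fm_sub (d := d) (ssym v) (ssym w) (hsm v) (hsm w)
      (max (1 + ‖1 + v‖ / v.im) (1 + ‖1 + w‖ / w.im))
      (fun ξ => (hsb v hv' ξ).trans (le_max_left _ _))
      (fun ξ => (hsb w hw' ξ).trans (le_max_right _ _)) (K * ‖v - w‖) hdiff
    rw [dist_eq_norm]
    refine lt_of_le_of_lt h8 ?_
    rw [max_eq_left (by positivity)]
    have h9 : K * ‖v - w‖ < K * (ε / (2 * K)) := mul_lt_mul_of_pos_left h2 hKpos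
    have h10 : K * (ε / (2 * K)) = ε / 2 := by
      field_simp
    linarith

end

end KRS
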