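import Pool.Agent.H631.KR.Defs
import Pool.Agent.H631.KR.B01
import Pool.Agent.H631.KR.B02
import Pool.Agent.H631.KR.B06
import Pool.Agent.H631.KR.B20
import Pool.Agent.H631.KR.K00

open MeasureTheory Filter Topology ENNReal Complex
open scoped Laplacian FourierTransform InnerProductSpace

namespace KRS

noncomputable section

theorem lo_BV_zero {d : ℕ} : BV (fun _ : EE d => (0 : ℂ)) :=
  ⟨measurable_const, ⟨0, fun x => by simp⟩, ⟨0, fun x _ => rfl⟩⟩

theorem lo_BV_add {d : ℕ} {V W : EE d → ℂ} (hV : BV V) (hW : BV W) :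
    BV (fun x => V x + W x) := by
  obtain ⟨hV1, ⟨B, hB⟩, ⟨r, hr⟩⟩ := hV
  obtain ⟨hW1, ⟨B', hB'⟩, ⟨r', hr'⟩⟩ := hW
  refine ⟨hV1.add hW1, ⟨B + B', fun x => (norm_add_le _ _).trans (add_le_add (hB x) (hB' x))⟩,
    ⟨max r r', fun x hx => ?_⟩⟩
  show V x + W x = 0
  rw [hr x (lt_of_le_of_lt (le_max_left _ _) hx), hr' x (lt_of_le_of_lt (le_max_right _ _) hx),
    add_zero]

theorem lo_BV_sum {d : ℕ} (v : ℕ → EE d → ℂ) (hv : ∀ j, BV (v j)) (n : ℕ) :
    BV (fun x => ∑ j ∈ Finset.range n, v j x) := by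
  induction n with
  | zero => simpa using lo_BV_zero
  | succ n ih =>
    simp only [Finset.sum_range_succ]
    exact lo_BV_add ih (hv n)

theorem lo_mulOp_add {d : ℕ} {V W : EE d → ℂ} (hV : BV V) (hW : BV W) :
    mulOp (fun x => V x + W x) = (mulOp V + mulOp W : HH d →L[ℂ] HH d) := by
  have hVW := lo_BV_add hV hW
  obtain ⟨hV1, ⟨B, hB⟩, _⟩ := hV
  obtain ⟨hW1, ⟨B', hB'⟩, _⟩ := hW
  obtain ⟨hVW1, ⟨B'', hB''⟩, _⟩ := hVW
  ext1 f
  apply Lp.ext
  have h1 := mulOp_ae _ hVW1 B'' hB'' f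
  have h2 := mulOp_ae _ hV1 B hB f
  have h3 := mulOp_ae _ hW1 B' hB' f
  have h4 := Lp.coeFn_add (mulOp V f) (mulOp W f)
  rw [add_apply]
  filter_upwards [h1, h2, h3, h4] with x h1 h2 h3 h4
  rw [h1, h4, Pi.add_apply, h2, h3, add_mul]

theorem lo_mulOp_zero {d : ℕ} :
    mulOp (fun _ : EE d => (0 : ℂ)) = (0 : HH d →L[ℂ] HH d) := by
  ext1 f
  apply Lp.ext
  have h1 := mulOp_ae (fun _ : EE d => (0 : ℂ)) measurable_const 0 (by simp) f
  have h4 := Lp.coeFn_zero ℂ 2 (volume : Measure (EE d))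
  rw [zero_apply]
  filter_upwards [h1, h4] with x h1 h4
  rw [h1, h4, zero_mul, Pi.zero_apply]

theorem lo_mulOp_sum {d : ℕ} (v : ℕ → EE d → ℂ) (hv : ∀ j, BV (v j)) (n : ℕ) :
    mulOp (fun x => ∑ j ∈ Finset.range n, v j x) =
      (∑ j ∈ Finset.range n, mulOp (v j) : HH d →L[ℂ] HH d) := by
  induction n with
  | zero => simpa using lo_mulOp_zero
  | succ n ih =>
    simp only [Finset.sum_range_succ]
    rw [lo_mulOp_add (lo_BV_sum v hv n) (hv n), ih]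

theorem lo_unit_comm {R : Type*} [Ring R] (a b : R) (h : IsUnit (1 + b * a)) :
    IsUnit (1 + a * b) := by
  obtain ⟨u, hu⟩ := h
  have h1 : (1 + b * a) * (↑u⁻¹ : R) = 1 := by rw [← hu]; exact u.mul_inv
  have h2 : (↑u⁻¹ : R) * (1 + b * a) = 1 := by rw [← hu]; exact u.inv_mul
  have h1' : (↑u⁻¹ : R) + b * a * ↑u⁻¹ = 1 := by rw [← h1]; noncomm_ring
  have h2' : (↑u⁻¹ : R) + ↑u⁻¹ * b * a = 1 := by rw [← h2]; noncomm_ring
  refine ⟨⟨1 + a * b, 1 - a * ↑u⁻¹ * b, ?_, ?_⟩, rfl⟩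
  · have : (1 + a * b) * (1 - a * ↑u⁻¹ * b) =
        1 + a * b - a * (↑u⁻¹ + b * a * ↑u⁻¹) * b := by noncomm_ring
    rw [this, h1']; noncomm_ring
  · have : (1 - a * ↑u⁻¹ * b) * (1 + a * b) =
        1 + a * b - a * (↑u⁻¹ + ↑u⁻¹ * b * a) * b := by noncomm_ring
    rw [this, h2']; noncomm_ring

theorem lo_bound {d : ℕ} (V : EE d → ℂ) (hV : BV V) (m : ℝ)
    (hmj : ∀ f : HH d, ∫ x, ‖V x‖ * ‖(fm tsym f : EE d → ℂ) x‖ ^ 2 ≤ m * ‖f‖ ^ 2)
    (f f' : HH d) (hff : ‖f‖ = ‖f'‖) :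
    ‖⟪f, fm tsym (mulOp V (fm tsym f'))⟫_ℂ‖ ≤ m * ‖f‖ ^ 2 := by
  have hself := (TST d I (by simp)).2.2.2.2.1
  rw [← hself f (mulOp V (fm tsym f'))]
  set F : HH d := fm tsym f with hF
  set F' : HH d := fm tsym f' with hF'
  obtain ⟨hV1, ⟨B, hB⟩, _⟩ := hV
  have hB0 : 0 ≤ B := (norm_nonneg _).trans (hB 0)
  have hae := mulOp_ae V hV1 B hB F'
  rw [MeasureTheory.L2.inner_def]
  have e1 : ∫ a, ⟪(F : EE d → ℂ) a, (mulOp V F' : EE d → ℂ) a⟫_ℂ =
      ∫ a, ⟪(F : EE d → ℂ) a, V a * (F' : EE d → ℂ) a⟫_ℂ := by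
    apply integral_congr_ae
    filter_upwards [hae] with x hx
    rw [hx]
  rw [e1]
  have hFi : Integrable (fun x => ‖(F : EE d → ℂ) x‖ ^ 2) := (Lp.memLp F).norm.integrable_sq
  have hFi' : Integrable (fun x => ‖(F' : EE d → ℂ) x‖ ^ 2) := (Lp.memLp F').norm.integrable_sq
  have hI : Integrable (fun x => ‖V x‖ * ‖(F : EE d → ℂ) x‖ ^ 2) := by
    refine Integrable.bdd_mul (c := B) hFi hV1.norm.aestronglyMeasurable ?_
    exact Eventually.of_forall fun x => by simpa using hB x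
  have hI' : Integrable (fun x => ‖V x‖ * ‖(F' : EE d → ℂ) x‖ ^ 2) := by
    refine Integrable.bdd_mul (c := B) hFi' hV1.norm.aestronglyMeasurable ?_
    exact Eventually.of_forall fun x => by simpa using hB x
  have hle : ‖∫ a, ⟪(F : EE d → ℂ) a, V a * (F' : EE d → ℂ) a⟫_ℂ‖ ≤
      ∫ a, (‖V a‖ * ‖(F : EE d → ℂ) a‖ ^ 2 + ‖V a‖ * ‖(F' : EE d → ℂ) a‖ ^ 2) / 2 := by
    apply norm_integral_le_of_norm_le ((hI.add hI').div_const 2)
    refine Eventually.of_forall fun x => ?_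
    have h1 : ‖⟪(F : EE d → ℂ) x, V x * (F' : EE d → ℂ) x⟫_ℂ‖ ≤
        ‖(F : EE d → ℂ) x‖ * ‖V x * (F' : EE d → ℂ) x‖ := norm_inner_le_norm _ _
    rw [norm_mul] at h1
    refine h1.trans ?_
    show _ ≤ (‖V x‖ * ‖(F : EE d → ℂ) x‖ ^ 2 + ‖V x‖ * ‖(F' : EE d → ℂ) x‖ ^ 2) / 2
    nlinarith [mul_nonneg (norm_nonneg (V x)) (sq_nonneg (‖(F : EE d → ℂ) x‖ - ‖(F' : EE d → ℂ) x‖))]
  refine hle.trans ?_
  rw [integral_div, integral_add hI hI']
  have a1 := hmj f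
  have a2 := hmj f'
  rw [← hff] at a2
  linarith

theorem lo_bound2 {d : ℕ} (V : EE d → ℂ) (hV : BV V) (m : ℝ) (hm : 0 ≤ m)
    (hmj : ∀ f : HH d, ∫ x, ‖V x‖ * ‖(fm tsym f : EE d → ℂ) x‖ ^ 2 ≤ m * ‖f‖ ^ 2) :
    ‖(fm tsym ∘L mulOp V ∘L fm tsym : HH d →L[ℂ] HH d)‖ ≤ m := by
  apply ContinuousLinearMap.opNorm_le_bound _ hm
  intro f'
  set y : HH d := (fm tsym ∘L mulOp V ∘L fm tsym : HH d →L[ℂ] HH d) f' with hy
  have hy' : y = fm tsym (mulOp V (fm tsym f')) := rfl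
  by_cases hf' : f' = 0
  · subst hf'
    simp [hy']
  by_cases hy0 : y = 0
  · rw [hy0, norm_zero]; positivity
  have ha : 0 < ‖f'‖ := norm_pos_iff.mpr hf'
  have hb : 0 < ‖y‖ := norm_pos_iff.mpr hy0
  have hnorm : ‖(((‖f'‖ / ‖y‖ : ℝ) : ℂ) • y)‖ = ‖f'‖ := by
    rw [norm_smul, Complex.norm_real, Real.norm_of_nonneg (by positivity)]
    field_simp
  have h1 := lo_bound V hV m hmj (((‖f'‖ / ‖y‖ : ℝ) : ℂ) • y) f' hnorm
  rw [← hy', inner_smul_left, hnorm, norm_mul, inner_self_eq_norm_sq_to_K] at h1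
  simp only [Complex.conj_ofReal, Complex.norm_real] at h1
  have h2 : ‖(((‖y‖ : ℝ) : ℂ)) ^ 2‖ = ‖y‖ ^ 2 := by
    rw [norm_pow, Complex.norm_real, norm_norm]
  rw [show ((RCLike.ofReal ‖y‖ : ℂ)) = (((‖y‖ : ℝ) : ℂ)) from rfl, h2,
    Real.norm_of_nonneg (by positivity)] at h1
  have h3 : ‖f'‖ / ‖y‖ * ‖y‖ ^ 2 = ‖f'‖ * ‖y‖ := by field_simp
  rw [h3] at h1
  have : ‖f'‖ * ‖y‖ ≤ ‖f'‖ * (m * ‖f'‖) := by nlinarith
  exact le_of_mul_le_mul_left this ha

set_option maxHeartbeats 4000000 in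
theorem limit_op (d : ℕ) (v : ℕ → EE d → ℂ) (hv : ∀ j, BV (v j)) (m : ℕ → ℝ) (hm : Summable m)
    (hmj : ∀ j, ∀ f : HH d, ∫ x, ‖v j x‖ * ‖(fm tsym f : EE d → ℂ) x‖ ^ 2 ≤ m j * ‖f‖ ^ 2)
    (g : ℝ) (Q : Set ℂ) (hQb : Bornology.IsBounded Q) (hQ0 : ∀ z ∈ closure Q, 0 < z.im) (k : ℕ)
    (h : ∀ n, k ≤ n → ∃ z ∈ Q,
      ¬ IsUnit (AA d g (fun y => ∑ j ∈ Finset.range (n + 1), v j y) z)) :
    ∃ M : HH d →L[ℂ] HH d,
      (∀ f f' : HH d, HasSum (fun j => ⟪f, fm tsym (mulOp (v j) (fm tsym f'))⟫_ℂ) ⟪f, M f'⟫_ℂ) ∧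
      ∃ z ∈ closure Q, ∃ f : HH d, f ≠ 0 ∧ f + (g : ℂ) • fm (ssym z) (M f) = 0 := by
  -- nontriviality
  have hnt : ∃ f : HH d, f ≠ 0 := by
    by_contra hcon
    push Not at hcon
    obtain ⟨z, _, hz⟩ := h k le_rfl
    apply hz
    have : Subsingleton (HH d) := ⟨fun a b => by rw [hcon a, hcon b]⟩
    have : (AA d g (fun y => ∑ j ∈ Finset.range (k + 1), v j y) z) = 1 := by
      ext1 f
      exact Subsingleton.elim _ _
    rw [this]; exact isUnit_one
  obtain ⟨f0, hf0⟩ := hnt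
  have hm0 : ∀ j, 0 ≤ m j := by
    intro j
    have h1 := hmj j f0
    have h2 : 0 ≤ ∫ x, ‖v j x‖ * ‖(fm tsym f0 : EE d → ℂ) x‖ ^ 2 :=
      integral_nonneg fun x => by positivity
    have h3 : 0 < ‖f0‖ ^ 2 := by have := norm_pos_iff.mpr hf0; positivity
    by_contra hneg
    push Not at hneg
    nlinarith
  -- the operators
  set Mj : ℕ → (HH d →L[ℂ] HH d) := fun j => fm tsym ∘L mulOp (v j) ∘L fm tsym with hMj
  have hMjn : ∀ j, ‖Mj j‖ ≤ m j := fun j => lo_bound2 (v j) (hv j) (m j) (hm0 j) (hmj j)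
  have hsum : Summable Mj := Summable.of_norm_bounded hm hMjn
  obtain ⟨M, hM⟩ := hsum
  have hMjc : ∀ j, IsCompactOperator (Mj j : HH d → HH d) := by
    intro j
    have h1 := (VR_compact d (v j) (hv j) I (by simp)).2
    exact h1.clm_comp (fm tsym)
  set P : ℕ → (HH d →L[ℂ] HH d) := fun n => ∑ j ∈ Finset.range (n + 1), Mj j with hP
  have hPM : Tendsto P atTop (𝓝 M) :=
    (hM.tendsto_sum_nat).comp (tendsto_add_atTop_nat 1)
  have hPc : ∀ n, IsCompactOperator (P n : HH d → HH d) := by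
    intro n
    have : P n ∈ compactOperator (RingHom.id ℂ) (HH d) (HH d) :=
      Submodule.sum_mem _ fun j _ => hMjc j
    exact this
  have hMc : IsCompactOperator (M : HH d → HH d) :=
    isCompactOperator_of_tendsto hPM (Eventually.of_forall hPc)
  refine ⟨M, ?_, ?_⟩
  · intro f f'
    have h1 : HasSum (fun j => Mj j f') (M f') := by
      have := (ContinuousLinearMap.apply ℂ (HH d) f').hasSum hM
      simpa using this
    exact (innerSL ℂ f).hasSum h1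
  · -- choose the points
    choose! zz hzQ hzu using h
    have hcomp : IsCompact (closure Q) := hQb.isCompact_closure
    obtain ⟨z, hzc, φ, hφ, hlim⟩ := hcomp.tendsto_subseq (x := fun n => zz (n + k))
      (fun n => subset_closure (hzQ (n + k) (by omega)))
    have hz0 := hQ0 z hzc
    have hcont := (TST d I (by simp)).2.2.2.2.2
    have hzin : ∀ n, 0 < (zz (φ n + k)).im := fun n =>
      hQ0 _ (subset_closure (hzQ (φ n + k) (by omega)))
    have hS : Tendsto (fun n => (fm (ssym (zz (φ n + k))) : HH d →L[ℂ] HH d)) atTop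
        (𝓝 (fm (ssym z))) := by
      have h1 : ContinuousWithinAt (fun w => (fm (ssym w) : HH d →L[ℂ] HH d)) {w : ℂ | 0 < w.im} z :=
        hcont z hz0
      have h2 : Tendsto (fun n => zz (φ n + k)) atTop (𝓝[{w : ℂ | 0 < w.im}] z) := by
        rw [tendsto_nhdsWithin_iff]
        exact ⟨hlim, Eventually.of_forall hzin⟩
      exact h1.tendsto.comp h2
    have hPφ : Tendsto (fun n => P (φ n + k)) atTop (𝓝 M) :=
      hPM.comp (tendsto_atTop_mono (fun n => Nat.le_add_right (φ n) k) hφ.tendsto_atTop)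
    have hB : Tendsto (fun n => (1 : HH d →L[ℂ] HH d) +
        (g : ℂ) • (fm (ssym (zz (φ n + k))) * P (φ n + k))) atTop
        (𝓝 (1 + (g : ℂ) • (fm (ssym z) * M))) :=
      tendsto_const_nhds.add ((hS.mul hPφ).const_smul _)
    have hnonunit : ∀ n, ¬ IsUnit ((1 : HH d →L[ℂ] HH d) +
        (g : ℂ) • (fm (ssym (zz (φ n + k))) * P (φ n + k))) := by
      intro n hu
      set w := zz (φ n + k) with hw
      obtain ⟨t1, t2, -, -, -, -⟩ := TST d w (hzin n)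
      apply hzu (φ n + k) (by omega)
      set N := φ n + k with hN
      set VN : EE d → ℂ := fun y => ∑ j ∈ Finset.range (N + 1), v j y with hVN
      have e1 : mulOp VN = (∑ j ∈ Finset.range (N + 1), mulOp (v j) : HH d →L[ℂ] HH d) :=
        lo_mulOp_sum v hv (N + 1)
      have eP : P N = fm tsym * (mulOp VN * fm tsym) := by
        rw [e1, hP]
        simp only [Finset.sum_mul, Finset.mul_sum]
        rfl
      have eR : Rz d w = fm tsym * (fm (ssym w) * fm tsym) := by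
        ext1 f
        exact t1 f
      have eC : (fm tsym * fm (ssym w) : HH d →L[ℂ] HH d) = fm (ssym w) * fm tsym := by
        ext1 f
        exact t2 f
      have eA : AA d g VN w = 1 + ((g : ℂ) • (mulOp VN * fm tsym)) * (fm (ssym w) * fm tsym) := by
        unfold AA
        rw [eR, smul_mul_assoc]
        simp only [mul_assoc]
        rfl
      rw [eA]
      apply lo_unit_comm
      have eB : (fm (ssym w) * fm tsym) * ((g : ℂ) • (mulOp VN * fm tsym)) =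
          (g : ℂ) • (fm (ssym w) * P N) := by
        rw [eP, mul_smul_comm]
        simp only [mul_assoc]
      rw [eB]
      exact hu
    have hlimnon : ¬ IsUnit (1 + (g : ℂ) • (fm (ssym z) * M) : HH d →L[ℂ] HH d) := by
      intro hu
      have hopen : IsOpen {x : HH d →L[ℂ] HH d | IsUnit x} := Units.isOpen
      have := hB.eventually (hopen.mem_nhds hu)
      obtain ⟨n, hn⟩ := this.exists
      exact hnonunit n hn
    refine ⟨z, hzc, ?_⟩
    set K : HH d →L[ℂ] HH d := (g : ℂ) • (fm (ssym z) * M) with hK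
    have hKc : IsCompactOperator (K : HH d → HH d) := by
      have h1 : IsCompactOperator ((fm (ssym z) * M : HH d →L[ℂ] HH d) : HH d → HH d) :=
        hMc.clm_comp (fm (ssym z))
      exact h1.smul (g : ℂ)
    rcases hKc.hasEigenvalue_or_mem_resolventSet (μ := (-1 : ℂ)) (by norm_num) with hE | hR
    · obtain ⟨f, hf⟩ := hE.exists_hasEigenvector
      refine ⟨f, hf.2, ?_⟩
      have h1 : K f = (-1 : ℂ) • f := hf.apply_eq_smul
      have h2 : K f = (g : ℂ) • fm (ssym z) (M f) := rfl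
      rw [← h2, h1]
      simp
    · exfalso
      apply hlimnon
      rw [spectrum.mem_resolventSet_iff] at hR
      have : (1 + K : HH d →L[ℂ] HH d) = -(algebraMap ℂ (HH d →L[ℂ] HH d) (-1) - K) := by
        rw [map_neg, map_one]; abel
      rw [this]
      exact hR.neg

end

end KRS
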