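import Pool.Agent.H631.KR.Defs
import Pool.Agent.H631.KR.B01
import Pool.Agent.H631.KR.B02
import Pool.Agent.H631.KR.B20
import Pool.Agent.H631.KR.K00
import Pool.Agent.H631.KR.K0R

open MeasureTheory Filter Topology ENNReal Complex
open scoped Laplacian FourierTransform InnerProductSpace

namespace KRS

noncomputable section

theorem sum_int {d : ℕ} (F : ℕ → EE d → ℂ) (G : EE d → ℂ) (hF : ∀ j, Integrable (F j))
    (b : ℕ → ℝ) (hb : Summable b) (hle : ∀ j, ∫ x, ‖F j x‖ ≤ b j)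
    (hG : ∀ᵐ x, HasSum (fun j => F j x) (G x)) :
    Integrable G ∧ HasSum (fun j => ∫ x, F j x) (∫ x, G x) := by
  have hs : Summable (fun j => ∫ x, ‖F j x‖) :=
    Summable.of_nonneg_of_le (fun j => integral_nonneg (fun x => norm_nonneg _)) hle hb
  have hmeas : AEStronglyMeasurable G volume := by
    refine aestronglyMeasurable_of_tendsto_ae (u := atTop)
      (f := fun n x => ∑ j ∈ Finset.range n, F j x) ?_ ?_
    · intro n
      exact Finset.aestronglyMeasurable_fun_sum _ (fun j _ => (hF j).1)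
    · filter_upwards [hG] with x hx
      exact hx.tendsto_sum_nat
  have h1 := hasSum_integral_of_summable_integral_norm hF hs
  have h2 : (fun x => ∑' j, F j x) =ᵐ[volume] G := by
    filter_upwards [hG] with x hx
    exact hx.tsum_eq
  refine ⟨⟨hmeas, ?_⟩, ?_⟩
  · have h3 : ∫⁻ x, ‖G x‖ₑ ≤ ∫⁻ x, ∑' j, ‖F j x‖ₑ := by
      refine lintegral_mono_ae ?_
      filter_upwards [hG] with x hx
      rw [← hx.tsum_eq]
      exact enorm_tsum_le_tsum_enorm
    rw [lintegral_tsum (fun j => (hF j).1.enorm)] at h3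
    have h4 : ∀ j, ∫⁻ x, ‖F j x‖ₑ = ENNReal.ofReal (∫ x, ‖F j x‖) :=
      fun j => (ofReal_integral_norm_eq_lintegral_enorm (hF j)).symm
    simp_rw [h4] at h3
    rw [← ENNReal.ofReal_tsum_of_nonneg (fun j => integral_nonneg (fun x => norm_nonneg _)) hs] at h3
    exact lt_of_le_of_lt h3 ENNReal.ofReal_lt_top
  · rw [← integral_congr_ae h2]; exact h1

theorem mul_int {d : ℕ} (a b : EE d → ℂ) (ha : MemLp a 2 volume) (hb : MemLp b 2 volume)
    (v : EE d → ℂ) (hv : Measurable v) (hB : ∃ B : ℝ, ∀ x, ‖v x‖ ≤ B) :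
    Integrable (fun x => v x * (a x * b x)) := by
  obtain ⟨B, hB⟩ := hB
  have h1 : Integrable (fun x => a x * b x) := MemLp.integrable_mul ha hb
  exact Integrable.bdd_mul h1 hv.aestronglyMeasurable (Eventually.of_forall hB)

theorem pair_fm {d : ℕ} (m : EE d → ℂ) (hm : Measurable m) (C : ℝ) (hC : ∀ x, ‖m x‖ ≤ C)
    (f : HH d) (ψ : SchwartzMap (EE d) ℂ) :
    ∫ x, (starRingEnd ℂ) (ψ x) * (fm m f : EE d → ℂ) x =
      ∫ ξ, (starRingEnd ℂ) ((𝓕 ψ) ξ) * (𝓕 f : HH d) ξ * m ξ := by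
  have h1 := (fm_inner m hm C hC f (ψ.toLp 2)).2
  rw [SchwartzMap.toLp_fourier_eq] at h1
  have h2 : ⟪ψ.toLp 2, fm m f⟫_ℂ = ∫ x, (starRingEnd ℂ) (ψ x) * (fm m f : EE d → ℂ) x := by
    rw [MeasureTheory.L2.inner_def]
    refine integral_congr_ae ?_
    filter_upwards [ψ.coeFn_toLp 2 volume] with x hx
    rw [hx, RCLike.inner_apply']
  rw [← h2, h1]
  refine integral_congr_ae ?_
  filter_upwards [(𝓕 ψ).coeFn_toLp 2 volume] with x hx
  rw [hx]

theorem lap_fourier {d : ℕ} (χ : SchwartzMap (EE d) ℂ) (ξ : EE d) :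
    (𝓕 (Δ χ)) ξ = -((4 * Real.pi ^ 2 * ‖ξ‖ ^ 2 : ℝ) : ℂ) * (𝓕 χ) ξ := by
  rw [SchwartzMap.laplacian_eq_fourierMultiplierCLM, SchwartzMap.fourierMultiplierCLM_apply]
  rw [FourierTransform.fourier_smul, FourierTransform.fourier_fourierInv_eq]
  rw [_root_.smul_apply, SchwartzMap.smulLeftCLM_apply_apply (by fun_prop)]
  simp only [Complex.real_smul]
  push_cast
  ring

theorem deriv_fourier {d : ℕ} (χ : SchwartzMap (EE d) ℂ) (i : Fin d) (ξ : EE d) :
    (𝓕 (LineDeriv.lineDerivOp (EuclideanSpace.single i (1:ℝ)) χ)) ξ =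
      (2 * Real.pi * I) * (ξ i : ℂ) * (𝓕 χ) ξ := by
  rw [SchwartzMap.fourier_lineDerivOp_eq]
  have hg : (fun x : EE d => inner ℝ x (EuclideanSpace.single i (1:ℝ))).HasTemperateGrowth := by
    fun_prop
  rw [_root_.smul_apply, SchwartzMap.smulLeftCLM_apply_apply hg]
  simp [EuclideanSpace.inner_single_right]
  ring



theorem conj_test {d : ℕ} (φ : EE d → ℂ) (hφ : IsTest φ) :
    ∃ χ : SchwartzMap (EE d) ℂ, (∀ x, χ x = (starRingEnd ℂ) (φ x)) ∧
      (∀ (i : Fin d) x, (LineDeriv.lineDerivOp (EuclideanSpace.single i (1:ℝ)) χ) x =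
        (starRingEnd ℂ) (fderiv ℝ φ x (EuclideanSpace.single i 1))) ∧
      (∀ x, (Δ χ) x = (starRingEnd ℂ) ((Δ φ) x)) := by
  obtain ⟨h1, h2⟩ := hφ
  have h3 : ContDiff ℝ (⊤ : ℕ∞) (fun x => (starRingEnd ℂ) (φ x)) :=
    (Complex.conjCLE.contDiff.comp h1)
  have h4 : HasCompactSupport (fun x => (starRingEnd ℂ) (φ x)) :=
    h2.comp_left (g := fun z => (starRingEnd ℂ) z) (map_zero _)
  refine ⟨h4.toSchwartzMap h3, fun x => rfl, ?_, ?_⟩
  · intro i x
    rw [SchwartzMap.lineDerivOp_apply_eq_fderiv]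
    have h5 : HasFDerivAt φ (fderiv ℝ φ x) x :=
      (h1.differentiable (by simp)).differentiableAt.hasFDerivAt
    have h6 := (Complex.conjCLE : ℂ ≃L[ℝ] ℂ).toContinuousLinearMap.hasFDerivAt.comp x h5
    have h7 : (⇑(h4.toSchwartzMap h3)) = (⇑(Complex.conjCLE : ℂ ≃L[ℝ] ℂ).toContinuousLinearMap ∘ φ) := by
      rfl
    rw [h7, h6.fderiv]
    rfl
  · intro x
    rw [SchwartzMap.laplacian_apply]
    have h7 : (⇑(h4.toSchwartzMap h3)) = (⇑(Complex.conjCLE : ℂ ≃L[ℝ] ℂ) ∘ φ) := by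
      rfl
    rw [h7, InnerProductSpace.laplacian_CLE_comp_left]
    rfl

theorem tsym_meas {d : ℕ} : Measurable (tsym (d := d)) := by
  unfold tsym
  fun_prop

theorem tsym_le {d : ℕ} (x : EE d) : ‖tsym x‖ ≤ 1 := by
  unfold tsym
  rw [Complex.norm_real, Real.norm_eq_abs, abs_of_nonneg (by positivity)]
  apply inv_le_one_of_one_le₀
  rw [Real.one_le_sqrt]
  have : 0 ≤ 4 * Real.pi ^ 2 * ‖x‖ ^ 2 := by positivity
  linarith

theorem xi_tsym_le {d : ℕ} (i : Fin d) (x : EE d) :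
    ‖(2 * Real.pi * I) * (x i : ℂ) * tsym x‖ ≤ 1 := by
  unfold tsym
  rw [norm_mul, norm_mul, Complex.norm_real, Complex.norm_real, norm_inv, Real.norm_eq_abs,
    Real.norm_eq_abs]
  have h1 : ‖(2 * Real.pi * I : ℂ)‖ = 2 * Real.pi := by
    simp [abs_of_pos Real.pi_pos]
  rw [h1, abs_of_nonneg (Real.sqrt_nonneg _)]
  have h2 : |x i| ≤ ‖x‖ := by
    have := EuclideanSpace.norm_eq x
    have h3 := PiLp.norm_apply_le x i
    simpa using h3
  have h4 : 0 < Real.sqrt (1 + 4 * Real.pi ^ 2 * ‖x‖ ^ 2) := by positivity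
  rw [← div_eq_mul_inv, div_le_one h4]
  apply Real.le_sqrt_of_sq_le
  have h5 : |x i| ^ 2 ≤ ‖x‖ ^ 2 := pow_le_pow_left₀ (abs_nonneg _) h2 2
  have h6 : 0 ≤ Real.pi ^ 2 := by positivity
  nlinarith [mul_le_mul_of_nonneg_left h5 h6]

theorem ssym_meas {d : ℕ} (z : ℂ) : Measurable (ssym (d := d) z) := by
  unfold ssym
  fun_prop

theorem ssym_le {d : ℕ} (z : ℂ) (hz : 0 < z.im) :
    ∃ C : ℝ, ∀ x : EE d, ‖ssym z x‖ ≤ C := by
  refine ⟨1 + (1 + ‖z‖) * (z.im)⁻¹, fun x => ?_⟩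
  unfold ssym
  set X : ℂ := ((4 * Real.pi ^ 2 * ‖x‖ ^ 2 : ℝ) : ℂ) with hX
  have him : z.im ≤ ‖X - z‖ := by
    have h := Complex.abs_im_le_norm (X - z)
    have h2 : (X - z).im = - z.im := by
      rw [hX, Complex.sub_im, Complex.ofReal_im]; ring
    rw [h2, abs_neg, abs_of_pos hz] at h
    exact h
  have hne : X - z ≠ 0 := by
    intro h
    rw [h, norm_zero] at him
    linarith
  have h1 : ((1 + 4 * Real.pi ^ 2 * ‖x‖ ^ 2 : ℝ) : ℂ) * (X - z)⁻¹ = 1 + (1 + z) * (X - z)⁻¹ := by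
    field_simp
    rw [hX]
    push_cast
    ring
  rw [h1]
  refine (norm_add_le _ _).trans ?_
  rw [norm_one, norm_mul, norm_inv]
  gcongr
  exact (norm_add_le _ _).trans (by rw [norm_one])

/-! TARGET: prove the following -/

set_option maxHeartbeats 1000000 in
theorem limit_weak (d : ℕ) (v : ℕ → EE d → ℂ) (hv : ∀ j, BV (v j)) (m : ℕ → ℝ) (hm : Summable m)
    (hmj : ∀ j, ∀ f : HH d, ∫ x, ‖v j x‖ * ‖(fm tsym f : EE d → ℂ) x‖ ^ 2 ≤ m j * ‖f‖ ^ 2)
    (V : EE d → ℂ) (hV : ∀ᵐ x, Summable (fun j => ‖v j x‖) ∧ HasSum (fun j => v j x) (V x))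
    (g : ℝ) (M : HH d →L[ℂ] HH d)
    (hM : ∀ f f' : HH d, HasSum (fun j => ⟪f, fm tsym (mulOp (v j) (fm tsym f'))⟫_ℂ) ⟪f, M f'⟫_ℂ)
    (z : ℂ) (hz : 0 < z.im) (f : HH d) (hf : f ≠ 0) (hf0 : f + (g : ℂ) • fm (ssym z) (M f) = 0) :
    ∃ u : HH d, u ≠ 0 ∧
      (∀ i : Fin d, ∃ D : HH d, ∀ φ : EE d → ℂ, IsTest φ →
        ∫ x, (u : EE d → ℂ) x * (fderiv ℝ φ x (EuclideanSpace.single i 1)) =
          - ∫ x, (D : EE d → ℂ) x * φ x) ∧
      Integrable (fun x => ‖V x‖ * ‖(u : EE d → ℂ) x‖ ^ 2) ∧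
      ∀ φ : EE d → ℂ, IsTest φ → Integrable (fun x => V x * (u : EE d → ℂ) x * φ x) ∧
        (∫ x, (u : EE d → ℂ) x * (-(Δ φ) x)) + (g : ℂ) * (∫ x, V x * (u : EE d → ℂ) x * φ x) =
          z * (∫ x, (u : EE d → ℂ) x * φ x) := by
  have hu0 : fm tsym f ≠ 0 := fun h => hf ((TST d z hz).2.2.2.1 f h)
  have humem : MemLp (fm tsym f : EE d → ℂ) 2 volume := Lp.memLp _
  -- integrability of V |u|^2
  have hconjmem : ∀ a : HH d, MemLp (fun x => (starRingEnd ℂ) ((a : EE d → ℂ) x)) 2 volume := by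
    intro a
    have := (Lp.memLp a).star
    exact this
  have hnn : ∀ j (a : HH d) x, ‖v j x * ((a : EE d → ℂ) x * (starRingEnd ℂ) ((a : EE d → ℂ) x))‖ =
      ‖v j x‖ * ‖(a : EE d → ℂ) x‖ ^ 2 := by
    intro j a x
    rw [norm_mul, norm_mul, RCLike.norm_conj, sq]
  have hVu := sum_int (fun j x => v j x * ((fm tsym f : EE d → ℂ) x *
      (starRingEnd ℂ) ((fm tsym f : EE d → ℂ) x)))
    (fun x => V x * ((fm tsym f : EE d → ℂ) x * (starRingEnd ℂ) ((fm tsym f : EE d → ℂ) x)))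
    (fun j => mul_int _ _ humem (hconjmem _) (v j) (hv j).1 (hv j).2.1)
    (fun j => m j * ‖f‖ ^ 2) (hm.mul_right _)
    (fun j => by
      simp only [hnn]
      exact hmj j f)
    (by
      filter_upwards [hV] with x hx
      exact hx.2.mul_right _)
  refine ⟨fm tsym f, hu0, ?_, ?_, ?_⟩
  · intro i
    refine ⟨fm (fun ξ => (2 * Real.pi * I) * (ξ i : ℂ) * tsym ξ) f, fun φ hφ => ?_⟩
    obtain ⟨χ, hχ, hχd, hχl⟩ := conj_test φ hφ
    have hmD : Measurable (fun ξ : EE d => (2 * Real.pi * I) * (ξ i : ℂ) * tsym ξ) := by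
      have h1 : Measurable (fun ξ : EE d => ((ξ i : ℝ) : ℂ)) := by fun_prop
      exact (h1.const_mul _).mul tsym_meas
    have e1 := pair_fm tsym tsym_meas 1 tsym_le f
      (LineDeriv.lineDerivOp (EuclideanSpace.single i (1:ℝ)) χ)
    have e2 := pair_fm _ hmD 1 (xi_tsym_le i) f χ
    have e3 : ∫ x, (fm tsym f : EE d → ℂ) x * (fderiv ℝ φ x (EuclideanSpace.single i 1)) =
        ∫ x, (starRingEnd ℂ) ((LineDeriv.lineDerivOp (EuclideanSpace.single i (1:ℝ)) χ) x) *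
          (fm tsym f : EE d → ℂ) x := by
      refine integral_congr_ae (Eventually.of_forall fun x => ?_)
      simp only [hχd, Complex.conj_conj]
      ring
    have e4 : ∫ x, (fm (fun ξ => (2 * Real.pi * I) * (ξ i : ℂ) * tsym ξ) f : EE d → ℂ) x * φ x =
        ∫ x, (starRingEnd ℂ) (χ x) *
          (fm (fun ξ => (2 * Real.pi * I) * (ξ i : ℂ) * tsym ξ) f : EE d → ℂ) x := by
      refine integral_congr_ae (Eventually.of_forall fun x => ?_)
      simp only [hχ, Complex.conj_conj]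
      ring
    rw [e3, e4, e1, e2, ← integral_neg]
    refine integral_congr_ae (Eventually.of_forall fun ξ => ?_)
    simp only [deriv_fourier, map_mul, Complex.conj_I, Complex.conj_ofReal, map_ofNat]
    ring
  · have h1 := hVu.1.norm
    refine h1.congr (Eventually.of_forall fun x => ?_)
    simp only [norm_mul, RCLike.norm_conj, sq]
  · intro φ hφ
    obtain ⟨χ, hχ, hχd, hχl⟩ := conj_test φ hφ
    obtain ⟨CS, hCS⟩ := ssym_le (d := d) z hz
    -- the function h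
    have hgT : (fun ξ : EE d => (1 + ‖(2 * Real.pi) • ξ‖ ^ 2) ^ (1/2 : ℝ)).HasTemperateGrowth := by
      have h1 := Function.hasTemperateGrowth_one_add_norm_sq_rpow (EE d) (1/2 : ℝ)
      have h2 : (fun ξ : EE d => (2 * Real.pi) • ξ).HasTemperateGrowth := by fun_prop
      exact h1.comp h2
    obtain ⟨gT, hgTdef⟩ : ∃ gT : EE d → ℝ,
        gT = fun ξ : EE d => (1 + ‖(2 * Real.pi) • ξ‖ ^ 2) ^ (1/2 : ℝ) := ⟨_, rfl⟩
    rw [← hgTdef] at hgT
    have hgTv : ∀ ξ, gT ξ = Real.sqrt (1 + 4 * Real.pi ^ 2 * ‖ξ‖ ^ 2) := by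
      intro ξ
      rw [hgTdef, Real.sqrt_eq_rpow]
      simp only [norm_smul, Real.norm_eq_abs, mul_pow, sq_abs]
      norm_num
    obtain ⟨Hs, hHs⟩ : ∃ Hs : SchwartzMap (EE d) ℂ,
        Hs = 𝓕⁻ (SchwartzMap.smulLeftCLM ℂ gT (𝓕 χ)) := ⟨_, rfl⟩
    obtain ⟨h, hh⟩ : ∃ h : HH d, h = Hs.toLp 2 := ⟨_, rfl⟩
    have hFh : (𝓕 h : HH d) =ᵐ[volume] fun ξ => (gT ξ : ℂ) * (𝓕 χ) ξ := by
      rw [hh, SchwartzMap.toLp_fourier_eq, hHs, FourierTransform.fourier_fourierInv_eq]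
      filter_upwards [(SchwartzMap.smulLeftCLM ℂ gT (𝓕 χ)).coeFn_toLp 2 volume] with ξ hξ
      rw [hξ, SchwartzMap.smulLeftCLM_apply_apply hgT, Complex.real_smul]
    have hTh : fm tsym h = χ.toLp 2 := by
      have h1 : mulOp tsym (𝓕 h : HH d) = (𝓕 (χ.toLp 2 : HH d) : HH d) := by
        apply Lp.ext
        rw [SchwartzMap.toLp_fourier_eq]
        filter_upwards [mulOp_ae tsym tsym_meas 1 tsym_le (𝓕 h : HH d), hFh,
          (𝓕 χ).coeFn_toLp 2 volume] with ξ h1 h2 h3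
        rw [h1, h2, h3, hgTv]
        unfold tsym
        have h4 : (Real.sqrt (1 + 4 * Real.pi ^ 2 * ‖ξ‖ ^ 2) : ℂ) ≠ 0 := by
          have : 0 < Real.sqrt (1 + 4 * Real.pi ^ 2 * ‖ξ‖ ^ 2) := by positivity
          exact_mod_cast this.ne'
        push_cast
        rw [← mul_assoc, inv_mul_cancel₀ h4, one_mul]
      have h2 : fm tsym h = (Lp.fourierTransformₗᵢ (EE d) ℂ).symm (mulOp tsym (𝓕 h : HH d)) := rfl
      rw [h2, h1]
      exact (Lp.fourierTransformₗᵢ (EE d) ℂ).symm_apply_apply _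
    have hφmem : MemLp φ 2 volume := by
      have h1 : MemLp (fun x => (starRingEnd ℂ) (χ x)) 2 volume := (χ.memLp 2 volume).star
      refine (memLp_congr_ae (Eventually.of_forall fun x => ?_)).mp h1
      simp only [hχ, Complex.conj_conj]
    have hThn : ∀ᵐ x, ‖(fm tsym h : EE d → ℂ) x‖ = ‖φ x‖ := by
      rw [hTh]
      filter_upwards [χ.coeFn_toLp 2 volume] with x hx
      rw [hx, hχ, RCLike.norm_conj]
    have hI1 : ∀ j, Integrable (fun x => ‖v j x‖ * ‖(fm tsym f : EE d → ℂ) x‖ ^ 2) := by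
      intro j
      have := (mul_int _ _ humem (hconjmem (fm tsym f)) (v j) (hv j).1 (hv j).2.1).norm
      refine this.congr (Eventually.of_forall fun x => ?_)
      exact hnn j _ x
    have hI2 : ∀ j, Integrable (fun x => ‖v j x‖ * ‖(fm tsym h : EE d → ℂ) x‖ ^ 2) := by
      intro j
      have := (mul_int _ _ (Lp.memLp (fm tsym h)) (hconjmem (fm tsym h)) (v j) (hv j).1
        (hv j).2.1).norm
      refine this.congr (Eventually.of_forall fun x => ?_)
      exact hnn j _ x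
    have hS := sum_int (fun j x => v j x * ((fm tsym f : EE d → ℂ) x * φ x))
      (fun x => V x * ((fm tsym f : EE d → ℂ) x * φ x))
      (fun j => mul_int _ _ humem hφmem (v j) (hv j).1 (hv j).2.1)
      (fun j => m j * ((‖f‖ ^ 2 + ‖h‖ ^ 2) / 2)) (hm.mul_right _)
      (fun j => by
        have h1 : ∫ x, ‖v j x * ((fm tsym f : EE d → ℂ) x * φ x)‖ ≤
            ∫ x, (‖v j x‖ * ‖(fm tsym f : EE d → ℂ) x‖ ^ 2 +
              ‖v j x‖ * ‖(fm tsym h : EE d → ℂ) x‖ ^ 2) / 2 := by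
          refine integral_mono_ae
            (mul_int _ _ humem hφmem (v j) (hv j).1 (hv j).2.1).norm
            (((hI1 j).add (hI2 j)).div_const 2) ?_
          filter_upwards [hThn] with x hx
          simp only [hx, norm_mul]
          have h2 := norm_nonneg (v j x)
          nlinarith [sq_nonneg (‖(fm tsym f : EE d → ℂ) x‖ - ‖φ x‖),
            mul_nonneg h2 (sq_nonneg (‖(fm tsym f : EE d → ℂ) x‖ - ‖φ x‖))]
        refine h1.trans ?_
        rw [integral_div, integral_add (hI1 j) (hI2 j)]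
        have h3 := hmj j f
        have h4 := hmj j h
        linarith)
      (by
        filter_upwards [hV] with x hx
        exact hx.2.mul_right _)
    refine ⟨hS.1.congr (Eventually.of_forall fun x => by ring), ?_⟩
    have hVI : ∫ x, V x * (fm tsym f : EE d → ℂ) x * φ x =
        ∫ x, V x * ((fm tsym f : EE d → ℂ) x * φ x) :=
      integral_congr_ae (Eventually.of_forall fun x => by ring)
    have hHM := hM h f
    have hterm : ∀ j, ⟪h, fm tsym (mulOp (v j) (fm tsym f))⟫_ℂ =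
        ∫ x, v j x * ((fm tsym f : EE d → ℂ) x * φ x) := by
      intro j
      obtain ⟨B, hB⟩ := (hv j).2.1
      rw [← (TST d z hz).2.2.2.2.1, hTh, MeasureTheory.L2.inner_def]
      refine integral_congr_ae ?_
      filter_upwards [χ.coeFn_toLp 2 volume, mulOp_ae (v j) (hv j).1 B hB (fm tsym f)] with x h1 h2
      rw [h1, h2, RCLike.inner_apply', hχ, Complex.conj_conj]
      ring
    simp only [hterm] at hHM
    have hMI : ⟪h, M f⟫_ℂ = ∫ x, V x * ((fm tsym f : EE d → ℂ) x * φ x) := hHM.unique hS.2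
    have hMI2 : ⟪h, M f⟫_ℂ = ∫ ξ, (gT ξ : ℂ) * (starRingEnd ℂ) ((𝓕 χ) ξ) * (𝓕 (M f) : HH d) ξ := by
      rw [← Lp.inner_fourier_eq, MeasureTheory.L2.inner_def]
      refine integral_congr_ae ?_
      filter_upwards [hFh] with ξ h1
      rw [h1, RCLike.inner_apply', map_mul, Complex.conj_ofReal]
    -- the other side
    have hC' : ∀ ξ : EE d, ‖tsym ξ * ssym z ξ‖ ≤ 1 * CS := by
      intro ξ
      rw [norm_mul]
      exact mul_le_mul (tsym_le ξ) (hCS ξ) (norm_nonneg _) zero_le_one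
    have hfe : f = -((g : ℂ) • fm (ssym z) (M f)) := eq_neg_of_add_eq_zero_left hf0
    have hue : fm tsym f = -((g : ℂ) • fm (fun ξ => tsym ξ * ssym z ξ) (M f)) := by
      conv_lhs => rw [hfe]
      rw [map_neg, map_smul, fm_comp tsym (ssym z) tsym_meas 1 tsym_le (ssym_meas z) CS hCS]
    obtain ⟨ψ, hψ⟩ : ∃ ψ : SchwartzMap (EE d) ℂ, ψ = -(Δ χ) - (starRingEnd ℂ z) • χ := ⟨_, rfl⟩
    have hψx : ∀ x, (starRingEnd ℂ) (ψ x) = -(Δ φ) x - z * φ x := by
      intro x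
      have h1 : ψ x = -(Δ χ) x - (starRingEnd ℂ z) * χ x := by
        rw [hψ]; rfl
      rw [h1, hχl, hχ]
      simp
    have hψF : ∀ ξ, (𝓕 ψ) ξ =
        (((4 * Real.pi ^ 2 * ‖ξ‖ ^ 2 : ℝ) : ℂ) - (starRingEnd ℂ z)) * (𝓕 χ) ξ := by
      intro ξ
      have h1 : 𝓕 ψ = -(𝓕 (Δ χ)) - (starRingEnd ℂ z) • (𝓕 χ) := by
        rw [hψ, sub_eq_add_neg, FourierTransform.fourier_add, sub_eq_add_neg]
        congr 1
        · rw [← neg_one_smul ℂ (Δ χ), FourierTransform.fourier_smul, neg_one_smul]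
        · rw [← neg_one_smul ℂ, ← neg_one_smul ℂ ((starRingEnd ℂ z) • (𝓕 χ)),
            FourierTransform.fourier_smul, FourierTransform.fourier_smul]
      have h2 : (𝓕 ψ) ξ = -(𝓕 (Δ χ)) ξ - (starRingEnd ℂ z) * (𝓕 χ) ξ := by
        rw [h1]; rfl
      rw [h2, lap_fourier]
      ring
    have hP := pair_fm (fun ξ => tsym ξ * ssym z ξ) (tsym_meas.mul (ssym_meas z)) (1 * CS) hC'
      (M f) ψ
    have hL1 : ∫ x, (starRingEnd ℂ) (ψ x) * (fm tsym f : EE d → ℂ) x =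
        -(g : ℂ) * ∫ x, (starRingEnd ℂ) (ψ x) *
          (fm (fun ξ => tsym ξ * ssym z ξ) (M f) : EE d → ℂ) x := by
      rw [← integral_const_mul]
      refine integral_congr_ae ?_
      rw [hue]
      filter_upwards [Lp.coeFn_neg ((g : ℂ) • fm (fun ξ => tsym ξ * ssym z ξ) (M f)),
        Lp.coeFn_smul (g : ℂ) (fm (fun ξ => tsym ξ * ssym z ξ) (M f))] with x h1 h2
      rw [h1, Pi.neg_apply, h2, Pi.smul_apply, smul_eq_mul]
      ring
    have hR : ∫ ξ, (starRingEnd ℂ) ((𝓕 ψ) ξ) * (𝓕 (M f) : HH d) ξ * (tsym ξ * ssym z ξ) =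
        ∫ ξ, (gT ξ : ℂ) * (starRingEnd ℂ) ((𝓕 χ) ξ) * (𝓕 (M f) : HH d) ξ := by
      refine integral_congr_ae (Eventually.of_forall fun ξ => ?_)
      simp only [hψF, map_mul, map_sub, Complex.conj_conj, Complex.conj_ofReal, hgTv]
      unfold tsym ssym
      set X : ℂ := ((4 * Real.pi ^ 2 * ‖ξ‖ ^ 2 : ℝ) : ℂ) with hX
      have hne : X - z ≠ 0 := by
        intro h0
        have h1 : (X - z).im = - z.im := by
          rw [hX, Complex.sub_im, Complex.ofReal_im]; ring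
        rw [h0] at h1
        simp at h1
        linarith
      have hpos : 0 < 1 + 4 * Real.pi ^ 2 * ‖ξ‖ ^ 2 := by positivity
      have h4 : ((Real.sqrt (1 + 4 * Real.pi ^ 2 * ‖ξ‖ ^ 2) : ℝ) : ℂ) ≠ 0 := by
        have : 0 < Real.sqrt (1 + 4 * Real.pi ^ 2 * ‖ξ‖ ^ 2) := by positivity
        exact_mod_cast this.ne'
      have h5 : ((1 + 4 * Real.pi ^ 2 * ‖ξ‖ ^ 2 : ℝ) : ℂ) =
          ((Real.sqrt (1 + 4 * Real.pi ^ 2 * ‖ξ‖ ^ 2) : ℝ) : ℂ) *
            ((Real.sqrt (1 + 4 * Real.pi ^ 2 * ‖ξ‖ ^ 2) : ℝ) : ℂ) := by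
        rw [← Complex.ofReal_mul, Real.mul_self_sqrt hpos.le]
      rw [h5, Complex.ofReal_inv]
      field_simp
    have hIu : Integrable (fun x => (fm tsym f : EE d → ℂ) x * φ x) :=
      MemLp.integrable_mul humem hφmem
    have hIl : Integrable (fun x => (fm tsym f : EE d → ℂ) x * (-(Δ φ) x)) := by
      have h1 : MemLp (fun x => (starRingEnd ℂ) ((Δ χ) x)) 2 volume :=
        ((Δ χ).memLp 2 volume).star
      have h2 : Integrable (fun x => (fm tsym f : EE d → ℂ) x * (starRingEnd ℂ) ((Δ χ) x)) :=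
        MemLp.integrable_mul humem h1
      refine h2.neg.congr (Eventually.of_forall fun x => ?_)
      simp only [hχl, Complex.conj_conj, Pi.neg_apply, mul_neg]
    have hL2 : ∫ x, (starRingEnd ℂ) (ψ x) * (fm tsym f : EE d → ℂ) x =
        (∫ x, (fm tsym f : EE d → ℂ) x * (-(Δ φ) x)) -
          z * ∫ x, (fm tsym f : EE d → ℂ) x * φ x := by
      rw [← integral_const_mul, ← integral_sub hIl (hIu.const_mul z)]
      refine integral_congr_ae (Eventually.of_forall fun x => ?_)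
      simp only [hψx]
      ring
    have hfin : (∫ x, (fm tsym f : EE d → ℂ) x * (-(Δ φ) x)) -
        z * (∫ x, (fm tsym f : EE d → ℂ) x * φ x) =
          -(g : ℂ) * ∫ x, V x * ((fm tsym f : EE d → ℂ) x * φ x) := by
      rw [← hL2, hL1, hP, hR, ← hMI2, hMI]
    rw [hVI]
    linear_combination hfin

end

end KRS
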