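import Pool.Agent.H631.KR.Defs

open MeasureTheory Filter Topology ENNReal Complex
open scoped Laplacian FourierTransform InnerProductSpace

namespace KRS

noncomputable section

/-! TARGET: prove the following -/

theorem kernel_bound_fub {α β : Type*} [MeasurableSpace α] [MeasurableSpace β] {μ : Measure α}
    {ν : Measure β} [SFinite μ] [SFinite ν] (u : α → ℂ) (v : β → ℂ) (hu : Integrable u μ)
    (hv : Integrable v ν) (K : α → β → ℂ)
    (hK : AEStronglyMeasurable (fun p : α × β => K p.1 p.2) (μ.prod ν))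
    (hK1 : ∀ x y, ‖K x y‖ ≤ 1) :
    ∫ ξ, (∫ x, K x ξ * u x ∂μ) * v ξ ∂ν = ∫ x, u x * (∫ ξ, K x ξ * v ξ ∂ν) ∂μ := by
  have hint : Integrable (fun p : α × β => K p.1 p.2 * (u p.1 * v p.2)) (μ.prod ν) :=
    (hu.mul_prod hv).bdd_mul (c := 1) hK (ae_of_all _ fun p => hK1 p.1 p.2)
  calc ∫ ξ, (∫ x, K x ξ * u x ∂μ) * v ξ ∂ν = ∫ ξ, ∫ x, K x ξ * (u x * v ξ) ∂μ ∂ν := by
        refine integral_congr_ae (ae_of_all _ fun ξ => ?_)
        simp only
        rw [← integral_mul_const]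
        refine integral_congr_ae (ae_of_all _ fun x => ?_)
        simp only
        ring
    _ = ∫ x, ∫ ξ, K x ξ * (u x * v ξ) ∂ν ∂μ := (integral_integral_swap hint).symm
    _ = ∫ x, u x * (∫ ξ, K x ξ * v ξ ∂ν) ∂μ := by
        refine integral_congr_ae (ae_of_all _ fun x => ?_)
        simp only
        rw [← integral_const_mul]
        refine integral_congr_ae (ae_of_all _ fun ξ => ?_)
        simp only
        ring

theorem kernel_bound_n1 (t : ℝ) : ‖Complex.exp ((t : ℂ) * I)‖ = 1 :=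
  Complex.norm_exp_ofReal_mul_I t

theorem kernel_bound_cont {d : ℕ} (u : EE d → ℂ) (hu : Integrable u) :
    Continuous (fun ξ : EE d =>
      ∫ x : EE d, Complex.exp (((-2 * Real.pi * inner ℝ ξ x : ℝ) : ℂ) * I) * u x) := by
  refine continuous_of_dominated (bound := fun x => ‖u x‖) ?_ ?_ hu.norm ?_
  · intro ξ
    refine AEStronglyMeasurable.mul ?_ hu.1
    exact (by fun_prop : Continuous fun x : EE d =>
      Complex.exp (((-2 * Real.pi * inner ℝ ξ x : ℝ) : ℂ) * I)).aestronglyMeasurable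
  · intro ξ
    refine ae_of_all _ fun x => ?_
    rw [norm_mul, kernel_bound_n1, one_mul]
  · refine ae_of_all _ fun x => ?_
    fun_prop

theorem kernel_bound_ident {d : ℕ} (f : HH d) (hf : Integrable (f : EE d → ℂ)) :
    ((𝓕 f : HH d) : EE d → ℂ) =ᵐ[volume] fun ξ : EE d =>
      ∫ x : EE d, Complex.exp (((-2 * Real.pi * inner ℝ ξ x : ℝ) : ℂ) * I) * (f : EE d → ℂ) x := by
  have hloc : LocallyIntegrable ((𝓕 f : HH d) : EE d → ℂ) volume :=
    (Lp.memLp (𝓕 f : HH d)).locallyIntegrable (by norm_num)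
  have hloc2 := (kernel_bound_cont _ hf).locallyIntegrable (μ := volume)
  refine ae_eq_of_integral_contDiff_smul_eq hloc hloc2 ?_
  intro g hg hgc
  have hg' : ContDiff ℝ (⊤ : ℕ∞) (fun x => (g x : ℂ)) := Complex.ofRealCLM.contDiff.comp hg
  have hgc' : HasCompactSupport (fun x => (g x : ℂ)) :=
    hgc.comp_left (g := fun x : ℝ => (x : ℂ)) (by simp)
  let φ : SchwartzMap (EE d) ℂ := hgc'.toSchwartzMap hg'
  have hφ : ∀ x, φ x = (g x : ℂ) := fun x => rfl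
  have h1 := congrArg (fun T => T φ) (Lp.fourier_toTemperedDistribution_eq f)
  simp only [TemperedDistribution.fourier_apply, Lp.toTemperedDistribution_apply] at h1
  have h2 : ∀ x : EE d, (𝓕 φ : SchwartzMap (EE d) ℂ) x =
      ∫ ξ : EE d, Complex.exp (((-2 * Real.pi * inner ℝ ξ x : ℝ) : ℂ) * I) * φ ξ := by
    intro x
    rw [SchwartzMap.fourier_coe, Real.fourier_eq']
    simp only [smul_eq_mul]
  have h3 := kernel_bound_fub (μ := (volume : Measure (EE d))) (ν := (volume : Measure (EE d)))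
    (φ : EE d → ℂ) (f : EE d → ℂ) φ.integrable hf
    (fun ξ x => Complex.exp (((-2 * Real.pi * inner ℝ ξ x : ℝ) : ℂ) * I))
    ((by fun_prop : Continuous fun p : EE d × EE d =>
      Complex.exp (((-2 * Real.pi * inner ℝ p.1 p.2 : ℝ) : ℂ) * I)).aestronglyMeasurable)
    (fun x y => (kernel_bound_n1 _).le)
  simp only [h2, smul_eq_mul] at h1
  rw [h3] at h1
  simp only [hφ] at h1
  simp only [Complex.real_smul]
  exact h1.symm

/-- the Gaussian kernel -/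
def kernel_bound_H {d : ℕ} (η s : ℝ) (z : EE d) : ℂ :=
  ((Real.pi : ℂ) / (4 * Real.pi ^ 2 * ((η : ℂ) + (s : ℂ) * I))) ^ (((d : ℝ) / 2 : ℝ) : ℂ) *
    Complex.exp ((2 * Real.pi * I) ^ 2 * (‖z‖ : ℂ) ^ 2 /
      (4 * (4 * Real.pi ^ 2 * ((η : ℂ) + (s : ℂ) * I))))

theorem kernel_bound_Hne {η s : ℝ} (hs : 0 < s) : (η : ℂ) + (s : ℂ) * I ≠ 0 := by
  intro h
  have := congrArg Complex.im h
  simp at this
  exact hs.ne' this

theorem kernel_bound_Hb {d : ℕ} {η s : ℝ} (hη : 0 ≤ η) (hs : 0 < s) (z : EE d) :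
    ‖kernel_bound_H η s z‖ ≤ s ^ (-((d : ℝ) / 2)) := by
  have hne := kernel_bound_Hne (η := η) hs
  have hpi : (Real.pi : ℂ) ≠ 0 := by exact_mod_cast Real.pi_ne_zero
  unfold kernel_bound_H
  rw [norm_mul, Complex.norm_cpow_real]
  have h1 : ‖Complex.exp ((2 * Real.pi * I) ^ 2 * (‖z‖ : ℂ) ^ 2 /
      (4 * (4 * Real.pi ^ 2 * ((η : ℂ) + (s : ℂ) * I))))‖ ≤ 1 := by
    have e1 : (2 * Real.pi * I) ^ 2 * (‖z‖ : ℂ) ^ 2 /
        (4 * (4 * Real.pi ^ 2 * ((η : ℂ) + (s : ℂ) * I))) =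
        ((-(‖z‖ ^ 2 / 4) : ℝ) : ℂ) * ((η : ℂ) + (s : ℂ) * I)⁻¹ := by
      push_cast
      rw [mul_pow, Complex.I_sq]
      field_simp
      ring
    rw [e1, Complex.norm_exp, Complex.re_ofReal_mul, Complex.inv_re]
    rw [Real.exp_le_one_iff]
    have h2 : 0 ≤ ((η : ℂ) + (s : ℂ) * I).re / Complex.normSq ((η : ℂ) + (s : ℂ) * I) := by
      apply div_nonneg
      · simpa using hη
      · exact Complex.normSq_nonneg _
    have h3 : 0 ≤ ‖z‖ ^ 2 / 4 := by positivity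
    nlinarith
  have h2 : ‖(Real.pi : ℂ) / (4 * Real.pi ^ 2 * ((η : ℂ) + (s : ℂ) * I))‖ ≤ s⁻¹ := by
    rw [norm_div, norm_mul]
    have e1 : ‖(Real.pi : ℂ)‖ = Real.pi := by
      rw [Complex.norm_real, Real.norm_eq_abs, abs_of_pos Real.pi_pos]
    have e2 : ‖(4 * Real.pi ^ 2 : ℂ)‖ = 4 * Real.pi ^ 2 := by
      rw [norm_mul, norm_pow, e1]
      simp
    have e3 : s ≤ ‖(η : ℂ) + (s : ℂ) * I‖ := by
      have := Complex.abs_im_le_norm ((η : ℂ) + (s : ℂ) * I)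
      have e4 : ((η : ℂ) + (s : ℂ) * I).im = s := by simp
      rw [e4, abs_of_pos hs] at this
      exact this
    rw [e1, e2, div_le_iff₀ (by positivity)]
    have hp := Real.pi_gt_three
    have e5 : s⁻¹ * (4 * Real.pi ^ 2 * ‖(η : ℂ) + (s : ℂ) * I‖) =
        4 * Real.pi ^ 2 * (‖(η : ℂ) + (s : ℂ) * I‖ * s⁻¹) := by ring
    rw [e5]
    have e6 : 1 ≤ ‖(η : ℂ) + (s : ℂ) * I‖ * s⁻¹ := by
      rw [← div_eq_mul_inv, le_div_iff₀ hs, one_mul]
      exact e3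
    nlinarith
  have h3 : ‖(Real.pi : ℂ) / (4 * Real.pi ^ 2 * ((η : ℂ) + (s : ℂ) * I))‖ ^ ((d : ℝ) / 2) ≤
      s ^ (-((d : ℝ) / 2)) := by
    rw [Real.rpow_neg hs.le, ← Real.inv_rpow hs.le]
    exact Real.rpow_le_rpow (norm_nonneg _) h2 (by positivity)
  calc _ ≤ s ^ (-((d : ℝ) / 2)) * 1 :=
        mul_le_mul h3 h1 (norm_nonneg _) (Real.rpow_nonneg hs.le _)
    _ = _ := mul_one _

theorem kernel_bound_HL {d : ℕ} {s : ℝ} (hs : 0 < s) (z : EE d) :
    Tendsto (fun n : ℕ => kernel_bound_H (1 / ((n : ℝ) + 1)) s z) atTop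
      (𝓝 (kernel_bound_H 0 s z)) := by
  have hne := kernel_bound_Hne (η := 0) hs
  have hpi : (Real.pi : ℂ) ≠ 0 := by exact_mod_cast Real.pi_ne_zero
  have hc : ContinuousAt (fun η : ℝ => kernel_bound_H η s z) 0 := by
    unfold kernel_bound_H
    have hden : (4 * Real.pi ^ 2 * (((0 : ℝ) : ℂ) + (s : ℂ) * I)) ≠ 0 :=
      mul_ne_zero (mul_ne_zero (by norm_num) (pow_ne_zero 2 hpi)) hne
    have hb : ContinuousAt (fun η : ℝ => (4 * Real.pi ^ 2 * ((η : ℂ) + (s : ℂ) * I))) 0 := by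
      fun_prop
    refine ContinuousAt.mul ?_ ?_
    · refine ContinuousAt.cpow (continuousAt_const.div hb hden) continuousAt_const ?_
      rw [Complex.mem_slitPlane_iff]
      right
      have e1 : (Real.pi : ℂ) / (4 * Real.pi ^ 2 * (((0 : ℝ) : ℂ) + (s : ℂ) * I)) =
          ((-(1 / (4 * Real.pi * s)) : ℝ) : ℂ) * I := by
        have hs' : (s : ℂ) ≠ 0 := by exact_mod_cast hs.ne'
        push_cast
        field_simp
        rw [zero_add]
        linear_combination (s : ℂ) * Complex.I_mul_I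
      rw [e1]
      simp only [Complex.mul_im, Complex.ofReal_re, Complex.I_im, mul_one, Complex.ofReal_im,
        Complex.I_re, mul_zero, add_zero]
      have : 0 < 1 / (4 * Real.pi * s) := by positivity
      linarith
    · refine Complex.continuous_exp.continuousAt.comp ?_
      exact continuousAt_const.div (continuousAt_const.mul hb)
        (mul_ne_zero (by norm_num) hden)
  exact hc.tendsto.comp (tendsto_one_div_add_atTop_nhds_zero_nat (𝕜 := ℝ))

theorem kernel_bound_H0 (d : ℕ) : ∃ c : ℂ, ‖c‖ ≤ 1 ∧ ∀ (s : ℝ) (z : EE d), 0 < s →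
    kernel_bound_H 0 s z = c * (((s ^ (-((d : ℝ) / 2)) : ℝ) : ℂ) *
      Complex.exp (I * ((‖z‖ ^ 2 / (4 * s) : ℝ) : ℂ))) := by
  have hpi : (Real.pi : ℂ) ≠ 0 := by exact_mod_cast Real.pi_ne_zero
  refine ⟨(((4 * Real.pi : ℝ) : ℂ)⁻¹ * (-I)) ^ (((d : ℝ) / 2 : ℝ) : ℂ), ?_, ?_⟩
  · rw [Complex.norm_cpow_real, norm_mul, norm_neg, Complex.norm_I, mul_one, norm_inv,
      Complex.norm_real, Real.norm_eq_abs, abs_of_pos (by positivity)]
    apply Real.rpow_le_one (by positivity) _ (by positivity)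
    apply inv_le_one_of_one_le₀
    have := Real.pi_gt_three
    linarith
  · intro s z hs
    have hs' : (s : ℂ) ≠ 0 := by exact_mod_cast hs.ne'
    unfold kernel_bound_H
    have hx0 : (((4 * Real.pi : ℝ) : ℂ)⁻¹ * (-I)) ≠ 0 := by
      refine mul_ne_zero (inv_ne_zero ?_) (neg_ne_zero.2 Complex.I_ne_zero)
      exact_mod_cast (by positivity : (4 * Real.pi : ℝ) ≠ 0)
    have e1 : (Real.pi : ℂ) / (4 * Real.pi ^ 2 * (((0 : ℝ) : ℂ) + (s : ℂ) * I)) =
        ((s⁻¹ : ℝ) : ℂ) * (((4 * Real.pi : ℝ) : ℂ)⁻¹ * (-I)) := by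
      push_cast
      rw [zero_add]
      field_simp
      rw [Complex.I_sq]
      ring
    have e2 : (2 * Real.pi * I) ^ 2 * (‖z‖ : ℂ) ^ 2 /
        (4 * (4 * Real.pi ^ 2 * (((0 : ℝ) : ℂ) + (s : ℂ) * I))) =
        I * ((‖z‖ ^ 2 / (4 * s) : ℝ) : ℂ) := by
      push_cast
      rw [zero_add]
      field_simp
      ring
    have hr : (0 : ℝ) < s⁻¹ := inv_pos.2 hs
    have e3 : (((s⁻¹ : ℝ) : ℂ) * (((4 * Real.pi : ℝ) : ℂ)⁻¹ * (-I))) ^ (((d : ℝ) / 2 : ℝ) : ℂ) =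
        ((s ^ (-((d : ℝ) / 2)) : ℝ) : ℂ) *
          (((4 * Real.pi : ℝ) : ℂ)⁻¹ * (-I)) ^ (((d : ℝ) / 2 : ℝ) : ℂ) := by
      rw [Complex.cpow_def_of_ne_zero (mul_ne_zero (by exact_mod_cast hr.ne') hx0),
        Complex.log_ofReal_mul hr hx0, add_mul, Complex.exp_add,
        ← Complex.cpow_def_of_ne_zero hx0]
      congr 1
      rw [Real.rpow_neg hs.le, ← Real.inv_rpow hs.le, Real.rpow_def_of_pos hr,
        Complex.ofReal_exp, Complex.ofReal_mul]
    rw [e1, e2, e3]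
    ring

theorem kernel_bound_Hm {d : ℕ} (η : ℝ) (z : EE d) :
    Measurable (fun s : ℝ => kernel_bound_H η s z) := by
  unfold kernel_bound_H
  refine Measurable.mul ?_ ?_
  · refine Measurable.pow_const ?_ _
    fun_prop
  · fun_prop

theorem kernel_bound_Hc {d : ℕ} (η s : ℝ) :
    Continuous (fun z : EE d => kernel_bound_H η s z) := by
  unfold kernel_bound_H
  refine continuous_const.mul (Complex.continuous_exp.comp ?_)
  refine Continuous.div_const ?_ _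
  fun_prop

theorem kernel_bound_Hi {d : ℕ} {η : ℝ} (hη : 0 < η) (s : ℝ) (z : EE d) :
    ∫ ξ : EE d, Complex.exp (-(I * ((s * (4 * Real.pi ^ 2 * ‖ξ‖ ^ 2) : ℝ) : ℂ))) *
      (Complex.exp (((2 * Real.pi * inner ℝ z ξ : ℝ) : ℂ) * I) *
        Complex.exp (-((η * (4 * Real.pi ^ 2 * ‖ξ‖ ^ 2) : ℝ) : ℂ))) = kernel_bound_H η s z := by
  have hb : 0 < (4 * (Real.pi : ℂ) ^ 2 * ((η : ℂ) + (s : ℂ) * I)).re := by
    have e1 : (4 * (Real.pi : ℂ) ^ 2 * ((η : ℂ) + (s : ℂ) * I)) =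
        ((4 * Real.pi ^ 2 : ℝ) : ℂ) * ((η : ℂ) + (s : ℂ) * I) := by push_cast; ring
    rw [e1, Complex.re_ofReal_mul]
    simp only [Complex.add_re, Complex.ofReal_re, Complex.mul_re, Complex.I_re, mul_zero,
      Complex.ofReal_im, Complex.I_im, mul_one, sub_self, add_zero]
    positivity
  have h1 := GaussianFourier.integral_cexp_neg_mul_sq_norm_add_of_euclideanSpace (ι := Fin d) hb
    (2 * Real.pi * I) z
  have h2 : ∀ ξ : EE d, Complex.exp (-(I * ((s * (4 * Real.pi ^ 2 * ‖ξ‖ ^ 2) : ℝ) : ℂ))) *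
      (Complex.exp (((2 * Real.pi * inner ℝ z ξ : ℝ) : ℂ) * I) *
        Complex.exp (-((η * (4 * Real.pi ^ 2 * ‖ξ‖ ^ 2) : ℝ) : ℂ))) =
      Complex.exp (-(4 * (Real.pi : ℂ) ^ 2 * ((η : ℂ) + (s : ℂ) * I)) * (‖ξ‖ : ℂ) ^ 2 +
        (2 * Real.pi * I) * ((inner ℝ z ξ : ℝ) : ℂ)) := by
    intro ξ
    rw [← Complex.exp_add, ← Complex.exp_add]
    congr 1
    push_cast
    ring
  simp only [h2]
  rw [h1, kernel_bound_H, Fintype.card_fin]
  push_cast
  rfl

theorem kernel_bound_gi {d : ℕ} {η : ℝ} (hη : 0 < η) :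
    Integrable (fun ξ : EE d => Complex.exp (-((η * (4 * Real.pi ^ 2 * ‖ξ‖ ^ 2) : ℝ) : ℂ))) := by
  have hb : 0 < (((η * (4 * Real.pi ^ 2)) : ℝ) : ℂ).re := by
    rw [Complex.ofReal_re]; positivity
  have h1 := GaussianFourier.integrable_cexp_neg_mul_sq_norm_add_of_euclideanSpace (ι := Fin d) hb
    0 0
  refine h1.congr (ae_of_all _ fun ξ => ?_)
  simp only
  congr 1
  push_cast
  ring

theorem kernel_bound_int {d : ℕ} (L : ℝ) (f : HH d)
    (hf : ∀ᵐ x : EE d, L < ‖x‖ → (f : EE d → ℂ) x = 0) : Integrable (f : EE d → ℂ) := by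
  have h1 : IntegrableOn (f : EE d → ℂ) (Metric.closedBall 0 L) := by
    have h2 := (Lp.memLp f).restrict (Metric.closedBall (0 : EE d) L)
    haveI : IsFiniteMeasure ((volume : Measure (EE d)).restrict (Metric.closedBall 0 L)) :=
      ⟨by rw [Measure.restrict_apply_univ]; exact measure_closedBall_lt_top⟩
    exact h2.integrable one_le_two
  refine h1.integrable_of_ae_notMem_eq_zero ?_
  filter_upwards [hf] with x hx hxn
  apply hx
  rw [Metric.mem_closedBall, dist_zero_right] at hxn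
  exact not_le.1 hxn

/-- the kernel after the `s` integration -/
def kernel_bound_k {d : ℕ} (A : ℝ → ℂ) (η : ℝ) (z : EE d) : ℂ :=
  ∫ s in Set.Ioi (0 : ℝ), A s * kernel_bound_H η s z

theorem kernel_bound_kdom {d : ℕ} (A : ℝ → ℂ) {η : ℝ} (hη : 0 ≤ η) (z : EE d) (s : ℝ)
    (hs : 0 < s) :
    ‖A s * kernel_bound_H η s z‖ ≤ ‖A s * ((s ^ (-((d : ℝ) / 2)) : ℝ) : ℂ)‖ := by
  rw [norm_mul, norm_mul, Complex.norm_real, Real.norm_eq_abs,
    abs_of_nonneg (Real.rpow_nonneg hs.le _)]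
  exact mul_le_mul_of_nonneg_left (kernel_bound_Hb hη hs z) (norm_nonneg _)

theorem kernel_bound_kle {d : ℕ} (A : ℝ → ℂ)
    (hA2 : IntegrableOn (fun s => A s * ((s ^ (-((d : ℝ) / 2)) : ℝ) : ℂ)) (Set.Ioi 0)) {η : ℝ}
    (hη : 0 ≤ η) (z : EE d) : ‖kernel_bound_k A η z‖ ≤
      ∫ s in Set.Ioi (0 : ℝ), ‖A s * ((s ^ (-((d : ℝ) / 2)) : ℝ) : ℂ)‖ := by
  refine norm_integral_le_of_norm_le hA2.norm ?_
  filter_upwards [ae_restrict_mem measurableSet_Ioi] with s hs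
  exact kernel_bound_kdom A hη z s hs

theorem kernel_bound_kc {d : ℕ} (A : ℝ → ℂ) (hA : IntegrableOn A (Set.Ioi 0))
    (hA2 : IntegrableOn (fun s => A s * ((s ^ (-((d : ℝ) / 2)) : ℝ) : ℂ)) (Set.Ioi 0)) {η : ℝ}
    (hη : 0 ≤ η) : Continuous (fun z : EE d => kernel_bound_k A η z) := by
  unfold kernel_bound_k
  refine continuous_of_dominated
    (bound := fun s => ‖A s * ((s ^ (-((d : ℝ) / 2)) : ℝ) : ℂ)‖) ?_ ?_ hA2.norm ?_
  · intro z
    exact hA.1.mul (kernel_bound_Hm η z).aestronglyMeasurable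
  · intro z
    filter_upwards [ae_restrict_mem measurableSet_Ioi] with s hs
    exact kernel_bound_kdom A hη z s hs
  · exact ae_of_all _ fun s => continuous_const.mul (kernel_bound_Hc η s)

theorem kernel_bound_kl {d : ℕ} (A : ℝ → ℂ) (hA : IntegrableOn A (Set.Ioi 0))
    (hA2 : IntegrableOn (fun s => A s * ((s ^ (-((d : ℝ) / 2)) : ℝ) : ℂ)) (Set.Ioi 0))
    (z : EE d) : Tendsto (fun n : ℕ => kernel_bound_k A (1 / ((n : ℝ) + 1)) z) atTop
      (𝓝 (kernel_bound_k A 0 z)) := by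
  unfold kernel_bound_k
  refine tendsto_integral_of_dominated_convergence
    (fun s => ‖A s * ((s ^ (-((d : ℝ) / 2)) : ℝ) : ℂ)‖) ?_ hA2.norm ?_ ?_
  · intro n
    exact hA.1.mul (kernel_bound_Hm _ z).aestronglyMeasurable
  · intro n
    filter_upwards [ae_restrict_mem measurableSet_Ioi] with s hs
    exact kernel_bound_kdom A (by positivity) z s hs
  · filter_upwards [ae_restrict_mem measurableSet_Ioi] with s hs
    exact (kernel_bound_HL hs z).const_mul (A s)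

theorem kernel_bound_k0 {d : ℕ} (A : ℝ → ℂ) (L B : ℝ) (hB0 : 0 ≤ B)
    (hB : ∀ r : ℝ, 0 ≤ r → r ≤ 2 * L → ‖∫ s in Set.Ioi (0 : ℝ), A s *
      ((s ^ (-((d : ℝ) / 2)) : ℝ) : ℂ) * Complex.exp (I * ((r ^ 2 / (4 * s) : ℝ) : ℂ))‖ ≤ B)
    (z : EE d) (hz : ‖z‖ ≤ 2 * L) : ‖kernel_bound_k A 0 z‖ ≤ B := by
  obtain ⟨c, hc, h⟩ := kernel_bound_H0 d
  have h1 : kernel_bound_k A 0 z = c * ∫ s in Set.Ioi (0 : ℝ), A s *
      ((s ^ (-((d : ℝ) / 2)) : ℝ) : ℂ) * Complex.exp (I * ((‖z‖ ^ 2 / (4 * s) : ℝ) : ℂ)) := by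
    unfold kernel_bound_k
    rw [← integral_const_mul]
    refine setIntegral_congr_fun measurableSet_Ioi fun s hs => ?_
    rw [h s z hs]
    ring
  rw [h1, norm_mul]
  calc _ ≤ 1 * B := mul_le_mul hc (hB ‖z‖ (norm_nonneg _) hz) (norm_nonneg _) zero_le_one
    _ = B := one_mul B

theorem kernel_bound_Mc {d : ℕ} (A : ℝ → ℂ) (hA : IntegrableOn A (Set.Ioi 0)) :
    Continuous (fun ξ : EE d => ∫ s in Set.Ioi (0 : ℝ), A s *
        Complex.exp (-(I * ((s * (4 * Real.pi ^ 2 * ‖ξ‖ ^ 2) : ℝ) : ℂ)))) := by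
  refine continuous_of_dominated (bound := fun s => ‖A s‖) ?_ ?_ hA.norm ?_
  · intro ξ
    exact hA.1.mul (by fun_prop : Continuous fun s : ℝ =>
      Complex.exp (-(I * ((s * (4 * Real.pi ^ 2 * ‖ξ‖ ^ 2) : ℝ) : ℂ)))).aestronglyMeasurable
  · intro ξ
    refine ae_of_all _ fun s => ?_
    rw [norm_mul, ← mul_neg, ← Complex.ofReal_neg, mul_comm I, kernel_bound_n1, mul_one]
  · refine ae_of_all _ fun s => ?_
    fun_prop

theorem kernel_bound_Mle {d : ℕ} (A : ℝ → ℂ) (hA : IntegrableOn A (Set.Ioi 0)) (ξ : EE d) :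
    ‖∫ s in Set.Ioi (0 : ℝ), A s *
        Complex.exp (-(I * ((s * (4 * Real.pi ^ 2 * ‖ξ‖ ^ 2) : ℝ) : ℂ)))‖ ≤
      ∫ s in Set.Ioi (0 : ℝ), ‖A s‖ := by
  refine norm_integral_le_of_norm_le hA.norm (ae_of_all _ fun s => ?_)
  rw [norm_mul, ← mul_neg, ← Complex.ofReal_neg, mul_comm I, kernel_bound_n1, mul_one]

/-- the `s` integration -/
theorem kernel_bound_ks {d : ℕ} (A : ℝ → ℂ) (hA : IntegrableOn A (Set.Ioi 0)) {η : ℝ}
    (hη : 0 < η) (z : EE d) :
    ∫ ξ : EE d, Complex.exp (((2 * Real.pi * inner ℝ z ξ : ℝ) : ℂ) * I) *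
      (Complex.exp (-((η * (4 * Real.pi ^ 2 * ‖ξ‖ ^ 2) : ℝ) : ℂ)) *
        ∫ s in Set.Ioi (0 : ℝ), A s *
          Complex.exp (-(I * ((s * (4 * Real.pi ^ 2 * ‖ξ‖ ^ 2) : ℝ) : ℂ)))) =
      kernel_bound_k A η z := by
  have hv : Integrable (fun ξ : EE d => Complex.exp (((2 * Real.pi * inner ℝ z ξ : ℝ) : ℂ) * I) *
        Complex.exp (-((η * (4 * Real.pi ^ 2 * ‖ξ‖ ^ 2) : ℝ) : ℂ))) := by
    refine (kernel_bound_gi hη).bdd_mul (c := 1) ?_ (ae_of_all _ fun ξ => (kernel_bound_n1 _).le)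
    exact (by fun_prop : Continuous fun ξ : EE d =>
      Complex.exp (((2 * Real.pi * inner ℝ z ξ : ℝ) : ℂ) * I)).aestronglyMeasurable
  have h1 := kernel_bound_fub (μ := volume.restrict (Set.Ioi (0 : ℝ)))
    (ν := (volume : Measure (EE d))) A _ hA hv
    (fun s ξ => Complex.exp (-(I * ((s * (4 * Real.pi ^ 2 * ‖ξ‖ ^ 2) : ℝ) : ℂ))))
    ((by fun_prop : Continuous fun p : ℝ × EE d =>
      Complex.exp (-(I * ((p.1 * (4 * Real.pi ^ 2 * ‖p.2‖ ^ 2) : ℝ) : ℂ)))).aestronglyMeasurable)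
    (fun s ξ => by rw [← mul_neg, ← Complex.ofReal_neg, mul_comm I, kernel_bound_n1])
  unfold kernel_bound_k
  have h2 : ∀ s : ℝ, A s * ∫ ξ : EE d,
      Complex.exp (-(I * ((s * (4 * Real.pi ^ 2 * ‖ξ‖ ^ 2) : ℝ) : ℂ))) *
      (Complex.exp (((2 * Real.pi * inner ℝ z ξ : ℝ) : ℂ) * I) *
        Complex.exp (-((η * (4 * Real.pi ^ 2 * ‖ξ‖ ^ 2) : ℝ) : ℂ))) =
      A s * kernel_bound_H η s z := fun s => by rw [kernel_bound_Hi hη s z]
  simp only [h2] at h1
  rw [← h1]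
  refine integral_congr_ae (ae_of_all _ fun ξ => ?_)
  simp only
  have h3 : ∫ s in Set.Ioi (0 : ℝ), A s *
          Complex.exp (-(I * ((s * (4 * Real.pi ^ 2 * ‖ξ‖ ^ 2) : ℝ) : ℂ))) =
      ∫ s in Set.Ioi (0 : ℝ), Complex.exp (-(I * ((s * (4 * Real.pi ^ 2 * ‖ξ‖ ^ 2) : ℝ) : ℂ))) *
        A s := by
    refine integral_congr_ae (ae_of_all _ fun s => ?_)
    simp only
    ring
  rw [h3]
  ring

/-- the `x`, `y` integrations -/
theorem kernel_bound_xy {d : ℕ} (F G m : EE d → ℂ) (hF : Integrable F) (hG : Integrable G)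
    (hm : Integrable m) :
    ∫ ξ : EE d, (starRingEnd ℂ) (∫ x : EE d,
        Complex.exp (((-2 * Real.pi * inner ℝ ξ x : ℝ) : ℂ) * I) * G x) *
      (∫ x : EE d, Complex.exp (((-2 * Real.pi * inner ℝ ξ x : ℝ) : ℂ) * I) * F x) * m ξ =
    ∫ y : EE d, F y * ∫ x : EE d, (starRingEnd ℂ) (G x) * ∫ ξ : EE d,
      Complex.exp (((2 * Real.pi * inner ℝ (x - y) ξ : ℝ) : ℂ) * I) * m ξ := by
  have hGc := kernel_bound_cont G hG
  have hcc : ∀ ξ : EE d, (starRingEnd ℂ) (∫ x : EE d,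
        Complex.exp (((-2 * Real.pi * inner ℝ ξ x : ℝ) : ℂ) * I) * G x) =
      ∫ x : EE d, Complex.exp (((2 * Real.pi * inner ℝ ξ x : ℝ) : ℂ) * I) *
        (starRingEnd ℂ) (G x) := by
    intro ξ
    rw [← integral_conj]
    refine integral_congr_ae (ae_of_all _ fun x => ?_)
    simp only
    rw [map_mul, ← Complex.exp_conj, map_mul, Complex.conj_ofReal, Complex.conj_I]
    congr 2
    push_cast
    ring
  have hGle : ∀ ξ : EE d, ‖(starRingEnd ℂ) (∫ x : EE d,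
        Complex.exp (((-2 * Real.pi * inner ℝ ξ x : ℝ) : ℂ) * I) * G x)‖ ≤ ∫ x, ‖G x‖ := by
    intro ξ
    rw [RCLike.norm_conj]
    refine norm_integral_le_of_norm_le hG.norm (ae_of_all _ fun x => ?_)
    rw [norm_mul, kernel_bound_n1, one_mul]
  have hv : Integrable (fun ξ : EE d => (starRingEnd ℂ) (∫ x : EE d,
        Complex.exp (((-2 * Real.pi * inner ℝ ξ x : ℝ) : ℂ) * I) * G x) * m ξ) :=
    hm.bdd_mul (c := ∫ x, ‖G x‖) (Complex.continuous_conj.comp hGc).aestronglyMeasurable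
      (ae_of_all _ hGle)
  have h1 := kernel_bound_fub (μ := (volume : Measure (EE d))) (ν := (volume : Measure (EE d)))
    F _ hF hv (fun y ξ => Complex.exp (((-2 * Real.pi * inner ℝ ξ y : ℝ) : ℂ) * I))
    ((by fun_prop : Continuous fun p : EE d × EE d =>
      Complex.exp (((-2 * Real.pi * inner ℝ p.2 p.1 : ℝ) : ℂ) * I)).aestronglyMeasurable)
    (fun x y => (kernel_bound_n1 _).le)
  have h2 : ∀ y : EE d, ∫ ξ : EE d, Complex.exp (((-2 * Real.pi * inner ℝ ξ y : ℝ) : ℂ) * I) *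
      ((starRingEnd ℂ) (∫ x : EE d,
        Complex.exp (((-2 * Real.pi * inner ℝ ξ x : ℝ) : ℂ) * I) * G x) * m ξ) =
      ∫ x : EE d, (starRingEnd ℂ) (G x) * ∫ ξ : EE d,
        Complex.exp (((2 * Real.pi * inner ℝ (x - y) ξ : ℝ) : ℂ) * I) * m ξ := by
    intro y
    have hw : Integrable (fun ξ : EE d =>
        Complex.exp (((-2 * Real.pi * inner ℝ ξ y : ℝ) : ℂ) * I) * m ξ) := by
      refine hm.bdd_mul (c := 1) ?_ (ae_of_all _ fun ξ => (kernel_bound_n1 _).le)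
      exact (by fun_prop : Continuous fun ξ : EE d =>
        Complex.exp (((-2 * Real.pi * inner ℝ ξ y : ℝ) : ℂ) * I)).aestronglyMeasurable
    have hG' : Integrable (fun x => (starRingEnd ℂ) (G x)) :=
      Integrable.mono hG (Complex.continuous_conj.comp_aestronglyMeasurable hG.1)
        (ae_of_all _ fun x => by rw [RCLike.norm_conj])
    have h3 := kernel_bound_fub (μ := (volume : Measure (EE d)))
      (ν := (volume : Measure (EE d))) _ _ hG' hw
      (fun x ξ => Complex.exp (((2 * Real.pi * inner ℝ ξ x : ℝ) : ℂ) * I))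
      ((by fun_prop : Continuous fun p : EE d × EE d =>
        Complex.exp (((2 * Real.pi * inner ℝ p.2 p.1 : ℝ) : ℂ) * I)).aestronglyMeasurable)
      (fun x y => (kernel_bound_n1 _).le)
    have h4 : ∀ x : EE d, ∫ ξ : EE d,
        Complex.exp (((2 * Real.pi * inner ℝ ξ x : ℝ) : ℂ) * I) *
          (Complex.exp (((-2 * Real.pi * inner ℝ ξ y : ℝ) : ℂ) * I) * m ξ) =
        ∫ ξ : EE d, Complex.exp (((2 * Real.pi * inner ℝ (x - y) ξ : ℝ) : ℂ) * I) * m ξ := by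
      intro x
      refine integral_congr_ae (ae_of_all _ fun ξ => ?_)
      simp only
      rw [← mul_assoc, ← Complex.exp_add]
      congr 2
      rw [inner_sub_left, real_inner_comm x ξ, real_inner_comm y ξ]
      push_cast
      ring
    simp only [h4] at h3
    rw [← h3]
    refine integral_congr_ae (ae_of_all _ fun ξ => ?_)
    simp only
    rw [hcc ξ]
    ring
  simp only [h2] at h1
  rw [← h1]
  refine integral_congr_ae (ae_of_all _ fun ξ => ?_)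
  simp only
  ring

theorem kernel_bound (d : ℕ) (A : ℝ → ℂ) (hA : IntegrableOn A (Set.Ioi 0))
    (hA2 : IntegrableOn (fun s => A s * ((s ^ (-((d : ℝ) / 2)) : ℝ) : ℂ)) (Set.Ioi 0)) (L B : ℝ)
    (hB0 : 0 ≤ B)
    (hB : ∀ r : ℝ, 0 ≤ r → r ≤ 2 * L → ‖∫ s in Set.Ioi (0 : ℝ), A s *
      ((s ^ (-((d : ℝ) / 2)) : ℝ) : ℂ) * Complex.exp (I * ((r ^ 2 / (4 * s) : ℝ) : ℂ))‖ ≤ B)
    (f g : HH d) (hf : ∀ᵐ x : EE d, L < ‖x‖ → (f : EE d → ℂ) x = 0)
    (hg : ∀ᵐ x : EE d, L < ‖x‖ → (g : EE d → ℂ) x = 0) :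
    ‖∫ ξ : EE d, (starRingEnd ℂ) ((𝓕 g : HH d) ξ) * (𝓕 f : HH d) ξ *
      (∫ s in Set.Ioi (0 : ℝ), A s *
        Complex.exp (-(I * ((s * (4 * Real.pi ^ 2 * ‖ξ‖ ^ 2) : ℝ) : ℂ))))‖ ≤
      B * (∫ x, ‖(f : EE d → ℂ) x‖) * (∫ x, ‖(g : EE d → ℂ) x‖) := by
  
  have hFi := kernel_bound_int L f hf
  have hGi := kernel_bound_int L g hg
  have hfid := kernel_bound_ident f hFi
  have hgid := kernel_bound_ident g hGi
  set M : EE d → ℂ := fun ξ => ∫ s in Set.Ioi (0 : ℝ), A s *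
        Complex.exp (-(I * ((s * (4 * Real.pi ^ 2 * ‖ξ‖ ^ 2) : ℝ) : ℂ))) with hM
  have hMc : Continuous M := kernel_bound_Mc A hA
  have hMle : ∀ ξ, ‖M ξ‖ ≤ ∫ s in Set.Ioi (0 : ℝ), ‖A s‖ := kernel_bound_Mle A hA
  set CA : ℝ := ∫ s in Set.Ioi (0 : ℝ), ‖A s‖ with hCA
  set CK : ℝ := ∫ s in Set.Ioi (0 : ℝ), ‖A s * ((s ^ (-((d : ℝ) / 2)) : ℝ) : ℂ)‖ with hCK
  set η : ℕ → ℝ := fun n => 1 / ((n : ℝ) + 1) with hη
  have hη0 : ∀ n, 0 < η n := fun n => by rw [hη]; positivity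
  have hηt : Tendsto η atTop (𝓝 0) := tendsto_one_div_add_atTop_nhds_zero_nat (𝕜 := ℝ)
  set P : EE d → ℂ := fun ξ => (starRingEnd ℂ) ((𝓕 g : HH d) ξ) * (𝓕 f : HH d) ξ with hP
  have hPi : Integrable P := by
    have h1 := L2.integrable_inner (𝕜 := ℂ) (𝓕 g : HH d) (𝓕 f : HH d)
    refine h1.congr (ae_of_all _ fun ξ => ?_)
    simp only [hP, RCLike.inner_apply]
    ring
  -- the regularised integrals
  have hlim1 : Tendsto (fun n => ∫ ξ : EE d, P ξ *
      (Complex.exp (-((η n * (4 * Real.pi ^ 2 * ‖ξ‖ ^ 2) : ℝ) : ℂ)) * M ξ)) atTop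
      (𝓝 (∫ ξ : EE d, P ξ * M ξ)) := by
    refine tendsto_integral_of_dominated_convergence (fun ξ => ‖P ξ‖ * CA) ?_
      (hPi.norm.mul_const CA) ?_ ?_
    · intro n
      refine hPi.1.mul (Continuous.aestronglyMeasurable ?_)
      exact (by fun_prop : Continuous fun ξ : EE d =>
        Complex.exp (-((η n * (4 * Real.pi ^ 2 * ‖ξ‖ ^ 2) : ℝ) : ℂ))).mul hMc
    · intro n
      refine ae_of_all _ fun ξ => ?_
      have h1 : ‖Complex.exp (-((η n * (4 * Real.pi ^ 2 * ‖ξ‖ ^ 2) : ℝ) : ℂ))‖ ≤ 1 := by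
        rw [← Complex.ofReal_neg, ← Complex.ofReal_exp, Complex.norm_real, Real.norm_eq_abs,
          abs_of_pos (Real.exp_pos _), Real.exp_le_one_iff]
        have := hη0 n
        have : 0 ≤ η n * (4 * Real.pi ^ 2 * ‖ξ‖ ^ 2) := by positivity
        linarith
      have h2 : ‖Complex.exp (-((η n * (4 * Real.pi ^ 2 * ‖ξ‖ ^ 2) : ℝ) : ℂ)) * M ξ‖ ≤ CA := by
        rw [norm_mul]
        calc _ ≤ 1 * CA := mul_le_mul h1 (hMle ξ) (norm_nonneg _) zero_le_one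
          _ = CA := one_mul _
      rw [norm_mul]
      exact mul_le_mul_of_nonneg_left h2 (norm_nonneg _)
    · refine ae_of_all _ fun ξ => ?_
      have h1 : Tendsto (fun n => Complex.exp (-((η n * (4 * Real.pi ^ 2 * ‖ξ‖ ^ 2) : ℝ) : ℂ)))
          atTop (𝓝 (Complex.exp (-(((0 : ℝ) * (4 * Real.pi ^ 2 * ‖ξ‖ ^ 2) : ℝ) : ℂ)))) := by
        have h2 : Continuous (fun t : ℝ =>
          Complex.exp (-((t * (4 * Real.pi ^ 2 * ‖ξ‖ ^ 2) : ℝ) : ℂ))) := by fun_prop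
        exact (h2.tendsto 0).comp hηt
      have h3 := (h1.mul_const (M ξ)).const_mul (P ξ)
      have e1 : Complex.exp (-(((0 : ℝ) * (4 * Real.pi ^ 2 * ‖ξ‖ ^ 2) : ℝ) : ℂ)) = 1 := by simp
      rw [e1, one_mul] at h3
      exact h3
  have hreg : ∀ n, ∫ ξ : EE d, P ξ *
      (Complex.exp (-((η n * (4 * Real.pi ^ 2 * ‖ξ‖ ^ 2) : ℝ) : ℂ)) * M ξ) =
      ∫ y : EE d, (f : EE d → ℂ) y * ∫ x : EE d, (starRingEnd ℂ) ((g : EE d → ℂ) x) *
        kernel_bound_k A (η n) (x - y) := by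
    intro n
    have hm : Integrable (fun ξ : EE d =>
        Complex.exp (-((η n * (4 * Real.pi ^ 2 * ‖ξ‖ ^ 2) : ℝ) : ℂ)) * M ξ) := by
      have h1 := (kernel_bound_gi (d := d) (hη0 n)).bdd_mul (c := CA) hMc.aestronglyMeasurable
        (ae_of_all _ hMle)
      refine h1.congr (ae_of_all _ fun ξ => ?_)
      simp only
      ring
    have h1 := kernel_bound_xy (f : EE d → ℂ) (g : EE d → ℂ) _ hFi hGi hm
    have h2 : ∀ z : EE d, ∫ ξ : EE d, Complex.exp (((2 * Real.pi * inner ℝ z ξ : ℝ) : ℂ) * I) *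
        (Complex.exp (-((η n * (4 * Real.pi ^ 2 * ‖ξ‖ ^ 2) : ℝ) : ℂ)) * M ξ) =
        kernel_bound_k A (η n) z := fun z => kernel_bound_ks A hA (hη0 n) z
    simp only [h2] at h1
    rw [← h1]
    refine integral_congr_ae ?_
    filter_upwards [hfid, hgid] with ξ h3 h4
    simp only [hP]
    rw [h3, h4]
  simp only [hreg] at hlim1
  have hJb : ∀ (t : ℝ), 0 ≤ t → ∀ y : EE d, ‖∫ x : EE d, (starRingEnd ℂ) ((g : EE d → ℂ) x) *
        kernel_bound_k A t (x - y)‖ ≤ (∫ x, ‖(g : EE d → ℂ) x‖) * CK := by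
    intro t ht y
    rw [← integral_mul_const]
    refine norm_integral_le_of_norm_le (hGi.norm.mul_const CK) (ae_of_all _ fun x => ?_)
    rw [norm_mul, RCLike.norm_conj]
    exact mul_le_mul_of_nonneg_left (kernel_bound_kle A hA2 ht (x - y)) (norm_nonneg _)
  have hgm : ∀ (t : ℝ), 0 ≤ t → ∀ y : EE d, AEStronglyMeasurable (fun x : EE d =>
      (starRingEnd ℂ) ((g : EE d → ℂ) x) * kernel_bound_k A t (x - y)) volume := by
    intro t ht y
    refine (Complex.continuous_conj.comp_aestronglyMeasurable hGi.1).mul ?_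
    exact ((kernel_bound_kc A hA hA2 ht).comp (continuous_id.sub continuous_const)).aestronglyMeasurable
  have hJc : ∀ (t : ℝ), 0 ≤ t → Continuous (fun y : EE d => ∫ x : EE d,
      (starRingEnd ℂ) ((g : EE d → ℂ) x) * kernel_bound_k A t (x - y)) := by
    intro t ht
    refine continuous_of_dominated (bound := fun x => ‖(g : EE d → ℂ) x‖ * CK)
      (fun y => hgm t ht y) ?_ (hGi.norm.mul_const CK) ?_
    · intro y
      refine ae_of_all _ fun x => ?_
      rw [norm_mul, RCLike.norm_conj]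
      exact mul_le_mul_of_nonneg_left (kernel_bound_kle A hA2 ht (x - y)) (norm_nonneg _)
    · refine ae_of_all _ fun x => ?_
      exact continuous_const.mul ((kernel_bound_kc A hA hA2 ht).comp
        (continuous_const.sub continuous_id))
  have hlim2 : Tendsto (fun n => ∫ y : EE d, (f : EE d → ℂ) y * ∫ x : EE d,
      (starRingEnd ℂ) ((g : EE d → ℂ) x) * kernel_bound_k A (η n) (x - y)) atTop
      (𝓝 (∫ y : EE d, (f : EE d → ℂ) y * ∫ x : EE d,
        (starRingEnd ℂ) ((g : EE d → ℂ) x) * kernel_bound_k A 0 (x - y))) := by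
    refine tendsto_integral_of_dominated_convergence
      (fun y => ‖(f : EE d → ℂ) y‖ * ((∫ x, ‖(g : EE d → ℂ) x‖) * CK)) ?_
      (hFi.norm.mul_const _) ?_ ?_
    · intro n
      exact hFi.1.mul (hJc (η n) (hη0 n).le).aestronglyMeasurable
    · intro n
      refine ae_of_all _ fun y => ?_
      rw [norm_mul]
      exact mul_le_mul_of_nonneg_left (hJb (η n) (hη0 n).le y) (norm_nonneg _)
    · refine ae_of_all _ fun y => ?_
      refine Tendsto.const_mul _ ?_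
      refine tendsto_integral_of_dominated_convergence (fun x => ‖(g : EE d → ℂ) x‖ * CK) ?_
        (hGi.norm.mul_const CK) ?_ ?_
      · exact fun n => hgm (η n) (hη0 n).le y
      · intro n
        refine ae_of_all _ fun x => ?_
        rw [norm_mul, RCLike.norm_conj]
        exact mul_le_mul_of_nonneg_left (kernel_bound_kle A hA2 (hη0 n).le (x - y))
          (norm_nonneg _)
      · exact ae_of_all _ fun x => (kernel_bound_kl A hA hA2 (x - y)).const_mul _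
  have heq := tendsto_nhds_unique hlim1 hlim2
  show ‖∫ ξ : EE d, P ξ * M ξ‖ ≤ _
  rw [heq]
  have hfin : ‖∫ y : EE d, (f : EE d → ℂ) y * ∫ x : EE d,
        (starRingEnd ℂ) ((g : EE d → ℂ) x) * kernel_bound_k A 0 (x - y)‖ ≤
      ∫ y : EE d, ‖(f : EE d → ℂ) y‖ * (B * ∫ x, ‖(g : EE d → ℂ) x‖) := by
    refine norm_integral_le_of_norm_le (hFi.norm.mul_const _) ?_
    filter_upwards [hf] with y hy
    rw [norm_mul]
    rcases le_or_gt ‖y‖ L with hyL | hyL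
    · refine mul_le_mul_of_nonneg_left ?_ (norm_nonneg _)
      rw [← integral_const_mul]
      refine norm_integral_le_of_norm_le (hGi.norm.const_mul B) ?_
      filter_upwards [hg] with x hx
      rw [norm_mul, RCLike.norm_conj]
      rcases le_or_gt ‖x‖ L with hxL | hxL
      · rw [mul_comm]
        refine mul_le_mul_of_nonneg_right ?_ (norm_nonneg _)
        refine kernel_bound_k0 A L B hB0 hB (x - y) ?_
        have := norm_sub_le x y
        linarith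
      · rw [hx hxL]
        simp
    · rw [hy hyL]
      simp
  refine hfin.trans_eq ?_
  rw [integral_mul_const]
  ring


end

end KRS
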