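import Pool.Agent.H631.KR.Defs

open MeasureTheory Filter Topology ENNReal Complex
open scoped Laplacian FourierTransform InnerProductSpace

namespace KRS

noncomputable section

/-! TARGET: prove the following -/

theorem lap_meas (a r : ℂ) : AEStronglyMeasurable
    (fun t : ℝ => (t : ℂ) ^ (a - 1) * Complex.exp (-(r * (t : ℂ)))) (volume.restrict (Set.Ioi 0)) := by
  apply ContinuousOn.aestronglyMeasurable _ measurableSet_Ioi
  refine ContinuousOn.mul ?_ (by fun_prop)
  intro s hs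
  refine ContinuousAt.continuousWithinAt ?_
  exact (Complex.continuousAt_ofReal_cpow_const s _ (Or.inr (ne_of_gt hs)))

theorem lap_int (a : ℂ) (ha : 0 < a.re) (r : ℂ) (hr : 0 < r.re) :
    IntegrableOn (fun t : ℝ => (t : ℂ) ^ (a - 1) * Complex.exp (-(r * (t : ℂ)))) (Set.Ioi 0) := by
  have h0 : IntegrableOn (fun s : ℝ => s ^ (a.re - 1) * Real.exp (-r.re * s ^ (1:ℝ)))
      (Set.Ioi 0) :=
    integrableOn_rpow_mul_exp_neg_mul_rpow (by linarith) one_pos hr
  refine Integrable.mono' h0 (lap_meas a r) ?_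
  refine (ae_restrict_iff' measurableSet_Ioi).2 (Eventually.of_forall fun s hs => ?_)
  rw [norm_mul, Complex.norm_exp, Complex.norm_cpow_eq_rpow_re_of_pos hs, Real.rpow_one]
  apply le_of_eq
  simp

theorem lap_diff (a : ℂ) (ha : 0 < a.re) (r : ℂ) (hr : 0 < r.re) :
    DifferentiableAt ℂ (fun r : ℂ => ∫ t in Set.Ioi (0:ℝ),
      (t : ℂ) ^ (a - 1) * Complex.exp (-(r * (t : ℂ)))) r := by
  have h0 : IntegrableOn (fun s : ℝ => s ^ (a.re) * Real.exp (-(r.re / 2) * s ^ (1:ℝ)))
      (Set.Ioi 0) :=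
    integrableOn_rpow_mul_exp_neg_mul_rpow (by linarith) one_pos (by linarith)
  have key := hasDerivAt_integral_of_dominated_loc_of_deriv_le
    (μ := (volume : Measure ℝ).restrict (Set.Ioi 0)) (x₀ := r)
    (F := fun (r : ℂ) (t : ℝ) => (t : ℂ) ^ (a - 1) * Complex.exp (-(r * (t : ℂ))))
    (F' := fun (r : ℂ) (t : ℝ) => (t : ℂ) ^ (a - 1) * (Complex.exp (-(r * (t : ℂ))) * (-(t : ℂ))))
    (bound := fun t => t ^ (a.re) * Real.exp (-(r.re / 2) * t ^ (1:ℝ)))
    (s := Metric.ball r (r.re / 2)) (Metric.ball_mem_nhds r (by linarith))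
    (Eventually.of_forall fun x => lap_meas a x) (lap_int a ha r hr) ?_ ?_ h0 ?_
  · exact key.2.differentiableAt
  · have h1 := (lap_meas a r).mul (g := fun t : ℝ => (-(t : ℂ))) (by fun_prop)
    refine h1.congr (Eventually.of_forall fun t => ?_)
    show (t : ℂ) ^ (a - 1) * Complex.exp (-(r * (t : ℂ))) * (-(t : ℂ)) = _
    ring
  · refine (ae_restrict_iff' measurableSet_Ioi).2 (Eventually.of_forall fun s hs => ?_)
    intro x hx
    have hs' : 0 < s := hs
    have hx1 : r.re / 2 < x.re := by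
      have h1 : |(x - r).re| < r.re / 2 := by
        refine (Complex.abs_re_le_norm _).trans_lt ?_
        rw [Metric.mem_ball, dist_eq_norm] at hx
        exact hx
      rw [Complex.sub_re] at h1
      have := (abs_lt.1 h1).1
      linarith
    rw [norm_mul, norm_mul, Complex.norm_exp, Complex.norm_cpow_eq_rpow_re_of_pos hs, Real.rpow_one,
      norm_neg, Complex.norm_real, Real.norm_eq_abs, abs_of_pos hs']
    have h2 : (-(x * (s : ℂ))).re = -(x.re * s) := by
      rw [Complex.neg_re, Complex.re_mul_ofReal]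
    rw [h2, Complex.sub_re, Complex.one_re]
    have h3 : s ^ (a.re) = s ^ (a.re - 1) * s := by
      rw [Real.rpow_sub_one hs'.ne']
      field_simp
    rw [h3]
    have h4 : Real.exp (-(x.re * s)) ≤ Real.exp (-(r.re / 2) * s) := by
      apply Real.exp_le_exp.2
      nlinarith
    calc s ^ (a.re - 1) * (Real.exp (-(x.re * s)) * s)
        = s ^ (a.re - 1) * s * Real.exp (-(x.re * s)) := by ring
      _ ≤ s ^ (a.re - 1) * s * Real.exp (-(r.re / 2) * s) :=
          mul_le_mul_of_nonneg_left h4 (by positivity)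
  · refine Eventually.of_forall fun t x _ => ?_
    have h5 : HasDerivAt (fun r : ℂ => -(r * (t : ℂ))) (-(t : ℂ)) x := by
      have h6 : HasDerivAt (fun r : ℂ => r * (t : ℂ)) (t : ℂ) x := by
        simpa using (hasDerivAt_id x).mul_const (t : ℂ)
      exact h6.neg
    exact (h5.cexp).const_mul _

theorem lap_val (a : ℂ) (ha : 0 < a.re) (r : ℂ) (hr : 0 < r.re) :
    ∫ t in Set.Ioi (0:ℝ), (t : ℂ) ^ (a - 1) * Complex.exp (-(r * (t : ℂ))) =
      (1 / r) ^ a * Complex.Gamma a := by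
  have hopen : IsOpen {r : ℂ | 0 < r.re} := isOpen_lt continuous_const Complex.continuous_re
  have hconv : Convex ℝ {r : ℂ | 0 < r.re} := convex_halfSpace_re_gt 0
  have hf : AnalyticOnNhd ℂ (fun r : ℂ => ∫ t in Set.Ioi (0:ℝ),
      (t : ℂ) ^ (a - 1) * Complex.exp (-(r * (t : ℂ)))) {r : ℂ | 0 < r.re} :=
    DifferentiableOn.analyticOnNhd (fun x hx => (lap_diff a ha x hx).differentiableWithinAt) hopen
  have hg : AnalyticOnNhd ℂ (fun r : ℂ => (1 / r) ^ a * Complex.Gamma a) {r : ℂ | 0 < r.re} := by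
    refine DifferentiableOn.analyticOnNhd (fun x hx => ?_) hopen
    have hx' : 0 < x.re := hx
    have hx0 : x ≠ 0 := by
      rintro rfl
      simp at hx'
    refine DifferentiableAt.differentiableWithinAt ?_
    refine DifferentiableAt.mul_const ?_ _
    refine DifferentiableAt.cpow_const ?_ ?_
    · exact (differentiableAt_const (1:ℂ)).div differentiableAt_fun_id hx0
    · rw [one_div]
      left
      rw [Complex.inv_re]
      exact div_pos hx' (Complex.normSq_pos.2 hx0)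
  refine hf.eqOn_of_preconnected_of_frequently_eq hg hconv.isPreconnected (z₀ := 1) (by simp) ?_ hr
  have hreal : ∀ x : ℝ, 0 < x → (∫ t in Set.Ioi (0:ℝ),
      (t : ℂ) ^ (a - 1) * Complex.exp (-((x : ℂ) * (t : ℂ)))) = (1 / (x : ℂ)) ^ a * Complex.Gamma a :=
    fun x hx => Complex.integral_cpow_mul_exp_neg_mul_Ioi ha hx
  have hseq : Tendsto (fun n : ℕ => ((1 + 1 / ((n : ℝ) + 1) : ℝ) : ℂ)) atTop (𝓝[≠] 1) := by
    refine tendsto_nhdsWithin_iff.2 ⟨?_, Eventually.of_forall fun n => ?_⟩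
    · have h1 : Tendsto (fun n : ℕ => (1 + 1 / ((n : ℝ) + 1) : ℝ)) atTop (𝓝 (1 + 0)) :=
        tendsto_const_nhds.add tendsto_one_div_add_atTop_nhds_zero_nat
      rw [add_zero] at h1
      have h2 := (Complex.continuous_ofReal.tendsto 1).comp h1
      rw [Complex.ofReal_one] at h2
      exact h2
    · intro h
      have h1 : (1 + 1 / ((n : ℝ) + 1) : ℝ) = 1 := by
        exact_mod_cast (Set.mem_singleton_iff.1 h)
      have h2 : (0:ℝ) < 1 / ((n : ℝ) + 1) := by positivity
      linarith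
  refine hseq.frequently (Frequently.of_forall fun n => ?_)
  exact hreal _ (by positivity)

theorem lap_re (z : ℂ) (X : ℝ) : (I * ((X : ℂ) - z)).re = z.im := by
  simp

theorem lap_exp (z : ℂ) (X s : ℝ) : Complex.exp (I * z * (s : ℂ)) *
      Complex.exp (-(I * ((s * X : ℝ) : ℂ))) = Complex.exp (-((I * ((X : ℂ) - z)) * (s : ℂ))) := by
  rw [← Complex.exp_add]
  congr 1
  push_cast
  ring

theorem lap_one (ζ z : ℂ) (hζ : 0 < ζ.re) (hz : 0 < z.im) (X : ℝ) :
    IntegrableOn (fun s : ℝ => (s : ℂ) ^ (ζ - 1) * Complex.exp (I * z * (s : ℂ))) (Set.Ioi 0) ∧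
    ∫ s in Set.Ioi (0 : ℝ), (s : ℂ) ^ (ζ - 1) * Complex.exp (I * z * (s : ℂ)) *
      Complex.exp (-(I * ((s * X : ℝ) : ℂ))) =
        ((I * ((X : ℂ) - z))⁻¹) ^ ζ * Complex.Gamma ζ := by
  constructor
  · have h0 := lap_int ζ hζ (-(I * z)) (by simpa using hz)
    refine h0.congr_fun (fun s _ => ?_) measurableSet_Ioi
    show (s : ℂ) ^ (ζ - 1) * Complex.exp (-(-(I * z) * (s : ℂ))) =
      (s : ℂ) ^ (ζ - 1) * Complex.exp (I * z * (s : ℂ))
    rw [neg_mul, neg_neg]
  · have hA : 0 < (I * ((X : ℂ) - z)).re := by rw [lap_re]; exact hz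
    rw [← one_div, ← lap_val ζ hζ _ hA]
    refine setIntegral_congr_fun measurableSet_Ioi fun s _ => ?_
    show (s : ℂ) ^ (ζ - 1) * Complex.exp (I * z * (s : ℂ)) *
      Complex.exp (-(I * ((s * X : ℝ) : ℂ))) = _
    rw [mul_assoc, lap_exp]

/-- the integrand of `rho` -/
def rg (N : ℕ) (u : ℝ) : ℝ := u ^ N * Real.exp (-u) / (N.factorial : ℝ)

theorem rg_cont (N : ℕ) : Continuous (rg N) := by
  unfold rg
  fun_prop

theorem rho_deriv_K05 (N : ℕ) (t : ℝ) : HasDerivAt (rho N) (rg N t) t := by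
  have := intervalIntegral.integral_hasDerivAt_right
    ((rg_cont N).intervalIntegrable (μ := volume) 0 t)
    (rg_cont N).aestronglyMeasurable.stronglyMeasurableAtFilter (rg_cont N).continuousAt
  exact this

theorem rho_cont_K05 (N : ℕ) : Continuous (rho N) :=
  continuous_iff_continuousAt.2 fun t => (rho_deriv_K05 N t).continuousAt

theorem rho_bound (N : ℕ) (t : ℝ) (ht : 0 ≤ t) : |rho N t| ≤ 1 := by
  have hnn : ∀ u : ℝ, 0 < u → 0 ≤ rg N u := fun u hu => by
    unfold rg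
    positivity
  have hrep : rho N t = ∫ u in Set.Ioc 0 t, rg N u := by
    show (∫ u in (0 : ℝ)..t, rg N u) = _
    rw [intervalIntegral.integral_of_le ht]
  have hGeq : ∀ u : ℝ, u ∈ Set.Ioi (0:ℝ) →
      Real.exp (-u) * u ^ (((N : ℝ) + 1) - 1) * (1 / (N.factorial : ℝ)) = rg N u := by
    intro u _
    unfold rg
    rw [add_sub_cancel_right, Real.rpow_natCast]
    ring
  have hint : IntegrableOn (rg N) (Set.Ioi 0) := by
    have h1 := (Real.GammaIntegral_convergent (s := (N : ℝ) + 1) (by positivity)).mul_const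
      (1 / (N.factorial : ℝ))
    exact (integrableOn_congr_fun hGeq measurableSet_Ioi).1 h1
  have htot : ∫ u in Set.Ioi (0:ℝ), rg N u = 1 := by
    rw [← setIntegral_congr_fun measurableSet_Ioi hGeq, integral_mul_const,
      ← Real.Gamma_eq_integral (by positivity), Real.Gamma_nat_eq_factorial]
    field_simp
  rw [hrep, abs_of_nonneg (setIntegral_nonneg measurableSet_Ioc fun u hu => hnn u hu.1), ← htot]
  refine setIntegral_mono_set hint ?_ ?_
  · exact (ae_restrict_iff' measurableSet_Ioi).2 (Eventually.of_forall fun u hu => hnn u hu)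
  · exact (Set.Ioc_subset_Ioi_self).eventuallyLE

theorem lap_two (N : ℕ) (σ : ℝ) (hσ : 0 < σ) (z : ℂ) (hz : 0 < z.im) (X : ℝ) :
    IntegrableOn (fun s : ℝ => ((rho N (σ * s) : ℝ) : ℂ) * Complex.exp (I * z * (s : ℂ)))
      (Set.Ioi 0) ∧
    ∫ s in Set.Ioi (0 : ℝ), ((rho N (σ * s) : ℝ) : ℂ) * Complex.exp (I * z * (s : ℂ)) *
      Complex.exp (-(I * ((s * X : ℝ) : ℂ))) =
        (I * ((X : ℂ) - z))⁻¹ * ((σ : ℂ) / ((σ : ℂ) + I * ((X : ℂ) - z))) ^ (N + 1) := by
  have hexpI : IntegrableOn (fun s : ℝ => Real.exp (-z.im * s)) (Set.Ioi 0) :=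
    integrableOn_exp_mul_Ioi (by linarith) 0
  have hrc : Continuous (fun s : ℝ => ((rho N (σ * s) : ℝ) : ℂ)) :=
    Complex.continuous_ofReal.comp ((rho_cont_K05 N).comp (continuous_const.mul continuous_id))
  have hgen : ∀ w : ℂ, w.re = -z.im →
      IntegrableOn (fun s : ℝ => ((rho N (σ * s) : ℝ) : ℂ) * Complex.exp (w * (s : ℂ)))
      (Set.Ioi 0) := by
    intro w hw
    refine Integrable.mono' hexpI ?_ ?_
    · refine Continuous.aestronglyMeasurable ?_
      exact hrc.mul (by fun_prop)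
    · refine (ae_restrict_iff' measurableSet_Ioi).2 (Eventually.of_forall fun s hs => ?_)
      have hs' : 0 < s := hs
      rw [norm_mul, Complex.norm_exp, Complex.norm_real, Real.norm_eq_abs]
      have h1 : (w * (s : ℂ)).re = -z.im * s := by
        rw [Complex.re_mul_ofReal, hw]
      rw [h1]
      exact mul_le_of_le_one_left (Real.exp_pos _).le (rho_bound N _ (by positivity))
  refine ⟨hgen (I * z) (by simp), ?_⟩
  obtain ⟨A, hA⟩ : ∃ A : ℂ, A = I * ((X : ℂ) - z) := ⟨_, rfl⟩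
  have hAre : A.re = z.im := by rw [hA]; exact lap_re z X
  have hA0 : A ≠ 0 := by
    intro h
    rw [h] at hAre
    simp only [Complex.zero_re] at hAre
    linarith
  have hr : 0 < ((σ : ℂ) + A).re := by
    rw [Complex.add_re, Complex.ofReal_re, hAre]
    linarith
  have hr0 : (σ : ℂ) + A ≠ 0 := by
    intro h
    rw [h] at hr
    simp at hr
  rw [← hA]
  have hstep : ∫ s in Set.Ioi (0 : ℝ), ((rho N (σ * s) : ℝ) : ℂ) * Complex.exp (I * z * (s : ℂ)) *
      Complex.exp (-(I * ((s * X : ℝ) : ℂ))) =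
      ∫ s in Set.Ioi (0 : ℝ), ((rho N (σ * s) : ℝ) : ℂ) * Complex.exp (-A * (s : ℂ)) := by
    refine setIntegral_congr_fun measurableSet_Ioi fun s _ => ?_
    show ((rho N (σ * s) : ℝ) : ℂ) * Complex.exp (I * z * (s : ℂ)) *
      Complex.exp (-(I * ((s * X : ℝ) : ℂ))) = _
    rw [mul_assoc, lap_exp, ← hA, neg_mul]
  rw [hstep]
  -- the gamma integral
  have hcp : ∀ s : ℝ, s ∈ Set.Ioi (0:ℝ) →
      (s : ℂ) ^ (((N : ℂ) + 1) - 1) * Complex.exp (-(((σ : ℂ) + A) * (s : ℂ))) *
        ((σ : ℂ) ^ (N + 1) / (N.factorial : ℂ)) =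
      (σ : ℂ) * ((rg N (σ * s) : ℝ) : ℂ) * Complex.exp (-A * (s : ℂ)) := by
    intro s _
    unfold rg
    rw [add_sub_cancel_right, Complex.cpow_natCast]
    push_cast
    rw [show -(((σ : ℂ) + A) * (s : ℂ)) = -((σ : ℂ) * (s : ℂ)) + -A * (s : ℂ) by ring,
      Complex.exp_add]
    ring
  have hG := lap_val ((N : ℂ) + 1)
    (by
      rw [Complex.add_re, Complex.natCast_re, Complex.one_re]
      positivity) ((σ : ℂ) + A) hr
  have hGI : IntegrableOn (fun s : ℝ => (σ : ℂ) * ((rg N (σ * s) : ℝ) : ℂ) *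
      Complex.exp (-A * (s : ℂ))) (Set.Ioi 0) := by
    have h1 := lap_int ((N : ℂ) + 1) (by
      rw [Complex.add_re, Complex.natCast_re, Complex.one_re]
      positivity) ((σ : ℂ) + A) hr
    have h2 := h1.mul_const ((σ : ℂ) ^ (N + 1) / (N.factorial : ℂ))
    exact (integrableOn_congr_fun hcp measurableSet_Ioi).1 h2
  have hGval : ∫ s in Set.Ioi (0 : ℝ), (σ : ℂ) * ((rg N (σ * s) : ℝ) : ℂ) *
      Complex.exp (-A * (s : ℂ)) = ((σ : ℂ) / ((σ : ℂ) + A)) ^ (N + 1) := by
    rw [← setIntegral_congr_fun measurableSet_Ioi hcp, integral_mul_const, hG,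
      Complex.Gamma_nat_eq_factorial]
    rw [show ((N : ℂ) + 1) = ((N + 1 : ℕ) : ℂ) by push_cast; ring, Complex.cpow_natCast]
    have hf : (N.factorial : ℂ) ≠ 0 := by exact_mod_cast N.factorial_ne_zero
    rw [div_pow, div_pow, one_pow]
    have hr1 : ((σ : ℂ) + A) ^ (N + 1) ≠ 0 := pow_ne_zero _ hr0
    generalize ((σ : ℂ) + A) ^ (N + 1) = w at hr1 ⊢
    field_simp
  -- integration by parts
  have hder : ∀ s ∈ Set.Ici (0 : ℝ), HasDerivAt
      (fun s : ℝ => ((rho N (σ * s) : ℝ) : ℂ) * Complex.exp (-A * (s : ℂ)))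
      ((σ : ℂ) * ((rg N (σ * s) : ℝ) : ℂ) * Complex.exp (-A * (s : ℂ)) -
        A * (((rho N (σ * s) : ℝ) : ℂ) * Complex.exp (-A * (s : ℂ)))) s := by
    intro s _
    have h1 : HasDerivAt (fun s : ℝ => ((rho N (σ * s) : ℝ) : ℂ))
        (((rg N (σ * s) * σ : ℝ)) : ℂ) s := by
      have h2 : HasDerivAt (fun s : ℝ => rho N (σ * s)) (rg N (σ * s) * σ) s := by
        have h3 : HasDerivAt (fun s : ℝ => σ * s) σ s := by
          simpa using (hasDerivAt_id s).const_mul σ
        exact (rho_deriv_K05 N (σ * s)).comp s h3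
      exact h2.ofReal_comp
    have h4 : HasDerivAt (fun s : ℝ => Complex.exp (-A * (s : ℂ)))
        (Complex.exp (-A * (s : ℂ)) * (-A)) s := by
      have h5 : HasDerivAt (fun s : ℝ => -A * (s : ℂ)) (-A) s := by
        simpa using ((hasDerivAt_id s).ofReal_comp).const_mul (-A)
      exact h5.cexp
    refine (h1.mul h4).congr_deriv ?_
    push_cast
    ring
  have hlim : Tendsto (fun s : ℝ => ((rho N (σ * s) : ℝ) : ℂ) * Complex.exp (-A * (s : ℂ)))
      atTop (𝓝 0) := by
    rw [tendsto_zero_iff_norm_tendsto_zero]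
    have h6 : Tendsto (fun s : ℝ => Real.exp (-(z.im * s))) atTop (𝓝 0) :=
      Real.tendsto_exp_neg_atTop_nhds_zero.comp (tendsto_id.const_mul_atTop hz)
    refine squeeze_zero' (Eventually.of_forall fun s => norm_nonneg _) ?_ h6
    filter_upwards [eventually_ge_atTop (0 : ℝ)] with s hs
    rw [norm_mul, Complex.norm_exp, Complex.norm_real, Real.norm_eq_abs]
    have h1 : (-A * (s : ℂ)).re = -(z.im * s) := by
      rw [Complex.re_mul_ofReal, Complex.neg_re, hAre]
      ring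
    rw [h1]
    exact mul_le_of_le_one_left (Real.exp_pos _).le (rho_bound N _ (by positivity))
  have hRI := hgen (-A) (by rw [Complex.neg_re, hAre])
  have hRI2 : IntegrableOn (fun s : ℝ => A * (((rho N (σ * s) : ℝ) : ℂ) *
      Complex.exp (-A * (s : ℂ)))) (Set.Ioi 0) := hRI.const_mul A
  have hsub : IntegrableOn (fun s : ℝ => (σ : ℂ) * ((rg N (σ * s) : ℝ) : ℂ) *
      Complex.exp (-A * (s : ℂ)) -
        A * (((rho N (σ * s) : ℝ) : ℂ) * Complex.exp (-A * (s : ℂ)))) (Set.Ioi 0) :=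
    hGI.sub hRI2
  have hFTC := integral_Ioi_of_hasDerivAt_of_tendsto' hder hsub hlim
  rw [integral_sub hGI hRI2, hGval, integral_const_mul] at hFTC
  have h00 : rho N (σ * 0) = 0 := by
    rw [mul_zero]
    unfold rho
    exact intervalIntegral.integral_same
  rw [h00] at hFTC
  rw [eq_inv_mul_iff_mul_eq₀ hA0]
  simp only [Complex.ofReal_zero, zero_mul, sub_zero] at hFTC
  exact (sub_eq_zero.1 hFTC).symm

end

end KRS
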