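import Pool.Agent.H631.KR.Defs
import Pool.Agent.H631.KR.K00
import Pool.Agent.H631.KR.K0R

open MeasureTheory Filter Topology ENNReal Complex
open scoped Laplacian FourierTransform InnerProductSpace

namespace KRS

noncomputable section

/-- the base of the power -/
def h396_b {d : ℕ} (z : ℂ) (ξ : EE d) : ℂ := (I * (((4 * Real.pi ^ 2 * ‖ξ‖ ^ 2 : ℝ) : ℂ) - z))⁻¹

theorem h396_w_re {d : ℕ} (z : ℂ) (ξ : EE d) :
    (I * (((4 * Real.pi ^ 2 * ‖ξ‖ ^ 2 : ℝ) : ℂ) - z)).re = z.im := by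
  rw [Complex.mul_re, Complex.sub_re, Complex.sub_im, Complex.ofReal_re, Complex.ofReal_im,
    Complex.I_re, Complex.I_im]
  ring

theorem h396_w_ne {d : ℕ} (z : ℂ) (hz : 0 < z.im) (ξ : EE d) :
    I * (((4 * Real.pi ^ 2 * ‖ξ‖ ^ 2 : ℝ) : ℂ) - z) ≠ 0 := by
  intro h
  have h1 := h396_w_re z ξ
  rw [h, Complex.zero_re] at h1
  exact hz.ne h1

theorem h396_b_ne {d : ℕ} (z : ℂ) (hz : 0 < z.im) (ξ : EE d) : h396_b z ξ ≠ 0 :=
  inv_ne_zero (h396_w_ne z hz ξ)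

theorem h396_b_re {d : ℕ} (z : ℂ) (hz : 0 < z.im) (ξ : EE d) : 0 < (h396_b z ξ).re := by
  unfold h396_b
  rw [Complex.inv_re, h396_w_re]
  exact div_pos hz (Complex.normSq_pos.2 (h396_w_ne z hz ξ))

theorem h396_b_norm {d : ℕ} (z : ℂ) (hz : 0 < z.im) (ξ : EE d) : ‖h396_b z ξ‖ ≤ (z.im)⁻¹ := by
  unfold h396_b
  rw [norm_inv]
  apply inv_anti₀ hz
  have h1 := Complex.abs_re_le_norm (I * (((4 * Real.pi ^ 2 * ‖ξ‖ ^ 2 : ℝ) : ℂ) - z))
  rw [h396_w_re, abs_of_pos hz] at h1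
  exact h1

theorem h396_b_meas {d : ℕ} (z : ℂ) : Measurable (fun ξ : EE d => h396_b z ξ) := by
  unfold h396_b
  apply Measurable.inv
  apply Measurable.const_mul
  apply Measurable.sub_const
  apply Complex.measurable_ofReal.comp
  exact (continuous_const.mul (continuous_norm.pow 2)).measurable

theorem h396_cpow_meas {d : ℕ} (z ζ : ℂ) : Measurable (fun ξ : EE d => h396_b z ξ ^ ζ) :=
  (h396_b_meas z).pow_const ζ

theorem h396_cpow_norm {d : ℕ} (z : ℂ) (hz : 0 < z.im) (ξ : EE d) (ζ : ℂ) :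
    ‖h396_b z ξ ^ ζ‖ ≤ ‖h396_b z ξ‖ ^ ζ.re * Real.exp (Real.pi * |ζ.im| / 2) := by
  rw [Complex.norm_cpow_of_ne_zero (h396_b_ne z hz ξ), div_eq_mul_inv, ← Real.exp_neg]
  apply mul_le_mul_of_nonneg_left _ (Real.rpow_nonneg (norm_nonneg _) _)
  apply Real.exp_le_exp.2
  have h1 : |(h396_b z ξ).arg| < Real.pi / 2 :=
    Complex.abs_arg_lt_pi_div_two_iff.2 (Or.inl (h396_b_re z hz ξ))
  have h2 : -((h396_b z ξ).arg * ζ.im) ≤ |(h396_b z ξ).arg| * |ζ.im| := by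
    rw [← abs_mul]
    exact neg_le_abs _
  have h3 : |(h396_b z ξ).arg| * |ζ.im| ≤ Real.pi / 2 * |ζ.im| :=
    mul_le_mul_of_nonneg_right h1.le (abs_nonneg _)
  linarith

theorem h396_rpow_bound (t y P s : ℝ) (ht : 0 < t) (hty : t ≤ y) (hs : 0 ≤ s) (hsP : s ≤ P) :
    t ^ s ≤ max 1 (y ^ P) := by
  have hy : 0 < y := ht.trans_le hty
  have h1 : t ^ s ≤ y ^ s := Real.rpow_le_rpow ht.le hty hs
  rcases le_total y 1 with h | h
  · exact (h1.trans (Real.rpow_le_one hy.le h hs)).trans (le_max_left _ _)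
  · exact (h1.trans (Real.rpow_le_rpow_of_exponent_le h hsP)).trans (le_max_right _ _)

theorem h396_cpow_bound {d : ℕ} (z : ℂ) (hz : 0 < z.im) (P : ℝ) (ξ : EE d) (ζ : ℂ)
    (h0 : 0 ≤ ζ.re) (h1 : ζ.re ≤ P) :
    ‖h396_b z ξ ^ ζ‖ ≤ (max 1 ((z.im)⁻¹ ^ P)) * Real.exp (Real.pi * |ζ.im| / 2) := by
  refine (h396_cpow_norm z hz ξ ζ).trans ?_
  apply mul_le_mul_of_nonneg_right _ (Real.exp_pos _).le
  exact h396_rpow_bound _ _ _ _ (norm_pos_iff.2 (h396_b_ne z hz ξ)) (h396_b_norm z hz ξ) h0 h1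

theorem h396_FF_eq {d : ℕ} (z : ℂ) (C : ℝ) (ζ : ℂ)
    (hC : ∀ ξ : EE d, ‖h396_b z ξ ^ ζ‖ ≤ C) (f g : HH d) :
    FF d z ζ f g = ⟪(𝓕 g : HH d), mulOp (fun ξ => h396_b z ξ ^ ζ) (𝓕 f : HH d)⟫_ℂ := by
  rw [L2.inner_def]
  unfold FF
  apply integral_congr_ae
  filter_upwards [mulOp_ae _ (h396_cpow_meas z ζ) C hC (𝓕 f : HH d)] with ξ hξ
  rw [hξ, RCLike.inner_apply]
  unfold h396_b
  ring

theorem h396_FF_norm {d : ℕ} (z : ℂ) (C : ℝ) (ζ : ℂ)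
    (hC : ∀ ξ : EE d, ‖h396_b z ξ ^ ζ‖ ≤ C) (f g : HH d) :
    ‖FF d z ζ f g‖ ≤ C * ‖f‖ * ‖g‖ := by
  rw [h396_FF_eq z C ζ hC f g]
  refine (norm_inner_le_norm _ _).trans ?_
  have h1 := mulOp_norm _ (h396_cpow_meas z ζ) C hC (𝓕 f : HH d)
  rw [Lp.norm_fourier_eq] at h1 ⊢
  calc ‖g‖ * ‖mulOp (fun ξ => h396_b z ξ ^ ζ) (𝓕 f : HH d)‖ ≤ ‖g‖ * (C * ‖f‖) :=
        mul_le_mul_of_nonneg_left h1 (norm_nonneg _)
    _ = C * ‖f‖ * ‖g‖ := by ring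

theorem h396_h_int {d : ℕ} (f g : HH d) :
    Integrable (fun ξ : EE d => (starRingEnd ℂ) ((𝓕 g : HH d) ξ) * (𝓕 f : HH d) ξ) := by
  have h1 := L2.integrable_inner (𝕜 := ℂ) (𝓕 g : HH d) (𝓕 f : HH d)
  refine h1.congr (Filter.Eventually.of_forall fun ξ => ?_)
  simp only [RCLike.inner_apply]
  ring

theorem h396_hasDeriv {d : ℕ} (z : ℂ) (hz : 0 < z.im) (ξ : EE d) (ζ : ℂ) :
    HasDerivAt (fun w : ℂ => h396_b z ξ ^ w) (h396_b z ξ ^ ζ * log (h396_b z ξ)) ζ :=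
  (Complex.hasStrictDerivAt_const_cpow (Or.inl (h396_b_ne z hz ξ))).hasDerivAt

theorem h396_cauchy {d : ℕ} (z : ℂ) (hz : 0 < z.im) (P : ℝ) (ξ : EE d) (ζ : ℂ) (r Y : ℝ)
    (hr : 0 < r) (h0 : r ≤ ζ.re) (h1 : ζ.re + r ≤ P) (hY : |ζ.im| + r ≤ Y) :
    ‖h396_b z ξ ^ ζ * log (h396_b z ξ)‖ ≤
      (max 1 ((z.im)⁻¹ ^ P)) * Real.exp (Real.pi * Y / 2) / r := by
  have hd : Differentiable ℂ (fun w : ℂ => h396_b z ξ ^ w) := fun w =>
    (h396_hasDeriv z hz ξ w).differentiableAt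
  have h2 := Complex.norm_deriv_le_of_forall_mem_sphere_norm_le (c := ζ)
    (C := (max 1 ((z.im)⁻¹ ^ P)) * Real.exp (Real.pi * Y / 2)) (f := fun w : ℂ => h396_b z ξ ^ w)
    hr hd.diffContOnCl (fun w hw => by
      rw [mem_sphere_iff_norm] at hw
      have hre := Complex.abs_re_le_norm (w - ζ)
      have him := Complex.abs_im_le_norm (w - ζ)
      rw [hw, Complex.sub_re] at hre
      rw [hw, Complex.sub_im] at him
      have hre' := abs_le.1 hre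
      refine (h396_cpow_bound z hz P ξ w (by linarith) (by linarith)).trans ?_
      apply mul_le_mul_of_nonneg_left _ (by positivity)
      apply Real.exp_le_exp.2
      have h3 : |w.im| ≤ Y := by
        have : |w.im| ≤ |w.im - ζ.im| + |ζ.im| := by
          have := abs_add_le (w.im - ζ.im) ζ.im
          rwa [sub_add_cancel] at this
        linarith
      have := Real.pi_pos
      have h4 : Real.pi * |w.im| ≤ Real.pi * Y := mul_le_mul_of_nonneg_left h3 this.le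
      linarith)
  rw [(h396_hasDeriv z hz ξ ζ).deriv] at h2
  exact h2

theorem h396_diffAt {d : ℕ} (z : ℂ) (hz : 0 < z.im) (P : ℝ) (f g : HH d) (ζ₀ : ℂ)
    (h0 : 0 < ζ₀.re) (h1 : ζ₀.re < P) : DifferentiableAt ℂ (fun ζ => FF d z ζ f g) ζ₀ := by
  obtain ⟨r, hr, hr1, hr2⟩ : ∃ r : ℝ, 0 < r ∧ 2 * r ≤ ζ₀.re ∧ 2 * r ≤ P - ζ₀.re := by
    refine ⟨min ζ₀.re (P - ζ₀.re) / 2, ?_, ?_, ?_⟩
    · have : 0 < min ζ₀.re (P - ζ₀.re) := lt_min h0 (by linarith)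
      linarith
    · have := min_le_left ζ₀.re (P - ζ₀.re)
      linarith
    · have := min_le_right ζ₀.re (P - ζ₀.re)
      linarith
  have hint := h396_h_int f g
  have hmeas : ∀ ζ : ℂ, AEStronglyMeasurable (fun ξ : EE d =>
      (starRingEnd ℂ) ((𝓕 g : HH d) ξ) * (𝓕 f : HH d) ξ * h396_b z ξ ^ ζ) volume := fun ζ =>
    hint.aestronglyMeasurable.mul (h396_cpow_meas z ζ).aestronglyMeasurable
  have key := hasDerivAt_integral_of_dominated_loc_of_deriv_le (𝕜 := ℂ)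
    (μ := (volume : Measure (EE d))) (x₀ := ζ₀) (s := Metric.ball ζ₀ r)
    (F := fun ζ ξ => (starRingEnd ℂ) ((𝓕 g : HH d) ξ) * (𝓕 f : HH d) ξ * h396_b z ξ ^ ζ)
    (F' := fun ζ ξ => (starRingEnd ℂ) ((𝓕 g : HH d) ξ) * (𝓕 f : HH d) ξ *
      (h396_b z ξ ^ ζ * log (h396_b z ξ)))
    (bound := fun ξ => ‖(starRingEnd ℂ) ((𝓕 g : HH d) ξ) * (𝓕 f : HH d) ξ‖ *
      ((max 1 ((z.im)⁻¹ ^ P)) * Real.exp (Real.pi * (|ζ₀.im| + 2 * r) / 2) / r))
    (Metric.ball_mem_nhds ζ₀ hr) (Filter.Eventually.of_forall hmeas) ?_ ?_ ?_ ?_ ?_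
  · exact key.2.differentiableAt
  · refine (hint.norm.mul_const ((max 1 ((z.im)⁻¹ ^ P)) *
      Real.exp (Real.pi * |ζ₀.im| / 2))).mono' (hmeas ζ₀) ?_
    refine Filter.Eventually.of_forall fun ξ => ?_
    rw [norm_mul _ (h396_b z ξ ^ ζ₀)]
    exact mul_le_mul_of_nonneg_left (h396_cpow_bound z hz P ξ ζ₀ h0.le h1.le) (norm_nonneg _)
  · exact hint.aestronglyMeasurable.mul
      (((h396_cpow_meas z ζ₀).mul (h396_b_meas z).clog).aestronglyMeasurable)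
  · refine Filter.Eventually.of_forall fun ξ ζ hζ => ?_
    rw [Metric.mem_ball, dist_eq_norm] at hζ
    have hre := Complex.abs_re_le_norm (ζ - ζ₀)
    have him := Complex.abs_im_le_norm (ζ - ζ₀)
    rw [Complex.sub_re] at hre
    rw [Complex.sub_im] at him
    have hre' := abs_le.1 hre
    rw [norm_mul _ (h396_b z ξ ^ ζ * log (h396_b z ξ))]
    apply mul_le_mul_of_nonneg_left _ (norm_nonneg _)
    apply h396_cauchy z hz P ξ ζ r _ hr (by linarith) (by linarith)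
    have : |ζ.im| ≤ |ζ.im - ζ₀.im| + |ζ₀.im| := by
      have := abs_add_le (ζ.im - ζ₀.im) ζ₀.im
      rwa [sub_add_cancel] at this
    linarith
  · exact hint.norm.mul_const _
  · refine Filter.Eventually.of_forall fun ξ ζ _ => ?_
    exact (h396_hasDeriv z hz ξ ζ).const_mul _

theorem h396_cont {d : ℕ} (z : ℂ) (hz : 0 < z.im) (P : ℝ) (f g : HH d) (ζ₀ : ℂ) (S : Set ℂ)
    (hS : ∀ ζ ∈ S, 0 ≤ ζ.re ∧ ζ.re ≤ P) :
    ContinuousWithinAt (fun ζ => FF d z ζ f g) S ζ₀ := by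
  have hint := h396_h_int f g
  have hmeas : ∀ ζ : ℂ, AEStronglyMeasurable (fun ξ : EE d =>
      (starRingEnd ℂ) ((𝓕 g : HH d) ξ) * (𝓕 f : HH d) ξ * h396_b z ξ ^ ζ) volume := fun ζ =>
    hint.aestronglyMeasurable.mul (h396_cpow_meas z ζ).aestronglyMeasurable
  have key := continuousWithinAt_of_dominated
    (μ := (volume : Measure (EE d))) (x₀ := ζ₀) (s := S)
    (F := fun ζ ξ => (starRingEnd ℂ) ((𝓕 g : HH d) ξ) * (𝓕 f : HH d) ξ * h396_b z ξ ^ ζ)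
    (bound := fun ξ => ‖(starRingEnd ℂ) ((𝓕 g : HH d) ξ) * (𝓕 f : HH d) ξ‖ *
      ((max 1 ((z.im)⁻¹ ^ P)) * Real.exp (Real.pi * (|ζ₀.im| + 1) / 2)))
    (Filter.Eventually.of_forall hmeas) ?_ (hint.norm.mul_const _) ?_
  · exact key
  · have h1 : ∀ᶠ ζ in 𝓝[S] ζ₀, ζ ∈ Metric.ball ζ₀ 1 :=
      mem_nhdsWithin_of_mem_nhds (Metric.ball_mem_nhds ζ₀ one_pos)
    filter_upwards [h1, self_mem_nhdsWithin] with ζ hζ hζS
    refine Filter.Eventually.of_forall fun ξ => ?_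
    rw [Metric.mem_ball, dist_eq_norm] at hζ
    have him := Complex.abs_im_le_norm (ζ - ζ₀)
    rw [Complex.sub_im] at him
    rw [norm_mul _ (h396_b z ξ ^ ζ)]
    apply mul_le_mul_of_nonneg_left _ (norm_nonneg _)
    refine (h396_cpow_bound z hz P ξ ζ (hS ζ hζS).1 (hS ζ hζS).2).trans ?_
    apply mul_le_mul_of_nonneg_left _ (by positivity)
    apply Real.exp_le_exp.2
    have h3 : |ζ.im| ≤ |ζ₀.im| + 1 := by
      have : |ζ.im| ≤ |ζ.im - ζ₀.im| + |ζ₀.im| := by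
        have := abs_add_le (ζ.im - ζ₀.im) ζ₀.im
        rwa [sub_add_cancel] at this
      linarith
    have h4 : Real.pi * |ζ.im| ≤ Real.pi * (|ζ₀.im| + 1) :=
      mul_le_mul_of_nonneg_left h3 Real.pi_pos.le
    linarith
  · refine Filter.Eventually.of_forall fun ξ => ?_
    exact ((h396_hasDeriv z hz ξ ζ₀).const_mul _).continuousAt.continuousWithinAt

theorem h396_fourier_sum {d n : ℕ} (c : Fin n → ℂ) (f : Fin n → HH d) :
    (𝓕 (∑ j, c j • f j) : HH d) = ∑ j, c j • (𝓕 (f j) : HH d) := by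
  have e : ∀ x : HH d, (𝓕 x : HH d) = Lp.fourierTransformₗᵢ (EE d) ℂ x := fun x => rfl
  rw [e, map_sum]
  apply Finset.sum_congr rfl
  intro j _
  rw [map_smul, e]

/-! TARGET: prove the following -/

theorem FF_prop (d : ℕ) (z : ℂ) (hz : 0 < z.im) (P : ℝ) (hP : 0 < P) :
    (∀ f g : HH d, DiffContOnCl ℂ (fun ζ => FF d z ζ f g) (Complex.re ⁻¹' (Set.Ioo 0 P))) ∧
    (∀ (f g : HH d) (ζ : ℂ), 0 ≤ ζ.re → ζ.re ≤ P →
      ‖FF d z ζ f g‖ ≤ (max 1 ((z.im)⁻¹ ^ P)) * Real.exp (Real.pi * |ζ.im| / 2) * ‖f‖ * ‖g‖) ∧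
    (∀ (f g : HH d) (ζ : ℂ), ζ.re = 0 →
      ‖FF d z ζ f g‖ ≤ Real.exp (Real.pi * |ζ.im| / 2) * ‖f‖ * ‖g‖) ∧
    (∀ f g : HH d, ⟪g, Rz d z f⟫_ℂ = I * FF d z 1 f g) ∧
    (∀ (ζ : ℂ), 0 ≤ ζ.re → ζ.re ≤ P → ∀ (n : ℕ) (c e : Fin n → ℂ) (f g : Fin n → HH d),
      FF d z ζ (∑ j, c j • f j) (∑ i, e i • g i) =
        ∑ i, ∑ j, (starRingEnd ℂ) (e i) * c j * FF d z ζ (f j) (g i)) := by
  have hclos : ∀ ζ ∈ closure (Complex.re ⁻¹' (Set.Ioo 0 P)), 0 ≤ ζ.re ∧ ζ.re ≤ P := by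
    have h1 : closure (Complex.re ⁻¹' (Set.Ioo 0 P)) ⊆ Complex.re ⁻¹' (Set.Icc 0 P) :=
      closure_minimal (Set.preimage_mono Set.Ioo_subset_Icc_self)
        (isClosed_Icc.preimage Complex.continuous_re)
    intro ζ hζ
    exact h1 hζ
  refine ⟨?_, ?_, ?_, ?_, ?_⟩
  · intro f g
    refine ⟨?_, ?_⟩
    · intro ζ hζ
      exact (h396_diffAt z hz P f g ζ hζ.1 hζ.2).differentiableWithinAt
    · intro ζ _
      exact h396_cont z hz P f g ζ _ hclos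
  · intro f g ζ h0 h1
    exact h396_FF_norm z _ ζ (fun ξ => h396_cpow_bound z hz P ξ ζ h0 h1) f g
  · intro f g ζ h0
    apply h396_FF_norm z _ ζ (fun ξ => ?_) f g
    have h1 := h396_cpow_norm z hz ξ ζ
    rw [h0, Real.rpow_zero, one_mul] at h1
    exact h1
  · intro f g
    rw [Rz_inner z (Or.inl hz) f g]
    unfold FF
    rw [← integral_const_mul]
    apply integral_congr_ae
    refine Filter.Eventually.of_forall fun ξ => ?_
    simp only [Complex.cpow_one, sym, mul_inv, Complex.inv_I]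
    linear_combination ((starRingEnd ℂ) ((𝓕 g : HH d) ξ) * (𝓕 f : HH d) ξ *
      (((4 * Real.pi ^ 2 * ‖ξ‖ ^ 2 : ℝ) : ℂ) - z)⁻¹) * Complex.I_mul_I
  · intro ζ h0 h1 n c e f g
    have hC : ∀ ξ : EE d, ‖h396_b z ξ ^ ζ‖ ≤
        (max 1 ((z.im)⁻¹ ^ P)) * Real.exp (Real.pi * |ζ.im| / 2) :=
      fun ξ => h396_cpow_bound z hz P ξ ζ h0 h1
    rw [h396_FF_eq z _ ζ hC, h396_fourier_sum, h396_fourier_sum, map_sum, sum_inner]
    apply Finset.sum_congr rfl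
    intro i _
    rw [inner_sum]
    apply Finset.sum_congr rfl
    intro j _
    rw [h396_FF_eq z _ ζ hC, map_smul, inner_smul_left, inner_smul_right]
    ring

end

end KRS
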