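import Pool.Agent.H631.KR.Defs
import Pool.Agent.H631.KR.K00
import Pool.Agent.H631.KR.K02
import Pool.Agent.H631.KR.K04
import Pool.Agent.H631.KR.K05
import Pool.Agent.H631.KR.K06
import Pool.Agent.H631.KR.K07

open MeasureTheory Filter Topology ENNReal Complex
open scoped Laplacian FourierTransform InnerProductSpace

namespace KRS

noncomputable section

/-! TARGET: prove the following -/

theorem krs_up_hyp (d : ℕ) (p : ℝ) (hp0 : 0 < p) (hp : (d : ℝ) / 2 < p)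
    (hp' : p ≤ ((d : ℝ) + 1) / 2) :
    ∃ C : ℝ, 0 < C ∧ ∀ z : ℂ, 0 < z.im → ‖z‖ = 1 → ∀ ζ : ℂ, ζ.re = p → ∀ f g : HH d,
        (∃ L : ℝ, (∀ᵐ x : EE d, L < ‖x‖ → (f : EE d → ℂ) x = 0) ∧
          (∀ᵐ x : EE d, L < ‖x‖ → (g : EE d → ℂ) x = 0)) →
        ‖FF d z ζ f g * Complex.Gamma ζ‖ ≤
          C * (1 + |ζ.im|) * (∫ x, ‖(f : EE d → ℂ) x‖) * (∫ x, ‖(g : EE d → ℂ) x‖) := by
  obtain ⟨C, hC, hosc⟩ := osc_one (p - 1 - (d : ℝ) / 2) (by linarith) (by linarith)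
  refine ⟨C, hC, ?_⟩
  rintro z hz hz1 ζ hζ f g ⟨L, hf, hg⟩
  have hζ0 : 0 < ζ.re := by rw [hζ]; exact hp0
  set A : ℝ → ℂ := fun s => (s : ℂ) ^ (ζ - 1) * Complex.exp (I * z * (s : ℂ)) with hA
  have hA1 : IntegrableOn A (Set.Ioi 0) := (lap_one ζ z hζ0 hz 0).1
  have hpow : ∀ s : ℝ, 0 < s → (s : ℂ) ^ (ζ - 1) * ((s ^ (-((d : ℝ) / 2)) : ℝ) : ℂ) =
      (s : ℂ) ^ (ζ - ((d : ℝ) / 2 : ℝ) - 1) := by
    intro s hs
    rw [Complex.ofReal_cpow hs.le, ← Complex.cpow_add _ _ (by exact_mod_cast hs.ne')]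
    congr 1
    push_cast
    ring
  have hA2 : IntegrableOn (fun s => A s * ((s ^ (-((d : ℝ) / 2)) : ℝ) : ℂ)) (Set.Ioi 0) := by
    have h1 := (lap_one (ζ - ((d : ℝ) / 2 : ℝ)) z (by
      rw [Complex.sub_re, Complex.ofReal_re, hζ]; linarith) hz 0).1
    refine h1.congr_fun ?_ measurableSet_Ioi
    intro s hs
    have hs' : 0 < s := hs
    simp only [hA]
    rw [← hpow s hs']
    ring
  have hβ : (ζ - ((d : ℝ) / 2 : ℝ) - 1) =
      ((p - 1 - (d : ℝ) / 2 : ℝ) : ℂ) + ((ζ.im : ℝ) : ℂ) * I := by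
    apply Complex.ext
    · simp [hζ]
      ring
    · simp
  have hB : ∀ r : ℝ, 0 ≤ r → r ≤ 2 * L → ‖∫ s in Set.Ioi (0 : ℝ), A s *
      ((s ^ (-((d : ℝ) / 2)) : ℝ) : ℂ) * Complex.exp (I * ((r ^ 2 / (4 * s) : ℝ) : ℂ))‖ ≤
        C * (1 + |ζ.im|) := by
    intro r hr _
    have h1 := hosc ζ.im z r hz hz1 hr
    have h2 : ∫ s in Set.Ioi (0 : ℝ), A s *
        ((s ^ (-((d : ℝ) / 2)) : ℝ) : ℂ) * Complex.exp (I * ((r ^ 2 / (4 * s) : ℝ) : ℂ)) =
        ∫ s in Set.Ioi (0 : ℝ), (s : ℂ) ^ (((p - 1 - (d : ℝ) / 2 : ℝ) : ℂ) + (ζ.im : ℂ) * I) *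
          Complex.exp (I * z * (s : ℂ)) *
        Complex.exp (I * ((r ^ 2 / (4 * s) : ℝ) : ℂ)) := by
      refine setIntegral_congr_fun measurableSet_Ioi ?_
      intro s hs
      have hs' : 0 < s := hs
      simp only [hA]
      rw [← hβ, ← hpow s hs']
      ring
    rw [h2]
    exact h1
  have hkb := kernel_bound d A hA1 hA2 L (C * (1 + |ζ.im|)) (by positivity) hB f g hf hg
  have hFF : FF d z ζ f g * Complex.Gamma ζ =
      ∫ ξ : EE d, (starRingEnd ℂ) ((𝓕 g : HH d) ξ) * (𝓕 f : HH d) ξ *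
      (∫ s in Set.Ioi (0 : ℝ), A s *
        Complex.exp (-(I * ((s * (4 * Real.pi ^ 2 * ‖ξ‖ ^ 2) : ℝ) : ℂ)))) := by
    unfold FF
    rw [← integral_mul_const]
    congr 1
    funext ξ
    rw [(lap_one ζ z hζ0 hz (4 * Real.pi ^ 2 * ‖ξ‖ ^ 2)).2]
    ring
  rw [hFF]
  exact hkb

theorem krs_up_coeSum {d : ℕ} {M : ℕ} (c : Fin M → ℂ) (h : Fin M → HH d) :
    ((∑ i, c i • h i : HH d) : EE d → ℂ) =ᵐ[volume] fun x => ∑ i, c i * h i x := by
  classical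
  have key : ∀ s : Finset (Fin M), ((∑ i ∈ s, c i • h i : HH d) : EE d → ℂ) =ᵐ[volume]
      fun x => ∑ i ∈ s, c i * h i x := by
    intro s
    induction s using Finset.induction_on with
    | empty =>
      simp only [Finset.sum_empty]
      exact Lp.coeFn_zero _ _ _
    | insert a s ha ih =>
      rw [Finset.sum_insert ha]
      filter_upwards [Lp.coeFn_add (c a • h a) (∑ i ∈ s, c i • h i), Lp.coeFn_smul (c a) (h a), ih]
        with x h1 h2 h3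
      rw [h1, Pi.add_apply, h2, h3, Finset.sum_insert ha, Pi.smul_apply, smul_eq_mul]
  exact key Finset.univ

theorem krs_up_level {M k : ℕ} (φ : ℕ → ℝ) (h0 : φ 0 = 0) (hk : k ≤ M) :
    ∑ i : Fin M, (if k = (i : ℕ) + 1 then φ ((i : ℕ) + 1) else 0) = φ k := by
  cases k with
  | zero =>
    rw [h0]
    refine Finset.sum_eq_zero fun i _ => ?_
    rw [if_neg (by omega)]
  | succ k =>
    rw [Finset.sum_eq_single (⟨k, hk⟩ : Fin M)]
    · simp
    · intro j _ hj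
      rw [if_neg]
      intro h
      apply hj
      apply Fin.ext
      simp only
      omega
    · intro h
      exact absurd (Finset.mem_univ _) h

/-- level sets -/
def krsUpLevelSet {d : ℕ} (W : EE d → ℝ) (n M : ℕ) (i : Fin M) : Set (EE d) :=
  {x | ⌊(n : ℝ) * W x⌋₊ = (i : ℕ) + 1}

theorem krs_up_LS {d : ℕ} (W : EE d → ℝ) (hW : Wt W) (n M : ℕ) :
    (∀ i, MeasurableSet (krsUpLevelSet W n M i)) ∧ (∀ i, Bornology.IsBounded (krsUpLevelSet W n M i)) ∧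
      ∀ i j, i ≠ j → Disjoint (krsUpLevelSet W n M i) (krsUpLevelSet W n M j) := by
  obtain ⟨hm, h0, hB, r, hr⟩ := hW
  refine ⟨?_, ?_, ?_⟩
  · intro i
    exact (Nat.measurable_floor.comp (hm.const_mul (n : ℝ))) (measurableSet_singleton _)
  · intro i
    refine (Metric.isBounded_closedBall (x := (0 : EE d)) (r := r)).subset ?_
    intro x hx
    rw [mem_closedBall_zero_iff]
    by_contra hlt
    push Not at hlt
    have h1 := hr x hlt
    have h2 : ⌊(n : ℝ) * W x⌋₊ = (i : ℕ) + 1 := hx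
    rw [h1] at h2
    simp at h2
  · intro i j hij
    rw [Set.disjoint_left]
    intro x hx hx'
    have h1 : ⌊(n : ℝ) * W x⌋₊ = (i : ℕ) + 1 := hx
    have h2 : ⌊(n : ℝ) * W x⌋₊ = (j : ℕ) + 1 := hx'
    apply hij
    apply Fin.ext
    omega

theorem krs_up_int {d : ℕ} (W : EE d → ℝ) (hW : Wt W) (q : ℝ) (hq : 0 < q) :
    Integrable (fun x => W x ^ q) := by
  obtain ⟨hm, h0, ⟨B, hB⟩, r, hr⟩ := hW
  have hB0 : 0 ≤ B := (h0 0).trans (hB 0)
  have h1 : IntegrableOn (fun _ : EE d => B ^ q) (Metric.closedBall (0 : EE d) r) :=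
    integrableOn_const measure_closedBall_lt_top.ne
  have h2 : Integrable ((Metric.closedBall (0 : EE d) r).indicator fun _ => B ^ q) :=
    h1.integrable_indicator Metric.isClosed_closedBall.measurableSet
  refine h2.mono' (hm.pow_const q).aestronglyMeasurable ?_
  refine Filter.Eventually.of_forall fun x => ?_
  rw [Real.norm_eq_abs, abs_of_nonneg (Real.rpow_nonneg (h0 x) q)]
  by_cases hx : x ∈ Metric.closedBall (0 : EE d) r
  · rw [Set.indicator_of_mem hx]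
    exact Real.rpow_le_rpow (h0 x) (hB x) hq.le
  · rw [Set.indicator_of_notMem hx]
    rw [mem_closedBall_zero_iff, not_le] at hx
    rw [hr x hx, Real.zero_rpow hq.ne']

theorem krs_up_vol {d : ℕ} (W : EE d → ℝ) (hW : Wt W) (n M : ℕ) (hn : 0 < n)
    (hM : ∀ x, (n : ℝ) * W x < (M : ℝ) + 1) (q : ℝ) (hq : 0 < q) :
    ∑ i : Fin M, ((((i : ℕ) : ℝ) + 1) / n) ^ q * (volume (krsUpLevelSet W n M i)).toReal ≤
      ∫ x, W x ^ q := by
  obtain ⟨hLm, hLb, -⟩ := krs_up_LS W hW n M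
  have hn' : (0 : ℝ) < n := by exact_mod_cast hn
  have h1 : ∀ i : Fin M, ((((i : ℕ) : ℝ) + 1) / n) ^ q * (volume (krsUpLevelSet W n M i)).toReal =
      ∫ x, (krsUpLevelSet W n M i).indicator (fun _ => ((((i : ℕ) : ℝ) + 1) / n) ^ q) x := by
    intro i
    rw [integral_indicator (hLm i), setIntegral_const, smul_eq_mul, measureReal_def]
    ring
  have hfin : ∀ i : Fin M, volume (krsUpLevelSet W n M i) ≠ ⊤ := fun i => (hLb i).measure_lt_top.ne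
  have hint : ∀ i : Fin M, Integrable
      (fun x => (krsUpLevelSet W n M i).indicator (fun _ => ((((i : ℕ) : ℝ) + 1) / n) ^ q) x) := fun i =>
    (integrableOn_const (hfin i)).integrable_indicator (hLm i)
  rw [Finset.sum_congr rfl fun i _ => h1 i, ← integral_finset_sum _ fun i _ => hint i]
  refine integral_mono (integrable_finset_sum _ fun i _ => hint i) (krs_up_int W hW q hq) ?_
  intro x
  simp only
  have hk : ⌊(n : ℝ) * W x⌋₊ ≤ M := by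
    have h2 : ⌊(n : ℝ) * W x⌋₊ < M + 1 := by
      rw [Nat.floor_lt (mul_nonneg hn'.le (hW.2.1 x))]
      exact_mod_cast hM x
    omega
  have h3 := krs_up_level (M := M) (fun k : ℕ => ((k : ℝ) / n) ^ q)
    (by simp [Real.zero_rpow hq.ne']) hk
  have h4 : ∑ i : Fin M, (krsUpLevelSet W n M i).indicator (fun _ => ((((i : ℕ) : ℝ) + 1) / n) ^ q) x =
      ((⌊(n : ℝ) * W x⌋₊ : ℝ) / n) ^ q := by
    rw [← h3]
    refine Finset.sum_congr rfl fun i _ => ?_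
    simp only [Set.indicator, krsUpLevelSet, Set.mem_setOf_eq]
    split_ifs
    · push_cast; rfl
    · rfl
  rw [h4]
  refine Real.rpow_le_rpow (by positivity) ?_ hq.le
  rw [div_le_iff₀ hn']
  calc ((⌊(n : ℝ) * W x⌋₊ : ℕ) : ℝ) ≤ (n : ℝ) * W x :=
        Nat.floor_le (mul_nonneg hn'.le (hW.2.1 x))
    _ = W x * n := mul_comm _ _

theorem krs_up_approx {d : ℕ} (W : EE d → ℝ) (hW : Wt W) (n M : ℕ) (hn : 0 < n)
    (hM : ∀ x, (n : ℝ) * W x < (M : ℝ) + 1) (f : HH d) :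
    ‖(∑ i : Fin M, (((((i : ℕ) : ℝ) + 1) / n : ℝ) : ℂ) • proj (krsUpLevelSet W n M i) f) - wm W f‖ ≤
      (1 / (n : ℝ)) * ‖f‖ := by
  obtain ⟨hLm, hLb, -⟩ := krs_up_LS W hW n M
  have hn' : (0 : ℝ) < n := by exact_mod_cast hn
  apply Lp.norm_le_mul_norm_of_ae_le_mul
  have hproj : ∀ᵐ x, ∀ i : Fin M, (proj (krsUpLevelSet W n M i) f : EE d → ℂ) x =
      (krsUpLevelSet W n M i).indicator f x := by
    rw [ae_all_iff]
    intro i
    exact proj_ae _ (hLm i) f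
  filter_upwards [Lp.coeFn_sub (∑ i : Fin M, (((((i : ℕ) : ℝ) + 1) / n : ℝ) : ℂ) •
    proj (krsUpLevelSet W n M i) f) (wm W f), krs_up_coeSum (fun i : Fin M =>
    (((((i : ℕ) : ℝ) + 1) / n : ℝ) : ℂ)) (fun i => proj (krsUpLevelSet W n M i) f), wm_ae W hW f, hproj]
    with x h1 h2 h3 h4
  rw [h1, Pi.sub_apply, h2, h3]
  have hk : ⌊(n : ℝ) * W x⌋₊ ≤ M := by
    have h2 : ⌊(n : ℝ) * W x⌋₊ < M + 1 := by
      rw [Nat.floor_lt (mul_nonneg hn'.le (hW.2.1 x))]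
      exact_mod_cast hM x
    omega
  have h5 := krs_up_level (M := M) (fun k : ℕ => ((k : ℝ) / n)) (by simp) hk
  have h6 : ∑ i : Fin M, (((((i : ℕ) : ℝ) + 1) / n : ℝ) : ℂ) * (proj (krsUpLevelSet W n M i) f : EE d → ℂ) x =
      (((⌊(n : ℝ) * W x⌋₊ : ℝ) / n : ℝ) : ℂ) * f x := by
    rw [← h5]
    push_cast
    rw [Finset.sum_mul]
    refine Finset.sum_congr rfl fun i _ => ?_
    rw [h4 i]
    simp only [Set.indicator, krsUpLevelSet, Set.mem_setOf_eq]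
    split_ifs
    · push_cast; rfl
    · simp
  rw [h6, ← sub_mul, norm_mul, ← Complex.ofReal_sub, Complex.norm_real, Real.norm_eq_abs]
  refine mul_le_mul_of_nonneg_right ?_ (norm_nonneg _)
  have h7 : (⌊(n : ℝ) * W x⌋₊ : ℝ) ≤ (n : ℝ) * W x :=
    Nat.floor_le (mul_nonneg hn'.le (hW.2.1 x))
  have h8 : (n : ℝ) * W x < (⌊(n : ℝ) * W x⌋₊ : ℝ) + 1 := Nat.lt_floor_add_one _
  rw [abs_le]
  constructor
  · rw [neg_le_sub_iff_le_add, ← add_div, le_div_iff₀ hn']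
    linarith
  · rw [sub_le_iff_le_add, div_le_iff₀ hn', add_mul, one_div, inv_mul_cancel₀ hn'.ne']
    linarith

theorem krs_up (d : ℕ) (hd : 2 ≤ d) (p : ℝ) (hp : (d : ℝ) / 2 < p) (hp' : p ≤ ((d : ℝ) + 1) / 2) :
    ∃ C : ℝ, 0 < C ∧ ∀ z : ℂ, 0 < z.im → ‖z‖ = 1 → ∀ W₁ W₂ : EE d → ℝ, Wt W₁ → Wt W₂ →
      ∀ f g : HH d, ‖⟪wm W₁ g, Rz d z (wm W₂ f)⟫_ℂ‖ ≤
        C * (∫ x, W₁ x ^ (2 * p)) ^ (1 / (2 * p)) * (∫ x, W₂ x ^ (2 * p)) ^ (1 / (2 * p)) *
          ‖f‖ * ‖g‖ := by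
  have hd' : (2 : ℝ) ≤ d := by exact_mod_cast hd
  have hp1 : 1 < p := by linarith
  obtain ⟨B₀, hB₀, hhyp⟩ := krs_up_hyp d p (by linarith) hp hp'
  obtain ⟨C, hC, hst⟩ := stein_simple d p hp1 B₀ hB₀.le
  refine ⟨C, hC, ?_⟩
  intro z hz hz1 W₁ W₂ hW₁ hW₂ f g
  have hmain := hst z hz (hhyp z hz hz1)
  obtain ⟨B₁, hB₁⟩ := hW₁.2.2.1
  obtain ⟨B₂, hB₂⟩ := hW₂.2.2.1
  have hMex : ∀ n : ℕ, ∃ M : ℕ, (∀ x, (n : ℝ) * W₁ x < (M : ℝ) + 1) ∧
      (∀ x, (n : ℝ) * W₂ x < (M : ℝ) + 1) := by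
    intro n
    obtain ⟨M, hM⟩ := exists_nat_ge ((n : ℝ) * max B₁ B₂)
    refine ⟨M, ?_, ?_⟩
    · intro x
      have : (n : ℝ) * W₁ x ≤ (n : ℝ) * max B₁ B₂ :=
        mul_le_mul_of_nonneg_left ((hB₁ x).trans (le_max_left _ _)) (Nat.cast_nonneg n)
      linarith
    · intro x
      have : (n : ℝ) * W₂ x ≤ (n : ℝ) * max B₁ B₂ :=
        mul_le_mul_of_nonneg_left ((hB₂ x).trans (le_max_right _ _)) (Nat.cast_nonneg n)
      linarith
  choose M hM1 hM2 using hMex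
  set GG : ℕ → HH d := fun n => ∑ i : Fin (M n), (((((i : ℕ) : ℝ) + 1) / n : ℝ) : ℂ) •
    proj (krsUpLevelSet W₁ n (M n) i) g with hGG
  set FN : ℕ → HH d := fun n => ∑ i : Fin (M n), (((((i : ℕ) : ℝ) + 1) / n : ℝ) : ℂ) •
    proj (krsUpLevelSet W₂ n (M n) i) f with hFN
  have hlim0 : Tendsto (fun n : ℕ => (1 / (n : ℝ))) atTop (𝓝 0) :=
    tendsto_one_div_atTop_nhds_zero_nat
  have hG : Tendsto GG atTop (𝓝 (wm W₁ g)) := by
    rw [tendsto_iff_norm_sub_tendsto_zero]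
    have hl := hlim0.mul_const ‖g‖
    rw [zero_mul] at hl
    refine squeeze_zero' (Filter.Eventually.of_forall fun n => norm_nonneg _) ?_ hl
    filter_upwards [eventually_gt_atTop 0] with n hn
    exact krs_up_approx W₁ hW₁ n (M n) hn (hM1 n) g
  have hF : Tendsto FN atTop (𝓝 (wm W₂ f)) := by
    rw [tendsto_iff_norm_sub_tendsto_zero]
    have hl := hlim0.mul_const ‖f‖
    rw [zero_mul] at hl
    refine squeeze_zero' (Filter.Eventually.of_forall fun n => norm_nonneg _) ?_ hl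
    filter_upwards [eventually_gt_atTop 0] with n hn
    exact krs_up_approx W₂ hW₂ n (M n) hn (hM2 n) f
  have hlim : Tendsto (fun n => ‖⟪GG n, Rz d z (FN n)⟫_ℂ‖) atTop
      (𝓝 ‖⟪wm W₁ g, Rz d z (wm W₂ f)⟫_ℂ‖) :=
    (hG.inner (((Rz d z).continuous.tendsto _).comp hF)).norm
  refine le_of_tendsto hlim ?_
  filter_upwards [eventually_gt_atTop 0] with n hn
  have hn' : (0 : ℝ) < n := by exact_mod_cast hn
  obtain ⟨a1, a2, a3⟩ := krs_up_LS W₁ hW₁ n (M n)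
  obtain ⟨b1, b2, b3⟩ := krs_up_LS W₂ hW₂ n (M n)
  have h1 := hmain (M n) (fun i => (((i : ℕ) : ℝ) + 1) / n) (fun i => (((i : ℕ) : ℝ) + 1) / n)
    (krsUpLevelSet W₁ n (M n)) (krsUpLevelSet W₂ n (M n))
    (fun i => ⟨by positivity, by positivity, a1 i, b1 i, a2 i, b2 i⟩)
    (fun i j hij => ⟨a3 i j hij, b3 i j hij⟩) f g
  have h2 : ⟪GG n, Rz d z (FN n)⟫_ℂ = ∑ i : Fin (M n), ∑ j : Fin (M n),
      (((((i : ℕ) : ℝ) + 1) / n * ((((j : ℕ) : ℝ) + 1) / n) : ℝ) : ℂ) *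
        ⟪proj (krsUpLevelSet W₁ n (M n) i) g, Rz d z (proj (krsUpLevelSet W₂ n (M n) j) f)⟫_ℂ := by
    simp only [hGG, hFN]
    rw [sum_inner, map_sum]
    refine Finset.sum_congr rfl fun i _ => ?_
    rw [inner_sum]
    refine Finset.sum_congr rfl fun j _ => ?_
    rw [map_smul, inner_smul_left, inner_smul_right, Complex.conj_ofReal, ← mul_assoc,
      ← Complex.ofReal_mul]
  rw [h2]
  refine h1.trans ?_
  have hq : 0 < 2 * p := by linarith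
  have v1 := krs_up_vol W₁ hW₁ n (M n) hn (hM1 n) (2 * p) hq
  have v2 := krs_up_vol W₂ hW₂ n (M n) hn (hM2 n) (2 * p) hq
  have w1 := Real.rpow_le_rpow (Finset.sum_nonneg fun i _ => by positivity) v1
    (show 0 ≤ 1 / (2 * p) by positivity)
  have w2 := Real.rpow_le_rpow (Finset.sum_nonneg fun i _ => by positivity) v2
    (show 0 ≤ 1 / (2 * p) by positivity)
  refine mul_le_mul_of_nonneg_right (mul_le_mul_of_nonneg_right (mul_le_mul
    (mul_le_mul_of_nonneg_left w1 hC.le) w2 (Real.rpow_nonneg (Finset.sum_nonneg fun i _ => ?_) _)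
    (mul_nonneg hC.le (Real.rpow_nonneg (integral_nonneg fun x => ?_) _))) (norm_nonneg _))
    (norm_nonneg _)
  · positivity
  · exact Real.rpow_nonneg (hW₁.2.1 x) _

end

end KRS
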