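import Pool.Agent.H631.KR.Defs
import Pool.Agent.H631.KR.B01
import Pool.Agent.H631.KR.B20
import Pool.Agent.H631.KR.K00
import Pool.Agent.H631.KR.K08
import Pool.Agent.H631.KR.K0R
import Pool.Agent.H631.KR.K10

open MeasureTheory Filter Topology ENNReal Complex
open scoped Laplacian FourierTransform InnerProductSpace

namespace KRS

noncomputable section

theorem fb_tsym_sq {d : ℕ} (f : HH d) : fm tsym (fm tsym f) = Rz d (-1) f := by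
  have hm : Measurable (tsym (d := d)) := by
    unfold tsym
    fun_prop
  have hb : ∀ ξ : EE d, ‖tsym ξ‖ ≤ 1 := by
    intro ξ
    unfold tsym
    rw [Complex.norm_real, Real.norm_of_nonneg (by positivity)]
    apply inv_le_one_of_one_le₀
    rw [Real.one_le_sqrt]
    have : 0 ≤ 4 * Real.pi ^ 2 * ‖ξ‖ ^ 2 := by positivity
    linarith
  rw [fm_comp tsym tsym hm 1 hb hm 1 hb]
  have : (fun ξ : EE d => tsym ξ * tsym ξ) = sym (-1) := by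
    funext ξ
    unfold tsym sym
    have h0 : 0 ≤ 1 + 4 * Real.pi ^ 2 * ‖ξ‖ ^ 2 := by positivity
    rw [← Complex.ofReal_mul, ← mul_inv, Real.mul_self_sqrt h0]
    push_cast
    congr 1
    ring
  rw [this]
  rfl

theorem fb_key {d : ℕ} (w : EE d → ℝ) (hw : Wt w) (K : ℝ) (hK : 0 ≤ K)
    (h : ∀ f g : HH d, ‖⟪wm w g, Rz d (-1) (wm w f)⟫_ℂ‖ ≤ K * ‖f‖ * ‖g‖) (f : HH d) :
    ‖wm w (fm tsym f)‖ ^ 2 ≤ K * ‖f‖ ^ 2 := by
  obtain ⟨hm, h0, ⟨B, hB⟩, -⟩ := id hw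
  have hwi : ∀ a b : HH d, ⟪wm w a, b⟫_ℂ = ⟪a, wm w b⟫_ℂ := by
    intro a b
    have := mulOp_inner (fun x => (w x : ℂ)) (Complex.measurable_ofReal.comp hm) B (fun x => by
      rw [Complex.norm_real, Real.norm_of_nonneg (h0 x)]; exact hB x) a b
    simp only [Complex.conj_ofReal] at this
    exact this
  obtain ⟨-, -, -, -, hsa, -⟩ := TST d I (by simp)
  set g := wm w (fm tsym f) with hg
  have h1 : ‖g‖ ^ 2 ≤ ‖f‖ * ‖fm tsym (wm w g)‖ := by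
    have e : ⟪g, g⟫_ℂ = ⟪f, fm tsym (wm w g)⟫_ℂ := by
      conv_lhs => rw [hg]
      rw [hwi, hsa, ← hg]
    have e2 : ‖g‖ ^ 2 = ‖⟪g, g⟫_ℂ‖ := by
      rw [inner_self_eq_norm_sq_to_K]
      simp
    rw [e2, e]
    exact norm_inner_le_norm _ _
  have h2 : ‖fm tsym (wm w g)‖ ^ 2 ≤ K * ‖g‖ ^ 2 := by
    have e2 : ‖fm tsym (wm w g)‖ ^ 2 = ‖⟪fm tsym (wm w g), fm tsym (wm w g)⟫_ℂ‖ := by
      rw [inner_self_eq_norm_sq_to_K]
      simp
    rw [e2, hsa, fb_tsym_sq]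
    refine (h g g).trans (le_of_eq ?_)
    ring
  by_cases hg0 : ‖g‖ = 0
  · rw [hg0, zero_pow two_ne_zero]; positivity
  have hgp : 0 < ‖g‖ := lt_of_le_of_ne (norm_nonneg _) (Ne.symm hg0)
  have h3 : (‖g‖ ^ 2) ^ 2 ≤ ‖f‖ ^ 2 * (K * ‖g‖ ^ 2) := by
    calc (‖g‖ ^ 2) ^ 2 ≤ (‖f‖ * ‖fm tsym (wm w g)‖) ^ 2 := pow_le_pow_left₀ (by positivity) h1 2
      _ = ‖f‖ ^ 2 * ‖fm tsym (wm w g)‖ ^ 2 := by ring
      _ ≤ _ := by gcongr
  have h4 : ‖g‖ ^ 2 * ‖g‖ ^ 2 ≤ (K * ‖f‖ ^ 2) * ‖g‖ ^ 2 := by nlinarith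
  exact le_of_mul_le_mul_right h4 (by positivity)

theorem fb_wt {d : ℕ} (v : EE d → ℂ) (hv : BV v) : Wt (fun x => Real.sqrt ‖v x‖) := by
  obtain ⟨hm, ⟨B, hB⟩, ⟨r, hr⟩⟩ := hv
  refine ⟨hm.norm.sqrt, fun x => Real.sqrt_nonneg _, ⟨Real.sqrt B, fun x => Real.sqrt_le_sqrt (hB x)⟩,
    ⟨r, fun x hx => ?_⟩⟩
  simp [hr x hx]

theorem fb_int {d : ℕ} (v : EE d → ℂ) (hv : BV v) (u : HH d) :
    ∫ x, ‖v x‖ * ‖(u : EE d → ℂ) x‖ ^ 2 = ‖wm (fun x => Real.sqrt ‖v x‖) u‖ ^ 2 := by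
  have h := wm_ae (fun x => Real.sqrt ‖v x‖) (fb_wt v hv) u
  set q := wm (fun x => Real.sqrt ‖v x‖) u with hq
  have e2 : ‖q‖ ^ 2 = (⟪q, q⟫_ℂ).re := by
    rw [inner_self_eq_norm_sq_to_K]
    norm_cast
  rw [e2, L2.inner_def]
  have e3 : ∫ x, ⟪(q : EE d → ℂ) x, (q : EE d → ℂ) x⟫_ℂ =
      ((∫ x, ‖v x‖ * ‖(u : EE d → ℂ) x‖ ^ 2 : ℝ) : ℂ) := by
    rw [← integral_complex_ofReal]
    refine integral_congr_ae ?_
    filter_upwards [h] with x hx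
    rw [inner_self_eq_norm_sq_to_K, hx]
    norm_cast
    rw [norm_mul, Complex.norm_real, Real.norm_of_nonneg (Real.sqrt_nonneg _), mul_pow,
      Real.sq_sqrt (norm_nonneg _)]
    rfl
  rw [e3, Complex.ofReal_re]

/-- Hoelder on a unit ball -/
theorem fb_holder {d : ℕ} (p₀ p : ℝ) (hp₀ : 1 ≤ p₀) (hp : p₀ ≤ p) :
    ∃ C : ℝ, 0 < C ∧ ∀ (v : EE d → ℂ) (x₀ : EE d), BV v → (∀ x, 1 < ‖x - x₀‖ → v x = 0) →
      (∫ x, ‖v x‖ ^ p₀) ^ (1 / p₀) ≤ C * (∫ x, ‖v x‖ ^ p) ^ (1 / p) := by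
  have hp0pos : 0 < p₀ := by linarith
  have hppos : 0 < p := by linarith
  set m : ℝ≥0∞ := volume (Metric.closedBall (0 : EE d) 1) with hm
  have hmt : m ≠ ⊤ := measure_closedBall_lt_top.ne
  have hm0 : m ≠ 0 := (Metric.measure_closedBall_pos volume _ one_pos).ne'
  refine ⟨(m.toReal) ^ (1 / p₀ - 1 / p), Real.rpow_pos_of_pos (ENNReal.toReal_pos hm0 hmt) _, ?_⟩
  intro v x₀ hv hs
  obtain ⟨hvm, ⟨B, hB⟩, ⟨r, hr⟩⟩ := id hv
  set S := Metric.closedBall x₀ 1 with hS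
  have hsupp : ∀ x, x ∉ S → v x = 0 := fun x hx => hs x (by
    rw [hS, Metric.mem_closedBall, dist_eq_norm, not_le] at hx; exact hx)
  have hmemtop : MemLp v ⊤ (volume.restrict S) :=
    memLp_top_of_bound hvm.aestronglyMeasurable B (Eventually.of_forall hB)
  have hfin : IsFiniteMeasure (volume.restrict S) := ⟨by
    rw [Measure.restrict_apply_univ]; exact measure_closedBall_lt_top⟩
  have key : ∀ q : ℝ, 0 < q → (eLpNorm v (ENNReal.ofReal q) (volume.restrict S)).toReal =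
      (∫ x, ‖v x‖ ^ q) ^ (1 / q) := by
    intro q hq
    have hmem : MemLp v (ENNReal.ofReal q) (volume.restrict S) := hmemtop.mono_exponent le_top
    rw [hmem.eLpNorm_eq_integral_rpow_norm (by simp [hq]) ENNReal.ofReal_ne_top,
      ENNReal.toReal_ofReal hq.le, ENNReal.toReal_ofReal (by positivity), one_div]
    congr 1
    refine setIntegral_eq_integral_of_forall_compl_eq_zero fun x hx => ?_
    rw [hsupp x hx, norm_zero, Real.zero_rpow hq.ne']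
  have hle := eLpNorm_le_eLpNorm_mul_rpow_measure_univ (μ := volume.restrict S) (f := v)
    (p := ENNReal.ofReal p₀) (q := ENNReal.ofReal p) (ENNReal.ofReal_le_ofReal hp)
    hvm.aestronglyMeasurable
  rw [Measure.restrict_apply_univ, ENNReal.toReal_ofReal hp0pos.le,
    ENNReal.toReal_ofReal hppos.le] at hle
  have hSm : volume S = m := by
    rw [hS, hm, Measure.addHaar_closedBall_center]
  rw [hSm] at hle
  have hmemp : MemLp v (ENNReal.ofReal p) (volume.restrict S) := hmemtop.mono_exponent le_top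
  have hne : eLpNorm v (ENNReal.ofReal p) (volume.restrict S) * m ^ (1 / p₀ - 1 / p) ≠ ⊤ := by
    refine ENNReal.mul_ne_top hmemp.2.ne ?_
    exact (ENNReal.rpow_lt_top_of_nonneg (by
      rw [sub_nonneg]; exact one_div_le_one_div_of_le hp0pos hp) hmt).ne
  have := ENNReal.toReal_mono hne hle
  rw [ENNReal.toReal_mul, key p₀ hp0pos, key p hppos, ← ENNReal.toReal_rpow] at this
  rw [mul_comm]
  exact this

theorem fb_pow {d : ℕ} (v : EE d → ℂ) (p : ℝ) :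
    ∫ x, (Real.sqrt ‖v x‖) ^ (2 * p) = ∫ x, ‖v x‖ ^ p := by
  refine integral_congr_ae (Eventually.of_forall fun x => ?_)
  simp only
  rw [Real.sqrt_eq_rpow, ← Real.rpow_mul (norm_nonneg _)]
  congr 1
  ring

theorem form_bound (d : ℕ) (hd : 1 ≤ d) (p : ℝ) (hp : ((d : ℝ) + 1) / 2 ≤ p) :
    ∃ C : ℝ, 0 < C ∧ ∀ (v : EE d → ℂ) (x₀ : EE d), BV v → (∀ x, 1 < ‖x - x₀‖ → v x = 0) →
      ∀ f : HH d, ∫ x, ‖v x‖ * ‖(fm tsym f : EE d → ℂ) x‖ ^ 2 ≤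
        C * (∫ x, ‖v x‖ ^ p) ^ (1 / p) * ‖f‖ ^ 2 := by
  have hm1 : ‖(-1 : ℂ)‖ = 1 := by simp
  have hne : (-1 : ℂ) ≠ 1 := by
    intro h
    have := congrArg Complex.re h
    norm_num at this
  -- common constant
  have main : ∃ C : ℝ, 0 < C ∧ ∀ (v : EE d → ℂ), BV v → ∀ f g : HH d,
      ‖⟪wm (fun x => Real.sqrt ‖v x‖) g, Rz d (-1) (wm (fun x => Real.sqrt ‖v x‖) f)⟫_ℂ‖ ≤
        C * (∫ x, ‖v x‖ ^ (((d : ℝ) + 1) / 2)) ^ (1 / (((d : ℝ) + 1) / 2)) * ‖f‖ * ‖g‖ := by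
    rcases Nat.eq_or_lt_of_le hd with h1 | h2
    · subst h1
      refine ⟨1 / 2, by norm_num, fun v hv f g => ?_⟩
      refine ext_z _ _ _ ?_ (-1) hm1 hne
      intro z hz hz1
      have hI : (∫ x : EE 1, (Real.sqrt ‖v x‖) ^ (2 : ℝ)) = ∫ x, ‖v x‖ ^ ((((1 : ℕ) : ℝ) + 1) / 2) := by
        have := fb_pow v 1
        simp only [mul_one] at this
        rw [this]
        norm_num
      have hI0 : 0 ≤ ∫ x : EE 1, ‖v x‖ ^ ((((1 : ℕ) : ℝ) + 1) / 2) := integral_nonneg fun x => by positivity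
      have hh : ∀ f g : HH 1, ‖⟪wm (fun x => Real.sqrt ‖v x‖) g, Rz 1 z (wm (fun x => Real.sqrt ‖v x‖) f)⟫_ℂ‖ ≤
          1 / 2 * (∫ x, ‖v x‖ ^ ((((1 : ℕ) : ℝ) + 1) / 2)) ^ (1 / ((((1 : ℕ) : ℝ) + 1) / 2)) * ‖f‖ * ‖g‖ := by
        intro f g
        refine (krs_one z hz hz1 _ _ (fb_wt v hv) (fb_wt v hv) f g).trans (le_of_eq ?_)
        rw [hI]
        have : (1 : ℝ) / ((((1 : ℕ) : ℝ) + 1) / 2) = 1 / 2 + 1 / 2 := by norm_num
        rw [this, Real.rpow_add_of_nonneg hI0 (by norm_num) (by norm_num)]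
        ring
      exact ⟨hh f g, (hh g f).trans (le_of_eq (by ring))⟩
    · have h2' : 2 ≤ d := h2
      obtain ⟨C, hC, hk⟩ := krs_up d h2' (((d : ℝ) + 1) / 2) (by linarith) le_rfl
      refine ⟨C, hC, fun v hv f g => ?_⟩
      refine ext_z _ _ _ ?_ (-1) hm1 hne
      intro z hz hz1
      have hI0 : 0 ≤ ∫ x : EE d, ‖v x‖ ^ (((d : ℝ) + 1) / 2) := integral_nonneg fun x => by positivity
      have hdp : (0 : ℝ) < (d : ℝ) + 1 := by positivity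
      have hh : ∀ f g : HH d, ‖⟪wm (fun x => Real.sqrt ‖v x‖) g, Rz d z (wm (fun x => Real.sqrt ‖v x‖) f)⟫_ℂ‖ ≤
          C * (∫ x, ‖v x‖ ^ (((d : ℝ) + 1) / 2)) ^ (1 / (((d : ℝ) + 1) / 2)) * ‖f‖ * ‖g‖ := by
        intro f g
        refine (hk z hz hz1 _ _ (fb_wt v hv) (fb_wt v hv) f g).trans (le_of_eq ?_)
        rw [fb_pow]
        have : (1 : ℝ) / (((d : ℝ) + 1) / 2) = 1 / (2 * (((d : ℝ) + 1) / 2)) + 1 / (2 * (((d : ℝ) + 1) / 2)) := by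
          field_simp
          norm_num
        rw [this, Real.rpow_add_of_nonneg hI0 (by positivity) (by positivity)]
        ring
      exact ⟨hh f g, (hh g f).trans (le_of_eq (by ring))⟩
  obtain ⟨C, hC, hmain⟩ := main
  have hd' : (1 : ℝ) ≤ d := by exact_mod_cast hd
  obtain ⟨C', hC', hH⟩ := fb_holder (d := d) (((d : ℝ) + 1) / 2) p (by linarith) hp
  refine ⟨C * C', by positivity, fun v x₀ hv hs f => ?_⟩
  rw [fb_int v hv]
  have hI0 : 0 ≤ ∫ x : EE d, ‖v x‖ ^ (((d : ℝ) + 1) / 2) := integral_nonneg fun x => by positivity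
  refine (fb_key _ (fb_wt v hv) _ (by positivity) (hmain v hv) f).trans ?_
  have := hH v x₀ hv hs
  calc C * (∫ x, ‖v x‖ ^ (((d : ℝ) + 1) / 2)) ^ (1 / (((d : ℝ) + 1) / 2)) * ‖f‖ ^ 2
      ≤ C * (C' * (∫ x, ‖v x‖ ^ p) ^ (1 / p)) * ‖f‖ ^ 2 := by gcongr
    _ = _ := by ring

end

end KRS
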