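import Pool.Agent.H631.KR.Defs
import Pool.Agent.H631.KR.B24

open MeasureTheory Filter Topology ENNReal Complex
open scoped Laplacian FourierTransform InnerProductSpace

namespace KRS

noncomputable section

/-! TARGET: prove the following -/

theorem om_gr (f g h : ℝ → ℝ) (X K η : ℝ) (hK : 1 ≤ K) (hη : 0 ≤ η) (h0 : f 0 = 0) (h1 : g 0 = 0)
    (hf : ∀ x, 0 ≤ x → x ≤ X → HasDerivAt f (g x) x) (hg : ∀ x, 0 ≤ x → x ≤ X → HasDerivAt g (h x) x)
    (hb : ∀ x, 0 ≤ x → x ≤ X → |h x| ≤ K * max |f x| |g x| + η) :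
    ∀ x, 0 ≤ x → x ≤ X → |f x| ≤ η * Real.exp (K * x) ∧ |g x| ≤ η * Real.exp (K * x) := by
  have hc : ContinuousOn (fun x => (f x, g x)) (Set.Icc 0 X) := fun x hx =>
    ((hf x hx.1 hx.2).continuousAt.prodMk (hg x hx.1 hx.2).continuousAt).continuousWithinAt
  have hd : ∀ x ∈ Set.Ico 0 X, HasDerivWithinAt (fun x => (f x, g x)) (g x, h x) (Set.Ici x) x :=
    fun x hx => ((hf x hx.1 hx.2.le).prodMk (hg x hx.1 hx.2.le)).hasDerivWithinAt
  have h3 := norm_le_gronwallBound_of_norm_deriv_right_le (δ := 0) (K := K) (ε := η) hc hd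
    (by rw [h0, h1]; simp) (by
      intro x hx
      have h4 := hb x hx.1 hx.2.le
      rw [Prod.norm_def, Prod.norm_def]
      simp only [Real.norm_eq_abs]
      refine max_le ?_ h4
      have h5 : |g x| ≤ max |f x| |g x| := le_max_right _ _
      have h6 : 0 ≤ max |f x| |g x| := le_trans (abs_nonneg _) h5
      nlinarith)
  intro x hx0 hxX
  have h7 := h3 x ⟨hx0, hxX⟩
  have h8 : gronwallBound 0 K η (x - 0) ≤ η * Real.exp (K * x) := by
    rw [gronwallBound_of_K_ne_0 (by linarith : K ≠ 0), sub_zero]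
    have h9 : η / K ≤ η := div_le_self hη hK
    have h10 : 0 ≤ η / K := by positivity
    have h11 : 1 ≤ Real.exp (K * x) := Real.one_le_exp (by positivity)
    nlinarith
  have h12 := h7.trans h8
  rw [Prod.norm_def] at h12
  simp only [Real.norm_eq_abs] at h12
  exact ⟨(le_max_left _ _).trans h12, (le_max_right _ _).trans h12⟩

/-- the periodic potential -/
def omp (x : ℝ) : ℝ := -(Real.sin (2 * x) * Real.smoothTransition (4 * Real.sin x ^ 2 - 1))

def omv (x : ℝ) : ℝ := omp x * (2 * Real.smoothTransition (x + 1 / 2) - 1)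

theorem omp_smooth : ContDiff ℝ (⊤ : ℕ∞) omp := by
  unfold omp
  have h1 : ContDiff ℝ (⊤ : ℕ∞) (fun x : ℝ => Real.smoothTransition (4 * Real.sin x ^ 2 - 1)) :=
    Real.smoothTransition.contDiff.comp (by fun_prop)
  have h2 : ContDiff ℝ (⊤ : ℕ∞) (fun x : ℝ => Real.sin (2 * x)) := by fun_prop
  exact (h2.mul h1).neg

theorem omv_smooth : ContDiff ℝ (⊤ : ℕ∞) omv := by
  unfold omv
  have h1 : ContDiff ℝ (⊤ : ℕ∞) (fun x : ℝ => Real.smoothTransition (x + 1 / 2)) :=
    Real.smoothTransition.contDiff.comp (by fun_prop)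
  exact omp_smooth.mul ((contDiff_const.mul h1).sub contDiff_const)

theorem omp_small (x : ℝ) (hx : |x| ≤ 1 / 2) : omp x = 0 := by
  unfold omp
  have h1 : |Real.sin x| ≤ 1 / 2 := by
    refine le_trans ?_ hx
    exact Real.abs_sin_le_abs (x := x)
  have h2 : Real.sin x ^ 2 ≤ 1 / 4 := by
    rw [← sq_abs]
    nlinarith [abs_nonneg (Real.sin x)]
  rw [Real.smoothTransition.zero_of_nonpos (by linarith)]
  simp

theorem omp_odd (x : ℝ) : omp (-x) = -omp x := by
  unfold omp
  rw [Real.sin_neg, mul_neg, Real.sin_neg]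
  simp

theorem omp_per (x : ℝ) : omp (x + Real.pi) = omp x := by
  unfold omp
  have h1 : 2 * (x + Real.pi) = 2 * x + 2 * Real.pi := by ring
  rw [h1, Real.sin_add_two_pi, Real.sin_add_pi]
  simp

theorem omp_le (x : ℝ) : |omp x| ≤ 1 := by
  unfold omp
  rw [abs_neg, abs_mul, abs_of_nonneg (Real.smoothTransition.nonneg _)]
  have h1 := Real.abs_sin_le_one (2 * x)
  have h2 := Real.smoothTransition.le_one (4 * Real.sin x ^ 2 - 1)
  have h3 := Real.smoothTransition.nonneg (4 * Real.sin x ^ 2 - 1)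
  nlinarith [abs_nonneg (Real.sin (2 * x))]

theorem omv_eq (x : ℝ) (hx : 0 ≤ x) : omv x = omp x := by
  unfold omv
  by_cases h : x ≤ 1 / 2
  · rw [omp_small x (by rw [abs_of_nonneg hx]; exact h)]; ring
  · push Not at h
    rw [Real.smoothTransition.one_of_one_le (by linarith)]; ring

theorem omv_even (x : ℝ) (hx : 0 ≤ x) : omv (-x) = omv x := by
  rw [omv_eq x hx]
  unfold omv
  by_cases h : x ≤ 1 / 2
  · rw [omp_small (-x) (by rw [abs_neg, abs_of_nonneg hx]; exact h),
      omp_small x (by rw [abs_of_nonneg hx]; exact h)]; ring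
  · push Not at h
    rw [Real.smoothTransition.zero_of_nonpos (by linarith), omp_odd]; ring

theorem omv_le (x : ℝ) : |omv x| ≤ 1 := by
  rcases le_total 0 x with h | h
  · rw [omv_eq x h]; exact omp_le x
  · have h1 := omv_even (-x) (by linarith)
    rw [neg_neg] at h1
    rw [h1, omv_eq (-x) (by linarith)]
    exact omp_le _

theorem omv_per (x : ℝ) (hx : 0 ≤ x) : omv (x + Real.pi) = omv x := by
  have := Real.pi_pos
  rw [omv_eq x hx, omv_eq (x + Real.pi) (by linarith), omp_per]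

/-- the crucial coefficient -/
def omb : ℝ := -∫ x in (0 : ℝ)..Real.pi, omv x * Real.sin (2 * x)

theorem omb_pos : 0 < omb := by
  unfold omb
  have hπ := Real.pi_pos
  rw [← intervalIntegral.integral_neg]
  have h1 : ∀ x ∈ Set.Icc (0 : ℝ) Real.pi, 0 ≤ -(omv x * Real.sin (2 * x)) := by
    intro x hx
    rw [omv_eq x hx.1]
    unfold omp
    have h3 := Real.smoothTransition.nonneg (4 * Real.sin x ^ 2 - 1)
    have h4 : -(-(Real.sin (2 * x) * Real.smoothTransition (4 * Real.sin x ^ 2 - 1)) * Real.sin (2 * x)) =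
      Real.sin (2 * x) ^ 2 * Real.smoothTransition (4 * Real.sin x ^ 2 - 1) := by ring
    rw [h4]
    positivity
  have hcont : Continuous (fun x => -(omv x * Real.sin (2 * x))) := by
    have := omv_smooth.continuous
    fun_prop
  refine intervalIntegral.integral_pos hπ hcont.continuousOn (fun x hx => h1 x ⟨hx.1.le, hx.2⟩) ?_
  refine ⟨Real.pi / 3, ⟨by positivity, by linarith⟩, ?_⟩
  rw [omv_eq _ (by positivity)]
  unfold omp
  have e1 : Real.sin (2 * (Real.pi / 3)) = √3 / 2 := by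
    have : 2 * (Real.pi / 3) = Real.pi - Real.pi / 3 := by ring
    rw [this, Real.sin_pi_sub, Real.sin_pi_div_three]
  have h3 : (√3 : ℝ) ^ 2 = 3 := Real.sq_sqrt (by norm_num)
  rw [e1, Real.sin_pi_div_three]
  have e2 : 4 * (√3 / 2) ^ 2 - 1 = 2 := by
    rw [div_pow, h3]; norm_num
  rw [e2, Real.smoothTransition.one_of_one_le (by norm_num)]
  have h5 : 0 < √3 := Real.sqrt_pos.2 (by norm_num)
  nlinarith

/-- a solution with its derivative -/
structure OS (q u u1 : ℝ → ℝ) : Prop where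
  d0 : ∀ x, HasDerivAt u (u1 x) x
  d1 : ∀ x, HasDerivAt u1 (q x * u x) x
  z0 : u 0 = 0
  z1 : u1 0 = 1

theorem os_approx {q u u1 : ℝ → ℝ} (h : OS q u u1) (δ : ℝ) (hδ : 0 ≤ δ) (hδ1 : δ ≤ 1)
    (hq : ∀ x, 0 ≤ x → x ≤ Real.pi → |q x + 1| ≤ δ) :
    ∀ x, 0 ≤ x → x ≤ Real.pi → |u x - Real.sin x| ≤ δ * Real.exp (2 * Real.pi) ∧
      |u1 x - Real.cos x| ≤ δ * Real.exp (2 * Real.pi) := by
  have h1 := om_gr (fun x => u x - Real.sin x) (fun x => u1 x - Real.cos x)
    (fun x => q x * u x - -Real.sin x) Real.pi 2 δ (by norm_num) hδ (by simp [h.z0]) (by simp [h.z1])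
    (fun x _ _ => (h.d0 x).sub (Real.hasDerivAt_sin x))
    (fun x _ _ => (h.d1 x).sub (Real.hasDerivAt_cos x)) (by
      intro x hx0 hx1
      have h2 := hq x hx0 hx1
      have e : q x * u x - -Real.sin x = (q x + 1) * (u x - Real.sin x) + (q x + 1) * Real.sin x
        - (u x - Real.sin x) := by ring
      rw [e]
      have h3 : |u x - Real.sin x| ≤ max |u x - Real.sin x| |u1 x - Real.cos x| := le_max_left _ _
      have h4 := abs_nonneg (u x - Real.sin x)
      have h5 : |(q x + 1) * (u x - Real.sin x)| ≤ 1 * |u x - Real.sin x| := by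
        rw [abs_mul]
        exact mul_le_mul_of_nonneg_right (h2.trans hδ1) h4
      have h6 : |(q x + 1) * Real.sin x| ≤ δ * 1 := by
        rw [abs_mul]
        exact mul_le_mul h2 (Real.abs_sin_le_one x) (abs_nonneg _) hδ
      have h7 := abs_sub ((q x + 1) * (u x - Real.sin x) + (q x + 1) * Real.sin x) (u x - Real.sin x)
      have h8 := abs_add_le ((q x + 1) * (u x - Real.sin x)) ((q x + 1) * Real.sin x)
      linarith)
  intro x hx0 hx1
  obtain ⟨a, b⟩ := h1 x hx0 hx1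
  have h9 : δ * Real.exp (2 * x) ≤ δ * Real.exp (2 * Real.pi) :=
    mul_le_mul_of_nonneg_left (Real.exp_le_exp.2 (by linarith)) hδ
  exact ⟨a.trans h9, b.trans h9⟩

theorem os_exists (q : ℝ → ℝ) (hq : ContDiff ℝ (⊤ : ℕ∞) q) :
    ∃ u : ℝ → ℝ, ContDiff ℝ (⊤ : ℕ∞) u ∧ OS q u (deriv u) := by
  obtain ⟨u, h1, h2, h3, h4⟩ := lin_ode q hq
  refine ⟨u, h1, ⟨fun x => ?_, fun x => ?_, h3, h4⟩⟩
  · exact ((h1.differentiable (by simp)) x).hasDerivAt
  · have h5 : ContDiff ℝ (⊤ : ℕ∞) (deriv u) := (contDiff_infty_iff_deriv.1 h1).2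
    have h6 := ((h5.differentiable (by simp)) x).hasDerivAt
    rw [h2] at h6
    exact h6

theorem os_lip {v u u1 u' u1' : ℝ → ℝ} {ε E E' B : ℝ} (h : OS (fun x => ε * v x - E) u u1)
    (h' : OS (fun x => ε * v x - E') u' u1') (hB : ∀ x, 0 ≤ x → x ≤ Real.pi → |u' x| ≤ B)
    (hB0 : 0 ≤ B) (hq : ∀ x, |ε * v x - E| ≤ 3) :
    |u Real.pi - u' Real.pi| ≤ |E - E'| * (B * Real.exp (3 * Real.pi)) := by
  have h1 := om_gr (fun x => u x - u' x) (fun x => u1 x - u1' x)
    (fun x => (ε * v x - E) * u x - (ε * v x - E') * u' x) Real.pi 3 (|E - E'| * B) (by norm_num)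
    (by positivity) (by simp [h.z0, h'.z0]) (by simp [h.z1, h'.z1])
    (fun x _ _ => (h.d0 x).sub (h'.d0 x)) (fun x _ _ => (h.d1 x).sub (h'.d1 x)) (by
      intro x hx0 hx1
      have e : (ε * v x - E) * u x - (ε * v x - E') * u' x =
        (ε * v x - E) * (u x - u' x) - (E - E') * u' x := by ring
      rw [e]
      have h3 : |u x - u' x| ≤ max |u x - u' x| |u1 x - u1' x| := le_max_left _ _
      have h4 : |(ε * v x - E) * (u x - u' x)| ≤ 3 * |u x - u' x| := by
        rw [abs_mul]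
        exact mul_le_mul_of_nonneg_right (hq x) (abs_nonneg _)
      have h5 : |(E - E') * u' x| ≤ |E - E'| * B := by
        rw [abs_mul]
        exact mul_le_mul_of_nonneg_left (hB x hx0 hx1) (abs_nonneg _)
      have h6 := abs_sub ((ε * v x - E) * (u x - u' x)) ((E - E') * u' x)
      linarith)
  have h2 := (h1 Real.pi Real.pi_pos.le le_rfl).1
  have e : |E - E'| * B * Real.exp (3 * Real.pi) = |E - E'| * (B * Real.exp (3 * Real.pi)) := by ring
  rw [← e]
  exact h2

theorem os_int {q u u1 : ℝ → ℝ} (h : OS q u u1) (hq : Continuous q) :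
    u Real.pi = ∫ x in (0 : ℝ)..Real.pi, (q x + 1) * u x * Real.sin x := by
  have hu : Continuous u := continuous_iff_continuousAt.2 fun x => (h.d0 x).continuousAt
  have h1 : ∀ x ∈ Set.uIcc (0 : ℝ) Real.pi,
      HasDerivAt (fun x => u1 x * Real.sin x - u x * Real.cos x) ((q x + 1) * u x * Real.sin x) x := by
    intro x _
    have := ((h.d1 x).mul (Real.hasDerivAt_sin x)).sub ((h.d0 x).mul (Real.hasDerivAt_cos x))
    refine this.congr_deriv ?_
    ring
  have h2 := intervalIntegral.integral_eq_sub_of_hasDerivAt h1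
    (Continuous.intervalIntegrable (by fun_prop) _ _)
  rw [h2]
  simp [h.z0]

theorem os_mu {v u u1 : ℝ → ℝ} {ε E : ℝ} (h : OS (fun x => ε * v x - E) u u1) (hv : Continuous v)
    (hu0 : u Real.pi = 0) :
    u1 Real.pi ^ 2 - 1 = ε * ∫ x in (0 : ℝ)..Real.pi, v x * (2 * (u x * u1 x)) := by
  have hu : Continuous u := continuous_iff_continuousAt.2 fun x => (h.d0 x).continuousAt
  have hu1 : Continuous u1 := continuous_iff_continuousAt.2 fun x => (h.d1 x).continuousAt
  have h1 : ∀ x ∈ Set.uIcc (0 : ℝ) Real.pi,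
      HasDerivAt (fun x => u1 x ^ 2 + E * u x ^ 2) (ε * (v x * (2 * (u x * u1 x)))) x := by
    intro x _
    have := ((h.d1 x).pow 2).add (((h.d0 x).pow 2).const_mul E)
    refine this.congr_deriv ?_
    push_cast
    ring
  have h2 := intervalIntegral.integral_eq_sub_of_hasDerivAt h1
    (Continuous.intervalIntegrable (by fun_prop) _ _)
  rw [intervalIntegral.integral_const_mul] at h2
  rw [h2, h.z0, h.z1, hu0]
  ring

theorem os_uniq {q f g : ℝ → ℝ} (hf : ∀ x, 0 ≤ x → HasDerivAt f (g x) x)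
    (hg : ∀ x, 0 ≤ x → HasDerivAt g (q x * f x) x) (h0 : f 0 = 0) (h1 : g 0 = 0)
    (hq : ∀ x, 0 ≤ x → |q x| ≤ 3) : ∀ x, 0 ≤ x → f x = 0 ∧ g x = 0 := by
  intro x hx
  have h2 := om_gr f g (fun x => q x * f x) x 3 0 (by norm_num) le_rfl h0 h1
    (fun y hy _ => hf y hy) (fun y hy _ => hg y hy) (by
      intro y hy _
      have h3 : |f y| ≤ max |f y| |g y| := le_max_left _ _
      rw [abs_mul, add_zero]
      have := hq y hy
      nlinarith [abs_nonneg (f y), abs_nonneg (q y)]) x hx le_rfl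
  rw [zero_mul] at h2
  exact ⟨abs_nonpos_iff.1 h2.1, abs_nonpos_iff.1 h2.2⟩

theorem os_mode (ε : ℝ) (hε : 0 < ε) (hε1 : 40 * Real.exp (2 * Real.pi) * ε ≤ 1)
    (hε2 : 30 * Real.pi * Real.exp (2 * Real.pi) * ε ≤ omb) :
    ∃ (E : ℝ) (u : ℝ → ℝ), 4 / 5 ≤ E ∧ E ≤ 6 / 5 ∧ ContDiff ℝ (⊤ : ℕ∞) u ∧
      OS (fun x => ε * omv x - E) u (deriv u) ∧ u Real.pi = 0 ∧
      (deriv u Real.pi) ^ 2 ≤ 1 - ε * omb / 2 ∧
      ∀ x, 0 ≤ x → x ≤ Real.pi → |u x - Real.sin x| ≤ 3 * ε * Real.exp (2 * Real.pi) ∧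
        |deriv u x - Real.cos x| ≤ 3 * ε * Real.exp (2 * Real.pi) := by
  have hπ := Real.pi_pos
  set C1 := Real.exp (2 * Real.pi) with hC1
  have hC1' : 1 ≤ C1 := Real.one_le_exp (by positivity)
  have hε3 : 40 * ε ≤ 1 := by nlinarith
  have hvc : Continuous omv := omv_smooth.continuous
  have hsm : ∀ E : ℝ, ContDiff ℝ (⊤ : ℕ∞) (fun x => ε * omv x - E) := fun E =>
    (contDiff_const.mul omv_smooth).sub contDiff_const
  choose U hU1 hU2 using fun E : ℝ => os_exists (fun x => ε * omv x - E) (hsm E)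
  have hv1 : ∀ x, -1 ≤ omv x ∧ omv x ≤ 1 := fun x => abs_le.1 (omv_le x)
  have hr : ∀ E ∈ Set.Icc (1 - 2 * ε) (1 + 2 * ε), ∀ x, |ε * omv x - E + 1| ≤ 3 * ε := by
    intro E hE x
    rw [abs_le]
    have := hv1 x
    constructor
    · nlinarith [hE.1, hE.2]
    · nlinarith [hE.1, hE.2]
  have happ : ∀ E ∈ Set.Icc (1 - 2 * ε) (1 + 2 * ε), ∀ x, 0 ≤ x → x ≤ Real.pi →
      |U E x - Real.sin x| ≤ 3 * ε * C1 ∧ |deriv (U E) x - Real.cos x| ≤ 3 * ε * C1 := by
    intro E hE
    exact os_approx (hU2 E) (3 * ε) (by positivity) (by linarith) (fun x _ _ => hr E hE x)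
  have hd8 : 3 * ε * C1 ≤ 1 / 8 := by nlinarith
  have hint : ∀ a b : ℝ, ∫ x in (0 : ℝ)..Real.pi, (a * Real.sin x ^ 2 + b) = a * (Real.pi / 2) + b * Real.pi := by
    intro a b
    rw [intervalIntegral.integral_add (Continuous.intervalIntegrable (by fun_prop) _ _)
      (Continuous.intervalIntegrable (by fun_prop) _ _), intervalIntegral.integral_const_mul,
      integral_sin_sq, intervalIntegral.integral_const]
    simp
    ring
  have hneg : U (1 + 2 * ε) Real.pi < 0 := by
    have hE : 1 + 2 * ε ∈ Set.Icc (1 - 2 * ε) (1 + 2 * ε) := ⟨by linarith, le_rfl⟩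
    rw [os_int (hU2 _) (hsm _).continuous]
    have hUc : Continuous (U (1 + 2 * ε)) := (hU1 _).continuous
    have h1 : ∫ x in (0 : ℝ)..Real.pi, (ε * omv x - (1 + 2 * ε) + 1) * U (1 + 2 * ε) x * Real.sin x
        ≤ ∫ x in (0 : ℝ)..Real.pi, (-ε * Real.sin x ^ 2 + 9 * ε ^ 2 * C1) := by
      refine intervalIntegral.integral_mono_on hπ.le (Continuous.intervalIntegrable (by fun_prop) _ _)
        (Continuous.intervalIntegrable (by fun_prop) _ _) ?_
      intro x hx
      obtain ⟨h2, -⟩ := happ _ hE x hx.1 hx.2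
      have h3 := hr _ hE x
      have hs1 := Real.abs_sin_le_one x
      have e : (ε * omv x - (1 + 2 * ε) + 1) * U (1 + 2 * ε) x * Real.sin x =
        (ε * omv x - (1 + 2 * ε) + 1) * Real.sin x ^ 2 +
        (ε * omv x - (1 + 2 * ε) + 1) * (U (1 + 2 * ε) x - Real.sin x) * Real.sin x := by ring
      rw [e]
      have h4 : (ε * omv x - (1 + 2 * ε) + 1) * Real.sin x ^ 2 ≤ -ε * Real.sin x ^ 2 := by
        have := (hv1 x).2
        refine mul_le_mul_of_nonneg_right ?_ (sq_nonneg _)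
        nlinarith
      have h5 : (ε * omv x - (1 + 2 * ε) + 1) * (U (1 + 2 * ε) x - Real.sin x) * Real.sin x
          ≤ (3 * ε) * (3 * ε * C1) * 1 := by
        refine (le_abs_self _).trans ?_
        rw [abs_mul, abs_mul]
        exact mul_le_mul (mul_le_mul h3 h2 (abs_nonneg _) (by positivity)) hs1 (abs_nonneg _) (by positivity)
      nlinarith
    refine lt_of_le_of_lt h1 ?_
    rw [hint]
    have : 9 * ε ^ 2 * C1 * Real.pi < ε * (Real.pi / 2) := by
      have h6 : 0 < ε * Real.pi := by positivity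
      nlinarith
    linarith
  have hpos : 0 < U (1 - 2 * ε) Real.pi := by
    have hE : 1 - 2 * ε ∈ Set.Icc (1 - 2 * ε) (1 + 2 * ε) := ⟨le_rfl, by linarith⟩
    rw [os_int (hU2 _) (hsm _).continuous]
    have hUc : Continuous (U (1 - 2 * ε)) := (hU1 _).continuous
    have h1 : ∫ x in (0 : ℝ)..Real.pi, (ε * Real.sin x ^ 2 + -(9 * ε ^ 2 * C1)) ≤
        ∫ x in (0 : ℝ)..Real.pi, (ε * omv x - (1 - 2 * ε) + 1) * U (1 - 2 * ε) x * Real.sin x := by
      refine intervalIntegral.integral_mono_on hπ.le (Continuous.intervalIntegrable (by fun_prop) _ _)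
        (Continuous.intervalIntegrable (by fun_prop) _ _) ?_
      intro x hx
      obtain ⟨h2, -⟩ := happ _ hE x hx.1 hx.2
      have h3 := hr _ hE x
      have hs1 := Real.abs_sin_le_one x
      have e : (ε * omv x - (1 - 2 * ε) + 1) * U (1 - 2 * ε) x * Real.sin x =
        (ε * omv x - (1 - 2 * ε) + 1) * Real.sin x ^ 2 +
        (ε * omv x - (1 - 2 * ε) + 1) * (U (1 - 2 * ε) x - Real.sin x) * Real.sin x := by ring
      rw [e]
      have h4 : ε * Real.sin x ^ 2 ≤ (ε * omv x - (1 - 2 * ε) + 1) * Real.sin x ^ 2 := by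
        have := (hv1 x).1
        refine mul_le_mul_of_nonneg_right ?_ (sq_nonneg _)
        nlinarith
      have h5 : -((3 * ε) * (3 * ε * C1) * 1) ≤
          (ε * omv x - (1 - 2 * ε) + 1) * (U (1 - 2 * ε) x - Real.sin x) * Real.sin x := by
        refine le_trans (neg_le_neg ?_) (neg_abs_le _)
        rw [abs_mul, abs_mul]
        exact mul_le_mul (mul_le_mul h3 h2 (abs_nonneg _) (by positivity)) hs1 (abs_nonneg _) (by positivity)
      nlinarith
    refine lt_of_lt_of_le ?_ h1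
    rw [hint]
    have : 9 * ε ^ 2 * C1 * Real.pi < ε * (Real.pi / 2) := by
      have h6 : 0 < ε * Real.pi := by positivity
      nlinarith
    linarith
  have hcont : ContinuousOn (fun E => U E Real.pi) (Set.Icc (1 - 2 * ε) (1 + 2 * ε)) := by
    have hL : ∀ E ∈ Set.Icc (1 - 2 * ε) (1 + 2 * ε), ∀ E' ∈ Set.Icc (1 - 2 * ε) (1 + 2 * ε),
        |U E Real.pi - U E' Real.pi| ≤ |E - E'| * (2 * Real.exp (3 * Real.pi)) := by
      intro E hE E' hE'
      refine os_lip (hU2 E) (hU2 E') ?_ (by norm_num) ?_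
      · intro x hx0 hx1
        have h2 := (happ E' hE' x hx0 hx1).1
        have h3 := Real.abs_sin_le_one x
        have h4 : U E' x = (U E' x - Real.sin x) + Real.sin x := by ring
        rw [h4]
        have h5 := abs_add_le (U E' x - Real.sin x) (Real.sin x)
        linarith
      · intro x
        have h2 := hr E hE x
        rw [abs_le] at h2 ⊢
        constructor <;> linarith [h2.1, h2.2]
    have hLip : LipschitzOnWith (Real.toNNReal (2 * Real.exp (3 * Real.pi))) (fun E => U E Real.pi)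
        (Set.Icc (1 - 2 * ε) (1 + 2 * ε)) := by
      refine LipschitzOnWith.of_dist_le_mul ?_
      intro E hE E' hE'
      rw [Real.dist_eq, Real.dist_eq, Real.coe_toNNReal _ (by positivity), mul_comm]
      exact hL E hE E' hE'
    exact hLip.continuousOn
  obtain ⟨E, hE, hE0⟩ := intermediate_value_Icc' (by linarith : 1 - 2 * ε ≤ 1 + 2 * ε) hcont
    ⟨hneg.le, hpos.le⟩
  refine ⟨E, U E, by linarith [hE.1], by linarith [hE.2], hU1 E, hU2 E, hE0, ?_, happ E hE⟩
  have h1 := os_mu (hU2 E) hvc hE0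
  have hUc : Continuous (U E) := (hU1 _).continuous
  have hUc1 : Continuous (deriv (U E)) :=
    continuous_iff_continuousAt.2 fun x => ((hU2 E).d1 x).continuousAt
  have h2 : ∫ x in (0 : ℝ)..Real.pi, omv x * (2 * (U E x * deriv (U E) x)) ≤
      ∫ x in (0 : ℝ)..Real.pi, (omv x * Real.sin (2 * x) + 15 * ε * C1) := by
    refine intervalIntegral.integral_mono_on hπ.le (Continuous.intervalIntegrable (by fun_prop) _ _)
      (Continuous.intervalIntegrable (by fun_prop) _ _) ?_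
    intro x hx
    obtain ⟨h3, h4⟩ := happ E hE x hx.1 hx.2
    have hs1 := Real.abs_sin_le_one x
    have hc1 := Real.abs_cos_le_one x
    set w := U E x - Real.sin x with hw
    set w1 := deriv (U E) x - Real.cos x with hw1
    have eu : U E x = Real.sin x + w := by rw [hw]; ring
    have eu1 : deriv (U E) x = Real.cos x + w1 := by rw [hw1]; ring
    rw [eu, eu1, Real.sin_two_mul]
    have h5 : |w * Real.cos x| ≤ 3 * ε * C1 := by
      rw [abs_mul]; nlinarith [abs_nonneg w]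
    have h6 : |w1 * Real.sin x| ≤ 3 * ε * C1 := by
      rw [abs_mul]; nlinarith [abs_nonneg w1]
    have h7 : |w * w1| ≤ 3 * ε * C1 * (1 / 8) := by
      rw [abs_mul]
      exact mul_le_mul h3 (h4.trans hd8) (abs_nonneg _) (by positivity)
    have h8 : |w * Real.cos x + w1 * Real.sin x + w * w1| ≤ 15 / 2 * ε * C1 := by
      have a1 := abs_add_le (w * Real.cos x + w1 * Real.sin x) (w * w1)
      have a2 := abs_add_le (w * Real.cos x) (w1 * Real.sin x)
      have : 0 ≤ ε * C1 := by positivity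
      linarith
    have h9 : omv x * (w * Real.cos x + w1 * Real.sin x + w * w1) ≤ 15 / 2 * ε * C1 := by
      refine (le_abs_self _).trans ?_
      rw [abs_mul]
      have := mul_le_mul (omv_le x) h8 (abs_nonneg _) zero_le_one
      linarith
    nlinarith
  have hi2 : ∫ x in (0 : ℝ)..Real.pi, (omv x * Real.sin (2 * x) + 15 * ε * C1) = -omb + 15 * ε * C1 * Real.pi := by
    rw [intervalIntegral.integral_add (Continuous.intervalIntegrable (by fun_prop) _ _)
      (Continuous.intervalIntegrable (by fun_prop) _ _), intervalIntegral.integral_const]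
    simp only [omb, neg_neg, sub_zero, smul_eq_mul]
    ring
  rw [hi2] at h2
  have h10 := mul_le_mul_of_nonneg_left h2 hε.le
  rw [← h1] at h10
  nlinarith

theorem os_decay {u u1 : ℝ → ℝ} {ε E : ℝ} (hε : 0 < ε) (hε1 : ε ≤ 1)
    (h : OS (fun x => ε * omv x - E) u u1) (hu0 : u Real.pi = 0)
    (hμ : u1 Real.pi ^ 2 ≤ 1 - ε * omb / 2) (hq : ∀ x, |ε * omv x - E| ≤ 3)
    (hb : ∀ x, 0 ≤ x → x ≤ Real.pi → |u x| ≤ 2 ∧ |u1 x| ≤ 2) :
    ∀ x, |u x| ≤ 2 * Real.exp omb * Real.exp (-(omb / (4 * Real.pi) * ε * |x|)) ∧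
      |u1 x| ≤ 2 * Real.exp omb * Real.exp (-(omb / (4 * Real.pi) * ε * |x|)) := by
  have hπ := Real.pi_pos
  have hβ := omb_pos
  set μ := u1 Real.pi with hμd
  have hshift : ∀ x, 0 ≤ x → u (x + Real.pi) - μ * u x = 0 ∧ u1 (x + Real.pi) - μ * u1 x = 0 := by
    refine os_uniq (q := fun x => ε * omv x - E) ?_ ?_ ?_ ?_ (fun x _ => hq x)
    · intro x _
      exact (HasDerivAt.comp_add_const x Real.pi (h.d0 (x + Real.pi))).sub ((h.d0 x).const_mul μ)
    · intro x hx
      refine ((HasDerivAt.comp_add_const x Real.pi (h.d1 (x + Real.pi))).sub ((h.d1 x).const_mul μ)).congr_deriv ?_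
      rw [omv_per x hx]
      ring
    · rw [zero_add, hu0, h.z0]; ring
    · rw [zero_add, h.z1]; ring
  have hn : ∀ n : ℕ, ∀ x, 0 ≤ x → u (x + n * Real.pi) = μ ^ n * u x ∧ u1 (x + n * Real.pi) = μ ^ n * u1 x := by
    intro n
    induction n with
    | zero => intro x _; simp
    | succ n ih =>
      intro x hx
      obtain ⟨a1, a2⟩ := ih x hx
      obtain ⟨b1, b2⟩ := hshift (x + n * Real.pi) (by positivity)
      have e : x + ((n + 1 : ℕ) : ℝ) * Real.pi = x + n * Real.pi + Real.pi := by push_cast; ring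
      rw [e]
      constructor
      · rw [sub_eq_zero] at b1
        rw [b1, a1]; ring
      · rw [sub_eq_zero] at b2
        rw [b2, a2]; ring
  have hμ1 : |μ| ≤ Real.exp (-(ε * omb / 4)) := by
    refine abs_le_of_sq_le_sq ?_ (Real.exp_pos _).le
    rw [← Real.exp_nat_mul]
    refine hμ.trans ?_
    have h2 := Real.add_one_le_exp (((2 : ℕ) : ℝ) * -(ε * omb / 4))
    push_cast at h2 ⊢
    linarith
  have hdec : ∀ x, 0 ≤ x → |u x| ≤ 2 * Real.exp omb * Real.exp (-(omb / (4 * Real.pi) * ε * x)) ∧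
      |u1 x| ≤ 2 * Real.exp omb * Real.exp (-(omb / (4 * Real.pi) * ε * x)) := by
    intro x hx
    set n := ⌊x / Real.pi⌋₊ with hnd
    have h3 : (n : ℝ) ≤ x / Real.pi := Nat.floor_le (by positivity)
    have h4 : x / Real.pi < n + 1 := Nat.lt_floor_add_one _
    have h5 : (n : ℝ) * Real.pi ≤ x := by rwa [le_div_iff₀ hπ] at h3
    have h6 : x < (n + 1) * Real.pi := by rwa [div_lt_iff₀ hπ] at h4
    obtain ⟨a1, a2⟩ := hn n (x - n * Real.pi) (by linarith)
    have e : x - n * Real.pi + n * Real.pi = x := by ring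
    rw [e] at a1 a2
    obtain ⟨b1, b2⟩ := hb (x - n * Real.pi) (by linarith) (by linarith)
    have h7 : |μ ^ n| ≤ Real.exp omb * Real.exp (-(omb / (4 * Real.pi) * ε * x)) := by
      rw [abs_pow]
      refine (pow_le_pow_left₀ (abs_nonneg _) hμ1 n).trans ?_
      rw [← Real.exp_nat_mul, ← Real.exp_add]
      apply Real.exp_le_exp.2
      have h8 : ε * omb / 4 * (x / Real.pi - 1) ≤ ε * omb / 4 * n := by
        apply mul_le_mul_of_nonneg_left (by linarith) (by positivity)
      have h9 : ε * omb / 4 * (x / Real.pi) = omb / (4 * Real.pi) * ε * x := by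
        field_simp
      have h10 : ε * omb ≤ omb := by nlinarith
      nlinarith
    have h11 : 0 ≤ Real.exp omb * Real.exp (-(omb / (4 * Real.pi) * ε * x)) := by positivity
    constructor
    · rw [a1, abs_mul]
      have := mul_le_mul h7 b1 (abs_nonneg _) h11
      linarith
    · rw [a2, abs_mul]
      have := mul_le_mul h7 b2 (abs_nonneg _) h11
      linarith
  have hodd : ∀ x, 0 ≤ x → u (-x) + u x = 0 ∧ -u1 (-x) + u1 x = 0 := by
    refine os_uniq (q := fun x => ε * omv x - E) ?_ ?_ ?_ ?_ (fun x _ => hq x)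
    · intro x _
      have h1 : HasDerivAt (fun x => u (-x)) (u1 (-x) * -1) x := (h.d0 (-x)).comp x (hasDerivAt_neg x)
      refine (h1.add (h.d0 x)).congr_deriv ?_
      ring
    · intro x hx
      have h1 : HasDerivAt (fun x => u1 (-x)) ((ε * omv (-x) - E) * u (-x) * -1) x :=
        (h.d1 (-x)).comp x (hasDerivAt_neg x)
      refine (h1.neg.add (h.d1 x)).congr_deriv ?_
      rw [omv_even x hx]
      ring
    · rw [neg_zero, h.z0]; ring
    · rw [neg_zero]; ring
  intro x
  rcases le_total 0 x with hx | hx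
  · rw [abs_of_nonneg hx]; exact hdec x hx
  · obtain ⟨a1, a2⟩ := hodd (-x) (by linarith)
    rw [neg_neg] at a1 a2
    obtain ⟨b1, b2⟩ := hdec (-x) (by linarith)
    have e1 : u x = -u (-x) := by linarith
    have e2 : u1 x = u1 (-x) := by linarith
    have e3 : |x| = -x := abs_of_nonpos hx
    rw [e3, e2, e1, abs_neg]
    exact ⟨b1, b2⟩

theorem om_sin (x : ℝ) (h1 : 1 ≤ x) (h2 : x ≤ 2) : 3 / 4 ≤ Real.sin x := by
  have hs1 : (3 : ℝ) / 4 < Real.sin 1 := by
    have := Real.sin_gt_sub_cube (x := 1) one_pos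
    norm_num at this ⊢
    linarith
  have hπ3 := Real.pi_gt_three
  have hπ4 := Real.pi_lt_d2
  rcases le_total x (Real.pi / 2) with h | h
  · have := Real.sin_le_sin_of_le_of_le_pi_div_two (x := 1) (y := x) (by linarith) h h1
    linarith
  · rw [← Real.sin_pi_sub]
    have := Real.sin_le_sin_of_le_of_le_pi_div_two (x := 1) (y := Real.pi - x) (by linarith) (by linarith) (by linarith)
    linarith

theorem ode_mode : ∃ (v : ℝ → ℝ) (c C κ₀ : ℝ), ContDiff ℝ (⊤ : ℕ∞) v ∧ (∀ x, |v x| ≤ 1) ∧ 0 < c ∧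
    0 < C ∧ 0 < κ₀ ∧ ∀ κ g : ℝ, 0 < κ → κ < κ₀ → 1 ≤ g → g ≤ 4 →
      ∃ (E : ℝ) (u : ℝ → ℝ), 4 / 5 ≤ E ∧ E ≤ 6 / 5 ∧ ContDiff ℝ (⊤ : ℕ∞) u ∧
        (∀ x, -(deriv (deriv u) x) + g * κ * v x * u x = E * u x) ∧
        (∀ x, |u x| ≤ C * Real.exp (-(c * κ * |x|)) ∧
          |deriv u x| ≤ C * Real.exp (-(c * κ * |x|))) ∧ ∀ x, 1 ≤ x → x ≤ 2 → 1 / 2 ≤ u x := by
  have hπ := Real.pi_pos
  have hβ := omb_pos
  set C1 := Real.exp (2 * Real.pi) with hC1
  have hC1p : 0 < C1 := Real.exp_pos _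
  have hC1' : 1 ≤ C1 := Real.one_le_exp (by positivity)
  refine ⟨omv, omb / (4 * Real.pi), 2 * Real.exp omb, min (1 / (40 * C1)) (omb / (30 * Real.pi * C1)) / 4,
    omv_smooth, omv_le, by positivity, by positivity, by positivity, ?_⟩
  intro κ g hκ0 hκ hg1 hg4
  have hε : 0 < g * κ := by positivity
  have hlt : g * κ < min (1 / (40 * C1)) (omb / (30 * Real.pi * C1)) := by
    have : g * κ ≤ 4 * κ := by nlinarith
    linarith
  have h1 : g * κ < 1 / (40 * C1) := lt_of_lt_of_le hlt (min_le_left _ _)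
  have h2 : g * κ < omb / (30 * Real.pi * C1) := lt_of_lt_of_le hlt (min_le_right _ _)
  rw [lt_div_iff₀ (by positivity)] at h1 h2
  obtain ⟨E, u, hE1, hE2, hu, hOS, hu0, hmu, happ⟩ := os_mode (g * κ) hε (by nlinarith) (by nlinarith)
  have hε40 : 40 * (g * κ) ≤ 1 := by nlinarith
  have hd : 3 * (g * κ) * C1 ≤ 1 / 8 := by nlinarith
  have hq : ∀ x, |g * κ * omv x - E| ≤ 3 := by
    intro x
    have h3 := abs_le.1 (omv_le x)
    rw [abs_le]
    constructor <;> nlinarith [h3.1, h3.2]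
  have hb : ∀ x, 0 ≤ x → x ≤ Real.pi → |u x| ≤ 2 ∧ |deriv u x| ≤ 2 := by
    intro x hx0 hx1
    obtain ⟨a1, a2⟩ := happ x hx0 hx1
    have hs1 := Real.abs_sin_le_one x
    have hc1 := Real.abs_cos_le_one x
    have e1 : u x = (u x - Real.sin x) + Real.sin x := by ring
    have e2 : deriv u x = (deriv u x - Real.cos x) + Real.cos x := by ring
    have b1 := abs_add_le (u x - Real.sin x) (Real.sin x)
    have b2 := abs_add_le (deriv u x - Real.cos x) (Real.cos x)
    rw [← e1] at b1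
    rw [← e2] at b2
    constructor <;> linarith
  have hdec := os_decay hε (by linarith) hOS hu0 hmu hq hb
  refine ⟨E, u, hE1, hE2, hu, ?_, ?_, ?_⟩
  · intro x
    have := (hOS.d1 x).deriv
    rw [this]; ring
  · intro x
    obtain ⟨a1, a2⟩ := hdec x
    have h3 : Real.exp (-(omb / (4 * Real.pi) * (g * κ) * |x|)) ≤ Real.exp (-(omb / (4 * Real.pi) * κ * |x|)) := by
      apply Real.exp_le_exp.2
      have h4 : κ ≤ g * κ := by nlinarith
      have h5 : omb / (4 * Real.pi) * κ ≤ omb / (4 * Real.pi) * (g * κ) :=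
        mul_le_mul_of_nonneg_left h4 (by positivity)
      have := mul_le_mul_of_nonneg_right h5 (abs_nonneg x)
      linarith
    have h6 : 2 * Real.exp omb * Real.exp (-(omb / (4 * Real.pi) * (g * κ) * |x|)) ≤
        2 * Real.exp omb * Real.exp (-(omb / (4 * Real.pi) * κ * |x|)) :=
      mul_le_mul_of_nonneg_left h3 (by positivity)
    exact ⟨a1.trans h6, a2.trans h6⟩
  · intro x hx1 hx2
    have h3 := (happ x (by linarith) (by linarith [Real.pi_gt_three])).1
    have h4 := om_sin x hx1 hx2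
    have h5 := (abs_le.1 h3).1
    linarith

end

end KRS
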