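import Pool.Agent.H631.KR.Defs
import Pool.Agent.H631.KR.B25

open MeasureTheory Filter Topology ENNReal Complex
open scoped Laplacian FourierTransform InnerProductSpace

namespace KRS

noncomputable section

/-! TARGET: prove the following -/

theorem long_mode : ∃ (v : ℝ → ℝ) (c C κ₀ : ℝ), ContDiff ℝ (⊤ : ℕ∞) v ∧ (∀ x, |v x| ≤ 1) ∧ 0 < c ∧
    0 < C ∧ 0 < κ₀ ∧ ∀ κ g n : ℝ, 0 < κ → κ < κ₀ → 1 ≤ g → g ≤ 4 → 2 ≤ n →
      ∃ (E : ℝ) (U : ℝ → ℝ), 4 / 5 ≤ E ∧ E ≤ 6 / 5 ∧ ContDiff ℝ (⊤ : ℕ∞) U ∧
        (∀ x, 2 * n < |x| → U x = 0) ∧ (∀ x, |U x| ≤ C) ∧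
        (∀ x, |-(deriv (deriv U) x) + g * κ * v x * U x - E * U x| ≤
          C * Real.exp (-(c * κ * n))) ∧ ∀ x, 1 ≤ x → x ≤ 2 → 1 / 2 ≤ U x := by
  obtain ⟨v, c, C, κ₀, hv, hv1, hc, hC, hκ₀, H⟩ := ode_mode
  -- the cutoff
  let B : ContDiffBump (0 : ℝ) := ⟨1, 2, one_pos, one_lt_two⟩
  let f : ℝ → ℝ := B
  have hfs : ContDiff ℝ (⊤ : ℕ∞) f := B.contDiff
  have hf1 : ∀ x, |x| ≤ 1 → f x = 1 := by
    intro x hx
    apply B.one_of_mem_closedBall
    rw [Metric.mem_closedBall, Real.dist_eq, sub_zero]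
    exact hx
  have hf0 : ∀ x, 2 ≤ |x| → f x = 0 := by
    intro x hx
    apply B.zero_of_le_dist
    rw [Real.dist_eq, sub_zero]
    exact hx
  have hfn : ∀ x, 0 ≤ f x := fun x => B.nonneg
  have hfle : ∀ x, f x ≤ 1 := fun x => B.le_one
  have hfc : HasCompactSupport f := B.hasCompactSupport
  have hfd := contDiff_infty_iff_deriv.mp hfs
  have hfdd := contDiff_infty_iff_deriv.mp hfd.2
  obtain ⟨M1, hM1⟩ := hfd.2.continuous.bounded_above_of_compact_support hfc.deriv
  obtain ⟨M2, hM2⟩ := hfdd.2.continuous.bounded_above_of_compact_support hfc.deriv.deriv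
  have hM1n : 0 ≤ M1 := le_trans (norm_nonneg _) (hM1 0)
  have hM2n : 0 ≤ M2 := le_trans (norm_nonneg _) (hM2 0)
  refine ⟨v, c, 2 * M1 * C + M2 * C + C, κ₀, hv, hv1, hc, by positivity, hκ₀, ?_⟩
  intro κ g n hκ hκ0 hg hg4 hn
  obtain ⟨E, u, hE1, hE2, hus, hode, hub, hu12⟩ := H κ g hκ hκ0 hg hg4
  have hn0 : (0 : ℝ) < n := by linarith
  have hud := contDiff_infty_iff_deriv.mp hus
  have hudd := contDiff_infty_iff_deriv.mp hud.2
  have hexp1 : ∀ x : ℝ, Real.exp (-(c * κ * |x|)) ≤ 1 := by
    intro x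
    apply Real.exp_le_one_iff.mpr
    have : 0 ≤ c * κ * |x| := by positivity
    linarith
  have hd1 : ∀ x, HasDerivAt (fun x => f (x / n) * u x)
      (deriv f (x / n) * (1 / n) * u x + f (x / n) * deriv u x) x := by
    intro x
    have h1 : HasDerivAt (fun x : ℝ => x / n) (1 / n) x := (hasDerivAt_id x).div_const n
    have h2 : HasDerivAt f (deriv f (x / n)) (x / n) := (hfd.1 (x / n)).hasDerivAt
    have h3 := h2.comp x h1
    have h4 : HasDerivAt u (deriv u x) x := (hud.1 x).hasDerivAt
    exact h3.mul h4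
  have hderiv : deriv (fun x => f (x / n) * u x)
      = fun x => deriv f (x / n) * (1 / n) * u x + f (x / n) * deriv u x := by
    funext x
    exact (hd1 x).deriv
  have hd2 : ∀ x, HasDerivAt (fun x => deriv f (x / n) * (1 / n) * u x + f (x / n) * deriv u x)
      ((deriv (deriv f) (x / n) * (1 / n) * (1 / n) * u x + deriv f (x / n) * (1 / n) * deriv u x)
        + (deriv f (x / n) * (1 / n) * deriv u x + f (x / n) * deriv (deriv u) x)) x := by
    intro x
    have h1 : HasDerivAt (fun x : ℝ => x / n) (1 / n) x := (hasDerivAt_id x).div_const n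
    have h2 : HasDerivAt f (deriv f (x / n)) (x / n) := (hfd.1 (x / n)).hasDerivAt
    have h2' : HasDerivAt (deriv f) (deriv (deriv f) (x / n)) (x / n) :=
      (hfdd.1 (x / n)).hasDerivAt
    have h3 := h2.comp x h1
    have h3' := h2'.comp x h1
    have h4 : HasDerivAt u (deriv u x) x := (hud.1 x).hasDerivAt
    have h4' : HasDerivAt (deriv u) (deriv (deriv u) x) x := (hudd.1 x).hasDerivAt
    exact ((h3'.mul_const (1 / n)).mul h4).add (h3.mul h4')
  have hderiv2 : ∀ x, deriv (deriv (fun x => f (x / n) * u x)) x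
      = (deriv (deriv f) (x / n) * (1 / n) * (1 / n) * u x + deriv f (x / n) * (1 / n) * deriv u x)
        + (deriv f (x / n) * (1 / n) * deriv u x + f (x / n) * deriv (deriv u) x) := by
    intro x
    rw [hderiv]
    exact (hd2 x).deriv
  refine ⟨E, fun x => f (x / n) * u x, hE1, hE2, ?_, ?_, ?_, ?_, ?_⟩
  · exact (hfs.comp (contDiff_id.div_const n)).mul hus
  · intro x hx
    have : f (x / n) = 0 := by
      apply hf0
      rw [abs_div, abs_of_pos hn0, le_div_iff₀ hn0]
      linarith
    simp [this]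
  · intro x
    have h1 := (hub x).1
    rw [abs_mul, abs_of_nonneg (hfn _)]
    have h2 : |u x| ≤ C := by
      calc |u x| ≤ C * Real.exp (-(c * κ * |x|)) := h1
        _ ≤ C * 1 := mul_le_mul_of_nonneg_left (hexp1 x) hC.le
        _ = C := mul_one C
    calc f (x / n) * |u x| ≤ 1 * C := mul_le_mul (hfle _) h2 (abs_nonneg _) zero_le_one
      _ ≤ 2 * M1 * C + M2 * C + C := by
        have : 0 ≤ 2 * M1 * C + M2 * C := by positivity
        linarith
  · intro x
    have hkey : -(deriv (deriv (fun x => f (x / n) * u x)) x) + g * κ * v x * (f (x / n) * u x)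
        - E * (f (x / n) * u x)
        = -(2 * (deriv f (x / n) * (1 / n) * deriv u x)
          + deriv (deriv f) (x / n) * (1 / n) * (1 / n) * u x) := by
      rw [hderiv2 x]
      have := hode x
      linear_combination (f (x / n)) * this
    show |-(deriv (deriv (fun x => f (x / n) * u x)) x) + g * κ * v x * (f (x / n) * u x)
        - E * (f (x / n) * u x)| ≤ _
    rw [hkey, abs_neg]
    by_cases hx : |x| < n
    · have hlt : |x / n| < 1 := by
        rw [abs_div, abs_of_pos hn0, div_lt_one hn0]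
        exact hx
      have hev : f =ᶠ[𝓝 (x / n)] fun _ => (1 : ℝ) := by
        have : {y : ℝ | |y| < 1} ∈ 𝓝 (x / n) :=
          (isOpen_lt continuous_abs continuous_const).mem_nhds hlt
        filter_upwards [this] with y hy
        exact hf1 y (le_of_lt hy)
      have hev1 : deriv f =ᶠ[𝓝 (x / n)] fun _ => (0 : ℝ) := by
        have := hev.deriv
        simpa using this
      have h1 : deriv f (x / n) = 0 := hev1.eq_of_nhds
      have h2 : deriv (deriv f) (x / n) = 0 := by
        have := hev1.deriv_eq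
        simpa using this
      rw [h1, h2]
      simp only [zero_mul, mul_zero, add_zero, abs_zero]
      positivity
    · push Not at hx
      have hE : Real.exp (-(c * κ * |x|)) ≤ Real.exp (-(c * κ * n)) := by
        apply Real.exp_le_exp.mpr
        have : c * κ * n ≤ c * κ * |x| := mul_le_mul_of_nonneg_left hx (by positivity)
        linarith
      have hu1 : |u x| ≤ C * Real.exp (-(c * κ * n)) :=
        le_trans (hub x).1 (mul_le_mul_of_nonneg_left hE hC.le)
      have hu2 : |deriv u x| ≤ C * Real.exp (-(c * κ * n)) :=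
        le_trans (hub x).2 (mul_le_mul_of_nonneg_left hE hC.le)
      have hin : (1 : ℝ) / n ≤ 1 := by
        rw [div_le_one hn0]
        linarith
      have hin0 : (0 : ℝ) ≤ 1 / n := by positivity
      have hm1 : |deriv f (x / n)| ≤ M1 := hM1 (x / n)
      have hm2 : |deriv (deriv f) (x / n)| ≤ M2 := hM2 (x / n)
      have ht1 : |2 * (deriv f (x / n) * (1 / n) * deriv u x)|
          ≤ 2 * (M1 * 1 * (C * Real.exp (-(c * κ * n)))) := by
        rw [abs_mul, abs_mul, abs_mul, abs_of_nonneg hin0, abs_of_pos (by norm_num : (0:ℝ) < 2)]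
        apply mul_le_mul_of_nonneg_left _ (by norm_num)
        apply mul_le_mul _ hu2 (abs_nonneg _) (by positivity)
        exact mul_le_mul hm1 hin hin0 hM1n
      have ht2 : |deriv (deriv f) (x / n) * (1 / n) * (1 / n) * u x|
          ≤ M2 * 1 * 1 * (C * Real.exp (-(c * κ * n))) := by
        rw [abs_mul, abs_mul, abs_mul, abs_of_nonneg hin0]
        apply mul_le_mul _ hu1 (abs_nonneg _) (by positivity)
        apply mul_le_mul _ hin hin0 (by positivity)
        exact mul_le_mul hm2 hin hin0 hM2n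
      calc |2 * (deriv f (x / n) * (1 / n) * deriv u x)
            + deriv (deriv f) (x / n) * (1 / n) * (1 / n) * u x|
          ≤ |2 * (deriv f (x / n) * (1 / n) * deriv u x)|
            + |deriv (deriv f) (x / n) * (1 / n) * (1 / n) * u x| := abs_add_le _ _
        _ ≤ 2 * (M1 * 1 * (C * Real.exp (-(c * κ * n))))
            + M2 * 1 * 1 * (C * Real.exp (-(c * κ * n))) := add_le_add ht1 ht2
        _ ≤ (2 * M1 * C + M2 * C + C) * Real.exp (-(c * κ * n)) := by
            have : 0 ≤ C * Real.exp (-(c * κ * n)) := by positivity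
            nlinarith
  · intro x hx1 hx2
    have : f (x / n) = 1 := by
      apply hf1
      rw [abs_div, abs_of_pos hn0, div_le_one hn0, abs_of_nonneg (by linarith)]
      linarith
    show 1 / 2 ≤ f (x / n) * u x
    rw [this, one_mul]
    exact hu12 x hx1 hx2

end

end KRS
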