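import Pool.Agent.H631.KR.Defs

open MeasureTheory Filter Topology ENNReal Complex
open scoped Laplacian FourierTransform InnerProductSpace

namespace KRS

noncomputable section

/-! TARGET: prove the following -/

theorem trans_mode : ∃ C : ℝ, 0 < C ∧ ∀ ω g ρ : ℝ, 0 < ω → ω ≤ 1 → 1 ≤ g → g ≤ 4 → 2 ≤ ρ →
      ∃ (U : ℝ → ℝ), ContDiff ℝ (⊤ : ℕ∞) U ∧
        (∀ x, 2 * ρ < |x| → U x = 0) ∧ (∀ x, |U x| ≤ 1) ∧
        (∀ x, |-(deriv (deriv U) x) + g * ω ^ 2 * x ^ 2 * U x - Real.sqrt g * ω * U x| ≤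
          C * Real.exp (-(ω * ρ ^ 2 / 2))) ∧ ∀ x, 0 ≤ x → x ≤ 1 → 1 / 8 ≤ U x := by
  obtain ⟨χ, hχs, hχc, hχ1, hχ2, hχ0, hχle⟩ : ∃ χ : ℝ → ℝ, ContDiff ℝ (⊤ : ℕ∞) χ ∧
      HasCompactSupport χ ∧ (∀ x, |x| ≤ 1 → χ x = 1) ∧ (∀ x, 2 ≤ |x| → χ x = 0) ∧
      (∀ x, 0 ≤ χ x) ∧ (∀ x, χ x ≤ 1) := by
    let f : ContDiffBump (0 : ℝ) := ⟨1, 2, by norm_num, by norm_num⟩
    refine ⟨f, f.contDiff, f.hasCompactSupport, ?_, ?_, fun x => f.nonneg, fun x => f.le_one⟩
    · intro x hx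
      apply f.one_of_mem_closedBall
      simpa [Metric.mem_closedBall, Real.dist_eq] using hx
    · intro x hx
      apply f.zero_of_le_dist
      simpa [Real.dist_eq] using hx
  have hχ2' : ContDiff ℝ 2 χ := by exact_mod_cast (contDiff_infty.mp hχs) 2
  have hd1 : ContDiff ℝ 1 (deriv χ) := by
    have : ContDiff ℝ (1 + 1) χ := by
      norm_num
      exact hχ2'
    exact (contDiff_succ_iff_deriv.mp this).2.2
  have hd0 : Differentiable ℝ χ := hχ2'.differentiable (by norm_num)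
  have hdd : Differentiable ℝ (deriv χ) := hd1.differentiable (by norm_num)
  have hc1 : Continuous (deriv χ) := hd1.continuous
  have hc2 : Continuous (deriv (deriv χ)) := hd1.continuous_deriv (by norm_num)
  have hs1 : HasCompactSupport (deriv χ) := hχc.deriv
  have hs2 : HasCompactSupport (deriv (deriv χ)) := hs1.deriv
  obtain ⟨C1, hC1⟩ := (continuous_id.mul hc1).bounded_above_of_compact_support
    (hs1.mul_left (f := fun x : ℝ => x))
  obtain ⟨C2, hC2⟩ := hc2.bounded_above_of_compact_support hs2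
  have hC1n : 0 ≤ C1 := le_trans (norm_nonneg _) (hC1 0)
  have hC2n : 0 ≤ C2 := le_trans (norm_nonneg _) (hC2 0)
  have hz : ∀ y : ℝ, |y| < 1 → deriv χ y = 0 ∧ deriv (deriv χ) y = 0 := by
    intro y hy
    have hopen : IsOpen {z : ℝ | |z| < 1} := isOpen_lt continuous_abs continuous_const
    have h1 : ∀ z : ℝ, |z| < 1 → deriv χ z = 0 := by
      intro z hz
      have : χ =ᶠ[𝓝 z] fun _ => (1 : ℝ) := by
        filter_upwards [hopen.mem_nhds hz] with w hw
        exact hχ1 w (le_of_lt hw)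
      rw [this.deriv_eq]
      simp
    refine ⟨h1 y hy, ?_⟩
    have : deriv χ =ᶠ[𝓝 y] fun _ => (0 : ℝ) := by
      filter_upwards [hopen.mem_nhds hy] with w hw
      exact h1 w hw
    rw [this.deriv_eq]
    simp
  refine ⟨C2 + 4 * C1 + 1, by positivity, ?_⟩
  intro ω g ρ hω hω1 hg hg4 hρ
  have hρ0 : 0 < ρ := by linarith
  set s := Real.sqrt g with hs
  have hss : s * s = g := Real.mul_self_sqrt (by linarith)
  have hs0 : 0 ≤ s := Real.sqrt_nonneg g
  have hs1' : 1 ≤ s := by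
    rw [hs]
    exact Real.one_le_sqrt.mpr hg
  have hs2' : s ≤ 2 := by
    rw [hs, Real.sqrt_le_left (by norm_num)]
    linarith
  set β := s * ω / 2 with hβ
  have hβ0 : 0 ≤ β := by positivity
  have hβ1 : β ≤ 1 := by
    have : s * ω ≤ 2 * 1 := mul_le_mul hs2' hω1 hω.le (by norm_num)
    rw [hβ]; linarith
  have hβω : ω / 2 ≤ β := by
    have : 1 * ω ≤ s * ω := mul_le_mul_of_nonneg_right hs1' hω.le
    rw [hβ]; linarith
  have hG : ∀ x, HasDerivAt (fun x : ℝ => Real.exp (-(β * x ^ 2)))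
      (-(2 * β * x) * Real.exp (-(β * x ^ 2))) x := by
    intro x
    have h1 : HasDerivAt (fun x : ℝ => -(β * x ^ 2)) (-(2 * β * x)) x := by
      exact (((hasDerivAt_pow 2 x).const_mul β).fun_neg).congr_deriv (by simp; ring)
    exact h1.exp.congr_deriv (by ring)
  have hχd : ∀ x, HasDerivAt (fun x : ℝ => χ (x / ρ)) (deriv χ (x / ρ) / ρ) x := by
    intro x
    have h1 : HasDerivAt (fun x : ℝ => x / ρ) (1 / ρ) x := (hasDerivAt_id x).div_const ρ
    exact ((hd0 (x / ρ)).hasDerivAt.comp x h1).congr_deriv (by ring)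
  have hχdd : ∀ x, HasDerivAt (fun x : ℝ => deriv χ (x / ρ)) (deriv (deriv χ) (x / ρ) / ρ) x := by
    intro x
    have h1 : HasDerivAt (fun x : ℝ => x / ρ) (1 / ρ) x := (hasDerivAt_id x).div_const ρ
    have h2 : HasDerivAt (deriv χ) (deriv (deriv χ) (x / ρ)) (x / ρ) := (hdd (x / ρ)).hasDerivAt
    have h3 := HasDerivAt.comp (h₂ := deriv χ) (h := fun x : ℝ => x / ρ) x h2 h1
    exact h3.congr_deriv (by ring)
  have hU1 : ∀ x, HasDerivAt (fun x : ℝ => χ (x / ρ) * Real.exp (-(β * x ^ 2)))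
      (deriv χ (x / ρ) / ρ * Real.exp (-(β * x ^ 2)) +
        χ (x / ρ) * (-(2 * β * x) * Real.exp (-(β * x ^ 2)))) x := by
    intro x
    exact (hχd x).mul (hG x)
  have hU1' : deriv (fun x : ℝ => χ (x / ρ) * Real.exp (-(β * x ^ 2))) = fun x =>
      (deriv χ (x / ρ) / ρ * Real.exp (-(β * x ^ 2)) +
        χ (x / ρ) * (-(2 * β * x) * Real.exp (-(β * x ^ 2)))) := by
    funext x
    exact (hU1 x).deriv
  have hU2 : ∀ x, deriv (deriv (fun x : ℝ => χ (x / ρ) * Real.exp (-(β * x ^ 2)))) x =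
      deriv (deriv χ) (x / ρ) / ρ ^ 2 * Real.exp (-(β * x ^ 2)) -
      4 * β * (x / ρ * deriv χ (x / ρ)) * Real.exp (-(β * x ^ 2)) +
      χ (x / ρ) * (-(2 * β) + 4 * β ^ 2 * x ^ 2) * Real.exp (-(β * x ^ 2)) := by
    intro x
    rw [hU1']
    have h1 := ((hχdd x).div_const ρ).fun_mul (hG x)
    have h2 : HasDerivAt (fun x : ℝ => -(2 * β * x)) (-(2 * β)) x := by
      exact (((hasDerivAt_id x).const_mul (2 * β)).fun_neg).congr_deriv (by simp)
    have h3 := (hχd x).fun_mul (h2.fun_mul (hG x))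
    have h4 := (h1.fun_add h3).deriv
    refine Eq.trans ?_ (h4.trans ?_)
    · rfl
    · field_simp
      ring
  refine ⟨fun x => χ (x / ρ) * Real.exp (-(β * x ^ 2)), ?_, ?_, ?_, ?_, ?_⟩
  · have h1 : ContDiff ℝ (⊤ : ℕ∞) (fun x : ℝ => χ (x / ρ)) :=
      hχs.comp (contDiff_id.div_const ρ)
    have h2 : ContDiff ℝ (⊤ : ℕ∞) (fun x : ℝ => Real.exp (-(β * x ^ 2))) := by
      fun_prop
    exact h1.mul h2
  · intro x hx
    have : χ (x / ρ) = 0 := by
      apply hχ2
      rw [abs_div, abs_of_pos hρ0, le_div_iff₀ hρ0]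
      exact hx.le
    simp [this]
  · intro x
    simp only
    rw [abs_of_nonneg (mul_nonneg (hχ0 _) (Real.exp_pos _).le)]
    calc χ (x / ρ) * Real.exp (-(β * x ^ 2)) ≤ 1 * 1 :=
          mul_le_mul (hχle _) (Real.exp_le_one_iff.mpr (by
            have : 0 ≤ β * x ^ 2 := by positivity
            linarith)) (Real.exp_pos _).le zero_le_one
      _ = 1 := by norm_num
  · intro x
    rw [hU2 x]
    have hgβ : g * ω ^ 2 = 4 * β ^ 2 := by
      rw [hβ, ← hss]; ring
    have hsβ : s * ω = 2 * β := by rw [hβ]; ring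
    rw [hgβ, hsβ]
    have hE : -(deriv (deriv χ) (x / ρ) / ρ ^ 2 * Real.exp (-(β * x ^ 2)) -
      4 * β * (x / ρ * deriv χ (x / ρ)) * Real.exp (-(β * x ^ 2)) +
      χ (x / ρ) * (-(2 * β) + 4 * β ^ 2 * x ^ 2) * Real.exp (-(β * x ^ 2))) +
      4 * β ^ 2 * x ^ 2 * (χ (x / ρ) * Real.exp (-(β * x ^ 2))) -
      2 * β * (χ (x / ρ) * Real.exp (-(β * x ^ 2))) =
      (-(deriv (deriv χ) (x / ρ) / ρ ^ 2) + 4 * β * (x / ρ * deriv χ (x / ρ))) *
        Real.exp (-(β * x ^ 2)) := by ring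
    rw [hE]
    by_cases hx : |x| < ρ
    · have hy : |x / ρ| < 1 := by
        rw [abs_div, abs_of_pos hρ0, div_lt_one hρ0]
        exact hx
      obtain ⟨e1, e2⟩ := hz _ hy
      rw [e1, e2]
      simp
      positivity
    · push Not at hx
      rw [abs_mul, abs_of_pos (Real.exp_pos _)]
      have hx2 : ρ ^ 2 ≤ x ^ 2 := by
        rw [← sq_abs x]
        exact pow_le_pow_left₀ hρ0.le hx 2
      have hexp : Real.exp (-(β * x ^ 2)) ≤ Real.exp (-(ω * ρ ^ 2 / 2)) := by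
        apply Real.exp_le_exp.mpr
        have h1 : ω / 2 * ρ ^ 2 ≤ β * x ^ 2 :=
          mul_le_mul hβω hx2 (by positivity) hβ0
        linarith
      have hb : |-(deriv (deriv χ) (x / ρ) / ρ ^ 2) + 4 * β * (x / ρ * deriv χ (x / ρ))| ≤
          C2 + 4 * C1 + 1 := by
        have h1 : |deriv (deriv χ) (x / ρ) / ρ ^ 2| ≤ C2 := by
          rw [abs_div, abs_of_pos (by positivity : (0 : ℝ) < ρ ^ 2)]
          have h2 := hC2 (x / ρ)
          rw [Real.norm_eq_abs] at h2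
          have h3 : (1 : ℝ) ≤ ρ ^ 2 := one_le_pow₀ (by linarith)
          calc |deriv (deriv χ) (x / ρ)| / ρ ^ 2 ≤ |deriv (deriv χ) (x / ρ)| / 1 :=
                div_le_div_of_nonneg_left (abs_nonneg _) one_pos h3
            _ ≤ C2 := by simpa using h2
        have h2 : |4 * β * (x / ρ * deriv χ (x / ρ))| ≤ 4 * C1 := by
          rw [abs_mul, abs_of_nonneg (by positivity : (0 : ℝ) ≤ 4 * β)]
          have h3 : |x / ρ * deriv χ (x / ρ)| ≤ C1 := hC1 (x / ρ)
          calc 4 * β * |x / ρ * deriv χ (x / ρ)| ≤ 4 * 1 * C1 :=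
                mul_le_mul (by linarith) h3 (abs_nonneg _) (by norm_num)
            _ = 4 * C1 := by ring
        calc _ ≤ |-(deriv (deriv χ) (x / ρ) / ρ ^ 2)| + |4 * β * (x / ρ * deriv χ (x / ρ))| :=
              abs_add_le _ _
          _ ≤ C2 + 4 * C1 + 1 := by
              rw [abs_neg]
              linarith
      exact mul_le_mul hb hexp (Real.exp_pos _).le (by positivity)
  · intro x hx0 hx1
    have h1 : χ (x / ρ) = 1 := by
      apply hχ1
      rw [abs_div, abs_of_pos hρ0, div_le_one hρ0, abs_of_nonneg hx0]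
      linarith
    simp only [h1, one_mul]
    have h2 : Real.exp (-1) ≤ Real.exp (-(β * x ^ 2)) := by
      apply Real.exp_le_exp.mpr
      have : β * x ^ 2 ≤ 1 * 1 :=
        mul_le_mul hβ1 (pow_le_one₀ hx0 hx1) (by positivity) zero_le_one
      linarith
    have h3 : (1 : ℝ) / 8 ≤ Real.exp (-1) := by
      rw [Real.exp_neg, ← one_div]
      apply one_div_le_one_div_of_le (Real.exp_pos _)
      have := Real.exp_one_lt_d9
      linarith
    linarith

end

end KRS
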