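import Pool.Agent.H631.KR.Defs

open MeasureTheory Filter Topology ENNReal Complex
open scoped Laplacian FourierTransform InnerProductSpace

namespace KRS

noncomputable section

/-! TARGET: prove the following -/

theorem prod_lap_smooth (d : ℕ) (f : Fin d → ℝ → ℝ) (hf : ∀ i, ContDiff ℝ (⊤ : ℕ∞) (f i)) :
    ContDiff ℝ (⊤ : ℕ∞) (fun x : EE d => ((∏ i, f i (x i) : ℝ) : ℂ)) := by
  have h1 : ContDiff ℝ (⊤ : ℕ∞) (fun x : EE d => ∏ i, f i (x i)) :=
    contDiff_prod fun i _ => (hf i).comp (EuclideanSpace.proj i : EE d →L[ℝ] ℝ).contDiff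
  exact Complex.ofRealCLM.contDiff.comp h1

theorem prod_lap_d (d : ℕ) (g : Fin d → ℝ → ℝ) (hg : ∀ i, ContDiff ℝ (⊤ : ℕ∞) (g i)) (i : Fin d)
    (y : EE d) :
    fderiv ℝ (fun x : EE d => ((∏ i, g i (x i) : ℝ) : ℂ)) y (EuclideanSpace.single i 1) =
      ((deriv (g i) (y i) * ∏ j ∈ Finset.univ.erase i, g j (y j) : ℝ) : ℂ) := by
  have hd : DifferentiableAt ℝ (fun x : EE d => ((∏ i, g i (x i) : ℝ) : ℂ)) y :=
    ((prod_lap_smooth d g hg).differentiable (by simp)) y
  have h1 : HasDerivAt (fun t : ℝ => y + t • (EuclideanSpace.single i 1 : EE d))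
      (EuclideanSpace.single i 1) 0 := by
    simpa using ((hasDerivAt_id (0:ℝ)).smul_const (EuclideanSpace.single i 1 : EE d)).const_add y
  have h2 : HasDerivAt (fun t : ℝ =>
      ((∏ j, g j ((y + t • (EuclideanSpace.single i 1 : EE d)) j) : ℝ) : ℂ))
      (fderiv ℝ (fun x : EE d => ((∏ i, g i (x i) : ℝ) : ℂ)) y (EuclideanSpace.single i 1)) 0 := by
    have h3 : HasFDerivAt (fun x : EE d => ((∏ i, g i (x i) : ℝ) : ℂ))
        (fderiv ℝ (fun x : EE d => ((∏ i, g i (x i) : ℝ) : ℂ)) y)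
        (y + (0:ℝ) • (EuclideanSpace.single i 1 : EE d)) := by
      rw [zero_smul, add_zero]
      exact hd.hasFDerivAt
    exact h3.comp_hasDerivAt (0:ℝ) h1
  have h4 : (fun t : ℝ => ((∏ j, g j ((y + t • (EuclideanSpace.single i 1 : EE d)) j) : ℝ) : ℂ)) =
      fun t : ℝ => ((g i (y i + t) * ∏ j ∈ Finset.univ.erase i, g j (y j) : ℝ) : ℂ) := by
    funext t
    congr 1
    rw [← Finset.mul_prod_erase Finset.univ _ (Finset.mem_univ i)]
    congr 1
    · simp
    · refine Finset.prod_congr rfl fun j hj => ?_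
      have hji : j ≠ i := Finset.ne_of_mem_erase hj
      simp [hji]
  rw [h4] at h2
  have h5 : HasDerivAt (fun t : ℝ =>
      ((g i (y i + t) * ∏ j ∈ Finset.univ.erase i, g j (y j) : ℝ) : ℂ))
      ((deriv (g i) (y i) * ∏ j ∈ Finset.univ.erase i, g j (y j) : ℝ) : ℂ) 0 := by
    have h6 : HasDerivAt (g i) (deriv (g i) (y i)) (y i + 0) := by
      rw [add_zero]
      exact (((hg i).differentiable (by simp)) _).hasDerivAt
    have h7 : HasDerivAt (fun t : ℝ => g i (y i + t)) (deriv (g i) (y i)) 0 :=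
      h6.comp_const_add (y i) 0
    exact (h7.mul_const _).ofReal_comp
  exact h2.unique h5

theorem prod_lap (d : ℕ) (f : Fin d → ℝ → ℝ) (hf : ∀ i, ContDiff ℝ (⊤ : ℕ∞) (f i)) (r : ℝ)
    (hr : ∀ i x, r < |x| → f i x = 0) :
    IsTest (d := d) (fun x : EE d => ((∏ i, f i (x i) : ℝ) : ℂ)) ∧
    ∀ x : EE d, (Δ (fun x : EE d => ((∏ i, f i (x i) : ℝ) : ℂ))) x =
      ((∑ i, deriv (deriv (f i)) (x i) * ∏ j ∈ Finset.univ.erase i, f j (x j) : ℝ) : ℂ) := by
  have hsm := prod_lap_smooth d f hf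
  refine ⟨⟨hsm, ?_⟩, fun x => ?_⟩
  · refine HasCompactSupport.intro (isCompact_closedBall (0 : EE d)
      (Real.sqrt (d * (max r 0) ^ 2))) fun x hx => ?_
    have h1 : ∃ i, r < |x i| := by
      by_contra hcon
      push Not at hcon
      apply hx
      rw [mem_closedBall_zero_iff, EuclideanSpace.norm_eq]
      apply Real.sqrt_le_sqrt
      calc ∑ i, ‖x i‖ ^ 2 ≤ ∑ _i : Fin d, (max r 0) ^ 2 := by
            refine Finset.sum_le_sum fun i _ => ?_
            apply pow_le_pow_left₀ (norm_nonneg _)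
            rw [Real.norm_eq_abs]
            exact (hcon i).trans (le_max_left _ _)
        _ = d * (max r 0) ^ 2 := by
            rw [Finset.sum_const, Finset.card_univ, Fintype.card_fin, nsmul_eq_mul]
    obtain ⟨i, hi⟩ := h1
    have h2 : ∏ i, f i (x i) = 0 := Finset.prod_eq_zero (Finset.mem_univ i) (hr i _ hi)
    rw [h2, Complex.ofReal_zero]
  · rw [InnerProductSpace.laplacian_eq_iteratedFDeriv_orthonormalBasis _
      (EuclideanSpace.basisFun (Fin d) ℝ)]
    simp only [iteratedFDeriv_two_apply, EuclideanSpace.basisFun_apply, Matrix.cons_val_zero,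
      Matrix.cons_val_one]
    rw [Complex.ofReal_sum]
    refine Finset.sum_congr rfl fun i _ => ?_
    have h2 : ContDiff ℝ 1 (fderiv ℝ (fun x : EE d => ((∏ i, f i (x i) : ℝ) : ℂ))) :=
      hsm.fderiv_right (by norm_cast)
    have h3 : DifferentiableAt ℝ (fderiv ℝ (fun x : EE d => ((∏ i, f i (x i) : ℝ) : ℂ))) x :=
      h2.differentiable (by norm_num) x
    have h4 : fderiv ℝ (fderiv ℝ (fun x : EE d => ((∏ i, f i (x i) : ℝ) : ℂ))) x
        (EuclideanSpace.single i 1) (EuclideanSpace.single i 1) =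
        fderiv ℝ (fun y => fderiv ℝ (fun x : EE d => ((∏ i, f i (x i) : ℝ) : ℂ)) y
          (EuclideanSpace.single i 1)) x (EuclideanSpace.single i 1) := by
      have h5 := h3.hasFDerivAt.clm_apply (hasFDerivAt_const (EuclideanSpace.single i 1 : EE d) x)
      rw [h5.fderiv]
      simp
    rw [h4]
    obtain ⟨g, hg⟩ : ∃ g : Fin d → ℝ → ℝ, g = Function.update f i (deriv (f i)) := ⟨_, rfl⟩
    have hgi : g i = deriv (f i) := by
      rw [hg]
      simp
    have hgj : ∀ j, j ≠ i → g j = f j := fun j hj => by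
      rw [hg]
      simp [hj]
    have hgs : ∀ j, ContDiff ℝ (⊤ : ℕ∞) (g j) := by
      intro j
      by_cases hj : j = i
      · rw [hj, hgi]
        have := (contDiff_infty_iff_deriv (𝕜 := ℝ)).1 (hf i)
        exact this.2
      · rw [hgj j hj]
        exact hf j
    have h6 : (fun y => fderiv ℝ (fun x : EE d => ((∏ i, f i (x i) : ℝ) : ℂ)) y
          (EuclideanSpace.single i 1)) = fun y : EE d => ((∏ i, g i (y i) : ℝ) : ℂ) := by
      funext y
      rw [prod_lap_d d f hf i y, ← Finset.mul_prod_erase Finset.univ (fun j => g j (y j))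
        (Finset.mem_univ i), hgi]
      congr 2
      refine Finset.prod_congr rfl fun j hj => ?_
      rw [hgj j (Finset.ne_of_mem_erase hj)]
    rw [h6, prod_lap_d d g hgs i x, hgi]
    congr 2
    refine Finset.prod_congr rfl fun j hj => ?_
    rw [hgj j (Finset.ne_of_mem_erase hj)]


end

end KRS
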