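import Pool.Agent.H631.KR.Defs
import Pool.Agent.H631.KR.B26
import Pool.Agent.H631.KR.B27
import Pool.Agent.H631.KR.B28
import Pool.Agent.H631.KR.K00

open MeasureTheory Filter Topology ENNReal Complex
open scoped Laplacian FourierTransform InnerProductSpace

namespace KRS

noncomputable section

/-! TARGET: prove the following -/

/-- a box -/
def tbx {d : ℕ} (lo hi : Fin d → ℝ) : Set (EE d) := {x | ∀ i, lo i ≤ x i ∧ x i ≤ hi i}

theorem tbx_eq {d : ℕ} (lo hi : Fin d → ℝ) :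
    tbx lo hi = (WithLp.ofLp : EE d → (Fin d → ℝ)) ⁻¹' (Set.Icc lo hi) := by
  ext x
  simp only [tbx, Set.mem_setOf_eq, Set.mem_preimage, Set.mem_Icc, Pi.le_def]
  exact ⟨fun h => ⟨fun i => (h i).1, fun i => (h i).2⟩, fun h i => ⟨h.1 i, h.2 i⟩⟩

theorem tbx_meas {d : ℕ} (lo hi : Fin d → ℝ) : MeasurableSet (tbx lo hi) := by
  rw [tbx_eq]
  exact (PiLp.volume_preserving_ofLp (Fin d)).measurable measurableSet_Icc

theorem tbx_vol {d : ℕ} (lo hi : Fin d → ℝ) :
    volume (tbx lo hi) = ∏ i, ENNReal.ofReal (hi i - lo i) := by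
  rw [tbx_eq, (PiLp.volume_preserving_ofLp (Fin d)).measure_preimage
    measurableSet_Icc.nullMeasurableSet, Real.volume_Icc_pi]

theorem tbx_ne_top {d : ℕ} (lo hi : Fin d → ℝ) : volume (tbx lo hi) ≠ ⊤ := by
  rw [tbx_vol]
  exact ENNReal.prod_ne_top (fun i _ => ENNReal.ofReal_ne_top)

theorem tbx_real {d : ℕ} (lo hi : Fin d → ℝ) (h : ∀ i, lo i ≤ hi i) :
    volume.real (tbx lo hi) = ∏ i, (hi i - lo i) := by
  rw [measureReal_def, tbx_vol, ENNReal.toReal_prod]
  exact Finset.prod_congr rfl fun i _ => ENNReal.toReal_ofReal (sub_nonneg.mpr (h i))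

theorem tb_dd (f : ℝ → ℝ) (h : ℝ) (hz : ∀ x, h < |x| → f x = 0) (x : ℝ) (hx : h < |x|) :
    deriv (deriv f) x = 0 := by
  have ho : IsOpen {y : ℝ | h < |y|} := isOpen_lt continuous_const continuous_abs
  have h1 : ∀ y ∈ {y : ℝ | h < |y|}, deriv f y = 0 := by
    intro y hy
    have : f =ᶠ[𝓝 y] fun _ => 0 := by
      filter_upwards [ho.mem_nhds hy] with z hz'
      exact hz z hz'
    rw [this.deriv_eq, deriv_const]
  have : deriv f =ᶠ[𝓝 x] fun _ => 0 := by
    filter_upwards [ho.mem_nhds hx] with z hz'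
    exact h1 z hz'
  rw [this.deriv_eq, deriv_const]

theorem tb_core (d : ℕ) (f W : Fin d → ℝ → ℝ) (Ev h : Fin d → ℝ) (κ g ε M : ℝ)
    (hf : ∀ i, ContDiff ℝ (⊤ : ℕ∞) (f i)) (hW : ∀ i, Continuous (W i))
    (hfz : ∀ i x, h i < |x| → f i x = 0)
    (hM : 1 ≤ M) (hfb : ∀ i x, |f i x| ≤ M) (hε : 0 ≤ ε)
    (herr : ∀ i x, |-(deriv (deriv (f i)) x) + g * W i x * f i x - Ev i * f i x| ≤ ε)
    (hh : ∀ i, 0 ≤ h i) (lo : Fin d → ℝ) (m : ℝ) (hm : 0 < m)
    (hlow : ∀ i x, lo i ≤ x → x ≤ lo i + 1 → m ≤ f i x)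
    (V : EE d → ℂ) (hVT : ∀ x : EE d, (∀ i, |x i| ≤ h i) →
      V x = ((∑ i, W i (x i) : ℝ) : ℂ) + (κ : ℂ) * I) :
    ∃ (φ : EE d → ℂ) (q r : HH d), IsTest φ ∧ (q : EE d → ℂ) =ᵐ[volume] φ ∧
      ((r : EE d → ℂ) =ᵐ[volume] fun x => -(Δ φ) x + (g : ℂ) * V x * φ x -
        (((∑ i, Ev i : ℝ) : ℂ) + ((g * κ : ℝ) : ℂ) * I) * φ x) ∧
      m ^ d ≤ ‖q‖ ∧ ‖r‖ ≤ (d * ε * M ^ d) * (∏ i, (2 * h i)) ^ (1 / 2 : ℝ) := by
  classical
  set φ : EE d → ℂ := fun x : EE d => ((∏ i, f i (x i) : ℝ) : ℂ) with hφ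
  have hR0 : ∀ i x, (∑ i, h i) < |x| → f i x = 0 := by
    intro i x hx
    apply hfz
    exact lt_of_le_of_lt (Finset.single_le_sum (fun i _ => hh i) (Finset.mem_univ i)) hx
  obtain ⟨hT, hL⟩ := prod_lap d f hf _ hR0
  set Rr : EE d → ℝ := fun x => ∑ i, (-(deriv (deriv (f i)) (x i)) + g * W i (x i) * f i (x i) -
    Ev i * f i (x i)) * ∏ j ∈ Finset.univ.erase i, f j (x j) with hRr
  have hPi : ∀ (x : EE d) i, f i (x i) * ∏ j ∈ Finset.univ.erase i, f j (x j) = ∏ i, f i (x i) :=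
    fun x i => Finset.mul_prod_erase _ (fun j => f j (x j)) (Finset.mem_univ i)
  have key : ∀ x : EE d, Rr x = -(∑ i, deriv (deriv (f i)) (x i) *
      ∏ j ∈ Finset.univ.erase i, f j (x j)) + g * (∑ i, W i (x i)) * (∏ i, f i (x i)) -
      (∑ i, Ev i) * ∏ i, f i (x i) := by
    intro x
    rw [hRr]
    simp only
    rw [mul_assoc, Finset.sum_mul, Finset.sum_mul, Finset.mul_sum, ← Finset.sum_neg_distrib,
      ← Finset.sum_add_distrib, ← Finset.sum_sub_distrib]
    apply Finset.sum_congr rfl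
    intro i _
    rw [← hPi x i]
    ring
  have hLR : ∀ x : EE d, -(Δ φ) x + (g : ℂ) * V x * φ x -
        (((∑ i, Ev i : ℝ) : ℂ) + ((g * κ : ℝ) : ℂ) * I) * φ x = ((Rr x : ℝ) : ℂ) := by
    intro x
    rw [hL x, key x]
    by_cases hx : ∀ i, |x i| ≤ h i
    · rw [hVT x hx]
      simp only [hφ]
      push_cast
      ring
    · push Not at hx
      obtain ⟨k, hk⟩ := hx
      have h0 : ∏ i, f i (x i) = 0 := Finset.prod_eq_zero (Finset.mem_univ k) (hfz k _ hk)
      simp only [hφ, h0]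
      push_cast
      ring
  have hoff : ∀ x : EE d, x ∉ tbx (fun i => -h i) h → Rr x = 0 := by
    intro x hx
    have : ∃ k, h k < |x k| := by
      by_contra hcon
      push Not at hcon
      exact hx fun i => abs_le.mp (hcon i)
    obtain ⟨k, hk⟩ := this
    rw [key x, Finset.prod_eq_zero (Finset.mem_univ k) (hfz k _ hk), mul_zero, mul_zero, sub_zero,
      add_zero, neg_eq_zero]
    apply Finset.sum_eq_zero
    intro i _
    by_cases hik : k = i
    · rw [← hik, tb_dd (f k) (h k) (hfz k) _ hk, zero_mul]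
    · rw [Finset.prod_eq_zero (Finset.mem_erase.mpr ⟨hik, Finset.mem_univ k⟩) (hfz k _ hk), mul_zero]
  have hbd : ∀ x : EE d, |Rr x| ≤ d * ε * M ^ d := by
    intro x
    rw [hRr]
    refine (Finset.abs_sum_le_sum_abs _ _).trans ?_
    have h1 : ∀ i ∈ (Finset.univ : Finset (Fin d)), |(-(deriv (deriv (f i)) (x i)) +
        g * W i (x i) * f i (x i) - Ev i * f i (x i)) * ∏ j ∈ Finset.univ.erase i, f j (x j)| ≤
        ε * M ^ d := by
      intro i _
      rw [abs_mul, Finset.abs_prod]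
      apply mul_le_mul (herr i _) _ (Finset.prod_nonneg fun _ _ => abs_nonneg _) hε
      refine (Finset.prod_le_prod (fun _ _ => abs_nonneg _) (fun j _ => hfb j _)).trans ?_
      rw [Finset.prod_const]
      apply pow_le_pow_right₀ hM
      refine (Finset.card_le_univ _).trans ?_
      simp
    refine (Finset.sum_le_sum h1).trans ?_
    rw [Finset.sum_const, Finset.card_univ, Fintype.card_fin, nsmul_eq_mul, mul_assoc]
  have hcont : Continuous Rr := by
    rw [hRr]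
    apply continuous_finset_sum
    intro i _
    have hfc : ∀ j, Continuous (f j) := fun j => (hf j).continuous
    have hd1 : ContDiff ℝ (⊤ : ℕ∞) (deriv (f i)) := (contDiff_infty_iff_deriv.mp (hf i)).2
    have hd2 : ContDiff ℝ (⊤ : ℕ∞) (deriv (deriv (f i))) := (contDiff_infty_iff_deriv.mp hd1).2
    have hci : ∀ j : Fin d, Continuous (fun x : EE d => x j) := fun j => by fun_prop
    apply Continuous.mul
    · exact (((hd2.continuous.comp (hci i)).neg.add ((continuous_const.mul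
        ((hW i).comp (hci i))).mul ((hfc i).comp (hci i)))).sub
        (continuous_const.mul ((hfc i).comp (hci i))))
    · exact continuous_finset_prod _ fun j _ => (hfc j).comp (hci j)
  have hTm := tbx_meas (fun i => -h i) h
  have hTt := tbx_ne_top (fun i => -h i) h
  set S : ℝ := d * ε * M ^ d with hS
  have hS0 : 0 ≤ S := by positivity
  have hle : ∀ x : EE d, ‖((Rr x : ℝ) : ℂ)‖ ≤
      ‖(tbx (fun i => -h i) h).indicator (fun _ => (S : ℂ)) x‖ := by
    intro x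
    by_cases hx : x ∈ tbx (fun i => -h i) h
    · rw [Set.indicator_of_mem hx, Complex.norm_real, Complex.norm_real, Real.norm_eq_abs,
        Real.norm_of_nonneg hS0]
      exact hbd x
    · rw [hoff x hx, Complex.ofReal_zero, norm_zero]
      exact norm_nonneg _
  have hmem : MemLp (fun x : EE d => ((Rr x : ℝ) : ℂ)) 2 volume :=
    MemLp.of_le (memLp_indicator_const 2 hTm (S : ℂ) (Or.inr hTt))
      (Complex.continuous_ofReal.comp hcont).aestronglyMeasurable (Filter.Eventually.of_forall hle)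
  have hqm : MemLp φ 2 volume := hT.1.continuous.memLp_of_hasCompactSupport hT.2
  refine ⟨φ, hqm.toLp, hmem.toLp, hT, hqm.coeFn_toLp, ?_, ?_, ?_⟩
  · refine hmem.coeFn_toLp.trans (Filter.Eventually.of_forall fun x => ?_)
    exact (hLR x).symm
  · have hBm := tbx_meas lo (fun i => lo i + 1)
    have hBt := tbx_ne_top lo (fun i => lo i + 1)
    have h1 : ‖indicatorConstLp 2 hBm hBt ((m ^ d : ℝ) : ℂ)‖ = m ^ d := by
      rw [norm_indicatorConstLp (by norm_num) (by norm_num), tbx_real _ _ (fun i => by linarith)]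
      simp only [add_sub_cancel_left, Finset.prod_const_one, Real.one_rpow, mul_one]
      rw [Complex.norm_real, Real.norm_of_nonneg (by positivity)]
    rw [← h1]
    apply Lp.norm_le_norm_of_ae_le
    filter_upwards [hqm.coeFn_toLp, indicatorConstLp_coeFn (p := 2) (hs := hBm) (hμs := hBt)
      (c := ((m ^ d : ℝ) : ℂ))] with x hx1 hx2
    rw [hx1, hx2]
    by_cases hx : x ∈ tbx lo (fun i => lo i + 1)
    · rw [Set.indicator_of_mem hx]
      simp only [hφ]
      rw [Complex.norm_real, Complex.norm_real, Real.norm_of_nonneg (by positivity)]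
      refine le_trans ?_ (le_abs_self _)
      calc m ^ d = ∏ _i : Fin d, m := by simp
        _ ≤ ∏ i, f i (x i) := Finset.prod_le_prod (fun _ _ => hm.le)
          (fun i _ => hlow i _ (hx i).1 (hx i).2)
    · rw [Set.indicator_of_notMem hx, norm_zero]
      exact norm_nonneg _
  · have h1 : ‖indicatorConstLp 2 hTm hTt (S : ℂ)‖ = S * (∏ i, (2 * h i)) ^ (1 / 2 : ℝ) := by
      rw [norm_indicatorConstLp (by norm_num) (by norm_num),
        tbx_real _ _ (fun i => by linarith [hh i]), Complex.norm_real, Real.norm_of_nonneg hS0]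
      congr 2
      exact Finset.prod_congr rfl fun i _ => by ring
    rw [← h1]
    apply Lp.norm_le_norm_of_ae_le
    filter_upwards [hmem.coeFn_toLp, indicatorConstLp_coeFn (p := 2) (hs := hTm) (hμs := hTt)
      (c := (S : ℂ))] with x hx1 hx2
    rw [hx1, hx2]
    exact hle x


theorem tb_lim0 (s : ℝ) (hs : 0 < s) : Tendsto (fun κ : ℝ => κ ^ s) (𝓝[>] 0) (𝓝 0) := by
  have h := (Real.continuousAt_rpow_const 0 s (Or.inr hs.le)).tendsto
  rw [Real.zero_rpow hs.ne'] at h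
  exact h.mono_left nhdsWithin_le_nhds

theorem tb_limInf (δ : ℝ) (hδ : 0 < δ) : Tendsto (fun κ : ℝ => κ ^ (-δ)) (𝓝[>] 0) atTop := by
  have h1 : Tendsto (fun κ : ℝ => κ ^ δ) (𝓝[>] 0) (𝓝[>] 0) := by
    rw [tendsto_nhdsWithin_iff]
    refine ⟨tb_lim0 δ hδ, ?_⟩
    filter_upwards [self_mem_nhdsWithin] with κ hκ
    exact Real.rpow_pos_of_pos hκ δ
  have h2 := tendsto_inv_nhdsGT_zero.comp h1
  refine h2.congr' ?_
  filter_upwards [self_mem_nhdsWithin] with κ hκ
  rw [Function.comp_apply, Real.rpow_neg (le_of_lt hκ)]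

theorem tb_ev (s C : ℝ) (hs : 0 < s) (η : ℝ) (hη : 0 < η) :
    ∀ᶠ κ : ℝ in 𝓝[>] 0, C * κ ^ s ≤ η := by
  have h := (tb_lim0 s hs).const_mul C
  rw [mul_zero] at h
  exact (h.eventually (gt_mem_nhds hη)).mono fun _ h => h.le

theorem tb_evexp (δ : ℝ) (hδ : 0 < δ) (s c K : ℝ) (hc : 0 < c) (η : ℝ) (hη : 0 < η) :
    ∀ᶠ κ : ℝ in 𝓝[>] 0, K * ((κ ^ (-δ)) ^ s * Real.exp (-(c * κ ^ (-δ)))) ≤ η := by
  have h1 := ((tendsto_rpow_mul_exp_neg_mul_atTop_nhds_zero s c hc).comp (tb_limInf δ hδ)).const_mul K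
  rw [mul_zero] at h1
  filter_upwards [h1.eventually (gt_mem_nhds hη)] with κ hκ
  refine le_trans (le_of_eq ?_) hκ.le
  simp only [Function.comp_apply]
  rw [neg_mul]

theorem tb_rho (δ κ : ℝ) (hκ : 0 < κ) : κ * (κ ^ (-(1 + δ) / 2)) ^ 2 = κ ^ (-δ) := by
  rw [← Real.rpow_natCast, ← Real.rpow_mul hκ.le]
  nth_rewrite 1 [← Real.rpow_one κ]
  rw [← Real.rpow_add hκ]
  congr 1
  push_cast
  ring

theorem tb_vol (d : ℕ) (δ κ : ℝ) (hκ : 0 < κ) :
    (4 * κ ^ (-(1 + δ) / 2)) ^ d * κ ^ (-(1 + δ) / 2) =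
      4 ^ d * κ ^ (-((1 + δ) * ((d : ℝ) + 1) / 2)) := by
  rw [mul_pow, mul_assoc, ← pow_succ, ← Real.rpow_natCast (κ ^ (-(1 + δ) / 2)) (d + 1),
    ← Real.rpow_mul hκ.le]
  congr 2
  push_cast
  ring

theorem tube (d : ℕ) (hd : 1 ≤ d) (p : ℝ) (hp : ((d : ℝ) + 1) / 2 < p) (D : ℕ) :
    ∃ (a κ₁ : ℝ), 0 < a ∧ 0 < κ₁ ∧ κ₁ < 1 / 100 ∧ ∀ κ : ℝ, 0 < κ → κ < κ₁ →
      ∃ V : EE d → ℂ, Measurable V ∧ (∀ x, ‖V x‖ ≤ 1 / 4) ∧ (∀ x, κ⁻¹ ^ 2 < ‖x‖ → V x = 0) ∧
        (∀ x, (V x).im ≤ κ) ∧ (∫ x, ‖V x‖ ^ p) ≤ κ ^ a ∧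
        ∀ g : ℝ, 1 ≤ g → g ≤ 4 → ∃ (x₀ : ℝ) (φ : EE d → ℂ) (q r : HH d), 3 / 4 ≤ x₀ ∧ x₀ ≤ 3 / 2 ∧
          IsTest φ ∧ q ≠ 0 ∧ (q : EE d → ℂ) =ᵐ[volume] φ ∧
          ((r : EE d → ℂ) =ᵐ[volume] fun x =>
            -(Δ φ) x + (g : ℂ) * V x * φ x - ((x₀ : ℂ) + ((g * κ : ℝ) : ℂ) * I) * φ x) ∧
          ‖r‖ ≤ κ ^ D * ‖q‖ := by
  classical
  obtain ⟨v, c, C, κ₀, hvs, hvb, hc, hC, hκ₀, hlong⟩ := long_mode
  obtain ⟨C', hC', htrans⟩ := trans_mode
  have hd1 : (1 : ℝ) ≤ (d : ℝ) := by exact_mod_cast hd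
  set e' : ℝ := p - ((d : ℝ) + 1) / 2 with he'
  have he0 : 0 < e' := by rw [he']; linarith
  have hp0 : 0 < p := by linarith
  set δ : ℝ := e' / (2 * (p + ((d : ℝ) + 1) / 2)) with hδdef
  have hden : 0 < 2 * (p + ((d : ℝ) + 1) / 2) := by positivity
  have hδ0 : 0 < δ := div_pos he0 hden
  have hδ1 : δ < 1 / 2 := by
    rw [hδdef, div_lt_iff₀ hden, he']
    linarith
  have hδe : (1 - δ) * p - (1 + δ) * ((d : ℝ) + 1) / 2 = e' / 2 := by
    have h1 : δ * (2 * (p + ((d : ℝ) + 1) / 2)) = e' := by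
      rw [hδdef, div_mul_cancel₀ _ hden.ne']
    have h2 : (1 - δ) * p - (1 + δ) * ((d : ℝ) + 1) / 2 =
      (p - ((d : ℝ) + 1) / 2) - (δ * (2 * (p + ((d : ℝ) + 1) / 2))) / 2 := by ring
    rw [h2, h1, ← he']
    ring
  set M : ℝ := max C 1 with hM
  have hM1 : 1 ≤ M := le_max_right _ _
  have hM0 : 0 < M := by linarith
  -- the conditions
  have ev : ∀ᶠ κ : ℝ in 𝓝[>] 0, 0 < κ ∧ κ < κ₀ ∧ κ < 1 / 100 ∧ 2 ≤ κ ^ (-(1 + δ) / 2) ∧
      6 * d * κ ^ (1 - δ) ≤ 1 / 4 ∧
      (6 * d * κ ^ (1 - δ)) ^ p * ((4 * κ ^ (-(1 + δ) / 2)) ^ d * κ ^ (-(1 + δ) / 2)) ≤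
        κ ^ (e' / 4) ∧
      d * (C * Real.exp (-(c * κ * (κ ^ (-(1 + δ) / 2)) ^ 2)) +
        C' * Real.exp (-(κ * (κ ^ (-(1 + δ) / 2)) ^ 2 / 2))) * M ^ d *
        ((4 * κ ^ (-(1 + δ) / 2)) ^ d * κ ^ (-(1 + δ) / 2)) ≤ κ ^ D * (1 / 8) ^ d := by
    have i1 : ∀ᶠ κ : ℝ in 𝓝[>] 0, κ < κ₀ :=
      (gt_mem_nhds hκ₀ : ∀ᶠ κ : ℝ in 𝓝 0, κ < κ₀).filter_mono nhdsWithin_le_nhds
    have i2 : ∀ᶠ κ : ℝ in 𝓝[>] 0, κ < 1 / 100 :=
      (gt_mem_nhds (by norm_num) : ∀ᶠ κ : ℝ in 𝓝 0, κ < 1 / 100).filter_mono nhdsWithin_le_nhds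
    have i3 : ∀ᶠ κ : ℝ in 𝓝[>] 0, 2 ≤ κ ^ (-((1 + δ) / 2)) :=
      (tb_limInf ((1 + δ) / 2) (by positivity)).eventually_ge_atTop 2
    have i4 := tb_ev (1 - δ) (6 * d) (by linarith) (1 / 4) (by norm_num)
    have i5 := tb_ev (e' / 4) ((6 * d) ^ p * 4 ^ d) (by positivity) 1 one_pos
    set s : ℝ := (1 + δ) * ((d : ℝ) + 1) / 2 + D with hs
    have i6 := tb_evexp δ hδ0 (s / δ) c (d * C * M ^ d * 4 ^ d) hc ((1 / 8) ^ d / 2) (by positivity)
    have i7 := tb_evexp δ hδ0 (s / δ) (1 / 2) (d * C' * M ^ d * 4 ^ d) (by norm_num)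
      ((1 / 8) ^ d / 2) (by positivity)
    filter_upwards [self_mem_nhdsWithin, i1, i2, i3, i4, i5, i6, i7] with κ j0 j1 j2 j3 j4 j5 j6 j7
    have hκ : 0 < κ := j0
    refine ⟨hκ, j1, j2, ?_, j4, ?_, ?_⟩
    · rw [neg_div]
      exact j3
    · rw [tb_vol d δ κ hκ, Real.mul_rpow (by positivity) (by positivity), ← Real.rpow_mul hκ.le]
      have e1 : (6 * (d : ℝ)) ^ p * κ ^ ((1 - δ) * p) *
          (4 ^ d * κ ^ (-((1 + δ) * ((d : ℝ) + 1) / 2))) =
          ((6 * (d : ℝ)) ^ p * 4 ^ d * κ ^ (e' / 4)) * κ ^ (e' / 4) := by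
        have : κ ^ ((1 - δ) * p) * κ ^ (-((1 + δ) * ((d : ℝ) + 1) / 2)) =
            κ ^ (e' / 4) * κ ^ (e' / 4) := by
          rw [← Real.rpow_add hκ, ← Real.rpow_add hκ]
          congr 1
          linarith
        calc _ = (6 * (d : ℝ)) ^ p * 4 ^ d *
            (κ ^ ((1 - δ) * p) * κ ^ (-((1 + δ) * ((d : ℝ) + 1) / 2))) := by ring
          _ = _ := by rw [this]; ring
      rw [e1]
      have : 0 ≤ κ ^ (e' / 4) := by positivity
      nlinarith
    · rw [tb_vol d δ κ hκ, show c * κ * (κ ^ (-(1 + δ) / 2)) ^ 2 =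
        c * (κ * (κ ^ (-(1 + δ) / 2)) ^ 2) by ring, tb_rho δ κ hκ]
      have e2 : κ ^ (-((1 + δ) * ((d : ℝ) + 1) / 2)) = (κ ^ (-δ)) ^ (s / δ) * κ ^ D := by
        rw [← Real.rpow_mul hκ.le, ← Real.rpow_natCast κ D, ← Real.rpow_add hκ]
        congr 1
        rw [hs]
        field_simp
        ring
      rw [e2]
      have e3 : Real.exp (-(κ ^ (-δ) / 2)) = Real.exp (-(1 / 2 * κ ^ (-δ))) := by
        congr 1
        ring
      rw [e3]
      have hD0 : 0 < κ ^ D := by positivity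
      have e4 : ↑d * (C * Real.exp (-(c * κ ^ (-δ))) + C' * Real.exp (-(1 / 2 * κ ^ (-δ)))) * M ^ d *
          (4 ^ d * ((κ ^ (-δ)) ^ (s / δ) * κ ^ D)) =
          (d * C * M ^ d * 4 ^ d * ((κ ^ (-δ)) ^ (s / δ) * Real.exp (-(c * κ ^ (-δ)))) +
           d * C' * M ^ d * 4 ^ d * ((κ ^ (-δ)) ^ (s / δ) * Real.exp (-(1 / 2 * κ ^ (-δ))))) *
            κ ^ D := by ring
      rw [e4, mul_comm (κ ^ D)]
      apply mul_le_mul_of_nonneg_right _ hD0.le
      linarith
  obtain ⟨κ₂, hκ₂, hsub⟩ := mem_nhdsGT_iff_exists_Ioo_subset.mp ev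
  refine ⟨e' / 4, min κ₂ (1 / 200), by positivity, lt_min hκ₂ (by norm_num),
    (min_le_right _ _).trans_lt (by norm_num), fun κ hκ0 hκlt => ?_⟩
  obtain ⟨hκ, c1, c2, c3, c4, c5, c6⟩ := hsub ⟨hκ0, hκlt.trans_le (min_le_left _ _)⟩
  set ρ : ℝ := κ ^ (-(1 + δ) / 2) with hρ
  have hρ0 : 0 < ρ := by linarith
  have hκρ : κ * ρ ^ 2 = κ ^ (-δ) := tb_rho δ κ hκ
  have hκρ2 : κ ^ 2 * ρ ^ 2 = κ ^ (1 - δ) := by
    have : κ ^ 2 * ρ ^ 2 = κ * (κ * ρ ^ 2) := by ring
    rw [this, hκρ]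
    nth_rewrite 1 [← Real.rpow_one κ]
    rw [← Real.rpow_add hκ]
    congr 1
  have hκle : κ ≤ κ ^ (1 - δ) := by
    have h1 := Real.rpow_le_rpow_of_exponent_ge hκ (by linarith : κ ≤ 1) (by linarith : 1 - δ ≤ 1)
    rwa [Real.rpow_one] at h1
  set i₀ : Fin d := ⟨0, hd⟩ with hi₀
  set W : Fin d → ℝ → ℝ := fun i t => if i = i₀ then κ * v t else κ ^ 2 * t ^ 2 with hWdef
  set h : Fin d → ℝ := fun i => 2 * ρ * (if i = i₀ then ρ else 1) with hhdef
  have hh0 : ∀ i, 0 ≤ h i := by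
    intro i
    simp only [hhdef]
    split_ifs <;> positivity
  have hWc : ∀ i, Continuous (W i) := by
    intro i
    simp only [hWdef]
    split_ifs
    · exact continuous_const.mul hvs.continuous
    · fun_prop
  have hprod : ∏ i, (2 * h i) = (4 * ρ) ^ d * ρ := by
    have : ∀ i, 2 * h i = (4 * ρ) * (if i = i₀ then ρ else 1) := by
      intro i
      simp only [hhdef]
      ring
    simp only [this]
    rw [Finset.prod_mul_distrib, Finset.prod_const, Finset.card_univ, Fintype.card_fin,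
      Finset.prod_ite_eq' Finset.univ i₀ (fun _ => ρ), if_pos (Finset.mem_univ _)]
  set B : ℝ := 6 * d * κ ^ (1 - δ) with hB
  have hB0 : 0 ≤ B := by positivity
  set T : Set (EE d) := tbx (fun i => -h i) h with hT
  have hTm : MeasurableSet T := tbx_meas _ _
  have hTt : volume T ≠ ⊤ := tbx_ne_top _ _
  set V : EE d → ℂ := T.indicator (fun x => ((∑ i, W i (x i) : ℝ) : ℂ) + (κ : ℂ) * I) with hV
  have hWb : ∀ x ∈ T, |∑ i, W i (x i)| ≤ κ + 4 * d * κ ^ (1 - δ) := by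
    intro x hx
    refine (Finset.abs_sum_le_sum_abs _ _).trans ?_
    have h1 : ∀ i ∈ (Finset.univ : Finset (Fin d)), |W i (x i)| ≤
        (if i = i₀ then κ else 0) + 4 * κ ^ (1 - δ) := by
      intro i _
      have hxi := abs_le.mpr (hx i)
      simp only [hWdef, hhdef] at hxi ⊢
      have hpos : 0 ≤ κ ^ (1 - δ) := by positivity
      split_ifs with hi
      · rw [abs_mul, abs_of_pos hκ]
        have := hvb (x i)
        nlinarith
      · rw [if_neg hi, mul_one] at hxi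
        rw [abs_of_nonneg (by positivity), ← hκρ2]
        have h2 : x i ^ 2 ≤ (2 * ρ) ^ 2 := by
          rw [← sq_abs (x i)]
          exact pow_le_pow_left₀ (abs_nonneg _) hxi 2
        have h3 : κ ^ 2 * x i ^ 2 ≤ κ ^ 2 * (2 * ρ) ^ 2 := mul_le_mul_of_nonneg_left h2 (by positivity)
        nlinarith
    refine (Finset.sum_le_sum h1).trans ?_
    rw [Finset.sum_add_distrib, Finset.sum_ite_eq' Finset.univ i₀ (fun _ => κ),
      if_pos (Finset.mem_univ _), Finset.sum_const, Finset.card_univ, Fintype.card_fin,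
      nsmul_eq_mul]
    linarith
  have hVb : ∀ x, ‖V x‖ ≤ T.indicator (fun _ => B) x := by
    intro x
    by_cases hx : x ∈ T
    · rw [hV, Set.indicator_of_mem hx, Set.indicator_of_mem hx]
      refine (norm_add_le _ _).trans ?_
      rw [Complex.norm_real, Real.norm_eq_abs, norm_mul, Complex.norm_I, mul_one, Complex.norm_real,
        Real.norm_of_nonneg hκ.le, hB]
      have h1 := hWb x hx
      have h2 : κ ^ (1 - δ) ≤ d * κ ^ (1 - δ) := by
        have : 0 ≤ κ ^ (1 - δ) := by positivity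
        nlinarith
      linarith
    · rw [hV, Set.indicator_of_notMem hx, Set.indicator_of_notMem hx, norm_zero]
  have hVB : ∀ x, ‖V x‖ ≤ B := fun x => (hVb x).trans (Set.indicator_le_self' (fun _ _ => hB0) x)
  refine ⟨V, ?_, ?_, ?_, ?_, ?_, ?_⟩
  · apply Measurable.indicator _ hTm
    have : Continuous (fun x : EE d => ((∑ i, W i (x i) : ℝ) : ℂ) + (κ : ℂ) * I) := by
      apply Continuous.add _ continuous_const
      apply Complex.continuous_ofReal.comp
      apply continuous_finsetSum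
      intro i _
      exact (hWc i).comp (by fun_prop)
    exact this.measurable
  · exact fun x => (hVB x).trans c4
  · intro x hx
    rw [hV]
    apply Set.indicator_of_notMem
    intro hxT
    have h1 : ‖x‖ ≤ ∑ i, |x i| := by
      rw [EuclideanSpace.norm_eq, Real.sqrt_le_iff]
      refine ⟨Finset.sum_nonneg fun i _ => abs_nonneg _, ?_⟩
      simp only [Real.norm_eq_abs]
      exact Finset.sum_sq_le_sq_sum_of_nonneg (fun i _ => abs_nonneg _)
    have h2 : ∑ i, |x i| ≤ ∑ _i : Fin d, 2 * ρ ^ 2 := by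
      apply Finset.sum_le_sum
      intro i _
      refine (abs_le.mpr (hxT i)).trans ?_
      simp only [hhdef]
      split_ifs
      · linarith
      · nlinarith
    rw [Finset.sum_const, Finset.card_univ, Fintype.card_fin, nsmul_eq_mul] at h2
    have h3 : κ ^ 2 * (d * (2 * ρ ^ 2)) ≤ 1 := by
      have : κ ^ 2 * (d * (2 * ρ ^ 2)) = 2 * d * (κ ^ 2 * ρ ^ 2) := by ring
      rw [this, hκρ2]
      linarith
    have h4 : d * (2 * ρ ^ 2) ≤ κ⁻¹ ^ 2 := by
      rw [inv_pow, ← one_div, le_div_iff₀ (by positivity)]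
      linarith
    linarith
  · intro x
    by_cases hx : x ∈ T
    · rw [hV, Set.indicator_of_mem hx]
      simp
    · rw [hV, Set.indicator_of_notMem hx]
      simpa using hκ.le
  · have h1 : ∫ x, ‖V x‖ ^ p ≤ ∫ x, T.indicator (fun _ => B ^ p) x := by
      apply integral_mono_of_nonneg
      · exact Filter.Eventually.of_forall fun x => by positivity
      · exact (integrable_indicator_iff hTm).mpr (integrableOn_const hTt)
      · refine Filter.Eventually.of_forall fun x => ?_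
        show ‖V x‖ ^ p ≤ T.indicator (fun _ => B ^ p) x
        by_cases hx : x ∈ T
        · rw [Set.indicator_of_mem hx]
          exact Real.rpow_le_rpow (norm_nonneg _) (hVB x) hp0.le
        · rw [hV, Set.indicator_of_notMem hx, Set.indicator_of_notMem hx, norm_zero,
            Real.zero_rpow hp0.ne']
    refine h1.trans ?_
    rw [integral_indicator_const _ hTm, hT, tbx_real _ _ (fun i => by linarith [hh0 i])]
    have h2 : ∏ i, (h i - -h i) = ∏ i, (2 * h i) := Finset.prod_congr rfl fun i _ => by ring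
    rw [h2, hprod, smul_eq_mul, mul_comm]
    exact c5
  · intro g hg1 hg4
    obtain ⟨E, U₀, hE1, hE2, hU0s, hU0z, hU0b, hU0e, hU0l⟩ :=
      hlong κ g (ρ ^ 2) hκ c1 hg1 hg4 (by nlinarith)
    obtain ⟨U, hUs, hUz, hUb, hUe, hUl⟩ := htrans κ g ρ hκ (by linarith) hg1 hg4 c3
    set ε : ℝ := C * Real.exp (-(c * κ * ρ ^ 2)) + C' * Real.exp (-(κ * ρ ^ 2 / 2)) with hε
    have hε1 : 0 ≤ C * Real.exp (-(c * κ * ρ ^ 2)) := by positivity
    have hε2 : 0 ≤ C' * Real.exp (-(κ * ρ ^ 2 / 2)) := by positivity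
    set Ev : Fin d → ℝ := fun i => if i = i₀ then E else Real.sqrt g * κ with hEv
    obtain ⟨φ, q, r, k1, k2, k3, k4, k5⟩ := tb_core d (fun i => if i = i₀ then U₀ else U) W Ev h
      κ g ε M
      (by intro i; split_ifs; exacts [hU0s, hUs]) hWc
      (by
        intro i x hx
        simp only [hhdef] at hx ⊢
        split_ifs at hx ⊢ with hi
        · exact hU0z x (by linarith)
        · exact hUz x (by linarith))
      hM1
      (by
        intro i x
        split_ifs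
        · exact (hU0b x).trans (le_max_left _ _)
        · exact (hUb x).trans hM1)
      (by positivity)
      (by
        intro i x
        simp only [hWdef, hEv]
        split_ifs
        · have h1 := hU0e x
          rw [show g * (κ * v x) * U₀ x = g * κ * v x * U₀ x by ring]
          linarith
        · have h1 := hUe x
          rw [show g * (κ ^ 2 * x ^ 2) * U x = g * κ ^ 2 * x ^ 2 * U x by ring]
          linarith)
      hh0 (fun i => if i = i₀ then 1 else 0) (1 / 8) (by norm_num)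
      (by
        intro i x hx1 hx2
        split_ifs at hx1 hx2 ⊢ with hi
        · have := hU0l x hx1 (by linarith)
          linarith
        · exact hUl x hx1 (by linarith))
      V
      (by
        intro x hx
        have hxT : x ∈ T := fun i => abs_le.mp (hx i)
        rw [hV, Set.indicator_of_mem hxT])
    have hsg : Real.sqrt g ≤ 2 := by
      rw [show (2:ℝ) = Real.sqrt 4 by
        rw [show (4:ℝ) = 2 ^ 2 by norm_num]
        exact (Real.sqrt_sq (by norm_num)).symm]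
      exact Real.sqrt_le_sqrt hg4
    have hsg0 : 0 ≤ Real.sqrt g := Real.sqrt_nonneg g
    have hEv0 : ∀ i, 0 ≤ Ev i := by
      intro i
      simp only [hEv]
      split_ifs
      · linarith
      · positivity
    refine ⟨∑ i, Ev i, φ, q, r, ?_, ?_, k1, ?_, k2, k3, ?_⟩
    · have h1 : Ev i₀ ≤ ∑ i, Ev i :=
        Finset.single_le_sum (fun i _ => hEv0 i) (Finset.mem_univ i₀)
      have h2 : Ev i₀ = E := by simp only [hEv, if_true]
      rw [h2] at h1
      linarith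
    · have h1 : ∀ i ∈ (Finset.univ : Finset (Fin d)), Ev i ≤ (if i = i₀ then 6 / 5 else 0) + 2 * κ := by
        intro i _
        simp only [hEv]
        split_ifs
        · linarith
        · nlinarith
      refine (Finset.sum_le_sum h1).trans ?_
      rw [Finset.sum_add_distrib, Finset.sum_ite_eq' Finset.univ i₀ (fun _ => (6 / 5 : ℝ)),
        if_pos (Finset.mem_univ _), Finset.sum_const, Finset.card_univ, Fintype.card_fin,
        nsmul_eq_mul]
      have h2 : (d : ℝ) * κ ≤ d * κ ^ (1 - δ) := mul_le_mul_of_nonneg_left hκle (by positivity)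
      linarith
    · intro hq
      rw [hq, norm_zero] at k4
      have : (0:ℝ) < (1 / 8) ^ d := by positivity
      linarith
    · have hv1 : 1 ≤ ∏ i, (2 * h i) := by
        rw [hprod]
        have h1 : (1:ℝ) ≤ (4 * ρ) ^ d := one_le_pow₀ (by linarith)
        nlinarith
      have h2 : (∏ i, (2 * h i)) ^ (1 / 2 : ℝ) ≤ ∏ i, (2 * h i) := by
        have := Real.rpow_le_rpow_of_exponent_le hv1 (show (1 / 2 : ℝ) ≤ 1 by norm_num)
        rwa [Real.rpow_one] at this
      have h3 : 0 ≤ (d : ℝ) * ε * M ^ d := by positivity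
      calc ‖r‖ ≤ (d * ε * M ^ d) * (∏ i, (2 * h i)) ^ (1 / 2 : ℝ) := k5
        _ ≤ (d * ε * M ^ d) * ∏ i, (2 * h i) := mul_le_mul_of_nonneg_left h2 h3
        _ = d * ε * M ^ d * ((4 * ρ) ^ d * ρ) := by rw [hprod]
        _ ≤ κ ^ D * (1 / 8) ^ d := c6
        _ ≤ κ ^ D * ‖q‖ := mul_le_mul_of_nonneg_left k4 (by positivity)

end

end KRS
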