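import Pool.Agent.H631.KR.Defs
import Pool.Agent.H631.KR.B12
import Pool.Agent.H631.KR.B29
import Pool.Agent.H631.KR.K00

open MeasureTheory Filter Topology ENNReal Complex
open scoped Laplacian FourierTransform InnerProductSpace

namespace KRS

noncomputable section

/-! TARGET: prove the following -/

theorem single_block_mulOp {d : ℕ} (g : ℝ) (V : EE d → ℂ) (hm : Measurable V) (C : ℝ)
    (hC : ∀ x, ‖V x‖ ≤ C) : mulOp (fun x => (g : ℂ) * V x) = (g : ℂ) • mulOp V := by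
  ext1 f
  apply Lp.ext
  have h1 := mulOp_ae (fun x => (g : ℂ) * V x) (measurable_const.mul hm) (|g| * C) (fun x => by
    rw [norm_mul, Complex.norm_real, Real.norm_eq_abs]
    exact mul_le_mul_of_nonneg_left (hC x) (abs_nonneg g)) f
  have h2 := mulOp_ae V hm C hC f
  have h3 : (((g : ℂ) • mulOp V) f : HH d) = (g : ℂ) • (mulOp V f) := rfl
  rw [h3]
  filter_upwards [h1, h2, Lp.coeFn_smul (g : ℂ) (mulOp V f)] with x hx1 hx2 hx3
  rw [hx1, hx3, Pi.smul_apply, hx2, smul_eq_mul, mul_assoc]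

theorem single_block (d : ℕ) (hd : 1 ≤ d) (p : ℝ) (hp : ((d : ℝ) + 1) / 2 < p) :
    ∃ (a κ₁ : ℝ), 0 < a ∧ 0 < κ₁ ∧ κ₁ < 1 / 100 ∧ ∀ κ : ℝ, 0 < κ → κ < κ₁ →
      ∃ V : EE d → ℂ, BV V ∧ (∀ x, κ⁻¹ ^ 2 < ‖x‖ → V x = 0) ∧ (∫ x, ‖V x‖ ^ p) ≤ κ ^ a ∧
        ∀ g : ℝ, 1 ≤ g → g ≤ 4 →
          ∃ z : ℂ, 1 / 2 < z.re ∧ z.re < 2 ∧ κ / 5 < z.im ∧ z.im < 1 ∧ ¬ IsUnit (AA d g V z) := by
  obtain ⟨C, D, hC, spec⟩ := block_spec d hd
  obtain ⟨a, κ₁, ha, hκ₁, hκ₁', H⟩ := tube d hd p hp (4 * D + 4)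
  have hC0 : 0 < C := by linarith
  refine ⟨a, min κ₁ (1 / C), ha, lt_min hκ₁ (by positivity), lt_of_le_of_lt (min_le_left _ _) hκ₁', ?_⟩
  intro κ hκ hκlt
  have hκa : κ < κ₁ := lt_of_lt_of_le hκlt (min_le_left _ _)
  have hκb : κ < 1 / C := lt_of_lt_of_le hκlt (min_le_right _ _)
  obtain ⟨V, hVm, hV1, hV0, hVi, hVp, hVg⟩ := H κ hκ hκa
  refine ⟨V, ⟨hVm, ⟨_, hV1⟩, ⟨_, hV0⟩⟩, hV0, hVp, ?_⟩
  intro g hg1 hg4
  obtain ⟨x₀, φ, q, r, hx1, hx2, hφ, hq0, hqφ, hr, hrn⟩ := hVg g hg1 hg4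
  have hκ1 : κ < 1 / 100 := by linarith
  have hgκ : g * κ ≤ 4 * κ := mul_le_mul_of_nonneg_right hg4 hκ.le
  have hgκ' : κ ≤ g * κ := by nlinarith
  have hL : (1 : ℝ) ≤ κ⁻¹ ^ 2 := by
    have : (1 : ℝ) ≤ κ⁻¹ := by
      rw [le_inv_comm₀ one_pos hκ, inv_one]; linarith
    exact one_le_pow₀ this
  have hbase : κ ^ 4 ≤ g * κ / (C * κ⁻¹ ^ 2) := by
    rw [le_div_iff₀ (by positivity)]
    have h1 : κ ^ 4 * (C * κ⁻¹ ^ 2) = κ * (κ * C) := by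
      field_simp
    rw [h1]
    have h2 : κ * C ≤ 1 := by
      rw [lt_div_iff₀ hC0] at hκb
      exact hκb.le
    have h3 : κ * (κ * C) ≤ κ * 1 := mul_le_mul_of_nonneg_left h2 hκ.le
    linarith
  have he0 : κ ^ (4 * D + 4) ≤ (g * κ / (C * κ⁻¹ ^ 2)) ^ D := by
    calc κ ^ (4 * D + 4) = (κ ^ 4) ^ D * κ ^ 4 := by rw [pow_add, pow_mul]
      _ ≤ (κ ^ 4) ^ D * 1 := by
          apply mul_le_mul_of_nonneg_left _ (by positivity)
          exact pow_le_one₀ hκ.le (by linarith)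
      _ = (κ ^ 4) ^ D := mul_one _
      _ ≤ _ := pow_le_pow_left₀ (by positivity) hbase D
  obtain ⟨z, hz1, hz2, hz3, hz4⟩ := spec (κ⁻¹ ^ 2) (g * κ) x₀ (κ ^ (4 * D + 4))
    (fun x => (g : ℂ) * V x) φ q r hL (by positivity) (by linarith) hx1 hx2
    (measurable_const.mul hVm) (fun x => by
      rw [norm_mul, Complex.norm_real, Real.norm_eq_abs, abs_of_nonneg (by linarith : (0 : ℝ) ≤ g)]
      have := hV1 x
      have h0 := norm_nonneg (V x)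
      nlinarith) (fun x hx => by rw [hV0 x hx, mul_zero]) (fun x => by
      rw [Complex.im_ofReal_mul]
      exact mul_le_mul_of_nonneg_left (hVi x) (by linarith)) hφ hq0 hqφ hr hrn he0
  rw [abs_lt] at hz1
  refine ⟨z, by linarith [hz1.1], by linarith [hz1.2], by linarith, by linarith, ?_⟩
  have hAA : AA d g V z = AA d 1 (fun x => (g : ℂ) * V x) z := by
    unfold AA
    rw [single_block_mulOp g V hVm _ hV1, ContinuousLinearMap.smul_comp]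
    simp
  rw [hAA]
  exact hz4

end

end KRS
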