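import Pool.Agent.H631.KR.Defs

open MeasureTheory Filter Topology ENNReal Complex
open scoped Laplacian FourierTransform InnerProductSpace

namespace KRS

noncomputable section

/-! TARGET: prove the following -/

theorem dil_ok (d : ℕ) (V : EE d → ℂ) (hV : Measurable V) (k e : ℝ) (hk : 0 < k) (he : 0 < e) (p : ℝ)
    (hp : 0 < p) (hVp : Integrable (fun x => ‖V x‖ ^ p)) (S : Set (EE d)) (hS : MeasurableSet S) :
    Measurable (fun x => V (k⁻¹ • x) / (e : ℂ)) ∧
    Integrable (fun x => ‖V (k⁻¹ • x) / (e : ℂ)‖ ^ p) ∧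
    (∫ x in {x : EE d | k⁻¹ • x ∈ S}, ‖V (k⁻¹ • x) / (e : ℂ)‖ ^ p) =
      e ^ (-p) * k ^ (d : ℝ) * ∫ x in S, ‖V x‖ ^ p := by
  have hpt : ∀ x : EE d, ‖V (k⁻¹ • x) / (e : ℂ)‖ ^ p = e ^ (-p) * ‖V (k⁻¹ • x)‖ ^ p := by
    intro x
    rw [norm_div, Complex.norm_real, Real.norm_eq_abs, abs_of_pos he,
      Real.div_rpow (norm_nonneg _) he.le, Real.rpow_neg he.le]
    field_simp
  have hk' : k⁻¹ ≠ 0 := inv_ne_zero hk.ne'
  refine ⟨(hV.comp (measurable_const_smul k⁻¹)).div_const _, ?_, ?_⟩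
  · simp only [hpt]
    exact (hVp.comp_smul hk').const_mul _
  · have hT : MeasurableSet {x : EE d | k⁻¹ • x ∈ S} := (measurable_const_smul k⁻¹) hS
    rw [← integral_indicator hT]
    have hind : ∀ x : EE d, ({x : EE d | k⁻¹ • x ∈ S}).indicator
        (fun x => ‖V (k⁻¹ • x) / (e : ℂ)‖ ^ p) x =
        e ^ (-p) * (S.indicator (fun x => ‖V x‖ ^ p) (k⁻¹ • x)) := by
      intro x
      by_cases hx : k⁻¹ • x ∈ S
      · rw [Set.indicator_of_mem (show x ∈ {x : EE d | k⁻¹ • x ∈ S} from hx),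
          Set.indicator_of_mem hx, hpt]
      · rw [Set.indicator_of_notMem (show x ∉ {x : EE d | k⁻¹ • x ∈ S} from hx),
          Set.indicator_of_notMem hx, mul_zero]
    simp only [hind]
    rw [integral_const_mul,
      Measure.integral_comp_smul volume (fun x => S.indicator (fun x => ‖V x‖ ^ p) x) k⁻¹,
      integral_indicator hS, finrank_euclideanSpace_fin, smul_eq_mul, inv_pow, inv_inv,
      abs_of_pos (by positivity), Real.rpow_natCast]
    ring

end

end KRS
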