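import Pool.Agent.H631.KR.Defs

open MeasureTheory Filter Topology ENNReal Complex
open scoped Laplacian FourierTransform InnerProductSpace

namespace KRS

noncomputable section

/-! TARGET: prove the following -/

theorem scale_weak_lap {d : ℕ} (k : ℝ) (φ : EE d → ℂ) (hφ : ContDiff ℝ (⊤ : ℕ∞) φ) (y : EE d) :
    (Δ (fun x => φ (k • x))) y = ((k : ℂ) ^ 2) * (Δ φ) (k • y) := by
  have hg : (fun x => φ (k • x)) = φ ∘ (k • ContinuousLinearMap.id ℝ (EE d)) := by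
    funext x
    simp
  have h2 : ContDiff ℝ 2 φ := by
    have h3 := contDiff_infty.1 hφ 2
    exact_mod_cast h3
  rw [hg, InnerProductSpace.laplacian_eq_iteratedFDeriv_stdOrthonormalBasis,
    InnerProductSpace.laplacian_eq_iteratedFDeriv_stdOrthonormalBasis]
  simp only [Finset.mul_sum]
  refine Finset.sum_congr rfl (fun i _ => ?_)
  rw [ContinuousLinearMap.iteratedFDeriv_comp_right (n := 2) _ h2 y (i := 2) le_rfl]
  rw [ContinuousMultilinearMap.compContinuousLinearMap_apply]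
  have h3 : (fun i_1 => (k • ContinuousLinearMap.id ℝ (EE d))
      (![(stdOrthonormalBasis ℝ (EE d)) i, (stdOrthonormalBasis ℝ (EE d)) i] i_1)) =
      fun i_1 => (fun _ : Fin 2 => k) i_1 •
        (![(stdOrthonormalBasis ℝ (EE d)) i, (stdOrthonormalBasis ℝ (EE d)) i] i_1) := by
    funext i_1
    simp
  rw [h3, ContinuousMultilinearMap.map_smul_univ]
  have h4 : (k • ContinuousLinearMap.id ℝ (EE d)) y = k • y := by simp
  rw [h4, Finset.prod_const, Finset.card_univ, Fintype.card_fin, Complex.real_smul]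
  push_cast
  rfl

theorem scale_weak_int {d : ℕ} (G : EE d → ℂ) (k : ℝ) :
    ∫ x : EE d, G (k • x) = |(k ^ Module.finrank ℝ (EE d))⁻¹| • ∫ y : EE d, G y :=
  Measure.integral_comp_smul (volume : Measure (EE d)) G k

theorem scale_weak_int2 {d : ℕ} (F G : EE d → ℂ) (k : ℝ) (h : ∀ x, F x = G (k • x)) :
    ∫ x : EE d, F x = |(k ^ Module.finrank ℝ (EE d))⁻¹| • ∫ y : EE d, G y := by
  rw [← scale_weak_int G k]
  exact integral_congr_ae (ae_of_all _ h)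

theorem scale_weak_qmp {d : ℕ} (k : ℝ) (hk : k ≠ 0) :
    Measure.QuasiMeasurePreserving (fun x : EE d => k • x) volume volume := by
  refine ⟨measurable_const_smul k, ?_⟩
  rw [Measure.map_addHaar_smul volume hk]
  exact Measure.smul_absolutelyContinuous

theorem scale_weak_test {d : ℕ} (k : ℝ) (hk : k ≠ 0) (φ : EE d → ℂ) (hφ : IsTest φ) :
    IsTest (fun x => φ (k • x)) := by
  refine ⟨hφ.1.comp (contDiff_const_smul k), ?_⟩
  exact hφ.2.comp_homeomorph (Homeomorph.smulOfNeZero k hk)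

theorem scale_weak_memLp {d : ℕ} (c : ℝ) (hc : c ≠ 0) (u : HH d) :
    MemLp (fun x : EE d => (u : EE d → ℂ) (c • x)) 2 volume := by
  have h1 : MemLp (u : EE d → ℂ) 2 (Measure.map (fun x : EE d => c • x) volume) := by
    rw [Measure.map_addHaar_smul volume hc]
    exact (Lp.memLp u).smul_measure ENNReal.ofReal_ne_top
  exact h1.comp_of_map (measurable_const_smul c).aemeasurable

theorem scale_weak (d : ℕ) (V : EE d → ℂ) (hV : Measurable V) (ħ : ℝ) (hħ : 0 < ħ) (E : ℂ) (hE : E ≠ 0)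
    (u : HH d) (hu : Integrable (fun x => ‖V x‖ * ‖(u : EE d → ℂ) x‖ ^ 2))
    (hw : ∀ φ : EE d → ℂ, IsTest φ →
      ∫ x, ((u : EE d → ℂ) x * (-((ħ : ℂ) ^ 2) * (Δ φ) x) + V x * (u : EE d → ℂ) x * φ x) =
        E * (∫ x, (u : EE d → ℂ) x * φ x)) :
    ∃ w : HH d, (w = 0 → u = 0) ∧
      Integrable (fun x => ‖V ((Real.sqrt ‖E‖ / ħ)⁻¹ • x) / ((‖E‖ : ℝ) : ℂ)‖ *
        ‖(w : EE d → ℂ) x‖ ^ 2) ∧
      ∀ φ : EE d → ℂ, IsTest φ →
        ∫ x, ((w : EE d → ℂ) x * (-(Δ φ) x) +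
          V ((Real.sqrt ‖E‖ / ħ)⁻¹ • x) / ((‖E‖ : ℝ) : ℂ) * (w : EE d → ℂ) x * φ x) =
          (E / ((‖E‖ : ℝ) : ℂ)) * (∫ x, (w : EE d → ℂ) x * φ x) := by
  have hE0 : 0 < ‖E‖ := norm_pos_iff.2 hE
  obtain ⟨k, hk⟩ : ∃ k : ℝ, k = Real.sqrt ‖E‖ / ħ := ⟨_, rfl⟩
  have hk0 : 0 < k := by
    rw [hk]
    exact div_pos (Real.sqrt_pos.2 hE0) hħ
  rw [← hk]
  have hkE : ħ ^ 2 * k ^ 2 = ‖E‖ := by
    rw [hk, div_pow, Real.sq_sqrt hE0.le]
    field_simp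
  have hc0 : k⁻¹ ≠ 0 := inv_ne_zero hk0.ne'
  have hmem := scale_weak_memLp k⁻¹ hc0 u
  have hwae : ((hmem.toLp _ : HH d) : EE d → ℂ) =ᵐ[volume] fun x => (u : EE d → ℂ) (k⁻¹ • x) :=
    hmem.coeFn_toLp
  have hEn : ((‖E‖ : ℝ) : ℂ) ≠ 0 := by exact_mod_cast hE0.ne'
  refine ⟨hmem.toLp _, ?_, ?_, ?_⟩
  · intro hw0
    have h1 : (fun x => (u : EE d → ℂ) (k⁻¹ • x)) =ᵐ[volume] 0 := by
      refine hwae.symm.trans ?_
      rw [hw0]
      exact Lp.coeFn_zero _ _ _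
    have h2 : ∀ᵐ x ∂(volume : Measure (EE d)), (u : EE d → ℂ) (k⁻¹ • (k • x)) = 0 :=
      (scale_weak_qmp k hk0.ne').ae h1
    apply (Lp.eq_zero_iff_ae_eq_zero).2
    filter_upwards [h2] with x hx
    rw [smul_smul, inv_mul_cancel₀ hk0.ne', one_smul] at hx
    exact hx
  · have h1 : Integrable (fun x : EE d => (fun y : EE d => ‖E‖⁻¹ * (‖V y‖ * ‖(u : EE d → ℂ) y‖ ^ 2))
        (k⁻¹ • x)) :=
      (integrable_comp_smul_iff volume _ hc0).2 (hu.const_mul _)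
    refine h1.congr ?_
    filter_upwards [hwae] with x hx
    rw [hx, norm_div, Complex.norm_real, norm_norm]
    ring
  · intro φ hφ
    have h1 := hw (fun x => φ (k • x)) (scale_weak_test k hk0.ne' φ hφ)
    simp_rw [scale_weak_lap k φ hφ.1] at h1
    have h2 : ∀ x : EE d, (u : EE d → ℂ) x * (-((ħ : ℂ) ^ 2) * (((k : ℂ) ^ 2) * (Δ φ) (k • x))) +
        V x * (u : EE d → ℂ) x * φ (k • x) =
        (fun y : EE d => ((‖E‖ : ℝ) : ℂ) * ((u : EE d → ℂ) (k⁻¹ • y) * (-(Δ φ) y) +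
          V (k⁻¹ • y) / ((‖E‖ : ℝ) : ℂ) * (u : EE d → ℂ) (k⁻¹ • y) * φ y)) (k • x) := by
      intro x
      simp only [smul_smul, inv_mul_cancel₀ hk0.ne', one_smul]
      have h3 : ((‖E‖ : ℝ) : ℂ) = (ħ : ℂ) ^ 2 * (k : ℂ) ^ 2 := by
        rw [← hkE]
        push_cast
        ring
      have h4 : ((‖E‖ : ℝ) : ℂ) * ((u : EE d → ℂ) x * (-(Δ φ) (k • x)) +
          V x / ((‖E‖ : ℝ) : ℂ) * (u : EE d → ℂ) x * φ (k • x)) =
          ((‖E‖ : ℝ) : ℂ) * ((u : EE d → ℂ) x * (-(Δ φ) (k • x))) +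
          V x * (u : EE d → ℂ) x * φ (k • x) := by
        field_simp
      rw [h4, h3]
      ring
    have h5 : ∀ x : EE d, (u : EE d → ℂ) x * φ (k • x) =
        (fun y : EE d => (u : EE d → ℂ) (k⁻¹ • y) * φ y) (k • x) := by
      intro x
      simp only [smul_smul, inv_mul_cancel₀ hk0.ne', one_smul]
    have e1 : ∫ x : EE d, ((u : EE d → ℂ) x * (-((ħ : ℂ) ^ 2) * (((k : ℂ) ^ 2) * (Δ φ) (k • x))) +
        V x * (u : EE d → ℂ) x * φ (k • x)) = |(k ^ Module.finrank ℝ (EE d))⁻¹| •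
        ∫ y : EE d, ((‖E‖ : ℝ) : ℂ) * ((u : EE d → ℂ) (k⁻¹ • y) * (-(Δ φ) y) +
          V (k⁻¹ • y) / ((‖E‖ : ℝ) : ℂ) * (u : EE d → ℂ) (k⁻¹ • y) * φ y) := by
      refine scale_weak_int2 _ _ k ?_
      exact h2
    have e2 : ∫ x : EE d, (u : EE d → ℂ) x * φ (k • x) = |(k ^ Module.finrank ℝ (EE d))⁻¹| •
        ∫ y : EE d, (u : EE d → ℂ) (k⁻¹ • y) * φ y := by
      refine scale_weak_int2 _ _ k ?_
      exact h5
    rw [e1, e2, integral_const_mul] at h1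
    have h6 : |(k ^ Module.finrank ℝ (EE d))⁻¹| ≠ 0 := by positivity
    have h7 : ((|(k ^ Module.finrank ℝ (EE d))⁻¹| : ℝ) : ℂ) ≠ 0 := by exact_mod_cast h6
    rw [Complex.real_smul, Complex.real_smul] at h1
    have h8 : ((‖E‖ : ℝ) : ℂ) * ∫ y : EE d, ((u : EE d → ℂ) (k⁻¹ • y) * (-(Δ φ) y) +
          V (k⁻¹ • y) / ((‖E‖ : ℝ) : ℂ) * (u : EE d → ℂ) (k⁻¹ • y) * φ y) =
        E * ∫ y : EE d, (u : EE d → ℂ) (k⁻¹ • y) * φ y := by
      apply mul_left_cancel₀ h7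
      rw [h1]
      ring
    have h9 : ∫ x, (((hmem.toLp _ : HH d) : EE d → ℂ) x * (-(Δ φ) x) +
          V (k⁻¹ • x) / ((‖E‖ : ℝ) : ℂ) * ((hmem.toLp _ : HH d) : EE d → ℂ) x * φ x) =
        ∫ y : EE d, ((u : EE d → ℂ) (k⁻¹ • y) * (-(Δ φ) y) +
          V (k⁻¹ • y) / ((‖E‖ : ℝ) : ℂ) * (u : EE d → ℂ) (k⁻¹ • y) * φ y) := by
      apply integral_congr_ae
      filter_upwards [hwae] with x hx
      rw [hx]
    have h10 : ∫ x, ((hmem.toLp _ : HH d) : EE d → ℂ) x * φ x =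
        ∫ y : EE d, (u : EE d → ℂ) (k⁻¹ • y) * φ y := by
      apply integral_congr_ae
      filter_upwards [hwae] with x hx
      rw [hx]
    rw [h9, h10]
    apply mul_left_cancel₀ hEn
    rw [h8]
    field_simp


end

end KRS
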