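import Pool.Agent.H631.KR.Defs
import Pool.Agent.H631.KR.K01

open MeasureTheory Filter Topology ENNReal Complex
open scoped Laplacian FourierTransform InnerProductSpace

namespace KRS

noncomputable section

/-! TARGET: prove the following -/

theorem prim_bound (a b : ℝ) (hab : a ≤ b) (G B : ℝ → ℝ)
    (hG : ∀ s ∈ Set.Icc a b, HasDerivAt G (B s) s) (hB : ContinuousOn B (Set.Icc a b)) :
    ∫ s in a..b, B s = G b - G a := by
  apply intervalIntegral.integral_eq_sub_of_hasDerivAt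
  · intro s hs
    rw [Set.uIcc_of_le hab] at hs
    exact hG s hs
  · apply ContinuousOn.intervalIntegrable
    rw [Set.uIcc_of_le hab]
    exact hB

theorem rho_deriv (N : ℕ) (t : ℝ) :
    HasDerivAt (rho N) (t ^ N * Real.exp (-t) / (N.factorial : ℝ)) t := by
  have hc : Continuous fun u : ℝ => u ^ N * Real.exp (-u) / (N.factorial : ℝ) := by fun_prop
  exact intervalIntegral.integral_hasDerivAt_right (hc.intervalIntegrable _ _)
    (hc.stronglyMeasurableAtFilter _ _) hc.continuousAt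

theorem dens_le (N : ℕ) (u : ℝ) (hu : 0 ≤ u) :
    u ^ N * Real.exp (-u) / (N.factorial : ℝ) ≤ 2 ^ N * Real.exp (-(u / 2)) := by
  have h := Real.pow_div_factorial_le_exp (u / 2) (by positivity) N
  have h1 : u ^ N * Real.exp (-u) / (N.factorial : ℝ) =
      2 ^ N * ((u / 2) ^ N / (N.factorial : ℝ)) * Real.exp (-u) := by
    rw [div_pow]
    field_simp
  rw [h1]
  have h2 : Real.exp (-(u / 2)) = Real.exp (u / 2) * Real.exp (-u) := by
    rw [← Real.exp_add]; congr 1; ring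
  rw [h2, ← mul_assoc]
  gcongr

theorem rho_nonneg (N : ℕ) (t : ℝ) (ht : 0 ≤ t) : 0 ≤ rho N t := by
  unfold rho
  apply intervalIntegral.integral_nonneg ht
  intro u hu
  have := hu.1
  positivity

theorem rho_le_const (N : ℕ) (t : ℝ) (ht : 0 ≤ t) : rho N t ≤ 2 ^ (N + 1) := by
  have hc : Continuous fun u : ℝ => u ^ N * Real.exp (-u) / (N.factorial : ℝ) := by fun_prop
  have hc2 : Continuous fun u : ℝ => 2 ^ N * Real.exp (-(u / 2)) := by fun_prop
  have h1 : rho N t ≤ ∫ u in (0 : ℝ)..t, 2 ^ N * Real.exp (-(u / 2)) := by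
    unfold rho
    apply intervalIntegral.integral_mono_on ht (hc.intervalIntegrable _ _) (hc2.intervalIntegrable _ _)
    intro u hu
    exact dens_le N u hu.1
  have h2 : ∫ u in (0 : ℝ)..t, 2 ^ N * Real.exp (-(u / 2)) =
      (fun u => -(2 ^ (N + 1) * Real.exp (-(u / 2)))) t -
        (fun u => -(2 ^ (N + 1) * Real.exp (-(u / 2)))) 0 := by
    apply prim_bound 0 t ht
    · intro s _
      have h3 : HasDerivAt (fun u : ℝ => -(u / 2)) (-(1 / 2)) s :=
        ((hasDerivAt_id s).div_const 2).neg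
      have h4 := (h3.exp.const_mul (2 ^ (N + 1) : ℝ)).neg
      exact h4.congr_deriv (by rw [pow_succ]; ring)
    · exact hc2.continuousOn
  rw [h2] at h1
  refine h1.trans ?_
  simp only
  have := Real.exp_pos (-(t / 2))
  have h5 : (0 : ℝ) < 2 ^ (N + 1) := by positivity
  have : 0 ≤ 2 ^ (N + 1) * Real.exp (-(t / 2)) := by positivity
  simp
  linarith

theorem rho_le_pow (N : ℕ) (t : ℝ) (ht : 0 ≤ t) : rho N t ≤ t ^ (N + 1) := by
  have hc : Continuous fun u : ℝ => u ^ N * Real.exp (-u) / (N.factorial : ℝ) := by fun_prop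
  have hc2 : Continuous fun _ : ℝ => t ^ N := by fun_prop
  have h1 : rho N t ≤ ∫ u in (0 : ℝ)..t, t ^ N := by
    unfold rho
    apply intervalIntegral.integral_mono_on ht (hc.intervalIntegrable _ _) (hc2.intervalIntegrable _ _)
    intro u hu
    have h0 := hu.1
    have hf : (1 : ℝ) ≤ N.factorial := by exact_mod_cast Nat.one_le_iff_ne_zero.mpr (Nat.factorial_ne_zero N)
    rw [div_le_iff₀ (by linarith)]
    have he : Real.exp (-u) ≤ 1 := Real.exp_le_one_iff.mpr (by linarith)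
    have hp : u ^ N ≤ t ^ N := pow_le_pow_left₀ h0 hu.2 N
    calc u ^ N * Real.exp (-u) ≤ t ^ N * 1 := by gcongr
      _ ≤ t ^ N * (N.factorial : ℝ) := by gcongr
  refine h1.trans ?_
  simp [pow_succ]
  exact le_of_eq (by ring)

theorem rho_le_rpow (N : ℕ) (p t : ℝ) (ht : 0 < t) (hp : 0 ≤ p) (hpN : p ≤ N + 1) :
    rho N t ≤ 2 ^ (N + 1) * t ^ p := by
  have h2 : (1 : ℝ) ≤ 2 ^ (N + 1) := one_le_pow₀ (by norm_num)
  rcases le_total t 1 with h | h
  · have h1 := rho_le_pow N t ht.le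
    have h3 : t ^ (N + 1) ≤ t ^ p := by
      rw [← Real.rpow_natCast t (N + 1)]
      apply Real.rpow_le_rpow_of_exponent_ge ht h
      push_cast; exact hpN
    have h4 : 0 ≤ t ^ p := Real.rpow_nonneg ht.le p
    nlinarith
  · have h1 := rho_le_const N t ht.le
    have h3 : 1 ≤ t ^ p := Real.one_le_rpow h hp
    nlinarith

theorem rho_second (N : ℕ) (p t : ℝ) (ht : 0 < t) (hp : 1 ≤ p) (hpN : p ≤ N) :
    rho N t * t ^ (-p - 1) ≤ 2 ^ (N + 1) * (4 * ((1 + t) ^ 2)⁻¹) := by
  have h2 : (1 : ℝ) ≤ 2 ^ (N + 1) := one_le_pow₀ (by norm_num)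
  rcases le_total t 1 with h | h
  · have h1 := rho_le_pow N t ht.le
    have h3 : rho N t * t ^ (-p - 1) ≤ t ^ (N + 1) * t ^ (-p - 1) := by
      have := Real.rpow_nonneg ht.le (-p - 1)
      gcongr
    have h4 : t ^ (N + 1) * t ^ (-p - 1) = t ^ ((N : ℝ) - p) := by
      rw [← Real.rpow_natCast t (N + 1), ← Real.rpow_add ht]
      congr 1; push_cast; ring
    have h5 : t ^ ((N : ℝ) - p) ≤ 1 := Real.rpow_le_one ht.le h (by linarith)
    have h6 : 1 ≤ 4 * ((1 + t) ^ 2)⁻¹ := by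
      rw [← div_eq_mul_inv, le_div_iff₀ (by positivity)]
      nlinarith
    nlinarith
  · have h1 := rho_le_const N t ht.le
    have h3 : t ^ (-p - 1) ≤ 4 * ((1 + t) ^ 2)⁻¹ := by
      have h4 : t ^ (-p - 1) ≤ t ^ (-2 : ℝ) :=
        Real.rpow_le_rpow_of_exponent_le h (by linarith)
      have h5 : t ^ (-2 : ℝ) = (t ^ 2)⁻¹ := by
        rw [Real.rpow_neg ht.le]; norm_cast
      rw [h5] at h4
      refine h4.trans ?_
      rw [← div_eq_mul_inv, inv_eq_one_div, div_le_div_iff₀ (by positivity) (by positivity)]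
      nlinarith
    have h6 : 0 ≤ t ^ (-p - 1) := Real.rpow_nonneg ht.le _
    calc rho N t * t ^ (-p - 1) ≤ 2 ^ (N + 1) * t ^ (-p - 1) := by gcongr
      _ ≤ _ := by gcongr

/-- amplitude -/
def Amp (N : ℕ) (p σ y s : ℝ) : ℝ := rho N (σ * s) * s ^ (-p) * Real.exp (-(y * s))

/-- derivative of the amplitude -/
def Amp1 (N : ℕ) (p σ y s : ℝ) : ℝ :=
  ((σ * s) ^ N * Real.exp (-(σ * s)) / (N.factorial : ℝ) * σ) * s ^ (-p) * Real.exp (-(y * s)) +
    rho N (σ * s) * (-p * s ^ (-p - 1)) * Real.exp (-(y * s)) +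
      rho N (σ * s) * s ^ (-p) * (Real.exp (-(y * s)) * (-y))

theorem Amp_deriv (N : ℕ) (p σ y s : ℝ) (hs : 0 < s) :
    HasDerivAt (Amp N p σ y) (Amp1 N p σ y s) s := by
  have h1 : HasDerivAt (fun s => rho N (σ * s))
      ((σ * s) ^ N * Real.exp (-(σ * s)) / (N.factorial : ℝ) * σ) s := by
    have h := (rho_deriv N (σ * s)).comp s ((hasDerivAt_id s).const_mul σ)
    exact h.congr_deriv (by simp)
  have h2 : HasDerivAt (fun s : ℝ => s ^ (-p)) (-p * s ^ (-p - 1)) s :=
    Real.hasDerivAt_rpow_const (Or.inl hs.ne')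
  have h3 : HasDerivAt (fun s : ℝ => Real.exp (-(y * s))) (Real.exp (-(y * s)) * (-y)) s := by
    have h : HasDerivAt (fun s : ℝ => -(y * s)) (-y) s :=
      (((hasDerivAt_id s).const_mul y).neg).congr_deriv (by simp)
    exact h.exp
  have h4 := (h1.mul h2).mul h3
  unfold Amp1
  exact h4.congr_deriv (by simp only [Pi.mul_apply]; ring)

theorem rho_cont (N : ℕ) : Continuous (rho N) :=
  continuous_iff_continuousAt.mpr fun t => (rho_deriv N t).continuousAt

theorem Amp1_cont (N : ℕ) (p σ y a b : ℝ) (ha : 0 < a) :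
    ContinuousOn (Amp1 N p σ y) (Set.Icc a b) := by
  have hr := rho_cont N
  have h1 : ContinuousOn (fun s : ℝ => s ^ (-p)) (Set.Icc a b) := fun s hs =>
    (Real.continuousAt_rpow_const s _ (Or.inl (lt_of_lt_of_le ha hs.1).ne')).continuousWithinAt
  have h2 : ContinuousOn (fun s : ℝ => s ^ (-p - 1)) (Set.Icc a b) := fun s hs =>
    (Real.continuousAt_rpow_const s _ (Or.inl (lt_of_lt_of_le ha hs.1).ne')).continuousWithinAt
  have h3 : Continuous (fun s : ℝ => rho N (σ * s)) := hr.comp (by fun_prop)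
  have h4 : Continuous (fun s : ℝ => Real.exp (-(y * s))) := by fun_prop
  have h5 : Continuous (fun s : ℝ => (σ * s) ^ N * Real.exp (-(σ * s)) / (N.factorial : ℝ) * σ) := by
    fun_prop
  unfold Amp1
  refine ContinuousOn.add (ContinuousOn.add ?_ ?_) ?_
  · exact (h5.continuousOn.mul h1).mul h4.continuousOn
  · exact (h3.continuousOn.mul (continuousOn_const.mul h2)).mul h4.continuousOn
  · exact (h3.continuousOn.mul h1).mul (h4.continuousOn.mul continuousOn_const)

theorem Amp_le (N : ℕ) (p σ y s : ℝ) (hs : 0 < s) (hσ : 0 < σ) (hy : 0 ≤ y) (hp : 0 ≤ p)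
    (hpN : p ≤ N + 1) : |Amp N p σ y s| ≤ 2 ^ (N + 1) * σ ^ p * Real.exp (-(y * s)) := by
  have h0 := rho_nonneg N (σ * s) (by positivity)
  have h1 := rho_le_rpow N p (σ * s) (by positivity) hp hpN
  have h2 : 0 ≤ s ^ (-p) := Real.rpow_nonneg hs.le _
  unfold Amp
  rw [abs_of_nonneg (by positivity)]
  have h3 : (σ * s) ^ p = σ ^ p * s ^ p := Real.mul_rpow hσ.le hs.le
  have h4 : s ^ p * s ^ (-p) = 1 := by
    rw [← Real.rpow_add hs]; simp
  calc rho N (σ * s) * s ^ (-p) * Real.exp (-(y * s))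
      ≤ (2 ^ (N + 1) * (σ * s) ^ p) * s ^ (-p) * Real.exp (-(y * s)) := by gcongr
    _ = 2 ^ (N + 1) * σ ^ p * (s ^ p * s ^ (-p)) * Real.exp (-(y * s)) := by rw [h3]; ring
    _ = _ := by rw [h4]; ring

/-- majorant -/
def Maj (N : ℕ) (p σ y s : ℝ) : ℝ :=
  σ ^ p * ((1 + 2 ^ N) * (σ * Real.exp (-(σ * s / 2))) +
    p * (2 ^ (N + 1) * (4 * (σ * ((1 + σ * s) ^ 2)⁻¹))) +
      2 ^ (N + 1) * (y * Real.exp (-(y * s))))

theorem Amp1_le (N : ℕ) (p σ y s : ℝ) (hs : 0 < s) (hσ : 0 < σ) (hy : 0 ≤ y) (hp : 1 ≤ p)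
    (hpN : p ≤ N) : |Amp1 N p σ y s| ≤ Maj N p σ y s := by
  have hσs : 0 < σ * s := by positivity
  have h0 := rho_nonneg N (σ * s) hσs.le
  have h2 : 0 < s ^ (-p) := Real.rpow_pos_of_pos hs _
  have h2' : 0 < s ^ (-p - 1) := Real.rpow_pos_of_pos hs _
  have he : Real.exp (-(y * s)) ≤ 1 := Real.exp_le_one_iff.mpr (by nlinarith [mul_nonneg hy hs.le])
  have he0 := Real.exp_pos (-(y * s))
  have hσp : 0 < σ ^ p := Real.rpow_pos_of_pos hσ _
  -- first term
  have t1 : ((σ * s) ^ N * Real.exp (-(σ * s)) / (N.factorial : ℝ) * σ) * s ^ (-p) *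
      Real.exp (-(y * s)) ≤ σ ^ p * ((1 + 2 ^ N) * (σ * Real.exp (-(σ * s / 2)))) := by
    have e1 : s ^ (-p) = σ ^ p * (σ * s) ^ (-p) := by
      rw [Real.mul_rpow hσ.le hs.le, ← mul_assoc, ← Real.rpow_add hσ]; simp
    have e2 : (σ * s) ^ N * (σ * s) ^ (-p) ≤ 1 + (σ * s) ^ N := by
      rw [← Real.rpow_natCast (σ * s) N, ← Real.rpow_add hσs]
      rcases le_total (σ * s) 1 with h | h
      · have : (σ * s) ^ ((N : ℝ) + -p) ≤ 1 := Real.rpow_le_one hσs.le h (by linarith)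
        have : 0 ≤ (σ * s) ^ (N : ℝ) := Real.rpow_nonneg hσs.le _
        linarith
      · have : (σ * s) ^ ((N : ℝ) + -p) ≤ (σ * s) ^ (N : ℝ) :=
          Real.rpow_le_rpow_of_exponent_le h (by linarith)
        linarith
    have hf : (1 : ℝ) ≤ N.factorial := by
      exact_mod_cast Nat.one_le_iff_ne_zero.mpr (Nat.factorial_ne_zero N)
    have e3 : (1 + (σ * s) ^ N) * Real.exp (-(σ * s)) / (N.factorial : ℝ) ≤
        (1 + 2 ^ N) * Real.exp (-(σ * s / 2)) := by
      have d1 := dens_le N (σ * s) hσs.le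
      have d2 : Real.exp (-(σ * s)) / (N.factorial : ℝ) ≤ Real.exp (-(σ * s / 2)) := by
        rw [div_le_iff₀ (by linarith)]
        have : Real.exp (-(σ * s)) ≤ Real.exp (-(σ * s / 2)) := Real.exp_le_exp.mpr (by linarith)
        nlinarith [Real.exp_pos (-(σ * s / 2))]
      calc (1 + (σ * s) ^ N) * Real.exp (-(σ * s)) / (N.factorial : ℝ)
          = Real.exp (-(σ * s)) / (N.factorial : ℝ) +
            (σ * s) ^ N * Real.exp (-(σ * s)) / (N.factorial : ℝ) := by ring
        _ ≤ Real.exp (-(σ * s / 2)) + 2 ^ N * Real.exp (-(σ * s / 2)) := add_le_add d2 d1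
        _ = _ := by ring
    calc ((σ * s) ^ N * Real.exp (-(σ * s)) / (N.factorial : ℝ) * σ) * s ^ (-p) *
          Real.exp (-(y * s))
        ≤ ((σ * s) ^ N * Real.exp (-(σ * s)) / (N.factorial : ℝ) * σ) * s ^ (-p) * 1 := by
          gcongr
      _ = σ ^ p * σ * (((σ * s) ^ N * (σ * s) ^ (-p)) * Real.exp (-(σ * s)) /
            (N.factorial : ℝ)) := by rw [e1]; ring
      _ ≤ σ ^ p * σ * ((1 + (σ * s) ^ N) * Real.exp (-(σ * s)) / (N.factorial : ℝ)) := by
          gcongr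
      _ ≤ σ ^ p * σ * ((1 + 2 ^ N) * Real.exp (-(σ * s / 2))) := by gcongr
      _ = _ := by ring
  -- second term
  have t2 : rho N (σ * s) * (p * s ^ (-p - 1)) * Real.exp (-(y * s)) ≤
      σ ^ p * (p * (2 ^ (N + 1) * (4 * (σ * ((1 + σ * s) ^ 2)⁻¹)))) := by
    have e1 : s ^ (-p - 1) = σ ^ p * σ * (σ * s) ^ (-p - 1) := by
      rw [Real.mul_rpow hσ.le hs.le]
      have : σ ^ p * σ * σ ^ (-p - 1) = 1 := by
        nth_rewrite 2 [← Real.rpow_one σ]
        rw [← Real.rpow_add hσ, ← Real.rpow_add hσ]; simp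
      calc s ^ (-p - 1) = (σ ^ p * σ * σ ^ (-p - 1)) * s ^ (-p - 1) := by rw [this]; ring
        _ = _ := by ring
    have e2 := rho_second N p (σ * s) hσs hp hpN
    calc rho N (σ * s) * (p * s ^ (-p - 1)) * Real.exp (-(y * s))
        ≤ rho N (σ * s) * (p * s ^ (-p - 1)) * 1 := by
          have : 0 ≤ p := by linarith
          gcongr
      _ = σ ^ p * σ * p * (rho N (σ * s) * (σ * s) ^ (-p - 1)) := by rw [e1]; ring
      _ ≤ σ ^ p * σ * p * (2 ^ (N + 1) * (4 * ((1 + σ * s) ^ 2)⁻¹)) := by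
          have : 0 ≤ p := by linarith
          gcongr
      _ = _ := by ring
  -- third term
  have t3 : rho N (σ * s) * s ^ (-p) * (Real.exp (-(y * s)) * y) ≤
      σ ^ p * (2 ^ (N + 1) * (y * Real.exp (-(y * s)))) := by
    have h := Amp_le N p σ y s hs hσ hy (by linarith) (by linarith)
    unfold Amp at h
    rw [abs_of_nonneg (by positivity)] at h
    nlinarith
  have hp0 : 0 ≤ p := by linarith
  have n1 : 0 ≤ ((σ * s) ^ N * Real.exp (-(σ * s)) / (N.factorial : ℝ) * σ) * s ^ (-p) *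
      Real.exp (-(y * s)) := by positivity
  have n2 : 0 ≤ rho N (σ * s) * (p * s ^ (-p - 1)) * Real.exp (-(y * s)) := by positivity
  have n3 : 0 ≤ rho N (σ * s) * s ^ (-p) * (Real.exp (-(y * s)) * y) := by positivity
  have e : Amp1 N p σ y s = ((σ * s) ^ N * Real.exp (-(σ * s)) / (N.factorial : ℝ) * σ) *
      s ^ (-p) * Real.exp (-(y * s)) - rho N (σ * s) * (p * s ^ (-p - 1)) * Real.exp (-(y * s)) -
        rho N (σ * s) * s ^ (-p) * (Real.exp (-(y * s)) * y) := by
    unfold Amp1; ring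
  have e' : Maj N p σ y s = σ ^ p * ((1 + 2 ^ N) * (σ * Real.exp (-(σ * s / 2)))) +
      σ ^ p * (p * (2 ^ (N + 1) * (4 * (σ * ((1 + σ * s) ^ 2)⁻¹)))) +
        σ ^ p * (2 ^ (N + 1) * (y * Real.exp (-(y * s)))) := by
    unfold Maj; ring
  rw [e, e', abs_le]
  constructor <;> linarith

theorem Maj_int (N : ℕ) (p σ y a b : ℝ) (ha : 0 < a) (hab : a ≤ b) (hσ : 0 < σ) (hy : 0 ≤ y)
    (hp : 0 ≤ p) :
    ∫ s in a..b, Maj N p σ y s ≤ σ ^ p * (2 * (1 + 2 ^ N) + p * (2 ^ (N + 1) * 4) + 2 ^ (N + 1)) := by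
  have hcont : ContinuousOn (Maj N p σ y) (Set.Icc a b) := by
    unfold Maj
    apply ContinuousOn.mul continuousOn_const
    apply ContinuousOn.add
    apply ContinuousOn.add
    · fun_prop
    · apply ContinuousOn.mul continuousOn_const
      apply ContinuousOn.mul continuousOn_const
      apply ContinuousOn.mul continuousOn_const
      apply ContinuousOn.mul continuousOn_const
      apply ContinuousOn.inv₀ (by fun_prop)
      intro s hs
      have : 0 < s := lt_of_lt_of_le ha hs.1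
      positivity
    · fun_prop
  have h := prim_bound a b hab (fun s => σ ^ p * ((1 + 2 ^ N) * (-2 * Real.exp (-(σ * s / 2))) +
    p * (2 ^ (N + 1) * (4 * (-(1 + σ * s)⁻¹))) + 2 ^ (N + 1) * (-Real.exp (-(y * s)))))
    (Maj N p σ y) ?_ hcont
  · rw [h]
    have hb : 0 < b := lt_of_lt_of_le ha hab
    have hσp : 0 < σ ^ p := Real.rpow_pos_of_pos hσ _
    have q1 := Real.exp_pos (-(σ * b / 2))
    have q2 : Real.exp (-(σ * a / 2)) ≤ 1 := Real.exp_le_one_iff.mpr (by
      have : 0 < σ * a := by positivity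
      linarith)
    have q3 : 0 < (1 + σ * b)⁻¹ := by positivity
    have q4 : (1 + σ * a)⁻¹ ≤ 1 := by
      apply inv_le_one_of_one_le₀
      have : 0 < σ * a := by positivity
      linarith
    have q5 := Real.exp_pos (-(y * b))
    have q6 : Real.exp (-(y * a)) ≤ 1 := Real.exp_le_one_iff.mpr (by
      have : 0 ≤ y * a := by positivity
      linarith)
    have w1 : (0 : ℝ) < 1 + 2 ^ N := by positivity
    have w2 : (0 : ℝ) < 2 ^ (N + 1) := by positivity
    rw [← mul_sub]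
    apply mul_le_mul_of_nonneg_left _ hσp.le
    have r1 : (1 + 2 ^ N : ℝ) * (-2 * Real.exp (-(σ * b / 2))) ≤ 0 := by nlinarith
    have r2 : (1 + 2 ^ N : ℝ) * (2 * Real.exp (-(σ * a / 2))) ≤ (1 + 2 ^ N) * 2 := by
      gcongr; linarith
    have r3 : p * (2 ^ (N + 1) * (4 * (-(1 + σ * b)⁻¹))) ≤ 0 := by
      have : 0 ≤ p * (2 ^ (N + 1) * (4 * ((1 + σ * b)⁻¹))) := by positivity
      linarith
    have r4 : p * (2 ^ (N + 1) * (4 * ((1 + σ * a)⁻¹))) ≤ p * (2 ^ (N + 1) * 4) := by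
      have : 4 * (1 + σ * a)⁻¹ ≤ 4 := by linarith
      gcongr
    have r5 : (2 : ℝ) ^ (N + 1) * (-Real.exp (-(y * b))) ≤ 0 := by
      have : 0 ≤ (2 : ℝ) ^ (N + 1) * (Real.exp (-(y * b))) := by positivity
      linarith
    have r6 : (2 : ℝ) ^ (N + 1) * (Real.exp (-(y * a))) ≤ 2 ^ (N + 1) := by
      calc (2 : ℝ) ^ (N + 1) * (Real.exp (-(y * a))) ≤ 2 ^ (N + 1) * 1 := by gcongr
        _ = _ := by ring
    linarith
  · intro s hs
    have hs0 : 0 < s := lt_of_lt_of_le ha hs.1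
    have hden : 1 + σ * s ≠ 0 := by positivity
    have a1 : HasDerivAt (fun s : ℝ => Real.exp (-(σ * s / 2)))
        (Real.exp (-(σ * s / 2)) * (-(σ / 2))) s := by
      have h : HasDerivAt (fun s : ℝ => -(σ * s / 2)) (-(σ / 2)) s :=
        ((((hasDerivAt_id s).const_mul σ).div_const 2).neg).congr_deriv (by simp)
      exact h.exp
    have a2 : HasDerivAt (fun s : ℝ => (1 + σ * s)⁻¹) (-σ / (1 + σ * s) ^ 2) s := by
      have h : HasDerivAt (fun s : ℝ => 1 + σ * s) σ s := by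
        simpa using ((hasDerivAt_id s).const_mul σ).const_add 1
      exact h.inv hden
    have a3 : HasDerivAt (fun s : ℝ => Real.exp (-(y * s))) (Real.exp (-(y * s)) * (-y)) s := by
      have h : HasDerivAt (fun s : ℝ => -(y * s)) (-y) s :=
        (((hasDerivAt_id s).const_mul y).neg).congr_deriv (by simp)
      exact h.exp
    have := ((((a1.const_mul (-2)).const_mul (1 + 2 ^ N : ℝ)).add
      (((a2.neg.const_mul 4).const_mul ((2 : ℝ) ^ (N + 1))).const_mul p)).add
        (a3.neg.const_mul ((2 : ℝ) ^ (N + 1)))).const_mul (σ ^ p)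
    refine this.congr_deriv ?_
    unfold Maj
    field_simp

theorem osc_small_im (N : ℕ) (p σ L r R : ℝ) (z : ℂ) (hp1 : 1 ≤ p) (hpN : p ≤ N) (hσ : 0 < σ)
    (hL : 1 ≤ L) (hy : 0 < z.im) (hy2 : z.im < 1 / 2) (hz : ‖z‖ = 1) (hr : 0 ≤ r)
    (hrL : r ≤ 2 * L) (hR : 4 * L ≤ R) :
    ‖∫ s in (4 * L)..R, ((Amp N p σ z.im s : ℝ) : ℂ) *
            Complex.exp (I * ((z.re * s + r ^ 2 / (4 * s) : ℝ) : ℂ))‖ ≤
      (3 * (2 ^ (N + 1) * σ ^ p) + σ ^ p * (2 * (1 + 2 ^ N) + p * (2 ^ (N + 1) * 4) + 2 ^ (N + 1))) / (7 / 10) := by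
  have hp0 : 0 ≤ p := by linarith
  have h4L : 0 < 4 * L := by linarith
  set K : ℝ := 2 * (1 + 2 ^ N) + p * (2 ^ (N + 1) * 4) + 2 ^ (N + 1) with hK
  have hre : (3 : ℝ) / 4 ≤ z.re ^ 2 := by
    have h1 : z.re ^ 2 + z.im ^ 2 = 1 := by
      have := Complex.sq_norm z
      rw [hz, Complex.normSq_apply] at this
      nlinarith
    nlinarith
  have hre2 : 43 / 50 ≤ |z.re| := by
    rw [← sq_abs] at hre
    nlinarith [abs_nonneg z.re]
  have hq : ∀ s ∈ Set.Icc (4 * L) R, r ^ 2 / (4 * s ^ 2) ≤ 1 / 16 := by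
    intro s hs
    have hs0 : 0 < s := lt_of_lt_of_le h4L hs.1
    rw [div_le_div_iff₀ (by positivity) (by norm_num)]
    have h1 : r ^ 2 ≤ (2 * L) ^ 2 := pow_le_pow_left₀ hr hrL 2
    have h2 : (4 * L) ^ 2 ≤ s ^ 2 := pow_le_pow_left₀ h4L.le hs.1 2
    nlinarith
  have hfd := first_deriv (4 * L) R hR (fun s => z.re * s + r ^ 2 / (4 * s))
    (fun s => z.re - r ^ 2 / (4 * s ^ 2)) (fun s => r ^ 2 / (2 * s ^ 3))
    (fun s => ((Amp N p σ z.im s : ℝ) : ℂ)) (fun s => ((Amp1 N p σ z.im s : ℝ) : ℂ))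
    (7 / 10) (2 ^ (N + 1) * σ ^ p) (σ ^ p * K) (by norm_num) ?_ ?_ ?_ ?_ ?_ ?_ ?_ ?_ ?_
  · exact hfd
  · intro s hs
    have hs0 : 0 < s := lt_of_lt_of_le h4L hs.1
    have h1 : HasDerivAt (fun s : ℝ => z.re * s) z.re s := by
      simpa using (hasDerivAt_id s).const_mul z.re
    have h2 : HasDerivAt (fun s : ℝ => r ^ 2 / (4 * s)) (-(r ^ 2 / (4 * s ^ 2))) s := by
      have h3 : HasDerivAt (fun s : ℝ => 4 * s) 4 s := by
        simpa using (hasDerivAt_id s).const_mul 4
      have h4 := (h3.inv (by positivity)).const_mul (r ^ 2)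
      exact h4.congr_deriv (by field_simp)
    exact h1.add h2
  · intro s hs
    have hs0 : 0 < s := lt_of_lt_of_le h4L hs.1
    have h3 : HasDerivAt (fun s : ℝ => 4 * s ^ 2) (4 * (2 * s)) s := by
      simpa using ((hasDerivAt_pow 2 s)).const_mul 4
    have h4 := ((h3.inv (by positivity)).const_mul (r ^ 2)).const_sub z.re
    exact h4.congr_deriv (by field_simp; ring)
  · apply ContinuousOn.div continuousOn_const (by fun_prop)
    intro s hs
    have hs0 : 0 < s := lt_of_lt_of_le h4L hs.1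
    positivity
  · intro s hs
    have hs0 : 0 < s := lt_of_lt_of_le h4L hs.1
    positivity
  · rcases le_total 0 z.re with h | h
    · left
      intro s hs
      rw [abs_of_nonneg h] at hre2
      have := hq s hs
      linarith
    · right
      intro s hs
      rw [abs_of_nonpos h] at hre2
      have hs0 : 0 < s := lt_of_lt_of_le h4L hs.1
      have : 0 ≤ r ^ 2 / (4 * s ^ 2) := by positivity
      linarith
  · intro s hs
    have hs0 : 0 < s := lt_of_lt_of_le h4L hs.1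
    exact (Amp_deriv N p σ z.im s hs0).ofReal_comp
  · exact Complex.continuous_ofReal.comp_continuousOn (Amp1_cont N p σ z.im (4 * L) R h4L)
  · intro s hs
    have hs0 : 0 < s := lt_of_lt_of_le h4L hs.1
    rw [Complex.norm_real, Real.norm_eq_abs]
    refine (Amp_le N p σ z.im s hs0 hσ hy.le hp0 (by linarith)).trans ?_
    have : Real.exp (-(z.im * s)) ≤ 1 :=
      Real.exp_le_one_iff.mpr (by nlinarith [mul_pos hy hs0])
    calc 2 ^ (N + 1) * σ ^ p * Real.exp (-(z.im * s)) ≤ 2 ^ (N + 1) * σ ^ p * 1 := by gcongr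
      _ = _ := by ring
  · have hM := Maj_int N p σ z.im (4 * L) R h4L hR hσ hy.le hp0
    refine le_trans ?_ hM
    have hMc : ContinuousOn (Maj N p σ z.im) (Set.Icc (4 * L) R) := by
      unfold Maj
      apply ContinuousOn.mul continuousOn_const
      apply ContinuousOn.add
      apply ContinuousOn.add
      · fun_prop
      · apply ContinuousOn.mul continuousOn_const
        apply ContinuousOn.mul continuousOn_const
        apply ContinuousOn.mul continuousOn_const
        apply ContinuousOn.mul continuousOn_const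
        apply ContinuousOn.inv₀ (by fun_prop)
        intro s hs
        have : 0 < s := lt_of_lt_of_le h4L hs.1
        positivity
      · fun_prop
    apply intervalIntegral.integral_mono_on hR
    · apply ContinuousOn.intervalIntegrable
      rw [Set.uIcc_of_le hR]
      exact (Complex.continuous_ofReal.comp_continuousOn
        (Amp1_cont N p σ z.im (4 * L) R h4L)).norm
    · apply ContinuousOn.intervalIntegrable
      rw [Set.uIcc_of_le hR]
      exact hMc
    · intro s hs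
      have hs0 : 0 < s := lt_of_lt_of_le h4L hs.1
      rw [Complex.norm_real, Real.norm_eq_abs]
      exact Amp1_le N p σ z.im s hs0 hσ hy.le hp1 hpN

theorem osc_two (d N : ℕ) (hd : 2 ≤ d) (hN : d ≤ N) :
    ∃ C : ℝ, 0 < C ∧ ∀ (σ L : ℝ) (z : ℂ) (r : ℝ), 0 < σ → σ ≤ 1 → 1 ≤ L → 0 < z.im → ‖z‖ = 1 →
      0 ≤ r → r ≤ 2 * L →
      ‖∫ s in Set.Ioi (0 : ℝ), ((rho N (σ * s) * s ^ (-((d : ℝ) / 2)) : ℝ) : ℂ) *
        Complex.exp (I * z * (s : ℂ)) * Complex.exp (I * ((r ^ 2 / (4 * s) : ℝ) : ℂ))‖ ≤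
          C * (σ ^ (N + 1) * L ^ ((N : ℝ) + 2 - (d : ℝ) / 2) + σ ^ ((d : ℝ) / 2)) := by
  set p : ℝ := (d : ℝ) / 2 with hp
  have hd' : (2 : ℝ) ≤ d := by exact_mod_cast hd
  have hN' : (d : ℝ) ≤ N := by exact_mod_cast hN
  have hp1 : 1 ≤ p := by rw [hp]; linarith
  have hpN : p ≤ N := by rw [hp]; linarith
  have hp0 : 0 ≤ p := by linarith
  set K : ℝ := 2 * (1 + 2 ^ N) + p * (2 ^ (N + 1) * 4) + 2 ^ (N + 1) with hK
  set C1 : ℝ := (3 * 2 ^ (N + 1) + K) / (7 / 10) with hC1
  have hKpos : 0 < K := by positivity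
  have hC1pos : 0 < C1 := by positivity
  set C2 : ℝ := (4 : ℝ) ^ ((N : ℝ) + 2 - p) with hC2
  have hC2pos : 0 < C2 := by positivity
  set C3 : ℝ := 2 ^ (N + 2) with hC3
  have hC3pos : 0 < C3 := by positivity
  refine ⟨C1 + C2 + C3, by positivity, ?_⟩
  intro σ L z r hσ hσ1 hL hy hz hr hrL
  set F : ℝ → ℂ := fun s => ((rho N (σ * s) * s ^ (-p) : ℝ) : ℂ) *
        Complex.exp (I * z * (s : ℂ)) * Complex.exp (I * ((r ^ 2 / (4 * s) : ℝ) : ℂ)) with hF
  have hLp : 0 ≤ L ^ ((N : ℝ) + 2 - p) := Real.rpow_nonneg (by linarith) _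
  have hσp : 0 < σ ^ p := Real.rpow_pos_of_pos hσ _
  have hRHS : 0 ≤ (C1 + C2 + C3) * (σ ^ (N + 1) * L ^ ((N : ℝ) + 2 - p) + σ ^ p) := by positivity
  by_cases hint : IntegrableOn F (Set.Ioi 0)
  swap
  · rw [integral_undef hint]
    simpa using hRHS
  have hFeq : ∀ s : ℝ, 0 < s → F s = ((Amp N p σ z.im s : ℝ) : ℂ) *
      Complex.exp (I * ((z.re * s + r ^ 2 / (4 * s) : ℝ) : ℂ)) := by
    intro s hs
    simp only [hF, Amp]
    have e1 : Complex.exp (I * z * (s : ℂ)) * Complex.exp (I * ((r ^ 2 / (4 * s) : ℝ) : ℂ)) =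
        ((Real.exp (-(z.im * s)) : ℝ) : ℂ) *
          Complex.exp (I * ((z.re * s + r ^ 2 / (4 * s) : ℝ) : ℂ)) := by
      rw [Complex.ofReal_exp, ← Complex.exp_add, ← Complex.exp_add]
      congr 1
      have h1 : z = z.re + z.im * I := (Complex.re_add_im z).symm
      have h2 : I * I = -1 := Complex.I_mul_I
      have h3 : I * z * (s : ℂ) = I * (z.re + z.im * I) * s := by rw [← h1]
      rw [h3]
      push_cast
      linear_combination (z.im : ℂ) * s * h2
    rw [mul_assoc, e1, ← mul_assoc, ← Complex.ofReal_mul]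
  have hFnorm : ∀ s : ℝ, 0 < s → ‖F s‖ ≤ rho N (σ * s) * s ^ (-p) * Real.exp (-(z.im * s)) := by
    intro s hs
    rw [hFeq s hs, norm_mul, mul_comm I, Complex.norm_exp_ofReal_mul_I, mul_one, Complex.norm_real]
    rw [Real.norm_eq_abs, abs_of_nonneg]
    · rfl
    · unfold Amp
      have := rho_nonneg N (σ * s) (by positivity)
      have := Real.rpow_nonneg hs.le (-p)
      positivity
  have h4L : 0 < 4 * L := by linarith
  -- splitting
  have hsplit : ∫ s in Set.Ioi (0 : ℝ), F s =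
      (∫ s in Set.Ioc 0 (4 * L), F s) + ∫ s in Set.Ioi (4 * L), F s := by
    rw [← Set.Ioc_union_Ioi_eq_Ioi h4L.le]
    apply setIntegral_union (Set.Ioc_disjoint_Ioi le_rfl) measurableSet_Ioi
    · exact hint.mono_set Set.Ioc_subset_Ioi_self
    · exact hint.mono_set (Set.Ioi_subset_Ioi h4L.le)
  -- part 1
  have part1 : ‖∫ s in Set.Ioc 0 (4 * L), F s‖ ≤ C2 * (σ ^ (N + 1) * L ^ ((N : ℝ) + 2 - p)) := by
    have hb : ∀ s ∈ Set.Ioc 0 (4 * L), ‖F s‖ ≤ σ ^ (N + 1) * (4 * L) ^ ((N : ℝ) + 1 - p) := by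
      intro s hs
      have hs0 := hs.1
      have e := hFnorm s hs0
      have h1 := rho_le_pow N (σ * s) (by positivity)
      have h2 : Real.exp (-(z.im * s)) ≤ 1 :=
        Real.exp_le_one_iff.mpr (by nlinarith [mul_pos hy hs0])
      have h3 := rho_nonneg N (σ * s) (by positivity)
      have h4 := Real.rpow_nonneg hs0.le (-p)
      calc ‖F s‖ ≤ rho N (σ * s) * s ^ (-p) * Real.exp (-(z.im * s)) := e
        _ ≤ (σ * s) ^ (N + 1) * s ^ (-p) * 1 := by gcongr
        _ = σ ^ (N + 1) * s ^ ((N : ℝ) + 1 - p) := by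
            rw [mul_pow, mul_one, mul_assoc]
            congr 1
            rw [← Real.rpow_natCast s (N + 1), ← Real.rpow_add hs0]
            congr 1
            push_cast; ring
        _ ≤ _ := by
            have : s ^ ((N : ℝ) + 1 - p) ≤ (4 * L) ^ ((N : ℝ) + 1 - p) :=
              Real.rpow_le_rpow hs0.le hs.2 (by linarith)
            gcongr
    have h := norm_setIntegral_le_of_norm_le_const (μ := volume) (s := Set.Ioc 0 (4 * L))
      measure_Ioc_lt_top hb
    refine h.trans ?_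
    simp only [Real.volume_real_Ioc, sub_zero]
    rw [max_eq_left h4L.le]
    have e1 : (4 * L) ^ ((N : ℝ) + 1 - p) * (4 * L) = (4 : ℝ) ^ ((N : ℝ) + 2 - p) * L ^ ((N : ℝ) + 2 - p) := by
      rw [← Real.mul_rpow (by norm_num) (by linarith)]
      nth_rewrite 2 [← Real.rpow_one (4 * L)]
      rw [← Real.rpow_add h4L]
      congr 1
      ring
    rw [mul_assoc, e1]
    apply le_of_eq
    rw [hC2]; ring
  -- part 2
  have part2 : ‖∫ s in Set.Ioi (4 * L), F s‖ ≤ (C1 + C3) * σ ^ p := by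
    have hint2 : IntegrableOn F (Set.Ioi (4 * L)) := hint.mono_set (Set.Ioi_subset_Ioi h4L.le)
    have hlim := (intervalIntegral_tendsto_integral_Ioi (4 * L) hint2 tendsto_id).norm
    refine le_of_tendsto hlim ?_
    filter_upwards [eventually_ge_atTop (4 * L)] with R hR
    simp only [id]
    rcases le_or_gt (1 / 2) z.im with hy2 | hy2
    · -- large imaginary part
      have hb : ∀ᵐ s : ℝ, s ∈ Set.Ioc (4 * L) R → ‖F s‖ ≤ 2 ^ (N + 1) * σ ^ p * Real.exp (-(s / 2)) := by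
        refine Eventually.of_forall ?_
        intro s hs
        have hs0 : 0 < s := lt_trans h4L hs.1
        have h1 := Amp_le N p σ z.im s hs0 hσ hy.le hp0 (by linarith)
        have h2 := hFnorm s hs0
        have h3 : Amp N p σ z.im s = rho N (σ * s) * s ^ (-p) * Real.exp (-(z.im * s)) := rfl
        rw [← h3] at h2
        refine h2.trans ((le_abs_self _).trans (h1.trans ?_))
        have : Real.exp (-(z.im * s)) ≤ Real.exp (-(s / 2)) := by
          apply Real.exp_le_exp.mpr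
          nlinarith
        gcongr
      have h1 := intervalIntegral.norm_integral_le_of_norm_le hR hb
        (Continuous.intervalIntegrable (by fun_prop) _ _)
      refine h1.trans ?_
      have h2 := prim_bound (4 * L) R hR (fun s => 2 ^ (N + 1) * σ ^ p * (-2 * Real.exp (-(s / 2))))
        (fun s => 2 ^ (N + 1) * σ ^ p * Real.exp (-(s / 2))) ?_ (by fun_prop)
      · rw [h2]
        have q1 := Real.exp_pos (-(R / 2))
        have q2 : Real.exp (-(4 * L / 2)) ≤ 1 := Real.exp_le_one_iff.mpr (by linarith)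
        have w : 0 < 2 ^ (N + 1) * σ ^ p := by positivity
        have hC3' : C3 * σ ^ p = (2 ^ (N + 1) * σ ^ p) * 2 := by rw [hC3]; ring
        have : 0 ≤ C1 * σ ^ p := by positivity
        nlinarith [mul_pos w q1, mul_le_mul_of_nonneg_left q2 w.le]
      · intro s _
        have h : HasDerivAt (fun s : ℝ => -(s / 2)) (-(1 / 2)) s :=
          ((hasDerivAt_id s).div_const 2).neg
        have := ((h.exp).const_mul (-2)).const_mul (2 ^ (N + 1) * σ ^ p)
        exact this.congr_deriv (by ring)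
    · -- small imaginary part
      have hfd := osc_small_im N p σ L r R z hp1 hpN hσ hL hy hy2 hz hr hrL hR
      have hcongr : ∫ s in (4 * L)..R, F s = ∫ s in (4 * L)..R, ((Amp N p σ z.im s : ℝ) : ℂ) *
            Complex.exp (I * ((z.re * s + r ^ 2 / (4 * s) : ℝ) : ℂ)) := by
          apply intervalIntegral.integral_congr
          intro s hs
          rw [Set.uIcc_of_le hR] at hs
          exact hFeq s (lt_of_lt_of_le h4L hs.1)
      rw [hcongr]
      refine hfd.trans ?_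
      have : (3 * (2 ^ (N + 1) * σ ^ p) + σ ^ p * K) / (7 / 10) = C1 * σ ^ p := by
          rw [hC1]; ring
      rw [← hK, this]
      have : 0 ≤ C3 * σ ^ p := by positivity
      linarith
  rw [hsplit]
  refine (norm_add_le _ _).trans ?_
  have hX : 0 ≤ σ ^ (N + 1) * L ^ ((N : ℝ) + 2 - p) := by positivity
  nlinarith [mul_nonneg hC1pos.le hX, mul_nonneg hC3pos.le hX, mul_nonneg hC2pos.le hσp.le]


end

end KRS
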