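import Pool.Agent.H631.KR.Defs
import Pool.Agent.H631.KR.K00
import Pool.Agent.H631.KR.K03
import Pool.Agent.H631.KR.K04
import Pool.Agent.H631.KR.K05
import Pool.Agent.H631.KR.K0R

open MeasureTheory Filter Topology ENNReal Complex
open scoped Laplacian FourierTransform InnerProductSpace

namespace KRS

noncomputable section

/-! TARGET: prove the following -/

theorem agmon_l1 {d : ℕ} (L : ℝ) (f : HH d)
    (hf : ∀ᵐ x : EE d, L < ‖x‖ → (f : EE d → ℂ) x = 0) :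
    ∫ x, ‖(f : EE d → ℂ) x‖ ≤
      ‖f‖ * ((volume (Metric.closedBall (0 : EE d) L)).toReal) ^ (1 / 2 : ℝ) := by
  have hB : volume (Metric.closedBall (0 : EE d) L) ≠ ∞ :=
    (isCompact_closedBall (0 : EE d) L).measure_lt_top.ne
  have h1 : ∫ x, ‖(f : EE d → ℂ) x‖ =
      ∫ x in Metric.closedBall (0 : EE d) L, ‖(f : EE d → ℂ) x‖ := by
    symm
    apply setIntegral_eq_integral_of_ae_compl_eq_zero
    filter_upwards [hf] with x hx hxB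
    rw [hx (by simpa using hxB), norm_zero]
  have hfm : AEStronglyMeasurable (f : EE d → ℂ)
      ((volume : Measure (EE d)).restrict (Metric.closedBall (0 : EE d) L)) :=
    (Lp.aestronglyMeasurable f).restrict
  rw [h1, integral_norm_eq_lintegral_enorm hfm, ← eLpNorm_one_eq_lintegral_enorm]
  have h2 := eLpNorm_le_eLpNorm_mul_rpow_measure_univ (p := 1) (q := 2)
    (μ := (volume : Measure (EE d)).restrict (Metric.closedBall (0 : EE d) L)) one_le_two hfm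
  have h3 : eLpNorm (f : EE d → ℂ) 2
      ((volume : Measure (EE d)).restrict (Metric.closedBall (0 : EE d) L)) ≤
      eLpNorm (f : EE d → ℂ) 2 volume := eLpNorm_mono_measure _ Measure.restrict_le_self
  have h4 : eLpNorm (f : EE d → ℂ) 2 volume ≠ ∞ := (Lp.memLp f).2.ne
  rw [Measure.restrict_apply_univ] at h2
  have h5 : (1:ℝ) / (1 : ℝ≥0∞).toReal - 1 / (2 : ℝ≥0∞).toReal = 1 / 2 := by
    rw [ENNReal.toReal_one, ENNReal.toReal_ofNat]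
    norm_num
  rw [h5] at h2
  have h6 := h2.trans (mul_le_mul_left h3 _)
  have h7 : eLpNorm (f : EE d → ℂ) 2 volume *
      volume (Metric.closedBall (0 : EE d) L) ^ (1 / 2 : ℝ) ≠ ∞ :=
    ENNReal.mul_ne_top h4 (ENNReal.rpow_ne_top_of_nonneg (by norm_num) hB)
  have h8 := ENNReal.toReal_mono h7 h6
  rw [ENNReal.toReal_mul, ← ENNReal.toReal_rpow, ← Lp.norm_def] at h8
  exact h8

theorem agmon_l1l1 {d : ℕ} (L : ℝ) (hL : 0 ≤ L) (f g : HH d)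
    (hf : ∀ᵐ x : EE d, L < ‖x‖ → (f : EE d → ℂ) x = 0)
    (hg : ∀ᵐ x : EE d, L < ‖x‖ → (g : EE d → ℂ) x = 0) :
    (∫ x, ‖(f : EE d → ℂ) x‖) * (∫ x, ‖(g : EE d → ℂ) x‖) ≤
      (L ^ d * (volume (Metric.ball (0 : EE d) 1)).toReal) * (‖f‖ * ‖g‖) := by
  have h1 := agmon_l1 L f hf
  have h2 := agmon_l1 L g hg
  have hv : (volume (Metric.closedBall (0 : EE d) L)).toReal =
      L ^ d * (volume (Metric.ball (0 : EE d) 1)).toReal := by
    rw [Measure.addHaar_closedBall _ _ hL, ENNReal.toReal_mul, ENNReal.toReal_ofReal (by positivity),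
      finrank_euclideanSpace_fin]
  have hvn : 0 ≤ (volume (Metric.closedBall (0 : EE d) L)).toReal := ENNReal.toReal_nonneg
  have h0 : 0 ≤ ∫ x, ‖(g : EE d → ℂ) x‖ := integral_nonneg fun _ => norm_nonneg _
  calc (∫ x, ‖(f : EE d → ℂ) x‖) * (∫ x, ‖(g : EE d → ℂ) x‖)
      ≤ (‖f‖ * ((volume (Metric.closedBall (0 : EE d) L)).toReal) ^ (1 / 2 : ℝ)) *
        (‖g‖ * ((volume (Metric.closedBall (0 : EE d) L)).toReal) ^ (1 / 2 : ℝ)) :=
        mul_le_mul h1 h2 h0 (by positivity)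
    _ = (((volume (Metric.closedBall (0 : EE d) L)).toReal) ^ (1 / 2 : ℝ) *
        ((volume (Metric.closedBall (0 : EE d) L)).toReal) ^ (1 / 2 : ℝ)) * (‖f‖ * ‖g‖) := by ring
    _ = (volume (Metric.closedBall (0 : EE d) L)).toReal * (‖f‖ * ‖g‖) := by
        rw [← Real.sqrt_eq_rpow, Real.mul_self_sqrt hvn]
    _ = _ := by rw [hv]

theorem agmon_mult {d : ℕ} (m : EE d → ℂ) (hm : Measurable m) (C : ℝ) (hC : ∀ x, ‖m x‖ ≤ C)
    (h k : HH d) :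
    Integrable (fun ξ : EE d => (starRingEnd ℂ) (k ξ) * h ξ * m ξ) ∧
    ‖∫ ξ : EE d, (starRingEnd ℂ) (k ξ) * h ξ * m ξ‖ ≤ C * (‖h‖ * ‖k‖) := by
  have hae : (fun ξ : EE d => (starRingEnd ℂ) (k ξ) * h ξ * m ξ) =ᵐ[volume]
      fun ξ => ⟪(k : EE d → ℂ) ξ, (mulOp m h : EE d → ℂ) ξ⟫_ℂ := by
    filter_upwards [mulOp_ae m hm C hC h] with ξ hξ
    rw [hξ, RCLike.inner_apply]
    ring
  constructor
  · exact (L2.integrable_inner k (mulOp m h)).congr hae.symm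
  · rw [integral_congr_ae hae, ← L2.inner_def]
    refine (norm_inner_le_norm _ _).trans ?_
    have := mulOp_norm m hm C hC h
    calc ‖k‖ * ‖mulOp m h‖ ≤ ‖k‖ * (C * ‖h‖) := mul_le_mul_of_nonneg_left this (norm_nonneg _)
      _ = C * (‖h‖ * ‖k‖) := by ring

theorem agmon_rho (N : ℕ) (t : ℝ) (ht : 0 ≤ t) : |rho N t| ≤ t ^ (N + 1) := by
  unfold rho
  have h1 := intervalIntegral.norm_integral_le_of_norm_le_const (a := (0:ℝ)) (b := t)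
    (C := t ^ N) (f := fun u => u ^ N * Real.exp (-u) / (N.factorial : ℝ)) (fun u hu => by
      rw [Set.uIoc_of_le ht] at hu
      have hu0 : 0 ≤ u := hu.1.le
      have hf : (1:ℝ) ≤ (N.factorial : ℝ) := by exact_mod_cast N.factorial_pos
      rw [Real.norm_eq_abs, abs_of_nonneg (by positivity)]
      have h2 : u ^ N ≤ t ^ N := pow_le_pow_left₀ hu0 hu.2 N
      have h3 : Real.exp (-u) ≤ 1 := Real.exp_le_one_iff.2 (by linarith)
      calc u ^ N * Real.exp (-u) / (N.factorial : ℝ) ≤ u ^ N * Real.exp (-u) :=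
            div_le_self (by positivity) hf
        _ ≤ u ^ N * 1 := mul_le_mul_of_nonneg_left h3 (by positivity)
        _ ≤ t ^ N := by rw [mul_one]; exact h2)
  rw [Real.norm_eq_abs, sub_zero, abs_of_nonneg ht] at h1
  rw [pow_succ]
  exact h1

theorem agmon_int (d N : ℕ) (hN : d ≤ N) (σ : ℝ) (hσ : 0 < σ) (hσ1 : σ ≤ 1) (z : ℂ)
    (hz : 0 < z.im) :
    IntegrableOn (fun s => (((rho N (σ * s) : ℝ) : ℂ) * Complex.exp (I * z * (s : ℂ))) *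
      ((s ^ (-((d : ℝ) / 2)) : ℝ) : ℂ)) (Set.Ioi 0) := by
  have hA := (lap_two N σ hσ z hz 0).1
  have hmeas : AEStronglyMeasurable (fun s : ℝ => ((s ^ (-((d : ℝ) / 2)) : ℝ) : ℂ))
      (volume.restrict (Set.Ioi (0:ℝ))) := by
    have : Measurable (fun s : ℝ => ((s ^ (-((d : ℝ) / 2)) : ℝ) : ℂ)) := by fun_prop
    exact this.aestronglyMeasurable
  have hm2 : AEStronglyMeasurable (fun s : ℝ => (((rho N (σ * s) : ℝ) : ℂ) *
      Complex.exp (I * z * (s : ℂ))) * ((s ^ (-((d : ℝ) / 2)) : ℝ) : ℂ))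
      (volume.restrict (Set.Ioi (0:ℝ))) := hA.aestronglyMeasurable.mul hmeas
  rw [← Set.Ioc_union_Ioi_eq_Ioi (zero_le_one' ℝ)]
  refine IntegrableOn.union ?_ ?_
  · have hm3 := hm2.mono_measure (Measure.restrict_mono_set volume
      (Set.Ioc_subset_Ioi_self (a := (1:ℝ)) (b := 0)))
    refine Integrable.of_bound (C := 1) hm3 ?_
    filter_upwards [ae_restrict_mem measurableSet_Ioc] with s hs
    have hs0 : 0 < s := hs.1
    have h1 : ‖Complex.exp (I * z * (s : ℂ))‖ ≤ 1 := by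
      rw [Complex.norm_exp]
      apply Real.exp_le_one_iff.2
      have : (I * z * (s:ℂ)).re = -(z.im * s) := by
        simp
      rw [this]
      have := mul_pos hz hs0
      linarith
    have h2 : |rho N (σ * s)| ≤ s ^ (N + 1) := by
      refine (agmon_rho N (σ * s) (by positivity)).trans ?_
      apply pow_le_pow_left₀ (by positivity)
      nlinarith
    rw [norm_mul, norm_mul, Complex.norm_real, Complex.norm_real, Real.norm_eq_abs,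
      Real.norm_eq_abs, abs_of_nonneg (Real.rpow_nonneg hs0.le _)]
    have h3 : |rho N (σ * s)| * ‖Complex.exp (I * z * (s : ℂ))‖ ≤ s ^ (N + 1) := by
      calc |rho N (σ * s)| * ‖Complex.exp (I * z * (s : ℂ))‖ ≤ s ^ (N + 1) * 1 :=
            mul_le_mul h2 h1 (norm_nonneg _) (by positivity)
        _ = s ^ (N + 1) := mul_one _
    refine (mul_le_mul_of_nonneg_right h3 (Real.rpow_nonneg hs0.le _)).trans ?_
    rw [← Real.rpow_natCast, ← Real.rpow_add hs0]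
    apply Real.rpow_le_one hs0.le hs.2
    push_cast
    have : (d:ℝ) ≤ N := by exact_mod_cast hN
    linarith [(Nat.cast_nonneg d : (0:ℝ) ≤ d)]
  · have hsub : Set.Ioi (1:ℝ) ⊆ Set.Ioi 0 := Set.Ioi_subset_Ioi zero_le_one
    have hm3 := hm2.mono_measure (Measure.restrict_mono_set volume hsub)
    refine Integrable.mono (hA.mono_set hsub) hm3 ?_
    filter_upwards [ae_restrict_mem measurableSet_Ioi] with s hs
    have hs1 : 1 < s := hs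
    rw [norm_mul _ (((s ^ (-((d : ℝ) / 2)) : ℝ) : ℂ)), Complex.norm_real, Real.norm_eq_abs,
      abs_of_nonneg (Real.rpow_nonneg (by linarith) _)]
    have h4 : s ^ (-((d : ℝ) / 2)) ≤ 1 :=
      Real.rpow_le_one_of_one_le_of_nonpos hs1.le (by
        have := (Nat.cast_nonneg d : (0:ℝ) ≤ d)
        linarith)
    calc _ ≤ ‖((rho N (σ * s) : ℝ) : ℂ) * Complex.exp (I * z * (s : ℂ))‖ * 1 :=
          mul_le_mul_of_nonneg_left h4 (norm_nonneg _)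
      _ = _ := mul_one _

theorem agmon_split (N : ℕ) (σ : ℝ) (hσ : 0 < σ) (a : ℂ) (ha : 0 < a.re) :
    a⁻¹ = (∑ j ∈ Finset.range (N + 1), ((σ : ℂ) / ((σ : ℂ) + a)) ^ j) * ((σ : ℂ) + a)⁻¹ +
      a⁻¹ * ((σ : ℂ) / ((σ : ℂ) + a)) ^ (N + 1) := by
  have ha0 : a ≠ 0 := by
    rintro rfl
    simp at ha
  have hs0 : (σ : ℂ) + a ≠ 0 := by
    intro h
    have := congrArg Complex.re h
    simp at this
    linarith
  have hgeom := geom_sum_mul ((σ : ℂ) / ((σ : ℂ) + a)) (N + 1)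
  have h1 : ((σ : ℂ) + a)⁻¹ = (1 - (σ : ℂ) / ((σ : ℂ) + a)) * a⁻¹ := by
    field_simp
    ring
  rw [h1]
  linear_combination a⁻¹ * hgeom

theorem agmon_bd1 (N : ℕ) (σ : ℝ) (hσ : 0 < σ) (a : ℂ) (ha : 0 < a.re) :
    ‖(∑ j ∈ Finset.range (N + 1), ((σ : ℂ) / ((σ : ℂ) + a)) ^ j) * ((σ : ℂ) + a)⁻¹‖ ≤
      (N + 1) * σ⁻¹ ∧ ‖(σ : ℂ) / ((σ : ℂ) + a)‖ ≤ 1 := by
  have h1 : σ ≤ ‖(σ : ℂ) + a‖ := by
    refine le_trans ?_ (Complex.re_le_norm _)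
    rw [Complex.add_re, Complex.ofReal_re]
    linarith
  have h2 : ‖(σ : ℂ) / ((σ : ℂ) + a)‖ ≤ 1 := by
    rw [norm_div, Complex.norm_real, Real.norm_eq_abs, abs_of_pos hσ]
    exact div_le_one_of_le₀ h1 (norm_nonneg _)
  refine ⟨?_, h2⟩
  rw [norm_mul, norm_inv]
  refine mul_le_mul ?_ (inv_anti₀ hσ h1) (by positivity) (by positivity)
  calc ‖∑ j ∈ Finset.range (N + 1), ((σ : ℂ) / ((σ : ℂ) + a)) ^ j‖
      ≤ ∑ j ∈ Finset.range (N + 1), ‖((σ : ℂ) / ((σ : ℂ) + a)) ^ j‖ := norm_sum_le _ _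
    _ ≤ ∑ j ∈ Finset.range (N + 1), (1:ℝ) := by
        refine Finset.sum_le_sum fun j _ => ?_
        rw [norm_pow]
        exact pow_le_one₀ (norm_nonneg _) h2
    _ = N + 1 := by simp

theorem agmon (d : ℕ) (hd : 2 ≤ d) :
    ∃ a C : ℝ, a < 2 * (d : ℝ) / ((d : ℝ) + 1) ∧ 0 < C ∧ ∀ (L : ℝ) (z : ℂ), 1 ≤ L → 0 < z.im →
      ‖z‖ = 1 → ∀ f g : HH d, (∀ᵐ x : EE d, L < ‖x‖ → (f : EE d → ℂ) x = 0) →
        (∀ᵐ x : EE d, L < ‖x‖ → (g : EE d → ℂ) x = 0) →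
        ‖⟪g, Rz d z f⟫_ℂ‖ ≤ C * L ^ a * ‖f‖ * ‖g‖ := by
  obtain ⟨D, hDd⟩ : ∃ D : ℝ, D = (d : ℝ) := ⟨_, rfl⟩
  have hD : 2 ≤ D := by rw [hDd]; exact_mod_cast hd
  obtain ⟨δ, hδ⟩ : ∃ δ : ℝ, δ = (2 * D - 3) / (2 * (D + 1)) := ⟨_, rfl⟩
  have hD1 : 0 < D + 1 := by linarith
  have hδ0 : 0 < δ := by rw [hδ]; apply div_pos <;> linarith
  have hδ1 : 1 + δ < 2 * D / (D + 1) := by
    rw [hδ, lt_div_iff₀ hD1]
    have : (1 + (2 * D - 3) / (2 * (D + 1))) * (D + 1) = (4 * D - 1) / 2 := by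
      field_simp
      ring
    rw [this]
    linarith
  have hδ2 : (1 - δ) * D / 2 < 2 * D / (D + 1) := by
    rw [hδ, lt_div_iff₀ hD1]
    have : (1 - (2 * D - 3) / (2 * (D + 1))) * D / 2 * (D + 1) = 5 * D / 4 := by
      field_simp
      ring
    rw [this]
    linarith
  obtain ⟨n, hn⟩ := exists_nat_ge ((D / 2 + 1) / δ)
  obtain ⟨N, hNn⟩ : ∃ N : ℕ, N = d + n := ⟨_, rfl⟩
  have hNδ : D / 2 + 1 ≤ δ * ((N : ℝ) + 1) := by
    rw [div_le_iff₀ hδ0] at hn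
    have : (n : ℝ) ≤ (N : ℝ) + 1 := by
      have : (n : ℝ) ≤ (N : ℝ) := by exact_mod_cast (by omega : n ≤ N)
      linarith
    nlinarith
  have hdN : d ≤ N := by omega
  obtain ⟨C, hC, hosc⟩ := osc_two d N hd hdN
  obtain ⟨V, hV⟩ : ∃ V : ℝ, V = (volume (Metric.ball (0 : EE d) 1)).toReal := ⟨_, rfl⟩
  have hV0 : 0 ≤ V := by rw [hV]; exact ENNReal.toReal_nonneg
  refine ⟨max (1 + δ) ((1 - δ) * D / 2), ((N : ℝ) + 1) + C * (V + V), ?_, by positivity, ?_⟩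
  · rw [← hDd]
    exact max_lt hδ1 hδ2
  intro L z hL hz hz1 f g hf hg
  have hL0 : 0 < L := by linarith
  obtain ⟨a0, ha0⟩ : ∃ a0 : ℝ, a0 = max (1 + δ) ((1 - δ) * D / 2) := ⟨_, rfl⟩
  rw [← ha0]
  obtain ⟨σ, hσ⟩ : ∃ σ : ℝ, σ = L ^ (-(1 + δ)) := ⟨_, rfl⟩
  have hσ0 : 0 < σ := by rw [hσ]; exact Real.rpow_pos_of_pos hL0 _
  have hσ1 : σ ≤ 1 := by
    rw [hσ]
    exact Real.rpow_le_one_of_one_le_of_nonpos hL (by linarith)
  rw [Rz_inner z (Or.inl hz) f g]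
  obtain ⟨h, hh⟩ : ∃ h : HH d, h = (𝓕 f : HH d) := ⟨_, rfl⟩
  obtain ⟨k, hk⟩ : ∃ k : HH d, k = (𝓕 g : HH d) := ⟨_, rfl⟩
  have hhn : ‖h‖ = ‖f‖ := by rw [hh]; exact MeasureTheory.Lp.norm_fourier_eq f
  have hkn : ‖k‖ = ‖g‖ := by rw [hk]; exact MeasureTheory.Lp.norm_fourier_eq g
  obtain ⟨a, ha⟩ : ∃ a : EE d → ℂ, a = fun ξ => I * (((4 * Real.pi ^ 2 * ‖ξ‖ ^ 2 : ℝ) : ℂ) - z) :=
    ⟨_, rfl⟩
  have har : ∀ ξ, (a ξ).re = z.im := by
    intro ξ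
    rw [ha]
    show (I * (((4 * Real.pi ^ 2 * ‖ξ‖ ^ 2 : ℝ) : ℂ) - z)).re = z.im
    rw [Complex.mul_re, Complex.I_re, Complex.I_im, Complex.sub_im, Complex.ofReal_im]
    ring
  have ham : Measurable a := by rw [ha]; fun_prop
  obtain ⟨m1, hm1⟩ : ∃ m1 : EE d → ℂ, m1 = fun ξ => (∑ j ∈ Finset.range (N + 1),
    ((σ : ℂ) / ((σ : ℂ) + a ξ)) ^ j) * ((σ : ℂ) + a ξ)⁻¹ := ⟨_, rfl⟩
  obtain ⟨m2, hm2⟩ : ∃ m2 : EE d → ℂ, m2 = fun ξ => (a ξ)⁻¹ *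
    ((σ : ℂ) / ((σ : ℂ) + a ξ)) ^ (N + 1) := ⟨_, rfl⟩
  have hm1m : Measurable m1 := by rw [hm1]; fun_prop
  have hm2m : Measurable m2 := by rw [hm2]; fun_prop
  have hb1 : ∀ ξ, ‖m1 ξ‖ ≤ (N + 1) * σ⁻¹ := by
    intro ξ
    rw [hm1]
    exact (agmon_bd1 N σ hσ0 (a ξ) (by rw [har]; exact hz)).1
  have hb2 : ∀ ξ, ‖m2 ξ‖ ≤ (z.im)⁻¹ := by
    intro ξ
    rw [hm2]
    show ‖(a ξ)⁻¹ * ((σ : ℂ) / ((σ : ℂ) + a ξ)) ^ (N + 1)‖ ≤ (z.im)⁻¹
    rw [norm_mul, norm_inv, norm_pow]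
    have h1 := (agmon_bd1 N σ hσ0 (a ξ) (by rw [har]; exact hz)).2
    have h2 : z.im ≤ ‖a ξ‖ := by
      rw [← har ξ]
      exact Complex.re_le_norm _
    calc ‖a ξ‖⁻¹ * ‖(σ : ℂ) / ((σ : ℂ) + a ξ)‖ ^ (N + 1) ≤ (z.im)⁻¹ * 1 :=
          mul_le_mul (inv_anti₀ hz h2) (pow_le_one₀ (norm_nonneg _) h1) (by positivity)
            (by positivity)
      _ = (z.im)⁻¹ := mul_one _
  have hsym : ∀ ξ, sym z ξ = I * m1 ξ + I * m2 ξ := by
    intro ξ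
    have h1 := agmon_split N σ hσ0 (a ξ) (by rw [har]; exact hz)
    have h2 : sym z ξ = I * (a ξ)⁻¹ := by
      unfold sym
      rw [ha]
      show _ = I * (I * (((4 * Real.pi ^ 2 * ‖ξ‖ ^ 2 : ℝ) : ℂ) - z))⁻¹
      rw [mul_inv, ← mul_assoc, mul_inv_cancel₀ Complex.I_ne_zero, one_mul]
    rw [h2, hm1, hm2, ← mul_add]
    congr 1
  obtain ⟨hi1, hn1⟩ := agmon_mult m1 hm1m _ hb1 h k
  obtain ⟨hi2, _⟩ := agmon_mult m2 hm2m _ hb2 h k
  have hsplit : ∫ ξ : EE d, (starRingEnd ℂ) ((𝓕 g : HH d) ξ) * (𝓕 f : HH d) ξ * sym z ξ =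
      I * (∫ ξ : EE d, (starRingEnd ℂ) (k ξ) * h ξ * m1 ξ) +
      I * (∫ ξ : EE d, (starRingEnd ℂ) (k ξ) * h ξ * m2 ξ) := by
    rw [← hh, ← hk, ← integral_const_mul, ← integral_const_mul,
      ← integral_add (hi1.const_mul I) (hi2.const_mul I)]
    refine integral_congr_ae (Filter.Eventually.of_forall fun ξ => ?_)
    show (starRingEnd ℂ) (k ξ) * h ξ * sym z ξ = I * ((starRingEnd ℂ) (k ξ) * h ξ * m1 ξ) +
      I * ((starRingEnd ℂ) (k ξ) * h ξ * m2 ξ)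
    rw [hsym]
    ring
  obtain ⟨B, hB⟩ : ∃ B : ℝ, B = C * (σ ^ (N + 1) * L ^ ((N : ℝ) + 2 - (d : ℝ) / 2) +
    σ ^ ((d : ℝ) / 2)) := ⟨_, rfl⟩
  have hB0 : 0 ≤ B := by rw [hB]; positivity
  have hn2 : ‖∫ ξ : EE d, (starRingEnd ℂ) (k ξ) * h ξ * m2 ξ‖ ≤
      B * (∫ x, ‖(f : EE d → ℂ) x‖) * (∫ x, ‖(g : EE d → ℂ) x‖) := by
    have hK := kernel_bound d (fun s => ((rho N (σ * s) : ℝ) : ℂ) * Complex.exp (I * z * (s : ℂ)))
      (lap_two N σ hσ0 z hz 0).1 (agmon_int d N hdN σ hσ0 hσ1 z hz) L B hB0 (fun r hr0 hr1 => by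
        have h1 := hosc σ L z r hσ0 hσ1 hL hz hz1 hr0 hr1
        rw [← hB] at h1
        refine le_trans (le_of_eq ?_) h1
        congr 1
        refine integral_congr_ae (Filter.Eventually.of_forall fun s => ?_)
        show ((rho N (σ * s) : ℝ) : ℂ) * Complex.exp (I * z * (s : ℂ)) *
          ((s ^ (-((d : ℝ) / 2)) : ℝ) : ℂ) * Complex.exp (I * ((r ^ 2 / (4 * s) : ℝ) : ℂ)) =
          ((rho N (σ * s) * s ^ (-((d : ℝ) / 2)) : ℝ) : ℂ) *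
            Complex.exp (I * z * (s : ℂ)) * Complex.exp (I * ((r ^ 2 / (4 * s) : ℝ) : ℂ))
        rw [Complex.ofReal_mul]
        ring) f g hf hg
    rw [← hh, ← hk] at hK
    refine le_trans (le_of_eq ?_) hK
    congr 1
    refine integral_congr_ae (Filter.Eventually.of_forall fun ξ => ?_)
    have h2 := (lap_two N σ hσ0 z hz (4 * Real.pi ^ 2 * ‖ξ‖ ^ 2)).2
    show (starRingEnd ℂ) (k ξ) * h ξ * m2 ξ = (starRingEnd ℂ) (k ξ) * h ξ *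
      (∫ s in Set.Ioi (0 : ℝ), ((rho N (σ * s) : ℝ) : ℂ) * Complex.exp (I * z * (s : ℂ)) *
        Complex.exp (-(I * ((s * (4 * Real.pi ^ 2 * ‖ξ‖ ^ 2) : ℝ) : ℂ))))
    rw [h2, hm2, ha]
  rw [hhn, hkn] at hn1
  have hσinv : σ⁻¹ = L ^ (1 + δ) := by
    rw [hσ, Real.rpow_neg hL0.le, inv_inv]
  have hfg : 0 ≤ ‖f‖ * ‖g‖ := by positivity
  have hr1 : L ^ (1 + δ) ≤ L ^ a0 :=
    Real.rpow_le_rpow_of_exponent_le hL (by rw [ha0]; exact le_max_left _ _)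
  have hr2 : L ^ ((1 - δ) * D / 2) ≤ L ^ a0 :=
    Real.rpow_le_rpow_of_exponent_le hL (by rw [ha0]; exact le_max_right _ _)
  have hr3 : 1 ≤ L ^ a0 := Real.one_le_rpow hL (by
    rw [ha0]
    exact le_trans (by linarith : (0:ℝ) ≤ 1 + δ) (le_max_left _ _))
  have hLd : L ^ d = L ^ D := by rw [hDd, Real.rpow_natCast]
  have hs1 : σ ^ (N + 1) * L ^ ((N : ℝ) + 2 - (d : ℝ) / 2) * L ^ d ≤ L ^ a0 := by
    have e : σ ^ (N + 1) * L ^ ((N : ℝ) + 2 - (d : ℝ) / 2) * L ^ d =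
        L ^ (-(1 + δ) * ((N : ℝ) + 1) + ((N : ℝ) + 2 - D / 2) + D) := by
      rw [hLd, ← hDd, Real.rpow_add hL0, Real.rpow_add hL0, hσ, ← Real.rpow_natCast,
        ← Real.rpow_mul hL0.le]
      push_cast
      ring_nf
    rw [e]
    refine le_trans (Real.rpow_le_one_of_one_le_of_nonpos hL ?_) hr3
    linarith
  have hs2 : σ ^ ((d : ℝ) / 2) * L ^ d ≤ L ^ a0 := by
    have e : σ ^ ((d : ℝ) / 2) * L ^ d = L ^ ((1 - δ) * D / 2) := by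
      rw [hLd, ← hDd, hσ, ← Real.rpow_mul hL0.le, ← Real.rpow_add hL0]
      congr 1
      ring
    rw [e]
    exact hr2
  have hBL : B * (L ^ d * V) ≤ C * (V + V) * L ^ a0 := by
    have e : B * (L ^ d * V) = C * V * (σ ^ (N + 1) * L ^ ((N : ℝ) + 2 - (d : ℝ) / 2) * L ^ d) +
        C * V * (σ ^ ((d : ℝ) / 2) * L ^ d) := by
      rw [hB]
      ring
    rw [e]
    have hCV : 0 ≤ C * V := by positivity
    have h1 := mul_le_mul_of_nonneg_left hs1 hCV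
    have h2 := mul_le_mul_of_nonneg_left hs2 hCV
    linarith
  rw [hsplit]
  calc ‖I * (∫ ξ : EE d, (starRingEnd ℂ) (k ξ) * h ξ * m1 ξ) +
      I * (∫ ξ : EE d, (starRingEnd ℂ) (k ξ) * h ξ * m2 ξ)‖
      ≤ ‖∫ ξ : EE d, (starRingEnd ℂ) (k ξ) * h ξ * m1 ξ‖ +
        ‖∫ ξ : EE d, (starRingEnd ℂ) (k ξ) * h ξ * m2 ξ‖ := by
        refine (norm_add_le _ _).trans ?_
        rw [norm_mul, norm_mul, Complex.norm_I, one_mul, one_mul]
    _ ≤ ((N : ℝ) + 1) * σ⁻¹ * (‖f‖ * ‖g‖) +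
        B * ((∫ x, ‖(f : EE d → ℂ) x‖) * (∫ x, ‖(g : EE d → ℂ) x‖)) := by
        refine add_le_add hn1 (hn2.trans (le_of_eq ?_))
        ring
    _ ≤ ((N : ℝ) + 1) * L ^ (1 + δ) * (‖f‖ * ‖g‖) + B * ((L ^ d * V) * (‖f‖ * ‖g‖)) := by
        rw [hσinv, hV]
        have := mul_le_mul_of_nonneg_left (agmon_l1l1 L hL0.le f g hf hg) hB0
        linarith
    _ = (((N : ℝ) + 1) * L ^ (1 + δ) + B * (L ^ d * V)) * (‖f‖ * ‖g‖) := by ring
    _ ≤ (((N : ℝ) + 1) * L ^ a0 + C * (V + V) * L ^ a0) * (‖f‖ * ‖g‖) := by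
        refine mul_le_mul_of_nonneg_right ?_ hfg
        have h1 := mul_le_mul_of_nonneg_left hr1 (by positivity : (0:ℝ) ≤ (N : ℝ) + 1)
        linarith
    _ = (((N : ℝ) + 1) + C * (V + V)) * L ^ a0 * ‖f‖ * ‖g‖ := by ring

end

end KRS

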