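import Pool.Agent.H631.KR.Defs
import Pool.Agent.H631.KR.C01
import Pool.Agent.H631.KR.K00
import Pool.Agent.H631.KR.K08
import Pool.Agent.H631.KR.K09
import Pool.Agent.H631.KR.K0R
import Pool.Agent.H631.KR.K10

open MeasureTheory Filter Topology ENNReal Complex
open scoped Laplacian FourierTransform InnerProductSpace

namespace KRS

noncomputable section

/-! TARGET: prove the following -/

theorem bs_small_K (d : ℕ) (hd : 1 ≤ d) (p : ℝ) (hp1 : d = 1 → p = 1) (hp : (d : ℝ) / 2 < p)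
    (hp' : p ≤ ((d : ℝ) + 1) / 2) :
    ∃ C : ℝ, 0 < C ∧ (d = 1 → C = 1 / 2) ∧ ∀ ζ : ℂ, ‖ζ‖ = 1 → ζ ≠ 1 → ∀ W₁ W₂ : EE d → ℝ,
      Wt W₁ → Wt W₂ → ∀ f g : HH d, ‖⟪wm W₁ g, Rz d ζ (wm W₂ f)⟫_ℂ‖ ≤
        C * (∫ x, W₁ x ^ (2 * p)) ^ (1 / (2 * p)) * (∫ x, W₂ x ^ (2 * p)) ^ (1 / (2 * p)) *
          ‖f‖ * ‖g‖ := by
  rcases Nat.lt_or_ge 1 d with h | h
  · obtain ⟨C, hC, hK⟩ := krs_up d h p hp hp'
    refine ⟨C, hC, fun h' => absurd h' (by omega), fun ζ hζ hζ1 W₁ W₂ h1 h2 f g => ?_⟩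
    refine ext_z (wm W₂ f) (wm W₁ g) _ (fun z hz hz1 => ⟨hK z hz hz1 W₁ W₂ h1 h2 f g, ?_⟩)
      ζ hζ hζ1
    refine (hK z hz hz1 W₂ W₁ h2 h1 g f).trans (le_of_eq ?_)
    ring
  · have hd1 : d = 1 := by omega
    subst hd1
    have hp1' := hp1 rfl
    subst hp1'
    refine ⟨1 / 2, by norm_num, fun _ => rfl, fun ζ hζ hζ1 W₁ W₂ h1 h2 f g => ?_⟩
    have e1 : (2 * (1 : ℝ)) = 2 := by norm_num
    rw [e1]
    refine ext_z (wm W₂ f) (wm W₁ g) _ (fun z hz hz1 => ⟨krs_one z hz hz1 W₁ W₂ h1 h2 f g, ?_⟩)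
      ζ hζ hζ1
    refine (krs_one z hz hz1 W₂ W₁ h2 h1 g f).trans (le_of_eq ?_)
    ring

theorem bs_small_pw {w t q : ℝ} (hw : 0 ≤ w) (ht : 0 ≤ t) (hq : 0 < q) (h : w ≤ Real.sqrt t) :
    w ^ (2 * q) ≤ t ^ q := by
  calc w ^ (2 * q) ≤ (Real.sqrt t) ^ (2 * q) := Real.rpow_le_rpow hw h (by positivity)
    _ = t ^ q := by
      rw [Real.sqrt_eq_rpow, ← Real.rpow_mul ht]
      congr 1
      ring

theorem bs_small_int {d : ℕ} {q : ℝ} {W F : EE d → ℝ} (hW0 : ∀ x, 0 ≤ W x)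
    (hF : Integrable F) (h : ∀ x, W x ^ (2 * q) ≤ F x) :
    0 ≤ ∫ x, W x ^ (2 * q) ∧ ∫ x, W x ^ (2 * q) ≤ ∫ x, F x := by
  refine ⟨integral_nonneg fun x => Real.rpow_nonneg (hW0 x) _, ?_⟩
  exact integral_mono_of_nonneg (Eventually.of_forall fun x => Real.rpow_nonneg (hW0 x) _) hF
    (Eventually.of_forall h)

theorem bs_small_split {d : ℕ} (W : EE d → ℝ) (hW : Wt W) (S : Set (EE d))
    (hS : MeasurableSet S) : Wt (S.indicator W) ∧ Wt (Sᶜ.indicator W) ∧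
      ∀ f : HH d, wm W f = wm (S.indicator W) f + wm (Sᶜ.indicator W) f := by
  have key : ∀ T : Set (EE d), MeasurableSet T → Wt (T.indicator W) := by
    intro T hT
    obtain ⟨h1, h2, ⟨B, hB⟩, ⟨r, hr⟩⟩ := hW
    refine ⟨h1.indicator hT, fun x => Set.indicator_nonneg (fun x _ => h2 x) x, ⟨B, fun x => ?_⟩,
      ⟨r, fun x hx => ?_⟩⟩
    · exact (Set.indicator_le_self' (fun x _ => h2 x) x).trans (hB x)
    · by_cases hxT : x ∈ T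
      · rw [Set.indicator_of_mem hxT, hr x hx]
      · rw [Set.indicator_of_notMem hxT]
  refine ⟨key S hS, key Sᶜ hS.compl, fun f => ?_⟩
  apply Lp.ext
  filter_upwards [wm_ae W hW f, wm_ae _ (key S hS) f, wm_ae _ (key Sᶜ hS.compl) f,
    Lp.coeFn_add (wm (S.indicator W) f) (wm (Sᶜ.indicator W) f)] with x h1 h2 h3 h4
  rw [h1, h4, Pi.add_apply, h2, h3, ← add_mul, ← Complex.ofReal_add]
  congr 2
  by_cases hx : x ∈ S
  · rw [Set.indicator_of_mem hx, Set.indicator_of_notMem (show x ∉ Sᶜ from fun h => h hx), add_zero]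
  · rw [Set.indicator_of_notMem hx, Set.indicator_of_mem (show x ∈ Sᶜ from hx), zero_add]

theorem bs_small_ek {e h : ℝ} (he : 0 < e) (hh : 0 < h) (q D : ℝ) :
    e ^ (-q) * (Real.sqrt e / h) ^ D = e ^ (D / 2 - q) * h ^ (-D) := by
  rw [Real.div_rpow (Real.sqrt_nonneg _) hh.le, Real.sqrt_eq_rpow, ← Real.rpow_mul he.le,
    Real.rpow_neg hh.le, div_eq_mul_inv, ← mul_assoc, ← Real.rpow_add he]
  congr 2
  ring

theorem bs_small_small {s c : ℝ} (hs : 0 < s) (hc : 0 < c) :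
    ∃ h₀ : ℝ, 0 < h₀ ∧ ∀ h, 0 < h → h < h₀ → h ^ s ≤ c := by
  refine ⟨c ^ (1 / s), Real.rpow_pos_of_pos hc _, fun h h0 h1 => ?_⟩
  calc h ^ s ≤ (c ^ (1 / s)) ^ s := Real.rpow_le_rpow h0.le h1.le hs.le
    _ = c := by
      rw [← Real.rpow_mul hc.le, one_div_mul_cancel hs.ne', Real.rpow_one]

/-- the truncated potential -/
def bs_small_G {d : ℕ} (V : EE d → ℂ) (m0 : ℝ) : Set (EE d) := {x | ‖x‖ ≤ m0 ∧ ‖V x‖ ≤ m0}

theorem bs_small_Gm {d : ℕ} {V : EE d → ℂ} (hV : Measurable V) (m0 : ℝ) :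
    MeasurableSet (bs_small_G V m0) :=
  (measurableSet_le measurable_norm measurable_const).inter
    (measurableSet_le hV.norm measurable_const)

theorem bs_small_VGint {d : ℕ} {V : EE d → ℂ} (hV : Measurable V) (m0 : ℝ) (hm0 : 0 ≤ m0) (q : ℝ)
    (hq : 0 < q) : Integrable (fun x => ‖(bs_small_G V m0).indicator V x‖ ^ q) := by
  have hG := bs_small_Gm hV m0
  have hint : Integrable ((Metric.closedBall (0 : EE d) m0).indicator (fun _ => m0 ^ q)) := by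
    refine (integrable_indicator_iff measurableSet_closedBall).2 ?_
    exact integrableOn_const (isCompact_closedBall (0 : EE d) m0).measure_lt_top.ne
  refine Integrable.mono' hint ?_ (Eventually.of_forall fun x => ?_)
  · exact ((hV.indicator hG).norm.pow_const q).aestronglyMeasurable
  · rw [Real.norm_eq_abs, abs_of_nonneg (Real.rpow_nonneg (norm_nonneg _) _)]
    by_cases hx : x ∈ bs_small_G V m0
    · have hx' : x ∈ Metric.closedBall (0 : EE d) m0 := by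
        rw [Metric.mem_closedBall, dist_zero_right]
        exact hx.1
      rw [Set.indicator_of_mem hx, Set.indicator_of_mem hx']
      exact Real.rpow_le_rpow (norm_nonneg _) hx.2 hq.le
    · rw [Set.indicator_of_notMem hx, norm_zero, Real.zero_rpow hq.ne']
      exact Set.indicator_nonneg (fun _ _ => Real.rpow_nonneg hm0 _) x

theorem bs_small_nd {d : ℕ} (V : EE d → ℂ) (k e : ℝ) (he : 0 < e) (x : EE d) :
    ‖V (k⁻¹ • x) / (e : ℂ)‖ = ‖V (k⁻¹ • x)‖ / e := by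
  rw [norm_div, Complex.norm_real, Real.norm_eq_abs, abs_of_pos he]

/-- the truncated part, `γ < 1/2` -/
theorem bs_small_one_lt (d : ℕ) (hd : 2 ≤ d) (γ : ℝ) (hγ : 0 < γ) (hγ' : γ < 1 / 2)
    (V : EE d → ℂ) (hV : Measurable V) (I : ℝ) (hI : 0 < I) (m0 : ℝ) (hm0 : 1 ≤ m0) :
    ∃ h₀ : ℝ, 0 < h₀ ∧ ∀ (h e : ℝ) (ζ : ℂ), 0 < h → h < h₀ → 0 < e → ‖ζ‖ = 1 → ζ ≠ 1 →
      h ^ (-(d : ℝ)) * I ≤ e ^ γ → ∀ W₁ W₂ : EE d → ℝ, Wt W₁ → Wt W₂ →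
      (∀ x, W₁ x ≤ Real.sqrt (‖(bs_small_G V m0).indicator V ((Real.sqrt e / h)⁻¹ • x)‖ / e)) →
      (∀ x, W₂ x ≤ Real.sqrt (‖(bs_small_G V m0).indicator V ((Real.sqrt e / h)⁻¹ • x)‖ / e)) →
      ∀ f g : HH d, ‖⟪wm W₁ g, Rz d ζ (wm W₂ f)⟫_ℂ‖ ≤ 1 / 4 * ‖f‖ * ‖g‖ := by
  have hd2 : (2 : ℝ) ≤ d := by exact_mod_cast hd
  set q : ℝ := ((d : ℝ) + 1) / 2 with hq
  have hq0 : 0 < q := by rw [hq]; linarith
  obtain ⟨C, hC, -, hK⟩ := bs_small_K d (by omega) q (fun h => absurd h (by omega))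
    (by rw [hq]; linarith) le_rfl
  set VG : EE d → ℂ := (bs_small_G V m0).indicator V with hVG
  have hVGm : Measurable VG := hV.indicator (bs_small_Gm hV m0)
  have hVGi : Integrable (fun x => ‖VG x‖ ^ q) :=
    bs_small_VGint hV m0 (by linarith) q hq0
  set J : ℝ := ∫ x, ‖VG x‖ ^ q with hJ
  have hJ0 : 0 ≤ J := integral_nonneg fun x => Real.rpow_nonneg (norm_nonneg _) _
  set A : ℝ := I ^ (-(1 / (2 * γ))) * J with hA
  have hA0 : 0 ≤ A := mul_nonneg (Real.rpow_nonneg hI.le _) hJ0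
  set u : ℝ := 1 / (2 * (C + 1)) with hu
  have hu0 : 0 < u := by rw [hu]; positivity
  have hCu : C * u * u ≤ 1 / 4 := by
    rw [hu]
    have h1 : C * (1 / (2 * (C + 1))) * (1 / (2 * (C + 1))) = C / (4 * (C + 1) ^ 2) := by
      field_simp
      norm_num
    rw [h1, div_le_div_iff₀ (by positivity) (by norm_num)]
    nlinarith
  have hs : 0 < (d : ℝ) * (1 / (2 * γ)) - d := by
    have h1 : 1 < 1 / (2 * γ) := by
      rw [lt_div_iff₀ (by positivity)]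
      linarith
    nlinarith
  have hc0 : 0 < u ^ (2 * q) / (A + 1) := div_pos (Real.rpow_pos_of_pos hu0 _) (by linarith)
  obtain ⟨h₀, hh₀, hsm⟩ := bs_small_small hs hc0
  refine ⟨h₀, hh₀, ?_⟩
  intro h e ζ hh hh1 he hζ hζ1 hyp W₁ W₂ hW₁ hW₂ hb₁ hb₂ f g
  set k : ℝ := Real.sqrt e / h with hk
  have hk0 : 0 < k := div_pos (Real.sqrt_pos.2 he) hh
  obtain ⟨-, hUi, hUint⟩ := dil_ok d VG hVGm k e hk0 he q hq0 hVGi Set.univ MeasurableSet.univ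
  have hset : {x : EE d | k⁻¹ • x ∈ (Set.univ : Set (EE d))} = Set.univ := by
    ext x
    simp
  rw [hset, Measure.restrict_univ, ← hJ, bs_small_ek he hh] at hUint
  -- bound of the integral
  have hX : ∫ x, ‖VG (k⁻¹ • x) / (e : ℂ)‖ ^ q ≤ u ^ (2 * q) := by
    rw [hUint]
    have e1 : (d : ℝ) / 2 - q = -(1 / 2) := by rw [hq]; ring
    rw [e1]
    have h2 : e ^ (-(1 / 2) : ℝ) ≤ (h ^ (-(d : ℝ)) * I) ^ (-(1 / (2 * γ))) := by
      have h3 : (e ^ γ) ^ (-(1 / (2 * γ))) ≤ (h ^ (-(d : ℝ)) * I) ^ (-(1 / (2 * γ))) :=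
        Real.rpow_le_rpow_of_nonpos (mul_pos (Real.rpow_pos_of_pos hh _) hI) hyp
          (by
            have : 0 < 1 / (2 * γ) := by positivity
            linarith)
      rw [← Real.rpow_mul he.le] at h3
      have e2 : γ * (-(1 / (2 * γ))) = -(1 / 2) := by
        field_simp
      rwa [e2] at h3
    have h4 : (h ^ (-(d : ℝ)) * I) ^ (-(1 / (2 * γ))) =
        h ^ ((d : ℝ) * (1 / (2 * γ))) * I ^ (-(1 / (2 * γ))) := by
      rw [Real.mul_rpow (Real.rpow_nonneg hh.le _) hI.le, ← Real.rpow_mul hh.le]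
      congr 2
      ring
    have h5 : h ^ ((d : ℝ) * (1 / (2 * γ))) * h ^ (-(d : ℝ)) =
        h ^ ((d : ℝ) * (1 / (2 * γ)) - d) := by
      rw [← Real.rpow_add hh]
      congr 1
    have hhd : 0 < h ^ (-(d : ℝ)) := Real.rpow_pos_of_pos hh _
    calc e ^ (-(1 / 2) : ℝ) * h ^ (-(d : ℝ)) * J
        ≤ (h ^ ((d : ℝ) * (1 / (2 * γ))) * I ^ (-(1 / (2 * γ)))) * h ^ (-(d : ℝ)) * J := by
          rw [← h4]
          exact mul_le_mul_of_nonneg_right (mul_le_mul_of_nonneg_right h2 hhd.le) hJ0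
      _ = A * (h ^ ((d : ℝ) * (1 / (2 * γ))) * h ^ (-(d : ℝ))) := by rw [hA]; ring
      _ = A * h ^ ((d : ℝ) * (1 / (2 * γ)) - d) := by rw [h5]
      _ ≤ A * (u ^ (2 * q) / (A + 1)) := mul_le_mul_of_nonneg_left (hsm h hh hh1) hA0
      _ ≤ u ^ (2 * q) := by
          rw [mul_div_assoc', div_le_iff₀ (by linarith)]
          nlinarith [Real.rpow_pos_of_pos hu0 (2 * q)]
  have hN : ∀ W : EE d → ℝ, Wt W →
      (∀ x, W x ≤ Real.sqrt (‖VG (k⁻¹ • x)‖ / e)) →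
      0 ≤ (∫ x, W x ^ (2 * q)) ^ (1 / (2 * q)) ∧ (∫ x, W x ^ (2 * q)) ^ (1 / (2 * q)) ≤ u := by
    intro W hW hb
    obtain ⟨i1, i2⟩ := bs_small_int (q := q) (W := W) (F := fun x => ‖VG (k⁻¹ • x) / (e : ℂ)‖ ^ q)
      hW.2.1 hUi (fun x => by
        rw [bs_small_nd VG k e he x]
        exact bs_small_pw (hW.2.1 x) (by positivity) hq0 (hb x))
    refine ⟨Real.rpow_nonneg i1 _, ?_⟩
    calc (∫ x, W x ^ (2 * q)) ^ (1 / (2 * q)) ≤ (u ^ (2 * q)) ^ (1 / (2 * q)) :=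
          Real.rpow_le_rpow i1 (i2.trans hX) (by positivity)
      _ = u := by
        rw [← Real.rpow_mul hu0.le, mul_one_div_cancel (by positivity), Real.rpow_one]
  obtain ⟨n1, n2⟩ := hN W₁ hW₁ hb₁
  obtain ⟨n3, n4⟩ := hN W₂ hW₂ hb₂
  refine (hK ζ hζ hζ1 W₁ W₂ hW₁ hW₂ f g).trans ?_
  have h6 : C * (∫ x, W₁ x ^ (2 * q)) ^ (1 / (2 * q)) * (∫ x, W₂ x ^ (2 * q)) ^ (1 / (2 * q)) ≤
      1 / 4 := by
    refine le_trans ?_ hCu
    exact mul_le_mul (mul_le_mul_of_nonneg_left n2 hC.le) n4 n3 (by positivity)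
  exact mul_le_mul_of_nonneg_right (mul_le_mul_of_nonneg_right h6 (norm_nonneg _)) (norm_nonneg _)

/-- the truncated part, `γ = 1/2` -/
theorem bs_small_one_eq (d : ℕ) (hd : 2 ≤ d)
    (V : EE d → ℂ) (hV : Measurable V) (I : ℝ) (hI : 0 < I) (m0 : ℝ) (hm0 : 1 ≤ m0) :
    ∃ h₀ : ℝ, 0 < h₀ ∧ ∀ (h e : ℝ) (ζ : ℂ), 0 < h → h < h₀ → 0 < e → ‖ζ‖ = 1 → ζ ≠ 1 →
      h ^ (-(d : ℝ)) * I ≤ e ^ (1 / 2 : ℝ) → ∀ W₁ W₂ : EE d → ℝ, Wt W₁ → Wt W₂ →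
      (∀ x, W₁ x ≤ Real.sqrt (‖(bs_small_G V m0).indicator V ((Real.sqrt e / h)⁻¹ • x)‖ / e)) →
      (∀ x, W₂ x ≤ Real.sqrt (‖(bs_small_G V m0).indicator V ((Real.sqrt e / h)⁻¹ • x)‖ / e)) →
      ∀ f g : HH d, ‖⟪wm W₁ g, Rz d ζ (wm W₂ f)⟫_ℂ‖ ≤ 1 / 4 * ‖f‖ * ‖g‖ := by
  have hd2 : (2 : ℝ) ≤ d := by exact_mod_cast hd
  have hm00 : 0 < m0 := by linarith
  obtain ⟨a, C, ha, hC, hK⟩ := agmon d hd
  have ha2 : a * ((d : ℝ) + 1) < 2 * d := by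
    rwa [lt_div_iff₀ (by linarith)] at ha
  have ha3 : a < 2 := by nlinarith
  have hs : 0 < -(d : ℝ) * (a - 2) - a := by nlinarith
  set B : ℝ := C * (m0 ^ a * m0) * I ^ (a - 2) with hB
  have hB0 : 0 < B := by
    have := Real.rpow_pos_of_pos hm00 a
    have := Real.rpow_pos_of_pos hI (a - 2)
    positivity
  obtain ⟨h₁, hh₁, hsm1⟩ := bs_small_small hs (show 0 < 1 / (4 * B) by positivity)
  obtain ⟨h₂, hh₂, hsm2⟩ := bs_small_small (s := (d : ℝ) + 1) (by linarith) hI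
  refine ⟨min h₁ h₂, lt_min hh₁ hh₂, ?_⟩
  intro h e ζ hh hhm he hζ hζ1 hyp W₁ W₂ hW₁ hW₂ hb₁ hb₂ f g
  have hlt1 := lt_of_lt_of_le hhm (min_le_left _ _)
  have hlt2 := lt_of_lt_of_le hhm (min_le_right _ _)
  set k : ℝ := Real.sqrt e / h with hk
  have hse : 0 < Real.sqrt e := Real.sqrt_pos.2 he
  have hk0 : 0 < k := div_pos hse hh
  rw [← Real.sqrt_eq_rpow] at hyp
  have hhd : 0 < h ^ (-(d : ℝ)) := Real.rpow_pos_of_pos hh _
  have hk1 : 1 ≤ k := by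
    rw [hk, le_div_iff₀ hh, one_mul]
    refine le_trans ?_ hyp
    have e1 : h = h ^ (-(d : ℝ)) * h ^ ((d : ℝ) + 1) := by
      rw [← Real.rpow_add hh]
      norm_num
    calc h = h ^ (-(d : ℝ)) * h ^ ((d : ℝ) + 1) := e1
      _ ≤ h ^ (-(d : ℝ)) * I := mul_le_mul_of_nonneg_left (hsm2 h hh hlt2) hhd.le
  set L : ℝ := k * m0 with hL
  have hL1 : 1 ≤ L := by nlinarith
  have hLb : C * L ^ a * (m0 / e) ≤ 1 / 4 := by
    have e1 : L ^ a = e ^ (a / 2) * h ^ (-a) * m0 ^ a := by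
      rw [hL, Real.mul_rpow hk0.le hm00.le, hk, Real.div_rpow hse.le hh.le, Real.sqrt_eq_rpow,
        ← Real.rpow_mul he.le, Real.rpow_neg hh.le, div_eq_mul_inv]
      congr 3
      ring
    have e2 : e ^ (a / 2) / e = e ^ (a / 2 - 1) := by
      rw [Real.rpow_sub he, Real.rpow_one]
    have e3 : C * L ^ a * (m0 / e) = C * (m0 ^ a * m0) * (e ^ (a / 2 - 1) * h ^ (-a)) := by
      rw [e1, ← e2]
      field_simp
    have h3 : e ^ (a / 2 - 1) ≤ (h ^ (-(d : ℝ)) * I) ^ (a - 2) := by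
      have h4 : (h ^ (-(d : ℝ)) * I) ^ 2 ≤ e := by
        have h5 := pow_le_pow_left₀ (by positivity) hyp 2
        rwa [Real.sq_sqrt he.le] at h5
      have h6 : e ^ (a / 2 - 1) ≤ ((h ^ (-(d : ℝ)) * I) ^ 2) ^ (a / 2 - 1) :=
        Real.rpow_le_rpow_of_nonpos (by positivity) h4 (by linarith)
      refine h6.trans (le_of_eq ?_)
      rw [← Real.rpow_natCast, ← Real.rpow_mul (by positivity)]
      congr 1
      push_cast
      ring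
    have h7 : (h ^ (-(d : ℝ)) * I) ^ (a - 2) = h ^ (-(d : ℝ) * (a - 2)) * I ^ (a - 2) := by
      rw [Real.mul_rpow hhd.le hI.le, ← Real.rpow_mul hh.le]
    have h8 : h ^ (-(d : ℝ) * (a - 2)) * h ^ (-a) = h ^ (-(d : ℝ) * (a - 2) - a) := by
      rw [← Real.rpow_add hh]
      congr 1
    have hha : 0 < h ^ (-a) := Real.rpow_pos_of_pos hh _
    have hma : 0 < C * (m0 ^ a * m0) := by
      have := Real.rpow_pos_of_pos hm00 a
      positivity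
    rw [e3]
    calc C * (m0 ^ a * m0) * (e ^ (a / 2 - 1) * h ^ (-a))
        ≤ C * (m0 ^ a * m0) * ((h ^ (-(d : ℝ) * (a - 2)) * I ^ (a - 2)) * h ^ (-a)) := by
          rw [← h7]
          exact mul_le_mul_of_nonneg_left (mul_le_mul_of_nonneg_right h3 hha.le) hma.le
      _ = B * (h ^ (-(d : ℝ) * (a - 2)) * h ^ (-a)) := by rw [hB]; ring
      _ = B * h ^ (-(d : ℝ) * (a - 2) - a) := by rw [h8]
      _ ≤ B * (1 / (4 * B)) := mul_le_mul_of_nonneg_left (hsm1 h hh hlt1) hB0.le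
      _ = 1 / 4 := by field_simp
  have hbd : ∀ W : EE d → ℝ, Wt W →
      (∀ x, W x ≤ Real.sqrt (‖(bs_small_G V m0).indicator V (k⁻¹ • x)‖ / e)) →
      (∀ x, W x ≤ Real.sqrt (m0 / e)) ∧ ∀ x, L < ‖x‖ → W x = 0 := by
    intro W hW hb
    constructor
    · intro x
      refine (hb x).trans (Real.sqrt_le_sqrt ?_)
      refine div_le_div_of_nonneg_right ?_ he.le
      by_cases hx : k⁻¹ • x ∈ bs_small_G V m0
      · rw [Set.indicator_of_mem hx]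
        exact hx.2
      · rw [Set.indicator_of_notMem hx, norm_zero]
        exact hm00.le
    · intro x hx
      have hx' : k⁻¹ • x ∉ bs_small_G V m0 := by
        intro hmem
        have h1 := hmem.1
        rw [norm_smul, Real.norm_eq_abs, abs_of_pos (inv_pos.2 hk0)] at h1
        have h2 : ‖x‖ ≤ k * m0 := by
          calc ‖x‖ = k * (k⁻¹ * ‖x‖) := by field_simp
            _ ≤ k * m0 := mul_le_mul_of_nonneg_left h1 hk0.le
        linarith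
      have h3 := hb x
      rw [Set.indicator_of_notMem hx', norm_zero, zero_div, Real.sqrt_zero] at h3
      exact le_antisymm h3 (hW.2.1 x)
  have hop : ∀ W : EE d → ℝ, Wt W → (∀ x, W x ≤ Real.sqrt (m0 / e)) → (∀ x, L < ‖x‖ → W x = 0) →
      ∀ g : HH d, ‖wm W g‖ ≤ Real.sqrt (m0 / e) * ‖g‖ ∧
        ∀ᵐ x : EE d, L < ‖x‖ → (wm W g : EE d → ℂ) x = 0 := by
    intro W hW h1 h2 g
    constructor
    · refine mulOp_norm (fun x => ((W x : ℝ) : ℂ)) (Complex.measurable_ofReal.comp hW.1)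
        (Real.sqrt (m0 / e)) (fun x => ?_) g
      rw [Complex.norm_real, Real.norm_eq_abs, abs_of_nonneg (hW.2.1 x)]
      exact h1 x
    · filter_upwards [wm_ae W hW g] with x hx hxL
      rw [hx, h2 x hxL, Complex.ofReal_zero, zero_mul]
  obtain ⟨b1, b2⟩ := hbd W₁ hW₁ hb₁
  obtain ⟨b3, b4⟩ := hbd W₂ hW₂ hb₂
  obtain ⟨o1, o2⟩ := hop W₁ hW₁ b1 b2 g
  obtain ⟨o3, o4⟩ := hop W₂ hW₂ b3 b4 f
  have hLa : 0 ≤ C * L ^ a := by
    have := Real.rpow_pos_of_pos (lt_of_lt_of_le one_pos hL1) a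
    positivity
  have hprod : ‖wm W₂ f‖ * ‖wm W₁ g‖ ≤ m0 / e * (‖f‖ * ‖g‖) := by
    have hme : 0 ≤ m0 / e := by positivity
    calc ‖wm W₂ f‖ * ‖wm W₁ g‖ ≤ (Real.sqrt (m0 / e) * ‖f‖) * (Real.sqrt (m0 / e) * ‖g‖) :=
          mul_le_mul o3 o1 (norm_nonneg _) (by positivity)
      _ = (Real.sqrt (m0 / e) * Real.sqrt (m0 / e)) * (‖f‖ * ‖g‖) := by ring
      _ = m0 / e * (‖f‖ * ‖g‖) := by rw [Real.mul_self_sqrt hme]
  have hfin : C * L ^ a * (‖wm W₂ f‖ * ‖wm W₁ g‖) ≤ 1 / 4 * ‖f‖ * ‖g‖ := by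
    calc C * L ^ a * (‖wm W₂ f‖ * ‖wm W₁ g‖) ≤ C * L ^ a * (m0 / e * (‖f‖ * ‖g‖)) :=
          mul_le_mul_of_nonneg_left hprod hLa
      _ = (C * L ^ a * (m0 / e)) * (‖f‖ * ‖g‖) := by ring
      _ ≤ 1 / 4 * (‖f‖ * ‖g‖) := mul_le_mul_of_nonneg_right hLb (by positivity)
      _ = 1 / 4 * ‖f‖ * ‖g‖ := by ring
  refine ext_z (wm W₂ f) (wm W₁ g) _ (fun z hz hz1 => ⟨?_, ?_⟩) ζ hζ hζ1
  · refine (hK L z hL1 hz hz1 (wm W₂ f) (wm W₁ g) o4 o2).trans ?_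
    rw [mul_assoc]
    exact hfin
  · refine (hK L z hL1 hz hz1 (wm W₁ g) (wm W₂ f) o2 o4).trans ?_
    rw [mul_assoc, mul_comm ‖wm W₁ g‖]
    exact hfin

theorem bs_small_wn {d : ℕ} (V : EE d → ℂ) (n : ℕ) (x : EE d) :
    0 ≤ wn V n x ∧ wn V n x ≤ Real.sqrt ‖V x‖ := by
  unfold wn
  by_cases hx : x ∈ {x : EE d | ‖x‖ ≤ n ∧ ‖V x‖ ≤ n}
  · rw [Set.indicator_of_mem hx]
    exact ⟨Real.sqrt_nonneg _, le_rfl⟩
  · rw [Set.indicator_of_notMem hx]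
    exact ⟨le_rfl, Real.sqrt_nonneg _⟩

theorem bs_small_N {d : ℕ} {p : ℝ} (hp : 0 < p) {W F : EE d → ℝ} (hW0 : ∀ x, 0 ≤ W x)
    (hF : Integrable F) (h : ∀ x, W x ^ (2 * p) ≤ F x) {c : ℝ} (hc : 0 ≤ c)
    (hFc : ∫ x, F x ≤ c ^ (2 * p)) :
    0 ≤ (∫ x, W x ^ (2 * p)) ^ (1 / (2 * p)) ∧ (∫ x, W x ^ (2 * p)) ^ (1 / (2 * p)) ≤ c := by
  obtain ⟨i1, i2⟩ := bs_small_int hW0 hF h
  refine ⟨Real.rpow_nonneg i1 _, ?_⟩
  calc (∫ x, W x ^ (2 * p)) ^ (1 / (2 * p)) ≤ (c ^ (2 * p)) ^ (1 / (2 * p)) :=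
        Real.rpow_le_rpow i1 (i2.trans hFc) (by positivity)
    _ = c := by
      rw [← Real.rpow_mul hc, mul_one_div_cancel (by positivity), Real.rpow_one]

theorem bs_small_tail {d : ℕ} {V : EE d → ℂ} (hV : Measurable V) {p : ℝ}
    (hVp : Integrable (fun x => ‖V x‖ ^ p)) {c : ℝ} (hc : 0 < c) :
    ∃ m0 : ℝ, 1 ≤ m0 ∧ ∫ x in (bs_small_G V m0)ᶜ, ‖V x‖ ^ p ≤ c := by
  have hanti : Antitone (fun n : ℕ => (bs_small_G V (n : ℝ))ᶜ) := by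
    intro i j hij
    apply Set.compl_subset_compl.2
    intro x hx
    have : (i : ℝ) ≤ j := by exact_mod_cast hij
    exact ⟨hx.1.trans this, hx.2.trans this⟩
  have ht := Antitone.tendsto_setIntegral (μ := (volume : Measure (EE d)))
    (f := fun x => ‖V x‖ ^ p) (fun n : ℕ => (bs_small_Gm hV (n : ℝ)).compl) hanti
    hVp.integrableOn
  have hemp : ⋂ n : ℕ, (bs_small_G V (n : ℝ))ᶜ = ∅ := by
    rw [Set.eq_empty_iff_forall_notMem]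
    intro x hx
    rw [Set.mem_iInter] at hx
    obtain ⟨n, hn⟩ := exists_nat_ge (max ‖x‖ ‖V x‖)
    exact hx n ⟨(le_max_left _ _).trans hn, (le_max_right _ _).trans hn⟩
  rw [hemp, Measure.restrict_empty, integral_zero_measure] at ht
  have h1 := (ht.eventually (eventually_le_nhds hc)).and (eventually_ge_atTop 1)
  obtain ⟨n, hn, hn1⟩ := h1.exists
  exact ⟨n, by exact_mod_cast hn1, hn⟩

theorem bs_small_zeta {E : ℂ} (hE : 0 < ‖E‖) (h : ¬ (0 ≤ E.re ∧ E.im = 0)) :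
    ‖E / ((‖E‖ : ℝ) : ℂ)‖ = 1 ∧ E / ((‖E‖ : ℝ) : ℂ) ≠ 1 := by
  have hne : ((‖E‖ : ℝ) : ℂ) ≠ 0 := by
    rw [Ne, Complex.ofReal_eq_zero]
    exact hE.ne'
  constructor
  · rw [norm_div, Complex.norm_real, Real.norm_eq_abs, abs_of_pos hE, div_self hE.ne']
  · intro h1
    rw [div_eq_one_iff_eq hne] at h1
    apply h
    rw [h1]
    exact ⟨by rw [Complex.ofReal_re]; exact hE.le, Complex.ofReal_im _⟩

theorem bs_small_four {d : ℕ} (R : HH d →L[ℂ] HH d) {a a1 a2 b b1 b2 : HH d}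
    (ha : a = a1 + a2) (hb : b = b1 + b2) {K1 K2 K3 K4 : ℝ} (h1 : ‖⟪a1, R b1⟫_ℂ‖ ≤ K1)
    (h2 : ‖⟪a1, R b2⟫_ℂ‖ ≤ K2) (h3 : ‖⟪a2, R b1⟫_ℂ‖ ≤ K3) (h4 : ‖⟪a2, R b2⟫_ℂ‖ ≤ K4) :
    ‖⟪a, R b⟫_ℂ‖ ≤ K1 + K2 + (K3 + K4) := by
  rw [ha, hb, map_add, inner_add_left, inner_add_right, inner_add_right]
  refine (norm_add_le _ _).trans ?_
  refine (add_le_add (norm_add_le _ _) (norm_add_le _ _)).trans ?_
  exact add_le_add (add_le_add h1 h2) (add_le_add h3 h4)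

theorem bs_small_gen {C a b x y : ℝ} (hC : 0 < C) (hx : 0 ≤ x) (hy : 0 ≤ y) (ha : 0 ≤ a)
    (hb : 0 ≤ b) (hab : a ≤ 1 ∧ b ≤ 1 / (12 * C) ∨ a ≤ 1 / (12 * C) ∧ b ≤ 1) :
    C * a * b * x * y ≤ 1 / 12 * x * y := by
  have hc12 : 0 < 1 / (12 * C) := by positivity
  have h3 : a * b ≤ 1 / (12 * C) := by
    rcases hab with ⟨h4, h5⟩ | ⟨h4, h5⟩
    · calc a * b ≤ 1 * (1 / (12 * C)) := mul_le_mul h4 h5 hb zero_le_one
        _ = _ := one_mul _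
    · calc a * b ≤ (1 / (12 * C)) * 1 := mul_le_mul h4 h5 hb hc12.le
        _ = _ := mul_one _
  have h6 : C * (a * b) ≤ 1 / 12 := by
    calc C * (a * b) ≤ C * (1 / (12 * C)) := mul_le_mul_of_nonneg_left h3 hC.le
      _ = 1 / 12 := by field_simp
  calc C * a * b * x * y = C * (a * b) * (x * y) := by ring
    _ ≤ 1 / 12 * (x * y) := mul_le_mul_of_nonneg_right h6 (by positivity)
    _ = _ := by ring

theorem bs_small_two (d : ℕ) (U : EE d → ℂ) (hUm : Measurable U) (p : ℝ) (hp0 : 0 < p)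
    (hUi : Integrable (fun x => ‖U x‖ ^ p)) (C : ℝ) (hC : 0 < C) (S : Set (EE d))
    (hSm : MeasurableSet S) (F : EE d → ℝ) (hSF : ∀ x ∈ S, ‖U x‖ ≤ F x)
    (hSint : ∫ x in Sᶜ, ‖U x‖ ^ p ≤ (1 / (12 * C)) ^ (2 * p)) (R : HH d →L[ℂ] HH d)
    (hK : ∀ W₁ W₂ : EE d → ℝ, Wt W₁ → Wt W₂ → ∀ f g : HH d,
      ‖⟪wm W₁ g, R (wm W₂ f)⟫_ℂ‖ ≤
        C * (∫ x, W₁ x ^ (2 * p)) ^ (1 / (2 * p)) * (∫ x, W₂ x ^ (2 * p)) ^ (1 / (2 * p)) *
          ‖f‖ * ‖g‖)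
    (hone : ∀ W₁ W₂ : EE d → ℝ, Wt W₁ → Wt W₂ → (∀ x, W₁ x ≤ Real.sqrt (F x)) →
      (∀ x, W₂ x ≤ Real.sqrt (F x)) →
      ∀ f g : HH d, ‖⟪wm W₁ g, R (wm W₂ f)⟫_ℂ‖ ≤ 1 / 4 * ‖f‖ * ‖g‖)
    (hN1 : ∀ W : EE d → ℝ, (∀ x, 0 ≤ W x) → (∀ x, W x ≤ Real.sqrt ‖U x‖) →
      0 ≤ (∫ x, W x ^ (2 * p)) ^ (1 / (2 * p)) ∧ (∫ x, W x ^ (2 * p)) ^ (1 / (2 * p)) ≤ 1)
    (n m : ℕ) (f g : HH d) :
    ‖⟪wm (wn U n) g, R (wm (wn U m) f)⟫_ℂ‖ ≤ 1 / 2 * ‖f‖ * ‖g‖ := by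
  have hc12 : 0 < 1 / (12 * C) := by positivity
  have hw : ∀ n, Wt (wn U n) := fun n => wn_wt U hUm n
  have hsp := fun n => bs_small_split (wn U n) (hw n) S hSm
  have hb' : ∀ n x, S.indicator (wn U n) x ≤ Real.sqrt (F x) := by
    intro n x
    by_cases hx : x ∈ S
    · rw [Set.indicator_of_mem hx]
      exact (bs_small_wn U n x).2.trans (Real.sqrt_le_sqrt (hSF x hx))
    · rw [Set.indicator_of_notMem hx]
      exact Real.sqrt_nonneg _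
  have hle1 : ∀ (T : Set (EE d)) n x, T.indicator (wn U n) x ≤ Real.sqrt ‖U x‖ := by
    intro T n x
    exact (Set.indicator_le_self' (fun x _ => (bs_small_wn U n x).1) x).trans
      (bs_small_wn U n x).2
  have hnn : ∀ (T : Set (EE d)) n x, 0 ≤ T.indicator (wn U n) x := fun T n x =>
    Set.indicator_nonneg (fun x _ => (bs_small_wn U n x).1) x
  have hNa : ∀ (T : Set (EE d)) n, 0 ≤ (∫ x, T.indicator (wn U n) x ^ (2 * p)) ^ (1 / (2 * p)) ∧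
      (∫ x, T.indicator (wn U n) x ^ (2 * p)) ^ (1 / (2 * p)) ≤ 1 := fun T n =>
    hN1 _ (hnn T n) (hle1 T n)
  have hNb : ∀ n, 0 ≤ (∫ x, Sᶜ.indicator (wn U n) x ^ (2 * p)) ^ (1 / (2 * p)) ∧
      (∫ x, Sᶜ.indicator (wn U n) x ^ (2 * p)) ^ (1 / (2 * p)) ≤ 1 / (12 * C) := by
    intro n
    refine bs_small_N (F := Sᶜ.indicator (fun x => ‖U x‖ ^ p)) hp0 (hnn Sᶜ n)
      (hUi.indicator hSm.compl) (fun x => ?_) hc12.le ?_
    · by_cases hx : x ∈ Sᶜ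
      · rw [Set.indicator_of_mem hx, Set.indicator_of_mem hx]
        exact bs_small_pw (bs_small_wn U n x).1 (norm_nonneg _) hp0 (bs_small_wn U n x).2
      · rw [Set.indicator_of_notMem hx, Set.indicator_of_notMem hx,
          Real.zero_rpow (by positivity)]
    · rw [integral_indicator hSm.compl]
      exact hSint
  have t11 := hone _ _ (hsp n).1 (hsp m).1 (hb' n) (hb' m) f g
  have t12 := (hK _ _ (hsp n).1 (hsp m).2.1 f g).trans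
    (bs_small_gen hC (norm_nonneg f) (norm_nonneg g) (hNa S n).1 (hNb m).1
      (Or.inl ⟨(hNa S n).2, (hNb m).2⟩))
  have t21 := (hK _ _ (hsp n).2.1 (hsp m).1 f g).trans
    (bs_small_gen hC (norm_nonneg f) (norm_nonneg g) (hNb n).1 (hNa S m).1
      (Or.inr ⟨(hNb n).2, (hNa S m).2⟩))
  have t22 := (hK _ _ (hsp n).2.1 (hsp m).2.1 f g).trans
    (bs_small_gen hC (norm_nonneg f) (norm_nonneg g) (hNb n).1 (hNa Sᶜ m).1
      (Or.inr ⟨(hNb n).2, (hNa Sᶜ m).2⟩))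
  refine (bs_small_four R ((hsp n).2.2 g) ((hsp m).2.2 f) t11 t12 t21 t22).trans
    (le_of_eq ?_)
  ring

theorem bs_small (d : ℕ) (hd : 1 ≤ d) (γ : ℝ) (hγ : 0 < γ) (hγ' : γ ≤ 1 / 2) (h1 : d = 1 → γ = 1 / 2)
    (V : EE d → ℂ) (hV : Measurable V)
    (hVp : Integrable (fun x => ‖V x‖ ^ (γ + (d : ℝ) / 2)))
    (hI : 0 < ∫ x, ‖V x‖ ^ (γ + (d : ℝ) / 2)) :
    ∃ ħ₀ : ℝ, 0 < ħ₀ ∧ ∀ (ħ : ℝ) (E : ℂ), 0 < ħ → ħ < ħ₀ → ¬ (0 ≤ E.re ∧ E.im = 0) →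
      ħ ^ (-(d : ℝ)) * (∫ x, ‖V x‖ ^ (γ + (d : ℝ) / 2)) ≤ ‖E‖ ^ γ →
      ∃ θ : ℝ, θ < 1 ∧
        (∀ n m : ℕ, ∀ f g : HH d,
          ‖⟪wm (wn (fun x => V ((Real.sqrt ‖E‖ / ħ)⁻¹ • x) / ((‖E‖ : ℝ) : ℂ)) n) g,
            Rz d (E / ((‖E‖ : ℝ) : ℂ))
              (wm (wn (fun x => V ((Real.sqrt ‖E‖ / ħ)⁻¹ • x) / ((‖E‖ : ℝ) : ℂ)) m) f)⟫_ℂ‖ ≤
            θ * ‖f‖ * ‖g‖) ∧
        (∀ r : ℕ, ∃ C : ℝ, ∀ n : ℕ, ∀ f g : HH d,
          ‖⟪wm (wn (fun x => V ((Real.sqrt ‖E‖ / ħ)⁻¹ • x) / ((‖E‖ : ℝ) : ℂ)) n) g,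
            Rz d (E / ((‖E‖ : ℝ) : ℂ)) (proj (Metric.closedBall 0 r) f)⟫_ℂ‖ ≤ C * ‖f‖ * ‖g‖) := by
  have hd1 : (1 : ℝ) ≤ d := by exact_mod_cast hd
  set p : ℝ := γ + (d : ℝ) / 2 with hp
  have hp0 : 0 < p := by rw [hp]; positivity
  obtain ⟨C, hC, hC1, hK⟩ := bs_small_K d hd p
    (fun h => by rw [hp, h1 h, h]; norm_num) (by rw [hp]; linarith) (by rw [hp]; linarith)
  set I : ℝ := ∫ x, ‖V x‖ ^ p with hI'
  -- common facts
  have hE0 : ∀ (h : ℝ) (E : ℂ), 0 < h → h ^ (-(d : ℝ)) * I ≤ ‖E‖ ^ γ → 0 < ‖E‖ := by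
    intro h E hh hyp
    rcases (norm_nonneg E).eq_or_lt with h0 | h0
    · exfalso
      rw [← h0, Real.zero_rpow hγ.ne'] at hyp
      have : 0 < h ^ (-(d : ℝ)) * I := mul_pos (Real.rpow_pos_of_pos hh _) hI
      linarith
    · exact h0
  have haI : ∀ (h e : ℝ), 0 < h → 0 < e → h ^ (-(d : ℝ)) * I ≤ e ^ γ →
      e ^ (-p) * (Real.sqrt e / h) ^ (d : ℝ) * I ≤ 1 := by
    intro h e hh he hyp
    rw [bs_small_ek he hh]
    have e1 : (d : ℝ) / 2 - p = -γ := by rw [hp]; ring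
    rw [e1, mul_assoc]
    calc e ^ (-γ) * (h ^ (-(d : ℝ)) * I) ≤ e ^ (-γ) * e ^ γ :=
          mul_le_mul_of_nonneg_left hyp (Real.rpow_nonneg he.le _)
      _ = 1 := by
        rw [← Real.rpow_add he]
        simp
  -- the full norm is at most one
  have hN1 : ∀ (h e : ℝ), 0 < h → 0 < e → h ^ (-(d : ℝ)) * I ≤ e ^ γ → ∀ W : EE d → ℝ,
      (∀ x, 0 ≤ W x) → (∀ x, W x ≤ Real.sqrt ‖V ((Real.sqrt e / h)⁻¹ • x) / (e : ℂ)‖) →
      0 ≤ (∫ x, W x ^ (2 * p)) ^ (1 / (2 * p)) ∧ (∫ x, W x ^ (2 * p)) ^ (1 / (2 * p)) ≤ 1 := by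
    intro h e hh he hyp W hW0 hW
    have hk0 : 0 < Real.sqrt e / h := div_pos (Real.sqrt_pos.2 he) hh
    obtain ⟨-, hUi, hUint⟩ := dil_ok d V hV (Real.sqrt e / h) e hk0 he p hp0 hVp Set.univ
      MeasurableSet.univ
    have hset : {x : EE d | (Real.sqrt e / h)⁻¹ • x ∈ (Set.univ : Set (EE d))} = Set.univ := by
      ext x
      simp
    rw [hset, Measure.restrict_univ, ← hI'] at hUint
    refine bs_small_N hp0 hW0 hUi (fun x => bs_small_pw (hW0 x) (norm_nonneg _) hp0 (hW x))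
      zero_le_one ?_
    rw [hUint, Real.one_rpow]
    exact haI h e hh he hyp
  -- first bound
  have hfirst : ∃ h₀ : ℝ, 0 < h₀ ∧ ∀ (h e : ℝ) (ζ : ℂ), 0 < h → h < h₀ → 0 < e → ‖ζ‖ = 1 →
      ζ ≠ 1 → h ^ (-(d : ℝ)) * I ≤ e ^ γ → ∀ n m : ℕ, ∀ f g : HH d,
        ‖⟪wm (wn (fun x => V ((Real.sqrt e / h)⁻¹ • x) / (e : ℂ)) n) g,
          Rz d ζ (wm (wn (fun x => V ((Real.sqrt e / h)⁻¹ • x) / (e : ℂ)) m) f)⟫_ℂ‖ ≤
          1 / 2 * ‖f‖ * ‖g‖ := by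
    rcases Nat.lt_or_ge 1 d with hd2 | hd2
    · -- `d ≥ 2`
      have hc0 : 0 < I * (1 / (12 * C)) ^ (2 * p) := mul_pos hI (by positivity)
      obtain ⟨m0, hm0, htail⟩ := bs_small_tail hV hVp hc0
      have hone : ∃ h₀ : ℝ, 0 < h₀ ∧ ∀ (h e : ℝ) (ζ : ℂ), 0 < h → h < h₀ → 0 < e → ‖ζ‖ = 1 →
          ζ ≠ 1 → h ^ (-(d : ℝ)) * I ≤ e ^ γ → ∀ W₁ W₂ : EE d → ℝ, Wt W₁ → Wt W₂ →
          (∀ x, W₁ x ≤ Real.sqrt (‖(bs_small_G V m0).indicator V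
            ((Real.sqrt e / h)⁻¹ • x)‖ / e)) →
          (∀ x, W₂ x ≤ Real.sqrt (‖(bs_small_G V m0).indicator V
            ((Real.sqrt e / h)⁻¹ • x)‖ / e)) →
          ∀ f g : HH d, ‖⟪wm W₁ g, Rz d ζ (wm W₂ f)⟫_ℂ‖ ≤ 1 / 4 * ‖f‖ * ‖g‖ := by
        rcases hγ'.lt_or_eq with hlt | heq
        · exact bs_small_one_lt d hd2 γ hγ hlt V hV I hI m0 hm0
        · rw [heq]
          exact bs_small_one_eq d hd2 V hV I hI m0 hm0
      obtain ⟨h₀, hh₀, hone⟩ := hone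
      refine ⟨h₀, hh₀, ?_⟩
      intro h e ζ hh hhlt he hζ hζ1 hyp n m f g
      have hk0 : 0 < Real.sqrt e / h := div_pos (Real.sqrt_pos.2 he) hh
      have hGm : MeasurableSet (bs_small_G V m0) := bs_small_Gm hV m0
      obtain ⟨hUm, hUi, hUint⟩ := dil_ok d V hV (Real.sqrt e / h) e hk0 he p hp0 hVp
        (bs_small_G V m0)ᶜ hGm.compl
      have ha0 : 0 ≤ e ^ (-p) * (Real.sqrt e / h) ^ (d : ℝ) :=
        mul_nonneg (Real.rpow_nonneg he.le _) (Real.rpow_nonneg hk0.le _)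
      have hSint : ∫ x in {x : EE d | (Real.sqrt e / h)⁻¹ • x ∈ bs_small_G V m0}ᶜ,
          ‖V ((Real.sqrt e / h)⁻¹ • x) / (e : ℂ)‖ ^ p ≤ (1 / (12 * C)) ^ (2 * p) := by
        refine (le_of_eq hUint).trans ?_
        calc e ^ (-p) * (Real.sqrt e / h) ^ (d : ℝ) * ∫ x in (bs_small_G V m0)ᶜ, ‖V x‖ ^ p
            ≤ e ^ (-p) * (Real.sqrt e / h) ^ (d : ℝ) * (I * (1 / (12 * C)) ^ (2 * p)) :=
              mul_le_mul_of_nonneg_left htail ha0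
          _ = (e ^ (-p) * (Real.sqrt e / h) ^ (d : ℝ) * I) * (1 / (12 * C)) ^ (2 * p) := by ring
          _ ≤ 1 * (1 / (12 * C)) ^ (2 * p) :=
              mul_le_mul_of_nonneg_right (haI h e hh he hyp) (by positivity)
          _ = _ := one_mul _
      exact bs_small_two d _ hUm p hp0 hUi C hC
        {x : EE d | (Real.sqrt e / h)⁻¹ • x ∈ bs_small_G V m0}
        ((continuous_const_smul _).measurable hGm)
        (fun x => ‖(bs_small_G V m0).indicator V ((Real.sqrt e / h)⁻¹ • x)‖ / e)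
        (fun x hx => by
          rw [bs_small_nd V _ e he x, Set.indicator_of_mem
            (show (Real.sqrt e / h)⁻¹ • x ∈ bs_small_G V m0 from hx)]) hSint (Rz d ζ)
        (hK ζ hζ hζ1) (hone h e ζ hh hhlt he hζ hζ1 hyp) (hN1 h e hh he hyp) n m f g
    · -- `d = 1`
      have hdd : d = 1 := by omega
      refine ⟨1, one_pos, ?_⟩
      intro h e ζ hh _ he hζ hζ1 hyp n m f g
      have hk0 : 0 < Real.sqrt e / h := div_pos (Real.sqrt_pos.2 he) hh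
      obtain ⟨hUm, -, -⟩ := dil_ok d V hV (Real.sqrt e / h) e hk0 he p hp0 hVp Set.univ
        MeasurableSet.univ
      refine (hK ζ hζ hζ1 _ _ (wn_wt _ hUm n) (wn_wt _ hUm m) f g).trans ?_
      obtain ⟨a0, a1⟩ := hN1 h e hh he hyp
        (wn (fun x => V ((Real.sqrt e / h)⁻¹ • x) / (e : ℂ)) n)
        (fun x => (bs_small_wn _ n x).1) (fun x => (bs_small_wn _ n x).2)
      obtain ⟨b0, b1⟩ := hN1 h e hh he hyp
        (wn (fun x => V ((Real.sqrt e / h)⁻¹ • x) / (e : ℂ)) m)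
        (fun x => (bs_small_wn _ m x).1) (fun x => (bs_small_wn _ m x).2)
      rw [hC1 hdd]
      refine mul_le_mul_of_nonneg_right (mul_le_mul_of_nonneg_right ?_ (norm_nonneg _))
        (norm_nonneg _)
      calc 1 / 2 * _ * _ ≤ 1 / 2 * 1 * (1 : ℝ) :=
            mul_le_mul (mul_le_mul_of_nonneg_left a1 (by norm_num)) b1 b0 (by norm_num)
        _ = 1 / 2 := by norm_num
  obtain ⟨h₀, hh₀, hfirst⟩ := hfirst
  refine ⟨h₀, hh₀, fun h E hh hhlt hE hyp => ?_⟩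
  have he := hE0 h E hh hyp
  obtain ⟨hζ, hζ1⟩ := bs_small_zeta he hE
  refine ⟨1 / 2, by norm_num, hfirst h ‖E‖ _ hh hhlt he hζ hζ1 hyp, fun r => ?_⟩
  set W₂ : EE d → ℝ := (Metric.closedBall (0 : EE d) r).indicator (fun _ => (1 : ℝ)) with hW₂
  have hproj : (proj (Metric.closedBall (0 : EE d) r) : HH d →L[ℂ] HH d) = wm W₂ := by
    unfold proj wm
    congr 1
    funext x
    rw [hW₂]
    by_cases hx : x ∈ Metric.closedBall (0 : EE d) r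
    · rw [Set.indicator_of_mem hx, Set.indicator_of_mem hx, Complex.ofReal_one]
    · rw [Set.indicator_of_notMem hx, Set.indicator_of_notMem hx, Complex.ofReal_zero]
  have hWt : Wt W₂ := by
    refine ⟨measurable_const.indicator measurableSet_closedBall,
      fun x => Set.indicator_nonneg (fun _ _ => zero_le_one) x, ⟨1, fun x => ?_⟩,
      ⟨r, fun x hx => ?_⟩⟩
    · exact Set.indicator_le_self' (fun _ _ => zero_le_one) x
    · rw [hW₂, Set.indicator_of_notMem]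
      rw [Metric.mem_closedBall, dist_zero_right]
      exact not_le.2 hx
  have hk0 : 0 < Real.sqrt ‖E‖ / h := div_pos (Real.sqrt_pos.2 he) hh
  obtain ⟨hUm, -, -⟩ := dil_ok d V hV (Real.sqrt ‖E‖ / h) ‖E‖ hk0 he p hp0 hVp Set.univ
    MeasurableSet.univ
  refine ⟨C * 1 * (∫ x, W₂ x ^ (2 * p)) ^ (1 / (2 * p)), fun n f g => ?_⟩
  rw [hproj]
  refine (hK _ hζ hζ1 _ _ (wn_wt _ hUm n) hWt f g).trans ?_
  obtain ⟨a0, a1⟩ := hN1 h ‖E‖ hh he hyp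
    (wn (fun x => V ((Real.sqrt ‖E‖ / h)⁻¹ • x) / ((‖E‖ : ℝ) : ℂ)) n)
    (fun x => (bs_small_wn _ n x).1) (fun x => (bs_small_wn _ n x).2)
  have b0 : 0 ≤ (∫ x, W₂ x ^ (2 * p)) ^ (1 / (2 * p)) :=
    Real.rpow_nonneg (integral_nonneg fun x => Real.rpow_nonneg (hWt.2.1 x) _) _
  refine mul_le_mul_of_nonneg_right (mul_le_mul_of_nonneg_right ?_ (norm_nonneg _))
    (norm_nonneg _)
  exact mul_le_mul_of_nonneg_right (mul_le_mul_of_nonneg_left a1 hC.le) b0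

end

end KRS
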