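import Pool.Agent.H631.KR.Defs

open MeasureTheory Filter Topology ENNReal Complex
open scoped Laplacian FourierTransform InnerProductSpace

namespace KRS

noncomputable section

/-! TARGET: prove the following -/

theorem sum_lp_aux1 {d : ℕ} (q : ℝ≥0∞) (V : EE d → ℂ) (hV : BV V) : MemLp V q volume := by
  obtain ⟨hm, ⟨B, hB⟩, ⟨r, hr⟩⟩ := hV
  have h : V = (Metric.closedBall (0 : EE d) r).indicator V := by
    funext x
    by_cases hx : x ∈ Metric.closedBall (0 : EE d) r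
    · rw [Set.indicator_of_mem hx]
    · rw [Set.indicator_of_notMem hx]
      apply hr
      rw [Metric.mem_closedBall, dist_zero_right] at hx
      exact not_le.1 hx
  rw [h, memLp_indicator_iff_restrict Metric.isClosed_closedBall.measurableSet]
  have : IsFiniteMeasure (volume.restrict (Metric.closedBall (0 : EE d) r)) := ⟨by
    rw [Measure.restrict_apply_univ]
    exact measure_closedBall_lt_top⟩
  exact MemLp.of_bound hm.aestronglyMeasurable.restrict B (Filter.Eventually.of_forall hB)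

theorem sum_lp (d : ℕ) (p : ℝ) (hp : 1 ≤ p) (v : ℕ → EE d → ℂ) (x₀ : ℕ → EE d) (hv : ∀ k, BV (v k))
    (hs : ∀ k x, 1 < ‖x - x₀ k‖ → v k x = 0) (c : ℕ → ℝ) (hc : Summable c)
    (hvc : ∀ k, (∫ x, ‖v k x‖ ^ p) ^ (1 / p) ≤ c k) (hc1 : ∑' k, c k ≤ 1) :
    ∃ V : EE d → ℂ, Measurable V ∧
      (∀ᵐ x, Summable (fun j => ‖v j x‖) ∧ HasSum (fun j => v j x) (V x)) ∧
      MemLp V (ENNReal.ofReal p) volume ∧ Integrable (fun x => ‖V x‖ ^ p) ∧
      ∫ x, ‖V x‖ ^ p ≤ 1 := by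
  have hp0 : 0 < p := lt_of_lt_of_le one_pos hp
  have hq1 : (1:ℝ≥0∞) ≤ ENNReal.ofReal p := by
    rw [← ENNReal.ofReal_one]; exact ENNReal.ofReal_le_ofReal hp
  have hq0 : ENNReal.ofReal p ≠ 0 := (lt_of_lt_of_le one_pos hq1).ne'
  have hqt : ENNReal.ofReal p ≠ ∞ := ENNReal.ofReal_ne_top
  have hqr : (ENNReal.ofReal p).toReal = p := ENNReal.toReal_ofReal hp0.le
  have hM : ∀ k, MemLp (v k) (ENNReal.ofReal p) volume := fun k => sum_lp_aux1 _ _ (hv k)
  have hcn : ∀ k, 0 ≤ c k := fun k =>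
    le_trans (Real.rpow_nonneg (integral_nonneg fun x => Real.rpow_nonneg (norm_nonneg _) _) _)
      (hvc k)
  have hE : ∀ k, eLpNorm (v k) (ENNReal.ofReal p) volume ≤ ENNReal.ofReal (c k) := by
    intro k
    rw [(hM k).eLpNorm_eq_integral_rpow_norm hq0 hqt, hqr, ← one_div]
    exact ENNReal.ofReal_le_ofReal (hvc k)
  have hmeas : ∀ k, Measurable (v k) := fun k => (hv k).1
  have hmG : ∀ n, Measurable (fun x => ∑ k ∈ Finset.range n, ‖v k x‖ₑ) := fun n =>
    Finset.measurable_sum _ fun k _ => (hmeas k).enorm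
  have hGn : ∀ n, ∫⁻ x, (∑ k ∈ Finset.range n, ‖v k x‖ₑ) ^ p ≤ 1 := by
    intro n
    have h1 : eLpNorm (∑ k ∈ Finset.range n, fun x => ‖v k x‖ₑ) (ENNReal.ofReal p) volume ≤ 1 := by
      refine (eLpNorm_sum_le (fun k _ => (hmeas k).enorm.aestronglyMeasurable) hq1).trans ?_
      calc ∑ k ∈ Finset.range n, eLpNorm (fun x => ‖v k x‖ₑ) (ENNReal.ofReal p) volume
          ≤ ∑ k ∈ Finset.range n, ENNReal.ofReal (c k) := by
            refine Finset.sum_le_sum fun k _ => ?_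
            rw [eLpNorm_enorm]
            exact hE k
        _ = ENNReal.ofReal (∑ k ∈ Finset.range n, c k) :=
            (ENNReal.ofReal_sum_of_nonneg fun k _ => hcn k).symm
        _ ≤ ENNReal.ofReal 1 :=
            ENNReal.ofReal_le_ofReal ((hc.sum_le_tsum _ fun k _ => hcn k).trans hc1)
        _ = 1 := ENNReal.ofReal_one
    rw [eLpNorm_eq_lintegral_rpow_enorm_toReal hq0 hqt, hqr] at h1
    have h2 : ∫⁻ x, ‖(∑ k ∈ Finset.range n, fun x => ‖v k x‖ₑ) x‖ₑ ^ p ≤ 1 := by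
      by_contra hlt
      rw [not_le] at hlt
      have := ENNReal.one_lt_rpow hlt (one_div_pos.2 hp0)
      exact absurd h1 (not_le.2 this)
    simpa [Finset.sum_apply] using h2
  have hGt : ∫⁻ x, (∑' k, ‖v k x‖ₑ) ^ p ≤ 1 := by
    have hlim : ∀ x, Tendsto (fun n => (∑ k ∈ Finset.range n, ‖v k x‖ₑ) ^ p) atTop
        (𝓝 ((∑' k, ‖v k x‖ₑ) ^ p)) := fun x =>
      ((ENNReal.continuous_rpow_const (y := p)).tendsto _).comp
        (ENNReal.summable.hasSum.tendsto_sum_nat)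
    have hF := lintegral_liminf_le (μ := (volume : Measure (EE d))) (u := (atTop : Filter ℕ))
      (f := fun n x => (∑ k ∈ Finset.range n, ‖v k x‖ₑ) ^ p) (fun n => (hmG n).pow_const p)
    simp only [(hlim _).liminf_eq] at hF
    refine hF.trans ?_
    have h3 : liminf (fun n : ℕ => ∫⁻ x, (∑ k ∈ Finset.range n, ‖v k x‖ₑ) ^ p) atTop ≤
        liminf (fun _ : ℕ => (1:ℝ≥0∞)) atTop :=
      Filter.liminf_le_liminf (Filter.Eventually.of_forall hGn)
    exact h3.trans (by simp)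
  have hmt : Measurable (fun x => ∑' k, ‖v k x‖ₑ) :=
    Measurable.tsum fun k => (hmeas k).enorm
  have hfin : ∀ᵐ x, (∑' k, ‖v k x‖ₑ) ≠ ∞ := by
    have h1 : ∀ᵐ x, (∑' k, ‖v k x‖ₑ) ^ p < ∞ :=
      ae_lt_top (hmt.pow_const p) (lt_of_le_of_lt hGt ENNReal.one_lt_top).ne
    filter_upwards [h1] with x hx h
    rw [h, ENNReal.top_rpow_of_pos hp0] at hx
    exact lt_irrefl _ hx
  have hsum : ∀ᵐ x, Summable (fun j => ‖v j x‖) := by
    filter_upwards [hfin] with x hx
    have h2 : Summable (fun j => ‖v j x‖₊) := ENNReal.tsum_coe_ne_top_iff_summable.1 hx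
    exact NNReal.summable_coe.2 h2
  obtain ⟨V, hVm, hVt⟩ := measurable_limit_of_tendsto_metrizable_ae (L := atTop)
    (f := fun (n : ℕ) x => ∑ k ∈ Finset.range n, v k x) (μ := (volume : Measure (EE d)))
    (fun n => (Finset.measurable_sum _ fun k _ => hmeas k).aemeasurable)
    (by
      filter_upwards [hsum] with x hx
      exact ⟨_, hx.of_norm.hasSum.tendsto_sum_nat⟩)
  have hVs : ∀ᵐ x, Summable (fun j => ‖v j x‖) ∧ HasSum (fun j => v j x) (V x) := by
    filter_upwards [hsum, hVt] with x hx hx2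
    refine ⟨hx, ?_⟩
    have h1 := hx.of_norm.hasSum
    rwa [tendsto_nhds_unique h1.tendsto_sum_nat hx2] at h1
  have hVle : ∫⁻ x, ‖V x‖ₑ ^ p ≤ 1 := by
    refine le_trans (lintegral_mono_ae ?_) hGt
    filter_upwards [hVs] with x hx
    refine ENNReal.rpow_le_rpow ?_ hp0.le
    rw [← hx.2.tsum_eq]
    exact enorm_tsum_le_tsum_enorm
  have hVe : eLpNorm V (ENNReal.ofReal p) volume ≤ 1 := by
    rw [eLpNorm_eq_lintegral_rpow_enorm_toReal hq0 hqt, hqr]
    exact ENNReal.rpow_le_one hVle (one_div_pos.2 hp0).le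
  have hVL : MemLp V (ENNReal.ofReal p) volume :=
    ⟨hVm.aestronglyMeasurable, lt_of_le_of_lt hVe ENNReal.one_lt_top⟩
  refine ⟨V, hVm, hVs, hVL, ?_, ?_⟩
  · have := hVL.integrable_norm_rpow hq0 hqt
    rwa [hqr] at this
  · rw [hVL.eLpNorm_eq_integral_rpow_norm hq0 hqt, hqr] at hVe
    rw [← ENNReal.ofReal_one, ENNReal.ofReal_le_ofReal_iff zero_le_one] at hVe
    by_contra hlt
    rw [not_le] at hlt
    exact absurd hVe (not_le.2 (Real.one_lt_rpow hlt (inv_pos.2 hp0)))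

end

end KRS
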