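import Pool.Agent.H631.KR.Defs
import Pool.Agent.H631.KR.B16
import Pool.Agent.H631.KR.B30
import Pool.Agent.H631.KR.K00

open MeasureTheory Filter Topology ENNReal Complex
open scoped Laplacian FourierTransform InnerProductSpace

namespace KRS

noncomputable section

/-! TARGET: prove the following -/

theorem block_seq_lam (γ p : ℝ) (hγ : 0 < γ) (hp : γ ≤ p) :
    ∃ Λ : ℕ → ℝ, (∀ j, 0 < Λ j) ∧
      (∀ j, Λ j ^ (2 * γ) = (2 ^ γ * 4 ^ p) * 4 ^ ((j : ℝ) * p)) ∧ (∀ j, (2 : ℝ) ^ j ≤ Λ j) := by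
  have hK : (1:ℝ) ≤ 2 ^ γ * 4 ^ p := by
    have h1 : (1:ℝ) ≤ 2 ^ γ := Real.one_le_rpow (by norm_num) hγ.le
    have h2 : (1:ℝ) ≤ 4 ^ p := Real.one_le_rpow (by norm_num) (by linarith)
    nlinarith
  refine ⟨fun j => ((2 ^ γ * 4 ^ p) * 4 ^ ((j : ℝ) * p)) ^ (1 / (2 * γ)), ?_, ?_, ?_⟩
  · intro j
    positivity
  · intro j
    rw [← Real.rpow_mul (by positivity), one_div, inv_mul_cancel₀ (by positivity), Real.rpow_one]
  · intro j
    have h3 : ((2:ℝ)^j)^(2*γ) ≤ (2 ^ γ * 4 ^ p) * 4 ^ ((j : ℝ) * p) := by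
      have h4 : ((2:ℝ)^j)^(2*γ) = 4^((j:ℝ)*γ) := by
        rw [← Real.rpow_natCast 2 j, ← Real.rpow_mul (by norm_num),
          show (4:ℝ) = 2^(2:ℝ) by norm_num, ← Real.rpow_mul (by norm_num)]
        congr 1
        ring
      rw [h4]
      have h5 : (4:ℝ)^((j:ℝ)*γ) ≤ 4^((j:ℝ)*p) :=
        Real.rpow_le_rpow_of_exponent_le (by norm_num) (by gcongr)
      have h6 : 0 < (4:ℝ)^((j:ℝ)*p) := by positivity
      nlinarith
    calc (2:ℝ)^j = (((2:ℝ)^j)^(2*γ))^(1/(2*γ)) := by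
          rw [← Real.rpow_mul (by positivity), mul_one_div_cancel (by positivity), Real.rpow_one]
      _ ≤ _ := Real.rpow_le_rpow (by positivity) h3 (by positivity)

theorem block_seq_kap (s : ℝ) (hs : 0 < s) (κ₁ : ℝ) (hκ₁ : 0 < κ₁) :
    ∀ᶠ j : ℕ in atTop, ((j : ℝ) + 1) ^ (-s) < κ₁ ∧
      ((((j : ℝ) + 1) ^ (-s))⁻¹) ^ 2 ≤ (2 : ℝ) ^ j := by
  have ht : Tendsto (fun j : ℕ => (j : ℝ) + 1) atTop atTop :=
    tendsto_atTop_add_const_right _ _ tendsto_natCast_atTop_atTop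
  have h1 := ((tendsto_rpow_neg_atTop hs).comp ht).eventually (gt_mem_nhds hκ₁)
  have h2 := ((tendsto_rpow_mul_exp_neg_mul_atTop_nhds_zero (2 * s) (Real.log 2)
    (Real.log_pos (by norm_num))).comp ht).eventually (gt_mem_nhds (show (0:ℝ) < 1 / 2 by norm_num))
  filter_upwards [h1, h2] with j hj1 hj2
  refine ⟨hj1, ?_⟩
  simp only [Function.comp] at hj2
  have hpos : (0:ℝ) < (j:ℝ) + 1 := by positivity
  have e1 : Real.exp (-Real.log 2 * ((j:ℝ) + 1)) = ((2:ℝ) ^ (j + 1))⁻¹ := by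
    rw [neg_mul, Real.exp_neg, mul_comm, ← Real.log_rpow (by norm_num), Real.exp_log (by positivity)]
    congr 1
    rw [← Real.rpow_natCast]
    push_cast
    rfl
  rw [e1, ← div_eq_mul_inv, div_lt_iff₀ (by positivity)] at hj2
  have e2 : ((((j : ℝ) + 1) ^ (-s))⁻¹) ^ 2 = ((j:ℝ) + 1) ^ (2 * s) := by
    rw [Real.rpow_neg hpos.le, inv_inv, ← Real.rpow_natCast, ← Real.rpow_mul hpos.le]
    congr 1
    push_cast
    ring
  rw [e2]
  have e3 : 1 / 2 * (2:ℝ) ^ (j + 1) = 2 ^ j := by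
    rw [pow_succ]
    ring
  rw [e3] at hj2
  exact hj2.le

theorem block_seq_eps (s : ℝ) (hs : 0 < s) (ε : ℝ) (hε : 0 < ε) :
    ∃ c' : ℝ, 0 < c' ∧ ∀ j : ℕ, c' * (((2 : ℝ)⁻¹) ^ j) ^ ε ≤ ((j : ℝ) + 1) ^ (-s) := by
  have hlog : 0 < Real.log 2 := Real.log_pos (by norm_num)
  obtain ⟨m, hm⟩ : ∃ m, m = min 1 (ε / s * Real.log 2) := ⟨_, rfl⟩
  have hm0 : 0 < m := by
    rw [hm]
    exact lt_min one_pos (by positivity)
  have hm1 : m ≤ 1 := by rw [hm]; exact min_le_left _ _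
  have hm2 : m ≤ ε / s * Real.log 2 := by rw [hm]; exact min_le_right _ _
  refine ⟨m ^ s, by positivity, ?_⟩
  intro j
  have hj0 : (0:ℝ) ≤ j := Nat.cast_nonneg j
  have hpos : (0:ℝ) < (j:ℝ) + 1 := by positivity
  have h1 : m * ((j:ℝ) + 1) ≤ Real.exp (ε / s * Real.log 2 * j) := by
    have h2 := Real.add_one_le_exp (ε / s * Real.log 2 * j)
    have h3 : m * j ≤ ε / s * Real.log 2 * j := mul_le_mul_of_nonneg_right hm2 hj0
    nlinarith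
  have h4 := Real.rpow_le_rpow (by positivity) h1 hs.le
  rw [Real.mul_rpow hm0.le hpos.le, ← Real.exp_mul] at h4
  have e1 : ε / s * Real.log 2 * j * s = ε * (Real.log 2 * j) := by
    field_simp
  rw [e1] at h4
  have e2 : (((2 : ℝ)⁻¹) ^ j) ^ ε = (Real.exp (ε * (Real.log 2 * j)))⁻¹ := by
    rw [inv_pow, Real.inv_rpow (by positivity), mul_comm ε, Real.exp_mul, mul_comm (Real.log 2),
      ← Real.log_rpow (by norm_num), Real.exp_log (by positivity), Real.rpow_natCast]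
  rw [e2, Real.rpow_neg hpos.le, ← div_eq_mul_inv, div_le_iff₀ (Real.exp_pos _),
    ← div_eq_inv_mul, le_div_iff₀ (by positivity)]
  exact h4

theorem block_seq_op (d : ℕ) (g Λ : ℝ) (j : ℕ) (hΛ : 0 < Λ) (V : EE d → ℂ) (hV : BV V) (z : ℂ) :
    AA d g (fun x => ((Λ ^ 2 / 4 ^ j : ℝ) : ℂ) * V (Λ • x)) z =
      AA d (g / 4 ^ j) (fun x => (Λ : ℂ) ^ 2 * V (Λ • x)) z := by
  obtain ⟨hm, ⟨B, hB⟩, -⟩ := hV
  have hmeas : Measurable fun x : EE d => V (Λ • x) := hm.comp (measurable_const_smul Λ)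
  have hop : mulOp (fun x : EE d => ((Λ ^ 2 / 4 ^ j : ℝ) : ℂ) * V (Λ • x)) =
      (((4 : ℝ) ^ j : ℝ) : ℂ)⁻¹ • mulOp (fun x : EE d => (Λ : ℂ) ^ 2 * V (Λ • x)) := by
    ext1 f
    apply Lp.ext
    have h1 := mulOp_ae (fun x : EE d => ((Λ ^ 2 / 4 ^ j : ℝ) : ℂ) * V (Λ • x))
      (hmeas.const_mul _) (Λ ^ 2 / 4 ^ j * B) (by
        intro x
        rw [norm_mul, Complex.norm_real, Real.norm_of_nonneg (by positivity)]
        exact mul_le_mul_of_nonneg_left (hB _) (by positivity)) f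
    have h2 := mulOp_ae (fun x : EE d => (Λ : ℂ) ^ 2 * V (Λ • x))
      (hmeas.const_mul _) (Λ ^ 2 * B) (by
        intro x
        rw [norm_mul, norm_pow, Complex.norm_real, Real.norm_of_nonneg hΛ.le]
        exact mul_le_mul_of_nonneg_left (hB _) (by positivity)) f
    have h3 := Lp.coeFn_smul ((((4 : ℝ) ^ j : ℝ) : ℂ)⁻¹)
      (mulOp (fun x : EE d => (Λ : ℂ) ^ 2 * V (Λ • x)) f)
    rw [_root_.smul_apply]
    filter_upwards [h1, h2, h3] with x hx1 hx2 hx3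
    rw [hx1, hx3, Pi.smul_apply, hx2, smul_eq_mul]
    push_cast
    ring
  unfold AA
  rw [hop, ContinuousLinearMap.smul_comp, smul_smul]
  congr 2
  push_cast
  ring

theorem block_seq_int (d : ℕ) (p γ Λ κa : ℝ) (j : ℕ) (hp : p = γ + (d : ℝ) / 2) (hp0 : 0 < p)
    (hΛ : 0 < Λ)
    (hΛ2 : Λ ^ (2 * γ) = (2 ^ γ * 4 ^ p) * 4 ^ ((j : ℝ) * p))
    (V : EE d → ℂ) (hint : (∫ x, ‖V x‖ ^ p) ≤ κa) :
    (∫ x : EE d, ‖((Λ ^ 2 / 4 ^ j : ℝ) : ℂ) * V (Λ • x)‖ ^ p) ≤ (2 ^ γ * 4 ^ p) * κa := by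
  have h1 : ∀ x : EE d, ‖((Λ ^ 2 / 4 ^ j : ℝ) : ℂ) * V (Λ • x)‖ ^ p =
      (Λ ^ 2 / 4 ^ j) ^ p * (fun y : EE d => ‖V y‖ ^ p) (Λ • x) := by
    intro x
    rw [norm_mul, Complex.norm_real, Real.norm_of_nonneg (by positivity),
      Real.mul_rpow (by positivity) (norm_nonneg _)]
  have h0 := Measure.integral_comp_smul (volume : Measure (EE d)) (fun y : EE d => ‖V y‖ ^ p) Λ
  simp_rw [h1]
  rw [integral_const_mul, h0]
  rw [finrank_euclideanSpace_fin, smul_eq_mul, abs_of_nonneg (by positivity), ← mul_assoc]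
  have h2 : (Λ ^ 2 / 4 ^ j) ^ p * (Λ ^ d)⁻¹ = 2 ^ γ * 4 ^ p := by
    rw [Real.div_rpow (by positivity) (by positivity), ← Real.rpow_natCast Λ 2,
      ← Real.rpow_mul hΛ.le, ← Real.rpow_natCast 4 j, ← Real.rpow_mul (by norm_num),
      ← Real.rpow_natCast Λ d]
    have e1 : ((2 : ℕ) : ℝ) * p = 2 * γ + (d : ℝ) := by
      rw [hp]
      push_cast
      ring
    rw [e1, Real.rpow_add hΛ, hΛ2]
    have h3 : (0:ℝ) < 4 ^ ((j : ℝ) * p) := by positivity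
    have h4 : (0:ℝ) < Λ ^ (d : ℝ) := by positivity
    field_simp
  rw [h2]
  exact mul_le_mul_of_nonneg_left hint (by positivity)

theorem block_seq (d : ℕ) (hd : 1 ≤ d) (γ : ℝ) (hγ : 1 / 2 < γ) :
    ∃ (J₀ : ℕ) (lam κ c : ℕ → ℝ) (v : ℕ → EE d → ℂ), (∀ k, 0 < lam k ∧ 0 < κ k) ∧
      (∀ k, BV (v k)) ∧ (∀ k x, 1 < ‖x‖ → v k x = 0) ∧ Summable c ∧ (∑' k, c k ≤ 1) ∧
      (∀ k, (∫ x, ‖v k x‖ ^ (γ + (d : ℝ) / 2)) ^ (1 / (γ + (d : ℝ) / 2)) ≤ c k) ∧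
      (∀ k, ∀ g : ℝ, (4 : ℝ) ^ (k + J₀) ≤ g → g ≤ (4 : ℝ) ^ (k + J₀ + 1) →
        ∃ z : ℂ, lam k ^ 2 / 2 < z.re ∧ z.re < 2 * lam k ^ 2 ∧ κ k * lam k ^ 2 / 5 < z.im ∧
          z.im < lam k ^ 2 ∧ ¬ IsUnit (AA d g (v k) z)) ∧
      (∀ k, ∀ ħ : ℝ, ((2 : ℝ)⁻¹) ^ (k + J₀ + 1) ≤ ħ →
        ħ ^ (-(d : ℝ)) ≤ (ħ ^ 2 * lam k ^ 2 / 2) ^ γ) ∧
      (∀ ε : ℝ, 0 < ε → ∃ c' : ℝ, 0 < c' ∧ ∀ k, c' * (((2 : ℝ)⁻¹) ^ (k + J₀)) ^ ε ≤ κ k) := by
  obtain ⟨p, hp⟩ : ∃ p, p = γ + (d:ℝ)/2 := ⟨_, rfl⟩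
  have hd' : (1:ℝ) ≤ d := by exact_mod_cast hd
  have hp1 : ((d:ℝ)+1)/2 < p := by rw [hp]; linarith
  have hγ0 : 0 < γ := by linarith
  have hγp : γ ≤ p := by rw [hp]; linarith
  have hp0 : 0 < p := by linarith
  obtain ⟨a, κ₁, ha, hκ₁, -, hblock⟩ := single_block d hd p hp1
  obtain ⟨s, hs⟩ : ∃ s, s = 2 * p / a := ⟨_, rfl⟩
  have hs0 : 0 < s := by rw [hs]; positivity
  obtain ⟨Λ, hΛ0, hΛ2, hΛ3⟩ := block_seq_lam γ p hγ0 hγp
  obtain ⟨K, hK⟩ : ∃ K : ℝ, K = 2 ^ γ * 4 ^ p := ⟨_, rfl⟩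
  have hK0 : 0 < K := by rw [hK]; positivity
  obtain ⟨f, hf⟩ : ∃ f : ℕ → ℝ, f = fun j : ℕ => K ^ (1 / p) * (((j : ℝ) + 1) ^ 2)⁻¹ := ⟨_, rfl⟩
  have hfs : Summable f := by
    rw [hf]
    apply Summable.mul_left
    have h1 : Summable fun n : ℕ => ((n : ℝ) ^ 2)⁻¹ := Real.summable_nat_pow_inv.mpr (by norm_num)
    have h2 := (summable_nat_add_iff 1).mpr h1
    refine h2.congr ?_
    intro j
    push_cast
    rfl
  have htail := (tendsto_sum_nat_add f).eventually (gt_mem_nhds (show (0:ℝ) < 1 by norm_num))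
  have hev := block_seq_kap s hs0 κ₁ hκ₁
  obtain ⟨J₁, hJ₁⟩ := eventually_atTop.mp hev
  obtain ⟨J₂, hJ₂⟩ := eventually_atTop.mp htail
  obtain ⟨J₀, hJ₀⟩ : ∃ J₀, J₀ = max J₁ J₂ := ⟨_, rfl⟩
  have hJ1 : ∀ k, J₁ ≤ k + J₀ := by
    intro k
    rw [hJ₀]
    exact le_trans (le_max_left _ _) (Nat.le_add_left _ _)
  have hJ2 : J₂ ≤ J₀ := by rw [hJ₀]; exact le_max_right _ _
  obtain ⟨kap, hkap⟩ : ∃ kap : ℕ → ℝ, kap = fun j : ℕ => ((j : ℝ) + 1) ^ (-s) := ⟨_, rfl⟩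
  have hkap0 : ∀ j, 0 < kap j := by
    intro j
    rw [hkap]
    positivity
  have hV : ∀ k, ∃ V : EE d → ℂ, BV V ∧ (∀ x, (kap (k + J₀))⁻¹ ^ 2 < ‖x‖ → V x = 0) ∧
      (∫ x, ‖V x‖ ^ p) ≤ (kap (k + J₀)) ^ a ∧
        ∀ g : ℝ, 1 ≤ g → g ≤ 4 →
          ∃ z : ℂ, 1 / 2 < z.re ∧ z.re < 2 ∧ kap (k + J₀) / 5 < z.im ∧ z.im < 1 ∧
            ¬ IsUnit (AA d g V z) := by
    intro k
    refine hblock _ (hkap0 _) ?_
    have := (hJ₁ _ (hJ1 k)).1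
    rw [hkap]
    exact this
  choose V hVB hVs hVi hVz using hV
  refine ⟨J₀, fun k => Λ (k + J₀), fun k => kap (k + J₀), fun k => f (k + J₀),
    fun k x => ((Λ (k + J₀) ^ 2 / 4 ^ (k + J₀) : ℝ) : ℂ) * V k (Λ (k + J₀) • x),
    ?_, ?_, ?_, ?_, ?_, ?_, ?_, ?_, ?_⟩
  · intro k
    exact ⟨hΛ0 _, hkap0 _⟩
  · intro k
    obtain ⟨hm, ⟨B, hB⟩, ⟨r, hr⟩⟩ := hVB k
    have hL := hΛ0 (k + J₀)
    refine ⟨(hm.comp (measurable_const_smul _)).const_mul _,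
      ⟨Λ (k + J₀) ^ 2 / 4 ^ (k + J₀) * B, ?_⟩, ⟨r / Λ (k + J₀), ?_⟩⟩
    · intro x
      rw [norm_mul, Complex.norm_real, Real.norm_of_nonneg (by positivity)]
      exact mul_le_mul_of_nonneg_left (hB _) (by positivity)
    · intro x hx
      change (_ : ℂ) * V k (Λ (k + J₀) • x) = 0
      rw [hr _ ?_, mul_zero]
      rw [norm_smul, Real.norm_of_nonneg hL.le]
      rw [div_lt_iff₀ hL] at hx
      linarith
  · intro k x hx
    have hL := hΛ0 (k + J₀)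
    have h1 := (hJ₁ _ (hJ1 k)).2
    have h2 := hΛ3 (k + J₀)
    simp only
    rw [hVs k _ ?_, mul_zero]
    rw [norm_smul, Real.norm_of_nonneg hL.le]
    have h3 : (kap (k + J₀))⁻¹ ^ 2 ≤ Λ (k + J₀) := by
      rw [hkap]
      exact h1.trans h2
    calc (kap (k + J₀))⁻¹ ^ 2 ≤ Λ (k + J₀) := h3
      _ < Λ (k + J₀) * ‖x‖ := by nlinarith
  · exact (summable_nat_add_iff J₀).mpr hfs
  · exact (hJ₂ J₀ hJ2).le
  · intro k
    have h1 := block_seq_int d p γ (Λ (k + J₀)) _ (k + J₀) hp hp0 (hΛ0 _) (hΛ2 _) (V k) (hVi k)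
    rw [← hp]
    rw [← hK] at h1
    have h2 := Real.rpow_le_rpow (integral_nonneg (fun x => by positivity)) h1
      (show 0 ≤ 1 / p by positivity)
    refine h2.trans (le_of_eq ?_)
    rw [Real.mul_rpow hK0.le (by have := hkap0 (k + J₀); positivity), hf, hkap]
    simp only
    congr 1
    have hpos : (0:ℝ) < ((k + J₀ : ℕ) : ℝ) + 1 := by positivity
    rw [← Real.rpow_mul hpos.le, ← Real.rpow_mul hpos.le, ← Real.rpow_natCast,
      ← Real.rpow_neg hpos.le]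
    congr 1
    rw [hs]
    push_cast
    field_simp
  · intro k g hg1 hg2
    have hL := hΛ0 (k + J₀)
    have h4 : (0:ℝ) < 4 ^ (k + J₀) := by positivity
    obtain ⟨z, hz1, hz2, hz3, hz4, hz5⟩ := hVz k (g / 4 ^ (k + J₀))
      (by rw [le_div_iff₀ h4]; linarith) (by
        rw [div_le_iff₀ h4]
        rw [pow_succ] at hg2
        linarith)
    have hL2 : 0 < Λ (k + J₀) ^ 2 := by positivity
    have hre : ((Λ (k + J₀) : ℂ) ^ 2 * z).re = Λ (k + J₀) ^ 2 * z.re := by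
      rw [← Complex.ofReal_pow, Complex.re_ofReal_mul]
    have him : ((Λ (k + J₀) : ℂ) ^ 2 * z).im = Λ (k + J₀) ^ 2 * z.im := by
      rw [← Complex.ofReal_pow, Complex.im_ofReal_mul]
    refine ⟨(Λ (k + J₀) : ℂ) ^ 2 * z, ?_, ?_, ?_, ?_, ?_⟩
    · rw [hre]
      nlinarith
    · rw [hre]
      nlinarith
    · rw [him]
      nlinarith
    · rw [him]
      nlinarith
    · rw [block_seq_op d g (Λ (k + J₀)) (k + J₀) hL (V k) (hVB k)]
      have hzim : 0 < z.im := by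
        have := hkap0 (k + J₀)
        linarith
      rw [sing_dil d _ (Λ (k + J₀)) hL (V k) (hVB k) z hzim]
      exact hz5
  · intro k ħ hħ
    have hL := hΛ0 (k + J₀)
    have hħ0 : 0 < ħ := lt_of_lt_of_le (by positivity) hħ
    have e1 : (ħ ^ 2 * Λ (k + J₀) ^ 2 / 2) ^ γ = ħ ^ (2 * γ) * (4 ^ p * 4 ^ (((k + J₀ : ℕ) : ℝ) * p)) := by
      rw [Real.div_rpow (by positivity) (by norm_num), Real.mul_rpow (by positivity) (by positivity),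
        ← Real.rpow_natCast ħ 2, ← Real.rpow_natCast (Λ (k + J₀)) 2, ← Real.rpow_mul hħ0.le,
        ← Real.rpow_mul hL.le]
      have e0 : ((2 : ℕ) : ℝ) * γ = 2 * γ := by norm_num
      rw [e0, hΛ2]
      have h2 : (0:ℝ) < 2 ^ γ := by positivity
      field_simp
    have e2 : ħ ^ (-(d : ℝ)) = ħ ^ (2 * γ) * ħ ^ (-(2 * p)) := by
      rw [← Real.rpow_add hħ0]
      congr 1
      rw [hp]
      ring
    have e3 : ħ ^ (-(2 * p)) = ((ħ ^ 2)⁻¹) ^ p := by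
      rw [Real.rpow_neg hħ0.le, Real.inv_rpow (by positivity), ← Real.rpow_natCast ħ 2,
        ← Real.rpow_mul hħ0.le]
      norm_num
    have e4 : (4:ℝ) ^ p * 4 ^ (((k + J₀ : ℕ) : ℝ) * p) = (4 ^ (k + J₀ + 1)) ^ p := by
      rw [← Real.rpow_add (by norm_num), ← Real.rpow_natCast 4, ← Real.rpow_mul (by norm_num)]
      congr 1
      push_cast
      ring
    have h5 : (ħ ^ 2)⁻¹ ≤ 4 ^ (k + J₀ + 1) := by
      rw [inv_le_comm₀ (by positivity) (by positivity)]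
      have h6 := pow_le_pow_left₀ (by positivity) hħ 2
      refine le_trans (le_of_eq ?_) h6
      rw [← pow_mul, mul_comm, pow_mul, ← inv_pow]
      norm_num
    simp only
    rw [e1, e2, e3, e4]
    exact mul_le_mul_of_nonneg_left (Real.rpow_le_rpow (by positivity) h5 hp0.le) (by positivity)
  · intro ε hε
    obtain ⟨c', hc', h⟩ := block_seq_eps s hs0 ε hε
    refine ⟨c', hc', ?_⟩
    intro k
    have := h (k + J₀)
    rw [hkap]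
    exact this

end

end KRS
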