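import Pool.Agent.H631.KR.Defs
import Pool.Agent.H631.KR.B19
import Pool.Agent.H631.KR.B21
import Pool.Agent.H631.KR.B22
import Pool.Agent.H631.KR.B23
import Pool.Agent.H631.KR.D01
import Pool.Agent.H631.KR.D02

open MeasureTheory Filter Topology ENNReal Complex
open scoped Laplacian FourierTransform InnerProductSpace

namespace KRS

noncomputable section

/-! TARGET: prove the following -/

theorem bp_BV {d : ℕ} (v : EE d → ℂ) (hv : BV v) (x₀ : EE d) : BV (fun y => v (y - x₀)) := by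
  obtain ⟨h1, ⟨B, hB⟩, ⟨r, hr⟩⟩ := hv
  refine ⟨h1.comp (measurable_id.sub_const x₀), ⟨B, fun x => hB _⟩,
    ⟨r + ‖x₀‖, fun x hx => hr _ ?_⟩⟩
  have := norm_sub_norm_le x x₀
  linarith

theorem bp_k (J₀ : ℕ) (ħ : ℝ) (h0 : 0 < ħ) (h1 : ħ < ((2 : ℝ)⁻¹) ^ J₀) :
    ∃ k : ℕ, ((2 : ℝ)⁻¹) ^ (k + J₀ + 1) < ħ ∧ ħ ≤ ((2 : ℝ)⁻¹) ^ (k + J₀) := by
  classical
  have hex : ∃ k : ℕ, ((2 : ℝ)⁻¹) ^ (k + J₀ + 1) < ħ := by
    obtain ⟨n, hn⟩ := exists_pow_lt_of_lt_one h0 (by norm_num : (2 : ℝ)⁻¹ < 1)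
    refine ⟨n, lt_of_le_of_lt ?_ hn⟩
    exact pow_le_pow_of_le_one (by norm_num) (by norm_num) (by omega)
  refine ⟨Nat.find hex, Nat.find_spec hex, ?_⟩
  rcases Nat.eq_zero_or_pos (Nat.find hex) with h | h
  · rw [h, zero_add]; exact h1.le
  · have h2 := Nat.find_min hex (Nat.sub_lt h one_pos)
    rw [not_lt] at h2
    have e : Nat.find hex - 1 + J₀ + 1 = Nat.find hex + J₀ := by omega
    rwa [e] at h2

theorem bp_four (m : ℕ) : (4 : ℝ) ^ m = ((((2 : ℝ)⁻¹) ^ m) ^ 2)⁻¹ := by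
  rw [← pow_mul, mul_comm, pow_mul, ← inv_pow]
  congr 1
  norm_num

/-- the open boxes -/
def bpQ (lam κ : ℝ) : Set ℂ :=
  {z : ℂ | lam ^ 2 / 2 < z.re ∧ z.re < 2 * lam ^ 2 ∧ κ * lam ^ 2 / 5 < z.im ∧ z.im < lam ^ 2}

theorem bpQ_open (lam κ : ℝ) : IsOpen (bpQ lam κ) := by
  refine (isOpen_lt continuous_const Complex.continuous_re).and
    ((isOpen_lt Complex.continuous_re continuous_const).and
      ((isOpen_lt continuous_const Complex.continuous_im).and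
        (isOpen_lt Complex.continuous_im continuous_const)))

theorem bpQ_closure (lam κ : ℝ) (z : ℂ) (hz : z ∈ closure (bpQ lam κ)) :
    lam ^ 2 / 2 ≤ z.re ∧ z.re ≤ 2 * lam ^ 2 ∧ κ * lam ^ 2 / 5 ≤ z.im ∧ z.im ≤ lam ^ 2 := by
  refine ⟨?_, ?_, ?_, ?_⟩
  · exact closure_minimal (s := bpQ lam κ) (t := {z : ℂ | lam ^ 2 / 2 ≤ z.re})
      (fun w hw => hw.1.le) (isClosed_le continuous_const Complex.continuous_re) hz
  · exact closure_minimal (s := bpQ lam κ) (t := {z : ℂ | z.re ≤ 2 * lam ^ 2})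
      (fun w hw => hw.2.1.le) (isClosed_le Complex.continuous_re continuous_const) hz
  · exact closure_minimal (s := bpQ lam κ) (t := {z : ℂ | κ * lam ^ 2 / 5 ≤ z.im})
      (fun w hw => hw.2.2.1.le) (isClosed_le continuous_const Complex.continuous_im) hz
  · exact closure_minimal (s := bpQ lam κ) (t := {z : ℂ | z.im ≤ lam ^ 2})
      (fun w hw => hw.2.2.2.le) (isClosed_le Complex.continuous_im continuous_const) hz

theorem bp_norm (lam κ : ℝ) (hκ : 0 < κ) (z : ℂ)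
    (h : lam ^ 2 / 2 ≤ z.re ∧ z.re ≤ 2 * lam ^ 2 ∧ κ * lam ^ 2 / 5 ≤ z.im ∧ z.im ≤ lam ^ 2) :
    ‖z‖ ≤ 3 * lam ^ 2 := by
  have h0 : 0 ≤ lam ^ 2 := sq_nonneg _
  have h1 : 0 ≤ z.re := by linarith [h.1]
  have h2 : 0 ≤ z.im := le_trans (by positivity) h.2.2.1
  have h3 := Complex.norm_le_abs_re_add_abs_im z
  rw [abs_of_nonneg h1, abs_of_nonneg h2] at h3
  linarith [h.2.1, h.2.2.2]

theorem bpQ_bdd (lam κ : ℝ) (hκ : 0 < κ) : Bornology.IsBounded (bpQ lam κ) := by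
  refine (Metric.isBounded_closedBall (x := (0 : ℂ)) (r := 3 * lam ^ 2)).subset fun z hz => ?_
  rw [mem_closedBall_zero_iff]
  exact bp_norm lam κ hκ z (bpQ_closure lam κ z (subset_closure hz))

theorem big_pot (d : ℕ) (hd : 1 ≤ d) (γ : ℝ) (hγ : 1 / 2 < γ) :
    ∃ V : EE d → ℂ, Measurable V ∧ MemLp V (ENNReal.ofReal (γ + (d : ℝ) / 2)) volume ∧
      Integrable (fun x => ‖V x‖ ^ (γ + (d : ℝ) / 2)) ∧
      (∫ x, ‖V x‖ ^ (γ + (d : ℝ) / 2)) ≤ 1 ∧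
      ∀ ε : ℝ, 0 < ε → ∃ c : ℝ, 0 < c ∧ ∃ ħ₀ : ℝ, 0 < ħ₀ ∧ ∀ ħ : ℝ, 0 < ħ → ħ < ħ₀ →
        ∃ (E : ℂ) (u : HH d), u ≠ 0 ∧ ħ ^ (-(d : ℝ)) ≤ ‖E‖ ^ γ ∧ 0 < E.re ∧
          0 < E.im ∧ c * ħ ^ ε * ‖E‖ ≤ E.im ∧
          (∀ i : Fin d, ∃ D : HH d, ∀ φ : EE d → ℂ, IsTest φ →
            ∫ x, (u : EE d → ℂ) x * (fderiv ℝ φ x (EuclideanSpace.single i 1)) =
              - ∫ x, (D : EE d → ℂ) x * φ x) ∧
          Integrable (fun x => ‖V x‖ * ‖(u : EE d → ℂ) x‖ ^ 2) ∧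
          ∀ φ : EE d → ℂ, IsTest φ → Integrable (fun x => V x * (u : EE d → ℂ) x * φ x) ∧
            (∫ x, (u : EE d → ℂ) x * (-((ħ : ℂ) ^ 2) * (Δ φ) x)) +
              (∫ x, V x * (u : EE d → ℂ) x * φ x) = E * (∫ x, (u : EE d → ℂ) x * φ x) := by
  have hd1 : (1 : ℝ) ≤ d := by exact_mod_cast hd
  have hp1 : (1 : ℝ) ≤ γ + (d : ℝ) / 2 := by linarith
  have hp2 : ((d : ℝ) + 1) / 2 ≤ γ + (d : ℝ) / 2 := by linarith
  obtain ⟨J₀, lam, κ, c, v, hpos, hBV, hsupp, hcs, hc1, hcp, hzz, hE, hκ⟩ := block_seq d hd γ hγ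
  obtain ⟨x, hx⟩ := positions d hd v hBV (fun k => (4 : ℝ) ^ (k + J₀))
    (fun k => (4 : ℝ) ^ (k + J₀ + 1)) (fun k => by positivity) (fun k => bpQ (lam k) (κ k))
    (fun k => bpQ_open _ _)
    (fun k z hz => lt_trans (by have := (hpos k).1; have := (hpos k).2; positivity) hz.2.2.1)
    (fun k g hg => by
      obtain ⟨z, h1, h2, h3, h4, h5⟩ := hzz k g hg.1 hg.2
      exact ⟨z, ⟨h1, h2, h3, h4⟩, h5⟩)
  obtain ⟨v', hv'⟩ : ∃ v' : ℕ → EE d → ℂ, v' = fun k y => v k (y - x k) := ⟨_, rfl⟩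
  have hBV' : ∀ k, BV (v' k) := fun k => by rw [hv']; exact bp_BV (v k) (hBV k) (x k)
  have hsupp' : ∀ k y, 1 < ‖y - x k‖ → v' k y = 0 := fun k y hy => by
    rw [hv']; exact hsupp k _ hy
  have hint : ∀ k, ∫ y, ‖v' k y‖ ^ (γ + (d : ℝ) / 2) = ∫ y, ‖v k y‖ ^ (γ + (d : ℝ) / 2) := by
    intro k
    rw [hv']
    exact integral_sub_right_eq_self (fun y => ‖v k y‖ ^ (γ + (d : ℝ) / 2)) (x k)
  have hcp' : ∀ k, (∫ y, ‖v' k y‖ ^ (γ + (d : ℝ) / 2)) ^ (1 / (γ + (d : ℝ) / 2)) ≤ c k := by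
    intro k
    rw [hint]
    exact hcp k
  obtain ⟨C, hC, hform⟩ := form_bound d hd (γ + (d : ℝ) / 2) hp2
  have hm : Summable (fun k => C * c k) := hcs.mul_left C
  have hmj : ∀ j, ∀ f : HH d, ∫ y, ‖v' j y‖ * ‖(fm tsym f : EE d → ℂ) y‖ ^ 2 ≤
      (C * c j) * ‖f‖ ^ 2 := by
    intro j f
    refine (hform (v' j) (x j) (hBV' j) (hsupp' j) f).trans ?_
    exact mul_le_mul_of_nonneg_right (mul_le_mul_of_nonneg_left (hcp' j) hC.le) (by positivity)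
  obtain ⟨V, hVm, hVae, hVLp, hVi, hV1⟩ := sum_lp d (γ + (d : ℝ) / 2) hp1 v' x hBV' hsupp' c hcs
    hcp' hc1
  refine ⟨V, hVm, hVLp, hVi, hV1, ?_⟩
  intro ε hε
  obtain ⟨c', hc'0, hc'⟩ := hκ ε hε
  refine ⟨c' / 15, by positivity, ((2 : ℝ)⁻¹) ^ J₀, by positivity, ?_⟩
  intro ħ hħ0 hħ1
  obtain ⟨k, hk1, hk2⟩ := bp_k J₀ ħ hħ0 hħ1
  have hg1 : (4 : ℝ) ^ (k + J₀) ≤ (ħ ^ 2)⁻¹ := by
    rw [bp_four]
    exact inv_anti₀ (by positivity) (pow_le_pow_left₀ hħ0.le hk2 2)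
  have hg2 : (ħ ^ 2)⁻¹ ≤ (4 : ℝ) ^ (k + J₀ + 1) := by
    rw [bp_four]
    exact inv_anti₀ (by positivity) (pow_le_pow_left₀ (by positivity) hk1.le 2)
  have hlk := (hpos k).1
  have hκk := (hpos k).2
  obtain ⟨M, hM, z, hz, f, hf, hf0⟩ := limit_op d v' hBV' (fun k => C * c k) hm hmj (ħ ^ 2)⁻¹
    (bpQ (lam k) (κ k)) (bpQ_bdd _ _ hκk)
    (fun z hz => lt_of_lt_of_le (by positivity) (bpQ_closure _ _ z hz).2.2.1) k
    (fun n hn => by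
      rw [hv']
      exact hx n k hn _ ⟨hg1, hg2⟩)
  have hzc := bpQ_closure _ _ z hz
  have hzn := bp_norm _ _ hκk z hzc
  have hzre : 0 < z.re := lt_of_lt_of_le (by positivity) hzc.1
  have hzim : 0 < z.im := lt_of_lt_of_le (by positivity) hzc.2.2.1
  obtain ⟨u, hu0, huD, huI, huW⟩ := limit_weak d v' hBV' (fun k => C * c k) hm hmj V hVae (ħ ^ 2)⁻¹
    M hM z hzim f hf hf0
  have hħ2 : 0 < ħ ^ 2 := by positivity
  have hEn : ‖(ħ : ℂ) ^ 2 * z‖ = ħ ^ 2 * ‖z‖ := by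
    rw [norm_mul, norm_pow, Complex.norm_real, Real.norm_of_nonneg hħ0.le]
  have hEe : (ħ : ℂ) ^ 2 * z = ((ħ ^ 2 : ℝ) : ℂ) * z := by push_cast; ring
  have hEre : ((ħ : ℂ) ^ 2 * z).re = ħ ^ 2 * z.re := by rw [hEe, Complex.re_ofReal_mul]
  have hEim : ((ħ : ℂ) ^ 2 * z).im = ħ ^ 2 * z.im := by rw [hEe, Complex.im_ofReal_mul]
  refine ⟨(ħ : ℂ) ^ 2 * z, u, hu0, ?_, ?_, ?_, ?_, huD, huI, ?_⟩
  · refine (hE k ħ hk1.le).trans ?_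
    refine Real.rpow_le_rpow (by positivity) ?_ (by linarith)
    rw [hEn]
    have h1 : z.re ≤ ‖z‖ := Complex.re_le_norm z
    nlinarith [hzc.1]
  · rw [hEre]; positivity
  · rw [hEim]; positivity
  · rw [hEn, hEim]
    have h1 : ħ ^ ε ≤ (((2 : ℝ)⁻¹) ^ (k + J₀)) ^ ε := Real.rpow_le_rpow hħ0.le hk2 hε.le
    have h2 : c' * ħ ^ ε ≤ κ k := (mul_le_mul_of_nonneg_left h1 hc'0.le).trans (hc' k)
    have h3 : 0 ≤ ħ ^ ε := Real.rpow_nonneg hħ0.le _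
    have h4 : c' / 15 * ħ ^ ε * (ħ ^ 2 * ‖z‖) ≤ c' / 15 * ħ ^ ε * (ħ ^ 2 * (3 * lam k ^ 2)) :=
      mul_le_mul_of_nonneg_left (mul_le_mul_of_nonneg_left hzn hħ2.le) (by positivity)
    have h5 : c' / 15 * ħ ^ ε * (ħ ^ 2 * (3 * lam k ^ 2)) = (c' * ħ ^ ε) * (ħ ^ 2 * lam k ^ 2 / 5) := by
      ring
    have h6 : (c' * ħ ^ ε) * (ħ ^ 2 * lam k ^ 2 / 5) ≤ κ k * (ħ ^ 2 * lam k ^ 2 / 5) :=
      mul_le_mul_of_nonneg_right h2 (by positivity)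
    have h7 : κ k * (ħ ^ 2 * lam k ^ 2 / 5) = ħ ^ 2 * (κ k * lam k ^ 2 / 5) := by ring
    have h8 : ħ ^ 2 * (κ k * lam k ^ 2 / 5) ≤ ħ ^ 2 * z.im :=
      mul_le_mul_of_nonneg_left hzc.2.2.1 hħ2.le
    linarith
  · intro φ hφ
    obtain ⟨w1, w2⟩ := huW φ hφ
    refine ⟨w1, ?_⟩
    have e1 : ∫ y, (u : EE d → ℂ) y * (-((ħ : ℂ) ^ 2) * (Δ φ) y) =
        (ħ : ℂ) ^ 2 * ∫ y, (u : EE d → ℂ) y * (-(Δ φ) y) := by
      rw [← integral_const_mul]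
      refine integral_congr_ae (Filter.Eventually.of_forall fun y => ?_)
      simp only
      ring
    have e2 : (ħ : ℂ) ^ 2 * (((ħ ^ 2)⁻¹ : ℝ) : ℂ) = 1 := by
      have : (ħ : ℂ) ≠ 0 := by exact_mod_cast hħ0.ne'
      push_cast
      field_simp
    rw [e1, mul_assoc, ← w2, mul_add, ← mul_assoc _ (((ħ ^ 2)⁻¹ : ℝ) : ℂ), e2, one_mul]


end

end KRS
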