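import Pool.Agent.H631.KR.K00
import Pool.Agent.H631.KR.K0R
import Pool.Agent.H631.KR.K01
import Pool.Agent.H631.KR.K02
import Pool.Agent.H631.KR.K03
import Pool.Agent.H631.KR.K04
import Pool.Agent.H631.KR.K05
import Pool.Agent.H631.KR.K06
import Pool.Agent.H631.KR.K07
import Pool.Agent.H631.KR.K08
import Pool.Agent.H631.KR.K09
import Pool.Agent.H631.KR.K10
import Pool.Agent.H631.KR.K11
import Pool.Agent.H631.KR.K12
import Pool.Agent.H631.KR.B01
import Pool.Agent.H631.KR.B02
import Pool.Agent.H631.KR.B03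
import Pool.Agent.H631.KR.B04
import Pool.Agent.H631.KR.B05
import Pool.Agent.H631.KR.B06
import Pool.Agent.H631.KR.B07
import Pool.Agent.H631.KR.B08
import Pool.Agent.H631.KR.B09
import Pool.Agent.H631.KR.B10
import Pool.Agent.H631.KR.B11
import Pool.Agent.H631.KR.B12
import Pool.Agent.H631.KR.B13
import Pool.Agent.H631.KR.B14
import Pool.Agent.H631.KR.B15
import Pool.Agent.H631.KR.B16
import Pool.Agent.H631.KR.B17
import Pool.Agent.H631.KR.B18
import Pool.Agent.H631.KR.B19
import Pool.Agent.H631.KR.B20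
import Pool.Agent.H631.KR.B21
import Pool.Agent.H631.KR.B22
import Pool.Agent.H631.KR.B23
import Pool.Agent.H631.KR.B24
import Pool.Agent.H631.KR.B25
import Pool.Agent.H631.KR.B26
import Pool.Agent.H631.KR.B27
import Pool.Agent.H631.KR.B28
import Pool.Agent.H631.KR.B29
import Pool.Agent.H631.KR.B30
import Pool.Agent.H631.KR.C01
import Pool.Agent.H631.KR.C02
import Pool.Agent.H631.KR.C03
import Pool.Agent.H631.KR.C04
import Pool.Agent.H631.KR.D01
import Pool.Agent.H631.KR.D02
import Pool.Agent.H631.KR.D03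
import Pool.Agent.H631.KR.D04
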