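import Pool.Agent.H631.KR.Defs
import Pool.Agent.H631.KR.C02
import Pool.Agent.H631.KR.K00
import Pool.Agent.H631.KR.K0R
import Pool.Agent.H631.KR.K12

open MeasureTheory Filter Topology ENNReal Complex
open scoped Laplacian FourierTransform InnerProductSpace

namespace KRS

noncomputable section

/-! TARGET: prove the following -/

theorem wm_zero_aux {d : ℕ} (n : ℕ) (g : HH d) : wm (wn (fun _ : EE d => (0 : ℂ)) n) g = 0 := by
  have h0 : wn (fun _ : EE d => (0 : ℂ)) n = fun _ => 0 := by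
    funext x
    simp [wn]
  rw [h0]
  unfold wm
  have h1 := mulOp_ae (fun _ : EE d => (((0 : ℝ) : ℂ))) measurable_const 0 (by intro x; simp) g
  apply Lp.ext
  refine h1.trans ?_
  refine Filter.EventuallyEq.trans ?_ (Lp.coeFn_zero ℂ 2 volume).symm
  filter_upwards with x
  simp

theorem free_zero (d : ℕ) (ħ : ℝ) (hħ : 0 < ħ) (E : ℂ) (hE : 0 < E.im) (u : HH d)
    (hw : ∀ φ : EE d → ℂ, IsTest φ →
      ∫ x, (u : EE d → ℂ) x * (-((ħ : ℂ) ^ 2) * (Δ φ) x) = E * (∫ x, (u : EE d → ℂ) x * φ x)) :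
    u = 0 := by
  have hE0 : E ≠ 0 := by
    rintro rfl
    simp at hE
  obtain ⟨w, hwu, -, hw'⟩ := scale_weak d (fun _ => (0 : ℂ)) measurable_const ħ hħ E hE0 u
    (by simp) (by
      intro φ hφ
      rw [← hw φ hφ]
      simp)
  apply hwu
  refine contraction d (E / ((‖E‖ : ℝ) : ℂ)) (Or.inl ?_) (fun _ => (0 : ℂ)) measurable_const 1
    (le_refl _) (by simp) 0 one_pos ?_ ?_ w (by simp) ?_

  · have h1 : (E / ((‖E‖ : ℝ) : ℂ)).im = E.im / ‖E‖ := Complex.div_ofReal_im E ‖E‖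
    rw [h1]
    exact div_pos hE (norm_pos_iff.mpr hE0)
  · intro n m f g
    rw [wm_zero_aux, inner_zero_left]
    simp
  · intro r
    refine ⟨0, fun n f g => ?_⟩
    rw [wm_zero_aux, inner_zero_left]
    simp
  · intro φ hφ
    rw [← hw' φ hφ]
    simp

end

end KRS
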